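import Mathlib

set_option autoImplicit false

open Finset Function Equiv

namespace Pool.Agent.SemiProp.Alt

variable {N : ℕ}

/-- Integer functions on bead positions. -/
abbrev Fn (N : ℕ) : Type := (Fin N → ℕ) → ℤ

/-- Move one bead up by `d`, onto a position satisfying `Q`. -/
def up (d : ℕ) (Q : ℕ → Prop) [DecidablePred Q] (f : Fn N) : Fn N := fun e =>
  ∑ j, if d ≤ e j ∧ Q (e j) then f (update e j (e j - d)) else 0

/-- Move one bead down by `d`, from a position satisfying `Q`. -/
def dn (d : ℕ) (Q : ℕ → Prop) [DecidablePred Q] (f : Fn N) : Fn N := fun e =>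
  ∑ j, if Q (e j + d) then f (update e j (e j + d)) else 0

/-- Exponent vectors of total degree `M`. -/
def lev (N M : ℕ) : Finset (Fin N → ℕ) := Finset.Nat.antidiagonalTuple N M

theorem mem_lev {M : ℕ} {e : Fin N → ℕ} : e ∈ lev N M ↔ ∑ j, e j = M :=
  Finset.Nat.mem_antidiagonalTuple

/-- The pairing in degree `M`. -/
def pair (M : ℕ) (f g : Fn N) : ℤ := ∑ e ∈ lev N M, f e * g e

/-- Antisymmetry. -/
def AS (f : Fn N) : Prop := ∀ (σ : Perm (Fin N)) (e : Fin N → ℕ), f (e ∘ σ) = (σ.sign : ℤ) * f e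

/-- Homogeneity. -/
def Hom (M : ℕ) (f : Fn N) : Prop := ∀ e, f e ≠ 0 → ∑ j, e j = M

theorem sum_upd (e : Fin N → ℕ) (j : Fin N) (x : ℕ) :
    ∑ l, update e j x l + e j = ∑ l, e l + x := by
  rw [sum_update_of_mem (mem_univ j), ← add_sum_erase univ e (mem_univ j), sdiff_singleton_eq_erase]
  ring

theorem upd_comp (e : Fin N → ℕ) (σ : Perm (Fin N)) (j : Fin N) (x : ℕ) :
    update (e ∘ σ) j x = update e (σ j) x ∘ σ :=
  (update_comp_eq_of_injective e σ.injective j x).symm

theorem pair_comm (M : ℕ) (f g : Fn N) : pair M f g = pair M g f :=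
  sum_congr rfl fun _ _ => mul_comm _ _

theorem adj (M d : ℕ) (Q : ℕ → Prop) [DecidablePred Q] (f g : Fn N) :
    pair M (dn d Q f) g = pair (M + d) f (up d Q g) := by
  simp only [pair, dn, up, sum_mul, mul_sum]
  rw [sum_comm, sum_comm (s := lev N (M + d))]
  refine sum_congr rfl fun j _ => ?_
  have h1 : ∑ e ∈ lev N (M + d),
      f e * (if d ≤ e j ∧ Q (e j) then g (update e j (e j - d)) else 0) =
      ∑ e ∈ (lev N (M + d)).filter (fun e => d ≤ e j),
        (if Q (e j) then f e else 0) * g (update e j (e j - d)) := by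
    rw [sum_filter]
    refine sum_congr rfl fun e _ => ?_
    by_cases h : d ≤ e j <;> by_cases h' : Q (e j) <;> simp [h, h']
  rw [h1]
  refine sum_nbij' (fun e => update e j (e j + d)) (fun e => update e j (e j - d)) ?_ ?_ ?_ ?_ ?_
  · intro e he
    have h2 := mem_lev.1 he
    have h3 := sum_upd e j (e j + d)
    refine mem_filter.2 ⟨mem_lev.2 (by omega), by simp⟩
  · intro e he
    obtain ⟨h2, h4⟩ := mem_filter.1 he
    have h2 := mem_lev.1 h2
    have h3 := sum_upd e j (e j - d)
    exact mem_lev.2 (by omega)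
  · intro e _
    simp
  · intro e he
    obtain ⟨-, h4⟩ := mem_filter.1 he
    simp [Nat.sub_add_cancel h4]
  · intro e _
    simp

theorem AS.up {f : Fn N} (h : AS f) (d : ℕ) (Q : ℕ → Prop) [DecidablePred Q] : AS (up d Q f) := by
  intro σ e
  simp only [Alt.up, mul_sum]
  rw [← Equiv.sum_comp σ (fun j => (σ.sign : ℤ) *
    if d ≤ e j ∧ Q (e j) then f (update e j (e j - d)) else 0)]
  refine sum_congr rfl fun j _ => ?_
  rw [upd_comp, h]
  simp

theorem AS.dn {f : Fn N} (h : AS f) (d : ℕ) (Q : ℕ → Prop) [DecidablePred Q] : AS (dn d Q f) := by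
  intro σ e
  simp only [Alt.dn, mul_sum]
  rw [← Equiv.sum_comp σ (fun j => (σ.sign : ℤ) *
    if Q (e j + d) then f (update e j (e j + d)) else 0)]
  refine sum_congr rfl fun j _ => ?_
  rw [upd_comp, h]
  simp

theorem AS.inj {f : Fn N} (h : AS f) {e : Fin N → ℕ} (he : f e ≠ 0) : Injective e := by
  intro i j hij
  by_contra hne
  have h1 : e ∘ swap i j = e := by
    funext l
    simp only [comp_apply, swap_apply_def]
    split_ifs with h2 h3
    · rw [h2, hij]
    · rw [h3, hij]
    · rfl
  have h2 := h (swap i j) e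
  rw [h1, Perm.sign_swap hne] at h2
  simp only [Units.val_neg, Units.val_one, neg_mul, one_mul] at h2
  omega

theorem AS.ext0 {f : Fn N} (h : AS f) (h0 : ∀ e, Injective e → f e = 0) : f = 0 := by
  funext e
  by_contra he
  exact he (h0 e (h.inj he))

theorem Hom.up {M : ℕ} {f : Fn N} (h : Hom M f) (d : ℕ) (Q : ℕ → Prop) [DecidablePred Q] :
    Hom (M + d) (up d Q f) := by
  intro e he
  obtain ⟨j, -, hj⟩ := exists_ne_zero_of_sum_ne_zero he
  split_ifs at hj with h1
  · have h2 := h _ hj
    have h3 := sum_upd e j (e j - d)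
    omega
  · exact absurd rfl hj

theorem Hom.dn {M : ℕ} {f : Fn N} (h : Hom M f) (d : ℕ) (Q : ℕ → Prop) [DecidablePred Q]
    {e : Fin N → ℕ} (he : dn d Q f e ≠ 0) : ∑ j, e j + d = M := by
  obtain ⟨j, -, hj⟩ := exists_ne_zero_of_sum_ne_zero he
  split_ifs at hj with h1
  · have h2 := h _ hj
    have h3 := sum_upd e j (e j + d)
    omega
  · exact absurd rfl hj

theorem range_le_sum (s : Finset ℕ) : ∑ i ∈ range s.card, i ≤ ∑ x ∈ s, x := by
  induction s using Finset.induction_on_max with
  | empty => simp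
  | insert a s ha ih =>
    have h1 : a ∉ s := fun h => lt_irrefl _ (ha a h)
    have h2 : s.card ≤ a := by
      simpa using card_le_card (show s ⊆ range a from fun x hx => mem_range.2 (ha x hx))
    rw [card_insert_of_notMem h1, sum_range_succ, sum_insert h1]
    omega

/-- The least total degree of an injective exponent vector. -/
def base (N : ℕ) : ℕ := ∑ i ∈ range N, i

theorem base_le {e : Fin N → ℕ} (h : Injective e) : base N ≤ ∑ j, e j := by
  have h1 := range_le_sum (univ.image e)
  rwa [card_image_of_injective _ h, sum_image (fun a _ b _ hab => h hab), card_univ,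
    Fintype.card_fin] at h1

theorem filled {e : Fin N → ℕ} (h : Injective e) {z : ℕ} (hz : ∑ j, e j + z < base N + N) :
    ∃ j, e j = z := by
  by_contra hc
  have h0 : z ∉ univ.image e := by simpa using hc
  have h1 := range_le_sum (insert z (univ.image e))
  rw [card_insert_of_notMem h0, sum_insert h0, card_image_of_injective _ h,
    sum_image (fun a _ b _ hab => h hab), card_univ, Fintype.card_fin, sum_range_succ] at h1
  unfold base at hz
  omega

theorem comm_raw (m d : ℕ) (Q : ℕ → Prop) [DecidablePred Q] (hQ : ∀ x, Q (x + m) ↔ Q x)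
    (f : Fn N) (e : Fin N → ℕ) :
    dn m (fun _ => True) (up d Q f) e - up d Q (dn m (fun _ => True) f) e =
      ∑ j, if e j < d ∧ d ≤ e j + m ∧ Q (e j) then f (update e j (e j + m - d)) else 0 := by
  simp only [dn, up, if_true]
  rw [sum_comm, ← sum_sub_distrib]
  refine sum_congr rfl fun j _ => ?_
  have h1 : (if d ≤ e j ∧ Q (e j) then
      ∑ l, f (update (update e j (e j - d)) l (update e j (e j - d) l + m)) else 0) =
      ∑ l, if d ≤ e j ∧ Q (e j) then
        f (update (update e j (e j - d)) l (update e j (e j - d) l + m)) else 0 := by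
    split_ifs <;> simp
  rw [h1, ← sum_sub_distrib, sum_eq_single j]
  · simp only [update_self, update_idem, hQ]
    by_cases h2 : Q (e j)
    · by_cases h3 : d ≤ e j
      · have h4 : e j + m - d = e j - d + m := by omega
        have h5 : d ≤ e j + m := by omega
        have h6 : ¬ e j < d := by omega
        simp [h2, h3, h4, h5, h6]
      · have h6 : e j < d := by omega
        simp [h2, h3, h6]
    · simp [h2]
  · intro l _ hl
    rw [update_of_ne hl.symm, update_of_ne hl, update_comm hl]
    simp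
  · simp

theorem comm_ne {M m d : ℕ} (Q : ℕ → Prop) [DecidablePred Q] (hQ : ∀ x, Q (x + m) ↔ Q x)
    {f : Fn N} (h : AS f) (hf : Hom M f) (hM : M + d ≤ base N + N) (hd : d ≠ m) :
    dn m (fun _ => True) (up d Q f) = up d Q (dn m (fun _ => True) f) := by
  rw [← sub_eq_zero]
  refine AS.ext0 (fun σ e => ?_) fun e he => ?_
  · simp only [Pi.sub_apply]
    rw [(h.up d Q).dn, (h.dn m _).up, mul_sub]
  · simp only [Pi.sub_apply]
    rw [comm_raw m d Q hQ]
    refine sum_eq_zero fun j _ => ?_
    split_ifs with h1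
    · by_contra h2
      obtain ⟨l, hl⟩ := filled (h.inj h2) (z := e j) (by rw [hf _ h2]; omega)
      by_cases h3 : l = j
      · rw [h3, update_self] at hl
        omega
      · rw [update_of_ne h3] at hl
        exact h3 (he hl)
    · rfl

theorem comm_eq {M d : ℕ} {f : Fn N} (h : AS f) (hf : Hom M f) (hM : M + d ≤ base N + N)
    (e : Fin N → ℕ) :
    dn d (fun _ => True) (up d (fun _ => True) f) e =
      up d (fun _ => True) (dn d (fun _ => True) f) e + d * f e := by
  rw [← sub_eq_iff_eq_add', comm_raw d d _ (fun _ => Iff.rfl)]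
  simp only [le_add_iff_nonneg_left, zero_le, and_self, and_true, add_tsub_cancel_right,
    update_eq_self]
  by_cases h0 : f e = 0
  · simp [h0]
  · have h1 := h.inj h0
    have h2 : (univ.filter fun j => e j < d).image e = range d := by
      ext z
      simp only [mem_image, mem_filter, mem_univ, true_and, mem_range]
      refine ⟨fun ⟨j, h3, h4⟩ => h4 ▸ h3, fun h3 => ?_⟩
      obtain ⟨l, hl⟩ := filled h1 (z := z) (by rw [hf _ h0]; omega)
      exact ⟨l, hl ▸ h3, hl⟩
    have h3 := congrArg card h2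
    rw [card_image_of_injective _ h1, card_range] at h3
    rw [← sum_filter, sum_const, h3, nsmul_eq_mul]

/-- The antisymmetrised indicator of an exponent vector. -/
def alt (e0 : Fin N → ℕ) : Fn N := fun e =>
  ∑ σ : Perm (Fin N), if e = e0 ∘ σ then (σ.sign : ℤ) else 0

theorem sign_sq (σ : Perm (Fin N)) : (σ.sign : ℤ) * (σ.sign : ℤ) = 1 := by
  rw [← Units.val_mul, Int.units_mul_self, Units.val_one]

theorem alt_as (e0 : Fin N → ℕ) : AS (alt e0) := by
  intro τ e
  simp only [alt, mul_sum]
  rw [← Equiv.sum_comp (Equiv.mulRight τ)]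
  refine sum_congr rfl fun σ _ => ?_
  have h1 : e ∘ τ = e0 ∘ ⇑(σ * τ) ↔ e = e0 ∘ σ := by
    rw [Perm.coe_mul, ← comp_assoc]
    exact τ.surjective.right_cancellable
  simp only [Equiv.coe_mulRight, h1, Perm.sign_mul, Units.val_mul]
  split_ifs
  · ring
  · ring

theorem alt_ne {e0 e : Fin N → ℕ} (h : alt e0 e ≠ 0) : ∃ σ : Perm (Fin N), e = e0 ∘ σ := by
  obtain ⟨σ, -, hσ⟩ := exists_ne_zero_of_sum_ne_zero h
  exact ⟨σ, by by_contra h1; exact hσ (if_neg h1)⟩

theorem sum_comp_perm (e : Fin N → ℕ) (σ : Perm (Fin N)) : ∑ j, (e ∘ σ) j = ∑ j, e j :=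
  Equiv.sum_comp σ e

theorem alt_hom (e0 : Fin N → ℕ) : Hom (∑ j, e0 j) (alt e0) := by
  intro e he
  obtain ⟨σ, rfl⟩ := alt_ne he
  exact sum_comp_perm _ _

theorem pair_alt {M : ℕ} {v : Fn N} (h : AS v) {e0 : Fin N → ℕ} (he : e0 ∈ lev N M) :
    pair M v (alt e0) = N.factorial * v e0 := by
  simp only [pair, alt, mul_sum]
  rw [sum_comm]
  have h1 : ∀ σ : Perm (Fin N),
      ∑ e ∈ lev N M, v e * (if e = e0 ∘ σ then (σ.sign : ℤ) else 0) = v e0 := by
    intro σ
    rw [sum_eq_single (e0 ∘ σ)]
    · rw [if_pos rfl, h, mul_right_comm, sign_sq, one_mul]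
    · intro e _ h2
      rw [if_neg h2, mul_zero]
    · intro h2
      exact absurd (mem_lev.2 ((sum_comp_perm _ _).trans (mem_lev.1 he))) h2
  rw [sum_congr rfl fun σ _ => h1 σ]
  simp [Fintype.card_perm]

theorem alt_self {e0 : Fin N → ℕ} (h : Injective e0) : alt e0 e0 = 1 := by
  unfold alt
  rw [sum_eq_single 1]
  · simp
  · intro σ _ hσ
    refine if_neg fun h1 => hσ ?_
    ext j
    have h2 := congrFun h1 j
    simp only [comp_apply] at h2
    simp [← h h2]
  · simp

end Pool.Agent.SemiProp.Alt
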