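import Pool.Agent.Lib.MP_c1c6b6_al.Alt1

set_option autoImplicit false

open Finset Function Equiv

namespace Pool.Agent.SemiProp.Alt

variable {N : ℕ}

/-- Counting vertices of a forest whose edges change one coordinate class each. -/
theorem forest (S : Finset (Finset ℕ)) (hS : S.Nonempty) (r : ℕ → ℕ) (K : Finset ℕ)
    (h : ∀ k ∈ K, ∃ B1 ∈ S, ∃ B2 ∈ S, (∃ x, r x = k ∧ ¬ (x ∈ B1 ↔ x ∈ B2)) ∧
      ∀ x, r x ∈ K → r x ≠ k → (x ∈ B1 ↔ x ∈ B2)) : K.card + 1 ≤ S.card := by
  have key : ∀ A : Finset ℕ, A ⊆ K →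
      A.card + 1 ≤ (S.image fun B => B.filter fun x => r x ∈ A).card := by
    intro A
    induction A using Finset.induction_on with
    | empty =>
      intro _
      exact (hS.image _).card_pos
    | insert k A hk ih =>
      intro hA
      have h1 := ih (fun x hx => hA (mem_insert_of_mem hx))
      obtain ⟨B1, hB1, B2, hB2, ⟨x, hx, hx'⟩, h2⟩ := h k (hA (mem_insert_self _ _))
      have h4 : ∀ B : Finset ℕ, ((B.filter fun x => r x ∈ insert k A).filter fun x => r x ∈ A) =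
          B.filter fun x => r x ∈ A := by
        intro B
        ext y
        simp only [mem_filter, mem_insert]
        tauto
      have h3 : (S.image fun B => B.filter fun x => r x ∈ A) =
          (S.image fun B => B.filter fun x => r x ∈ insert k A).image
            fun B => B.filter fun x => r x ∈ A := by
        rw [image_image]
        exact image_congr fun B _ => (h4 B).symm
      rw [card_insert_of_notMem hk]
      have h5 := card_image_le (s := S.image fun B => B.filter fun x => r x ∈ insert k A)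
        (f := fun B => B.filter fun x => r x ∈ A)
      have h6 : ((S.image fun B => B.filter fun x => r x ∈ insert k A).image
            fun B => B.filter fun x => r x ∈ A).card ≠
          (S.image fun B => B.filter fun x => r x ∈ insert k A).card := by
        rw [Ne, card_image_iff]
        intro hi
        have h7 := hi (mem_coe.2 (mem_image_of_mem _ hB1)) (mem_coe.2 (mem_image_of_mem _ hB2)) (by
          simp only [h4]
          ext y
          simp only [mem_filter]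
          refine and_congr_left fun hy => h2 y (hA (mem_insert_of_mem hy)) ?_
          rintro rfl
          exact hk hy)
        have h8 := Finset.ext_iff.1 h7 x
        simp only [mem_filter, hx, mem_insert, true_or, and_true] at h8
        exact hx' h8
      rw [h3] at h1
      omega
  exact (key K Subset.rfl).trans card_image_le

/-- Antisymmetric functions of degree `M` killed by all downward moves along a runner. -/
def PP (p M : ℕ) (X : Fn N) : Prop :=
  AS X ∧ Hom M X ∧ ∀ m, 0 < m → p ∣ m → dn m (fun _ => True) X = 0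

/-- Orthogonality modulo `l` to all of `PP p M`. -/
def JJ (p : ℕ) (l : ℤ) (M : ℕ) (v : Fn N) : Prop :=
  AS v ∧ ∀ X : Fn N, PP p M X → (N.factorial : ℤ) * l ∣ pair M v X

/-- The bead sets that occur modulo `l`. -/
def supp (l : ℤ) (M : ℕ) (v : Fn N) : Finset (Finset ℕ) :=
  ((lev N M).filter fun e => ¬ l ∣ v e).image fun e => univ.image e

theorem mem_supp {l : ℤ} {M : ℕ} {v : Fn N} {B : Finset ℕ} :
    B ∈ supp l M v ↔ ∃ e, ∑ j, e j = M ∧ ¬ l ∣ v e ∧ univ.image e = B := by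
  simp only [supp, mem_image, mem_filter, mem_lev, and_assoc]

theorem AS.inj' {l : ℤ} {v : Fn N} (h : AS v) {e : Fin N → ℕ} (he : ¬ l ∣ v e) : Injective e :=
  h.inj fun h0 => he (h0 ▸ dvd_zero l)

theorem JJ.dn {p M D a : ℕ} {l : ℤ} {v : Fn N} (h : JJ p l (M + D) v) (hM : M + D ≤ base N + N)
    (hD : ¬ p ∣ D) : JJ p l M (dn D (fun x => x % p = a) v) := by
  refine ⟨h.1.dn _ _, fun X ⟨h1, h2, h3⟩ => ?_⟩
  rw [adj]
  refine h.2 _ ⟨h1.up _ _, h2.up _ _, fun m hm hpm => ?_⟩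
  rw [comm_ne _ (fun x => ?_) h1 h2 hM (fun h4 => hD (h4 ▸ hpm)), h3 m hm hpm]
  · funext e
    simp [up]
  · obtain ⟨c, rfl⟩ := hpm
    rw [Nat.add_mul_mod_self_left]

theorem core_case {p M : ℕ} {l : ℤ} {v : Fn N} (h : JJ p l M v) {e0 : Fin N → ℕ}
    (he : ∑ j, e0 j = M) (hc : ∀ j m, 0 < m → p ∣ m → m ≤ e0 j → ∃ j', e0 j' = e0 j - m) :
    l ∣ v e0 := by
  have h1 := h.2 (alt e0) ⟨alt_as _, he ▸ alt_hom e0, fun m hm hpm => ?_⟩
  · rw [pair_alt h.1 (mem_lev.2 he)] at h1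
    exact (mul_dvd_mul_iff_left (by exact_mod_cast N.factorial_ne_zero)).1 h1
  · refine ((alt_as e0).dn _ _).ext0 fun e hi => sum_eq_zero fun j _ => ?_
    rw [if_pos trivial]
    by_contra h2
    obtain ⟨σ, hσ⟩ := alt_ne h2
    have h3 := congrFun hσ j
    rw [update_self, comp_apply] at h3
    obtain ⟨j', hj'⟩ := hc (σ j) m hm hpm (by omega)
    have h4 := congrFun hσ (σ.symm j')
    rw [comp_apply, apply_symm_apply] at h4
    by_cases h5 : σ.symm j' = j
    · rw [h5, update_self] at h4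
      omega
    · rw [update_of_ne h5] at h4
      exact h5 (hi (by omega))

theorem image_upd {e : Fin N → ℕ} (h : Injective e) (j : Fin N) (x y : ℕ) :
    y ∈ univ.image (update e j x) ↔ y = x ∨ (y ∈ univ.image e ∧ y ≠ e j) := by
  simp only [mem_image, mem_univ, true_and]
  constructor
  · rintro ⟨i, rfl⟩
    by_cases h1 : i = j
    · left
      rw [h1, update_self]
    · right
      rw [update_of_ne h1]
      exact ⟨⟨i, rfl⟩, fun h2 => h1 (h h2)⟩
  · rintro (rfl | ⟨⟨i, rfl⟩, h1⟩)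
    · exact ⟨j, update_self ..⟩
    · exact ⟨i, update_of_ne (fun h2 => h1 (congrArg e h2)) ..⟩

/-- The longest move from runner `a` to runner `b` makes two terms collide. -/
theorem edge {p M a b : ℕ} {l : ℤ} {v : Fn N} (h : JJ p l M v) (hM : M ≤ base N + N) (hab : a ≠ b)
    (ih : ∀ M' < M, ∀ v' : Fn N, JJ p l M' v' → (supp l M' v').card ≤ (supp l M v).card →
      ∀ e, ∑ j, e j = M' → l ∣ v' e)
    (hex : ∃ B ∈ supp l M v, ∃ x ∈ B, ∃ y, y ∉ B ∧ y < x ∧ x % p = a ∧ y % p = b) :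
    ∃ B1 ∈ supp l M v, ∃ B2 ∈ supp l M v, (∃ x, x % p = a ∧ ¬ (x ∈ B1 ↔ x ∈ B2)) ∧
      (∃ y, y % p = b ∧ ¬ (y ∈ B1 ↔ y ∈ B2)) ∧
      ∀ x, x % p ≠ a → x % p ≠ b → (x ∈ B1 ↔ x ∈ B2) := by
  classical
  have hbd : ∀ B ∈ supp l M v, ∀ x ∈ B, x ≤ M := by
    intro B hB x hx
    obtain ⟨e, h1, -, rfl⟩ := mem_supp.1 hB
    obtain ⟨j, -, rfl⟩ := mem_image.1 hx
    exact h1 ▸ single_le_sum (fun _ _ => Nat.zero_le _) (mem_univ j)
  obtain ⟨D, hD, hmax⟩ := exists_max_image ((range (M + 1)).filter fun D =>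
    ∃ B ∈ supp l M v, ∃ y, y ∉ B ∧ y + D ∈ B ∧ (y + D) % p = a ∧ y % p = b) id (by
      obtain ⟨B, hB, x, hx, y, h1, h2, h3, h4⟩ := hex
      have h5 := hbd B hB x hx
      have h6 : y + (x - y) = x := by omega
      exact ⟨x - y, mem_filter.2 ⟨mem_range.2 (by omega), B, hB, y, h1, by rwa [h6], by rwa [h6],
        h4⟩⟩)
  obtain ⟨hDM, B1, hB1, y1, hy1, hx1, ha1, hb1⟩ := mem_filter.1 hD
  have hmax' : ∀ B ∈ supp l M v, ∀ x ∈ B, ∀ y, y ∉ B → x % p = a → y % p = b → x ≤ y + D := by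
    intro B hB x hx y h1 h3 h4
    by_contra h2
    have h5 := hbd B hB x hx
    have h6 : y + (x - y) = x := by omega
    have h7 := hmax (x - y) (mem_filter.2 ⟨mem_range.2 (by omega), B, hB, y, h1, by rwa [h6],
      by rwa [h6], h4⟩)
    simp only [id] at h7
    omega
  have hres : ∀ y, (y + D) % p = a → y % p = b := fun y hy =>
    Eq.trans (Nat.ModEq.add_right_cancel' D (hy.trans ha1.symm : y + D ≡ y1 + D [MOD p])) hb1
  have hpD : ¬ p ∣ D := by
    rintro ⟨c, rfl⟩
    rw [Nat.add_mul_mod_self_left] at ha1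
    exact hab (ha1.symm.trans hb1)
  have hD0 : 0 < D := Nat.pos_of_ne_zero fun h0 => hpD (h0 ▸ dvd_zero p)
  obtain ⟨M', rfl⟩ : ∃ M', M = M' + D := ⟨M - D, by have := mem_range.1 hDM; omega⟩
  have hJ := h.dn (a := a) hM hpD
  have hterm : ∀ (e : Fin N → ℕ) (j : Fin N), ∑ i, e i = M' → ¬ l ∣ v (update e j (e j + D)) →
      univ.image (update e j (e j + D)) ∈ supp l (M' + D) v := fun e j h1 h2 =>
    mem_supp.2 ⟨_, by have := sum_upd e j (e j + D); omega, h2, rfl⟩
  have hcard : (supp l M' (dn D (fun x => x % p = a) v)).card ≤ (supp l (M' + D) v).card := by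
    refine card_le_card_of_forall_subsingleton (fun B' B => ∃ y, y ∉ B ∧ y + D ∈ B ∧
      (y + D) % p = a ∧ ∀ z, z ∈ B' ↔ z = y ∨ (z ∈ B ∧ z ≠ y + D)) ?_ ?_
    · intro B' hB'
      obtain ⟨e, h1, h2, rfl⟩ := mem_supp.1 hB'
      have hi := hJ.1.inj' h2
      obtain ⟨j, hj⟩ : ∃ j, ¬ l ∣ if (e j + D) % p = a then v (update e j (e j + D)) else 0 := by
        by_contra h3
        exact h2 (dvd_sum fun j _ => not_not.1 fun h4 => h3 ⟨j, h4⟩)
      split_ifs at hj with h3
      · refine ⟨_, hterm e j h1 hj, e j, ?_, ?_, h3, fun z => ?_⟩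
        · rw [image_upd hi]
          omega
        · rw [image_upd hi]
          omega
        · have h4 := image_upd (h.1.inj' hj) j (e j) z
          rwa [update_idem, update_eq_self, update_self] at h4
      · exact absurd (dvd_zero l) hj
    · rintro B hB B' ⟨-, y, h1, h2, h3, h4⟩ B'' ⟨-, y', h1', h2', h3', h4'⟩
      have h5 := hmax' B hB _ h2 y' h1' h3 (hres _ h3')
      have h6 := hmax' B hB _ h2' y h1 h3' (hres _ h3)
      obtain rfl : y = y' := by omega
      ext z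
      rw [h4, h4']
  have hz := ih M' (by omega) _ hJ hcard
  obtain ⟨e1, he1, hv1, rfl⟩ := mem_supp.1 hB1
  have hi1 := h.1.inj' hv1
  obtain ⟨j1, -, hj1⟩ := mem_image.1 hx1
  have hs : ∑ i, update e1 j1 y1 i = M' := by
    have := sum_upd e1 j1 y1
    omega
  have hz1 := hz _ hs
  obtain ⟨j2, hj2, hv2⟩ : ∃ j2, j2 ≠ j1 ∧ ¬ l ∣ if (update e1 j1 y1 j2 + D) % p = a then
      v (update (update e1 j1 y1) j2 (update e1 j1 y1 j2 + D)) else 0 := by
    by_contra h3
    apply hv1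
    unfold dn at hz1
    rw [← add_sum_erase univ _ (mem_univ j1), update_self, if_pos ha1, update_idem, ← hj1,
      update_eq_self] at hz1
    exact (dvd_add_left (dvd_sum fun j hj =>
      not_not.1 fun h4 => h3 ⟨j, ne_of_mem_erase hj, h4⟩)).1 hz1
  split_ifs at hv2 with ha2
  swap
  · exact absurd (dvd_zero l) hv2
  have hi' : Injective (update e1 j1 y1) := by
    intro i i' hii
    by_cases h1 : i = j1 <;> by_cases h2 : i' = j1
    · rw [h1, h2]
    · rw [h1, update_self, update_of_ne h2] at hii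
      exact absurd (mem_image.2 ⟨i', mem_univ _, hii.symm⟩) hy1
    · rw [h2, update_self, update_of_ne h1] at hii
      exact absurd (mem_image.2 ⟨i, mem_univ _, hii⟩) hy1
    · rw [update_of_ne h1, update_of_ne h2] at hii
      exact hi1 hii
  have hB2 := hterm _ j2 hs hv2
  have hb2 := hres _ ha2
  have hmem := fun z => image_upd hi' j2 (update e1 j1 y1 j2 + D) z
  simp only [image_upd hi1, hj1] at hmem
  have hne : update e1 j1 y1 j2 ≠ y1 := fun h1 =>
    hj2 (hi' (h1.trans (update_self j1 y1 e1).symm))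
  refine ⟨_, hB1, _, hB2, ⟨y1 + D, ha1, ?_⟩, ⟨y1, hb1, ?_⟩, fun x h1 h2 => ?_⟩
  · rw [hmem]
    simp only [hx1, true_iff]
    omega
  · rw [hmem]
    exact fun h1 => hy1 (h1.2 (Or.inr ⟨Or.inl rfl, hne.symm⟩))
  · rw [hmem]
    have h3 : x ≠ update e1 j1 y1 j2 + D := fun h3 => h1 (h3 ▸ ha2)
    have h4 : x ≠ update e1 j1 y1 j2 := fun h3 => h2 (h3 ▸ hb2)
    have h5 : x ≠ y1 + D := fun h3 => h1 (h3 ▸ ha1)
    have h6 : x ≠ y1 := fun h3 => h2 (h3 ▸ hb1)
    simp [h3, h4, h5, h6]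

/-- Fewer than `p` terms are never orthogonal modulo `l` to `PP p M`. -/
theorem min_dist {p : ℕ} (hp : 0 < p) (l : ℤ) (M : ℕ) : M ≤ base N + N → ∀ v : Fn N, JJ p l M v →
    (supp l M v).card < p → ∀ e, ∑ j, e j = M → l ∣ v e := by
  induction M using Nat.strong_induction_on with
  | _ M ih =>
  intro hM v h hc e0 he
  by_contra hv
  have hB0 : univ.image e0 ∈ supp l M v := mem_supp.2 ⟨e0, he, hv, rfl⟩
  obtain ⟨j, m, hm, hpm, hle, hy⟩ : ∃ j m, 0 < m ∧ p ∣ m ∧ m ≤ e0 j ∧ ∀ j', e0 j' ≠ e0 j - m := by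
    by_contra h1
    refine hv (core_case h he fun j m h2 h3 h4 => ?_)
    by_contra h5
    exact h1 ⟨j, m, h2, h3, h4, fun j' h6 => h5 ⟨j', h6⟩⟩
  obtain ⟨y, hyx⟩ : ∃ y, e0 j = y + m := ⟨e0 j - m, by omega⟩
  have hy0 : y ∉ univ.image e0 := by
    intro h1
    obtain ⟨j', -, h2⟩ := mem_image.1 h1
    exact hy j' (by omega)
  have hx0 : y + m ∈ univ.image e0 := mem_image.2 ⟨j, mem_univ _, hyx⟩
  have hxm : (y + m) % p = y % p := by
    obtain ⟨c, rfl⟩ := hpm
    rw [Nat.add_mul_mod_self_left]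
  have hpm' := Nat.le_of_dvd hm hpm
  have ih' : ∀ M' < M, ∀ v' : Fn N, JJ p l M' v' → (supp l M' v').card ≤ (supp l M v).card →
      ∀ e, ∑ j, e j = M' → l ∣ v' e := fun M' h1 v' h2 h3 =>
    ih M' h1 (by omega) v' h2 (h3.trans_lt hc)
  have hf := forest (supp l M v) ⟨_, hB0⟩ (fun x => x % p) ((range p).erase (y % p)) (by
    intro k hk
    obtain ⟨hk1, hk2⟩ := mem_erase.1 hk
    have hk2 := mem_range.1 hk2
    obtain ⟨z, hz1, hz2, hz3⟩ : ∃ z, y < z ∧ z < y + p ∧ z % p = k := by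
      have h1 := Nat.mod_add_div y p
      have h2 := Nat.mod_lt y hp
      by_cases h3 : y % p < k
      · exact ⟨k + p * (y / p), by omega, by omega, by
          rw [Nat.add_mul_mod_self_left, Nat.mod_eq_of_lt hk2]⟩
      · exact ⟨k + p * (y / p + 1), by rw [mul_add]; omega, by rw [mul_add]; omega, by
          rw [Nat.add_mul_mod_self_left, Nat.mod_eq_of_lt hk2]⟩
    by_cases hz : z ∈ univ.image e0
    · obtain ⟨B1, h1, B2, h2, h3, -, h4⟩ := edge h hM hk1 ih' ⟨_, hB0, z, hz, y, hy0, hz1, hz3, rfl⟩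
      exact ⟨B1, h1, B2, h2, h3, fun x h5 h6 => h4 x h6 (mem_erase.1 h5).1⟩
    · obtain ⟨B1, h1, B2, h2, -, h3, h4⟩ :=
        edge h hM hk1.symm ih' ⟨_, hB0, y + m, hx0, z, hz, by omega, hxm, hz3⟩
      exact ⟨B1, h1, B2, h2, h3, fun x h5 h6 => h4 x (mem_erase.1 h5).1 h6⟩)
  rw [card_erase_of_mem (mem_range.2 (Nat.mod_lt y hp)), card_range] at hf
  omega

end Pool.Agent.SemiProp.Alt
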