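import Pool.Agent.Lib.MP_c1c6b6_al.Alt2

set_option autoImplicit false
set_option linter.unusedSectionVars false

open Finset Function Equiv MvPolynomial

namespace Pool.Agent.SemiProp.Alt

variable {N : ℕ}

/-- The coefficient function of a polynomial. -/
noncomputable def cf (f : MvPolynomial (Fin N) ℤ) : Fn N := fun e =>
  coeff (Finsupp.equivFunOnFinite.symm e) f

/-- Power sums. -/
noncomputable def ps (N d : ℕ) : MvPolynomial (Fin N) ℤ := ∑ j, X j ^ d

/-- The staircase exponent vector. -/
def del (N : ℕ) : Fin N → ℕ := fun j => j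

/-- The Vandermonde alternant. -/
noncomputable def vand (N : ℕ) : MvPolynomial (Fin N) ℤ :=
  ∑ σ : Perm (Fin N), monomial (Finsupp.equivFunOnFinite.symm (del N ∘ σ)) (σ.sign : ℤ)

/-- The coefficients of the alternant times a product of power sums. -/
noncomputable def W (N : ℕ) (μ : Multiset ℕ) : Fn N := cf (vand N * (μ.map (ps N)).prod)

theorem cf_ps (d : ℕ) (f : MvPolynomial (Fin N) ℤ) :
    cf (ps N d * f) = up d (fun _ => True) (cf f) := by
  funext e
  simp only [cf, ps, up, sum_mul, coeff_sum, X_pow_eq_monomial, coeff_monomial_mul',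
    Finsupp.single_le_iff, and_true, one_mul]
  refine sum_congr rfl fun j _ => ?_
  refine if_congr Iff.rfl ?_ rfl
  congr 1
  ext l
  by_cases h : l = j
  · simp [h]
  · simp [h]

theorem W_cons (d : ℕ) (μ : Multiset ℕ) : W N (d ::ₘ μ) = up d (fun _ => True) (W N μ) := by
  unfold W
  rw [Multiset.map_cons, Multiset.prod_cons, mul_left_comm, cf_ps]

theorem W_zero : W N 0 = alt (del N) := by
  funext e
  simp only [W, cf, vand, alt, Multiset.map_zero, Multiset.prod_zero, mul_one, coeff_sum,
    coeff_monomial, Equiv.apply_eq_iff_eq]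
  exact sum_congr rfl fun σ _ => if_congr eq_comm rfl rfl

theorem del_inj : Injective (del N) := fun _ _ h => Fin.ext h

theorem sum_del : ∑ j, del N j = base N := Fin.sum_univ_eq_sum_range (fun i => i) N

theorem W_as (μ : Multiset ℕ) : AS (W N μ) := by
  induction μ using Multiset.induction_on with
  | empty => exact W_zero ▸ alt_as _
  | cons d μ ih => exact W_cons d μ ▸ ih.up _ _

theorem W_hom (μ : Multiset ℕ) : Hom (base N + μ.sum) (W N μ) := by
  induction μ using Multiset.induction_on with
  | empty => simpa [W_zero, ← sum_del] using alt_hom (del N)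
  | cons d μ ih =>
    rw [W_cons, Multiset.sum_cons, add_comm d, ← add_assoc]
    exact ih.up _ _

theorem up_smul (c : ℤ) (d : ℕ) (f : Fn N) (e : Fin N → ℕ) :
    up d (fun _ => True) (fun e => c * f e) e = c * up d (fun _ => True) f e := by
  simp only [up, mul_sum]
  refine sum_congr rfl fun j _ => ?_
  split_ifs <;> simp

theorem dn_W {m : ℕ} (hm : 0 < m) (μ : Multiset ℕ) (hμ : μ.sum ≤ N) :
    dn m (fun _ => True) (W N μ) = fun e => (m * μ.count m : ℕ) * W N (μ.erase m) e := by
  induction μ using Multiset.induction_on with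
  | empty =>
    funext e
    rw [Multiset.count_zero, mul_zero, Nat.cast_zero, zero_mul]
    by_contra h
    have h1 := (W_hom 0).dn _ _ h
    have h2 := base_le (((W_as 0).dn _ _).inj h)
    rw [Multiset.sum_zero] at h1
    omega
  | cons d μ ih =>
    rw [Multiset.sum_cons] at hμ
    have ih := ih (by omega)
    funext e
    by_cases h : d = m
    · subst h
      rw [W_cons, comm_eq (W_as μ) (W_hom μ) (by omega), ih, up_smul, Multiset.count_cons_self,
        Multiset.erase_cons_head, ← W_cons]
      by_cases h1 : d ∈ μ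
      · rw [Multiset.cons_erase h1]
        push_cast
        ring
      · simp [Multiset.count_eq_zero_of_notMem h1]
    · rw [W_cons, comm_ne _ (fun _ => Iff.rfl) (W_as μ) (W_hom μ) (by omega) h, ih, up_smul,
        Multiset.count_cons_of_ne (Ne.symm h), Multiset.erase_cons_tail _ h, W_cons]

/-- The order of the centraliser of a permutation of cycle shape `μ`. -/
def zed (μ : Multiset ℕ) : ℕ := μ.prod * ∏ d ∈ μ.toFinset, (μ.count d).factorial

theorem zed_cons (d : ℕ) (μ : Multiset ℕ) : zed (d ::ₘ μ) = d * (μ.count d + 1) * zed μ := by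
  unfold zed
  have h1 : ∏ x ∈ μ.toFinset, (μ.count x).factorial =
      ∏ x ∈ insert d μ.toFinset, (μ.count x).factorial := by
    rw [prod_insert_of_eq_one_if_notMem]
    intro h
    rw [Multiset.count_eq_zero_of_notMem (by simpa using h), Nat.factorial_zero]
  rw [h1, Multiset.toFinset_cons, Multiset.prod_cons,
    ← mul_prod_erase _ _ (mem_insert_self d μ.toFinset),
    ← mul_prod_erase _ _ (mem_insert_self d μ.toFinset), Multiset.count_cons_self,
    Nat.factorial_succ, prod_congr rfl fun x hx => by
      rw [Multiset.count_cons_of_ne (ne_of_mem_erase hx)]]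
  ring

theorem pair_smul (M : ℕ) (c : ℤ) (f g : Fn N) :
    pair M f (fun e => c * g e) = c * pair M f g := by
  simp only [pair, mul_sum]
  exact sum_congr rfl fun e _ => by ring

theorem pair_W (μ : Multiset ℕ) : (∀ x ∈ μ, 0 < x) → μ.sum ≤ N → ∀ ν : Multiset ℕ,
    (∀ x ∈ ν, 0 < x) → ν.sum = μ.sum → pair (base N + μ.sum) (W N μ) (W N ν) =
      if μ = ν then ((N.factorial * zed μ : ℕ) : ℤ) else 0 := by
  induction μ using Multiset.induction_on with
  | empty =>
    intro _ _ ν h1 h2
    obtain rfl : ν = 0 := by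
      refine Multiset.eq_zero_of_forall_notMem fun x hx => ?_
      have h3 := Multiset.single_le_sum (fun _ _ => Nat.zero_le _) x hx
      have h4 := h1 x hx
      rw [Multiset.sum_zero] at h2
      omega
    rw [W_zero, pair_alt (alt_as _) (mem_lev.2 (by simp [sum_del])), alt_self del_inj]
    simp [zed]
  | cons d μ ih =>
    intro h0 hN ν h1 h2
    rw [Multiset.sum_cons] at hN h2
    have hd := h0 d (Multiset.mem_cons_self _ _)
    rw [W_cons, Multiset.sum_cons, add_comm d, ← add_assoc, pair_comm, ← adj,
      dn_W hd ν (by omega), pair_comm, pair_smul]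
    by_cases h : d ∈ ν
    · have h3 := Multiset.cons_erase h
      have h4 := congrArg Multiset.sum h3
      rw [Multiset.sum_cons] at h4
      rw [ih (fun x hx => h0 x (Multiset.mem_cons_of_mem hx)) (by omega) (ν.erase d)
        (fun x hx => h1 x (Multiset.mem_of_mem_erase hx)) (by omega)]
      by_cases h5 : μ = ν.erase d
      · rw [if_pos h5, if_pos (h5 ▸ h3), zed_cons, ← h3, ← h5, Multiset.count_cons_self]
        push_cast
        ring
      · rw [if_neg h5, if_neg fun h6 => h5 (by rw [← h6, Multiset.erase_cons_head]), mul_zero]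
    · rw [if_neg fun h6 : d ::ₘ μ = ν => h (h6 ▸ Multiset.mem_cons_self _ _),
        Multiset.count_eq_zero_of_notMem h]
      simp

section perm

variable {α : Type} [Fintype α] [DecidableEq α]

theorem sum_factor {ι κ R : Type} [Fintype ι] [DecidableEq ι] [Fintype κ] [DecidableEq κ]
    [CommRing R] (π : α → ι) (hπ : Surjective π) (w : κ → R) :
    ∑ c ∈ univ.filter (fun c : α → κ => ∀ a b, π a = π b → c a = c b), ∏ a, w (c a) =
      ∏ i, ∑ j, w j ^ (univ.filter fun a => π a = i).card := by
  rw [prod_univ_sum, Fintype.piFinset_univ]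
  symm
  refine sum_bij (fun f _ => f ∘ π) ?_ ?_ ?_ ?_
  · intro f _
    exact mem_filter.2 ⟨mem_univ _, fun a b h => congrArg f h⟩
  · intro f _ f' _ h
    exact hπ.right_cancellable.1 h
  · intro c hc
    refine ⟨c ∘ surjInv hπ, mem_univ _, funext fun a => ?_⟩
    exact (mem_filter.1 hc).2 _ _ (surjInv_eq hπ _)
  · intro f _
    rw [← prod_fiberwise univ π]
    refine prod_congr rfl fun i _ => ?_
    rw [← prod_const]
    exact prod_congr rfl fun a ha => by rw [comp_apply, (mem_filter.1 ha).2]

/-- The cycle or fixed point that contains `a`. -/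
def cyc (g : Perm α) (a : α) : g.cycleFactorsFinset ⊕ {a // a ∉ g.support} :=
  if h : a ∈ g.support then Sum.inl ⟨g.cycleOf a, Perm.cycleOf_mem_cycleFactorsFinset_iff.2 h⟩
  else Sum.inr ⟨a, h⟩

theorem cyc_inl (g : Perm α) (a : α) (c : g.cycleFactorsFinset) :
    cyc g a = Sum.inl c ↔ a ∈ c.1.support := by
  unfold cyc
  split_ifs with h
  · rw [← Perm.eq_cycleOf_of_mem_cycleFactorsFinset_iff g c c.2, Sum.inl.injEq, Subtype.ext_iff,
      eq_comm]
  · exact ⟨fun h1 => by simp at h1, fun h1 => absurd (Perm.mem_cycleFactorsFinset_support_le c.2 h1) h⟩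

theorem cyc_inr (g : Perm α) (a : α) (b : {a // a ∉ g.support}) :
    cyc g a = Sum.inr b ↔ a = b := by
  unfold cyc
  split_ifs with h
  · exact ⟨fun h1 => by simp at h1, fun h1 => absurd (h1 ▸ h) b.2⟩
  · rw [Sum.inr.injEq, Subtype.ext_iff]

theorem cyc_surj (g : Perm α) : Surjective (cyc g) := by
  rintro (c | b)
  · obtain ⟨a, ha⟩ := (Perm.mem_cycleFactorsFinset_iff.1 c.2).1.nonempty_support
    exact ⟨a, (cyc_inl g a c).2 ha⟩
  · exact ⟨b, (cyc_inr g b b).2 rfl⟩

theorem fix_pow {κ : Type} {g : Perm α} {c : α → κ} (h : c ∘ g = c) (i : ℕ) :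
    c ∘ ⇑(g ^ i) = c := by
  induction i with
  | zero => rfl
  | succ i ih => rw [pow_succ, Perm.coe_mul, ← comp_assoc, ih, h]

theorem cyc_iff {κ : Type} (g : Perm α) (c : α → κ) :
    (∀ a b, cyc g a = cyc g b → c a = c b) ↔ c ∘ g = c := by
  constructor
  · intro h
    funext a
    by_cases h1 : a ∈ g.support
    · refine h _ _ ?_
      unfold cyc
      rw [dif_pos h1, dif_pos (Perm.apply_mem_support.2 h1)]
      simp only [Perm.cycleOf_self_apply]
    · rw [comp_apply, Perm.notMem_support.1 h1]
  · intro h a b hab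
    by_cases h1 : b ∈ g.support
    · rw [cyc.eq_1 g b, dif_pos h1, cyc_inl, Perm.mem_support_cycleOf_iff] at hab
      obtain ⟨i, -, rfl⟩ := hab.1.exists_pow_eq'
      exact congrFun (fix_pow h i) b
    · rw [cyc.eq_1 g b, dif_neg h1, cyc_inr] at hab
      rw [hab]

theorem sum_fix (g : Perm α) :
    ∑ c ∈ univ.filter (fun c : α → Fin N => c ∘ g = c), ∏ a, (X (c a) : MvPolynomial (Fin N) ℤ) =
      (g.partition.parts.map (ps N)).prod := by
  have h1 := sum_factor (cyc g) (cyc_surj g) (fun j : Fin N => (X j : MvPolynomial (Fin N) ℤ))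
  simp only [cyc_iff] at h1
  rw [h1, Fintype.prod_sum_type, Perm.parts_partition, Multiset.map_add, Multiset.prod_add,
    Multiset.map_replicate, Multiset.prod_replicate, Perm.cycleType_def, Multiset.map_map,
    ← prod_eq_multiset_prod, ← prod_coe_sort g.cycleFactorsFinset]
  congr 1
  · refine prod_congr rfl fun c _ => ?_
    have h2 : (univ.filter fun a => cyc g a = Sum.inl c) = c.1.support := by
      ext a
      simp [cyc_inl]
    rw [h2]
    rfl
  · have h2 : ∀ b : {a // a ∉ g.support}, (univ.filter fun a => cyc g a = Sum.inr b) = {b.1} := by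
      intro b
      ext a
      simp [cyc_inr]
    simp only [h2, card_singleton, prod_const, card_univ]
    rw [Fintype.card_subtype_compl, Fintype.card_coe]
    rfl

/-- The content of a colouring. -/
def cnt (c : α → Fin N) : Fin N → ℕ := fun j => (univ.filter fun a => c a = j).card

theorem sum_cnt (c : α → Fin N) : ∑ j, cnt c j = Fintype.card α :=
  (card_eq_sum_card_fiberwise (f := c) (s := univ) (t := univ) fun _ _ => mem_univ _).symm

theorem prod_X (c : α → Fin N) : ∏ a, (X (c a) : MvPolynomial (Fin N) ℤ) =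
    monomial (Finsupp.equivFunOnFinite.symm (cnt c)) 1 := by
  have h1 : Finsupp.equivFunOnFinite.symm (cnt c) = ∑ a, Finsupp.single (c a) 1 := by
    ext j
    simp [cnt, Finsupp.finsetSum_apply, Finsupp.single_apply]
  rw [h1, monomial_sum_one]
  rfl

/-- A weighted count of the colourings fixed by `g`. -/
def Y (X : Fn N) (g : Perm α) : ℤ :=
  ∑ c ∈ univ.filter (fun c : α → Fin N => c ∘ g = c), X (del N + cnt c)

theorem pair_Y {X : Fn N} (h : AS X) (g : Perm α) :
    pair (base N + Fintype.card α) (W N g.partition.parts) X = N.factorial * Y X g := by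
  have h1 : ∀ e, W N g.partition.parts e = ∑ σ : Perm (Fin N),
      ∑ c ∈ univ.filter (fun c : α → Fin N => c ∘ g = c),
        if del N ∘ σ + cnt c = e then (σ.sign : ℤ) else 0 := by
    intro e
    simp only [W, cf, vand, ← sum_fix, prod_X, sum_mul, mul_sum, monomial_mul, coeff_sum,
      coeff_monomial, mul_one]
    rw [sum_comm]
    refine sum_congr rfl fun σ _ => sum_congr rfl fun c _ => if_congr ?_ rfl rfl
    rw [← Finsupp.equivFunOnFinite.symm.apply_eq_iff_eq]
    refine Eq.congr_left ?_
    ext j
    simp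
  have h2 : ∀ σ : Perm (Fin N), ∑ e ∈ lev N (base N + Fintype.card α),
      (∑ c ∈ univ.filter (fun c : α → Fin N => c ∘ g = c),
        if del N ∘ σ + cnt c = e then (σ.sign : ℤ) else 0) * X e = Y X g := by
    intro σ
    simp only [sum_mul]
    rw [sum_comm]
    refine sum_nbij' (fun c => σ ∘ c) (fun c => σ.symm ∘ c) ?_ ?_ ?_ ?_ ?_
    · intro c hc
      exact mem_filter.2 ⟨mem_univ _, by rw [comp_assoc, (mem_filter.1 hc).2]⟩
    · intro c hc
      exact mem_filter.2 ⟨mem_univ _, by rw [comp_assoc, (mem_filter.1 hc).2]⟩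
    · intro c _
      funext a
      simp
    · intro c _
      funext a
      simp
    · intro c _
      have h3 : del N ∘ σ + cnt c = (del N + cnt (σ ∘ c)) ∘ σ := by
        funext j
        simp [cnt]
      rw [sum_eq_single (del N ∘ σ + cnt c)]
      · rw [if_pos rfl, h3, h, ← mul_assoc, sign_sq, one_mul]
      · intro e _ h4
        rw [if_neg h4.symm, zero_mul]
      · intro h4
        refine absurd (mem_lev.2 ?_) h4
        simp only [Pi.add_apply, sum_add_distrib, sum_cnt, sum_comp_perm, sum_del]
  unfold pair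
  simp only [h1]
  rw [sum_congr rfl fun e _ => sum_mul _ _ _, sum_comm, sum_congr rfl fun σ _ => h2 σ]
  simp [Fintype.card_perm]

theorem zed_parts (g : Perm α) :
    Nat.card {h : Perm α | IsConj g h} * zed g.partition.parts = (Fintype.card α).factorial := by
  rw [← Perm.card_isConj_mul_eq g, Perm.parts_partition, Perm.sum_cycleType]
  congr 1
  generalize Fintype.card α - g.support.card = k
  induction k with
  | zero => simp [zed]
  | succ k ih =>
    have h1 : 1 ∉ g.cycleType := fun h => lt_irrefl _ (Perm.one_lt_of_mem_cycleType h)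
    rw [Multiset.replicate_succ, Multiset.add_cons, zed_cons, ih, Multiset.count_add,
      Multiset.count_eq_zero_of_notMem h1, Multiset.count_replicate_self, Nat.factorial_succ]
    ring

theorem pair_parts (hN : Fintype.card α ≤ N) (g h : Perm α) [Decidable (IsConj g h)] :
    pair (base N + Fintype.card α) (W N g.partition.parts) (W N h.partition.parts) =
      if IsConj g h then ((N.factorial * zed g.partition.parts : ℕ) : ℤ) else 0 := by
  have h1 := pair_W (N := N) g.partition.parts (fun _ => g.partition.parts_pos)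
    (by rwa [g.partition.parts_sum]) h.partition.parts (fun _ => h.partition.parts_pos)
    (by rw [g.partition.parts_sum, h.partition.parts_sum])
  rw [g.partition.parts_sum] at h1
  rw [h1]
  exact if_congr (by rw [Perm.partition_eq_of_isConj, Nat.Partition.ext_iff]) rfl rfl

theorem Y_sing {p : ℕ} (hp : p.Prime) {X : Fn N} (h : PP p (base N + Fintype.card α) X)
    {g : Perm α} (hg : p ∣ orderOf g) : Y X g = 0 := by
  obtain ⟨d, hd, hpd⟩ : ∃ d ∈ g.cycleType, p ∣ d := by
    refine hp.prime.exists_mem_multiset_dvd (hg.trans ?_)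
    rw [← Perm.lcm_cycleType, Multiset.lcm_dvd]
    exact fun b hb => Multiset.dvd_prod hb
  have h1 : d ∈ g.partition.parts := Multiset.mem_add.2 (Or.inl hd)
  have h2 := pair_Y h.1 g
  have h3 := g.partition.parts_sum
  have h4 := g.partition.parts_pos h1
  generalize g.partition.parts = μ at h1 h2 h3
  rw [← Multiset.cons_erase h1] at h2 h3
  rw [Multiset.sum_cons] at h3
  rw [W_cons, ← h3, add_comm d, ← add_assoc, pair_comm, ← adj, h.2.2 d h4 hpd] at h2
  simp only [pair, Pi.zero_apply, zero_mul, sum_const_zero] at h2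
  exact (mul_eq_zero.1 h2.symm).resolve_left (by exact_mod_cast N.factorial_ne_zero)

end perm

end Pool.Agent.SemiProp.Alt
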