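import Pool.Agent.Lib.MP_c1c6b6_al.PN3

set_option autoImplicit false
set_option linter.unusedSectionVars false

open Module Finset

namespace Pool.Agent.SemiProp

variable {G : Type*} [Group G] [Fintype G]

/-- The facts about an irreducible character `φ` of degree `a` that the argument uses. -/
structure Chr (φ : G → ℂ) (a : ℕ) : Prop where
  pos : 0 < a
  cls : ∀ g x, φ (g⁻¹ * x * g) = φ x
  sph : Sph ⊤ ⊤ (fun x => φ x / a)
  norm : ip ⊤ φ φ = Nat.card G
  chr : ∀ X, IsChar X φ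
  ex : ∀ X : Subgroup G, X.Normal → ∃ (d : ℕ) (f : G → ℂ), 0 < d ∧ Sph X X f ∧ Avg X φ a f ∧
      IsChar X (fun x => d * f x) ∧ (d : ℂ) ^ 2 * ip X f f = Nat.card X

theorem Irr.chr {V : Type} [AddCommGroup V] [Module ℂ V] [FiniteDimensional ℂ V]
    {ρ : Representation ℂ G V} (h : Irr ρ) : Chr ρ.character (finrank ℂ V) :=
  ⟨h.finrank_pos, Irr.cls ρ, h.sph_top, h.ip_top, isChar_top ρ, exists_sph h⟩

theorem Chr.ne {φ : G → ℂ} {a : ℕ} (h : Chr φ a) : (a : ℂ) ≠ 0 := by exact_mod_cast h.pos.ne'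

theorem Chr.one {φ : G → ℂ} {a : ℕ} (h : Chr φ a) : φ 1 = a := by
  have := h.sph.one
  rwa [div_eq_one_iff_eq h.ne] at this

theorem Chr.conv {φ : G → ℂ} {a : ℕ} (h : Chr φ a) {R : Subgroup G} (hR : R.Normal) {χ : G → ℂ}
    (hχ : ∀ g x, χ (g⁻¹ * x * g) = χ x) (x : G) :
    a * sm R (fun r => φ (x * r) * (starRingEnd ℂ) (χ r)) = φ x * ip R φ χ := by
  have h1 := h.sph.conv (R := R) le_top hR (e := fun r => (starRingEnd ℂ) (χ r))
    (fun y _ r _ => by rw [hχ]) (Subgroup.mem_top x)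
  have h2 : ∀ u : G → G, sm R (fun r => φ (u r) / a * (starRingEnd ℂ) (χ r)) =
      (a : ℂ)⁻¹ * sm R (fun r => φ (u r) * (starRingEnd ℂ) (χ r)) := fun u => by
    rw [← sm_mul]
    exact sm_congr fun r _ => by ring
  rw [h2 (fun r => x * r), h2 (fun r => r)] at h1
  have := h.ne
  unfold ip
  field_simp at h1
  linear_combination h1

theorem ip_symm (R : Subgroup G) (f1 f2 : G → ℂ) :
    ip R f1 f2 = (starRingEnd ℂ) (ip R f2 f1) := by
  unfold ip
  rw [sm_star]
  exact sm_congr fun a _ => by simp [mul_comm]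

/-- The pointwise relation of a semiproportional pair with degree ratio `m : n`. -/
def Rel (φ ψ : G → ℂ) (m n : ℕ) : Prop :=
  ∀ g, (n : ℂ) * ψ g = m * φ g ∨ (m : ℂ) * ψ g = -(n * φ g)

theorem Rel.zero_iff {φ ψ : G → ℂ} {m n : ℕ} (h : Rel φ ψ m n) (hm : 0 < m) (hn : 0 < n) (g : G) :
    φ g = 0 ↔ ψ g = 0 := by
  have hm' : (m : ℂ) ≠ 0 := by exact_mod_cast hm.ne'
  have hn' : (n : ℂ) ≠ 0 := by exact_mod_cast hn.ne'
  rcases h g with h1 | h1
  · constructor <;> intro h2 <;> simpa [h2, hm', hn'] using h1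
  · constructor <;> intro h2 <;> simpa [h2, hm', hn'] using h1

theorem Rel.norm_eq {φ ψ : G → ℂ} {m n : ℕ} (h : Rel φ ψ m n) (hm : 0 < m) (hn : 0 < n)
    {R : Subgroup G} (h0 : ip R φ ψ = 0) : ip R φ φ = ip R ψ ψ := by
  have hm' : (m : ℂ) ≠ 0 := by exact_mod_cast hm.ne'
  have hn' : (n : ℂ) ≠ 0 := by exact_mod_cast hn.ne'
  have h1 : (m * n : ℂ) * ip R ψ ψ = (m * n : ℂ) * ip R φ φ + (m ^ 2 - n ^ 2 : ℂ) * ip R φ ψ := by
    unfold ip
    rw [← sm_mul, ← sm_mul, ← sm_mul, ← sm_add]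
    refine sm_congr fun g _ => ?_
    rcases h g with h1 | h1
    · have h2 := congrArg (starRingEnd ℂ) h1
      simp only [map_mul, Complex.conj_natCast] at h2
      linear_combination (m * (starRingEnd ℂ) (ψ g)) * h1 + (n * φ g) * h2
    · have h2 := congrArg (starRingEnd ℂ) h1
      simp only [map_mul, map_neg, Complex.conj_natCast] at h2
      linear_combination (n * (starRingEnd ℂ) (ψ g)) * h1 - (m * φ g) * h2
  rw [h0, mul_zero, add_zero] at h1
  exact (mul_left_cancel₀ (mul_ne_zero hm' hn') h1).symm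

/-- Complex numbers that are integral at `p`. -/
def PInt {p : ℕ} (hp : p.Prime) : Subring ℂ where
  carrier := {α | ∃ u : ℕ, ¬ p ∣ u ∧ IsIntegral ℤ (u * α)}
  zero_mem' := ⟨1, hp.not_dvd_one, by simpa using isIntegral_zero⟩
  one_mem' := ⟨1, hp.not_dvd_one, by simpa using isIntegral_one⟩
  add_mem' := by
    rintro α β ⟨u, hu, h1⟩ ⟨v, hv, h2⟩
    refine ⟨u * v, hp.not_dvd_mul hu hv, ?_⟩
    have e : ((u * v : ℕ) : ℂ) * (α + β) = v • ((u : ℂ) * α) + u • ((v : ℂ) * β) := by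
      simp only [nsmul_eq_mul]
      push_cast; ring
    rw [e]
    exact (h1.nsmul v).add (h2.nsmul u)
  mul_mem' := by
    rintro α β ⟨u, hu, h1⟩ ⟨v, hv, h2⟩
    refine ⟨u * v, hp.not_dvd_mul hu hv, ?_⟩
    have e : ((u * v : ℕ) : ℂ) * (α * β) = ((u : ℂ) * α) * ((v : ℂ) * β) := by
      push_cast; ring
    rw [e]
    exact h1.mul h2
  neg_mem' := by
    rintro α ⟨u, hu, h1⟩
    exact ⟨u, hu, by simpa using h1.neg⟩

theorem pint_of_integral {p : ℕ} (hp : p.Prime) {α : ℂ} (h : IsIntegral ℤ α) : α ∈ PInt hp :=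
  ⟨1, hp.not_dvd_one, by simpa using h⟩

theorem pint_cancel {p : ℕ} (hp : p.Prime) {α : ℂ} {v : ℕ} (hv : ¬ p ∣ v)
    (h : (v : ℂ) * α ∈ PInt hp) : α ∈ PInt hp := by
  obtain ⟨u, hu, h1⟩ := h
  exact ⟨u * v, hp.not_dvd_mul hu hv, by simpa [mul_assoc] using h1⟩

theorem pint_dvd {p : ℕ} (hp : p.Prime) {a t : ℕ} (h : (a : ℂ) / p ^ t ∈ PInt hp) : p ^ t ∣ a := by
  obtain ⟨u, hu, h1⟩ := h
  have hp0 : (p : ℚ) ≠ 0 := by exact_mod_cast hp.ne_zero
  have h2 : (u : ℂ) * ((a : ℂ) / p ^ t) = algebraMap ℚ ℂ (u * (a / p ^ t)) := by simp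
  rw [h2, isIntegral_algebraMap_iff (algebraMap ℚ ℂ).injective,
    IsIntegrallyClosed.isIntegral_iff] at h1
  obtain ⟨z, hz⟩ := h1
  have h3 : (z : ℚ) * p ^ t = u * a := by
    have : (z : ℚ) = u * (a / p ^ t) := hz
    rw [this]; field_simp
  have h4 : z * (p : ℤ) ^ t = u * a := by exact_mod_cast h3
  have h5 : p ^ t ∣ u * a := by
    have : ((p ^ t : ℕ) : ℤ) ∣ ((u * a : ℕ) : ℤ) := by
      push_cast
      exact Dvd.intro_left z h4
    exact_mod_cast this
  exact (Nat.Coprime.pow_left t ((Nat.Prime.coprime_iff_not_dvd hp).mpr hu)).dvd_of_dvd_mul_left h5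

/-- A normal subgroup of order prime to `p` does not separate the two characters. -/
theorem no_sep {φ ψ : G → ℂ} {a b m n p : ℕ} (hφ : Chr φ a) (hψ : Chr ψ b) (hrel : Rel φ ψ m n)
    (hp : p.Prime) (hpN : p ∣ m ^ 2 + n ^ 2) (hpn : ¬ p ∣ n) {Q : Subgroup G} [hQ : Q.Normal]
    (hpQ : ¬ p ∣ Nat.card Q) : ip Q φ ψ ≠ 0 := by
  classical
  intro h0
  obtain ⟨d, z, hd, hz, hav, hch, hnorm⟩ := hφ.ex Q hQ
  obtain ⟨N', hN'⟩ := hpN
  have hn0 : n ≠ 0 := by rintro rfl; exact hpn (dvd_zero p)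
  have hd' : (d : ℂ) ≠ 0 := by exact_mod_cast hd.ne'
  have hp' : (p : ℂ) ≠ 0 := by exact_mod_cast hp.ne_zero
  have hN0 : (N' : ℂ) ≠ 0 := by
    have : N' ≠ 0 := by
      rintro rfl
      have := Nat.pos_of_ne_zero hn0
      have h2 : 0 < m ^ 2 + n ^ 2 := by positivity
      omega
    exact_mod_cast this
  have hNC : (m : ℂ) ^ 2 + n ^ 2 = p * N' := by exact_mod_cast hN'
  have ha := hφ.ne
  let A : G → ℂ := fun r => ∑ q : G ⧸ stab Q z, d * z (q.out⁻¹ * r * q.out)
  have hAi : ∀ r ∈ Q, (starRingEnd ℂ) (A r) ∈ PInt hp := by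
    intro r hr
    refine pint_of_integral hp (IsIntegral.map (starRingEnd ℂ).toIntAlgHom ?_)
    exact IsIntegral.sum _ fun q _ => hch.integral (conj_mem' hQ hr _)
  have hA : ∀ r ∈ Q, a * A r = d * (stab Q z).index * φ r := by
    intro r hr
    have h1 := sum_coset (stab Q z) (fun g => (d : ℂ) * z (g⁻¹ * r * g)) (fun g k hk => by
      have := hk _ (conj_mem' hQ hr g)
      rw [← this]
      simp [mul_assoc])
    have h2 := hav r hr
    rw [← (stab Q z).card_mul_index] at h2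
    rw [← Finset.mul_sum, nsmul_eq_mul] at h1
    apply mul_left_cancel₀ (card_ne (stab Q z))
    push_cast at h2
    linear_combination -(a : ℂ) * h1 - d * h2
  have hn := hav.norm hQ hz hφ.cls
  have hconv : ∀ (χ : G → ℂ) (x : G), a * sm Q (fun r => χ (x * r) * (starRingEnd ℂ) (A r)) =
      d * (stab Q z).index * sm Q (fun r => χ (x * r) * (starRingEnd ℂ) (φ r)) := by
    intro χ x
    rw [← sm_mul, ← sm_mul]
    refine sm_congr fun r hr => ?_
    have h1 := congrArg (starRingEnd ℂ) (hA r hr)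
    simp only [map_mul, Complex.conj_natCast] at h1
    linear_combination χ (x * r) * h1
  have c1 : ∀ x, d * sm Q (fun r => φ (x * r) * (starRingEnd ℂ) (A r)) = Nat.card Q * φ x := by
    intro x
    apply mul_left_cancel₀ (pow_ne_zero 2 ha)
    linear_combination (a * d) * hconv φ x +
      (d ^ 2 * (stab Q z).index) * hφ.conv hQ hφ.cls x + (d ^ 2 * φ x) * hn + (a ^ 2 * φ x) * hnorm
  have c2 : ∀ x, sm Q (fun r => ψ (x * r) * (starRingEnd ℂ) (A r)) = 0 := by
    intro x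
    have h1 := hψ.conv hQ hφ.cls x
    rw [ip_symm, h0, map_zero, mul_zero] at h1
    have h2 := hconv ψ x
    rw [(mul_eq_zero.mp h1).resolve_left hψ.ne, mul_zero] at h2
    exact (mul_eq_zero.mp h2).resolve_left ha
  have key : ∀ t : ℕ, ∀ x ∈ Q, φ x / p ^ t ∈ PInt hp := by
    intro t
    induction t with
    | zero => exact fun x hx => pint_of_integral hp (by simpa using (hφ.chr Q).integral hx)
    | succ t ih =>
      intro x hx
      have hw : ∀ y ∈ Q, (n * (n * φ y + m * ψ y) / (p * N' * p ^ t) : ℂ) ∈ PInt hp := by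
        intro y hy
        rcases hrel y with h1 | h1
        · convert ih y hy using 1
          field_simp
          linear_combination m * h1 + φ y * hNC
        · rw [h1, add_neg_cancel, mul_zero, zero_div]
          exact Subring.zero_mem _
      have h1 : sm Q (fun r => (n * (n * φ (x * r) + m * ψ (x * r)) / (p * N' * p ^ t) : ℂ) *
          (starRingEnd ℂ) (A r)) ∈ PInt hp :=
        Subring.sum_mem _ fun r hr => by
          have hr' : r ∈ Q := by simpa using hr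
          exact Subring.mul_mem _ (hw _ (Q.mul_mem hx hr')) (hAi r hr')
      have h2 : sm Q (fun r => (n * (n * φ (x * r) + m * ψ (x * r)) / (p * N' * p ^ t) : ℂ) *
          (starRingEnd ℂ) (A r)) =
          (n ^ 2 / (p * N' * p ^ t)) * sm Q (fun r => φ (x * r) * (starRingEnd ℂ) (A r)) +
          (n * m / (p * N' * p ^ t)) * sm Q (fun r => ψ (x * r) * (starRingEnd ℂ) (A r)) := by
        rw [← sm_mul, ← sm_mul, ← sm_add]
        exact sm_congr fun r _ => by ring
      rw [h2, c2, mul_zero, add_zero] at h1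
      refine pint_cancel hp (v := n ^ 2 * Nat.card Q)
        (hp.not_dvd_mul (fun h => hpn (hp.dvd_of_dvd_pow h)) hpQ) ?_
      have e : ((n ^ 2 * Nat.card Q : ℕ) : ℂ) * (φ x / p ^ (t + 1)) = ((d * N' : ℕ) : ℂ) *
          ((n ^ 2 / (p * N' * p ^ t)) * sm Q (fun r => φ (x * r) * (starRingEnd ℂ) (A r))) := by
        have e1 : sm Q (fun r => φ (x * r) * (starRingEnd ℂ) (A r)) = Nat.card Q * φ x / d := by
          rw [eq_div_iff hd', mul_comm, c1 x]
        rw [e1]
        push_cast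
        field_simp
        ring
      rw [e]
      exact Subring.mul_mem _ (natCast_mem (PInt hp) (d * N')) h1
  have h1 := key a 1 Q.one_mem
  rw [hφ.one] at h1
  exact absurd (Nat.le_of_dvd hφ.pos (pint_dvd hp h1)) (Nat.lt_pow_self hp.one_lt).not_ge

theorem stab_congr {R : Subgroup G} [hR : R.Normal] {f f' : G → ℂ} (h : ∀ a ∈ R, f a = f' a) :
    stab R f = stab R f' := by
  ext g
  rw [mem_stab, mem_stab]
  refine forall₂_congr fun a ha => ?_
  rw [h a ha, h _ (conj_mem' hR ha g)]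

theorem stab_cj {R : Subgroup G} [hR : R.Normal] {f : G → ℂ} (h : commutator G ≤ stab R f) (g : G) :
    stab R (cj g f) = stab R f := by
  have hn := normal_of_commutator_le h
  ext x
  constructor
  · intro hx
    have h1 : g⁻¹ * x * g ∈ stab R f := by
      intro a ha
      have := hx _ (hR.conj_mem a ha g)
      simpa [cj, mul_assoc] using this
    simpa [mul_assoc] using hn.conj_mem _ h1 g
  · intro hx a ha
    have := conj_mem' hn hx g _ (conj_mem' hR ha g)
    simpa [cj, mul_assoc] using this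

theorem Sph.le_stab {X R : Subgroup G} [R.Normal] {f : G → ℂ} (h : Sph X R f) : X ≤ stab R f :=
  fun x hx => h.cls x hx

theorem eq_of_mul_pow {X Y p k k' : ℕ} (hX : Nat.Coprime p X) (hY : Nat.Coprime p Y)
    (h : X * p ^ k = Y * p ^ k') : X = Y :=
  Nat.dvd_antisymm
    ((Nat.Coprime.pow_right k' hX.symm).dvd_of_dvd_mul_right (Dvd.intro _ h))
    ((Nat.Coprime.pow_right k hY.symm).dvd_of_dvd_mul_right (Dvd.intro _ h.symm))

/-- The standing hypotheses. -/
structure Setup (φ ψ f f' : G → ℂ) (a b m n p c : ℕ) (Q F : Subgroup G) : Prop where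
  hφ : Chr φ a
  hψ : Chr ψ b
  rel : Rel φ ψ m n
  deg : a * m = b * n
  lt : n < m
  npos : 0 < n
  prime : p.Prime
  pm : Nat.Coprime p m
  pn : Nat.Coprime p n
  normal : Q.Normal
  le : Q ≤ F
  comm : commutator G ≤ F
  rel_index : Q.relIndex F = p ^ c
  cop : Nat.Coprime p F.index
  sph : Sph F F f
  sph' : Sph F F f'
  avg : Avg F φ a f
  avg' : Avg F ψ b f'
  same : ∀ x ∈ Q, f x = f' x

section chain

variable {φ ψ f f' : G → ℂ} {a b m n p c : ℕ} {Q F : Subgroup G}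

theorem Setup.pow_mem (h : Setup φ ψ f f' a b m n p c Q F) : ∀ x ∈ F, x ^ p ^ c ∈ Q := by
  intro x hx
  have := h.normal
  have h1 := (Q.subgroupOf F).pow_index_mem (⟨x, hx⟩ : F)
  rw [Subgroup.mem_subgroupOf] at h1
  rw [← h.rel_index]
  exact h1

theorem Setup.idx (h : Setup φ ψ f f' a b m n p c Q F) {R : Subgroup G} [hR : R.Normal]
    (hle : R ≤ F) {k k' : ℕ} (m1 : ip R f f = p ^ k * ip Q f f) (m2 : ip R f' f' = p ^ k' * ip Q f f)
    (hne : ¬ ∃ g, ∀ x ∈ R, cj g f x = f' x) :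
    n ^ 2 * (stab R f').index = m ^ 2 * (stab R f).index := by
  have hF := normal_of_commutator_le h.comm
  have h0 := Avg.ip_zero hF hR (h.avg.mono hle) (h.avg'.mono hle) (h.sph.mono hle)
    (h.sph'.mono hle) h.hφ.cls hne
  have h1 := h.rel.norm_eq (h.npos.trans h.lt) h.npos h0
  have h2 := (h.avg.mono hle).norm hF (h.sph.mono hle) h.hφ.cls
  have h3 := (h.avg'.mono hle).norm hF (h.sph'.mono hle) h.hψ.cls
  have hs : ip Q f f ≠ 0 := ip_self_ne (by rw [h.sph.one]; exact one_ne_zero)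
  have hd : (a : ℂ) * m = b * n := by exact_mod_cast h.deg
  have h4 : ((n ^ 2 * (stab R f').index * p ^ k : ℕ) : ℂ) =
      ((m ^ 2 * (stab R f).index * p ^ k' : ℕ) : ℂ) := by
    push_cast
    apply mul_left_cancel₀ (mul_ne_zero hs (pow_ne_zero 2 h.hψ.ne))
    rw [m1] at h2
    rw [m2, ← h1] at h3
    linear_combination (m ^ 2 * (stab R f).index : ℂ) * h3 - (m ^ 2 * (stab R f').index : ℂ) * h2 -
      (ip Q f f * (stab R f').index * p ^ k * (a * m + b * n)) * hd
  have c1 : ∀ S : Subgroup G, F ≤ S → Nat.Coprime p S.index := fun S hS =>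
    Nat.Coprime.coprime_dvd_right (Subgroup.index_dvd_of_le hS) h.cop
  exact eq_of_mul_pow
    (Nat.Coprime.mul_right (h.pn.pow_right 2) (c1 _ (h.sph'.mono hle).le_stab))
    (Nat.Coprime.mul_right (h.pm.pow_right 2) (c1 _ (h.sph.mono hle).le_stab))
    (by exact_mod_cast h4)

theorem eq_of_le_of_index {S T : Subgroup G} (hle : S ≤ T) (h : S.index = T.index) : S = T := by
  refine Subgroup.eq_of_le_of_card_ge hle (le_of_eq ?_)
  have h1 := S.card_mul_index
  rw [← T.card_mul_index, h] at h1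
  exact (Nat.eq_of_mul_eq_mul_right (Nat.pos_of_ne_zero T.index_ne_zero_of_finite) h1).symm

theorem Setup.chain (h : Setup φ ψ f f' a b m n p c Q F) [F.Normal] :
    (∃ k k' : ℕ, ip F f f = p ^ k * ip Q f f ∧ ip F f' f' = p ^ k' * ip Q f f) ∧
      ((¬ ∃ g, ∀ x ∈ F, cj g f x = f' x) → ∃ C, Cyc C ∧ stab F f' = stab F f ⊓ C) := by
  let S : Set (Subgroup G) := {R | Q ≤ R ∧ R ≤ F ∧ ∃ hR : R.Normal,
    (∃ k k' : ℕ, ip R f f = p ^ k * ip Q f f ∧ ip R f' f' = p ^ k' * ip Q f f) ∧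
      ((¬ ∃ g, ∀ x ∈ R, cj g f x = f' x) →
        ∃ C, Cyc C ∧ stab R (hR := hR) f' = stab R (hR := hR) f ⊓ C)}
  have hQ : Q ∈ S := ⟨le_rfl, h.le, h.normal,
    ⟨0, 0, by simp, by simpa using (ip_congr h.same h.same).symm⟩,
    fun hne => absurd ⟨1, fun x hx => by simpa [cj] using h.same x hx⟩ hne⟩
  obtain ⟨R1, hR1⟩ := (Set.toFinite S).exists_maximal ⟨Q, hQ⟩
  obtain ⟨hQ1, h1F, hn1, ⟨k, k', m1, m2⟩, hC⟩ := hR1.prop
  rcases h1F.eq_or_lt with rfl | hlt
  · exact ⟨⟨k, k', m1, m2⟩, hC⟩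
  exfalso
  have hpow : ∀ x ∈ F, x ^ p ^ c ∈ R1 := fun x hx => hQ1 (h.pow_mem x hx)
  obtain ⟨R2, hch⟩ := exists_chief inferInstance h.prime hpow hlt
  have hn2 := hch.normal
  have hmass : ∀ u : G → ℂ, Sph F F u → ∃ j : ℕ, ip R2 u u = p ^ j * ip R1 u u := by
    intro u hu
    obtain ⟨T, t1, t2, t3⟩ := hch.mass (hu.mono hch.le)
    have h1 : R1.relIndex T ∣ p ^ c := by
      rw [← h.rel_index, ← Subgroup.relIndex_mul_relIndex Q T F (hQ1.trans t1) (t2.trans hch.le),
        ← Subgroup.relIndex_mul_relIndex Q R1 T hQ1 t1]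
      exact (Dvd.intro_left _ rfl).mul_right _
    obtain ⟨j, -, hj⟩ := (Nat.dvd_prime_pow h.prime).mp h1
    exact ⟨j, by rw [t3, hj]; push_cast; rfl⟩
  obtain ⟨j, hj⟩ := hmass f h.sph
  obtain ⟨j', hj'⟩ := hmass f' h.sph'
  have m1' : ip R2 f f = p ^ (j + k) * ip Q f f := by rw [hj, m1, pow_add, mul_assoc]
  have m2' : ip R2 f' f' = p ^ (j' + k') * ip Q f f := by rw [hj', m2, pow_add, mul_assoc]
  have hR2 : R2 ∈ S := by
    refine ⟨hQ1.trans hch.lt.le, hch.le, hn2, ⟨_, _, m1', m2'⟩, fun hne => ?_⟩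
    have i2 := h.idx hch.le m1' m2' hne
    have d1 := hch.dichotomy h.comm (h.sph.mono hch.le) hpow h.cop
    have d2 := hch.dichotomy h.comm (h.sph'.mono hch.le) hpow h.cop
    have hmn : n ^ 2 < m ^ 2 := Nat.pow_lt_pow_left h.lt two_ne_zero
    have hn0 : 0 < n ^ 2 := pow_pos h.npos 2
    have hpos : ∀ T : Subgroup G, 0 < T.index := fun T =>
      Nat.pos_of_ne_zero T.index_ne_zero_of_finite
    by_cases hs : ∃ g, ∀ x ∈ R1, cj g f x = f' x
    · obtain ⟨g, hg⟩ := hs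
      have e1 : stab R1 f' = stab R1 f := by
        rw [← stab_congr hg, stab_cj (h.comm.trans (h.sph.mono h1F).le_stab)]
      have hnle : ¬ stab R2 f ≤ stab R2 f' := by
        intro hle
        have h1 := Nat.le_of_dvd (hpos _) (Subgroup.index_dvd_of_le hle)
        have h2 := hpos (stab R2 f)
        nlinarith
      rw [e1] at d2
      rcases d2 with d2 | d2
      · exact absurd (d2 ▸ stab_anti hch.lt.le f) hnle
      · rcases d1 with d1 | d1
        · exact ⟨_, hch.cyc h.comm, by rw [d2, d1]⟩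
        · exact absurd (le_of_eq (d1.trans d2.symm)) hnle
    · obtain ⟨C, hC1, hC2⟩ := hC hs
      have i1 := h.idx h1F m1 m2 hs
      refine ⟨C, hC1, ?_⟩
      rcases d1 with d1 | d1
      · rw [d1, ← i1] at i2
        rw [d1, ← hC2]
        exact eq_of_le_of_index (stab_anti hch.lt.le f') (Nat.eq_of_mul_eq_mul_left hn0 i2)
      · rcases d2 with d2 | d2
        · rw [d2, i1] at i2
          rw [d2, hC2, eq_of_le_of_index (stab_anti hch.lt.le f)
            (Nat.eq_of_mul_eq_mul_left (hn0.trans hmn) i2).symm]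
        · rw [d1, d2, hC2, inf_right_comm]
  exact hch.lt.not_ge (hR1.le_of_ge hR2 hch.lt.le)

end chain

end Pool.Agent.SemiProp
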