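import Pool.Agent.Lib.MP_c1c6b6_al.Alt3
import Pool.Agent.Lib.MP_c1c6b6_al.PN4

set_option autoImplicit false
set_option linter.unusedSectionVars false

open Finset Function Equiv MulAction

namespace Pool.Agent.SemiProp.Alt

theorem orb {Γ Ω : Type} [Group Γ] [Finite Γ] [Fintype Ω] [MulAction Γ Ω] (Λ : AddSubgroup ℂ)
    (T : Ω → ℂ) (hT : ∀ (γ : Γ) c, T (γ • c) = T c)
    (h : ∀ c, ∃ k ∈ Λ, T c = Nat.card (stabilizer Γ c) * k) :
    ∃ k ∈ Λ, ∑ c, T c = Nat.card Γ * k := by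
  classical
  have := Fintype.ofFinite (orbitRel.Quotient Γ Ω)
  rw [← sum_fiberwise univ (fun c : Ω => (Quotient.mk _ c : orbitRel.Quotient Γ Ω))]
  refine sum_induction _ (fun s => ∃ k ∈ Λ, s = Nat.card Γ * k) ?_ ⟨0, zero_mem _, by simp⟩ ?_
  · rintro _ _ ⟨k, hk, rfl⟩ ⟨k', hk', rfl⟩
    exact ⟨k + k', add_mem hk hk', by ring⟩
  · intro q _
    obtain ⟨c0, rfl⟩ := Quotient.exists_rep q
    obtain ⟨k, hk, h1⟩ := h c0
    refine ⟨k, hk, ?_⟩
    have h2 : ∀ c, (Quotient.mk _ c : orbitRel.Quotient Γ Ω) = Quotient.mk _ c0 ↔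
        c ∈ orbit Γ c0 := fun c => Quotient.eq.trans orbitRel_apply
    simp only [h2]
    rw [sum_congr rfl (g := fun _ => T c0) fun c hc => by
      obtain ⟨γ, rfl⟩ := (mem_filter.1 hc).2
      exact hT γ c0]
    rw [sum_const, nsmul_eq_mul, h1, ← mul_assoc, ← Nat.cast_mul,
      ← Nat.card_congr (orbitProdStabilizerEquivGroup Γ c0), Nat.card_prod,
      Nat.card_eq_fintype_card (α := orbit Γ c0), Fintype.card_subtype]

variable {α : Type} [Fintype α] [DecidableEq α] {N : ℕ}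

theorem orb2 {Γ : Type} [Group Γ] [Fintype Γ] (φ : Γ → ℂ) (hφ : ∀ γ h, φ (h * γ * h⁻¹) = φ γ)
    (hS : ∀ S : Subgroup Γ, ∃ k : ℤ, sm S φ = Nat.card S * k) (f : Γ →* Perm α)
    (t : (α → Fin N) → ℤ) (ht : ∀ γ c, t (c ∘ f γ) = t c) :
    ∃ k : ℤ, ∑ γ, φ γ * (∑ c ∈ univ.filter (fun c : α → Fin N => c ∘ f γ = c), t c : ℤ) =
      Nat.card Γ * k := by
  classical
  let _ : MulAction Γ (α → Fin N) :=
    { smul := fun γ c => c ∘ f γ⁻¹
      one_smul := fun c => by
        change c ∘ f 1⁻¹ = c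
        simp
      mul_smul := fun γ γ' c => by
        change c ∘ f (γ * γ')⁻¹ = (c ∘ f γ'⁻¹) ∘ f γ⁻¹
        rw [mul_inv_rev, map_mul, Perm.coe_mul, comp_assoc] }
  have hsm : ∀ (γ : Γ) (c : α → Fin N), γ • c = c ∘ f γ⁻¹ := fun _ _ => rfl
  have hst : ∀ (γ : Γ) (c : α → Fin N), γ ∈ stabilizer Γ c ↔ c ∘ f γ = c := fun γ c => by
    rw [← inv_mem_iff, mem_stabilizer_iff, hsm, inv_inv]
  obtain ⟨k, ⟨k', rfl⟩, hk⟩ := orb (Γ := Γ) (Int.castAddHom ℂ).range
    (fun c : α → Fin N => t c * sm (stabilizer Γ c) φ) (fun γ c => by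
      rw [show t (γ • c) = t c from ht γ⁻¹ c]
      congr 1
      rw [← sm_equiv (R := stabilizer Γ c) (S := stabilizer Γ (γ • c)) (MulAut.conj γ).toEquiv]
      · exact sm_congr fun a _ => hφ a γ
      · intro a
        change a • c = c ↔ (γ * a * γ⁻¹) • γ • c = γ • c
        rw [mul_smul, mul_smul, inv_smul_smul, smul_left_cancel_iff]) (fun c => by
      obtain ⟨k, hk⟩ := hS (stabilizer Γ c)
      refine ⟨((t c * k : ℤ) : ℂ), ⟨t c * k, rfl⟩, ?_⟩
      rw [hk]
      push_cast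
      ring)
  refine ⟨k', Eq.trans ?_ hk⟩
  simp only [sm, sum_filter, mul_sum, Int.cast_sum, hst]
  rw [sum_comm]
  refine sum_congr rfl fun c _ => sum_congr rfl fun γ _ => ?_
  split_ifs
  · ring
  · simp

theorem cnt_comp (c : α → Fin N) (s : Perm α) : cnt (c ∘ s) = cnt c := by
  funext j
  refine card_bij (fun a _ => s a) (fun a ha => ?_) (fun a _ b _ h => s.injective h) fun b hb => ?_
  · simpa using ha
  · exact ⟨s.symm b, by simpa using hb, by simp⟩

theorem Y_conj {X : Fn N} (h : AS X) (g s : Perm α) : Y X (s * g * s⁻¹) = Y X g := by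
  have h1 := pair_Y h (s * g * s⁻¹)
  rw [← Perm.partition_eq_of_isConj.1 (isConj_iff.2 ⟨s, rfl⟩), pair_Y h] at h1
  exact (mul_left_cancel₀ (by exact_mod_cast N.factorial_ne_zero) h1).symm

theorem fix_mul {g u : Perm α} (h : Commute g u) (hc : (orderOf g).Coprime (orderOf u))
    (c : α → Fin N) : c ∘ ⇑(g * u) = c ↔ c ∘ g = c ∧ c ∘ u = c := by
  refine ⟨fun h1 => ⟨?_, ?_⟩, fun ⟨h1, h2⟩ => by rw [Perm.coe_mul, ← comp_assoc, h1, h2]⟩
  · obtain ⟨m, hm⟩ := exists_pow_eq_self_of_coprime hc.symm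
    have h2 := fix_pow h1 (orderOf u * m)
    rwa [pow_mul, h.mul_pow, pow_orderOf_eq_one, mul_one, hm] at h2
  · obtain ⟨m, hm⟩ := exists_pow_eq_self_of_coprime hc
    have h2 := fix_pow h1 (orderOf g * m)
    rwa [pow_mul, h.mul_pow, pow_orderOf_eq_one, one_mul, hm] at h2

theorem Y_dvd {p : ℕ} (hp : p.Prime) {X : Fn N} (h : PP p (base N + Fintype.card α) X)
    {Γ : Type} [Group Γ] [Finite Γ] (hΓ : IsPGroup p Γ) (ι : Γ →* Perm α) (hι : Injective ι)
    {g : Perm α} (hc : ∀ u, Commute g (ι u)) : ∃ y : ℤ, (Y X g : ℂ) = Nat.card Γ * y := by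
  classical
  by_cases hg : p ∣ orderOf g
  · exact ⟨0, by simp [Y_sing hp h hg]⟩
  have := Fintype.ofFinite Γ
  have := Fact.mk hp
  have hord : ∀ u, ∃ k, orderOf (ι u) = p ^ k := fun u => by
    rw [orderOf_injective ι hι]
    exact IsPGroup.iff_orderOf.1 hΓ u
  have hcop : ∀ u, (orderOf g).Coprime (orderOf (ι u)) := fun u => by
    obtain ⟨k, hk⟩ := hord u
    rw [hk]
    exact ((Nat.Prime.coprime_iff_not_dvd hp).2 hg).symm.pow_right k
  obtain ⟨y, hy⟩ := orb2 (fun _ : Γ => (1 : ℂ)) (fun _ _ => rfl)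
    (fun S => ⟨1, by simp [sm_const]⟩) ι
    (fun c : α → Fin N => if c ∘ g = c then X (del N + cnt c) else 0) (fun u c => by
      rw [cnt_comp]
      refine if_congr ?_ rfl rfl
      rw [comp_assoc, ← Perm.coe_mul, ← (hc u).eq, Perm.coe_mul, ← comp_assoc]
      exact (ι u).surjective.right_cancellable)
  refine ⟨y, Eq.trans ?_ hy⟩
  have h1 : ∀ u, ∑ c ∈ univ.filter (fun c : α → Fin N => c ∘ ι u = c),
      (if c ∘ g = c then X (del N + cnt c) else 0) = Y X (g * ι u) := fun u => by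
    rw [← sum_filter, filter_filter, Y]
    exact sum_congr (filter_congr fun c _ => by rw [fix_mul (hc u) (hcop u), and_comm]) fun _ _ => rfl
  simp only [h1, one_mul]
  rw [sum_eq_single 1]
  · simp
  · intro u _ hu
    rw [Y_sing hp h, Int.cast_zero]
    rw [(hc u).orderOf_mul_eq_mul_orderOf_of_coprime (hcop u)]
    obtain ⟨k, hk⟩ := hord u
    refine Dvd.dvd.mul_left (hk ▸ dvd_pow_self p fun h0 => hu ?_) _
    rw [h0, pow_zero, orderOf_eq_one_iff] at hk
    exact hι (hk.trans (map_one ι).symm)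
  · simp

variable {H : Type} [Group H] [Fintype H]

/-- The local congruence: a class function with integral values pairs `p`-integrally with every
weighted count that vanishes on `p`-singular permutations. -/
theorem sum_pint {p : ℕ} (hp : p.Prime) {X : Fn N} (h : PP p (base N + Fintype.card α) X)
    (f : H →* Perm α) (hf : Injective f) (a : H → ℂ) (ha : ∀ x, a x ∈ PInt hp)
    (hcl : ∀ x s, a (s * x * s⁻¹) = a x) :
    ∃ k ∈ PInt hp, ∑ x, a x * Y X (f x) = Nat.card H * k := by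
  have := Fact.mk hp
  refine orb (Γ := ConjAct H) (PInt hp).toAddSubgroup (fun x => a x * Y X (f x))
    (fun s x => ?_) fun x => ?_
  · simp only [ConjAct.smul_def, hcl, map_mul, map_inv, Y_conj h.1]
  · obtain ⟨P⟩ : Nonempty (Sylow p (stabilizer (ConjAct H) x)) := inferInstance
    obtain ⟨y, hy⟩ := Y_dvd hp h P.isPGroup' (f.comp ((ConjAct.ofConjAct (G := H)).toMonoidHom.comp
      ((stabilizer (ConjAct H) x).subtype.comp P.1.subtype)))
      (hf.comp ((ConjAct.ofConjAct (G := H)).injective.comp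
        (Subtype.val_injective.comp Subtype.val_injective))) (g := f x) (fun u => by
        have h1 : ConjAct.ofConjAct u.1.1 * x * (ConjAct.ofConjAct u.1.1)⁻¹ = x := u.1.2
        exact Commute.map (mul_inv_eq_iff_eq_mul.1 h1).symm f)
    have h1 : (P.1.index : ℂ) ≠ 0 := by exact_mod_cast P.1.index_ne_zero_of_finite
    refine ⟨a x * y / P.1.index, pint_cancel hp P.not_dvd_index ?_, ?_⟩
    · rw [mul_div_cancel₀ _ h1]
      exact mul_mem (ha x) (intCast_mem _ y)
    · rw [hy, ← P.1.card_mul_index]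
      push_cast
      field_simp

theorem supp_le {M k : ℕ} {a : Fn N} (h : AS a)
    (h2 : ∑ e ∈ lev N M, a e ^ 2 ≤ k * N.factorial) :
    (supp 0 M a).card ≤ k ∧ ∀ e, ∑ j, e j = M → a e ^ 2 ≤ k := by
  have hN : (0 : ℤ) < N.factorial := by exact_mod_cast N.factorial_pos
  have hf : ∀ e0, ∑ j, e0 j = M → a e0 ≠ 0 → N.factorial * a e0 ^ 2 ≤
      ∑ e ∈ lev N M with univ.image e = univ.image e0, a e ^ 2 := by
    intro e0 h3 h4
    have h5 : ∑ e ∈ univ.image (fun σ : Perm (Fin N) => e0 ∘ σ), a e ^ 2 =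
        N.factorial * a e0 ^ 2 := by
      rw [sum_image (g := fun σ : Perm (Fin N) => e0 ∘ σ)
          fun σ _ τ _ h6 => Perm.ext fun j => h.inj h4 (congrFun h6 j),
        sum_congr rfl (g := fun _ => a e0 ^ 2) fun σ _ => by
          rw [h, mul_pow, sq, sign_sq, one_mul]]
      simp [Fintype.card_perm]
    rw [← h5]
    refine sum_le_sum_of_subset_of_nonneg (fun e he => ?_) fun _ _ _ => sq_nonneg _
    obtain ⟨σ, -, rfl⟩ := mem_image.1 he
    refine mem_filter.2 ⟨mem_lev.2 ((sum_comp_perm _ _).trans h3), ?_⟩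
    rw [← image_image, image_univ_equiv]
  constructor
  · have h3 := sum_fiberwise_le_sum_of_sum_fiber_nonneg (s := lev N M) (t := supp 0 M a)
      (g := fun e => univ.image e) (f := fun e => a e ^ 2)
      fun _ _ => sum_nonneg fun _ _ => sq_nonneg _
    have h4 : ∑ _B ∈ supp 0 M a, (N.factorial : ℤ) ≤
        ∑ B ∈ supp 0 M a, ∑ e ∈ lev N M with univ.image e = B, a e ^ 2 := by
      refine sum_le_sum fun B hB => ?_
      obtain ⟨e, h5, h6, rfl⟩ := mem_supp.1 hB
      have h7 : a e ≠ 0 := fun h0 => h6 (h0 ▸ dvd_rfl)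
      have h8 := hf e h5 h7
      have h9 : 0 < a e ^ 2 := by positivity
      nlinarith
    rw [sum_const, nsmul_eq_mul] at h4
    have h5 : ((supp 0 M a).card : ℤ) ≤ k := by nlinarith
    exact_mod_cast h5
  · intro e he
    by_cases h0 : a e = 0
    · simp [h0]
    · have h3 := hf e he h0
      have h4 : ∑ e' ∈ lev N M with univ.image e' = univ.image e, a e' ^ 2 ≤
          ∑ e ∈ lev N M, a e ^ 2 :=
        sum_le_sum_of_subset_of_nonneg (filter_subset _ _) fun _ _ _ => sq_nonneg _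
      nlinarith

end Pool.Agent.SemiProp.Alt
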