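import Pool.Agent.Lib.MP_c1c6b6_al.Alt4

set_option autoImplicit false
set_option linter.unusedSectionVars false

open Finset Function Equiv Module

namespace Pool.Agent.SemiProp.Alt

variable {α : Type} [Fintype α] [DecidableEq α] {N : ℕ} {H : Type} [Group H] [Fintype H]

/-- `a` lists the multiplicities of the characters of the symmetric group in the class function
induced from `φ`. -/
def Coef (f : H →* Perm α) (φ : H → ℂ) (a : Fn N) : Prop :=
  ∀ e, ∑ x, φ x * W N (f x).partition.parts e = Nat.card H * a e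

theorem Coef.as {f : H →* Perm α} {φ : H → ℂ} {a : Fn N} (h : Coef f φ a) : AS a := by
  intro σ e
  have h1 := h (e ∘ σ)
  have h2 : ∀ x, W N (f x).partition.parts (e ∘ σ) = _ := fun x => W_as _ σ e
  simp only [h2, Int.cast_mul, mul_left_comm _ (((σ.sign : ℤ) : ℂ))] at h1
  rw [← mul_sum, h e, mul_left_comm] at h1
  exact_mod_cast (mul_left_cancel₀ (cardG_ne (G := H)) h1).symm

theorem Coef.pair {f : H →* Perm α} {φ : H → ℂ} {a : Fn N} (h : Coef f φ a) (M : ℕ) (X : Fn N) :
    (Nat.card H : ℂ) * pair M a X = ∑ x, φ x * pair M (W N (f x).partition.parts) X := by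
  simp only [Alt.pair, Int.cast_sum, Int.cast_mul, mul_sum, ← mul_assoc, ← h _, sum_mul]
  exact sum_comm

theorem Coef.comb {f : H →* Perm α} {φ ψ : H → ℂ} {a b : Fn N} (h : Coef f φ a) (h' : Coef f ψ b)
    (m n : ℕ) : Coef f (fun x => m * φ x + n * ψ x) (fun e => m * a e + n * b e) := by
  intro e
  simp only [add_mul, sum_add_distrib, mul_assoc, ← mul_sum, h e, h' e]
  push_cast
  ring

section rep

variable {V : Type} [AddCommGroup V] [Module ℂ V] [FiniteDimensional ℂ V]

theorem exists_coef (f : H →* Perm α) (ρ : Representation ℂ H V) :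
    ∃ a : Fn N, Coef f ρ.character a := by
  classical
  have key : ∀ e, ∃ k : ℤ, ∑ x, ρ.character x * W N (f x).partition.parts e = Nat.card H * k := by
    intro e
    by_cases he : ∑ j, e j = base N + Fintype.card α
    · have h1 : ∀ g : Perm α, W N g.partition.parts e = Y (alt e) g := fun g => by
        have h2 := pair_Y (alt_as e) g
        rw [pair_alt (W_as _) (mem_lev.2 he)] at h2
        exact mul_left_cancel₀ (by exact_mod_cast N.factorial_ne_zero) h2
      simp only [h1]
      refine orb2 ρ.character ρ.char_conj (fun S => ?_) f (fun c => alt e (del N + cnt c))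
        fun x c => by rw [cnt_comp]
      have := invertibleOfNonzero (card_ne S)
      have h2 := Representation.card_inv_mul_sum_char_eq_finrank (ρ.comp S.subtype)
      refine ⟨finrank ℂ (Representation.invariants (ρ.comp S.subtype)), ?_⟩
      rw [sm_subtype, Int.cast_natCast, ← h2, ← mul_assoc, mul_inv_cancel₀ (card_ne S), one_mul]
      rfl
    · refine ⟨0, ?_⟩
      rw [Int.cast_zero, mul_zero]
      refine sum_eq_zero fun x _ => ?_
      have h1 : W N (f x).partition.parts e = 0 := by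
        by_contra h2
        exact he (by rw [W_hom _ e h2, (f x).partition.parts_sum])
      rw [h1, Int.cast_zero, mul_zero]
  choose a ha using key
  exact ⟨a, ha⟩

theorem Coef.ne_zero (hN : Fintype.card α ≤ N) {f : H →* Perm α} (hf : Injective f) {φ : H → ℂ}
    {a : Fn N} (h : Coef f φ a) (h1 : φ 1 ≠ 0) :
    ∃ e, ∑ j, e j = base N + Fintype.card α ∧ a e ≠ 0 := by
  classical
  by_contra h0
  have h2 := h.pair (base N + Fintype.card α) (W N (1 : Perm α).partition.parts)
  have h3 : Alt.pair (base N + Fintype.card α) a (W N (1 : Perm α).partition.parts) = 0 :=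
    sum_eq_zero fun e he => by
      rw [not_not.1 fun h4 => h0 ⟨e, mem_lev.1 he, h4⟩, zero_mul]
  rw [h3, sum_eq_single 1, pair_parts hN, map_one, if_pos (IsConj.refl _)] at h2
  · have h4 := zed_parts (1 : Perm α)
    have h5 : zed (1 : Perm α).partition.parts ≠ 0 := fun h5 =>
      (Fintype.card α).factorial_ne_zero (by rw [← h4, h5, mul_zero])
    refine mul_ne_zero h1 ?_ (h2.symm.trans (by simp))
    exact_mod_cast mul_ne_zero N.factorial_ne_zero h5
  · intro x _ hx
    rw [pair_parts hN, if_neg fun h4 => hx (hf ((isConj_one_left.1 h4).trans (map_one f).symm)),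
      Int.cast_zero, mul_zero]
  · simp

theorem row_le (hN : Fintype.card α ≤ N) {f : H →* Perm α} (hf : Injective f) (g : Perm α) :
    ∑ y, pair (base N + Fintype.card α) (W N g.partition.parts) (W N (f y).partition.parts) ≤
      N.factorial * (Fintype.card α).factorial := by
  classical
  simp only [pair_parts hN]
  rw [← sum_filter, sum_const, nsmul_eq_mul, ← zed_parts g]
  have h1 : (univ.filter fun y => IsConj g (f y)).card ≤ Nat.card {h : Perm α | IsConj g h} := by
    rw [← Fintype.card_subtype, ← Nat.card_eq_fintype_card]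
    exact Nat.card_le_card_of_injective (fun y => ⟨f y.1, y.2⟩)
      fun y y' h => Subtype.ext (hf (congrArg Subtype.val h))
  have h2 := Nat.mul_le_mul_right (N.factorial * zed g.partition.parts) h1
  have h3 : (((univ.filter fun y => IsConj g (f y)).card * (N.factorial * zed g.partition.parts) :
      ℕ) : ℤ) ≤ (N.factorial * (Nat.card {h : Perm α | IsConj g h} * zed g.partition.parts) : ℕ) :=
    Int.ofNat_le.2 (h2.trans_eq (by ring))
  exact_mod_cast h3

theorem Coef.norm_le (hN : Fintype.card α ≤ N) {f : H →* Perm α} (hf : Injective f) {k : ℕ}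
    (hH : (Fintype.card α).factorial ≤ k * Nat.card H) {ρ : Representation ℂ H V} (hρ : Irr ρ)
    {a : Fn N} (h : Coef f ρ.character a) :
    ∑ e ∈ lev N (base N + Fintype.card α), a e ^ 2 ≤ k * N.factorial := by
  classical
  obtain ⟨K, hK⟩ : ∃ K : H → H → ℤ, ∀ x y, K x y = Alt.pair (base N + Fintype.card α)
      (W N (f x).partition.parts) (W N (f y).partition.parts) := ⟨_, fun _ _ => rfl⟩
  have hK0 : ∀ x y, (0 : ℝ) ≤ K x y := fun x y => by
    rw [hK, pair_parts hN]
    split_ifs
    · positivity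
    · simp
  have hKs : ∀ x y, K x y = K y x := fun x y => by rw [hK, hK, pair_comm]
  have hKr : ∀ x, ∑ y, (K x y : ℝ) ≤ N.factorial * (Fintype.card α).factorial := fun x => by
    simp only [hK]
    exact_mod_cast row_le hN hf (f x)
  have h1 : ((Nat.card H : ℂ)) ^ 2 * Alt.pair (base N + Fintype.card α) a a =
      ∑ x, ∑ y, ρ.character x * (starRingEnd ℂ) (ρ.character y) * K x y := by
    rw [sq, mul_assoc, h.pair, mul_sum]
    refine sum_congr rfl fun x _ => ?_
    have h2 := congrArg (starRingEnd ℂ)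
      (h.pair (base N + Fintype.card α) (W N (f x).partition.parts))
    simp only [map_mul, map_natCast, map_intCast, map_sum, ← hK] at h2
    rw [mul_left_comm, pair_comm, h2, mul_sum]
    exact sum_congr rfl fun y _ => by rw [hKs x y, mul_assoc]
  have h2 : (Nat.card H : ℝ) ^ 2 * Alt.pair (base N + Fintype.card α) a a =
      ∑ x, ∑ y, (ρ.character x * (starRingEnd ℂ) (ρ.character y)).re * K x y := by
    have h3 := congrArg Complex.re h1
    simp only [Complex.re_sum, ← Complex.ofReal_intCast, Complex.re_mul_ofReal] at h3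
    rw [← h3, ← Complex.ofReal_natCast, ← Complex.ofReal_pow, Complex.ofReal_re]
  have h3 : ∑ x, Complex.normSq (ρ.character x) = Nat.card H := by
    have h4 := hρ.sum_norm
    simp only [char_inv, Complex.mul_conj] at h4
    rw [Nat.card_eq_fintype_card]
    exact_mod_cast h4
  have h4 : ∑ x, ∑ y, Complex.normSq (ρ.character x) * K x y ≤
      Nat.card H * (N.factorial * (Fintype.card α).factorial) := by
    rw [← h3, sum_mul]
    refine sum_le_sum fun x _ => ?_
    rw [← mul_sum]
    exact mul_le_mul_of_nonneg_left (hKr x) (Complex.normSq_nonneg _)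
  have h5 : ∑ x, ∑ y, Complex.normSq (ρ.character y) * K x y =
      ∑ x, ∑ y, Complex.normSq (ρ.character x) * K x y := by
    rw [sum_comm]
    simp only [hKs]
  have h6 : 2 * ∑ x, ∑ y, (ρ.character x * (starRingEnd ℂ) (ρ.character y)).re * K x y ≤
      ∑ x, ∑ y, Complex.normSq (ρ.character x) * K x y +
        ∑ x, ∑ y, Complex.normSq (ρ.character y) * K x y := by
    simp only [mul_sum, ← sum_add_distrib]
    refine sum_le_sum fun x _ => sum_le_sum fun y _ => ?_
    rw [← mul_assoc, ← add_mul]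
    refine mul_le_mul_of_nonneg_right ?_ (hK0 x y)
    simp only [Complex.mul_re, Complex.conj_re, Complex.conj_im, Complex.normSq_apply]
    nlinarith [sq_nonneg ((ρ.character x).re - (ρ.character y).re),
      sq_nonneg ((ρ.character x).im - (ρ.character y).im)]
  have hc : (0 : ℝ) < Nat.card H := by exact_mod_cast Nat.card_pos
  have hH' : ((Fintype.card α).factorial : ℝ) ≤ k * Nat.card H := by exact_mod_cast hH
  have hN' : (0 : ℝ) < N.factorial := by exact_mod_cast N.factorial_pos
  have h7 : (Nat.card H : ℝ) ^ 2 * Alt.pair (base N + Fintype.card α) a a ≤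
      (Nat.card H : ℝ) ^ 2 * (k * N.factorial) := by
    have h8 := mul_le_mul_of_nonneg_left hH' (mul_pos hc hN').le
    nlinarith
  have h8 : Alt.pair (base N + Fintype.card α) a a ≤ k * N.factorial := by
    exact_mod_cast le_of_mul_le_mul_left h7 (by positivity)
  simpa only [Alt.pair, sq] using h8

end rep

theorem fact_dvd (M : ℕ) {v X : Fn N} (hv : AS v) (hX : AS X) : (N.factorial : ℤ) ∣ pair M v X := by
  let _ : MulAction (Perm (Fin N)) (lev N M) :=
    { smul := fun σ e => ⟨e.1 ∘ ⇑σ⁻¹, mem_lev.2 ((sum_comp_perm _ _).trans (mem_lev.1 e.2))⟩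
      one_smul := fun _ => rfl
      mul_smul := fun _ _ _ => rfl }
  obtain ⟨k, ⟨k', rfl⟩, hk⟩ := orb (Γ := Perm (Fin N)) (Int.castAddHom ℂ).range
    (fun e : lev N M => ((v e * X e : ℤ) : ℂ)) (fun σ e => by
      change ((v (e.1 ∘ ⇑σ⁻¹) * X (e.1 ∘ ⇑σ⁻¹) : ℤ) : ℂ) = _
      rw [hv, hX, mul_mul_mul_comm, sign_sq, one_mul]) (fun e => by
      by_cases h0 : v e = 0
      · exact ⟨0, zero_mem _, by simp [h0]⟩
      · refine ⟨_, ⟨v e * X e, rfl⟩, ?_⟩
        have h1 : MulAction.stabilizer (Perm (Fin N)) e = ⊥ := by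
          refine (Subgroup.eq_bot_iff_forall _).2 fun σ hσ => inv_eq_one.1 (Perm.ext fun j => ?_)
          exact hv.inj h0 (congrFun (congrArg Subtype.val hσ) j)
        rw [h1]
        simp)
  refine ⟨k', ?_⟩
  rw [sum_coe_sort (lev N M) fun e => ((v e * X e : ℤ) : ℂ), ← Int.cast_sum, Nat.card_perm,
    Nat.card_fin] at hk
  have hk' : ((pair M v X : ℤ) : ℂ) = N.factorial * k' := hk
  exact_mod_cast hk'

theorem jj_of_coef {p : ℕ} (hp : p.Prime) {f : H →* Perm α} (hf : Injective f) {A : H → ℂ}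
    (hA : ∀ x, A x ∈ PInt hp) (hcl : ∀ x s, A (s * x * s⁻¹) = A x) {v : Fn N} {φ : H → ℂ}
    (hφ : ∀ x, ¬ p ∣ orderOf (f x) → φ x = p * A x) (h : Coef f φ v) :
    JJ p p (base N + Fintype.card α) v := by
  refine ⟨h.as, fun X hX => ?_⟩
  obtain ⟨k, hk, h1⟩ := sum_pint hp hX f hf A hA hcl
  have h2 := h.pair (base N + Fintype.card α) X
  simp only [pair_Y hX.1] at h2
  obtain ⟨z, hz⟩ := fact_dvd (base N + Fintype.card α) h.as hX.1
  have h4 : (z : ℂ) = p * k := by
    refine mul_left_cancel₀ (mul_ne_zero (cardG_ne (G := H))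
      (show (N.factorial : ℂ) ≠ 0 by exact_mod_cast N.factorial_ne_zero)) ?_
    have h5 : ∑ x, φ x * ((N.factorial * Y X (f x) : ℤ) : ℂ) =
        p * N.factorial * ∑ x, A x * Y X (f x) := by
      rw [mul_sum]
      refine sum_congr rfl fun x _ => ?_
      by_cases h6 : p ∣ orderOf (f x)
      · simp [Y_sing hp hX h6]
      · rw [hφ x h6]
        push_cast
        ring
    rw [h5, h1, hz] at h2
    push_cast at h2
    linear_combination h2
  rw [hz]
  refine mul_dvd_mul_left _ (Int.natCast_dvd.2 ?_)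
  have h5 := pint_dvd hp (a := z.natAbs) (t := 1) (by
    have h6 : (p : ℂ) ≠ 0 := by exact_mod_cast hp.ne_zero
    rw [pow_one, Nat.cast_natAbs]
    rcases abs_cases z with h7 | h7
    · rwa [h7.1, h4, mul_div_cancel_left₀ _ h6]
    · rw [h7.1, Int.cast_neg, h4, neg_div, mul_div_cancel_left₀ _ h6]
      exact neg_mem hk)
  rwa [pow_one] at h5

theorem exists_prime {m n : ℕ} (h : m.Coprime n) (hm : 0 < m) (hn : 0 < n) (hne : m ≠ n) :
    ∃ p, p.Prime ∧ 4 < p ∧ p ∣ m ^ 2 + n ^ 2 := by
  have key : ∀ q, 1 < q → ¬ 2 ∣ q → q ∣ m ^ 2 + n ^ 2 → ∃ p, p.Prime ∧ 4 < p ∧ p ∣ m ^ 2 + n ^ 2 := by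
    intro q h1 h2 h3
    have h4 := Nat.minFac_prime h1.ne'
    have h5 := Nat.minFac_dvd q
    refine ⟨_, h4, ?_, h5.trans h3⟩
    have h6 := h4.two_le
    by_contra h7
    have h8 : q.minFac = 2 ∨ q.minFac = 3 ∨ q.minFac = 4 := by omega
    rcases h8 with h8 | h8 | h8
    · exact h2 (h8 ▸ h5)
    · have h9 : 3 ∣ m ^ 2 + n ^ 2 := (h8 ▸ h5).trans h3
      have h10 : ¬ (3 ∣ m ∧ 3 ∣ n) := fun h11 => by
        have := Nat.dvd_gcd h11.1 h11.2
        rw [h.gcd_eq_one] at this
        omega
      have h11 : m % 3 = 0 ∨ m % 3 = 1 ∨ m % 3 = 2 := by omega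
      have h12 : n % 3 = 0 ∨ n % 3 = 1 ∨ n % 3 = 2 := by omega
      rw [Nat.dvd_iff_mod_eq_zero, Nat.add_mod, Nat.pow_mod, Nat.pow_mod n] at h9
      rcases h11 with h11 | h11 | h11 <;> rcases h12 with h12 | h12 | h12 <;>
        rw [h11, h12] at h9 <;> omega
    · rw [h8] at h4
      exact absurd h4 (by decide)
  have h5 : 5 ≤ m ^ 2 + n ^ 2 := by
    rcases Nat.lt_or_gt_of_ne hne with h1 | h1 <;> nlinarith
  by_cases h2 : 2 ∣ m ^ 2 + n ^ 2
  · obtain ⟨q, hq⟩ := h2
    refine key q (by omega) (fun h3 => ?_) ⟨2, by omega⟩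
    have h9 : 4 ∣ m ^ 2 + n ^ 2 := by omega
    have h10 : ¬ (2 ∣ m ∧ 2 ∣ n) := fun h11 => by
      have := Nat.dvd_gcd h11.1 h11.2
      rw [h.gcd_eq_one] at this
      omega
    have h11 : m % 4 = 0 ∨ m % 4 = 1 ∨ m % 4 = 2 ∨ m % 4 = 3 := by omega
    have h12 : n % 4 = 0 ∨ n % 4 = 1 ∨ n % 4 = 2 ∨ n % 4 = 3 := by omega
    rw [Nat.dvd_iff_mod_eq_zero, Nat.add_mod, Nat.pow_mod, Nat.pow_mod n] at h9
    rcases h11 with h11 | h11 | h11 | h11 <;> rcases h12 with h12 | h12 | h12 | h12 <;>
      rw [h11, h12] at h9 <;> omega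
  · exact key _ (by omega) h2 dvd_rfl

theorem arith {p m n : ℕ} (hp : p.Prime) (h4 : 4 < p) (h : m.Coprime n) (hN : p ∣ m ^ 2 + n ^ 2)
    {a b : ℤ} (ha : a ≠ 0) (ha2 : a ^ 2 ≤ 2) (hb2 : b ^ 2 ≤ 2) : ¬ (p : ℤ) ∣ m * a + n * b := by
  intro h1
  have hp' := Nat.prime_iff_prime_int.1 hp
  have hN' : (p : ℤ) ∣ (m : ℤ) ^ 2 + (n : ℤ) ^ 2 := by exact_mod_cast hN
  have hn : ¬ (p : ℤ) ∣ n := fun h2 => by
    have h3 : (p : ℤ) ∣ m := hp'.dvd_of_dvd_pow ((dvd_add_left (dvd_pow h2 two_ne_zero)).1 hN')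
    exact hp.not_dvd_one (h.gcd_eq_one ▸ Nat.dvd_gcd (Int.natCast_dvd_natCast.1 h3)
      (Int.natCast_dvd_natCast.1 h2))
  have h2 : (p : ℤ) ∣ (n : ℤ) ^ 2 * (a ^ 2 + b ^ 2) := by
    have e : (n : ℤ) ^ 2 * (a ^ 2 + b ^ 2) =
        (m ^ 2 + n ^ 2) * a ^ 2 - (m * a + n * b) * (m * a - n * b) := by ring
    rw [e]
    exact dvd_sub (hN'.mul_right _) (h1.mul_right _)
  have h3 := (hp'.dvd_or_dvd h2).resolve_left fun h3 => hn (hp'.dvd_of_dvd_pow h3)
  have h5 := Int.le_of_dvd (by positivity) h3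
  omega

/-- Semiproportional irreducible characters of a subgroup of index at most two in a symmetric group
have the same degree. -/
theorem degree_eq_alt {V U : Type} [AddCommGroup V] [Module ℂ V] [FiniteDimensional ℂ V]
    [AddCommGroup U] [Module ℂ U] [FiniteDimensional ℂ U] {f : H →* Perm α} (hf : Injective f)
    (hH : (Fintype.card α).factorial ≤ 2 * Nat.card H) {ρ : Representation ℂ H V}
    {σ : Representation ℂ H U} (hρ : Irr ρ) (hσ : Irr σ)
    (hrel : ∀ g, (finrank ℂ U : ℂ) * ρ.character g = finrank ℂ V * σ.character g ∨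
      (finrank ℂ V : ℂ) * ρ.character g = -(finrank ℂ U * σ.character g)) :
    finrank ℂ V = finrank ℂ U := by
  by_contra hne
  have hV := hρ.finrank_pos
  have hU := hσ.finrank_pos
  have hg : 0 < Nat.gcd (finrank ℂ V) (finrank ℂ U) := Nat.gcd_pos_of_pos_left _ hV
  have hmn := Nat.coprime_div_gcd_div_gcd hg
  have e1 := Nat.mul_div_cancel' (Nat.gcd_dvd_left (finrank ℂ V) (finrank ℂ U))
  have e2 := Nat.mul_div_cancel' (Nat.gcd_dvd_right (finrank ℂ V) (finrank ℂ U))
  generalize finrank ℂ V / Nat.gcd (finrank ℂ V) (finrank ℂ U) = m at hmn e1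
  generalize finrank ℂ U / Nat.gcd (finrank ℂ V) (finrank ℂ U) = n at hmn e2
  generalize Nat.gcd (finrank ℂ V) (finrank ℂ U) = t at hg e1 e2
  obtain ⟨p, hp, h4, c, hc⟩ := exists_prime hmn (Nat.pos_of_mul_pos_left (e1 ▸ hV))
    (Nat.pos_of_mul_pos_left (e2 ▸ hU)) fun h => hne (by rw [← e1, ← e2, h])
  have ht : (t : ℂ) ≠ 0 := by exact_mod_cast hg.ne'
  have hp0 : (p : ℂ) ≠ 0 := by exact_mod_cast hp.ne_zero
  obtain ⟨a, ha⟩ := exists_coef (N := Fintype.card α) f ρ
  obtain ⟨b, hb⟩ := exists_coef (N := Fintype.card α) f σ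
  obtain ⟨ha1, ha2⟩ := supp_le ha.as (ha.norm_le le_rfl hf hH hρ)
  obtain ⟨hb1, hb2⟩ := supp_le hb.as (hb.norm_le le_rfl hf hH hσ)
  obtain ⟨e, he, he0⟩ := ha.ne_zero le_rfl hf (by
    rw [Representation.char_one]
    exact_mod_cast hV.ne')
  have hJ := jj_of_coef (v := fun e => m * a e + n * b e) hp hf
    (A := fun x => (m * ρ.character x + n * σ.character x) / p) (fun x => ?_)
    (fun x s => by simp only [Representation.char_conj])
    (fun x _ => (mul_div_cancel₀ _ hp0).symm) (ha.comb hb m n)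
  · refine arith hp h4 hmn ⟨c, hc⟩ he0 (ha2 e he) (hb2 e he)
      (min_dist hp.pos p _ le_rfl _ hJ (lt_of_le_of_lt ?_ h4) e he)
    refine (card_le_card fun B hB => ?_).trans ((card_union_le _ _).trans (add_le_add ha1 hb1))
    obtain ⟨e', h1, h2, rfl⟩ := mem_supp.1 hB
    by_contra h3
    rw [mem_union, not_or] at h3
    have h5 : a e' = 0 := zero_dvd_iff.1 (not_not.1 fun h => h3.1 (mem_supp.2 ⟨e', h1, h, rfl⟩))
    have h6 : b e' = 0 := zero_dvd_iff.1 (not_not.1 fun h => h3.2 (mem_supp.2 ⟨e', h1, h, rfl⟩))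
    exact h2 (by simp [h5, h6])
  · have i1 := pint_of_integral hp ((isChar_top ρ ⊤).integral (Subgroup.mem_top x))
    have i2 := pint_of_integral hp ((isChar_top σ ⊤).integral (Subgroup.mem_top x))
    have hc' : (m : ℂ) ^ 2 + (n : ℂ) ^ 2 = p * c := by exact_mod_cast hc
    have e1' : (finrank ℂ V : ℂ) = t * m := by exact_mod_cast e1.symm
    have e2' : (finrank ℂ U : ℂ) = t * n := by exact_mod_cast e2.symm
    rcases hrel x with h | h
    · obtain ⟨u, w, huw⟩ := Nat.isCoprime_iff_coprime.2 hmn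
      have huw' : (u : ℂ) * m + w * n = 1 := by exact_mod_cast huw
      have h1 : (n : ℂ) * ρ.character x = m * σ.character x :=
        mul_left_cancel₀ ht (by rw [e1', e2'] at h; linear_combination h)
      have h2 : (m * ρ.character x + n * σ.character x) / p =
          c * (u * ρ.character x + w * σ.character x) := by
        rw [div_eq_iff hp0]
        linear_combination (u * ρ.character x + w * σ.character x) * hc' -
          (m * ρ.character x + n * σ.character x) * huw' + (w * m - u * n) * h1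
      rw [h2]
      exact mul_mem (natCast_mem _ c)
        (add_mem (mul_mem (intCast_mem _ u) i1) (mul_mem (intCast_mem _ w) i2))
    · have h1 : (m : ℂ) * ρ.character x + n * σ.character x = 0 :=
        mul_left_cancel₀ ht (by rw [e1', e2'] at h; linear_combination h)
      rw [h1, zero_div]
      exact zero_mem _

end Pool.Agent.SemiProp.Alt
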