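import Pool.Agent.Lib.MP_c1c6b6_al.Alt2

set_option autoImplicit false

open Finset Function Equiv

namespace Pool.Agent.SemiProp.Alt

/-- The bead set of the conjugate partition. -/
def cj (L : ℕ) (B : Finset ℕ) : Finset ℕ := (range L).filter fun z => L - 1 - z ∉ B

theorem mem_cj {L : ℕ} {B : Finset ℕ} {z : ℕ} : z ∈ cj L B ↔ z < L ∧ L - 1 - z ∉ B := by
  simp [cj]

/-- All beads lie below `L`. -/
def Bd (L : ℕ) (B : Finset ℕ) : Prop := ∀ z ∈ B, z < L

theorem bd_cj (L : ℕ) (B : Finset ℕ) : Bd L (cj L B) := fun _ h => (mem_cj.1 h).1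

theorem Bd.cj_cj {L : ℕ} {B : Finset ℕ} (h : Bd L B) : cj L (cj L B) = B := by
  ext z
  simp only [mem_cj, not_and, not_not]
  constructor
  · rintro ⟨h1, h2⟩
    have h3 := h2 (by omega)
    rwa [show L - 1 - (L - 1 - z) = z by omega] at h3
  · intro h1
    have h2 := h z h1
    exact ⟨h2, fun _ => by rwa [show L - 1 - (L - 1 - z) = z by omega]⟩

/-- A bead can move down by `D` onto position `y`. -/
def Mv (B : Finset ℕ) (y D : ℕ) : Prop := y ∉ B ∧ y + D ∈ B

/-- The bead set after the move. -/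
def res (B : Finset ℕ) (y D : ℕ) : Finset ℕ := insert y (B.erase (y + D))

theorem mem_res {B : Finset ℕ} {y D z : ℕ} : z ∈ res B y D ↔ z = y ∨ (z ≠ y + D ∧ z ∈ B) := by
  simp [res]

theorem Bd.res {L : ℕ} {B : Finset ℕ} (h : Bd L B) {y D : ℕ} (hm : Mv B y D) :
    Bd L (res B y D) := by
  intro z hz
  have h1 := h _ hm.2
  rcases mem_res.1 hz with h2 | h2
  · omega
  · exact h z h2.2

theorem Mv.cj {L : ℕ} {B : Finset ℕ} (h : Bd L B) {y D : ℕ} (hm : Mv B y D) :
    Mv (cj L B) (L - 1 - (y + D)) D ∧ res (cj L B) (L - 1 - (y + D)) D = cj L (res B y D) := by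
  have h1 := h _ hm.2
  have e1 : L - 1 - (L - 1 - (y + D)) = y + D := by omega
  have e2 : L - 1 - (L - 1 - (y + D) + D) = y := by omega
  refine ⟨⟨fun h2 => (mem_cj.1 h2).2 (e1.symm ▸ hm.2), mem_cj.2 ⟨by omega, e2.symm ▸ hm.1⟩⟩, ?_⟩
  ext z
  simp only [mem_res, mem_cj]
  constructor
  · rintro (rfl | ⟨h2, h3, h4⟩)
    · refine ⟨by omega, ?_⟩
      rw [e1]
      rintro (h5 | h5)
      · exact hm.1 (h5 ▸ hm.2)
      · exact h5.1 rfl
    · refine ⟨h3, ?_⟩
      rintro (h5 | h5)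
      · omega
      · exact h4 h5.2
  · rintro ⟨h2, h3⟩
    by_cases h4 : z = L - 1 - (y + D)
    · exact Or.inl h4
    · exact Or.inr ⟨fun h5 => h3 (Or.inl (by omega)), h2, fun h5 => h3 (Or.inr ⟨by omega, h5⟩)⟩

theorem Mv.card {B : Finset ℕ} {y D : ℕ} (hm : Mv B y D) : (res B y D).card = B.card := by
  have h1 := card_pos.2 ⟨_, hm.2⟩
  rw [res, card_insert_of_notMem fun h => hm.1 (mem_of_mem_erase h), card_erase_of_mem hm.2]
  omega

/-- At most one move of length `D`. -/
def Uq (B : Finset ℕ) (D : ℕ) : Prop := ∀ y y', Mv B y D → Mv B y' D → y = y'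

/-- Unique moves along runners pair up. -/
def Ev (L : ℕ) (B K : Finset ℕ) : Prop :=
  ∀ d, 0 < d → d % 2 = 0 → Uq B d → Uq K d → ((∃ y, Mv B y d) ∨ ∃ y, Mv K y d) →
    ∃ y y', Mv B y d ∧ Mv K y' d ∧ (res K y' d = res B y d ∨ res K y' d = cj L (res B y d))

theorem Ev.symm {L : ℕ} {B K : Finset ℕ} (h : Ev L B K) (hB : Bd L B) : Ev L K B := by
  intro d h1 h2 h3 h4 h5
  obtain ⟨y, y', h6, h7, h8⟩ := h d h1 h2 h4 h3 h5.symm
  refine ⟨y', y, h7, h6, h8.imp Eq.symm fun h9 => ?_⟩
  rw [h9, (hB.res h6).cj_cj]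

theorem Ev.cj {L : ℕ} {B K : Finset ℕ} (h : Ev L B K) (hB : Bd L B) (hK : Bd L K) :
    Ev L B (cj L K) := by
  intro d h1 h2 h3 h4 h5
  obtain ⟨y, y', h6, h7, h8⟩ := h d h1 h2 h3 (fun y y' h6 h7 => by
    have h8 := h4 _ _ (h6.cj hK).1 (h7.cj hK).1
    have h9 := hK _ h6.2
    have h10 := hK _ h7.2
    omega) (h5.imp id fun ⟨y, h6⟩ => ⟨_, hK.cj_cj ▸ (h6.cj (bd_cj L K)).1⟩)
  refine ⟨y, _, h6, (h7.cj hK).1, ?_⟩
  rw [(h7.cj hK).2]
  rcases h8 with h8 | h8
  · exact Or.inr (by rw [h8])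
  · exact Or.inl (by rw [h8, (hB.res h6).cj_cj])

theorem card_par (x : ℕ) : ((range x).filter fun z => z % 2 = x % 2).card = x / 2 := by
  have h : ((range x).filter fun z => z % 2 = x % 2) =
      (range (x / 2)).image fun i => 2 * i + x % 2 := by
    ext z
    simp only [mem_filter, mem_range, mem_image]
    exact ⟨fun h => ⟨z / 2, by omega, by omega⟩, fun ⟨i, h1, h2⟩ => by omega⟩
  rw [h, card_image_of_injective _ fun i j h => by simpa using h, card_range]

/-- The combinatorial step for two runners. -/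
theorem comb {N D y y' : ℕ} {B K : Finset ℕ} (hB : Bd (2 * N) B) (hK : Bd (2 * N) K)
    (hc : B.card = N) (hD : D % 2 = 1) (hm : Mv B y D) (hm' : Mv K y' D) (hlt : y' < y)
    (hp : y' % 2 = y % 2) (hr : res K y' D = res B y D)
    (t1 : ∀ u ∈ B, u % 2 ≠ y % 2 → u ≤ y + D) (g1 : ∀ w, w ∉ B → w % 2 = y % 2 → y ≤ w)
    (t2 : ∀ u ∈ K, u % 2 ≠ y % 2 → u ≤ y' + D) (g2 : ∀ w, w ∉ K → w % 2 = y % 2 → y' ≤ w)
    (hE : Ev (2 * N) B K) : K = cj (2 * N) B := by
  classical
  have hb : ∀ z, z = y' ∨ (z ≠ y' + D ∧ z ∈ K) ↔ z = y ∨ (z ≠ y + D ∧ z ∈ B) := fun z => by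
    rw [← mem_res, ← mem_res, hr]
  have hx' : y' + D ∉ B := fun h => by
    have := (hb (y' + D)).2 (Or.inr ⟨by omega, h⟩)
    omega
  have hyK : y ∈ K := by
    have := (hb y).2 (Or.inl rfl)
    exact (this.resolve_left (by omega)).2
  have hL := hB _ hm.2
  obtain ⟨d, hd, hmax⟩ := exists_max_image ((range (2 * N)).filter fun d =>
    d % 2 = 0 ∧ ((∃ w, Mv B w d) ∨ ∃ w, Mv K w d)) id
    ⟨y - y', mem_filter.2 ⟨mem_range.2 (by omega), by omega, Or.inl ⟨y' + D, hx', by
      rw [show y' + D + (y - y') = y + D by omega]; exact hm.2⟩⟩⟩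
  obtain ⟨-, hd2, hex⟩ := mem_filter.1 hd
  have mB : ∀ u ∈ B, ∀ w, w ∉ B → u % 2 = w % 2 → u ≤ w + d := by
    intro u hu w hw h1
    by_contra h2
    have h3 := hB u hu
    have h4 := hmax (u - w) (mem_filter.2 ⟨mem_range.2 (by omega), by omega, Or.inl ⟨w, hw, by
      rwa [show w + (u - w) = u by omega]⟩⟩)
    simp only [id] at h4
    omega
  have mK : ∀ u ∈ K, ∀ w, w ∉ K → u % 2 = w % 2 → u ≤ w + d := by
    intro u hu w hw h1
    by_contra h2
    have h3 := hK u hu
    have h4 := hmax (u - w) (mem_filter.2 ⟨mem_range.2 (by omega), by omega, Or.inr ⟨w, hw, by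
      rwa [show w + (u - w) = u by omega]⟩⟩)
    simp only [id] at h4
    omega
  have hd0 := mB _ hm.2 _ hx' (by omega)
  have pB : ∀ w, Mv B w d → w + d = y + D := by
    intro w hw
    by_cases h1 : w % 2 = y % 2
    · have h2 := g1 w hw.1 h1
      have h3 := ((hb (w + d)).2 (Or.inr ⟨by omega, hw.2⟩)).resolve_left (by omega)
      have h4 := mK _ h3.2 _ hm'.1 (by omega)
      omega
    · have h2 := t1 _ hw.2 (by omega)
      have h3 := mB _ hm.2 _ hw.1 (by omega)
      omega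
  have pK : ∀ w, Mv K w d → w = y' := by
    intro w hw
    by_cases h1 : w % 2 = y % 2
    · have h2 := g2 w hw.1 h1
      have h3 := mK _ hw.2 _ hm'.1 (by omega)
      omega
    · have h2 := t2 _ hw.2 (by omega)
      have h3 : w ∉ B := fun h => by
        have h4 := ((hb w).2 (Or.inr ⟨by omega, h⟩)).resolve_left (by omega)
        exact hw.1 h4.2
      have h4 := mB _ hm.2 _ h3 (by omega)
      omega
  obtain ⟨w, w', hw, hw', h8⟩ := hE d (by omega) hd2
    (fun w w' h1 h2 => by have := pB w h1; have := pB w' h2; omega)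
    (fun w w' h1 h2 => (pK w h1).trans (pK w' h2).symm) hex
  have e1 := pB w hw
  obtain rfl := pK w' hw'
  rcases h8 with h8 | h8
  · have h9 : ∀ z, z = w' ∨ (z ≠ w' + d ∧ z ∈ K) ↔ z = w ∨ (z ≠ w + d ∧ z ∈ B) := fun z => by
      rw [← mem_res, ← mem_res, h8]
    have e2 : w' + D = w :=
      ((h9 (w' + D)).1 (Or.inr ⟨by omega, hm'.2⟩)).resolve_right fun h => hx' h.2
    have sB : ∀ z, z ∈ B ↔ (z % 2 = y % 2 ∧ z < y) ∨ (z % 2 ≠ y % 2 ∧ z < w) ∨ z = y + D := by
      intro z
      constructor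
      · intro h1
        by_cases h2 : z = y + D
        · exact Or.inr (Or.inr h2)
        have h3 : z ≠ y := fun h => hm.1 (h ▸ h1)
        have h4 : z ≠ w := fun h => hw.1 (h ▸ h1)
        rcases (hb z).2 (Or.inr ⟨h2, h1⟩) with h5 | h5
        · omega
        · by_cases h6 : z % 2 = y % 2
          · have h7 := mK _ h5.2 _ hm'.1 (by omega)
            omega
          · have h7 := t2 _ h5.2 h6
            omega
      · rintro (h1 | h1 | h1)
        · by_contra h2
          have := g1 z h2 h1.1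
          omega
        · by_contra h2
          have := mB _ hm.2 z h2 (by omega)
          omega
        · exact h1 ▸ hm.2
    have e3 : w + y + 1 = 2 * N := by
      have h1 : B = insert (y + D) (((range y).filter fun z => z % 2 = y % 2) ∪
          ((range w).filter fun z => z % 2 = w % 2)) := by
        ext z
        simp only [sB, mem_insert, mem_union, mem_filter, mem_range]
        omega
      rw [h1, card_insert_of_notMem (by
        simp only [mem_union, mem_filter, mem_range]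
        omega), card_union_of_disjoint (disjoint_left.2 fun z h2 h3 => by
        have h4 := (mem_filter.1 h2).2
        have h5 := (mem_filter.1 h3).2
        omega), card_par, card_par] at hc
      omega
    ext z
    rw [mem_cj, sB]
    have h1 := hb z
    rw [sB] at h1
    by_cases h2 : z = w'
    · simp only [h2, hm'.1, false_iff]
      omega
    by_cases h3 : z = w' + D
    · simp only [h3, hm'.2, true_iff]
      omega
    by_cases h4 : z ∈ K
    · have h5 := h1.1 (Or.inr ⟨h3, h4⟩)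
      simp only [h4, true_iff]
      omega
    · have h5 := mt h1.2 fun h => h.elim h2 fun h => h4 h.2
      simp only [h4, false_iff]
      omega
  · have h9 : ∀ z, z = w' ∨ (z ≠ w' + d ∧ z ∈ K) ↔ z < 2 * N ∧
        ¬ (2 * N - 1 - z = w ∨ (2 * N - 1 - z ≠ w + d ∧ 2 * N - 1 - z ∈ B)) := fun z => by
      rw [← mem_res, ← mem_res, ← mem_cj, h8]
    have e2 : 2 * N - 1 - y ≤ w' + D := by
      have h1 : 2 * N - 1 - (2 * N - 1 - y) = y := by omega
      have h2 := (h9 (2 * N - 1 - y)).2 ⟨by omega, by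
        rw [h1]
        rintro (h | h)
        · omega
        · exact hm.1 h.2⟩
      exact t2 _ (h2.resolve_left (by omega)).2 (by omega)
    have e3 : y ≤ 2 * N - 1 - (w' + D) := by
      have h1 := (h9 (w' + D)).1 (Or.inr ⟨by omega, hm'.2⟩)
      exact g1 _ (fun h => h1.2 (Or.inr ⟨by omega, h⟩)) (by omega)
    have e4 := hK _ hm'.2
    ext z
    rw [mem_cj]
    by_cases h2 : z = w'
    · have h3 : 2 * N - 1 - w' = y + D := by omega
      simp only [h2, hm'.1, h3, hm.2, not_true, and_false]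
    by_cases h3 : z = w' + d
    · have h4 : 2 * N - 1 - (w' + d) = w := by omega
      have h5 := hK _ hw'.2
      simp only [h3, hw'.2, h4, hw.1, h5, not_false_iff, and_self]
    constructor
    · intro h4
      have h5 := (h9 z).1 (Or.inr ⟨h3, h4⟩)
      exact ⟨h5.1, fun h => h5.2 (Or.inr ⟨by omega, h⟩)⟩
    · intro h4
      have h5 := (h9 z).2 ⟨h4.1, fun h => h.elim (by omega) fun h => h4.2 h.2⟩
      exact (h5.resolve_left h2).2

end Pool.Agent.SemiProp.Alt
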