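import Pool.Agent.Lib.MP_c1c6b6_al.Alt6

set_option autoImplicit false

open Finset Function Equiv

namespace Pool.Agent.SemiProp.Alt

variable {N : ℕ}

/-- Move one bead down by `D`, with a weight depending on its position. -/
def dnw (D : ℕ) (w : ℕ → ℤ) (f : Fn N) : Fn N := fun e =>
  ∑ j, w (e j + D) * f (update e j (e j + D))

theorem AS.sub {f g : Fn N} (h : AS f) (h' : AS g) : AS (f - g) := fun σ e => by
  rw [Pi.sub_apply, Pi.sub_apply, h, h', mul_sub]

theorem comm_eqQ {M d : ℕ} (Q : ℕ → Prop) [DecidablePred Q] (hQ : ∀ x, Q (x + d) ↔ Q x)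
    {f : Fn N} (h : AS f) (hf : Hom M f) (hM : M + d ≤ base N + N) (e : Fin N → ℕ) :
    dn d (fun _ => True) (up d Q f) e =
      up d Q (dn d (fun _ => True) f) e + ((range d).filter Q).card * f e := by
  rw [← sub_eq_iff_eq_add', comm_raw d d _ hQ]
  simp only [le_add_iff_nonneg_left, zero_le, true_and, add_tsub_cancel_right, update_eq_self]
  by_cases h0 : f e = 0
  · simp [h0]
  · have h1 := h.inj h0
    have h2 : (univ.filter fun j => e j < d ∧ Q (e j)).image e = (range d).filter Q := by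
      ext z
      simp only [mem_image, mem_filter, mem_univ, true_and, mem_range]
      refine ⟨fun ⟨j, h3, h4⟩ => h4 ▸ h3, fun h3 => ?_⟩
      obtain ⟨l, hl⟩ := filled h1 (z := z) (by rw [hf _ h0]; omega)
      exact ⟨l, hl ▸ h3, hl⟩
    have h3 := congrArg card h2
    rw [card_image_of_injective _ h1] at h3
    rw [← sum_filter, sum_const, h3, nsmul_eq_mul]

theorem dn_sub (m : ℕ) (f g : Fn N) : dn m (fun _ => True) (f - g) =
    dn m (fun _ => True) f - dn m (fun _ => True) g := by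
  funext e
  simp [dn]

theorem JJ.dn_even {M D : ℕ} {l : ℤ} {v : Fn N} (h : JJ 2 l (M + D) v) (hM : M + D ≤ base N + N)
    (hD : D % 2 = 0) : JJ 2 l M (dnw D (fun x => if x % 2 = 0 then 1 else -1) v) := by
  have e : dnw D (fun x => if x % 2 = 0 then 1 else -1) v =
      Alt.dn D (fun x => x % 2 = 0) v - Alt.dn D (fun x => x % 2 = 1) v := by
    funext e
    simp only [dnw, Alt.dn, Pi.sub_apply, ← sum_sub_distrib]
    refine sum_congr rfl fun j _ => ?_
    rcases Nat.mod_two_eq_zero_or_one (e j + D) with h1 | h1 <;> simp [h1]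
  rw [e]
  refine ⟨(h.1.dn _ _).sub (h.1.dn _ _), fun X ⟨h1, h2, h3⟩ => ?_⟩
  have e2 : pair M (Alt.dn D (fun x => x % 2 = 0) v - Alt.dn D (fun x => x % 2 = 1) v) X =
      pair (M + D) v (up D (fun x => x % 2 = 0) X - up D (fun x => x % 2 = 1) X) := by
    have a0 := adj M D (fun x => x % 2 = 0) v X
    have a1 := adj M D (fun x => x % 2 = 1) v X
    simp only [pair, Pi.sub_apply, sub_mul, mul_sub, sum_sub_distrib] at a0 a1 ⊢
    rw [a0, a1]
  rw [e2]
  refine h.2 _ ⟨(h1.up _ _).sub (h1.up _ _), fun e he => ?_, fun m hm hpm => ?_⟩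
  · by_cases h4 : up D (fun x => x % 2 = 0) X e = 0
    · exact h2.up D (fun x => x % 2 = 1) e fun h5 => he (by rw [Pi.sub_apply, h4, h5, sub_zero])
    · exact h2.up D _ e h4
  · rw [dn_sub]
    by_cases h4 : D = m
    · subst h4
      funext e
      rw [Pi.sub_apply, comm_eqQ _ (fun x => by omega) h1 h2 hM,
        comm_eqQ _ (fun x => by omega) h1 h2 hM, h3 D hm hpm]
      have c0 := card_par D
      have c1 := card_filter_add_card_filter_not (s := range D) fun z => z % 2 = 0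
      have c2 : ((range D).filter fun z => ¬ z % 2 = 0) = (range D).filter fun z => z % 2 = 1 :=
        filter_congr fun z _ => by omega
      rw [hD] at c0
      rw [c0, c2, card_range] at c1
      have c3 : ((range D).filter fun z => z % 2 = 1).card = D / 2 := by omega
      rw [c0, c3]
      simp [up]
    · rw [comm_ne _ (fun x => by omega) h1 h2 hM h4, comm_ne _ (fun x => by omega) h1 h2 hM h4,
        h3 m hm hpm]
      funext e
      simp [up]

theorem dnw_ind (D : ℕ) (Q : ℕ → Prop) [DecidablePred Q] (v : Fn N) :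
    dnw D (fun x => if Q x then 1 else 0) v = dn D Q v := by
  funext e
  simp [dnw, dn]

theorem image_res {e : Fin N → ℕ} (hi : Injective e) {D : ℕ} (hD : 0 < D) (j : Fin N)
    (hi' : Injective (update e j (e j + D))) :
    Mv (univ.image (update e j (e j + D))) (e j) D ∧
      univ.image e = res (univ.image (update e j (e j + D))) (e j) D := by
  refine ⟨⟨?_, ?_⟩, ?_⟩
  · rw [image_upd hi]
    omega
  · rw [image_upd hi]
    omega
  · ext z
    have h4 := image_upd hi' j (e j) z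
    rw [update_idem, update_eq_self, update_self] at h4
    rw [h4, mem_res, and_comm]

theorem mv_supp {M D : ℕ} (hD : 0 < D) {l : ℤ} {w : ℕ → ℤ} {v : Fn N} (h : AS v)
    (h' : AS (dnw D w v)) {B' : Finset ℕ} (hB' : B' ∈ supp l M (dnw D w v)) :
    ∃ B ∈ supp l (M + D) v, ∃ y, Mv B y D ∧ w (y + D) ≠ 0 ∧ B' = res B y D := by
  obtain ⟨e, h1, h2, rfl⟩ := mem_supp.1 hB'
  obtain ⟨j, hj⟩ : ∃ j, ¬ l ∣ w (e j + D) * v (update e j (e j + D)) := by
    by_contra h3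
    exact h2 (dvd_sum fun j _ => not_not.1 fun h4 => h3 ⟨j, h4⟩)
  have h3 : ¬ l ∣ v (update e j (e j + D)) := fun h3 => hj (h3.mul_left _)
  obtain ⟨h4, h5⟩ := image_res (h'.inj' h2) hD j (h.inj' h3)
  exact ⟨_, mem_supp.2 ⟨_, by have := sum_upd e j (e j + D); omega, h3, rfl⟩, e j, h4,
    fun h0 => hj (by simp [h0]), h5⟩

theorem mv_coll {M D : ℕ} (hD : 0 < D) {l : ℤ} {w : ℕ → ℤ} {v : Fn N} (h : AS v)
    {B : Finset ℕ} (hB : B ∈ supp l (M + D) v) {y : ℕ} (hm : Mv B y D) (hw : IsUnit (w (y + D))) :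
    res B y D ∈ supp l M (dnw D w v) ∨ ∃ B2 ∈ supp l (M + D) v, ∃ y2, y2 ≠ y ∧ Mv B2 y2 D ∧
      w (y2 + D) ≠ 0 ∧ res B2 y2 D = res B y D := by
  obtain ⟨e1, he1, hv1, rfl⟩ := mem_supp.1 hB
  have hi1 := h.inj' hv1
  obtain ⟨j1, -, hj1⟩ := mem_image.1 hm.2
  have hs : ∑ i, update e1 j1 y i = M := by
    have := sum_upd e1 j1 y
    omega
  have hi' : Injective (update e1 j1 y) := by
    intro i i' hii
    by_cases h1 : i = j1 <;> by_cases h2 : i' = j1
    · rw [h1, h2]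
    · rw [h1, update_self, update_of_ne h2] at hii
      exact absurd (mem_image.2 ⟨i', mem_univ _, hii.symm⟩) hm.1
    · rw [h2, update_self, update_of_ne h1] at hii
      exact absurd (mem_image.2 ⟨i, mem_univ _, hii⟩) hm.1
    · rw [update_of_ne h1, update_of_ne h2] at hii
      exact hi1 hii
  have hr : univ.image (update e1 j1 y) = res (univ.image e1) y D := by
    ext z
    rw [image_upd hi1, mem_res, hj1, and_comm]
  by_cases hz : l ∣ dnw D w v (update e1 j1 y)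
  · right
    obtain ⟨j2, hj2, hv2⟩ : ∃ j2, j2 ≠ j1 ∧ ¬ l ∣ w (update e1 j1 y j2 + D) *
        v (update (update e1 j1 y) j2 (update e1 j1 y j2 + D)) := by
      by_contra h3
      apply hv1
      unfold dnw at hz
      rw [← add_sum_erase univ _ (mem_univ j1), update_self, update_idem, ← hj1,
        update_eq_self, hj1] at hz
      exact hw.dvd_mul_left.1 ((dvd_add_left (dvd_sum fun j hj =>
        not_not.1 fun h4 => h3 ⟨j, ne_of_mem_erase hj, h4⟩)).1 hz)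
    have h3 : ¬ l ∣ v (update (update e1 j1 y) j2 (update e1 j1 y j2 + D)) :=
      fun h3 => hv2 (h3.mul_left _)
    obtain ⟨h4, h5⟩ := image_res hi' hD j2 (h.inj' h3)
    refine ⟨_, mem_supp.2 ⟨_, ?_, h3, rfl⟩, _,
      fun h1 => hj2 (hi' (h1.trans (update_self j1 y e1).symm)), h4,
      fun h0 => hv2 (by rw [h0, zero_mul]; exact dvd_zero l), h5.symm.trans hr⟩
    have := sum_upd (update e1 j1 y) j2 (update e1 j1 y j2 + D)
    omega
  · exact Or.inl (mem_supp.2 ⟨_, hs, hz, hr⟩)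

/-- The statement proved by induction on the degree. -/
def Two (N : ℕ) (l : ℤ) (M : ℕ) : Prop :=
  ∀ v : Fn N, JJ 2 l M v → ∀ B ∈ supp l M v, ∀ C ∈ supp l M v,
    (∀ X ∈ supp l M v, X = B ∨ X = C) → C = B ∨ C = cj (2 * N) B

theorem pairing {M D : ℕ} (hD : 0 < D) (hM : M + D ≤ base N + N) {l : ℤ} {w : ℕ → ℤ}
    (hw : ∀ x, w x ≠ 0 → IsUnit (w x)) {v : Fn N} (h : AS v) (h' : JJ 2 l M (dnw D w v))
    (ih : Two N l M) {B C : Finset ℕ} (hB : B ∈ supp l (M + D) v)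
    (hBC : ∀ X ∈ supp l (M + D) v, X = B ∨ X = C)
    (uB : ∀ y y', Mv B y D → w (y + D) ≠ 0 → Mv B y' D → w (y' + D) ≠ 0 → y = y')
    (uC : ∀ y y', Mv C y D → w (y + D) ≠ 0 → Mv C y' D → w (y' + D) ≠ 0 → y = y')
    {y : ℕ} (hm : Mv B y D) (hy : w (y + D) ≠ 0) :
    ∃ y', Mv C y' D ∧ w (y' + D) ≠ 0 ∧
      (res C y' D = res B y D ∨ res C y' D = cj (2 * N) (res B y D)) := by
  rcases mv_coll hD h hB hm (hw _ hy) with h1 | ⟨B2, h1, y2, h2, h3, h4, h5⟩
  · have h2 : 1 < (supp l M (dnw D w v)).card := by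
      by_contra h2
      obtain ⟨e, h3, h4, -⟩ := mem_supp.1 h1
      exact h4 (min_dist two_pos l M (by omega) _ h' (by omega) e h3)
    obtain ⟨X, h3, h4⟩ := exists_mem_ne h2 (res B y D)
    obtain ⟨B2, h5, y2, h6, h7, rfl⟩ := mv_supp hD h h'.1 h3
    rcases hBC B2 h5 with rfl | rfl
    · exact absurd (by rw [uB y y2 hm hy h6 h7]) h4
    · refine ⟨y2, h6, h7, ih _ h' _ h1 _ h3 fun X hX => ?_⟩
      obtain ⟨B3, h8, y3, h9, h10, rfl⟩ := mv_supp hD h h'.1 hX
      rcases hBC B3 h8 with rfl | rfl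
      · exact Or.inl (by rw [uB y y3 hm hy h9 h10])
      · exact Or.inr (by rw [uC y2 y3 h6 h7 h9 h10])
  · rcases hBC B2 h1 with rfl | rfl
    · exact absurd (uB y2 y h3 h4 hm hy) h2
    · exact ⟨y2, h3, h4, Or.inl h5⟩

theorem supp_bd {M : ℕ} (hM : M ≤ base N + N) {l : ℤ} {v : Fn N} (h : AS v) {B : Finset ℕ}
    (hB : B ∈ supp l M v) : Bd (2 * N) B ∧ B.card = N ∧ ∀ z ∈ B, z ≤ M := by
  obtain ⟨e, h1, h2, rfl⟩ := mem_supp.1 hB
  have hi := h.inj' h2
  have h3 : (univ.image e).card = N := by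
    rw [card_image_of_injective _ hi, card_univ, Fintype.card_fin]
  have h4 : ∑ x ∈ univ.image e, x = M := by rw [sum_image (fun a _ b _ hab => hi hab), h1]
  refine ⟨fun z hz => ?_, h3, fun z hz =>
    h4 ▸ single_le_sum (f := fun x => x) (fun _ _ => Nat.zero_le _) hz⟩
  have h5 := range_le_sum ((univ.image e).erase z)
  have h6 := add_sum_erase _ (fun x => x) hz
  have h7 := card_pos.2 ⟨z, hz⟩
  rw [card_erase_of_mem hz, h3] at h5
  obtain ⟨n, rfl⟩ : ∃ n, N = n + 1 := ⟨N - 1, by omega⟩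
  rw [base, sum_range_succ] at hM
  rw [Nat.add_sub_cancel] at h5
  omega

theorem comb' {D y y' : ℕ} {B K : Finset ℕ} (hB : Bd (2 * N) B) (hK : Bd (2 * N) K)
    (hc : B.card = N) (hD : D % 2 = 1) (hm : Mv B y D) (hm' : Mv K y' D)
    (hp : y' % 2 = y % 2) (hr : res K y' D = res B y D)
    (t1 : ∀ u ∈ B, u % 2 ≠ y % 2 → u ≤ y + D) (g1 : ∀ w, w ∉ B → w % 2 = y % 2 → y ≤ w)
    (t2 : ∀ u ∈ K, u % 2 ≠ y % 2 → u ≤ y' + D) (g2 : ∀ w, w ∉ K → w % 2 = y % 2 → y' ≤ w)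
    (hE : Ev (2 * N) B K) : K = B ∨ K = cj (2 * N) B := by
  rcases lt_trichotomy y' y with h | h | h
  · exact Or.inr (comb hB hK hc hD hm hm' h hp hr t1 g1 t2 g2 hE)
  · left
    subst h
    ext z
    have h1 := Finset.ext_iff.1 hr z
    rw [mem_res, mem_res] at h1
    by_cases h2 : z = y'
    · simp [h2, hm.1, hm'.1]
    by_cases h3 : z = y' + D
    · simp [h3, hm.2, hm'.2]
    simpa [h2, h3] using h1
  · right
    have h1 := comb hK hB (by rw [← hm'.card, hr, hm.card, hc]) hD hm' hm h hp.symm hr.symm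
      (hp ▸ t2) (hp ▸ g2) (hp ▸ t1) (hp ▸ g1) (hE.symm hB)
    rw [h1, hK.cj_cj]

/-- Two terms that are orthogonal modulo `l` to `PP 2 M` are conjugate. -/
theorem two_term (l : ℤ) (M : ℕ) : M ≤ base N + N → Two N l M := by
  classical
  induction M using Nat.strong_induction_on with
  | _ M ih =>
  intro hM v h B hB C hC hBC
  obtain ⟨bB, cB, lB⟩ := supp_bd hM h.1 hB
  obtain ⟨bC, -, lC⟩ := supp_bd hM h.1 hC
  have hCB : ∀ X ∈ supp l M v, X = C ∨ X = B := fun X hX => (hBC X hX).symm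
  have gen : ∀ (D : ℕ) (w : ℕ → ℤ), 0 < D → (∀ x, w x ≠ 0 → IsUnit (w x)) →
      (∀ M', M = M' + D → JJ 2 l M' (dnw D w v)) →
      (∀ y y', Mv B y D → w (y + D) ≠ 0 → Mv B y' D → w (y' + D) ≠ 0 → y = y') →
      (∀ y y', Mv C y D → w (y + D) ≠ 0 → Mv C y' D → w (y' + D) ≠ 0 → y = y') →
      ((∃ y, Mv B y D ∧ w (y + D) ≠ 0) ∨ ∃ y, Mv C y D ∧ w (y + D) ≠ 0) →
      ∃ y y', Mv B y D ∧ w (y + D) ≠ 0 ∧ Mv C y' D ∧ w (y' + D) ≠ 0 ∧
        (res C y' D = res B y D ∨ res C y' D = cj (2 * N) (res B y D)) := by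
    intro D w hD hw hJ uB uC hex
    obtain ⟨M', rfl⟩ : ∃ M', M = M' + D := ⟨M - D, by
      rcases hex with ⟨y, h1, -⟩ | ⟨y, h1, -⟩
      · have := lB _ h1.2
        omega
      · have := lC _ h1.2
        omega⟩
    have ih' := ih M' (by omega) (by omega)
    rcases hex with ⟨y, h1, h2⟩ | ⟨y, h1, h2⟩
    · obtain ⟨y', h3, h4, h5⟩ := pairing hD hM hw h.1 (hJ M' rfl) ih' hB hBC uB uC h1 h2
      exact ⟨y, y', h1, h2, h3, h4, h5⟩
    · obtain ⟨y', h3, h4, h5⟩ := pairing hD hM hw h.1 (hJ M' rfl) ih' hC hCB uC uB h1 h2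
      refine ⟨y', y, h3, h4, h1, h2, h5.imp Eq.symm fun h6 => ?_⟩
      rw [h6, (bC.res h1).cj_cj]
  have hE : Ev (2 * N) B C := by
    intro d h1 h2 h3 h4 h5
    have hw : ∀ x : ℕ, IsUnit (if x % 2 = 0 then (1 : ℤ) else -1) := fun x => by
      split_ifs <;> simp
    obtain ⟨y, y', h6, -, h7, -, h8⟩ := gen d (fun x => if x % 2 = 0 then 1 else -1) h1
      (fun x _ => hw x) (fun M' h6 => (h6 ▸ h).dn_even (h6 ▸ hM) h2)
      (fun y y' h6 _ h7 _ => h3 y y' h6 h7) (fun y y' h6 _ h7 _ => h4 y y' h6 h7)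
      (h5.imp (fun ⟨y, h6⟩ => ⟨y, h6, (hw _).ne_zero⟩) fun ⟨y, h6⟩ => ⟨y, h6, (hw _).ne_zero⟩)
    exact ⟨y, y', h6, h7, h8⟩
  obtain ⟨a, ha⟩ : ∃ a, ∃ D y, D % 2 = 1 ∧ (y + D) % 2 = a ∧ Mv B y D := by
    obtain ⟨e0, he, hv, rfl⟩ := mem_supp.1 hB
    by_contra h0
    refine hv (core_case h he fun j m h2 h3 h4 => ?_)
    by_contra h5
    have h6 : e0 j - m ∉ univ.image e0 := by simpa using h5
    by_cases h7 : e0 j - m + 1 ∈ univ.image e0
    · exact h0 ⟨_, 1, e0 j - m, rfl, rfl, h6, h7⟩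
    · refine h0 ⟨_, m - 1, e0 j - m + 1, by omega, rfl, h7, ?_⟩
      exact mem_image.2 ⟨j, mem_univ _, by omega⟩
  obtain ⟨D, hD, hmax⟩ := exists_max_image ((range (2 * N)).filter fun D => D % 2 = 1 ∧
    ∃ y, (y + D) % 2 = a ∧ (Mv B y D ∨ Mv C y D)) id (by
      obtain ⟨D, y, h1, h2, h3⟩ := ha
      have h4 := bB _ h3.2
      exact ⟨D, mem_filter.2 ⟨mem_range.2 (by omega), h1, y, h2, Or.inl h3⟩⟩)
  obtain ⟨-, hD1, hex⟩ := mem_filter.1 hD
  have mx : ∀ X, X = B ∨ X = C → ∀ u ∈ X, ∀ w, w ∉ X → u % 2 = a → w % 2 ≠ a → u ≤ w + D := by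
    intro X hX u hu w hw h1 h2
    by_contra h3
    have h4 : u < 2 * N := by
      rcases hX with rfl | rfl
      · exact bB u hu
      · exact bC u hu
    have h5 : w + (u - w) = u := by omega
    have h6 : Mv X w (u - w) := ⟨hw, by rwa [h5]⟩
    have h7 := hmax (u - w) (mem_filter.2 ⟨mem_range.2 (by omega), by omega, w, by omega,
      hX.imp (fun h : X = B => h ▸ h6) fun h : X = C => h ▸ h6⟩)
    simp only [id] at h7
    omega
  have hw0 : ∀ x : ℕ, (if x % 2 = a then (1 : ℤ) else 0) ≠ 0 ↔ x % 2 = a := fun x => by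
    split_ifs with h1 <;> simp [h1]
  have uq : ∀ X, X = B ∨ X = C → ∀ y y', Mv X y D → (if (y + D) % 2 = a then (1 : ℤ) else 0) ≠ 0 →
      Mv X y' D → (if (y' + D) % 2 = a then (1 : ℤ) else 0) ≠ 0 → y = y' := by
    intro X hX y y' h1 h2 h3 h4
    rw [hw0] at h2 h4
    have h5 := mx X hX _ h1.2 _ h3.1 h2 (by omega)
    have h6 := mx X hX _ h3.2 _ h1.1 h4 (by omega)
    omega
  obtain ⟨y, y', h1, h2, h3, h4, h5⟩ := gen D (fun x => if x % 2 = a then 1 else 0) (by omega)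
    (fun x hx => by rw [if_pos ((hw0 x).1 hx)]; exact isUnit_one)
    (fun M' h6 => by
      rw [dnw_ind]
      exact (h6 ▸ h).dn (h6 ▸ hM) (by omega))
    (uq B (Or.inl rfl)) (uq C (Or.inr rfl)) (by
      obtain ⟨y, h1, h2⟩ := hex
      exact h2.imp (fun h => ⟨y, h, (hw0 _).2 h1⟩) fun h => ⟨y, h, (hw0 _).2 h1⟩)
  rw [hw0] at h2 h4
  have t1 : ∀ u ∈ B, u % 2 ≠ y % 2 → u ≤ y + D := fun u hu h6 =>
    mx B (Or.inl rfl) u hu y h1.1 (by omega) (by omega)
  have g1 : ∀ w, w ∉ B → w % 2 = y % 2 → y ≤ w := fun w hw h6 => by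
    have := mx B (Or.inl rfl) _ h1.2 w hw h2 (by omega)
    omega
  have t2 : ∀ u ∈ C, u % 2 ≠ y % 2 → u ≤ y' + D := fun u hu h6 =>
    mx C (Or.inr rfl) u hu y' h3.1 (by omega) (by omega)
  have g2 : ∀ w, w ∉ C → w % 2 = y % 2 → y' ≤ w := fun w hw h6 => by
    have := mx C (Or.inr rfl) _ h3.2 w hw h4 (by omega)
    omega
  rcases h5 with h5 | h5
  · exact comb' bB bC cB hD1 h1 h3 (by omega) h5 t1 g1 t2 g2 hE
  · have h6 := bC _ h3.2
    have h7 := comb' bB (bd_cj _ C) cB hD1 h1 (h3.cj bC).1 (by omega)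
      (by rw [(h3.cj bC).2, h5, (bB.res h1).cj_cj]) t1 g1 (fun u hu h7 => by
        have h8 := mem_cj.1 hu
        have h9 := g2 _ h8.2 (by omega)
        omega) (fun w hw h7 => by
        by_cases h8 : w < 2 * N
        · have h9 := t2 _ (not_not.1 fun h9 => hw (mem_cj.2 ⟨h8, h9⟩)) (by omega)
          omega
        · omega) (hE.cj bB bC)
    rcases h7 with h7 | h7
    · exact Or.inr (by rw [← h7, bC.cj_cj])
    · exact Or.inl (by rw [← bC.cj_cj, h7, bB.cj_cj])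

end Pool.Agent.SemiProp.Alt
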