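import Pool.Agent.Lib.MP_c1c6b6_al.Alt5
import Pool.Agent.Lib.MP_c1c6b6_al.Alt7

set_option autoImplicit false
set_option linter.unusedSectionVars false

open Finset Function Equiv Module MulAction

namespace Pool.Agent.SemiProp.Alt

variable {α : Type} [Fintype α] [DecidableEq α] {N : ℕ}
variable {V : Type} [AddCommGroup V] [Module ℂ V] [FiniteDimensional ℂ V]
variable {U : Type} [AddCommGroup U] [Module ℂ U] [FiniteDimensional ℂ U]

theorem orth_or {H : Type} [Group H] [Fintype H] {ρ : Representation ℂ H V}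
    {σ : Representation ℂ H U} (hρ : Irr ρ) (hσ : Irr σ) :
    ∑ g, ρ.character g * σ.character g⁻¹ = 0 ∨ Nonempty (σ.Equiv ρ) := by
  have := hρ.isIrreducible
  have := hσ.isIrreducible
  have := invertibleOfNonzero (cardG_ne (G := H))
  have h1 := Representation.char_orthonormal ρ σ
  by_cases h : Nonempty (σ.Equiv ρ)
  · exact Or.inr h
  · rw [if_neg h] at h1
    exact Or.inl ((mul_eq_zero.1 h1).resolve_left (inv_ne_zero cardG_ne))

theorem irr_of_range {H K : Type} [Group H] [Group K] {ρ : Representation ℂ H V}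
    {σ : Representation ℂ K V} (hρ : Irr ρ) (h : ∀ x, ∃ y, ∃ c : ℂ, ρ x = c • σ y) : Irr σ :=
  ⟨hρ.nontriv, fun S hS => hρ.inv S fun x v hv => by
    obtain ⟨y, c, hy⟩ := h x
    rw [hy]
    exact S.smul_mem c (hS y v hv)⟩

/-- Conjugation by a permutation on the alternating group. -/
def cnj (τ : Perm α) : alternatingGroup α →* alternatingGroup α :=
  (MulAut.conjNormal τ : MulAut (alternatingGroup α)).toMonoidHom

theorem coe_cnj (τ : Perm α) (h : alternatingGroup α) : (cnj τ h : Perm α) = τ * h * τ⁻¹ := rfl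

theorem irr_cnj {ρ : Representation ℂ (alternatingGroup α) V} (hρ : Irr ρ) (τ : Perm α) :
    Irr (V := V) (ρ.comp (cnj τ)) :=
  irr_of_range hρ fun x => ⟨cnj τ⁻¹ x, 1, by
    rw [one_smul]
    exact congrArg ρ (Subtype.ext (by simp [coe_cnj, mul_assoc]))⟩

theorem odd_mul {s t : Perm α} (hs : s ∉ alternatingGroup α) (ht : t ∉ alternatingGroup α) :
    s * t ∈ alternatingGroup α := by
  rw [Perm.mem_alternatingGroup] at hs ht ⊢
  rw [map_mul, (Int.units_eq_one_or _).resolve_left hs, (Int.units_eq_one_or _).resolve_left ht]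
  simp

theorem odd_stab {φ : alternatingGroup α → ℂ} (hφ : ∀ x s, φ (s * x * s⁻¹) = φ x) {τ : Perm α}
    {h : alternatingGroup α} (hne : φ (cnj τ h) ≠ φ h) :
    ¬ 2 ∣ Nat.card (stabilizer (ConjAct (alternatingGroup α)) h) := by
  have hle : Subgroup.centralizer {(h : Perm α)} ≤ alternatingGroup α := by
    intro s hs
    by_contra h1
    apply hne
    by_cases h2 : τ ∈ alternatingGroup α
    · exact hφ h ⟨τ, h2⟩
    · have h3 : (h : Perm α) * s = s * h := Subgroup.mem_centralizer_iff.1 hs _ rfl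
      refine Eq.trans (congrArg φ (Subtype.ext ?_)) (hφ h ⟨τ * s, odd_mul h2 h1⟩)
      change τ * h * τ⁻¹ = τ * s * h * (τ * s)⁻¹
      rw [mul_assoc τ s, ← h3]
      group
  obtain ⟨h1, h2, h3⟩ := Perm.centralizer_le_alternating_iff.1 hle
  intro h4
  have h5 := h4.trans (Subgroup.card_dvd_of_injective
    (((alternatingGroup α).subtype.comp ((ConjAct.ofConjAct (G := alternatingGroup α)).toMonoidHom.comp
      (stabilizer (ConjAct (alternatingGroup α)) h).subtype)).codRestrict
        (Subgroup.centralizer {(h : Perm α)}) fun u => by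
          have h6 : ConjAct.ofConjAct u.1 * h * (ConjAct.ofConjAct u.1)⁻¹ = h := u.2
          rw [Subgroup.mem_centralizer_iff]
          rintro _ rfl
          exact (congrArg Subtype.val (mul_inv_eq_iff_eq_mul.1 h6)).symm)
    fun u u' h6 => by
      have h7 := congrArg Subtype.val h6
      exact Subtype.ext ((ConjAct.ofConjAct (G := alternatingGroup α)).injective (Subtype.ext h7)))
  rw [Perm.nat_card_centralizer, prod_eq_one fun i _ => Nat.factorial_eq_one.2 (h3 i),
    Nat.factorial_eq_one.2 (by omega), one_mul, mul_one] at h5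
  obtain ⟨c, h6, h7⟩ := Nat.prime_two.prime.exists_mem_multiset_dvd h5
  exact (h1 c h6).not_two_dvd_nat h7

theorem half {H : Type} [Group H] [Fintype H] (F : H → ℂ) (hF : ∀ x, F x ∈ PInt Nat.prime_two)
    (hcl : ∀ x s, F (s * x * s⁻¹) = F x)
    (h0 : ∀ x, F x ≠ 0 → ¬ 2 ∣ Nat.card (stabilizer (ConjAct H) x)) :
    2 * ∑ x, F x ≠ Fintype.card H := by
  intro h
  obtain ⟨k, hk, h1⟩ := orb (Γ := ConjAct H) (PInt Nat.prime_two).toAddSubgroup F
    (fun s x => hcl x _) fun x => by
      by_cases h2 : F x = 0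
      · exact ⟨0, zero_mem _, by simp [h2]⟩
      · have h3 := card_ne (stabilizer (ConjAct H) x)
        refine ⟨F x / Nat.card (stabilizer (ConjAct H) x),
          pint_cancel Nat.prime_two (h0 x h2) ?_, (mul_div_cancel₀ _ h3).symm⟩
        rw [mul_div_cancel₀ _ h3]
        exact hF x
  have h2 : k = 1 / 2 := by
    refine mul_left_cancel₀ (cardG_ne (G := H)) ?_
    rw [h1, ← Nat.card_eq_fintype_card] at h
    change 2 * ((Nat.card H : ℂ) * k) = _ at h
    linear_combination h / 2
  have h3 := pint_dvd Nat.prime_two (a := 1) (t := 1) (by simpa [h2] using hk)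
  omega

theorem char_pint {H : Type} [Group H] [Fintype H] (ρ : Representation ℂ H V) {p : ℕ} (hp : p.Prime)
    (x : H) : ρ.character x ∈ PInt hp :=
  pint_of_integral hp ((isChar_top ρ ⊤).integral (Subgroup.mem_top x))

theorem split_case {ρ : Representation ℂ (alternatingGroup α) V}
    {σ : Representation ℂ (alternatingGroup α) U} (hρ : Irr ρ) (hσ : Irr σ)
    (hrel : ∀ g, ρ.character g = σ.character g ∨ ρ.character g = -σ.character g)
    (h0 : ∑ g, ρ.character g * σ.character g⁻¹ = 0) (τ : Perm α) (h : alternatingGroup α) :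
    ρ.character (cnj τ h) = ρ.character h := by
  by_contra hne
  obtain ⟨ρ', hρ', e⟩ : ∃ ρ' : Representation ℂ (alternatingGroup α) V, Irr ρ' ∧
      ∀ g, ρ'.character g = ρ.character (cnj τ g) := ⟨_, irr_cnj hρ τ, fun _ => rfl⟩
  have o1 := (orth_or hρ' hρ).resolve_right fun ⟨E⟩ =>
    hne ((e h).symm.trans (congrFun (Representation.char_iso E) h).symm)
  have hi : ∀ g, (ρ.character g - σ.character g) / 2 ∈ PInt Nat.prime_two := fun g => by
    rcases hrel g with h1 | h1
    · rw [h1, sub_self, zero_div]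
      exact zero_mem _
    · rw [show (ρ.character g - σ.character g) / 2 = ρ.character g by linear_combination -h1 / 2]
      exact char_pint ρ _ g
  have hc : ∀ x s : alternatingGroup α, (s * x * s⁻¹)⁻¹ = s * x⁻¹ * s⁻¹ := fun x s => by group
  have hs : ∀ x, ρ.character x - ρ'.character x ≠ 0 →
      ¬ 2 ∣ Nat.card (stabilizer (ConjAct (alternatingGroup α)) x) := fun x hx =>
    odd_stab ρ.char_conj (τ := τ) fun h1 => hx (by rw [e, h1, sub_self])
  rcases orth_or hρ' hσ with o2 | ⟨⟨E⟩⟩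
  · refine half (fun g => (ρ.character g⁻¹ - σ.character g⁻¹) / 2 *
      (ρ.character g - ρ'.character g))
      (fun x => mul_mem (hi _) (sub_mem (char_pint ρ _ x) (char_pint ρ' _ x)))
      (fun x s => by simp only [hc, Representation.char_conj])
      (fun x hx => hs x (right_ne_zero_of_mul hx)) ?_
    rw [← hρ.sum_norm, ← sub_zero (∑ g, ρ.character g * ρ.character g⁻¹), mul_sum]
    rw [show (0 : ℂ) = ∑ g, ρ'.character g * ρ.character g⁻¹ + ∑ g, ρ.character g * σ.character g⁻¹
      - ∑ g, ρ'.character g * σ.character g⁻¹ by rw [o1, h0, o2]; simp]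
    simp only [← sum_add_distrib, ← sum_sub_distrib]
    exact sum_congr rfl fun x _ => by ring
  · have e2 := Representation.char_iso E
    rw [← e2] at o1 hs
    refine half (fun g => (ρ.character g⁻¹ - σ.character g⁻¹) / 2 *
      ((ρ.character g - σ.character g) / 2)) (fun x => mul_mem (hi _) (hi _))
      (fun x s => by simp only [hc, Representation.char_conj])
      (fun x hx => hs x fun h1 => hx (by simp only [h1, zero_div, mul_zero])) ?_
    have n1 := hρ.sum_norm
    have n2 := hσ.sum_norm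
    have h1 : 2 * ∑ g, (ρ.character g⁻¹ - σ.character g⁻¹) / 2 *
        ((ρ.character g - σ.character g) / 2) = (∑ g, ρ.character g * ρ.character g⁻¹ +
          ∑ g, σ.character g * σ.character g⁻¹ - ∑ g, σ.character g * ρ.character g⁻¹ -
          ∑ g, ρ.character g * σ.character g⁻¹) / 2 := by
      simp only [← sum_add_distrib, ← sum_sub_distrib, mul_sum, sum_div]
      exact sum_congr rfl fun x _ => by ring
    rw [h1, n1, n2, o1, h0]
    ring

theorem extend [Nontrivial α] {ρ : Representation ℂ (alternatingGroup α) V} (hρ : Irr ρ)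
    (h : ∀ τ x, ρ.character (cnj τ x) = ρ.character x) :
    ∃ ρ' : Representation ℂ (Perm α) V, ∀ x : alternatingGroup α, ρ' x = ρ x := by
  obtain ⟨i, j, hij⟩ := exists_pair_ne α
  obtain ⟨τ, hτ, hτ2⟩ : ∃ τ : Perm α, τ ∉ alternatingGroup α ∧ τ * τ = 1 :=
    ⟨swap i j, by simp [Perm.mem_alternatingGroup, Perm.sign_swap hij], swap_mul_self i j⟩
  have hτi : τ⁻¹ = τ := inv_eq_of_mul_eq_one_left hτ2
  obtain ⟨E⟩ := (orth_or (irr_cnj hρ τ) hρ).resolve_left fun h1 => by
    have h2 : ∀ g, Representation.character (ρ.comp (cnj τ)) g = ρ.character g := h τ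
    simp only [h2] at h1
    rw [hρ.sum_norm, ← Nat.card_eq_fintype_card] at h1
    exact cardG_ne h1
  have hE : ∀ x, (E.toLinearMap : End ℂ V) * ρ x = ρ (cnj τ x) * E.toLinearMap :=
    fun x => E.isIntertwining' x
  have hcc : ∀ x : alternatingGroup α, cnj τ (cnj τ x) = x := fun x => Subtype.ext (by
    rw [coe_cnj, coe_cnj, hτi, ← mul_assoc, ← mul_assoc, hτ2, one_mul, mul_assoc, hτ2, mul_one])
  obtain ⟨c, hc⟩ := hρ.schur ((E.toLinearMap : End ℂ V) * E.toLinearMap) fun g => by
    rw [mul_assoc, hE, ← mul_assoc _ (ρ _), hE, hcc, mul_assoc]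
  have hc0 : c ≠ 0 := by
    rintro rfl
    have := hρ.nontriv
    obtain ⟨v, hv⟩ := exists_ne (0 : V)
    have h1 := congrArg (fun T : End ℂ V => T v) hc
    simp only [End.mul_apply, zero_smul, LinearMap.zero_apply] at h1
    exact hv (E.toLinearEquiv.map_eq_zero_iff.1 (E.toLinearEquiv.map_eq_zero_iff.1 h1))
  obtain ⟨s, rfl⟩ := IsAlgClosed.exists_eq_mul_self c
  obtain ⟨T, hT, hT2⟩ : ∃ T : End ℂ V, (∀ x, T * ρ x = ρ (cnj τ x) * T) ∧ T * T = 1 :=
    ⟨s⁻¹ • E.toLinearMap, fun x => by rw [smul_mul_assoc, hE, mul_smul_comm], by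
      rw [smul_mul_smul_comm, hc, smul_smul, ← mul_inv, inv_mul_cancel₀ hc0, one_smul]⟩
  classical
  refine ⟨⟨⟨fun g => if hg : g ∈ alternatingGroup α then ρ ⟨g, hg⟩ else
    ρ ⟨g * τ, odd_mul hg hτ⟩ * T, ?_⟩, fun g g' => ?_⟩, fun x => dif_pos x.2⟩
  · rw [dif_pos (one_mem _)]
    exact map_one ρ
  · dsimp only
    by_cases h1 : g ∈ alternatingGroup α <;> by_cases h2 : g' ∈ alternatingGroup α
    · rw [dif_pos h1, dif_pos h2, dif_pos (mul_mem h1 h2), ← map_mul]
      rfl
    · rw [dif_pos h1, dif_neg h2, dif_neg (mt (mul_mem_cancel_left h1).1 h2), ← mul_assoc (ρ _),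
        ← map_mul]
      exact congrArg (fun x => ρ x * T) (Subtype.ext (mul_assoc _ _ _))
    · rw [dif_neg h1, dif_pos h2, dif_neg (mt (mul_mem_cancel_right h2).1 h1), mul_assoc (ρ _), hT,
        ← mul_assoc (ρ _), ← map_mul]
      refine congrArg (fun x => ρ x * T) (Subtype.ext ?_)
      change g * g' * τ = g * τ * (τ * g' * τ⁻¹)
      rw [hτi, ← mul_assoc, ← mul_assoc, mul_assoc g τ τ, hτ2, mul_one]
    · rw [dif_neg h1, dif_neg h2, dif_pos (odd_mul h1 h2), mul_assoc (ρ _), ← mul_assoc T, hT,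
        mul_assoc (ρ _), hT2, mul_one, ← map_mul]
      refine congrArg ρ (Subtype.ext ?_)
      change g * g' = g * τ * (τ * (g' * τ) * τ⁻¹)
      rw [mul_assoc τ, mul_inv_cancel_right, ← mul_assoc, mul_assoc g τ τ, hτ2, mul_one]

theorem Coef.recover (hN : Fintype.card α ≤ N) {χ : Perm α → ℂ} {a : Fn N}
    (h : Coef (MonoidHom.id _) χ a) (hχ : ∀ x s, χ (s * x * s⁻¹) = χ x) (g : Perm α) :
    (Alt.pair (base N + Fintype.card α) a (W N g.partition.parts) : ℂ) = N.factorial * χ g := by
  classical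
  refine mul_left_cancel₀ (cardG_ne (G := Perm α)) ?_
  rw [h.pair, sum_congr rfl (g := fun x => if IsConj g x then
    χ g * ((N.factorial * zed g.partition.parts : ℕ) : ℂ) else 0) fun x _ => ?_]
  · rw [← sum_filter, sum_const, nsmul_eq_mul, Nat.card_perm, Nat.card_eq_fintype_card,
      ← zed_parts g, Nat.card_eq_fintype_card, Fintype.card_subtype]
    push_cast
    simp only [Set.mem_ofPred_eq]
    ring
  · rw [pair_comm, MonoidHom.id_apply, pair_parts hN]
    split_ifs with h1
    · obtain ⟨s, rfl⟩ := isConj_iff.1 h1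
      rw [hχ]
      norm_cast
    · simp

theorem perm_of_image {e e' : Fin N → ℕ} (h : Injective e') (h1 : univ.image e' = univ.image e) :
    ∃ σ : Perm (Fin N), e' = e ∘ σ := by
  have h2 : ∀ j, ∃ i, e i = e' j := fun j => by
    have h3 := mem_image_of_mem e' (mem_univ j)
    rw [h1] at h3
    simpa using h3
  choose s hs using h2
  exact ⟨Equiv.ofBijective s (Finite.injective_iff_bijective.1 fun i j hij =>
    h (by rw [← hs, ← hs, hij])), funext fun j => (hs j).symm⟩

/-- `a` is the coefficient vector of `χ` and has the single term `B`. -/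
structure Sgl (χ : Perm α → ℂ) (a : Fn (Fintype.card α)) (B : Finset ℕ) : Prop where
  coef : Coef (MonoidHom.id _) χ a
  ex : ∃ e, ∑ j, e j = base (Fintype.card α) + Fintype.card α ∧ a e ^ 2 = 1 ∧ univ.image e = B
  uq : ∀ e, ∑ j, e j = base (Fintype.card α) + Fintype.card α → a e ≠ 0 → univ.image e = B

theorem exists_sgl {ρ : Representation ℂ (Perm α) V} (hρ : Irr ρ) :
    ∃ a B, Sgl ρ.character a B := by
  obtain ⟨a, ha⟩ := exists_coef (N := Fintype.card α) (MonoidHom.id _) ρ
  obtain ⟨h1, h2⟩ := supp_le (k := 1) ha.as (ha.norm_le le_rfl injective_id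
    (by rw [one_mul, Nat.card_perm, Nat.card_eq_fintype_card]) hρ)
  obtain ⟨e, he, he0⟩ := ha.ne_zero le_rfl injective_id (by
    rw [Representation.char_one]
    exact_mod_cast hρ.finrank_pos.ne')
  have h3 := h2 e he
  have h4 : 0 < a e ^ 2 := by positivity
  exact ⟨a, _, ha, ⟨e, he, by push_cast at h3; omega, rfl⟩, fun e' he' h5 => card_le_one.1 h1 _
    (mem_supp.2 ⟨e', he', mt zero_dvd_iff.1 h5, rfl⟩) _
    (mem_supp.2 ⟨e, he, mt zero_dvd_iff.1 he0, rfl⟩)⟩

theorem Sgl.same {χ θ : Perm α → ℂ} {a b : Fn (Fintype.card α)} {B : Finset ℕ} (h : Sgl χ a B)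
    (h' : Sgl θ b B) (hχ : ∀ x s, χ (s * x * s⁻¹) = χ x) (hθ : ∀ x s, θ (s * x * s⁻¹) = θ x) :
    ∃ c : ℤ, c ^ 2 = 1 ∧ ∀ g, χ g = c * θ g := by
  obtain ⟨e0, h1, h2, h3⟩ := h'.ex
  obtain ⟨e1, h4, h5, h6⟩ := h.ex
  have key : ∀ e, Injective e → univ.image e = B → a e = a e0 * b e0 * b e := fun e h7 h8 => by
    obtain ⟨σ, rfl⟩ := perm_of_image h7 (h8.trans h3.symm)
    rw [h.coef.as, h'.coef.as]
    linear_combination (-(σ.sign : ℤ) * a e0) * h2
  have h7 : Injective e1 := h.coef.as.inj fun h0 => by simp [h0] at h5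
  refine ⟨a e0 * b e0, ?_, fun g => ?_⟩
  · obtain ⟨σ, rfl⟩ := perm_of_image h7 (h6.trans h3.symm)
    rw [h.coef.as, mul_pow, sq, sign_sq, one_mul] at h5
    rw [mul_pow, h5, h2, one_mul]
  · refine mul_left_cancel₀ (show ((Fintype.card α).factorial : ℂ) ≠ 0 by
      exact_mod_cast Nat.factorial_ne_zero _) ?_
    rw [mul_left_comm, ← h.coef.recover le_rfl hχ, ← h'.coef.recover le_rfl hθ, pair_comm,
      pair_comm _ b, ← Int.cast_mul, ← pair_smul]
    refine congrArg _ (sum_congr rfl fun e he => congrArg _ ?_)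
    by_cases h8 : a e = 0
    · by_cases h9 : b e = 0
      · simp [h8, h9]
      · exact key e (h'.coef.as.inj h9) (h'.uq e (mem_lev.1 he) h9)
    · exact key e (h.coef.as.inj h8) (h.uq e (mem_lev.1 he) h8)

theorem Sgl.rel {χ θ : Perm α → ℂ} {a b : Fn (Fintype.card α)} {B C : Finset ℕ} (h : Sgl χ a B)
    (h' : Sgl θ b C) (hχ : ∀ x s, χ (s * x * s⁻¹) = χ x) (hθ : ∀ x s, θ (s * x * s⁻¹) = θ x)
    (hi : ∀ g ∈ alternatingGroup α, (χ g + θ g) / 2 ∈ PInt Nat.prime_two) :
    C = B ∨ C = cj (2 * Fintype.card α) B := by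
  classical
  by_cases hBC : C = B
  · exact Or.inl hBC
  have hJ := jj_of_coef Nat.prime_two (f := MonoidHom.id _) injective_id
    (A := fun g => if g ∈ alternatingGroup α then (χ g + θ g) / 2 else 0)
    (fun x => by
      split_ifs with h1
      · exact hi x h1
      · exact zero_mem _)
    (fun x s => by
      rw [hχ, hθ]
      exact if_congr (Subgroup.Normal.mem_comm_iff inferInstance |>.trans (by simp)) rfl rfl)
    (fun x hx => by
      rw [if_pos]
      · push_cast
        ring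
      · rw [Perm.mem_alternatingGroup]
        refine (Int.units_eq_one_or _).resolve_right fun h1 => ?_
        have h2 := map_pow Perm.sign x (orderOf x)
        have h3 : Odd (orderOf x) := Nat.not_even_iff_odd.1 fun h3 => hx h3.two_dvd
        rw [pow_orderOf_eq_one, map_one, h1, h3.neg_one_pow] at h2
        exact absurd h2 (by decide))
    (h.coef.comb h'.coef 1 1)
  have odd : ∀ z : ℤ, z ^ 2 = 1 → ¬ ((2 : ℕ) : ℤ) ∣ z := by
    rintro _ h1 ⟨k, rfl⟩
    have h2 : 2 * (2 * k ^ 2) = 1 := by linear_combination h1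
    omega
  refine two_term _ _ le_rfl _ hJ B ?_ C ?_ fun X hX => ?_
  · obtain ⟨e, h1, h2, h3⟩ := h.ex
    have h4 : b e = 0 := not_not.1 fun h4 => hBC ((h'.uq e h1 h4).symm.trans h3)
    exact mem_supp.2 ⟨e, h1, by simpa [h4] using odd _ h2, h3⟩
  · obtain ⟨e, h1, h2, h3⟩ := h'.ex
    have h4 : a e = 0 := not_not.1 fun h4 => hBC (h3.symm.trans (h.uq e h1 h4))
    exact mem_supp.2 ⟨e, h1, by simpa [h4] using odd _ h2, h3⟩
  · obtain ⟨e, h1, h2, rfl⟩ := mem_supp.1 hX
    by_cases h3 : a e = 0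
    · exact Or.inr (h'.uq e h1 fun h4 => h2 (by simp [h3, h4]))
    · exact Or.inl (h.uq e h1 h3)

theorem pos_sign {c : ℤ} (hc : c ^ 2 = 1) {a b : ℕ} (ha : 0 < a) (h : (a : ℂ) = c * b) : c = 1 := by
  have h1 : (a : ℤ) = c * b := by exact_mod_cast h
  rcases sq_eq_one_iff.1 hc with h2 | h2
  · exact h2
  · rw [h2] at h1
    omega

/-- Irreducible characters of an alternating group that agree up to sign at every element are
equal. -/
theorem char_eq_alt {ρ : Representation ℂ (alternatingGroup α) V}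
    {σ : Representation ℂ (alternatingGroup α) U} (hρ : Irr ρ) (hσ : Irr σ)
    (hd : finrank ℂ V = finrank ℂ U)
    (hrel : ∀ g, ρ.character g = σ.character g ∨ ρ.character g = -σ.character g) :
    ρ.character = σ.character := by
  rcases subsingleton_or_nontrivial α with hα | hα
  · funext g
    rw [Subsingleton.elim g 1, Representation.char_one, Representation.char_one, hd]
  by_contra hne
  have o1 := (orth_or hρ hσ).resolve_right fun ⟨E⟩ => hne (Representation.char_iso E).symm
  have o2 := (orth_or hσ hρ).resolve_right fun ⟨E⟩ => hne (Representation.char_iso E)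
  obtain ⟨ρ1, e1⟩ := extend hρ (split_case hρ hσ hrel o1)
  obtain ⟨ρ2, e2⟩ := extend hσ (split_case hσ hρ
    (fun g => (hrel g).imp Eq.symm fun h => by rw [h, neg_neg]) o2)
  have i1 : Irr ρ1 := irr_of_range hρ fun x => ⟨x, 1, by rw [e1, one_smul]⟩
  have i2 : Irr ρ2 := irr_of_range hσ fun x => ⟨x, 1, by rw [e2, one_smul]⟩
  have c1 : ∀ x : alternatingGroup α, ρ1.character x = ρ.character x := fun x =>
    congrArg (LinearMap.trace ℂ V) (e1 x)
  have c2 : ∀ x : alternatingGroup α, ρ2.character x = σ.character x := fun x =>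
    congrArg (LinearMap.trace ℂ U) (e2 x)
  obtain ⟨ρ3, e3⟩ : ∃ ρ3 : Representation ℂ (Perm α) V,
      ∀ g, ρ3 g = (((Perm.sign g : ℤˣ) : ℤ) : ℂ) • ρ1 g :=
    ⟨⟨⟨fun g => (((Perm.sign g : ℤˣ) : ℤ) : ℂ) • ρ1 g, by simp⟩, fun g g' => by
      simp only [map_mul, Units.val_mul, Int.cast_mul, smul_mul_smul_comm]⟩, fun _ => rfl⟩
  have c3 : ∀ g, ρ3.character g = (((Perm.sign g : ℤˣ) : ℤ) : ℂ) * ρ1.character g := fun g => by
    change LinearMap.trace ℂ V (ρ3 g) = _
    rw [e3, map_smul]
    rfl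
  have c3' : ∀ x : alternatingGroup α, ρ3.character x = ρ.character x := fun x => by
    rw [c3, Perm.mem_alternatingGroup.1 x.2, c1]
    simp
  have i3 : Irr ρ3 := irr_of_range hρ fun x => ⟨x, 1, by
    rw [e3, Perm.mem_alternatingGroup.1 x.2, e1]
    simp⟩
  obtain ⟨a1, B1, s1⟩ := exists_sgl i1
  obtain ⟨a2, B2, s2⟩ := exists_sgl i2
  obtain ⟨a3, B3, s3⟩ := exists_sgl i3
  have r2 := s1.rel s2 ρ1.char_conj ρ2.char_conj fun g hg => by
    rw [c1 ⟨g, hg⟩, c2 ⟨g, hg⟩]
    rcases hrel ⟨g, hg⟩ with h | h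
    · rw [← h, add_self_div_two]
      exact char_pint ρ _ _
    · rw [h, neg_add_cancel, zero_div]
      exact zero_mem _
  have r3 := s1.rel s3 ρ1.char_conj ρ3.char_conj fun g hg => by
    rw [c1 ⟨g, hg⟩, c3' ⟨g, hg⟩, add_self_div_two]
    exact char_pint ρ _ _
  have fin : ∀ c : ℤ, c ^ 2 = 1 → (∀ x, ρ.character x = c * σ.character x) → False := by
    intro c h1 h2
    have h3 := h2 1
    rw [Representation.char_one, Representation.char_one] at h3
    obtain rfl := pos_sign h1 hρ.finrank_pos h3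
    exact hne (funext fun x => by simpa using h2 x)
  rcases r2 with rfl | r2
  · obtain ⟨c, h1, h2⟩ := s1.same s2 ρ1.char_conj ρ2.char_conj
    exact fin c h1 fun x => by rw [← c1, ← c2, h2]
  rcases r3 with rfl | r3
  · obtain ⟨c, h1, h2⟩ := s1.same s3 ρ1.char_conj ρ3.char_conj
    have h3 := h2 1
    rw [Representation.char_one, Representation.char_one] at h3
    obtain rfl := pos_sign h1 hρ.finrank_pos h3
    have h4 : ∀ g, g ∉ alternatingGroup α → ρ1.character g * ρ1.character g⁻¹ = 0 := fun g hg => by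
      have h5 := h2 g
      rw [c3, (Int.units_eq_one_or _).resolve_left (mt Perm.mem_alternatingGroup.2 hg)] at h5
      push_cast at h5
      rw [show ρ1.character g = 0 by linear_combination h5 / 2, zero_mul]
    have h5 := i1.sum_norm
    rw [← sm_top, sm_of_zero (R := alternatingGroup α) le_top fun g _ => h4 g, sm_subtype] at h5
    simp only [← Subgroup.coe_inv, c1] at h5
    rw [hρ.sum_norm, ← two_mul_card_alternatingGroup] at h5
    have h6 : Fintype.card (alternatingGroup α) = 2 * Fintype.card (alternatingGroup α) := by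
      exact_mod_cast h5
    have h7 : 0 < Fintype.card (alternatingGroup α) := Fintype.card_pos
    omega
  · obtain ⟨c, h1, h2⟩ := s3.same (r3 ▸ r2 ▸ s2) ρ3.char_conj ρ2.char_conj
    exact fin c h1 fun x => by rw [← c3', ← c2, h2]

end Pool.Agent.SemiProp.Alt
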