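import Pool.Agent.Lib.MP_c1c6b6_al.Simple

/-! Two semiproportional columns of a character table with class sizes ten and six. -/

set_option autoImplicit false

open Module Finset CategoryTheory

namespace Pool.Agent.SemiProp.Col

theorem sep {G : Type} [Group G] [Fintype G] (c : G → ℂ)
    (h : ∀ V : FDRep ℂ G, Simple V → ∑ g, c g • V.ρ g = 0) : c = 0 := by
  have : NeZero (Nat.card G : ℂ) := ⟨by exact_mod_cast Nat.card_pos.ne'⟩
  obtain ⟨n, d, hd, ⟨E⟩⟩ :=
    IsSemisimpleRing.exists_algEquiv_pi_matrix_of_isAlgClosed ℂ (MonoidAlgebra ℂ G)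
  have h1 : ∀ x : MonoidAlgebra ℂ G, ∑ k, x.coeff k • MonoidAlgebra.of ℂ G k = x := fun x => by
    ext g
    simp
  have h2 : E (∑ k, c k • MonoidAlgebra.of ℂ G k) = 0 := by
    funext i
    let F : MonoidAlgebra ℂ G →ₐ[ℂ] End ℂ (Fin (d i) → ℂ) :=
      Matrix.toLinAlgEquiv'.toAlgHom.comp ((Pi.evalAlgHom ℂ _ i).comp E.toAlgHom)
    let ρ : Representation ℂ G (Fin (d i) → ℂ) :=
      F.toRingHom.toMonoidHom.comp (MonoidAlgebra.of ℂ G)
    have hF : ∀ a : G → ℂ, F (∑ k, a k • MonoidAlgebra.of ℂ G k) = ∑ k, a k • ρ k := fun a => by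
      rw [map_sum]
      exact sum_congr rfl fun k _ => map_smul F _ _
    have hI : Irr ρ := by
      have := hd i
      refine ⟨inferInstance, fun U hU => ?_⟩
      by_cases h0 : U = ⊥
      · exact Or.inl h0
      · right
        obtain ⟨v, hv, hv0⟩ := (Submodule.ne_bot_iff U).1 h0
        obtain ⟨f, hf⟩ : ∃ f : Module.Dual ℂ (Fin (d i) → ℂ), f v ≠ 0 :=
          not_forall.1 fun h => hv0 ((Module.forall_dual_apply_eq_zero_iff ℂ v).1 h)
        rw [eq_top_iff]
        intro w _
        have e : F (E.symm (Pi.single i (Matrix.toLinAlgEquiv'.symm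
            (f.smulRight ((f v)⁻¹ • w))))) = f.smulRight ((f v)⁻¹ • w) := by
          simp [F]
        rw [← h1 (E.symm _), hF] at e
        have e2 := congrArg (fun S : End ℂ (Fin (d i) → ℂ) => S v) e
        simp only [LinearMap.sum_apply, LinearMap.smul_apply, LinearMap.smulRight_apply, smul_smul,
          mul_inv_cancel₀ hf, one_smul] at e2
        rw [← e2]
        exact U.sum_mem fun k _ => U.smul_mem _ (hU k v hv)
    have hS : Simple (FDRep.of ρ) := by
      rw [FDRep.simple_iff_char_is_norm_one, Nat.card_eq_fintype_card]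
      exact hI.sum_norm
    have h3 : F (∑ k, c k • MonoidAlgebra.of ℂ G k) = 0 := (hF c).trans (h _ hS)
    exact (map_eq_zero_iff _ (Matrix.toLinAlgEquiv' (R := ℂ) (n := Fin (d i))).injective).1 h3
  rw [map_eq_zero_iff _ E.injective] at h2
  funext g
  classical
  simpa [Finsupp.single_apply] using congrArg (fun x => x.coeff g) h2

abbrev W : Type := Fin 5 → ZMod 2

/-- `3` for weight three, `1` for weight one or five, `0` for even weight. -/
def cls (v : W) : ℕ :=
  if (v 0).val + (v 1).val + (v 2).val + (v 3).val + (v 4).val = 3 then 3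
  else if v 0 + v 1 + v 2 + v 3 + v 4 = 1 then 1 else 0

def tv (l a v : W) : W := fun i =>
  v i + (l 0 * v 0 + l 1 * v 1 + l 2 * v 2 + l 3 * v 3 + l 4 * v 4) * a i

def H : Subgroup (MulAut (Multiplicative W)) where
  carrier := {f | ∀ v, cls (f v).toAdd = cls v.toAdd}
  one_mem' := fun _ => rfl
  mul_mem' := fun {f g} hf hg v => (hf (g v)).trans (hg v)
  inv_mem' := fun {f} hf v => by
    have := hf (f⁻¹ v)
    rw [MulAut.apply_inv_self] at this
    exact this.symm

abbrev G0 : Type := Multiplicative W ⋊[H.subtype] H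

instance : Finite G0 := Finite.of_equiv _ SemidirectProduct.equivProd.symm

def el (v : W) : G0 := SemidirectProduct.inl (Multiplicative.ofAdd v)

theorem el_inj : Function.Injective el := fun _ _ h =>
  Multiplicative.ofAdd.injective (SemidirectProduct.inl_injective h)

theorem el_add (u v : W) : el (u + v) = el u * el v := by
  rw [el, ofAdd_add, map_mul]; rfl

/-- The action of a group element on the normal subgroup. -/
def act (g : G0) : W ≃ W :=
  Multiplicative.ofAdd.trans (g.right.1.toEquiv.trans Multiplicative.toAdd)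

theorem mul_el (g : G0) (v : W) : g * el v = el (act g v) * g := by
  ext
  · simp [el, act, mul_comm]
  · simp [el]
  
theorem cls_act (g : G0) (v : W) : cls (act g v) = cls v := g.right.2 _

theorem exists_act {l a : W} (h1 : ∀ v, tv l a (tv l a v) = v) (h2 : ∀ v, cls (tv l a v) = cls v) :
    ∃ g : G0, ∀ v, act g v = tv l a v := by
  let f : MulAut (Multiplicative W) :=
    { toFun := fun v => Multiplicative.ofAdd (tv l a v.toAdd)
      invFun := fun v => Multiplicative.ofAdd (tv l a v.toAdd)
      left_inv := fun v => congrArg Multiplicative.ofAdd (h1 _)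
      right_inv := fun v => congrArg Multiplicative.ofAdd (h1 _)
      map_mul' := fun u v => by
        rw [← ofAdd_add]
        congr 1
        funext i
        simp only [tv, toAdd_mul, Pi.add_apply]
        ring }
  exact ⟨SemidirectProduct.inr ⟨f, fun v => h2 _⟩, fun v => rfl⟩

def x0 : W := ![1, 1, 1, 0, 0]
def y0 : W := ![1, 0, 0, 0, 0]

def ll (a : W) : W :=
  if (a 0).val + (a 1).val + (a 2).val + (a 3).val + (a 4).val = 4 then a + 1 else a

theorem good : ∀ a : W, cls a = 0 →
    (∀ u, tv (ll a) a (tv (ll a) a u) = u) ∧ ∀ u, cls (tv (ll a) a u) = cls u := by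
  decide +kernel

theorem tx : ∀ v : W, cls v = 3 → cls (v + x0) = 0 ∧ tv (ll (v + x0)) (v + x0) x0 = v := by
  decide +kernel

theorem ty : ∀ v : W, cls v = 1 → cls (v + y0) = 0 ∧ tv (ll (v + y0)) (v + y0) y0 = v := by
  decide +kernel

theorem conj_iff {u : W} (hu : u = x0 ∨ u = y0) (g : G0) :
    IsConj (el u) g ↔ ∃ v, cls v = cls u ∧ el v = g := by
  rw [isConj_iff]
  constructor
  · rintro ⟨c, rfl⟩
    exact ⟨act c u, cls_act c u, by rw [mul_el, mul_inv_cancel_right]⟩
  · rintro ⟨v, hv, rfl⟩
    have k : cls (v + u) = 0 ∧ tv (ll (v + u)) (v + u) u = v := by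
      rcases hu with rfl | rfl
      · exact tx v hv
      · exact ty v hv
    obtain ⟨c, hc⟩ := exists_act (good _ k.1).1 (good _ k.1).2
    exact ⟨c, by rw [mul_el, mul_inv_cancel_right, hc, k.2]⟩

theorem ncard_cls {u : W} (hu : u = x0 ∨ u = y0) :
    {g | IsConj (el u) g}.ncard = (univ.filter fun v => cls v = cls u).card := by
  have : {g | IsConj (el u) g} = el '' (univ.filter fun v => cls v = cls u : Finset W) := by
    ext g
    rw [Set.mem_ofPred_eq, conj_iff hu]
    simp
  rw [this, Set.ncard_image_of_injective _ el_inj, Set.ncard_coe_finset]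

theorem card3 : (univ.filter fun v => cls v = 3).card = 10 := by decide +kernel
theorem card1 : (univ.filter fun v => cls v = 1).card = 6 := by decide +kernel

variable {U : Type} [AddCommGroup U] [Module ℂ U] [FiniteDimensional ℂ U]

noncomputable def A (ρ : Representation ℂ G0 U) (c : ℕ) : End ℂ U :=
  ∑ v ∈ univ.filter fun v => cls v = c, ρ (el v)

theorem A_eq {ρ : Representation ℂ G0 U} (h : Irr ρ) {u : W} (hu : u = x0 ∨ u = y0) :
    A ρ (cls u) = (((univ.filter fun v => cls v = cls u).card : ℂ) * ρ.character (el u) /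
      finrank ℂ U) • (1 : End ℂ U) := by
  obtain ⟨c, hc⟩ := h.schur (A ρ (cls u)) fun g => by
    rw [A, mul_sum, sum_mul]
    refine sum_equiv (act g) (fun v => by simp [cls_act]) fun v _ => ?_
    rw [← map_mul, ← map_mul, mul_el]
  have hd : (finrank ℂ U : ℂ) ≠ 0 := by exact_mod_cast h.finrank_pos.ne'
  have ht := congrArg (LinearMap.trace ℂ U) hc
  rw [A, map_sum, map_smul, LinearMap.trace_one, smul_eq_mul,
    sum_congr rfl (g := fun _ => ρ.character (el u)) fun v hv => by
      obtain ⟨c, hc⟩ := isConj_iff.1 ((conj_iff hu _).2 ⟨v, (mem_filter.1 hv).2, rfl⟩)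
      rw [← hc]
      exact ρ.char_conj _ _, sum_const, nsmul_eq_mul] at ht
  rw [hc, ht, mul_div_cancel_right₀ _ hd]

omit [FiniteDimensional ℂ U] in
theorem A_mul (ρ : Representation ℂ G0 U) {c : ℕ} (hc : c ≠ 0) :
    (A ρ 1 + A ρ 3) * A ρ c = ((univ.filter fun v => cls v = c).card : ℂ) • A ρ 0 := by
  have e : A ρ 1 + A ρ 3 = ∑ v ∈ univ.filter fun v => cls v ≠ 0, ρ (el v) := by
    rw [A, A, ← sum_union (by decide +kernel)]
    exact sum_congr (by decide +kernel) fun _ _ => rfl
  have k : ∀ u v : W, cls v ≠ 0 → (cls u ≠ 0 ↔ cls (u + v) = 0) := by decide +kernel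
  rw [e, A, mul_sum, sum_congr rfl (g := fun _ => A ρ 0) fun v hv => ?_, sum_const,
    Nat.cast_smul_eq_nsmul]
  rw [sum_mul, A]
  refine sum_equiv (Equiv.addRight v) (fun u => ?_) fun u _ => ?_
  · simpa using k u v ((mem_filter.1 hv).2 ▸ hc)
  · rw [← map_mul, ← el_add]; rfl

theorem dichotomy {ρ : Representation ℂ G0 U} (h : Irr ρ) :
    ρ.character (el x0) = ρ.character (el y0) ∨
      5 * ρ.character (el x0) = -3 * ρ.character (el y0) := by
  have h3 := A_eq h (Or.inl rfl)
  have h1 := A_eq h (Or.inr rfl)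
  have m3 := A_mul ρ (c := 3) (by norm_num)
  have m1 := A_mul ρ (c := 1) (by norm_num)
  rw [show cls x0 = 3 by decide +kernel, card3] at h3
  rw [show cls y0 = 1 by decide +kernel, card1] at h1
  rw [card3] at m3
  rw [card1] at m1
  have hd : (finrank ℂ U : ℂ) ≠ 0 := by exact_mod_cast h.finrank_pos.ne'
  have := h.nontriv
  have e : (3 : ℂ) • ((A ρ 1 + A ρ 3) * A ρ 3) = (5 : ℂ) • ((A ρ 1 + A ρ 3) * A ρ 1) := by
    rw [m3, m1, smul_smul, smul_smul]; norm_num
  rw [h1, h3, ← add_smul, smul_mul_smul_comm, smul_mul_smul_comm, smul_smul, smul_smul,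
    mul_one] at e
  have e2 := smul_left_injective ℂ (one_ne_zero (α := End ℂ U)) e
  field_simp at e2
  have e3 : (ρ.character (el x0) - ρ.character (el y0)) *
      (5 * ρ.character (el x0) + 3 * ρ.character (el y0)) = 0 := by
    push_cast at e2
    linear_combination e2 / 60
  rcases mul_eq_zero.1 e3 with e4 | e4
  · exact Or.inl (sub_eq_zero.1 e4)
  · exact Or.inr (by linear_combination e4)

theorem not_prop [Fintype G0] {a b : ℂ} (h : ∀ V : FDRep ℂ G0, Simple V →
    a * V.character (el x0) = b * V.character (el y0)) : a = 0 ∧ b = 0 := by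
  classical
  have key := sep (G := G0) (fun g => ∑ v ∈ univ.filter fun v => cls v = 3,
      (if el v = g then 3 * a else 0) - ∑ v ∈ univ.filter fun v => cls v = 1,
      (if el v = g then 5 * b else 0)) fun V hV => by
    have hI := irr_of_simple V
    have h3 := A_eq hI (Or.inl rfl)
    have h1 := A_eq hI (Or.inr rfl)
    rw [show cls x0 = 3 by decide +kernel, card3] at h3
    rw [show cls y0 = 1 by decide +kernel, card1] at h1
    have s : ∀ (c : ℕ) (t : ℂ), ∑ g, (∑ v ∈ univ.filter fun v => cls v = c,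
        (if el v = g then t else 0)) • V.ρ g = t • A V.ρ c := fun c t => by
      simp only [sum_smul, ite_smul, zero_smul]
      rw [sum_comm, A, smul_sum]
      refine sum_congr rfl fun v _ => ?_
      exact (Fintype.sum_eq_single (el v) fun g hg => if_neg (Ne.symm hg)).trans (if_pos rfl)
    simp only [sub_smul, sum_sub_distrib]
    rw [s, s, h3, h1, smul_smul, smul_smul, ← sub_smul]
    have e : a * Representation.character V.ρ (el x0) = b * Representation.character V.ρ (el y0) :=
      h V hV
    have : 3 * a * (((10 : ℕ) : ℂ) * Representation.character V.ρ (el x0) / finrank ℂ V) -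
        5 * b * (((6 : ℕ) : ℂ) * Representation.character V.ρ (el y0) / finrank ℂ V) = 0 := by
      push_cast
      linear_combination (30 / (finrank ℂ V : ℂ)) * e
    rw [this, zero_smul]
  have k1 := congrFun key (el x0)
  have k2 := congrFun key (el y0)
  simp only [el_inj.eq_iff, sum_ite_eq', mem_filter, mem_univ, true_and,
    show cls x0 = 3 by decide +kernel, show cls y0 = 1 by decide +kernel] at k1 k2
  constructor
  · simpa using k1
  · simpa using k2

theorem columns : ∃ (G : Type) (_ : Group G) (_ : Fintype G) (x y : G),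
    (¬ ∃ a b : ℂ, (a ≠ 0 ∨ b ≠ 0) ∧
      ∀ V : FDRep ℂ G, Simple V → a * V.character x = b * V.character y) ∧
    (∃ M : Set (G → ℂ),
      (∃ a b : ℂ, (a ≠ 0 ∨ b ≠ 0) ∧ ∀ V : FDRep ℂ G, Simple V → V.character ∈ M →
        a * V.character x = b * V.character y) ∧
      (∃ a b : ℂ, (a ≠ 0 ∨ b ≠ 0) ∧ ∀ V : FDRep ℂ G, Simple V → V.character ∉ M →
        a * V.character x = b * V.character y)) ∧
    {g | IsConj x g}.ncard = 10 ∧ {g | IsConj y g}.ncard = 6 := by
  let _ : Fintype G0 := Fintype.ofFinite G0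
  refine ⟨G0, inferInstance, inferInstance, el x0, el y0, ?_, ⟨{χ | χ (el x0) = χ (el y0)},
    ⟨1, 1, Or.inl one_ne_zero, fun V _ h => congrArg _ h⟩,
    ⟨5, -3, Or.inl (by norm_num), fun V _ h => ?_⟩⟩, ?_, ?_⟩
  · rintro ⟨a, b, hab, h⟩
    obtain ⟨ha, hb⟩ := not_prop h
    exact hab.elim (· ha) (· hb)
  · exact (dichotomy (irr_of_simple V)).resolve_left h
  · rw [ncard_cls (Or.inl rfl), show cls x0 = 3 by decide +kernel, card3]
  · rw [ncard_cls (Or.inr rfl), show cls y0 = 1 by decide +kernel, card1]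

end Pool.Agent.SemiProp.Col
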