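import Pool.Agent.Lib.MP_c1c6b6_al.Irr

set_option autoImplicit false

open Module Finset

namespace Pool.Agent.SemiProp

variable {G : Type*} [Group G]

/-- A maximal abelian subgroup containing the derived subgroup is self-centralizing. -/
theorem exists_selfCentralizing [Finite G]
    (hG : ∀ x ∈ commutator G, ∀ y ∈ commutator G, x * y = y * x) :
    ∃ A : Subgroup G, commutator G ≤ A ∧ (∀ x ∈ A, ∀ y ∈ A, x * y = y * x) ∧
      ∀ g, (∀ x ∈ A, g * x = x * g) → g ∈ A := by
  let S : Set (Subgroup G) := {A | commutator G ≤ A ∧ ∀ x ∈ A, ∀ y ∈ A, x * y = y * x}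
  obtain ⟨A, hA⟩ := (Set.toFinite S).exists_maximal ⟨commutator G, le_rfl, hG⟩
  refine ⟨A, hA.prop.1, hA.prop.2, fun g hg => ?_⟩
  let X : Set G := insert g (A : Set G)
  have hX : ∀ x ∈ X, ∀ y ∈ X, x * y = y * x := by
    rintro x (rfl | hx) y (rfl | hy)
    · rfl
    · exact hg y hy
    · exact (hg x hx).symm
    · exact hA.prop.2 x hx y hy
  have hle : A ≤ Subgroup.closure X := fun x hx => Subgroup.subset_closure (Or.inr hx)
  have hcomm := Subgroup.isMulCommutative_closure hX
  have hmem : Subgroup.closure X ∈ S := by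
    refine ⟨hA.prop.1.trans hle, fun x hx y hy => ?_⟩
    exact congrArg Subtype.val (hcomm.is_comm.comm (⟨x, hx⟩ : Subgroup.closure X) ⟨y, hy⟩)
  exact hA.le_of_ge hmem hle (Subgroup.subset_closure (Or.inl rfl))

/-- An abelian group acting irreducibly on an abelian group acts as a cyclic group. -/
theorem exists_generator_aux [Finite G] {M : Type*} [AddCommGroup M] [Nontrivial M]
    (κ : G →* Module.End ℤ M) (hκc : ∀ a b : G, κ a * κ b = κ b * κ a)
    (hmin : ∀ U : Submodule ℤ M, (∀ g v, v ∈ U → κ g v ∈ U) → U = ⊥ ∨ U = ⊤) (J : Subgroup G) :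
    ∃ x ∈ J, ∀ y ∈ J, ∃ k : ℤ, κ ((x ^ k)⁻¹ * y) = 1 := by
  let R : Subring (Module.End ℤ M) := Subring.closure (Set.range κ)
  have hRc : IsMulCommutative R := Subring.isMulCommutative_closure (by
    rintro _ ⟨a, rfl⟩ _ ⟨b, rfl⟩
    exact hκc a b)
  let _ : CommRing R := { (inferInstance : Ring R) with mul_comm := hRc.is_comm.comm }
  have hκR : ∀ g, κ g ∈ R := fun g => Subring.subset_closure ⟨g, rfl⟩
  have hinj : ∀ f : R, f ≠ 0 → LinearMap.ker (f : Module.End ℤ M) = ⊥ := by
    intro f hf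
    rcases hmin (LinearMap.ker (f : Module.End ℤ M)) (by
      intro g v hv
      rw [LinearMap.mem_ker] at hv ⊢
      have h2 : (f : Module.End ℤ M) * κ g = κ g * f :=
        congrArg Subtype.val (hRc.is_comm.comm f ⟨κ g, hκR g⟩)
      rw [← Module.End.mul_apply, h2, Module.End.mul_apply, hv, map_zero]) with h | h
    · exact h
    · exact absurd (Subtype.ext (LinearMap.ker_eq_top.mp h)) hf
  have hnz : NoZeroDivisors R := by
    refine ⟨fun {f g} h => ?_⟩
    by_cases hf : f = 0
    · exact Or.inl hf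
    · right
      apply Subtype.ext
      refine LinearMap.ext fun n => ?_
      have h1 : (f : Module.End ℤ M) ((g : Module.End ℤ M) n) = 0 :=
        congrArg (fun T : R => (T : Module.End ℤ M) n) h
      have h2 : (g : Module.End ℤ M) n ∈ LinearMap.ker (f : Module.End ℤ M) := h1
      rw [hinj f hf] at h2
      exact h2
  have hdom : IsDomain R := NoZeroDivisors.to_isDomain R
  let κ' : J →* R :=
    { toFun := fun g => ⟨κ g, hκR g⟩
      map_one' := Subtype.ext (by simp)
      map_mul' := fun a b => Subtype.ext (by simp) }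
  have hcyc : IsCyclic (J ⧸ κ'.ker) :=
    isCyclic_of_injective_ringHom (R := R) (QuotientGroup.lift κ'.ker κ' le_rfl) (by
      rw [injective_iff_map_eq_one]
      intro q hq
      obtain ⟨x, rfl⟩ := QuotientGroup.mk_surjective q
      exact (QuotientGroup.eq_one_iff x).mpr hq)
  obtain ⟨q, hq⟩ := IsCyclic.exists_generator (α := J ⧸ κ'.ker)
  obtain ⟨x, rfl⟩ := QuotientGroup.mk_surjective q
  refine ⟨x, x.2, fun y hy => ?_⟩
  obtain ⟨k, hk⟩ := Subgroup.mem_zpowers_iff.mp (hq (QuotientGroup.mk (⟨y, hy⟩ : J)))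
  rw [← QuotientGroup.mk_zpow, QuotientGroup.eq] at hk
  exact ⟨k, congrArg Subtype.val (MonoidHom.mem_ker.mp hk)⟩

theorem exists_generator [Finite G] (A J N : Subgroup G) (hA : commutator G ≤ A) (hNA : N ≤ A)
    (hAc : ∀ x ∈ A, ∀ y ∈ A, x * y = y * x) (hN : N.Normal) (hN0 : N ≠ ⊥)
    (hmin : ∀ N' : Subgroup G, N'.Normal → N' ≤ N → N' = ⊥ ∨ N' = N)
    (hker : ∀ x ∈ J, (∀ n ∈ N, x * n = n * x) → x ∈ A) :
    ∃ x ∈ J, ∀ y ∈ J, ∃ k : ℤ, (x ^ k)⁻¹ * y ∈ A := by
  let _ : CommGroup N :=
    { (inferInstance : Group N) with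
      mul_comm := fun a b => Subtype.ext (hAc _ (hNA a.2) _ (hNA b.2)) }
  have hext : ∀ {S T : Module.End ℤ (Additive N)},
      (∀ n : N, ((Additive.toMul (S (Additive.ofMul n)) : N) : G) =
        ((Additive.toMul (T (Additive.ofMul n)) : N) : G)) → S = T := by
    intro S T h
    refine LinearMap.ext fun n => ?_
    exact Additive.toMul.injective (Subtype.ext (h (Additive.toMul n)))
  let c : G → Module.End ℤ (Additive N) := fun g =>
    AddMonoidHom.toIntLinearMap
      { toFun := fun n => Additive.ofMul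
          (⟨g * (Additive.toMul n : N) * g⁻¹, hN.conj_mem _ (Additive.toMul n).2 g⟩ : N)
        map_zero' := Additive.toMul.injective (Subtype.ext (by simp))
        map_add' := fun a b => Additive.toMul.injective (Subtype.ext (by simp)) }
  have hc : ∀ (g : G) (n : N), ((Additive.toMul (c g (Additive.ofMul n)) : N) : G) =
      g * n * g⁻¹ := fun g n => rfl
  let κ : G →* Module.End ℤ (Additive N) :=
    { toFun := c
      map_one' := hext fun n => by rw [hc]; simp
      map_mul' := fun a b => hext fun n => by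
        rw [hc]
        change _ = a * (b * n * b⁻¹) * a⁻¹
        group }
  have hκ : ∀ (g : G) (n : N), ((Additive.toMul (κ g (Additive.ofMul n)) : N) : G) =
      g * n * g⁻¹ := hc
  have hκA : ∀ a ∈ A, κ a = 1 := by
    intro a ha
    refine hext fun n => ?_
    rw [hκ, hAc a ha _ (hNA n.2)]
    simp
  have hκc : ∀ a b : G, κ a * κ b = κ b * κ a := by
    intro a b
    have h1 : κ (a * b) = κ (b * a) := by
      have h2 : a * b = (a * b * a⁻¹ * b⁻¹) * (b * a) := by group
      have h3 : a * b * a⁻¹ * b⁻¹ ∈ A :=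
        hA (Subgroup.commutator_mem_commutator (Subgroup.mem_top a) (Subgroup.mem_top b))
      rw [h2, map_mul, hκA _ h3, one_mul]
    rw [← map_mul, h1, map_mul]
  have hnt : Nontrivial N := (Subgroup.nontrivial_iff_ne_bot N).mpr hN0
  have hnt' : Nontrivial (Additive N) := hnt
  obtain ⟨x, hx, hgen⟩ := exists_generator_aux κ hκc (by
    intro U hU
    let N' : Subgroup G :=
      { carrier := {x | ∃ hx : x ∈ N, (Additive.ofMul ⟨x, hx⟩ : Additive N) ∈ U}
        one_mem' := ⟨N.one_mem, U.zero_mem⟩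
        mul_mem' := by
          rintro a b ⟨ha, ha'⟩ ⟨hb, hb'⟩
          exact ⟨N.mul_mem ha hb, U.add_mem ha' hb'⟩
        inv_mem' := by
          rintro a ⟨ha, ha'⟩
          exact ⟨N.inv_mem ha, U.neg_mem ha'⟩ }
    have hnorm : N'.Normal := by
      refine ⟨fun x hx g => ?_⟩
      obtain ⟨hx, hx'⟩ := hx
      exact ⟨hN.conj_mem x hx g, hU g _ hx'⟩
    rcases hmin N' hnorm (fun x hx => hx.1) with h | h
    · left
      rw [eq_bot_iff]
      intro n hn
      have : ((Additive.toMul n : N) : G) ∈ N' := ⟨(Additive.toMul n).2, hn⟩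
      rw [h, Subgroup.mem_bot] at this
      exact Additive.toMul.injective (Subtype.ext this)
    · right
      rw [eq_top_iff]
      intro n _
      have : ((Additive.toMul n : N) : G) ∈ N' := by rw [h]; exact (Additive.toMul n).2
      exact this.2) J
  refine ⟨x, hx, fun y hy => ?_⟩
  obtain ⟨k, h1⟩ := hgen y hy
  refine ⟨k, hker _ (J.mul_mem (J.inv_mem (J.zpow_mem hx k)) hy) fun n hn => ?_⟩
  have h2 := hκ ((x ^ k)⁻¹ * y) ⟨n, hn⟩
  rw [h1] at h2
  have h3 : n = (x ^ k)⁻¹ * y * n * ((x ^ k)⁻¹ * y)⁻¹ := h2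
  rw [eq_mul_inv_iff_mul_eq] at h3
  exact h3.symm

end Pool.Agent.SemiProp
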