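import Pool.Agent.Lib.MP_c1c6b6_al.PN2

set_option autoImplicit false

open Finset Matrix

namespace Pool.Agent.SemiProp.GLn

open Classical in
/-- Indicator of a proposition. -/
noncomputable def ind (p : Prop) : ℂ := if p then 1 else 0

theorem ind_pos {p : Prop} (h : p) : ind p = 1 := if_pos h

theorem ind_neg {p : Prop} (h : ¬ p) : ind p = 0 := if_neg h

theorem ind_and (p q : Prop) : ind (p ∧ q) = ind p * ind q := by
  by_cases hp : p <;> by_cases hq : q <;> simp [ind, hp, hq]

theorem ind_congr {p q : Prop} (h : p ↔ q) : ind p = ind q := by rw [propext h]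

theorem conj_ind (p : Prop) : (starRingEnd ℂ) (ind p) = ind p := by
  by_cases hp : p <;> simp [ind, hp]

theorem sum_ind_ne {X : Type} [Fintype X] {p : X → Prop} {x : X} (h : p x) :
    ∑ y, ind (p y) ≠ 0 := by
  classical
  have h1 : ∑ y, ind (p y) = ((univ.filter p).card : ℂ) := by
    rw [card_filter, Nat.cast_sum]
    exact sum_congr rfl fun y _ => by by_cases hy : p y <;> simp [ind, hy]
  rw [h1]
  exact Nat.cast_ne_zero.2 (card_pos.2 ⟨x, mem_filter.2 ⟨mem_univ _, h⟩⟩).ne'

section group

variable {G : Type} [Group G]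

/-- Characters. -/
def IsCh (χ : G → ℂ) : Prop :=
  ∃ (V : Type) (_ : AddCommGroup V) (_ : Module ℂ V) (_ : FiniteDimensional ℂ V)
    (ρ : Representation ℂ G V), χ = ρ.character

/-- Irreducible characters. -/
def IsIr (χ : G → ℂ) : Prop :=
  ∃ (V : Type) (_ : AddCommGroup V) (_ : Module ℂ V) (_ : FiniteDimensional ℂ V)
    (ρ : Representation ℂ G V), Irr ρ ∧ χ = ρ.character

end group

variable (F : Type) [Field F]

/-- The regular unipotent matrix with one Jordan block. -/
def J (k : ℕ) : Matrix (Fin k) (Fin k) F :=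
  1 + Matrix.of fun i j : Fin k => if (j : ℕ) = i + 1 then (1 : F) else 0

variable {F}

/-- Upper unitriangular matrices. -/
def Uni {n : ℕ} (M : Matrix (Fin n) (Fin n) F) : Prop :=
  ∀ i j, j ≤ i → M i j = (1 : Matrix (Fin n) (Fin n) F) i j

/-- A product of functions of the entries just above the diagonal. -/
noncomputable def ker {n : ℕ} (κ : ℕ → F → ℂ) (M : Matrix (Fin n) (Fin n) F) : ℂ :=
  ∏ i : Fin n, ∏ j : Fin n, if (j : ℕ) = i + 1 then κ j (M i j) else 1

/-- Invertible block upper triangular matrices. -/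
def Par {α β : Type} [Fintype α] [DecidableEq α] [Fintype β] [DecidableEq β]
    (s : Matrix (α ⊕ β) (α ⊕ β) F) : Prop := IsUnit s ∧ s.toBlocks₂₁ = 0

end Pool.Agent.SemiProp.GLn
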