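import Pool.Agent.Lib.MP_c1c6b6_al.GLE

set_option autoImplicit false

open Finset Matrix

namespace Pool.Agent.SemiProp.GLn

variable {F : Type} [Field F] {ι κ : Type} [Fintype ι] [DecidableEq ι] [Fintype κ] [DecidableEq κ]

open Classical in
/-- Extension by zero to singular matrices. -/
noncomputable def ext (χ : GL ι F → ℂ) (M : Matrix ι ι F) : ℂ :=
  if h : IsUnit M then χ h.unit else 0

theorem ext_coe (χ : GL ι F → ℂ) (g : GL ι F) : ext χ (g : Matrix ι ι F) = χ g := by
  rw [ext, dif_pos (Units.isUnit g), IsUnit.unit_of_val_units]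

theorem ext_sing (χ : GL ι F → ℂ) {M : Matrix ι ι F} (h : ¬ IsUnit M) : ext χ M = 0 := dif_neg h

/-- Class functions, extended by zero. -/
def Cl (f : Matrix ι ι F → ℂ) : Prop :=
  (∀ M, ¬ IsUnit M → f M = 0) ∧ ∀ P Q M, P * Q = 1 → f (P * M * Q) = f M

theorem isUnit_conj {P : Matrix ι κ F} {Q : Matrix κ ι F} (h : P * Q = 1) (h' : Q * P = 1)
    {M : Matrix κ κ F} (hM : IsUnit M) : IsUnit (P * M * Q) := by
  obtain ⟨g, rfl⟩ := hM
  refine IsUnit.of_mul_eq_one (P * (g⁻¹).val * Q) ?_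
  calc P * g.val * Q * (P * (g⁻¹).val * Q)
      = P * (g.val * (Q * P) * (g⁻¹).val) * Q := by simp only [Matrix.mul_assoc]
    _ = 1 := by rw [h', Matrix.mul_one, Units.mul_inv, Matrix.mul_one, h]

omit [DecidableEq ι] in
theorem conj_conj {P : Matrix ι κ F} {Q : Matrix κ ι F} (h' : Q * P = 1) (M : Matrix κ κ F) :
    Q * (P * M * Q) * P = M := by
  calc Q * (P * M * Q) * P = (Q * P) * M * (Q * P) := by simp only [Matrix.mul_assoc]
    _ = M := by rw [h', Matrix.one_mul, Matrix.mul_one]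

theorem isUnit_conj_iff {P : Matrix ι κ F} {Q : Matrix κ ι F} (h : P * Q = 1) (h' : Q * P = 1)
    {M : Matrix κ κ F} : IsUnit (P * M * Q) ↔ IsUnit M :=
  ⟨fun h1 => conj_conj h' M ▸ isUnit_conj h' h h1, isUnit_conj h h'⟩

theorem cl_ext {χ : GL ι F → ℂ} (h : ∀ g x, χ (x * g * x⁻¹) = χ g) : Cl (ext χ) := by
  refine ⟨fun M => ext_sing χ, fun P Q M hP => ?_⟩
  have hQ := mul_eq_one_comm.1 hP
  by_cases hM : IsUnit M
  · obtain ⟨g, rfl⟩ := hM
    rw [ext_coe, ← h g ⟨P, Q, hP, hQ⟩, ← ext_coe χ (_ * _ * _)]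
    rfl
  · rw [ext_sing χ hM, ext_sing χ fun h1 => hM ((isUnit_conj_iff hP hQ).1 h1)]

variable (F) in
/-- The irreducible characters of all general linear groups. -/
abbrev II : Type := Σ n : ℕ, {χ : GL (Fin n) F → ℂ // IsIr χ}

noncomputable instance : DecidableEq (II F) := Classical.decEq _

/-- Evaluation at a matrix with an arbitrary index type. -/
noncomputable def ev (x : II F) {ι : Type} [Fintype ι] [DecidableEq ι] (M : Matrix ι ι F) : ℂ :=
  if h : Fintype.card ι = x.1 then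
    ext x.2.1 (M.submatrix (Fintype.equivFinOfCardEq h).symm (Fintype.equivFinOfCardEq h).symm)
  else 0

theorem ev_card {x : II F} (h : Fintype.card ι ≠ x.1) (M : Matrix ι ι F) : ev x M = 0 := dif_neg h

theorem ev_conj (x : II F) {P : Matrix ι κ F} {Q : Matrix κ ι F} (h : P * Q = 1) (h' : Q * P = 1)
    (M : Matrix κ κ F) : ev x (P * M * Q) = ev x M := by
  have hc : Fintype.card ι = Fintype.card κ := Matrix.square_of_invertible P Q h h'
  by_cases h1 : Fintype.card ι = x.1
  · have h2 := hc.symm.trans h1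
    rw [ev, ev, dif_pos h1, dif_pos h2, ← (cl_ext x.2.2.isCh.cls).2
      (P.submatrix (Fintype.equivFinOfCardEq h1).symm (Fintype.equivFinOfCardEq h2).symm)
      (Q.submatrix (Fintype.equivFinOfCardEq h2).symm (Fintype.equivFinOfCardEq h1).symm)
      (M.submatrix _ _) (by rw [submatrix_mul_equiv, h, submatrix_one_equiv]),
      submatrix_mul_equiv, submatrix_mul_equiv]
  · rw [ev_card h1, ev_card (hc ▸ h1)]

theorem ev_sub (x : II F) (e : ι ≃ κ) (M : Matrix κ κ F) : ev x (M.submatrix e e) = ev x M := by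
  rw [← ev_conj x (P := (1 : Matrix κ κ F).submatrix e id) (Q := (1 : Matrix κ κ F).submatrix id e)
    (by rw [← Equiv.coe_refl, submatrix_mul_equiv, Matrix.mul_one, submatrix_one_equiv])
    (by rw [submatrix_mul_equiv, Matrix.mul_one, submatrix_id_id]) M]
  congr 1
  have := submatrix_mul_equiv ((1 : Matrix κ κ F) * M) (1 : Matrix κ κ F) e (Equiv.refl κ) e
  rw [← submatrix_mul_equiv (1 : Matrix κ κ F) M e (Equiv.refl κ) (Equiv.refl κ)] at this
  simpa using this.symm

theorem ev_fin (x : II F) (M : Matrix (Fin x.1) (Fin x.1) F) : ev x M = ext x.2.1 M := by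
  have h := Fintype.card_fin x.1
  rw [← ev_sub x (Fintype.equivFinOfCardEq h), ev, dif_pos h, submatrix_submatrix,
    Equiv.self_comp_symm, submatrix_id_id]

theorem ev_sing (x : II F) {M : Matrix ι ι F} (h : ¬ IsUnit M) : ev x M = 0 := by
  by_cases h1 : Fintype.card ι = x.1
  · rw [ev, dif_pos h1, ext_sing]
    rwa [isUnit_submatrix_equiv]
  · exact ev_card h1 M

theorem cl_ev (x : II F) : Cl (fun M : Matrix ι ι F => ev x M) :=
  ⟨fun _ => ev_sing x, fun _ _ M h => ev_conj x h (mul_eq_one_comm.1 h) M⟩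

theorem isIr_ev {x : II F} (h : Fintype.card ι = x.1) :
    IsIr fun g : GL ι F => ev x (g : Matrix ι ι F) := by
  have h1 := x.2.2.comp
    (Units.mapEquiv (reindexAlgEquiv F F (Fintype.equivFinOfCardEq h)).toMulEquiv)
  have h2 : (fun g : GL ι F => ev x (g : Matrix ι ι F)) = fun g => x.2.1
      (Units.mapEquiv (reindexAlgEquiv F F (Fintype.equivFinOfCardEq h)).toMulEquiv g) := by
    funext g
    rw [ev, dif_pos h, ← ext_coe x.2.1]
    rfl
  rwa [h2]

theorem ev_one_ne {x : II F} (h : Fintype.card ι = x.1) : ev x (1 : Matrix ι ι F) ≠ 0 :=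
  (isIr_ev h).one_ne

theorem exists_II {χ : GL ι F → ℂ} (h : IsIr χ) :
    ∃ x : II F, x.1 = Fintype.card ι ∧ ∀ g : GL ι F, ev x (g : Matrix ι ι F) = χ g := by
  refine ⟨⟨Fintype.card ι, _, h.comp
    (Units.mapEquiv (reindexAlgEquiv F F (Fintype.equivFin ι).symm).toMulEquiv)⟩, rfl, fun g => ?_⟩
  rw [← ev_sub _ (Fintype.equivFin ι).symm]
  have h1 : (g : Matrix ι ι F).submatrix (Fintype.equivFin ι).symm (Fintype.equivFin ι).symm =
      (Units.mapEquiv (reindexAlgEquiv F F (Fintype.equivFin ι)).toMulEquiv g : GL _ F) := rfl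
  rw [h1, ev_fin, ext_coe]
  exact congrArg χ (Units.ext (by ext i j; simp))

variable [Fintype F] [DecidableEq F]

theorem sum_GL (f : Matrix ι ι F → ℂ) :
    ∑ g : GL ι F, f (g : Matrix ι ι F) = ∑ M, ind (IsUnit M) * f M := by
  classical
  rw [← sum_subset (s₂ := (univ : Finset (Matrix ι ι F)))
    (subset_univ (univ.map ⟨Units.val, Units.val_injective⟩)) fun M _ hM => by
    rw [ind_neg fun ⟨g, hg⟩ => hM (mem_map.2 ⟨g, mem_univ _, hg⟩), zero_mul], sum_map]
  exact sum_congr rfl fun g _ => by rw [Function.Embedding.coeFn_mk, ind_pos g.isUnit, one_mul]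

theorem sum_GL' {f : Matrix ι ι F → ℂ} (h : ∀ M, ¬ IsUnit M → f M = 0) :
    ∑ g : GL ι F, f (g : Matrix ι ι F) = ∑ M, f M := by
  rw [sum_GL]
  refine sum_congr rfl fun M _ => ?_
  by_cases hM : IsUnit M
  · rw [ind_pos hM, one_mul]
  · rw [h M hM, mul_zero]

omit [Field F] [DecidableEq F] in
theorem sum_sub {ι' κ' : Type} [Fintype ι'] [DecidableEq ι'] [Fintype κ'] [DecidableEq κ']
    (e : ι ≃ ι') (e' : κ ≃ κ') (f : Matrix ι κ F → ℂ) :
    ∑ M : Matrix ι' κ' F, f (M.submatrix e e') = ∑ M, f M :=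
  Fintype.sum_equiv (reindex e.symm e'.symm) _ _ fun _ => rfl

variable (F ι) in
/-- The order of the general linear group. -/
noncomputable def gl : ℂ := ∑ M : Matrix ι ι F, ind (IsUnit M)

theorem gl_eq : gl F ι = Fintype.card (GL ι F) := by
  simpa [gl] using (sum_GL (F := F) (ι := ι) fun _ => 1).symm

omit [DecidableEq F] in
theorem gl_ne : gl F ι ≠ 0 := sum_ind_ne isUnit_one

omit [DecidableEq F] in
theorem gl_congr (e : ι ≃ κ) : gl F ι = gl F κ := by
  rw [gl, ← sum_sub e e]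
  exact sum_congr rfl fun M _ => ind_congr (isUnit_submatrix_equiv e e)

noncomputable instance (n : ℕ) : Fintype {χ : GL (Fin n) F → ℂ // IsIr χ} :=
  (finite_isIr (GL (Fin n) F)).fintype

variable (F) in
/-- The irreducible characters of `GL n`. -/
noncomputable def lev (n : ℕ) : Finset (II F) := univ.map (Function.Embedding.sigmaMk n)

theorem mem_lev {n : ℕ} {x : II F} : x ∈ lev F n ↔ x.1 = n := by
  constructor
  · intro h
    obtain ⟨y, -, rfl⟩ := mem_map.1 h
    rfl
  · rintro rfl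
    exact mem_map.2 ⟨x.2, mem_univ _, rfl⟩

theorem ev_orth {x y : II F} (h : Fintype.card ι = x.1) :
    ∑ M : Matrix ι ι F, ev x M * (starRingEnd ℂ) (ev y M) = if x = y then gl F ι else 0 := by
  by_cases h' : Fintype.card ι = y.1
  · obtain ⟨n, χ⟩ := x
    obtain ⟨m, χ'⟩ := y
    obtain rfl : n = m := h.symm.trans h'
    have e := Fintype.equivFinOfCardEq h
    rw [← sum_sub e e, gl_congr e, gl_eq, ← sum_GL' fun M hM => by rw [ev_sub, ev_sing _ hM, zero_mul]]
    simp only [ev_sub]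
    rw [sum_congr rfl fun g _ => by rw [ev_fin ⟨n, χ⟩, ev_fin ⟨n, χ'⟩, ext_coe, ext_coe],
      χ.2.orth χ'.2]
    by_cases h1 : χ = χ'
    · rw [if_pos (congrArg _ h1), if_pos (congrArg _ h1)]
    · rw [if_neg fun h2 => h1 (Subtype.ext h2)]
      refine (if_neg fun h2 => h1 ?_).symm
      exact eq_of_heq (Sigma.ext_iff.1 h2).2
  · rw [if_neg fun h1 : x = y => h' (h1 ▸ h)]
    exact sum_eq_zero fun M _ => by rw [ev_card h', map_zero, mul_zero]

theorem Cl.expand {f : Matrix ι ι F → ℂ} (h : Cl f) (M : Matrix ι ι F) :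
    gl F ι * f M = ∑ x ∈ lev F (Fintype.card ι),
      (∑ N, f N * (starRingEnd ℂ) (ev x N)) * ev x M := by
  by_cases hM : IsUnit M
  · have e := Fintype.equivFin ι
    have h1 := GLn.expand (G := GL (Fin (Fintype.card ι)) F)
      (f := fun g => f ((g : Matrix _ _ F).submatrix e e)) (fun g x => by
        rw [Units.val_mul, Units.val_mul, ← submatrix_mul_equiv _ _ _ e,
          ← submatrix_mul_equiv _ _ _ e, h.2]
        rw [submatrix_mul_equiv, Units.mul_inv, submatrix_one_equiv])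
      ((isUnit_submatrix_equiv e.symm e.symm).2 hM).unit
    rw [IsUnit.unit_spec, submatrix_submatrix, Equiv.symm_comp_self, submatrix_id_id, ← gl_eq,
      ← gl_congr e] at h1
    rw [h1, lev, sum_map, sum_subtype _ (fun χ => (finite_isIr _).mem_toFinset)]
    refine sum_congr rfl fun χ _ => ?_
    rw [← sum_sub e e, ← sum_GL' fun N hN => by
      rw [h.1 _ (by rwa [isUnit_submatrix_equiv]), zero_mul], ← ev_sub _ e.symm M]
    congr 1
    · refine sum_congr rfl fun g _ => ?_
      rw [ev_sub]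
      exact congrArg (fun t => _ * (starRingEnd ℂ) t)
        ((ev_fin ⟨_, χ⟩ _).trans (ext_coe _ _)).symm
    · rw [← ext_coe χ.1, IsUnit.unit_spec]
      exact (ev_fin ⟨_, χ⟩ _).symm
  · rw [h.1 M hM, mul_zero]
    exact (sum_eq_zero fun x _ => by rw [ev_sing x hM, mul_zero]).symm

theorem ev_indep {t : II F → ℂ} (h : ∀ M : Matrix ι ι F,
    ∑ x ∈ lev F (Fintype.card ι), t x * ev x M = 0) {y : II F} (hy : y.1 = Fintype.card ι) :
    t y = 0 := by
  have h1 : ∑ M : Matrix ι ι F, (∑ x ∈ lev F (Fintype.card ι), t x * ev x M) *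
      (starRingEnd ℂ) (ev y M) = 0 := sum_eq_zero fun M _ => by rw [h, zero_mul]
  simp only [sum_mul, mul_assoc] at h1
  rw [sum_comm, sum_congr rfl fun x hx => by
    rw [← mul_sum, ev_orth (mem_lev.1 hx).symm], sum_eq_single_of_mem y (mem_lev.2 hy)
      fun x _ hx => by rw [if_neg hx, mul_zero], if_pos rfl] at h1
  exact (mul_eq_zero.1 h1).resolve_right gl_ne

end Pool.Agent.SemiProp.GLn
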