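import Pool.Agent.Lib.MP_c1c6b6_al.GL1

set_option autoImplicit false

open Finset Matrix

namespace Pool.Agent.SemiProp.GLn

variable {F : Type} [Field F] {α β γ δ : Type} [Fintype α] [DecidableEq α] [Fintype β]
  [DecidableEq β] [Fintype γ] [DecidableEq γ] [Fintype δ] [DecidableEq δ]

theorem ev_cj (x : II F) {P Q : Matrix α α F} (h : P * Q = 1) (M : Matrix α α F) :
    ev x (P * M * Q) = ev x M := ev_conj x h (mul_eq_one_comm.1 h) M

theorem eq_blocks {α β γ δ : Type} {s : Matrix (α ⊕ β) (γ ⊕ δ) F} (h : s.toBlocks₂₁ = 0) :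
    s = fromBlocks s.toBlocks₁₁ s.toBlocks₁₂ 0 s.toBlocks₂₂ := by
  rw [← h, fromBlocks_toBlocks]

theorem inv_blocks {p p' : Matrix (α ⊕ β) (α ⊕ β) F} (h : p * p' = 1) (h0 : p.toBlocks₂₁ = 0) :
    p'.toBlocks₂₁ = 0 ∧ p.toBlocks₁₁ * p'.toBlocks₁₁ = 1 ∧ p.toBlocks₂₂ * p'.toBlocks₂₂ = 1 := by
  have h1 := h
  rw [eq_blocks h0, ← fromBlocks_toBlocks p', fromBlocks_multiply, ← fromBlocks_one,
    fromBlocks_inj] at h1
  simp only [Matrix.zero_mul, zero_add] at h1
  obtain ⟨h2, -, h3, h4⟩ := h1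
  have h5 : p'.toBlocks₂₁ = 0 := by
    rw [← Matrix.one_mul p'.toBlocks₂₁, ← mul_eq_one_comm.1 h4, Matrix.mul_assoc, h3,
      Matrix.mul_zero]
  rw [h5, Matrix.mul_zero, add_zero] at h2
  exact ⟨h5, h2, h4⟩

omit [DecidableEq α] [DecidableEq β] in
theorem mul_blocks {s t : Matrix (α ⊕ β) (α ⊕ β) F} (hs : s.toBlocks₂₁ = 0)
    (ht : t.toBlocks₂₁ = 0) : (s * t).toBlocks₂₁ = 0 ∧
      (s * t).toBlocks₁₁ = s.toBlocks₁₁ * t.toBlocks₁₁ ∧
      (s * t).toBlocks₂₂ = s.toBlocks₂₂ * t.toBlocks₂₂ := by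
  rw [eq_blocks hs, eq_blocks ht, fromBlocks_multiply]
  simp

/-- The inflation of a product of two characters to a parabolic subgroup. -/
noncomputable def X0 (x y : II F) (s : Matrix (α ⊕ β) (α ⊕ β) F) : ℂ :=
  ind (s.toBlocks₂₁ = 0) * (ev x s.toBlocks₁₁ * ev y s.toBlocks₂₂)

theorem X0_conj (x y : II F) {p p' : Matrix (α ⊕ β) (α ⊕ β) F} (h : p * p' = 1)
    (h0 : p.toBlocks₂₁ = 0) (s : Matrix (α ⊕ β) (α ⊕ β) F) : X0 x y (p * s * p') = X0 x y s := by
  obtain ⟨h1, h2, h3⟩ := inv_blocks h h0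
  by_cases hs : s.toBlocks₂₁ = 0
  · obtain ⟨a1, a2, a3⟩ := mul_blocks h0 hs
    obtain ⟨b1, b2, b3⟩ := mul_blocks a1 h1
    rw [X0, X0, ind_pos hs, ind_pos b1, b2, b3, a2, a3, ev_cj x h2, ev_cj y h3]
  · rw [X0, X0, ind_neg hs, ind_neg, zero_mul, zero_mul]
    intro h4
    have := (mul_blocks (mul_blocks h1 h4).1 h0).1
    rw [conj_conj (mul_eq_one_comm.1 h)] at this
    exact hs this

theorem blocks_sub {α β γ δ : Type} (e : γ ≃ α) (e' : δ ≃ β) (s : Matrix (α ⊕ β) (α ⊕ β) F) :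
    (s.submatrix (e.sumCongr e') (e.sumCongr e')).toBlocks₂₁ = 0 ↔ s.toBlocks₂₁ = 0 := by
  have h3 : (s.submatrix (e.sumCongr e') (e.sumCongr e')).toBlocks₂₁ =
      s.toBlocks₂₁.submatrix e' e := rfl
  rw [h3]
  refine ⟨fun h => ?_, fun h => by rw [h]; rfl⟩
  ext i j
  simpa using congrFun (congrFun h (e'.symm i)) (e.symm j)

theorem X0_sub (x y : II F) (e : γ ≃ α) (e' : δ ≃ β) (s : Matrix (α ⊕ β) (α ⊕ β) F) :
    X0 x y (s.submatrix (e.sumCongr e') (e.sumCongr e')) = X0 x y s := by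
  have h1 : (s.submatrix (e.sumCongr e') (e.sumCongr e')).toBlocks₁₁ = s.toBlocks₁₁.submatrix e e :=
    rfl
  have h2 : (s.submatrix (e.sumCongr e') (e.sumCongr e')).toBlocks₂₂ =
      s.toBlocks₂₂.submatrix e' e' := rfl
  rw [X0, X0, h1, h2, blocks_sub, ev_sub, ev_sub]

theorem X0_sing (x y : II F) {s : Matrix (α ⊕ β) (α ⊕ β) F} (h : ¬ Par s) : X0 x y s = 0 := by
  by_cases hs : s.toBlocks₂₁ = 0
  · have h1 : ¬ (IsUnit s.toBlocks₁₁ ∧ IsUnit s.toBlocks₂₂) := fun h1 =>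
      h ⟨eq_blocks hs ▸ isUnit_fromBlocks_zero₂₁.2 h1, hs⟩
    rcases not_and_or.1 h1 with h2 | h2 <;> simp [X0, ev_sing _ h2]
  · rw [X0, ind_neg hs, zero_mul]

variable (F α β) in
/-- The parabolic subgroup. -/
def PS : Subgroup (GL (α ⊕ β) F) where
  carrier := {g | g.val.toBlocks₂₁ = 0}
  one_mem' := by
    change (1 : Matrix (α ⊕ β) (α ⊕ β) F).toBlocks₂₁ = 0
    rw [← fromBlocks_one, toBlocks_fromBlocks₂₁]
  mul_mem' := fun ha hb => (mul_blocks ha hb).1
  inv_mem' := fun {g} hg => (inv_blocks g.mul_inv hg).1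

/-- The first diagonal block. -/
def PS.fst : PS F α β →* Matrix α α F where
  toFun g := g.1.val.toBlocks₁₁
  map_one' := by
    change (1 : Matrix (α ⊕ β) (α ⊕ β) F).toBlocks₁₁ = 1
    rw [← fromBlocks_one, toBlocks_fromBlocks₁₁]
  map_mul' g h := (mul_blocks g.2 h.2).2.1

/-- The second diagonal block. -/
def PS.snd : PS F α β →* Matrix β β F where
  toFun g := g.1.val.toBlocks₂₂
  map_one' := by
    change (1 : Matrix (α ⊕ β) (α ⊕ β) F).toBlocks₂₂ = 1
    rw [← fromBlocks_one, toBlocks_fromBlocks₂₂]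
  map_mul' g h := (mul_blocks g.2 h.2).2.2

variable [Fintype F] [DecidableEq F]

omit [DecidableEq F] in
theorem sum_blocks (f : Matrix (α ⊕ β) (γ ⊕ δ) F → ℂ) :
    ∑ s, ind (s.toBlocks₂₁ = 0) * f s = ∑ a, ∑ d, ∑ v, f (fromBlocks a v 0 d) := by
  classical
  rw [← Fintype.sum_prod_type', ← Fintype.sum_prod_type']
  rw [← sum_subset (s₂ := univ) (subset_univ (univ.map
    (⟨fun t : (Matrix α γ F × Matrix β δ F) × Matrix α δ F => fromBlocks t.1.1 t.2 0 t.1.2,
      fun t t' h => by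
        obtain ⟨h1, h2, -, h3⟩ := fromBlocks_inj.1 h
        exact Prod.ext (Prod.ext h1 h3) h2⟩ : _ ↪ Matrix (α ⊕ β) (γ ⊕ δ) F))) fun s _ hs => by
    rw [ind_neg fun h => hs (mem_map.2 ⟨((_, _), _), mem_univ _, (eq_blocks h).symm⟩), zero_mul],
    sum_map]
  exact sum_congr rfl fun t _ => (congrArg (· * _) (ind_pos rfl)).trans (one_mul _)

variable (F α β) in
/-- The order of the parabolic subgroup. -/
noncomputable def par : ℂ := ∑ s : Matrix (α ⊕ β) (α ⊕ β) F, ind (Par s)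

omit [DecidableEq F] in
theorem par_eq : par F α β = gl F α * gl F β * Fintype.card (Matrix α β F) := by
  rw [par, sum_congr rfl fun (s : Matrix (α ⊕ β) (α ⊕ β) F) _ =>
    (show ind (Par s) = _ from (ind_and _ _).trans (mul_comm _ _)), sum_blocks]
  simp only [isUnit_fromBlocks_zero₂₁, ind_and, sum_const, card_univ, nsmul_eq_mul, gl, ← mul_sum,
    ← sum_mul]
  ring

omit [DecidableEq F] in
theorem mat_ne : (Fintype.card (Matrix α β F) : ℂ) ≠ 0 := Nat.cast_ne_zero.2 Fintype.card_ne_zero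

omit [DecidableEq F] in
theorem par_ne : par F α β ≠ 0 := par_eq (F := F) (α := α) (β := β) ▸
  mul_ne_zero (mul_ne_zero gl_ne gl_ne) mat_ne

theorem sum_PS [Fintype (PS F α β)] (f : Matrix (α ⊕ β) (α ⊕ β) F → ℂ) :
    ∑ g : PS F α β, f g.1.val = ∑ s, ind (Par s) * f s := by
  classical
  rw [← sum_subtype (univ.filter (· ∈ PS F α β)) (by simp) fun g : GL (α ⊕ β) F => f g.val,
    sum_filter]
  simp only [Par, ind_and, mul_assoc]
  rw [← sum_GL]
  refine sum_congr rfl fun g _ => ?_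
  by_cases hg : g ∈ PS F α β
  · rw [if_pos hg, ind_pos (p := g.val.toBlocks₂₁ = 0) hg, one_mul]
  · rw [if_neg hg, ind_neg (p := g.val.toBlocks₂₁ = 0) hg, zero_mul]

theorem exists_cc (x y z : II F) : ∃ k : ℕ,
    ∑ s : Matrix (Fin x.1 ⊕ Fin y.1) (Fin x.1 ⊕ Fin y.1) F, ev z s * (starRingEnd ℂ) (X0 x y s) =
      k * par F (Fin x.1) (Fin y.1) := by
  classical
  by_cases h : Fintype.card (Fin x.1 ⊕ Fin y.1) = z.1
  · obtain ⟨k, hk⟩ := (((isIr_ev h).isCh.comp (PS F _ _).subtype).mul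
      ((((isIr_ev (Fintype.card_fin x.1)).isCh.comp PS.fst.toHomUnits).mul
      ((isIr_ev (Fintype.card_fin y.1)).isCh.comp PS.snd.toHomUnits)).conj)).avg
    refine ⟨k, ?_⟩
    have h1 := sum_PS (F := F) (α := Fin x.1) (β := Fin y.1) fun _ => 1
    simp only [sum_const, card_univ, nsmul_eq_mul, mul_one] at h1
    rw [par, ← h1, ← hk]
    refine Eq.trans (sum_congr rfl fun s _ => ?_) (sum_PS fun s => ev z s * (starRingEnd ℂ)
      (ev x s.toBlocks₁₁ * ev y s.toBlocks₂₂)).symm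
    by_cases hs : Par s
    · rw [ind_pos hs, X0, ind_pos hs.2, one_mul, one_mul]
    · rw [ind_neg hs, X0_sing x y hs, map_zero, mul_zero, zero_mul]
  · exact ⟨0, by simp [ev_card h]⟩

/-- The structure constants of parabolic induction. -/
noncomputable def cc (x y z : II F) : ℕ := (exists_cc x y z).choose

theorem cc_spec {x y : II F} (hx : Fintype.card α = x.1) (hy : Fintype.card β = y.1) (z : II F) :
    ∑ s : Matrix (α ⊕ β) (α ⊕ β) F, ev z s * (starRingEnd ℂ) (X0 x y s) = cc x y z * par F α β := by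
  have e := Fintype.equivFinOfCardEq hx
  have e' := Fintype.equivFinOfCardEq hy
  rw [← sum_sub (e.sumCongr e') (e.sumCongr e')]
  simp only [ev_sub, X0_sub]
  refine (exists_cc x y z).choose_spec.trans (congrArg₂ _ rfl ?_)
  rw [par_eq, par_eq, gl_congr e, gl_congr e', Fintype.card_congr (reindex e e')]

theorem cc_deg {x y z : II F} (h : cc x y z ≠ 0) : z.1 = x.1 + y.1 := by
  by_contra h1
  have h2 := cc_spec (Fintype.card_fin x.1) (Fintype.card_fin y.1) z
  rw [sum_eq_zero fun s _ => by rw [ev_card (by simpa using Ne.symm h1), zero_mul]] at h2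
  exact mul_ne_zero (Nat.cast_ne_zero.2 h) par_ne h2.symm

theorem del (z : II F) (g : Matrix α α F) (g' : Matrix β β F) :
    ∑ v, ev z (fromBlocks g v 0 g') = Fintype.card (Matrix α β F) *
      ∑ a ∈ lev F (Fintype.card α), ∑ b ∈ lev F (Fintype.card β), cc a b z * (ev a g * ev b g') := by
  have h1 : ∀ d : Matrix β β F, Cl fun a : Matrix α α F => ∑ v, ev z (fromBlocks a v 0 d) := by
    refine fun d => ⟨fun M hM => sum_eq_zero fun v _ =>
      ev_sing z fun h => hM (isUnit_fromBlocks_zero₂₁.1 h).1, fun P Q M h => ?_⟩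
    have h' := mul_eq_one_comm.1 h
    refine Fintype.sum_equiv ⟨(Q * ·), (P * ·), fun v => by
      simp only [← Matrix.mul_assoc, h, Matrix.one_mul], fun v => by
      simp only [← Matrix.mul_assoc, h', Matrix.one_mul]⟩ _ _ fun v => ?_
    rw [← ev_cj z (P := fromBlocks P 0 0 1) (Q := fromBlocks Q 0 0 1)
      (by simp [fromBlocks_multiply, h]) (fromBlocks M _ 0 d)]
    simp [fromBlocks_multiply, ← Matrix.mul_assoc, h]
  have h2 : ∀ a : II F, Cl fun d : Matrix β β F =>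
      ∑ N : Matrix α α F, (∑ v, ev z (fromBlocks N v 0 d)) * (starRingEnd ℂ) (ev a N) := by
    refine fun a => ⟨fun M hM => sum_eq_zero fun N _ => by
      rw [sum_eq_zero fun v _ => ev_sing z fun h => hM (isUnit_fromBlocks_zero₂₁.1 h).2, zero_mul],
      fun P Q M h => sum_congr rfl fun N _ => ?_⟩
    have h' := mul_eq_one_comm.1 h
    congr 1
    refine Fintype.sum_equiv ⟨(· * P), (· * Q), fun v => by
      simp only [Matrix.mul_assoc, h, Matrix.mul_one], fun v => by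
      simp only [Matrix.mul_assoc, h', Matrix.mul_one]⟩ _ _ fun v => ?_
    rw [← ev_cj z (P := fromBlocks 1 0 0 P) (Q := fromBlocks 1 0 0 Q)
      (by simp [fromBlocks_multiply, h]) (fromBlocks N _ 0 M)]
    simp [fromBlocks_multiply, Matrix.mul_assoc, h]
  refine mul_left_cancel₀ (mul_ne_zero (gl_ne (F := F) (ι := β)) (gl_ne (F := F) (ι := α))) ?_
  rw [mul_assoc, (h1 g').expand, mul_sum, mul_sum, mul_sum]
  refine sum_congr rfl fun a ha => ?_
  rw [← mul_assoc, (h2 a).expand, sum_mul, mul_sum, mul_sum]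
  refine sum_congr rfl fun b hb => ?_
  have h3 := cc_spec (mem_lev.1 ha).symm (mem_lev.1 hb).symm z
  rw [sum_congr rfl fun s _ => by rw [X0, map_mul, conj_ind, mul_left_comm], sum_blocks, par_eq,
    sum_comm] at h3
  simp only [toBlocks_fromBlocks₁₁, toBlocks_fromBlocks₂₂, map_mul, ← sum_mul, ← mul_assoc] at h3
  rw [h3]
  ring

end Pool.Agent.SemiProp.GLn
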