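import Pool.Agent.Lib.MP_c1c6b6_al.GL2

set_option autoImplicit false

open Finset Matrix

namespace Pool.Agent.SemiProp.GLn

variable {F : Type} [Field F] {α β γ δ ι : Type} [Fintype α] [DecidableEq α] [Fintype β]
  [DecidableEq β] [Fintype γ] [DecidableEq γ] [Fintype δ] [DecidableEq δ] [Fintype ι]
  [DecidableEq ι]

variable (F) in
/-- The unit. -/
def oo : II F := ⟨0, fun _ => 1, isIr_one⟩

theorem ev_oo [IsEmpty α] (M : Matrix α α F) : ev (oo F) M = 1 := by
  rw [ev, dif_pos (show Fintype.card α = (oo F).1 from Fintype.card_eq_zero), ext,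
    dif_pos ((isUnit_submatrix_equiv _ _).2 (isUnit_of_subsingleton M))]
  rfl

variable [Fintype F] [DecidableEq F]

theorem deg_oo (x : II F) : x.1 = 0 ↔ x = oo F := by
  refine ⟨fun h => ?_, fun h => h ▸ rfl⟩
  by_contra h1
  have h2 := ev_orth (ι := Fin 0) (x := x) (y := oo F) (by simp [h])
  rw [if_neg h1, Fintype.sum_subsingleton _ 1, ev_oo, map_one, mul_one] at h2
  exact ev_one_ne (by simp [h]) h2

theorem lev_zero : lev F 0 = {oo F} := by
  ext x
  rw [mem_lev, mem_singleton, deg_oo]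

theorem coef_eq {t : II F → ℂ} {y z : II F} (hy : y.1 = Fintype.card ι) (hz : z.1 = Fintype.card ι)
    (h : ∀ M : Matrix ι ι F, ev z M = ∑ x ∈ lev F (Fintype.card ι), t x * ev x M) :
    t y = if y = z then 1 else 0 := by
  refine sub_eq_zero.1 (ev_indep (ι := ι) (t := fun x => t x - if x = z then 1 else 0)
    (fun M => ?_) hy)
  simp only [sub_mul, sum_sub_distrib, ← h, ite_mul, one_mul, zero_mul, sum_ite_eq',
    if_pos (mem_lev.2 hz), sub_self]

theorem cc_left (y z : II F) : cc (oo F) y z = if y = z then 1 else 0 := by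
  by_cases h : z.1 = y.1
  · have h1 := coef_eq (ι := Fin y.1) (t := fun b => cc (oo F) b z) (y := y) (z := z) (by simp)
      (by simp [h]) fun M => by
        have h2 := del z (1 : Matrix (Fin 0) (Fin 0) F) M
        rw [Fintype.sum_subsingleton _ 0, Fintype.card_fin 0, lev_zero,
          Fintype.card_eq_one_iff.2 ⟨0, fun _ => Subsingleton.elim _ _⟩,
          sum_singleton, ← ev_sub z (Equiv.emptySum (Fin 0) (Fin y.1)).symm] at h2
        exact h2.trans (by simp [ev_oo])
    exact_mod_cast h1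
  · rw [if_neg fun h1 : y = z => h (h1 ▸ rfl)]
    by_contra h1
    exact h ((cc_deg h1).trans (zero_add _))

theorem cc_right (y z : II F) : cc y (oo F) z = if y = z then 1 else 0 := by
  by_cases h : z.1 = y.1
  · have h1 := coef_eq (ι := Fin y.1) (t := fun b => cc b (oo F) z) (y := y) (z := z) (by simp)
      (by simp [h]) fun M => by
        have h2 := del z M (1 : Matrix (Fin 0) (Fin 0) F)
        rw [Fintype.sum_subsingleton _ 0, Fintype.card_fin 0, lev_zero,
          Fintype.card_eq_one_iff.2 ⟨0, fun _ => Subsingleton.elim _ _⟩,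
          ← ev_sub z (Equiv.sumEmpty (Fin y.1) (Fin 0)).symm] at h2
        exact h2.trans (by simp [ev_oo])
    exact_mod_cast h1
  · rw [if_neg fun h1 : y = z => h (h1 ▸ rfl)]
    by_contra h1
    exact h (cc_deg h1)

omit [Field F] [DecidableEq F] in
theorem sum_rows (f : Matrix (α ⊕ β) γ F → ℂ) : ∑ V, f V = ∑ a, ∑ b, f (fromRows a b) := by
  rw [← Fintype.sum_prod_type']
  exact Fintype.sum_equiv ⟨fun V : Matrix (α ⊕ β) γ F => (V.toRows₁, V.toRows₂),
    fun t => fromRows t.1 t.2, fun V => fromRows_toRows V, fun t => by simp⟩ _ _ fun V => by simp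

omit [Field F] [DecidableEq F] in
theorem sum_cols (f : Matrix α (β ⊕ γ) F → ℂ) : ∑ V, f V = ∑ a, ∑ b, f (fromCols a b) := by
  rw [← Fintype.sum_prod_type']
  exact Fintype.sum_equiv ⟨fun V : Matrix α (β ⊕ γ) F => (V.toCols₁, V.toCols₂),
    fun t => fromCols t.1 t.2, fun V => fromCols_toCols V, fun t => by simp⟩ _ _ fun V => by simp

theorem cc_assoc (x y t z : II F) : ∑ w ∈ lev F (x.1 + y.1), cc x y w * cc w t z =
    ∑ w ∈ lev F (y.1 + t.1), cc y t w * cc x w z := by
  have key : ∀ (g1 : Matrix (Fin x.1) (Fin x.1) F) (g2 : Matrix (Fin y.1) (Fin y.1) F)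
      (g3 : Matrix (Fin t.1) (Fin t.1) F),
      ∑ a ∈ lev F (Fintype.card (Fin x.1)), (∑ b ∈ lev F (Fintype.card (Fin y.1)),
        (∑ d ∈ lev F (Fintype.card (Fin t.1)),
        ((∑ w ∈ lev F (x.1 + y.1), (cc a b w * cc w d z : ℂ)) -
          ∑ w ∈ lev F (y.1 + t.1), (cc b d w * cc a w z : ℂ)) * ev d g3) * ev b g2) * ev a g1 = 0 := by
    intro g1 g2 g3
    have h1 : ∑ v, ∑ V, ev z (fromBlocks (fromBlocks g1 v 0 g2) V 0 g3) =
        ∑ v, ∑ V, ev z (fromBlocks g1 V 0 (fromBlocks g2 v 0 g3)) := by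
      simp only [sum_rows (α := Fin x.1), sum_cols (β := Fin y.1)]
      rw [sum_comm (γ := Matrix (Fin y.1) (Fin t.1) F)]
      refine sum_congr rfl fun v _ => ?_
      rw [sum_comm]
      refine sum_congr rfl fun a _ => sum_congr rfl fun b _ => ?_
      rw [← ev_sub z (Equiv.sumAssoc (Fin x.1) (Fin y.1) (Fin t.1)).symm]
      congr 1
      ext (i | i | i) (j | j | j) <;> rfl
    have h2 := sum_rows (F := F) (α := Fin x.1) (β := Fin y.1) (γ := Fin t.1) fun _ => 1
    have h3 := sum_cols (F := F) (α := Fin x.1) (β := Fin y.1) (γ := Fin t.1) fun _ => 1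
    simp only [sum_const, card_univ, nsmul_eq_mul, mul_one] at h2 h3
    have h4 : ∑ v, ∑ V, ev z (fromBlocks (fromBlocks g1 v 0 g2) V 0 g3) =
        Fintype.card (Matrix (Fin x.1 ⊕ Fin y.1) (Fin t.1) F) *
        (Fintype.card (Matrix (Fin x.1) (Fin y.1) F) * ∑ a ∈ lev F x.1, ∑ b ∈ lev F y.1,
        ∑ d ∈ lev F t.1, ∑ w ∈ lev F (x.1 + y.1),
          cc a b w * cc w d z * ev d g3 * ev b g2 * ev a g1) := by
      simp only [del, ← mul_sum, Fintype.card_sum, Fintype.card_fin]
      rw [← sum_comm_cycle]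
      simp only [← mul_sum, ← sum_mul, del, Fintype.card_fin]
      simp only [mul_sum, sum_mul]
      rw [sum_comm, sum_congr rfl fun d _ => sum_comm_cycle.symm, ← sum_comm_cycle]
      exact sum_congr rfl fun a _ => sum_congr rfl fun b _ => sum_congr rfl fun d _ =>
        sum_congr rfl fun w _ => by ring
    have h5 : ∑ v, ∑ V, ev z (fromBlocks g1 V 0 (fromBlocks g2 v 0 g3)) =
        Fintype.card (Matrix (Fin x.1) (Fin y.1 ⊕ Fin t.1) F) *
        (Fintype.card (Matrix (Fin y.1) (Fin t.1) F) * ∑ a ∈ lev F x.1, ∑ b ∈ lev F y.1,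
        ∑ d ∈ lev F t.1, ∑ w ∈ lev F (y.1 + t.1),
          cc b d w * cc a w z * ev d g3 * ev b g2 * ev a g1) := by
      simp only [del, ← mul_sum, Fintype.card_sum, Fintype.card_fin]
      rw [← sum_comm_cycle]
      simp only [← mul_sum, del, Fintype.card_fin]
      simp only [mul_sum]
      refine sum_congr rfl fun a _ => ?_
      rw [← sum_comm_cycle]
      exact sum_congr rfl fun b _ => sum_congr rfl fun d _ => sum_congr rfl fun w _ => by ring
    rw [h4, h5, h2, h3] at h1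
    refine mul_left_cancel₀ (mul_ne_zero (mul_ne_zero
      (mat_ne (F := F) (α := Fin x.1) (β := Fin t.1)) (mat_ne (F := F) (α := Fin y.1) (β := Fin t.1)))
      (mat_ne (F := F) (α := Fin x.1) (β := Fin y.1))) ?_
    simp only [Fintype.card_fin, sub_mul, sum_sub_distrib, sum_mul]
    linear_combination h1
  have h := ev_indep (fun g3 => ev_indep (fun g2 => ev_indep (fun g1 => key g1 g2 g3)
    (y := x) (by simp)) (y := y) (by simp)) (y := t) (by simp)
  exact_mod_cast sub_eq_zero.1 h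

omit [DecidableEq F] in
theorem sum_inv (P : Matrix ι ι F) :
    ∑ Q : Matrix ι ι F, ind (P * Q = 1 ∧ Q * P = 1) = ind (IsUnit P) := by
  by_cases hP : IsUnit P
  · obtain ⟨g, rfl⟩ := hP
    rw [ind_pos g.isUnit, sum_eq_single (g⁻¹).val (fun Q _ hQ => ind_neg fun h2 =>
      hQ (Units.inv_eq_of_mul_eq_one_right h2.1).symm) (by simp), ind_pos ⟨g.mul_inv, g.inv_mul⟩]
  · rw [ind_neg hP]
    exact sum_eq_zero fun Q _ => ind_neg fun h2 => hP (IsUnit.of_mul_eq_one Q h2.1)

omit [DecidableEq F] in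
theorem sum_frames (h : Fintype.card ι = Fintype.card α) :
    ∑ P : Matrix ι α F, ∑ Q : Matrix α ι F, ind (P * Q = 1 ∧ Q * P = 1) = gl F ι := by
  have e := Fintype.equivOfCardEq h
  rw [← sum_sub (Equiv.refl ι) e.symm, gl]
  refine sum_congr rfl fun P _ => ?_
  rw [← sum_sub e.symm (Equiv.refl ι)]
  have h1 : ∀ Q : Matrix ι ι F, (P.submatrix (Equiv.refl ι) e.symm * Q.submatrix e.symm (Equiv.refl ι)
      = 1 ∧ Q.submatrix e.symm (Equiv.refl ι) * P.submatrix (Equiv.refl ι) e.symm = 1) ↔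
      (P * Q = 1 ∧ Q * P = 1) := fun Q => by
    rw [submatrix_mul_equiv, submatrix_mul_equiv]
    refine ⟨fun h => ⟨h.1, mul_eq_one_comm.1 h.1⟩, fun h => ⟨h.1, ?_⟩⟩
    rw [h.2, submatrix_one_equiv]
  simp only [h1, sum_inv]

variable (α β) in
/-- The induced function, not normalised. -/
noncomputable def Ind (x y : II F) (M : Matrix ι ι F) : ℂ :=
  ∑ P : Matrix ι (α ⊕ β) F, ∑ Q : Matrix (α ⊕ β) ι F,
    ind (P * Q = 1 ∧ Q * P = 1) * X0 x y (Q * M * P)

omit [DecidableEq F] in
theorem cl_Ind (x y : II F) : Cl (Ind α β x y (ι := ι)) := by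
  refine ⟨fun M hM => sum_eq_zero fun P _ => sum_eq_zero fun Q _ => ?_, fun A B M h => ?_⟩
  · by_cases h : P * Q = 1 ∧ Q * P = 1
    · rw [X0_sing x y fun h1 => hM ((isUnit_conj_iff h.2 h.1).1 h1.1), mul_zero]
    · rw [ind_neg h, zero_mul]
  · have h' := mul_eq_one_comm.1 h
    refine Fintype.sum_equiv ⟨(B * ·), (A * ·), fun v => by
      simp only [← Matrix.mul_assoc, h, Matrix.one_mul], fun v => by
      simp only [← Matrix.mul_assoc, h', Matrix.one_mul]⟩ _ _ fun P => ?_
    refine Fintype.sum_equiv ⟨(· * A), (· * B), fun v => by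
      simp only [Matrix.mul_assoc, h, Matrix.mul_one], fun v => by
      simp only [Matrix.mul_assoc, h', Matrix.mul_one]⟩ _ _ fun Q => ?_
    simp only [Equiv.coe_fn_mk, Matrix.mul_assoc]
    congr 1
    refine ind_congr (and_congr ⟨fun h1 => ?_, fun h1 => ?_⟩ ?_)
    · rw [← Matrix.mul_assoc P, h1, Matrix.one_mul, h']
    · rw [← conj_conj h (P * Q), Matrix.mul_assoc B, Matrix.mul_assoc P, h1, Matrix.mul_one, h]
    · rw [← Matrix.mul_assoc A, h, Matrix.one_mul]

theorem Ind_eq {x y : II F} (hx : Fintype.card α = x.1) (hy : Fintype.card β = y.1)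
    (h : Fintype.card ι = x.1 + y.1) (M : Matrix ι ι F) :
    Ind α β x y M = par F α β * ∑ z ∈ lev F (x.1 + y.1), cc x y z * ev z M := by
  refine mul_left_cancel₀ (gl_ne (F := F) (ι := ι)) ?_
  rw [(cl_Ind x y).expand, h, mul_sum, mul_sum]
  refine sum_congr rfl fun z _ => ?_
  have h1 := congrArg (starRingEnd ℂ) (cc_spec hx hy z)
  simp only [map_sum, map_mul, Complex.conj_conj, map_natCast, par, conj_ind] at h1
  simp only [Ind, sum_mul]
  rw [← sum_comm_cycle, ← sum_frames (α := α ⊕ β) (by simp [h, hx, hy]), sum_mul]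
  refine sum_congr rfl fun P _ => ?_
  rw [sum_mul]
  refine sum_congr rfl fun Q _ => ?_
  by_cases hP : P * Q = 1 ∧ Q * P = 1
  · rw [ind_pos hP, ← sum_mul, one_mul, ← mul_assoc, mul_comm (par F α β), par, ← h1]
    congr 1
    refine Fintype.sum_equiv ⟨(Q * · * P), (P * · * Q), conj_conj hP.1, conj_conj hP.2⟩ _ _
      fun N => ?_
    rw [Equiv.coe_fn_mk, ev_conj z hP.2 hP.1, one_mul, mul_comm]
  · simp [ind_neg hP]

end Pool.Agent.SemiProp.GLn
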