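import Pool.Agent.Lib.MP_c1c6b6_al.GL3

set_option autoImplicit false

open Finset Matrix

namespace Pool.Agent.SemiProp.GLn

variable {F : Type} [Field F] [Fintype F] {A B C E α β γ δ : Type} [Fintype A] [DecidableEq A]
  [Fintype B] [DecidableEq B] [Fintype C] [DecidableEq C] [Fintype E] [DecidableEq E]
  [Fintype α] [DecidableEq α] [Fintype β] [DecidableEq β] [Fintype γ] [DecidableEq γ] [Fintype δ]
  [DecidableEq δ]

theorem four (f1 : Matrix (A ⊕ B) (A ⊕ B) F → ℂ) (f2 : Matrix (C ⊕ E) (C ⊕ E) F → ℂ)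
    (g1 : Matrix (A ⊕ C) (A ⊕ C) F → ℂ) (g2 : Matrix (B ⊕ E) (B ⊕ E) F → ℂ) :
    ∑ s : Matrix ((A ⊕ B) ⊕ (C ⊕ E)) ((A ⊕ B) ⊕ (C ⊕ E)) F,
      ind (s.toBlocks₂₁ = 0) * (f1 s.toBlocks₁₁ * f2 s.toBlocks₂₂ *
        (ind ((s.submatrix (Equiv.sumSumSumComm A C B E)
          (Equiv.sumSumSumComm A C B E)).toBlocks₂₁ = 0) *
        (g1 (s.submatrix (Equiv.sumSumSumComm A C B E) (Equiv.sumSumSumComm A C B E)).toBlocks₁₁ *
        g2 (s.submatrix (Equiv.sumSumSumComm A C B E) (Equiv.sumSumSumComm A C B E)).toBlocks₂₂))) =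
    Fintype.card (Matrix A E F) * ∑ a, ∑ b, ∑ c, ∑ e,
      (∑ v, f1 (fromBlocks a v 0 b)) * (∑ v, f2 (fromBlocks c v 0 e)) *
        ((∑ v, g1 (fromBlocks a v 0 c)) * ∑ v, g2 (fromBlocks b v 0 e)) := by
  rw [sum_blocks]
  have h1 : ∀ (p : Matrix (A ⊕ B) (A ⊕ B) F) (r : Matrix (C ⊕ E) (C ⊕ E) F)
      (v : Matrix (A ⊕ B) (C ⊕ E) F),
      ind (((fromBlocks p v 0 r).submatrix (Equiv.sumSumSumComm A C B E)
        (Equiv.sumSumSumComm A C B E)).toBlocks₂₁ = 0) =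
      ind (p.toBlocks₂₁ = 0) * (ind (r.toBlocks₂₁ = 0) * ind (v.toBlocks₂₁ = 0)) := by
    intro p r v
    have h2 : ((fromBlocks p v 0 r).submatrix (Equiv.sumSumSumComm A C B E)
        (Equiv.sumSumSumComm A C B E)).toBlocks₂₁ =
        fromBlocks p.toBlocks₂₁ v.toBlocks₂₁ 0 r.toBlocks₂₁ := by
      ext (i | i) (j | j) <;> rfl
    rw [h2, ← ind_and, ← ind_and, ← fromBlocks_zero, fromBlocks_inj]
    exact ind_congr (by tauto)
  have h3 : ∀ (p : Matrix (A ⊕ B) (A ⊕ B) F) (r : Matrix (C ⊕ E) (C ⊕ E) F)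
      (v : Matrix (A ⊕ B) (C ⊕ E) F), p.toBlocks₂₁ = 0 → r.toBlocks₂₁ = 0 →
      ((fromBlocks p v 0 r).submatrix (Equiv.sumSumSumComm A C B E)
        (Equiv.sumSumSumComm A C B E)).toBlocks₁₁ =
        fromBlocks p.toBlocks₁₁ v.toBlocks₁₁ 0 r.toBlocks₁₁ ∧
      ((fromBlocks p v 0 r).submatrix (Equiv.sumSumSumComm A C B E)
        (Equiv.sumSumSumComm A C B E)).toBlocks₂₂ =
        fromBlocks p.toBlocks₂₂ v.toBlocks₂₂ 0 r.toBlocks₂₂ := by
    intro p r v _ _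
    constructor <;> ext (i | i) (j | j) <;> rfl
  have h4 : ∀ (p : Matrix (A ⊕ B) (A ⊕ B) F) (r : Matrix (C ⊕ E) (C ⊕ E) F)
      (v : Matrix (A ⊕ B) (C ⊕ E) F), f1 (fromBlocks p v 0 r).toBlocks₁₁ *
      f2 (fromBlocks p v 0 r).toBlocks₂₂ * (ind (((fromBlocks p v 0 r).submatrix
        (Equiv.sumSumSumComm A C B E) (Equiv.sumSumSumComm A C B E)).toBlocks₂₁ = 0) *
        (g1 ((fromBlocks p v 0 r).submatrix (Equiv.sumSumSumComm A C B E)
          (Equiv.sumSumSumComm A C B E)).toBlocks₁₁ *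
        g2 ((fromBlocks p v 0 r).submatrix (Equiv.sumSumSumComm A C B E)
          (Equiv.sumSumSumComm A C B E)).toBlocks₂₂)) =
      ind (p.toBlocks₂₁ = 0) * (ind (r.toBlocks₂₁ = 0) * (ind (v.toBlocks₂₁ = 0) *
        (f1 p * f2 r * (g1 (fromBlocks p.toBlocks₁₁ v.toBlocks₁₁ 0 r.toBlocks₁₁) *
          g2 (fromBlocks p.toBlocks₂₂ v.toBlocks₂₂ 0 r.toBlocks₂₂))))) := by
    intro p r v
    rw [h1]
    by_cases hp : p.toBlocks₂₁ = 0
    · by_cases hr : r.toBlocks₂₁ = 0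
      · rw [(h3 p r v hp hr).1, (h3 p r v hp hr).2, toBlocks_fromBlocks₁₁, toBlocks_fromBlocks₂₂]
        ring
      · simp [ind_neg hr]
    · simp [ind_neg hp]
  simp only [h4, ← mul_sum]
  simp only [sum_blocks, toBlocks_fromBlocks₁₁, toBlocks_fromBlocks₂₂, sum_const, card_univ,
    nsmul_eq_mul]
  simp only [mul_sum]
  refine sum_congr rfl fun a _ => sum_congr rfl fun b _ => ?_
  rw [← sum_comm_cycle]
  refine sum_congr rfl fun c _ => sum_congr rfl fun e _ => ?_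
  simp only [← mul_sum, ← sum_mul]

variable [DecidableEq F]

theorem pars (u w : II F → ℂ) : ∑ M : Matrix A A F,
    (∑ a ∈ lev F (Fintype.card A), u a * ev a M) *
      (starRingEnd ℂ) (∑ a ∈ lev F (Fintype.card A), w a * ev a M) =
    gl F A * ∑ a ∈ lev F (Fintype.card A), u a * (starRingEnd ℂ) (w a) := by
  simp only [map_sum, map_mul, sum_mul_sum]
  rw [← sum_comm_cycle, mul_sum]
  refine sum_congr rfl fun a ha => ?_
  have h1 : ∀ b, ∑ M : Matrix A A F, u a * ev a M * ((starRingEnd ℂ) (w b) *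
      (starRingEnd ℂ) (ev b M)) = u a * (starRingEnd ℂ) (w b) * if a = b then gl F A else 0 := by
    intro b
    rw [← ev_orth (mem_lev.1 ha).symm, mul_sum]
    exact sum_congr rfl fun M _ => by ring
  simp only [h1]
  rw [sum_eq_single_of_mem a ha fun b _ hb => by rw [if_neg (Ne.symm hb), mul_zero], if_pos rfl,
    mul_comm]

theorem four_orth (t1 t2 t3 t4 : II F → II F → ℕ) :
    ∑ g1 : Matrix A A F, ∑ g2 : Matrix B B F, ∑ g3 : Matrix C C F, ∑ g4 : Matrix E E F,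
      (∑ a ∈ lev F (Fintype.card A), ∑ b ∈ lev F (Fintype.card B), t1 a b * (ev a g1 * ev b g2)) *
      (∑ a ∈ lev F (Fintype.card C), ∑ b ∈ lev F (Fintype.card E), t2 a b * (ev a g3 * ev b g4)) *
      ((starRingEnd ℂ) (∑ a ∈ lev F (Fintype.card A), ∑ b ∈ lev F (Fintype.card C),
        t3 a b * (ev a g1 * ev b g3)) *
      (starRingEnd ℂ) (∑ a ∈ lev F (Fintype.card B), ∑ b ∈ lev F (Fintype.card E),
        t4 a b * (ev a g2 * ev b g4))) =
    gl F A * gl F B * gl F C * gl F E * ∑ a ∈ lev F (Fintype.card A), ∑ b ∈ lev F (Fintype.card B),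
      ∑ d ∈ lev F (Fintype.card C), ∑ e ∈ lev F (Fintype.card E),
        (t1 a b * t2 d e * t3 a d * t4 b e : ℂ) := by
  have h1 : ∀ (g2 : Matrix B B F) (g3 : Matrix C C F), ∑ g4 : Matrix E E F,
      (∑ a ∈ lev F (Fintype.card C), ∑ b ∈ lev F (Fintype.card E), t2 a b * (ev a g3 * ev b g4)) *
      (starRingEnd ℂ) (∑ a ∈ lev F (Fintype.card B), ∑ b ∈ lev F (Fintype.card E),
        t4 a b * (ev a g2 * ev b g4)) = gl F E * ∑ d ∈ lev F (Fintype.card C),
        (∑ e ∈ lev F (Fintype.card E), t2 d e * (starRingEnd ℂ)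
          (∑ b ∈ lev F (Fintype.card B), t4 b e * ev b g2)) * ev d g3 := by
    intro g2 g3
    simp only [sum_comm (t := lev F (Fintype.card E)), ← mul_assoc, ← sum_mul]
    rw [pars]
    simp only [sum_mul]
    rw [sum_comm]
    exact congrArg _ (sum_congr rfl fun _ _ => sum_congr rfl fun _ _ => by ring)
  have h2 : ∀ (g1 : Matrix A A F) (g2 : Matrix B B F), ∑ g3 : Matrix C C F,
      (∑ d ∈ lev F (Fintype.card C), (∑ e ∈ lev F (Fintype.card E), t2 d e * (starRingEnd ℂ)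
          (∑ b ∈ lev F (Fintype.card B), t4 b e * ev b g2)) * ev d g3) *
      (starRingEnd ℂ) (∑ a ∈ lev F (Fintype.card A), ∑ b ∈ lev F (Fintype.card C),
        t3 a b * (ev a g1 * ev b g3)) = gl F C * (starRingEnd ℂ) (∑ a ∈ lev F (Fintype.card A),
        (∑ b ∈ lev F (Fintype.card B), (∑ d ∈ lev F (Fintype.card C),
          ∑ e ∈ lev F (Fintype.card E), (t2 d e * t3 a d * t4 b e : ℂ)) * ev b g2) * ev a g1) := by
    intro g1 g2
    simp only [sum_comm (t := lev F (Fintype.card C)), ← mul_assoc, ← sum_mul]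
    rw [pars]
    simp only [map_sum, map_mul, map_natCast, sum_mul, mul_sum]
    rw [sum_comm]
    refine sum_congr rfl fun a _ => ?_
    rw [sum_comm_cycle]
    exact sum_congr rfl fun _ _ => sum_congr rfl fun _ _ => sum_congr rfl fun _ _ => by ring
  have h3 : ∀ (x y z w : ℂ), x * y * (z * w) = x * z * (y * w) := fun x y z w => by ring
  have h4 : ∀ (x y z w : ℂ), x * y * (z * w) = x * z * (w * y) := fun x y z w => by ring
  simp only [h3 _ (∑ a ∈ lev F (Fintype.card C), _), ← mul_sum, h1]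
  simp only [h4 _ _ (gl F E), ← mul_sum, h2]
  have h5 : ∀ (x y z w : ℂ), x * y * (z * w) = y * z * (x * w) := fun x y z w => by ring
  have h6 : ∀ (g1 : Matrix A A F) (g2 : Matrix B B F), ∑ a ∈ lev F (Fintype.card A),
      ∑ b ∈ lev F (Fintype.card B), (t1 a b : ℂ) * (ev a g1 * ev b g2) =
      ∑ a ∈ lev F (Fintype.card A), (∑ b ∈ lev F (Fintype.card B), t1 a b * ev b g2) * ev a g1 :=
    fun g1 g2 => sum_congr rfl fun a _ => by
      rw [sum_mul]
      exact sum_congr rfl fun b _ => by ring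
  simp only [h5 _ (gl F E) (gl F C), ← mul_sum, h6]
  rw [sum_comm (s := univ) (t := univ)]
  simp only [pars, ← mul_sum]
  rw [sum_comm (s := univ)]
  simp only [pars, ← mul_sum]
  simp only [map_sum, map_mul, map_natCast, mul_sum]
  exact sum_congr rfl fun _ _ => sum_congr rfl fun _ _ => sum_congr rfl fun _ _ =>
    sum_congr rfl fun _ _ => by ring

end Pool.Agent.SemiProp.GLn
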