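import Mathlib

set_option autoImplicit false

open Finset

namespace Pool.Agent.SemiProp.GLn

/-- Structure constants of a positive self-adjoint Hopf algebra with basis `I`. -/
structure PSH (I : Type) [DecidableEq I] where
  deg : I → ℕ
  lev : ℕ → Finset I
  mem_lev : ∀ n x, x ∈ lev n ↔ deg x = n
  o : I
  deg_o : ∀ x, deg x = 0 ↔ x = o
  c : I → I → I → ℕ
  c_deg : ∀ x y z, c x y z ≠ 0 → deg z = deg x + deg y
  c_left : ∀ y z, c o y z = if y = z then 1 else 0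
  c_right : ∀ y z, c y o z = if y = z then 1 else 0
  assoc : ∀ x y t z, ∑ w ∈ lev (deg x + deg y), c x y w * c w t z =
    ∑ w ∈ lev (deg y + deg t), c y t w * c x w z
  mackey : ∀ x₁ x₂ y₁ y₂, deg x₁ + deg x₂ = deg y₁ + deg y₂ →
    ∑ z ∈ lev (deg x₁ + deg x₂), c x₁ x₂ z * c y₁ y₂ z =
      ∑ i ∈ range (deg x₁ + 1), ∑ a ∈ lev i, ∑ b ∈ lev (deg x₁ - i), ∑ d ∈ lev (deg y₁ - i),
        ∑ e ∈ lev (deg x₂ - (deg y₁ - i)), c a b x₁ * c d e x₂ * c a d y₁ * c b e y₂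

variable {I : Type} [DecidableEq I] (S : PSH I)

/-- Cuspidal basis elements. -/
def PSH.Cusp (x : I) : Prop := x ≠ S.o ∧ ∀ a b, S.c a b x ≠ 0 → a = S.o ∨ b = S.o

/-- The coefficient of `b` in the `k`-th derivative of `x`. -/
noncomputable def PSH.der (η : I → ℂ) (k : ℕ) (x b : I) : ℂ := ∑ a ∈ S.lev k, S.c a b x * η a

/-- The highest non-zero derivative of a basis element is a basis element up to sign. -/
def PSH.HD (η : I → ℂ) : Prop :=
  ∀ x, ∃ k y, ∃ ε : ℂ, (ε = 1 ∨ ε = -1) ∧ (x ≠ S.o → 0 < k) ∧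
    (∀ b, S.der η k x b = if b = y then ε else 0) ∧ ∀ j, k < j → ∀ b, S.der η j x b = 0

end Pool.Agent.SemiProp.GLn
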