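import Pool.Agent.Lib.MP_c1c6b6_al.GL0

set_option autoImplicit false

open Finset Matrix

namespace Pool.Agent.SemiProp.GLn

section lin

variable {F U V X : Type} [Field F] [AddCommGroup U] [Module F U] [AddCommGroup V] [Module F V]
  [AddCommGroup X] [Module F X]

theorem gm24_same_ker [FiniteDimensional F V] (f g : U →ₗ[F] V)
    (h : LinearMap.ker f = LinearMap.ker g) : ∃ A : V ≃ₗ[F] V, ∀ x, A (f x) = g x := by
  obtain ⟨A, hA⟩ := Submodule.exists_linearEquiv_restrict_eq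
    (f.quotKerEquivRange.symm ≪≫ₗ (Submodule.quotEquivOfEq _ _ h ≪≫ₗ g.quotKerEquivRange))
  refine ⟨A, fun x => ?_⟩
  have h1 := hA ⟨f x, LinearMap.mem_range_self f x⟩
  rw [LinearEquiv.trans_apply, LinearMap.quotKerEquivRange_symm_apply_image] at h1
  exact h1.symm

theorem gm24_factor (M : U →ₗ[F] X) (h : U →ₗ[F] V) (hle : LinearMap.ker M ≤ LinearMap.ker h) :
    ∃ b : X →ₗ[F] V, ∀ x, b (M x) = h x := by
  obtain ⟨b, hb⟩ := LinearMap.exists_extend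
    ((LinearMap.ker M).liftQ h hle ∘ₗ M.quotKerEquivRange.symm.toLinearMap)
  refine ⟨b, fun x => ?_⟩
  have h1 := LinearMap.congr_fun hb ⟨M x, LinearMap.mem_range_self M x⟩
  rw [LinearMap.comp_apply, LinearMap.comp_apply, LinearEquiv.coe_coe,
    LinearMap.quotKerEquivRange_symm_apply_image] at h1
  exact h1

end lin

variable {F : Type} [Field F] {α β γ δ : Type} [Fintype α] [DecidableEq α] [Fintype β]
  [DecidableEq β] [Fintype γ] [DecidableEq γ] [Fintype δ] [DecidableEq δ]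

omit [Fintype α] [DecidableEq α] [Fintype β] [DecidableEq β] [DecidableEq γ] [DecidableEq δ] in
theorem gm24_blk (M : Matrix (α ⊕ β) (γ ⊕ δ) F) (x : γ → F) :
    M *ᵥ Sum.elim x 0 = Sum.elim (M.toBlocks₁₁ *ᵥ x) (M.toBlocks₂₁ *ᵥ x) := by
  funext i
  cases i <;> simp [mulVec, dotProduct, Fintype.sum_sum_type, toBlocks₁₁, toBlocks₂₁]

omit [DecidableEq α] [DecidableEq β] in
theorem gm24_inj {P : Matrix (α ⊕ β) (γ ⊕ δ) F} {Q : Matrix (γ ⊕ δ) (α ⊕ β) F} (h : Q * P = 1)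
    {x : γ → F} (h1 : P.toBlocks₁₁ *ᵥ x = 0) (h2 : P.toBlocks₂₁ *ᵥ x = 0) : x = 0 := by
  have h3 : P *ᵥ Sum.elim x 0 = 0 := by
    rw [gm24_blk, h1, h2]
    funext i
    cases i <;> rfl
  have h4 : Q *ᵥ (P *ᵥ Sum.elim x 0) = 0 := by rw [h3, mulVec_zero]
  rw [mulVec_mulVec, h, one_mulVec] at h4
  funext i
  exact congrFun h4 (Sum.inl i)

theorem rank_bound {P : Matrix (α ⊕ β) (γ ⊕ δ) F} {Q : Matrix (γ ⊕ δ) (α ⊕ β) F} (h : Q * P = 1) :
    Fintype.card γ ≤ Fintype.card α + P.toBlocks₂₁.rank := by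
  have h1 := LinearMap.finrank_le_finrank_of_injective
    (f := P.toBlocks₁₁.mulVecLin.prod P.toBlocks₂₁.mulVecLin.rangeRestrict)
    ((injective_iff_map_eq_zero _).2 fun x hx =>
      gm24_inj h (congrArg Prod.fst hx) (congrArg (fun y => (y.2 : β → F)) hx))
  rw [Module.finrank_prod, Module.finrank_fintype_fun_eq_card,
    Module.finrank_fintype_fun_eq_card] at h1
  exact h1

theorem gm24_unit (a : (α → F) ≃ₗ[F] (α → F)) : IsUnit (LinearMap.toMatrix' a.toLinearMap) := by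
  refine IsUnit.of_mul_eq_one (LinearMap.toMatrix' a.symm.toLinearMap) ?_
  rw [← LinearMap.toMatrix'_comp, LinearEquiv.comp_symm, LinearMap.toMatrix'_id]

theorem gm24_inv {s : Matrix (α ⊕ β) (α ⊕ β) F} (h : IsUnit s) : s * s⁻¹ = 1 :=
  mul_nonsing_inv s ((isUnit_iff_isUnit_det s).1 h)

theorem gm24_inv' {s : Matrix (α ⊕ β) (α ⊕ β) F} (h : IsUnit s) : s⁻¹ * s = 1 :=
  nonsing_inv_mul s ((isUnit_iff_isUnit_det s).1 h)

theorem same_rank {P W : Matrix (α ⊕ β) (γ ⊕ δ) F} {Q W' : Matrix (γ ⊕ δ) (α ⊕ β) F}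
    (h1 : P * Q = 1) (h2 : Q * P = 1) (h3 : W * W' = 1) (h4 : W' * W = 1)
    (h : P.toBlocks₂₁.rank = W.toBlocks₂₁.rank) :
    ∃ (p : Matrix (α ⊕ β) (α ⊕ β) F) (r : Matrix (γ ⊕ δ) (γ ⊕ δ) F),
      Par p ∧ Par r ∧ P = p * W * r := by
  have hk : Module.finrank F (LinearMap.ker P.toBlocks₂₁.mulVecLin) =
      Module.finrank F (LinearMap.ker W.toBlocks₂₁.mulVecLin) := by
    have a1 := P.toBlocks₂₁.mulVecLin.finrank_range_add_finrank_ker
    have a2 := W.toBlocks₂₁.mulVecLin.finrank_range_add_finrank_ker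
    unfold Matrix.rank at h
    omega
  obtain ⟨B, hB⟩ := Submodule.exists_linearEquiv_restrict_eq (LinearEquiv.ofFinrankEq _ _ hk)
  have hZ : LinearMap.ker (W.toBlocks₂₁.mulVecLin ∘ₗ B.toLinearMap) =
      LinearMap.ker P.toBlocks₂₁.mulVecLin := by
    ext x
    constructor
    · intro hx
      obtain ⟨y, hy⟩ := (LinearEquiv.ofFinrankEq _ _ hk).surjective ⟨B x, hx⟩
      have h5 : B y = B x := (hB y).symm.trans (congrArg Subtype.val hy)
      exact B.injective h5 ▸ y.2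
    · intro hx
      have h5 := (LinearEquiv.ofFinrankEq _ _ hk ⟨x, hx⟩).2
      rw [hB] at h5
      exact h5
  obtain ⟨A, hA⟩ := gm24_same_ker _ _ hZ
  obtain ⟨a, ha⟩ := gm24_same_ker
    (W.toBlocks₁₁.mulVecLin ∘ₗ B.toLinearMap ∘ₗ (LinearMap.ker P.toBlocks₂₁.mulVecLin).subtype)
    (P.toBlocks₁₁.mulVecLin ∘ₗ (LinearMap.ker P.toBlocks₂₁.mulVecLin).subtype) (by
      ext z
      have z2 : P.toBlocks₂₁ *ᵥ z.1 = 0 := z.2
      have z3 : W.toBlocks₂₁ *ᵥ B z.1 = 0 := hZ.ge z.2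
      constructor
      · intro hz
        have h5 : z.1 = 0 := B.map_eq_zero_iff.1 (gm24_inj h4 hz z3)
        change P.toBlocks₁₁ *ᵥ z.1 = 0
        rw [h5, mulVec_zero]
      · intro hz
        have h5 : z.1 = 0 := gm24_inj h2 hz z2
        change W.toBlocks₁₁ *ᵥ B z.1 = 0
        rw [h5, map_zero, mulVec_zero])
  obtain ⟨b, hb⟩ := gm24_factor (W.toBlocks₂₁.mulVecLin ∘ₗ B.toLinearMap)
    (P.toBlocks₁₁.mulVecLin - a.toLinearMap ∘ₗ W.toBlocks₁₁.mulVecLin ∘ₗ B.toLinearMap)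
    (fun x hx => sub_eq_zero.2 (ha ⟨x, hZ.le hx⟩).symm)
  obtain ⟨p, hp⟩ : ∃ p : Matrix (α ⊕ β) (α ⊕ β) F, p = fromBlocks
    (LinearMap.toMatrix' a.toLinearMap) (LinearMap.toMatrix' b) 0
    (LinearMap.toMatrix' A.toLinearMap) := ⟨_, rfl⟩
  have hu : IsUnit p := by
    rw [hp]
    exact isUnit_fromBlocks_zero₂₁.2 ⟨gm24_unit a, gm24_unit A⟩
  have key : ∀ x, p *ᵥ (W *ᵥ Sum.elim (B x) 0) = P *ᵥ Sum.elim x 0 := fun x => by
    rw [gm24_blk, gm24_blk, hp, fromBlocks_mulVec]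
    simp only [Sum.elim_comp_inl, Sum.elim_comp_inr, LinearMap.toMatrix'_mulVec, zero_mulVec,
      zero_add]
    congr 1
    · exact add_eq_of_eq_sub' (hb x)
    · exact hA x
  refine ⟨p, W' * p⁻¹ * P, ⟨hu, by rw [hp, toBlocks_fromBlocks₂₁]⟩, ⟨?_, ?_⟩, ?_⟩
  · refine IsUnit.of_mul_eq_one (Q * p * W) ?_
    calc W' * p⁻¹ * P * (Q * p * W) = W' * (p⁻¹ * (P * Q) * p) * W := by
          simp only [Matrix.mul_assoc]
      _ = 1 := by rw [h1, Matrix.mul_one, gm24_inv' hu, Matrix.mul_one, h4]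
  · refine ext_of_mulVec_single fun i => ?_
    have h5 : (W' * p⁻¹ * P) *ᵥ Sum.elim (Pi.single i 1) 0 = Sum.elim (B (Pi.single i 1)) 0 := by
      rw [← mulVec_mulVec, ← key, mulVec_mulVec, mulVec_mulVec, Matrix.mul_assoc W', gm24_inv' hu,
        Matrix.mul_one, h4, one_mulVec]
    rw [gm24_blk] at h5
    rw [zero_mulVec]
    funext j
    exact congrFun h5 (Sum.inr j)
  · calc P = p * (W * W') * p⁻¹ * P := by rw [h3, Matrix.mul_one, gm24_inv hu, Matrix.one_mul]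
      _ = _ := by simp only [Matrix.mul_assoc]

theorem rank_perm {A B C E : Type} [Fintype A] [DecidableEq A] [Fintype B] [DecidableEq B]
    [Fintype C] [DecidableEq C] [Fintype E] [DecidableEq E] (ea : A ⊕ B ≃ α) (eb : C ⊕ E ≃ β)
    (ec : A ⊕ C ≃ γ) (ed : B ⊕ E ≃ δ) :
    ((1 : Matrix (α ⊕ β) (α ⊕ β) F).submatrix id ((ec.sumCongr ed).symm.trans
      ((Equiv.sumSumSumComm A C B E).trans (ea.sumCongr eb)))).toBlocks₂₁.rank =
      Fintype.card C := by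
  rw [← rank_submatrix _ eb ec]
  have h1 : ((1 : Matrix (α ⊕ β) (α ⊕ β) F).submatrix id ((ec.sumCongr ed).symm.trans
      ((Equiv.sumSumSumComm A C B E).trans (ea.sumCongr eb)))).toBlocks₂₁.submatrix eb ec =
      fromRows (1 : Matrix C C F) (0 : Matrix E C F) *
        fromCols (0 : Matrix C A F) (1 : Matrix C C F) := by
    rw [fromRows_mul_fromCols]
    ext i j
    cases i <;> cases j <;> simp [toBlocks₂₁, one_apply]
  rw [h1]
  refine le_antisymm ((rank_mul_le_left _ _).trans (rank_le_card_width _)) ?_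
  have h2 : fromCols (1 : Matrix C C F) (0 : Matrix C E F) *
      (fromRows (1 : Matrix C C F) (0 : Matrix E C F) *
        fromCols (0 : Matrix C A F) (1 : Matrix C C F)) *
      fromRows (0 : Matrix A C F) (1 : Matrix C C F) = (1 : Matrix C C F) := by
    rw [← Matrix.mul_assoc, Matrix.mul_assoc, fromCols_mul_fromRows, fromCols_mul_fromRows]
    simp
  calc Fintype.card C = (1 : Matrix C C F).rank := rank_one.symm
    _ ≤ _ := by
      refine (congrArg Matrix.rank h2).ge.trans ?_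
      exact (rank_mul_le_left _ _).trans (rank_mul_le_right _ _)

theorem gm24_par_iff {s : Matrix (α ⊕ β) (α ⊕ β) F} : Par s ↔ ∃ a b d, IsUnit a ∧ IsUnit d ∧
    s = fromBlocks a b 0 d := by
  constructor
  · rintro ⟨h1, h2⟩
    have h3 := (fromBlocks_toBlocks s).symm
    rw [h2] at h3
    rw [h3] at h1
    exact ⟨_, _, _, (isUnit_fromBlocks_zero₂₁.1 h1).1, (isUnit_fromBlocks_zero₂₁.1 h1).2, h3⟩
  · rintro ⟨a, b, d, ha, hd, rfl⟩
    exact ⟨isUnit_fromBlocks_zero₂₁.2 ⟨ha, hd⟩, toBlocks_fromBlocks₂₁ _ _ _ _⟩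

theorem gm24_par_mul {s t : Matrix (α ⊕ β) (α ⊕ β) F} (hs : Par s) (ht : Par t) : Par (s * t) := by
  obtain ⟨a, b, d, ha, hd, rfl⟩ := gm24_par_iff.1 hs
  obtain ⟨a', b', d', ha', hd', rfl⟩ := gm24_par_iff.1 ht
  refine gm24_par_iff.2 ⟨a * a', a * b' + b * d', d * d', ha.mul ha', hd.mul hd', ?_⟩
  simp [fromBlocks_multiply]

theorem gm24_par_inv {s t : Matrix (α ⊕ β) (α ⊕ β) F} (hs : Par s) (h : s * t = 1) : Par t := by
  refine ⟨IsUnit.of_mul_eq_one_right s h, ?_⟩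
  obtain ⟨a, b, d, -, hd, rfl⟩ := gm24_par_iff.1 hs
  rw [← fromBlocks_toBlocks t, fromBlocks_multiply, ← fromBlocks_one, fromBlocks_inj] at h
  have h1 := h.2.2.1
  rw [Matrix.zero_mul, zero_add] at h1
  rw [← Matrix.one_mul t.toBlocks₂₁, ← nonsing_inv_mul d ((isUnit_iff_isUnit_det d).1 hd),
    Matrix.mul_assoc, h1, Matrix.mul_zero]

theorem gm24_rank {p : Matrix (α ⊕ β) (α ⊕ β) F} {r : Matrix (γ ⊕ δ) (γ ⊕ δ) F} (hp : Par p)
    (hr : Par r) (W : Matrix (α ⊕ β) (γ ⊕ δ) F) :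
    (p * W * r).toBlocks₂₁.rank = W.toBlocks₂₁.rank := by
  obtain ⟨a, b, d, -, hd, rfl⟩ := gm24_par_iff.1 hp
  obtain ⟨a', b', d', ha', -, rfl⟩ := gm24_par_iff.1 hr
  conv_lhs => rw [← fromBlocks_toBlocks W]
  rw [fromBlocks_multiply, fromBlocks_multiply, toBlocks_fromBlocks₂₁, Matrix.zero_mul, zero_add,
    Matrix.mul_zero, add_zero,
    rank_mul_eq_left_of_isUnit_det _ _ ((isUnit_iff_isUnit_det a').1 ha'),
    rank_mul_eq_right_of_isUnit_det _ _ ((isUnit_iff_isUnit_det d).1 hd)]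

theorem gm24_frame {p : Matrix (α ⊕ β) (α ⊕ β) F} {r : Matrix (γ ⊕ δ) (γ ⊕ δ) F} (hp : Par p)
    (hr : Par r) {W : Matrix (α ⊕ β) (γ ⊕ δ) F} {W' : Matrix (γ ⊕ δ) (α ⊕ β) F} (h3 : W * W' = 1)
    (h4 : W' * W = 1) :
    p * W * r * (r⁻¹ * W' * p⁻¹) = 1 ∧ r⁻¹ * W' * p⁻¹ * (p * W * r) = 1 := by
  constructor
  · calc _ = p * (W * (r * r⁻¹) * W') * p⁻¹ := by simp only [Matrix.mul_assoc]
      _ = 1 := by rw [gm24_inv hr.1, Matrix.mul_one, h3, Matrix.mul_one, gm24_inv hp.1]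
  · calc _ = r⁻¹ * (W' * (p⁻¹ * p) * W) * r := by simp only [Matrix.mul_assoc]
      _ = 1 := by rw [gm24_inv' hp.1, Matrix.mul_one, h4, Matrix.mul_one, gm24_inv' hr.1]

theorem gm24_fibre {p s : Matrix (α ⊕ β) (α ⊕ β) F} {r t : Matrix (γ ⊕ δ) (γ ⊕ δ) F} (hp : Par p)
    (hr : Par r) {W : Matrix (α ⊕ β) (γ ⊕ δ) F} {W' Q : Matrix (γ ⊕ δ) (α ⊕ β) F}
    (h3 : W * W' = 1) (h4 : W' * W = 1) (hQ : Q * (p * W * r) = 1) :
    (Par (p * s) ∧ Par t ∧ p * W * r = p * s * W * t ∧ Q = t⁻¹ * W' * (p * s)⁻¹) ↔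
      (Par s ∧ (W' * s * W).toBlocks₂₁ = 0) ∧ t = W' * s⁻¹ * W * r := by
  have hc : ∀ s : Matrix (α ⊕ β) (α ⊕ β) F, IsUnit s →
      W' * s * W * (W' * s⁻¹ * W) = 1 ∧ W' * s⁻¹ * W * (W' * s * W) = 1 := fun s hs => by
    constructor
    · calc _ = W' * (s * (W * W') * s⁻¹) * W := by simp only [Matrix.mul_assoc]
        _ = 1 := by rw [h3, Matrix.mul_one, gm24_inv hs, Matrix.mul_one, h4]
    · calc _ = W' * (s⁻¹ * (W * W') * s) * W := by simp only [Matrix.mul_assoc]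
        _ = 1 := by rw [h3, Matrix.mul_one, gm24_inv' hs, Matrix.mul_one, h4]
  constructor
  · rintro ⟨a1, a2, a3, -⟩
    have hs : Par s := by
      have a4 := gm24_par_mul (gm24_par_inv hp (gm24_inv hp.1)) a1
      rwa [← Matrix.mul_assoc, gm24_inv' hp.1, Matrix.one_mul] at a4
    have a5 : r = W' * s * W * t := by
      calc r = W' * (p⁻¹ * p) * W * r := by rw [gm24_inv' hp.1, Matrix.mul_one, h4, Matrix.one_mul]
        _ = W' * p⁻¹ * (p * W * r) := by simp only [Matrix.mul_assoc]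
        _ = W' * (p⁻¹ * p) * s * W * t := by
          rw [a3]
          simp only [Matrix.mul_assoc]
        _ = _ := by rw [gm24_inv' hp.1, Matrix.mul_one]
    refine ⟨⟨hs, ?_⟩, ?_⟩
    · have a6 := gm24_par_mul hr (gm24_par_inv a2 (gm24_inv a2.1))
      rw [a5, Matrix.mul_assoc, gm24_inv a2.1, Matrix.mul_one] at a6
      exact a6.2
    · rw [a5, ← Matrix.mul_assoc, (hc s hs.1).2, Matrix.one_mul]
  · rintro ⟨⟨hs, a1⟩, rfl⟩
    have a2 : Par (W' * s⁻¹ * W * r) := gm24_par_mul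
      (gm24_par_inv ⟨IsUnit.of_mul_eq_one _ (hc s hs.1).1, a1⟩ (hc s hs.1).1) hr
    have a3 : p * W * r = p * s * W * (W' * s⁻¹ * W * r) := by
      calc _ = p * (s * (W * W') * s⁻¹) * W * r := by
            rw [h3, Matrix.mul_one, gm24_inv hs.1, Matrix.mul_one]
        _ = _ := by simp only [Matrix.mul_assoc]
    refine ⟨gm24_par_mul hp hs, a2, a3, ?_⟩
    have a4 := (gm24_frame (gm24_par_mul hp hs) a2 h3 h4).1
    rw [← a3] at a4
    rw [← Matrix.mul_one Q, ← a4, ← Matrix.mul_assoc, hQ, Matrix.one_mul]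

variable [Fintype F] [DecidableEq F]

theorem gm24_sum_eq {X : Type} [Fintype X] (p : Prop) (x : X) :
    ∑ y, ind (p ∧ y = x) = ind p := by
  rw [Fintype.sum_eq_single x fun y hy => ind_neg fun h => hy h.2]
  exact ind_congr (and_iff_left rfl)

theorem gm24_count {W : Matrix (α ⊕ β) (γ ⊕ δ) F} {W' : Matrix (γ ⊕ δ) (α ⊕ β) F}
    (h3 : W * W' = 1) (h4 : W' * W = 1) (P : Matrix (α ⊕ β) (γ ⊕ δ) F)
    (Q : Matrix (γ ⊕ δ) (α ⊕ β) F) :
    ∑ p : Matrix (α ⊕ β) (α ⊕ β) F, ∑ r : Matrix (γ ⊕ δ) (γ ⊕ δ) F,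
      ind (Par p ∧ Par r ∧ P = p * W * r ∧ Q = r⁻¹ * W' * p⁻¹) =
    ind (P * Q = 1 ∧ Q * P = 1 ∧ P.toBlocks₂₁.rank = W.toBlocks₂₁.rank) *
      ∑ s : Matrix (α ⊕ β) (α ⊕ β) F, ind (Par s ∧ (W' * s * W).toBlocks₂₁ = 0) := by
  by_cases h : P * Q = 1 ∧ Q * P = 1 ∧ P.toBlocks₂₁.rank = W.toBlocks₂₁.rank
  · rw [ind_pos h, one_mul]
    obtain ⟨p, r, hp, hr, rfl⟩ := same_rank h.1 h.2.1 h3 h4 h.2.2
    rw [← Equiv.sum_comp (Units.mulLeft hp.1.unit)]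
    refine sum_congr rfl fun s _ => ?_
    rw [← gm24_sum_eq (Par s ∧ (W' * s * W).toBlocks₂₁ = 0) (W' * s⁻¹ * W * r)]
    exact sum_congr rfl fun t _ => ind_congr (gm24_fibre hp hr h3 h4 h.2.1)
  · rw [ind_neg h, zero_mul]
    refine sum_eq_zero fun p _ => sum_eq_zero fun r _ => ind_neg ?_
    rintro ⟨hp, hr, rfl, rfl⟩
    exact h ⟨(gm24_frame hp hr h3 h4).1, (gm24_frame hp hr h3 h4).2, gm24_rank hp hr W⟩

theorem frames_sum (Φ : Matrix (α ⊕ β) (γ ⊕ δ) F → Matrix (γ ⊕ δ) (α ⊕ β) F → ℂ)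
    (hΦ : ∀ P Q (p p' : Matrix (α ⊕ β) (α ⊕ β) F) (r r' : Matrix (γ ⊕ δ) (γ ⊕ δ) F),
      p * p' = 1 → p.toBlocks₂₁ = 0 → r * r' = 1 → r.toBlocks₂₁ = 0 →
      Φ (p * P * r) (r' * Q * p') = Φ P Q)
    {W : Matrix (α ⊕ β) (γ ⊕ δ) F} {W' : Matrix (γ ⊕ δ) (α ⊕ β) F} (h3 : W * W' = 1)
    (h4 : W' * W = 1) :
    (∑ P, ∑ Q, ind (P * Q = 1 ∧ Q * P = 1 ∧ P.toBlocks₂₁.rank = W.toBlocks₂₁.rank) * Φ P Q) *
      ∑ s : Matrix (α ⊕ β) (α ⊕ β) F, ind (Par s ∧ (W' * s * W).toBlocks₂₁ = 0) =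
    (∑ s : Matrix (α ⊕ β) (α ⊕ β) F, ind (Par s)) *
      (∑ s : Matrix (γ ⊕ δ) (γ ⊕ δ) F, ind (Par s)) * Φ W W' := by
  have h1 : ∀ (p : Matrix (α ⊕ β) (α ⊕ β) F) (r : Matrix (γ ⊕ δ) (γ ⊕ δ) F),
      ∑ P, ∑ Q, ind (Par p ∧ Par r ∧ P = p * W * r ∧ Q = r⁻¹ * W' * p⁻¹) * Φ P Q =
      ind (Par p) * ind (Par r) * Φ W W' := fun p r => by
    rw [Fintype.sum_eq_single (p * W * r) fun P hP => sum_eq_zero fun Q _ => by
        rw [ind_neg fun h => hP h.2.2.1, zero_mul],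
      Fintype.sum_eq_single (r⁻¹ * W' * p⁻¹) fun Q hQ => by
        rw [ind_neg fun h => hQ h.2.2.2, zero_mul], ← ind_and]
    by_cases h : Par p ∧ Par r
    · rw [ind_pos h, ind_pos ⟨h.1, h.2, rfl, rfl⟩,
        hΦ W W' p p⁻¹ r r⁻¹ (gm24_inv h.1.1) h.1.2 (gm24_inv h.2.1) h.2.2]
    · rw [ind_neg h, ind_neg fun h' => h ⟨h'.1, h'.2.1⟩, zero_mul, zero_mul]
  calc _ = ∑ P, ∑ Q, ∑ p : Matrix (α ⊕ β) (α ⊕ β) F, ∑ r : Matrix (γ ⊕ δ) (γ ⊕ δ) F,
        ind (Par p ∧ Par r ∧ P = p * W * r ∧ Q = r⁻¹ * W' * p⁻¹) * Φ P Q := by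
        rw [sum_mul]
        refine sum_congr rfl fun P _ => ?_
        rw [sum_mul]
        refine sum_congr rfl fun Q _ => ?_
        rw [mul_right_comm, ← gm24_count h3 h4, sum_mul]
        exact sum_congr rfl fun p _ => sum_mul _ _ _
    _ = ∑ P, ∑ p : Matrix (α ⊕ β) (α ⊕ β) F, ∑ r : Matrix (γ ⊕ δ) (γ ⊕ δ) F, ∑ Q,
        ind (Par p ∧ Par r ∧ P = p * W * r ∧ Q = r⁻¹ * W' * p⁻¹) * Φ P Q := by
        refine sum_congr rfl fun P _ => ?_
        rw [sum_comm]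
        exact sum_congr rfl fun p _ => sum_comm
    _ = ∑ p : Matrix (α ⊕ β) (α ⊕ β) F, ∑ r : Matrix (γ ⊕ δ) (γ ⊕ δ) F,
        ind (Par p) * ind (Par r) * Φ W W' := by
        rw [sum_comm]
        refine sum_congr rfl fun p _ => ?_
        rw [sum_comm]
        exact sum_congr rfl fun r _ => h1 p r
    _ = _ := by
        rw [sum_mul_sum, sum_mul]
        exact sum_congr rfl fun p _ => (sum_mul _ _ _).symm

end Pool.Agent.SemiProp.GLn
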