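import Pool.Agent.Lib.MP_c1c6b6_al.GL4
import Pool.Agent.Lib.MP_c1c6b6_al.GLM
import Pool.Agent.Lib.MP_c1c6b6_al.GLA0

set_option autoImplicit false

open Finset Matrix

namespace Pool.Agent.SemiProp.GLn

variable {F : Type} [Field F] [Fintype F] {A B C E α β γ δ : Type} [Fintype A] [DecidableEq A]
  [Fintype B] [DecidableEq B] [Fintype C] [DecidableEq C] [Fintype E] [DecidableEq E]
  [Fintype α] [DecidableEq α] [Fintype β] [DecidableEq β] [Fintype γ] [DecidableEq γ] [Fintype δ]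
  [DecidableEq δ]

variable [DecidableEq F]

/-- The pairing of two inflated functions along a frame. -/
noncomputable def Phi (x₁ x₂ y₁ y₂ : II F) (P : Matrix (α ⊕ β) (γ ⊕ δ) F)
    (Q : Matrix (γ ⊕ δ) (α ⊕ β) F) : ℂ :=
  ∑ s : Matrix (α ⊕ β) (α ⊕ β) F, X0 x₁ x₂ s * (starRingEnd ℂ) (X0 y₁ y₂ (Q * s * P))

omit [DecidableEq F] in
theorem Phi_inv (x₁ x₂ y₁ y₂ : II F) (P : Matrix (α ⊕ β) (γ ⊕ δ) F) (Q : Matrix (γ ⊕ δ) (α ⊕ β) F)
    (p p' : Matrix (α ⊕ β) (α ⊕ β) F) (r r' : Matrix (γ ⊕ δ) (γ ⊕ δ) F) (hp : p * p' = 1)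
    (hp0 : p.toBlocks₂₁ = 0) (hr : r * r' = 1) (hr0 : r.toBlocks₂₁ = 0) :
    Phi x₁ x₂ y₁ y₂ (p * P * r) (r' * Q * p') = Phi x₁ x₂ y₁ y₂ P Q := by
  have hp' := mul_eq_one_comm.1 hp
  refine Fintype.sum_equiv ⟨(p' * · * p), (p * · * p'), conj_conj hp, conj_conj hp'⟩ _ _ fun s => ?_
  rw [Equiv.coe_fn_mk, X0_conj _ _ hp' (inv_blocks hp hp0).1,
    ← X0_conj y₁ y₂ (mul_eq_one_comm.1 hr) (inv_blocks hr hr0).1 (Q * (p' * s * p) * P)]
  simp only [Matrix.mul_assoc]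

theorem mackey_term (x₁ x₂ y₁ y₂ : II F) (ea : A ⊕ B ≃ α) (eb : C ⊕ E ≃ β) (ec : A ⊕ C ≃ γ)
    (ed : B ⊕ E ≃ δ) :
    ∑ P : Matrix (α ⊕ β) (γ ⊕ δ) F, ∑ Q : Matrix (γ ⊕ δ) (α ⊕ β) F, ind (P * Q = 1 ∧ Q * P = 1 ∧
      P.toBlocks₂₁.rank = Fintype.card C) * Phi x₁ x₂ y₁ y₂ P Q =
    par F α β * par F γ δ * ∑ a ∈ lev F (Fintype.card A), ∑ b ∈ lev F (Fintype.card B),
      ∑ d ∈ lev F (Fintype.card C), ∑ e ∈ lev F (Fintype.card E),
        (cc a b x₁ * cc d e x₂ * cc a d y₁ * cc b e y₂ : ℂ) := by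
  obtain ⟨e, he⟩ : ∃ e, e = (ec.sumCongr ed).symm.trans
      ((Equiv.sumSumSumComm A C B E).trans (ea.sumCongr eb)) := ⟨_, rfl⟩
  have h0 : ∀ s : Matrix (α ⊕ β) (α ⊕ β) F, (1 : Matrix (α ⊕ β) (α ⊕ β) F).submatrix e id * s *
      (1 : Matrix (α ⊕ β) (α ⊕ β) F).submatrix id e = s.submatrix e e := fun s => by
    have := submatrix_mul_equiv ((1 : Matrix (α ⊕ β) (α ⊕ β) F) * s) 1 e (Equiv.refl _) e
    rw [← submatrix_mul_equiv 1 s e (Equiv.refl _) (Equiv.refl _)] at this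
    simpa using this
  have h1 := frames_sum (Phi x₁ x₂ y₁ y₂) (Phi_inv x₁ x₂ y₁ y₂)
    (W := (1 : Matrix (α ⊕ β) (α ⊕ β) F).submatrix id e)
    (W' := (1 : Matrix (α ⊕ β) (α ⊕ β) F).submatrix e id)
    (by rw [submatrix_mul_equiv, Matrix.mul_one, submatrix_id_id])
    (by rw [← Equiv.coe_refl, submatrix_mul_equiv, Matrix.mul_one, submatrix_one_equiv])
  have h2 : ∀ s : Matrix ((A ⊕ B) ⊕ (C ⊕ E)) ((A ⊕ B) ⊕ (C ⊕ E)) F,
      (s.submatrix (ea.symm.sumCongr eb.symm) (ea.symm.sumCongr eb.symm)).submatrix e e =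
      (s.submatrix (Equiv.sumSumSumComm A C B E) (Equiv.sumSumSumComm A C B E)).submatrix
        (ec.symm.sumCongr ed.symm) (ec.symm.sumCongr ed.symm) := fun s => by
    have h3 : (ea.symm.sumCongr eb.symm) ∘ e =
        (Equiv.sumSumSumComm A C B E) ∘ (ec.symm.sumCongr ed.symm) := by
      funext i
      rw [he]
      exact (ea.sumCongr eb).symm_apply_apply _
    rw [submatrix_submatrix, submatrix_submatrix, h3]
  have h4 : ∑ s : Matrix (α ⊕ β) (α ⊕ β) F, ind (Par s ∧ (s.submatrix e e).toBlocks₂₁ = 0) =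
      Fintype.card (Matrix A E F) * (Fintype.card (Matrix A B F) * Fintype.card (Matrix C E F) *
      (Fintype.card (Matrix A C F) * Fintype.card (Matrix B E F)) *
      (gl F A * gl F B * gl F C * gl F E)) := by
    rw [← sum_sub (ea.symm.sumCongr eb.symm) (ea.symm.sumCongr eb.symm)]
    refine Eq.trans (sum_congr rfl fun s _ => ?_) ((four (fun s => ind (IsUnit s))
      (fun s => ind (IsUnit s)) (fun _ => 1) fun _ => 1).trans ?_)
    · rw [h2, blocks_sub, Par, blocks_sub, isUnit_submatrix_equiv, mul_one, mul_one, ← ind_and,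
        ← ind_and, ← ind_and]
      refine ind_congr ⟨fun h => ⟨h.1.2, isUnit_fromBlocks_zero₂₁.1 (eq_blocks h.1.2 ▸ h.1.1), h.2⟩,
        fun h => ⟨⟨eq_blocks h.1 ▸ isUnit_fromBlocks_zero₂₁.2 h.2.1, h.1⟩, h.2.2⟩⟩
    · simp only [isUnit_fromBlocks_zero₂₁, ind_and, sum_const, card_univ, nsmul_eq_mul, gl,
        ← mul_sum, ← sum_mul]
      ring
  have h5 : Phi x₁ x₂ y₁ y₂ ((1 : Matrix (α ⊕ β) (α ⊕ β) F).submatrix id e)
      ((1 : Matrix (α ⊕ β) (α ⊕ β) F).submatrix e id) =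
      Fintype.card (Matrix A E F) * (Fintype.card (Matrix A B F) * Fintype.card (Matrix C E F) *
      (Fintype.card (Matrix A C F) * Fintype.card (Matrix B E F)) *
      (gl F A * gl F B * gl F C * gl F E * ∑ a ∈ lev F (Fintype.card A),
      ∑ b ∈ lev F (Fintype.card B), ∑ d ∈ lev F (Fintype.card C), ∑ e ∈ lev F (Fintype.card E),
        (cc a b x₁ * cc d e x₂ * cc a d y₁ * cc b e y₂ : ℂ))) := by
    simp only [Phi, h0]
    rw [← sum_sub (ea.symm.sumCongr eb.symm) (ea.symm.sumCongr eb.symm)]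
    refine Eq.trans (sum_congr rfl fun s _ => ?_) ((four (fun s => ev x₁ s) (fun s => ev x₂ s)
      (fun s => (starRingEnd ℂ) (ev y₁ s)) fun s => (starRingEnd ℂ) (ev y₂ s)).trans ?_)
    · rw [h2, X0_sub, X0_sub, X0, X0, map_mul, map_mul, conj_ind, mul_assoc]
    · rw [← four_orth (fun a b => cc a b x₁) (fun a b => cc a b x₂) (fun a b => cc a b y₁)
        fun a b => cc a b y₂]
      simp only [← map_sum, del, map_mul, map_natCast]
      simp only [mul_sum (s := univ)]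
      exact sum_congr rfl fun _ _ => sum_congr rfl fun _ _ => sum_congr rfl fun _ _ =>
        sum_congr rfl fun _ _ => by ring
  simp only [h0] at h1
  rw [h4, h5, he, rank_perm] at h1
  refine mul_right_cancel₀ (mul_ne_zero (mat_ne (F := F) (α := A) (β := E)) (mul_ne_zero
    (mul_ne_zero (mul_ne_zero (mat_ne (F := F) (α := A) (β := B)) (mat_ne (F := F) (α := C) (β := E)))
    (mul_ne_zero (mat_ne (F := F) (α := A) (β := C)) (mat_ne (F := F) (α := B) (β := E))))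
    (mul_ne_zero (mul_ne_zero (mul_ne_zero (gl_ne (F := F) (ι := A)) (gl_ne (F := F) (ι := B)))
    (gl_ne (F := F) (ι := C))) (gl_ne (F := F) (ι := E))))) (h1.trans ?_)
  rw [par, par]
  ring

theorem cc_mackey (x₁ x₂ y₁ y₂ : II F) (h : x₁.1 + x₂.1 = y₁.1 + y₂.1) :
    ∑ z ∈ lev F (x₁.1 + x₂.1), cc x₁ x₂ z * cc y₁ y₂ z =
      ∑ i ∈ range (x₁.1 + 1), ∑ a ∈ lev F i, ∑ b ∈ lev F (x₁.1 - i), ∑ d ∈ lev F (y₁.1 - i),
        ∑ e ∈ lev F (x₂.1 - (y₁.1 - i)), cc a b x₁ * cc d e x₂ * cc a d y₁ * cc b e y₂ := by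
  have h1 : ∑ s : Matrix (Fin x₁.1 ⊕ Fin x₂.1) (Fin x₁.1 ⊕ Fin x₂.1) F,
      X0 x₁ x₂ s * (starRingEnd ℂ) (Ind (Fin y₁.1) (Fin y₂.1) y₁ y₂ s) =
      par F (Fin x₁.1) (Fin x₂.1) * par F (Fin y₁.1) (Fin y₂.1) *
        ∑ z ∈ lev F (x₁.1 + x₂.1), (cc x₁ x₂ z * cc y₁ y₂ z : ℂ) := by
    simp only [Ind_eq (Fintype.card_fin y₁.1) (Fintype.card_fin y₂.1)
      (ι := Fin x₁.1 ⊕ Fin x₂.1) (by simp [h]), ← h, map_mul, map_sum, map_natCast, mul_sum]
    rw [sum_comm]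
    refine sum_congr rfl fun z _ => ?_
    have h2 := congrArg (starRingEnd ℂ) (cc_spec (Fintype.card_fin x₁.1) (Fintype.card_fin x₂.1) z)
    simp only [map_sum, map_mul, Complex.conj_conj, map_natCast] at h2
    have h3 : ∀ a b : ℕ, (starRingEnd ℂ) (par F (Fin a) (Fin b)) = par F (Fin a) (Fin b) :=
      fun a b => by simp only [par, map_sum, conj_ind]
    rw [h3] at h2 ⊢
    rw [sum_congr rfl fun s _ => (show _ = par F (Fin y₁.1) (Fin y₂.1) * cc y₁ y₂ z *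
      ((starRingEnd ℂ) (ev z s) * X0 x₁ x₂ s) by ring), ← mul_sum, h2]
    ring
  have h2 : ∀ i ∈ range (x₁.1 + 1), ∑ P : Matrix (Fin x₁.1 ⊕ Fin x₂.1) (Fin y₁.1 ⊕ Fin y₂.1) F,
      ∑ Q : Matrix (Fin y₁.1 ⊕ Fin y₂.1) (Fin x₁.1 ⊕ Fin x₂.1) F,
      ind (P * Q = 1 ∧ Q * P = 1 ∧ P.toBlocks₂₁.rank + i = y₁.1) * Phi x₁ x₂ y₁ y₂ P Q =
      par F (Fin x₁.1) (Fin x₂.1) * par F (Fin y₁.1) (Fin y₂.1) * ∑ a ∈ lev F i,
        ∑ b ∈ lev F (x₁.1 - i), ∑ d ∈ lev F (y₁.1 - i), ∑ e ∈ lev F (x₂.1 - (y₁.1 - i)),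
          (cc a b x₁ * cc d e x₂ * cc a d y₁ * cc b e y₂ : ℂ) := by
    intro i hi
    have hi' := Nat.lt_succ_iff.1 (mem_range.1 hi)
    by_cases h3 : i ≤ y₁.1 ∧ y₁.1 - i ≤ x₂.1
    · have h4 := mackey_term (A := Fin i) (B := Fin (x₁.1 - i)) (C := Fin (y₁.1 - i))
        (E := Fin (x₂.1 - (y₁.1 - i))) (α := Fin x₁.1) (β := Fin x₂.1) (γ := Fin y₁.1)
        (δ := Fin y₂.1) x₁ x₂ y₁ y₂ (Fintype.equivOfCardEq (by simp; omega))
        (Fintype.equivOfCardEq (by simp; omega)) (Fintype.equivOfCardEq (by simp; omega))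
        (Fintype.equivOfCardEq (by simp; omega))
      simp only [Fintype.card_fin] at h4
      rw [← h4]
      refine sum_congr rfl fun P _ => sum_congr rfl fun Q _ => ?_
      exact congrArg (· * _) (ind_congr (and_congr_right' (and_congr_right' (by omega))))
    · rw [sum_eq_zero fun P _ => sum_eq_zero fun Q _ => by
        have := P.toBlocks₂₁.rank_le_height
        rw [ind_neg fun h4 => h3 (by omega), zero_mul], sum_eq_zero, mul_zero]
      refine fun a ha => sum_eq_zero fun b _ => sum_eq_zero fun d hd => sum_eq_zero fun e he => ?_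
      by_contra h4
      simp only [mul_eq_zero, not_or, Nat.cast_eq_zero] at h4
      have h5 := cc_deg h4.1.1.2
      have h6 := cc_deg h4.1.2
      rw [mem_lev] at ha hd he
      omega
  have h3 : (∑ z ∈ lev F (x₁.1 + x₂.1), (cc x₁ x₂ z * cc y₁ y₂ z : ℂ)) =
      ∑ i ∈ range (x₁.1 + 1), ∑ a ∈ lev F i, ∑ b ∈ lev F (x₁.1 - i), ∑ d ∈ lev F (y₁.1 - i),
        ∑ e ∈ lev F (x₂.1 - (y₁.1 - i)), (cc a b x₁ * cc d e x₂ * cc a d y₁ * cc b e y₂ : ℂ) := by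
    refine mul_left_cancel₀ (mul_ne_zero (par_ne (F := F) (α := Fin x₁.1) (β := Fin x₂.1))
      (par_ne (F := F) (α := Fin y₁.1) (β := Fin y₂.1))) ?_
    rw [← h1, mul_sum, ← sum_congr rfl h2, ← sum_comm_cycle]
    simp only [Ind, map_sum, map_mul, conj_ind, mul_sum]
    rw [← sum_comm_cycle]
    refine sum_congr rfl fun P _ => sum_congr rfl fun Q _ => ?_
    simp only [mul_left_comm _ (ind _), ← mul_sum, ← sum_mul]
    congr 1
    by_cases hP : P * Q = 1 ∧ Q * P = 1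
    · have h4 := rank_bound hP.2
      have h5 := P.toBlocks₂₁.rank_le_width
      simp only [Fintype.card_fin] at h4
      rw [ind_pos hP, sum_eq_single_of_mem (y₁.1 - P.toBlocks₂₁.rank) (mem_range.2 (by omega))
        fun i _ hi => ind_neg fun h6 => hi (by omega), ind_pos ⟨hP.1, hP.2, by omega⟩]
    · rw [ind_neg hP, sum_eq_zero fun i _ => ind_neg fun h4 => hP ⟨h4.1, h4.2.1⟩]
  exact_mod_cast h3

variable (F) in
/-- The Hopf algebra of the general linear groups. -/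
noncomputable def psh : PSH (II F) where
  deg x := x.1
  lev := lev F
  mem_lev _ _ := mem_lev
  o := oo F
  deg_o := deg_oo
  c := cc
  c_deg _ _ _ := cc_deg
  c_left := cc_left
  c_right := cc_right
  assoc := cc_assoc
  mackey := cc_mackey

end Pool.Agent.SemiProp.GLn
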