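import Pool.Agent.Lib.MP_c1c6b6_al.GLG2

set_option autoImplicit false

open Finset Matrix

namespace Pool.Agent.SemiProp.GLn

variable {F : Type} [Field F] {n : ℕ}

/-- The upper unitriangular group. -/
def UT (F : Type) [Field F] (n : ℕ) : Subgroup (GL (Fin n) F) where
  carrier := {u | Uni (u : Matrix (Fin n) (Fin n) F)}
  one_mem' := glg_uni_one
  mul_mem' := fun ha hb => Uni.gMul ha hb
  inv_mem' := fun {x} hx => by
    have h := Uni.gInv hx
    rw [← Matrix.coe_units_inv] at h
    exact h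

theorem Uni.det {M : Matrix (Fin n) (Fin n) F} (h : Uni M) : M.det = 1 := glg_uni_det h

/-- The linear characters of the unitriangular group. -/
noncomputable def kerHom (n : ℕ) (κ : ℕ → AddChar F ℂ) : UT F n →* ℂ where
  toFun u := ker (fun j => κ j) ((u : GL (Fin n) F) : Matrix (Fin n) (Fin n) F)
  map_one' := by
    refine Finset.prod_eq_one fun i _ => Finset.prod_eq_one fun j _ => ?_
    split_ifs with h
    · have hne : i ≠ j := fun e => by rw [e] at h; omega
      show κ j ((1 : Matrix (Fin n) (Fin n) F) i j) = 1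
      rw [Matrix.one_apply_ne hne, AddChar.map_zero_eq_one]
    · rfl
  map_mul' := fun x y => by
    unfold ker
    rw [← Finset.prod_mul_distrib]
    refine Finset.prod_congr rfl fun i _ => ?_
    rw [← Finset.prod_mul_distrib]
    refine Finset.prod_congr rfl fun j _ => ?_
    split_ifs with h
    · have := Uni.gSuper x.2 y.2 h
      show κ j (((x : GL (Fin n) F) * (y : GL (Fin n) F) : Matrix (Fin n) (Fin n) F) i j) = _
      rw [this, AddChar.map_add_eq_mul]
    · rw [mul_one]

/-- A unitriangular matrix as an element of the group. -/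
noncomputable def glgU {M : Matrix (Fin n) (Fin n) F} (h : Uni M) : UT F n :=
  ⟨Matrix.GeneralLinearGroup.mkOfDetNeZero M (by rw [h.det]; exact one_ne_zero), h⟩

theorem glgU_val {M : Matrix (Fin n) (Fin n) F} (h : Uni M) :
    ((glgU h : GL (Fin n) F) : Matrix (Fin n) (Fin n) F) = M := rfl

/-- The reflection on the general linear group. -/
def glgSig (g : GL (Fin n) F) : GL (Fin n) F where
  val := glgS g.val
  inv := glgS g.inv
  val_inv := by rw [← glgS_mul, g.inv_val, glgS_one]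
  inv_val := by rw [← glgS_mul, g.val_inv, glgS_one]

/-- The reflection on the unitriangular group. -/
def glgTau (F : Type) [Field F] (n : ℕ) : UT F n ≃ UT F n where
  toFun u := ⟨glgSig u, Uni.glgS u.2⟩
  invFun u := ⟨glgSig u, Uni.glgS u.2⟩
  left_inv _ := Subtype.ext (Units.ext (glgS_glgS _))
  right_inv _ := Subtype.ext (Units.ext (glgS_glgS _))

theorem glg_cells (ψ : AddChar F ℂ) (hψ : ψ ≠ 1) (g : GL (Fin n) F) :
    ∃ (u₁ u₂ : UT F n) (m : GL (Fin n) F), g = u₁ * m * u₂ ∧ (glgSig m = m ∨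
      ∃ x y : UT F n, m * x = y * m ∧ kerHom n (fun _ => ψ) x ≠ kerHom n (fun _ => ψ) y) := by
  obtain ⟨L, R, hL, hR, h⟩ := glg_bruhat (g : Matrix (Fin n) (Fin n) F) n
  let m : GL (Fin n) F := glgU hL * g * glgU hR
  have hm : (m : Matrix (Fin n) (Fin n) F) = L * g * R := rfl
  have hd : (L * (g : Matrix (Fin n) (Fin n) F) * R).det ≠ 0 := by
    rw [← hm]
    exact m.det_ne_zero
  refine ⟨(glgU hL)⁻¹, (glgU hR)⁻¹, m, ?_, ?_⟩
  · simp only [m, Subgroup.coe_inv]
    group
  · rcases glg_dich ψ hψ hd h with h1 | ⟨X, Y, hX, hY, h1, h2⟩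
    · exact Or.inl (Units.ext h1)
    · exact Or.inr ⟨glgU hX, glgU hY, Units.ext h1, h2⟩

variable [Fintype F] [DecidableEq F]

theorem sum_UT [Fintype (UT F n)] (f : Matrix (Fin n) (Fin n) F → ℂ) :
    ∑ u : UT F n, f ((u : GL (Fin n) F) : Matrix (Fin n) (Fin n) F) = ∑ M, ind (Uni M) * f M := by
  classical
  have h1 : ∑ M, ind (Uni M) * f M = ∑ M ∈ univ.filter fun M => Uni M, f M := by
    rw [Finset.sum_filter]
    refine Finset.sum_congr rfl fun M _ => ?_
    split_ifs with h
    · rw [ind_pos h, one_mul]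
    · rw [ind_neg h, zero_mul]
  rw [h1]
  refine Finset.sum_bij (fun u _ => ((u : GL (Fin n) F) : Matrix (Fin n) (Fin n) F))
    (fun u _ => mem_filter.2 ⟨mem_univ _, u.2⟩) (fun u _ v _ e => Subtype.ext (Units.ext e))
    (fun M hM => ⟨glgU (mem_filter.1 hM).2, mem_univ _, rfl⟩) fun _ _ => rfl

theorem gelfand [Fintype (UT F n)] (ψ : AddChar F ℂ) (hψ : ψ ≠ 1) {χ : GL (Fin n) F → ℂ}
    (h : IsIr χ) : ∑ u : UT F n, χ u * kerHom n (fun _ => ψ) u = 0 ∨
      ∑ u : UT F n, χ u * kerHom n (fun _ => ψ) u = Fintype.card (UT F n) := by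
  obtain ⟨V, _, _, _, ρ, hρ, rfl⟩ := h
  exact glg_abs (UT F n) (kerHom n fun _ => ψ) glgSig (fun g k => Units.ext (glgS_mul _ _))
    (glgTau F n) (fun _ => rfl) (fun u => glg_ker_S ψ _) (glg_cells ψ hψ) hρ

end Pool.Agent.SemiProp.GLn
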