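import Pool.Agent.Lib.MP_c1c6b6_al.GL0

set_option autoImplicit false

open Finset Matrix

namespace Pool.Agent.SemiProp.GLn

variable {F : Type} [Field F] {ι : Type} [Fintype ι] [DecidableEq ι] {k n : ℕ}

/-- The nilpotent shift. -/
def gljN (F : Type) [Field F] (k : ℕ) : Matrix (Fin k) (Fin k) F :=
  Matrix.of fun i j : Fin k => if (j : ℕ) = i + 1 then (1 : F) else 0

theorem glj_J : J F k = 1 + gljN F k := rfl

theorem glj_J_sub : J F k - 1 = gljN F k := add_sub_cancel_left _ _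

theorem glj_N_pow (p : ℕ) (i j : Fin k) :
    (gljN F k ^ p) i j = if (j : ℕ) = i + p then 1 else 0 := by
  induction p generalizing j with
  | zero => simp [Matrix.one_apply, Fin.ext_iff, eq_comm]
  | succ p ih =>
    rw [pow_succ, Matrix.mul_apply]
    simp only [ih]
    simp only [gljN, of_apply]
    by_cases h : (i : ℕ) + p < k
    · rw [sum_eq_single (⟨i + p, h⟩ : Fin k)]
      · simp [add_assoc]
      · intro l _ hl
        rw [if_neg (fun e => hl (Fin.ext e)), zero_mul]
      · simp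
    · rw [if_neg (by omega)]
      exact sum_eq_zero fun l _ => by rw [if_neg (by omega), zero_mul]

theorem glj_N_zero {p : ℕ} (h : k ≤ p) : gljN F k ^ p = 0 := by
  ext i j
  rw [glj_N_pow, if_neg (by omega), Matrix.zero_apply]

theorem glj_N_mul {κ : Type} (p : ℕ) (w : Matrix (Fin k) κ F) (i : Fin k) (c : κ) :
    (gljN F k ^ p * w) i c = if h : (i : ℕ) + p < k then w ⟨i + p, h⟩ c else 0 := by
  rw [Matrix.mul_apply]
  simp only [glj_N_pow]
  split_ifs with h
  · rw [sum_eq_single (⟨i + p, h⟩ : Fin k)]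
    · simp
    · intro l _ hl
      rw [if_neg (fun e => hl (Fin.ext e)), zero_mul]
    · simp
  · exact sum_eq_zero fun l _ => by rw [if_neg (by omega), zero_mul]

omit [Fintype ι] in
theorem glj_sub {α : Type} [DecidableEq α] (A : Matrix α α F) (v : Matrix α ι F)
    (g : Matrix ι ι F) : fromBlocks A v 0 g - 1 = fromBlocks (A - 1) v 0 (g - 1) := by
  rw [← fromBlocks_one, sub_eq_add_neg, fromBlocks_neg, fromBlocks_add]
  simp [sub_eq_add_neg]

theorem glj_pow {α : Type} [Fintype α] [DecidableEq α] (A : Matrix α α F) (v : Matrix α ι F)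
    (D : Matrix ι ι F) : ∃ S : ℕ → Matrix α ι F, S 0 = 0 ∧ (∀ p, S (p + 1) = A ^ p * v + S p * D) ∧
      ∀ p, fromBlocks A v 0 D ^ p = fromBlocks (A ^ p) (S p) 0 (D ^ p) := by
  refine ⟨fun p => Nat.rec 0 (fun p S => A ^ p * v + S * D) p, rfl, fun p => rfl, fun p => ?_⟩
  induction p with
  | zero => simp [fromBlocks_one]
  | succ p ih =>
    rw [pow_succ, ih, fromBlocks_multiply]
    simp [pow_succ]

omit [Fintype ι] [DecidableEq ι] in
theorem glj_zero {α : Type} {A : Matrix α α F} {S : Matrix α ι F} {D : Matrix ι ι F}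
    (h : fromBlocks A S 0 D = 0) : A = 0 ∧ S = 0 ∧ D = 0 := by
  rw [← fromBlocks_zero, fromBlocks_inj] at h
  exact ⟨h.1, h.2.1, h.2.2.2⟩

theorem glj_conj_pow {κ : Type} [Fintype κ] [DecidableEq κ] {P : Matrix ι κ F} {Q : Matrix κ ι F}
    (h : P * Q = 1) (h' : Q * P = 1) (M : Matrix ι ι F) (p : ℕ) :
    (Q * M * P - 1) ^ p = Q * (M - 1) ^ p * P := by
  have e : Q * M * P - 1 = Q * (M - 1) * P := by
    rw [Matrix.mul_sub, Matrix.sub_mul, Matrix.mul_one, h']
  induction p with
  | zero => simp [h']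
  | succ p ih =>
    rw [pow_succ, ih, e, pow_succ]
    simp only [Matrix.mul_assoc]
    rw [← Matrix.mul_assoc P Q, h, Matrix.one_mul]

theorem ext_split (v : Matrix (Fin k) ι F) (g : Matrix ι ι F)
    (h : (fromBlocks (J F k) v 0 g - 1) ^ k = 0) :
    ∃ P Q : Matrix (Fin k ⊕ ι) (Fin k ⊕ ι) F, P * Q = 1 ∧ Q * P = 1 ∧
      fromBlocks (J F k) v 0 g = P * fromBlocks (J F k) 0 0 g * Q := by
  rw [glj_sub, glj_J_sub] at h
  obtain ⟨S, h0, hS, hp⟩ := glj_pow (gljN F k) v (g - 1)
  rw [hp] at h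
  have hk : S k = 0 := (glj_zero h).2.1
  let w : Matrix (Fin k) ι F := Matrix.of fun i c => -S i ⟨0, i.pos⟩ c
  have hw : v = w * (g - 1) - gljN F k * w := by
    ext i c
    have h1 : (gljN F k * w) i c = -S (i + 1) ⟨0, i.pos⟩ c := by
      have := glj_N_mul 1 w i c
      rw [pow_one] at this
      rw [this]
      split_ifs with hi
      · rfl
      · rw [show (i : ℕ) + 1 = k by omega, hk, Matrix.zero_apply, neg_zero]
    have h2 : (w * (g - 1) : Matrix (Fin k) ι F) i c =
        -(S i * (g - 1) : Matrix (Fin k) ι F) ⟨0, i.pos⟩ c := by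
      simp only [Matrix.mul_apply, w, of_apply, neg_mul, sum_neg_distrib]
    have h3 : (gljN F k ^ (i : ℕ) * v) ⟨0, i.pos⟩ c = v i c := by
      rw [glj_N_mul, dif_pos (by simp)]
      simp
    rw [Matrix.sub_apply, h1, h2, hS, Matrix.add_apply, h3]
    ring
  refine ⟨fromBlocks 1 w 0 1, fromBlocks 1 (-w) 0 1, ?_, ?_, ?_⟩
  · rw [fromBlocks_multiply, ← fromBlocks_one]
    simp
  · rw [fromBlocks_multiply, ← fromBlocks_one]
    simp
  · rw [fromBlocks_multiply, fromBlocks_multiply, fromBlocks_inj]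
    refine ⟨by simp, ?_, by simp, by simp⟩
    rw [hw, glj_J]
    simp only [Matrix.one_mul, Matrix.mul_zero, add_zero, zero_add, Matrix.mul_one, Matrix.mul_neg,
      Matrix.add_mul, Matrix.mul_sub]
    abel

theorem pow_blocks {g : Matrix ι ι F} (h : (g - 1) ^ k = 0) :
    (fromBlocks (J F k) 0 0 g - 1) ^ k = 0 := by
  rw [glj_sub, glj_J_sub, fromBlocks_diagonal_pow, h, glj_N_zero le_rfl, fromBlocks_zero]

theorem of_pow_blocks {j : ℕ} {v : Matrix (Fin j) ι F} {g : Matrix ι ι F}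
    (h : (fromBlocks (J F j) v 0 g - 1) ^ k = 0) : j ≤ k ∧ (g - 1) ^ k = 0 := by
  rw [glj_sub, glj_J_sub] at h
  obtain ⟨S, -, -, hp⟩ := glj_pow (gljN F j) v (g - 1)
  rw [hp] at h
  refine ⟨?_, (glj_zero h).2.2⟩
  by_contra hj
  have := congrFun (congrFun (glj_zero h).1 ⟨0, by omega⟩) ⟨k, by omega⟩
  rw [glj_N_pow] at this
  simp at this

theorem nil_blocks (v : Matrix (Fin k) ι F) {g : Matrix ι ι F} (h : IsNilpotent (g - 1)) :
    IsNilpotent (fromBlocks (J F k) v 0 g - 1) := by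
  obtain ⟨q, hq⟩ := h
  rw [glj_sub, glj_J_sub]
  obtain ⟨S, -, -, hp⟩ := glj_pow (gljN F k) v (g - 1)
  refine ⟨(k + q) + (k + q), ?_⟩
  rw [pow_add, hp, glj_N_zero (Nat.le_add_right k q), pow_add, hq, mul_zero, fromBlocks_multiply]
  simp

theorem glj_indep {A : Matrix ι ι F} (h : A ^ (k + 1) = 0) {x : ι → F} (hx : A ^ k *ᵥ x ≠ 0) :
    LinearIndependent F fun i : Fin (k + 1) => A ^ (k - i) *ᵥ x := by
  rw [Fintype.linearIndependent_iff]
  intro c hc
  have key : ∀ d : ℕ, ∀ i : Fin (k + 1), (i : ℕ) + d = k → c i = 0 := by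
    intro d
    induction d using Nat.strong_induction_on with
    | _ d ih =>
      intro i hi
      have h1 := congrArg (fun y => A ^ (i : ℕ) *ᵥ y) hc
      simp only [mulVec_sum, mulVec_smul, mulVec_mulVec, ← pow_add, mulVec_zero] at h1
      rw [sum_eq_single i] at h1
      · rw [show (i : ℕ) + (k - i) = k by omega] at h1
        exact (smul_eq_zero.1 h1).resolve_right hx
      · intro l _ hl
        rcases lt_or_gt_of_ne (fun e : (l : ℕ) = i => hl (Fin.ext e)) with h2 | h2
        · rw [show (i : ℕ) + (k - l) = k + 1 + (i - l - 1) by omega, pow_add, h, zero_mul,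
            zero_mulVec, smul_zero]
        · rw [ih (k - l) (by omega) l (by omega), zero_smul]
      · simp
  exact fun i => key (k - i) i (by omega)

theorem glj_extend {b : Fin k → ι → F} (hb : LinearIndependent F b) :
    ∃ (m : ℕ) (P : Matrix ι (Fin k ⊕ Fin m) F) (Q : Matrix (Fin k ⊕ Fin m) ι F),
      k + m = Fintype.card ι ∧ P * Q = 1 ∧ Q * P = 1 ∧ ∀ i j, P i (Sum.inl j) = b j i := by
  obtain ⟨W, hW⟩ := Submodule.exists_isCompl (Submodule.span F (Set.range b))
  have hcard : k + Module.finrank F W = Fintype.card ι := by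
    have := Submodule.finrank_add_eq_of_isCompl hW
    rwa [finrank_span_eq_card hb, Fintype.card_fin, Module.finrank_fintype_fun_eq_card] at this
  have h1 : LinearIndependent F fun j => ((Module.finBasis F W j : W) : ι → F) :=
    (Module.finBasis F W).linearIndependent.map' W.subtype W.ker_subtype
  have h2 := hb.sum_type h1 (hW.disjoint.mono_right
    (Submodule.span_le.2 (by rintro _ ⟨j, rfl⟩; exact (Module.finBasis F W j).2)))
  let B := basisOfLinearIndependentOfCardEqFinrank' _ h2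
    (by rw [Fintype.card_sum, Fintype.card_fin, Fintype.card_fin, hcard,
      Module.finrank_fintype_fun_eq_card])
  refine ⟨_, (Pi.basisFun F ι).toMatrix B, B.toMatrix (Pi.basisFun F ι), hcard,
    Module.Basis.toMatrix_mul_toMatrix_flip _ _, Module.Basis.toMatrix_mul_toMatrix_flip _ _,
    fun i j => ?_⟩
  simp [Module.Basis.toMatrix_apply, B, basisOfLinearIndependentOfCardEqFinrank']

theorem cyc_split {M : Matrix ι ι F} (h : (M - 1) ^ (k + 1) = 0) (h' : (M - 1) ^ k ≠ 0) :
    ∃ (m : ℕ) (g : Matrix (Fin m) (Fin m) F) (P : Matrix ι (Fin (k + 1) ⊕ Fin m) F)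
      (Q : Matrix (Fin (k + 1) ⊕ Fin m) ι F), k + 1 + m = Fintype.card ι ∧ P * Q = 1 ∧ Q * P = 1 ∧
      M = P * fromBlocks (J F (k + 1)) 0 0 g * Q := by
  obtain ⟨x, hx⟩ : ∃ x : ι → F, (M - 1) ^ k *ᵥ x ≠ 0 := by
    by_contra hc
    push Not at hc
    refine h' (Matrix.ext fun i j => ?_)
    have := congrFun (hc (Pi.single j 1)) i
    simpa using this
  obtain ⟨m, P, Q, hm, hPQ, hQP, hP⟩ := glj_extend (glj_indep h hx)
  have hcol : ∀ i j, (M * P) i (Sum.inl j) =
      (P * fromBlocks (J F (k + 1)) 0 0 (0 : Matrix (Fin m) (Fin m) F)) i (Sum.inl j) := by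
    intro i j
    have e1 : (M * P) i (Sum.inl j) = (M *ᵥ ((M - 1) ^ (k - j) *ᵥ x)) i := by
      simp only [Matrix.mul_apply, hP]
      rfl
    have e2 : M *ᵥ ((M - 1) ^ (k - j) *ᵥ x) =
        (M - 1) ^ (k - j) *ᵥ x + (M - 1) ^ (k - j + 1) *ᵥ x := by
      rw [pow_succ', ← mulVec_mulVec, sub_mulVec, one_mulVec, add_sub_cancel]
    rw [e1, e2, Matrix.mul_apply, Fintype.sum_sum_type]
    simp only [hP, fromBlocks_apply₁₁, fromBlocks_apply₂₁, Matrix.zero_apply, mul_zero, sum_const_zero,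
      add_zero, glj_J, Matrix.add_apply, mul_add, sum_add_distrib, Matrix.one_apply, mul_ite, mul_one,
      sum_ite_eq', mem_univ, if_true, Pi.add_apply, gljN, of_apply]
    congr 1
    rcases Nat.eq_zero_or_pos j with hj | hj
    · rw [hj, Nat.sub_zero, h, zero_mulVec, Pi.zero_apply]
      exact (sum_eq_zero fun l _ => if_neg (by omega)).symm
    · rw [sum_eq_single (⟨j - 1, by omega⟩ : Fin (k + 1))]
      · rw [if_pos (by simp only; omega)]
        rw [show k - (j : ℕ) + 1 = k - (j - 1) by omega]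
      · intro l _ hl
        exact if_neg fun e => hl (Fin.ext (by simp only; omega))
      · simp
  have hX : Q * M * P = fromBlocks (J F (k + 1)) (Q * M * P).toBlocks₁₂ 0 (Q * M * P).toBlocks₂₂ := by
    have key : ∀ c j, (Q * M * P) c (Sum.inl j) =
        fromBlocks (J F (k + 1)) 0 0 (0 : Matrix (Fin m) (Fin m) F) c (Sum.inl j) := by
      intro c j
      rw [Matrix.mul_assoc, Matrix.mul_apply]
      simp only [hcol]
      rw [← Matrix.mul_apply, ← Matrix.mul_assoc, hQP, Matrix.one_mul]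
    ext c d
    rcases d with j | j
    · rw [key]
      rcases c with c | c <;> rfl
    · rcases c with c | c <;> rfl
  have hnil := glj_conj_pow hPQ hQP M (k + 1)
  rw [h, Matrix.mul_zero, Matrix.zero_mul, hX] at hnil
  obtain ⟨P', Q', h1, h2, h3⟩ := ext_split _ _ hnil
  refine ⟨m, (Q * M * P).toBlocks₂₂, P * P', Q' * Q, hm, ?_, ?_, ?_⟩
  · rw [Matrix.mul_assoc, ← Matrix.mul_assoc P', h1, Matrix.one_mul, hPQ]
  · rw [Matrix.mul_assoc, ← Matrix.mul_assoc Q, hQP, Matrix.one_mul, h2]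
  · rw [← hX] at h3
    calc M = (P * Q) * M * (P * Q) := by rw [hPQ, Matrix.one_mul, Matrix.mul_one]
      _ = P * (Q * M * P) * Q := by simp only [Matrix.mul_assoc]
      _ = _ := by
        conv_lhs => rw [h3]
        simp only [Matrix.mul_assoc]

theorem uni_J : Uni (J F n) := by
  intro i j hij
  have : (j : ℕ) ≤ i := hij
  rw [glj_J, Matrix.add_apply, gljN, of_apply, if_neg (by omega), add_zero]

theorem glj_tri_pow {A : Matrix (Fin n) (Fin n) F} (h : ∀ i j, j ≤ i → A i j = 0)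
    (h' : ∀ i j : Fin n, (j : ℕ) = i + 1 → A i j ≠ 0) (p : ℕ) (i j : Fin n) :
    ((j : ℕ) < i + p → (A ^ p) i j = 0) ∧ ((j : ℕ) = i + p → (A ^ p) i j ≠ 0) := by
  induction p generalizing j with
  | zero =>
    refine ⟨fun hj => ?_, fun hj => ?_⟩
    · rw [pow_zero, one_apply_ne (fun e => by subst e; omega)]
    · rw [pow_zero, show j = i from Fin.ext hj, one_apply_eq]
      exact one_ne_zero
  | succ p ih =>
    rw [pow_succ, Matrix.mul_apply]
    refine ⟨fun hj => sum_eq_zero fun l _ => ?_, fun hj => ?_⟩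
    · by_cases hl : (l : ℕ) < i + p
      · rw [(ih l).1 hl, zero_mul]
      · rw [h l j (by rw [Fin.le_def]; omega), mul_zero]
    · rw [sum_eq_single (⟨i + p, by omega⟩ : Fin n)]
      · exact mul_ne_zero ((ih _).2 rfl) (h' _ _ hj)
      · intro l _ hl
        have : (l : ℕ) ≠ i + p := fun e => hl (Fin.ext e)
        by_cases hl : (l : ℕ) < i + p
        · rw [(ih l).1 hl, zero_mul]
        · rw [h l j (by rw [Fin.le_def]; omega), mul_zero]
      · simp

theorem Uni.conj_J {M : Matrix (Fin n) (Fin n) F} (h : Uni M)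
    (h' : ∀ i j : Fin n, (j : ℕ) = i + 1 → M i j ≠ 0) :
    ∃ P Q : Matrix (Fin n) (Fin n) F, P * Q = 1 ∧ Q * P = 1 ∧ M = P * J F n * Q := by
  rcases n with _ | k
  · exact ⟨1, 1, Subsingleton.elim _ _, Subsingleton.elim _ _, Subsingleton.elim _ _⟩
  have hp := glj_tri_pow (A := M - 1) (fun i j hij => by rw [Matrix.sub_apply, h i j hij, sub_self])
    (fun i j hij => by
      rw [Matrix.sub_apply, one_apply_ne (fun e => by subst e; omega), sub_zero]
      exact h' i j hij)
  obtain ⟨m, g, P, Q, hm, h1, h2, h3⟩ := cyc_split (k := k) (M := M)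
    (Matrix.ext fun i j => (hp (k + 1) i j).1 (by omega))
    (fun e => (hp k 0 (Fin.last k)).2 (by simp) (by rw [e, Matrix.zero_apply]))
  rw [Fintype.card_fin] at hm
  obtain rfl : m = 0 := by omega
  let e : Fin (k + 1) ≃ Fin (k + 1) ⊕ Fin 0 := (Equiv.sumEmpty _ _).symm
  have hJ : J F (k + 1) = (fromBlocks (J F (k + 1)) 0 0 g).submatrix e e := rfl
  refine ⟨P.submatrix id e, Q.submatrix e id, ?_, ?_, ?_⟩
  · rw [submatrix_mul_equiv, h1, submatrix_id_id]
  · rw [← submatrix_mul Q P e id e Function.bijective_id, h2, submatrix_one_equiv]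
  · rw [hJ, submatrix_mul_equiv, submatrix_mul_equiv, submatrix_id_id, ← h3]

theorem J_blocks (a b : ℕ) : ∃ v, (J F (a + b)).submatrix finSumFinEquiv finSumFinEquiv =
    fromBlocks (J F a) v 0 (J F b) := by
  refine ⟨((J F (a + b)).submatrix finSumFinEquiv finSumFinEquiv).toBlocks₁₂, ?_⟩
  ext c d
  rcases c with c | c <;> rcases d with d | d
  · simp [J, Matrix.one_apply, Fin.ext_iff]
  · rfl
  · have := c.2
    have := d.2
    simp only [J, submatrix_apply, finSumFinEquiv_apply_right, finSumFinEquiv_apply_left, Matrix.add_apply,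
      Matrix.one_apply, Fin.ext_iff, of_apply, Fin.val_natAdd, Fin.val_castAdd, fromBlocks_apply₂₁,
      Matrix.zero_apply]
    rw [if_neg (by omega), if_neg (by omega), add_zero]
  · simp [J, Matrix.one_apply, Fin.ext_iff, add_assoc]

theorem unique_inv {a b : ℕ} {P Q : Matrix (Fin a ⊕ Fin b) (Fin a ⊕ Fin b) F} (h : P * Q = 1)
    (h' : (Q * (J F (a + b)).submatrix finSumFinEquiv finSumFinEquiv * P).toBlocks₂₁ = 0) :
    P.toBlocks₂₁ = 0 := by
  have hQP : Q * P = 1 := mul_eq_one_comm.1 h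
  set J' := (J F (a + b)).submatrix finSumFinEquiv finSumFinEquiv with hJ'
  have hN : ∀ p, (J' - 1) ^ p = (gljN F (a + b) ^ p).submatrix finSumFinEquiv finSumFinEquiv := by
    have e : J' - 1 = (gljN F (a + b)).submatrix finSumFinEquiv finSumFinEquiv := by
      rw [← glj_J_sub, submatrix_sub, Pi.sub_apply, Pi.sub_apply, submatrix_one_equiv]
    intro p
    induction p with
    | zero => simp
    | succ p ih => rw [pow_succ, ih, e, submatrix_mul_equiv, pow_succ]
  have hX := (fromBlocks_toBlocks (Q * J' * P)).symm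
  rw [h'] at hX
  obtain ⟨S, -, -, hp⟩ := glj_pow ((Q * J' * P).toBlocks₁₁ - 1) (Q * J' * P).toBlocks₁₂
    ((Q * J' * P).toBlocks₂₂ - 1)
  rw [← glj_sub, ← hX] at hp
  have h1 : IsNilpotent ((Q * J' * P).toBlocks₁₁ - 1) := by
    refine ⟨a + b, (glj_zero (S := S (a + b)) (D := ((Q * J' * P).toBlocks₂₂ - 1) ^ (a + b)) ?_).1⟩
    rw [← hp, glj_conj_pow h hQP, hN, glj_N_zero le_rfl]
    simp
  have h2 : ((Q * J' * P).toBlocks₁₁ - 1) ^ a = 0 := by
    have h3 := (isNilpotent_charpoly_sub_pow_of_isNilpotent h1).eq_zero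
    have h4 := aeval_self_charpoly ((Q * J' * P).toBlocks₁₁ - 1)
    rw [sub_eq_zero.1 h3, map_pow, Polynomial.aeval_X, Fintype.card_fin] at h4
    exact h4
  have h5 : (J' - 1) ^ a * P = P * fromBlocks 0 (S a) 0 (((Q * J' * P).toBlocks₂₂ - 1) ^ a) := by
    rw [← h2, ← hp, glj_conj_pow h hQP, ← Matrix.mul_assoc, ← Matrix.mul_assoc, h, Matrix.one_mul]
  ext i j
  have h6 := congrFun (congrFun h5 (finSumFinEquiv.symm ⟨i, by omega⟩)) (Sum.inl j)
  rw [Matrix.mul_apply, Matrix.mul_apply, sum_eq_single (Sum.inr i)] at h6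
  · rw [hN, submatrix_apply, glj_N_pow, if_pos (by simp [add_comm]), one_mul,
      Fintype.sum_sum_type] at h6
    simpa [toBlocks₂₁] using h6
  · intro c _ hc
    rw [hN, submatrix_apply, glj_N_pow, if_neg, zero_mul]
    intro e
    refine hc (finSumFinEquiv.injective (Fin.ext ?_))
    rw [e]
    simp [add_comm]
  · simp

end Pool.Agent.SemiProp.GLn
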