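import Pool.Agent.Lib.MP_c1c6b6_al.GL5
import Pool.Agent.Lib.MP_c1c6b6_al.GLJ
import Pool.Agent.Lib.MP_c1c6b6_al.GLG3

set_option autoImplicit false

open Finset Matrix

namespace Pool.Agent.SemiProp.GLn

variable {F : Type} [Field F] {n k m : ℕ}

omit [Field F] in
theorem ker_congr {κ κ' : ℕ → F → ℂ} (h : ∀ j, 0 < j → j < n → κ j = κ' j)
    (M : Matrix (Fin n) (Fin n) F) : ker κ M = ker κ' M := by
  refine prod_congr rfl fun i _ => prod_congr rfl fun j _ => ?_
  by_cases h1 : (j : ℕ) = i + 1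
  · rw [if_pos h1, if_pos h1, h j (by omega) j.2]
  · rw [if_neg h1, if_neg h1]

omit [Field F] in
theorem ker_add {κ κ₁ κ₂ : ℕ → F → ℂ} (hk : 0 < k) (hn : k < n)
    (h : ∀ j, j ≠ k → κ₁ j = κ j ∧ κ₂ j = κ j) (h' : ∀ t, κ k t = κ₁ k t + κ₂ k t)
    (M : Matrix (Fin n) (Fin n) F) : ker κ M = ker κ₁ M + ker κ₂ M := by
  have h1 : ∀ κ' : ℕ → F → ℂ, (∀ j, j ≠ k → κ' j = κ j) → ker κ' M =
      κ' k (M ⟨k - 1, by omega⟩ ⟨k, hn⟩) * ∏ j ∈ univ.erase (⟨k, hn⟩ : Fin n),
        ∏ i : Fin n, if (j : ℕ) = i + 1 then κ j (M i j) else 1 := by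
    intro κ' h2
    rw [ker, prod_comm, ← mul_prod_erase _ _ (mem_univ (⟨k, hn⟩ : Fin n))]
    congr 1
    · rw [prod_eq_single (⟨k - 1, by omega⟩ : Fin n) (fun i _ hi => if_neg fun h3 =>
        hi (Fin.ext (by simp at h3 ⊢; omega))) (by simp), if_pos (by simp; omega)]
    · refine prod_congr rfl fun j hj => ?_
      rw [h2 j fun h3 => (mem_erase.1 hj).1 (Fin.ext h3)]
  rw [h1 κ fun _ _ => rfl, h1 κ₁ fun j hj => (h j hj).1, h1 κ₂ fun j hj => (h j hj).2, h', add_mul]

omit [Field F] in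
theorem tele (hn : 0 < n) (ψ : F → ℂ) (M : Matrix (Fin n) (Fin n) F) : ∑ k ∈ range (n + 1),
    (-1) ^ k * ker (fun j t => if j < k then ψ t else if j = k then 1 else 1 - ψ t) M = 0 := by
  obtain ⟨b, hb⟩ : ∃ b : ℕ → ℂ, b = fun k => if 0 < k ∧ k ≤ n then
      (-1) ^ k * ker (fun j t => if j < k then ψ t else 1 - ψ t) M else 0 := ⟨_, rfl⟩
  rw [sum_congr rfl (g := fun k => b k - b (k + 1)) fun k hk => ?_, sum_range_sub']
  · simp [hb]
  have hk' := Nat.lt_succ_iff.1 (mem_range.1 hk)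
  simp only [hb]
  rcases Nat.eq_zero_or_pos k with rfl | h0
  · rw [if_neg (by omega), if_pos (by omega), ker_congr (κ' := fun j t =>
      if j < 0 + 1 then ψ t else 1 - ψ t) fun j hj _ => funext fun t => by
        rw [if_neg (by omega), if_neg (by omega), if_neg (by omega)]]
    ring
  · rcases hk'.lt_or_eq with h2 | h2
    · rw [if_pos ⟨h0, hk'⟩, if_pos (by omega), ker_add h0 h2
        (κ₁ := fun j t => if j < k then ψ t else 1 - ψ t)
        (κ₂ := fun j t => if j < k + 1 then ψ t else 1 - ψ t) (fun j hj => ⟨funext fun t => by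
          rw [if_neg hj], funext fun t => by
          rw [if_neg hj]
          exact if_congr (by omega) rfl rfl⟩) (by simp)]
      ring
    · rw [if_pos ⟨h0, hk'⟩, if_neg (by omega), sub_zero, ker_congr (κ' := fun j t =>
        if j < k then ψ t else 1 - ψ t) fun j _ hj => funext fun t => by
          rw [if_pos (by omega), if_pos (by omega)]]

theorem uni_blocks (s : Matrix (Fin k ⊕ Fin m) (Fin k ⊕ Fin m) F) :
    Uni (s.submatrix finSumFinEquiv.symm finSumFinEquiv.symm) ↔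
      s.toBlocks₂₁ = 0 ∧ Uni s.toBlocks₁₁ ∧ Uni s.toBlocks₂₂ := by
  have h0 : Uni (s.submatrix finSumFinEquiv.symm finSumFinEquiv.symm) ↔
      ∀ i j : Fin k ⊕ Fin m, finSumFinEquiv j ≤ finSumFinEquiv i →
        s i j = (1 : Matrix (Fin k ⊕ Fin m) (Fin k ⊕ Fin m) F) i j := by
    rw [Uni, finSumFinEquiv.surjective.forall₂]
    simp [Matrix.one_apply]
  rw [h0]
  constructor
  · intro h
    refine ⟨?_, fun i j hij => ?_, fun i j hij => ?_⟩
    · ext i j
      exact (h (.inr i) (.inl j) (by simp [Fin.le_def]; omega)).trans (by simp)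
    · exact (h (.inl i) (.inl j) hij).trans (by simp [Matrix.one_apply])
    · exact (h (.inr i) (.inr j) (Nat.add_le_add_left hij k)).trans (by simp [Matrix.one_apply])
  · rintro ⟨h1, h2, h3⟩ (i | i) (j | j) hij
    · exact (h2 i j hij).trans (by simp [Matrix.one_apply])
    · simp [Fin.le_def] at hij
      omega
    · exact (congrFun (congrFun h1 i) j).trans (by simp)
    · exact (h3 i j (Nat.le_of_add_le_add_left hij)).trans (by simp [Matrix.one_apply])

omit [Field F] in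
theorem ker_blocks {κ : ℕ → F → ℂ} (h : ∀ t, κ k t = 1)
    (s : Matrix (Fin k ⊕ Fin m) (Fin k ⊕ Fin m) F) :
    ker κ (s.submatrix finSumFinEquiv.symm finSumFinEquiv.symm) =
      ker κ s.toBlocks₁₁ * ker (fun j => κ (k + j)) s.toBlocks₂₂ := by
  simp only [ker, Fin.prod_univ_add, submatrix_apply, finSumFinEquiv_symm_apply_castAdd,
    finSumFinEquiv_symm_apply_natAdd, Fin.val_castAdd, Fin.val_natAdd]
  congr 1
  · refine prod_congr rfl fun i _ => ?_
    rw [prod_eq_one (s := (univ : Finset (Fin m))) fun j _ => ?_, mul_one]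
    · rfl
    · split_ifs with h1
      · rw [show k + (j : ℕ) = k by omega, h]
      · rfl
  · refine prod_congr rfl fun i _ => ?_
    rw [prod_eq_one (s := (univ : Finset (Fin k))) fun j _ => if_neg (by omega), one_mul]
    refine prod_congr rfl fun j _ => ?_
    simp only [add_assoc, add_right_inj]
    rfl

variable [Fintype F]

/-- A weighted sum over the unitriangular group. -/
noncomputable def US (n : ℕ) (κ : ℕ → F → ℂ) (f : Matrix (Fin n) (Fin n) F → ℂ) : ℂ :=
  ∑ M, ind (Uni M) * (f M * ker κ M)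

variable (F) in
/-- The order of the unitriangular group. -/
noncomputable def uc (n : ℕ) : ℂ := ∑ M : Matrix (Fin n) (Fin n) F, ind (Uni M)

theorem uc_ne : uc F n ≠ 0 := sum_ind_ne glg_uni_one

theorem US_split {κ : ℕ → F → ℂ} (h : ∀ t, κ k t = 1)
    (f : Matrix (Fin (k + m)) (Fin (k + m)) F → ℂ) : US (k + m) κ f =
    ∑ a, ∑ d, ind (Uni a) * ker κ a * (ind (Uni d) * ker (fun j => κ (k + j)) d) *
      ∑ v, f ((fromBlocks a v 0 d).submatrix finSumFinEquiv.symm finSumFinEquiv.symm) := by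
  rw [US, ← sum_sub finSumFinEquiv.symm finSumFinEquiv.symm]
  simp only [uni_blocks, ker_blocks h, ind_and, mul_assoc, sum_blocks, toBlocks_fromBlocks₁₁,
    toBlocks_fromBlocks₂₂, mul_sum]
  exact sum_congr rfl fun _ _ => sum_congr rfl fun _ _ => sum_congr rfl fun _ _ => by ring

theorem US_one {κ : ℕ → F → ℂ} (h : ∀ j, ∑ t, κ j t = Fintype.card F) :
    US n κ (fun _ => 1) = uc F n := by
  classical
  have h1 : ∀ κ : ℕ → F → ℂ, US n κ (fun _ => 1) = ∏ i : Fin n, ∏ j : Fin n, ∑ t : F,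
      ind (j ≤ i → t = (1 : Matrix (Fin n) (Fin n) F) i j) *
        if (j : ℕ) = i + 1 then κ j t else 1 := by
    intro κ
    simp only [prod_univ_sum, Fintype.piFinset_univ, prod_mul_distrib]
    refine sum_congr rfl fun M _ => ?_
    rw [one_mul]
    congr 1
    by_cases hM : Uni M
    · rw [ind_pos hM, prod_eq_one fun i _ => prod_eq_one fun j _ => ind_pos (hM i j)]
    · rw [ind_neg hM]
      simp only [Uni, not_forall] at hM
      obtain ⟨i, j, h2, h3⟩ := hM
      refine (prod_eq_zero (mem_univ i) (prod_eq_zero (mem_univ j) ?_)).symm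
      exact ind_neg fun h4 => h3 (h4 h2)
  have h2 : uc F n = US (F := F) n (fun _ _ => 1) (fun _ => 1) := by simp [uc, US, ker]
  rw [h2, h1, h1]
  refine prod_congr rfl fun i _ => prod_congr rfl fun j _ => ?_
  split_ifs with h3
  · simp only [fun t : F => ind_pos (p := j ≤ i → t = (1 : Matrix (Fin n) (Fin n) F) i j)
      fun h4 => absurd (Fin.le_def.1 h4) (by omega), one_mul, h, sum_const, card_univ,
      nsmul_eq_mul, mul_one]
  · rfl

theorem uc_split : uc F (k + m) = uc F k * uc F m * Fintype.card (Matrix (Fin k) (Fin m) F) := by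
  rw [← US_one (κ := fun _ _ => 1) (by simp), US_split fun _ => rfl]
  simp [uc, ker, ← sum_mul, ← mul_sum]

variable [DecidableEq F]

/-- The average of a character against a kernel. -/
noncomputable def UA (n : ℕ) (κ : ℕ → F → ℂ) (x : II F) : ℂ := US n κ (fun M => ev x M) / uc F n

theorem UA_split {κ : ℕ → F → ℂ} (h : ∀ t, κ k t = 1) (z : II F) : UA (k + m) κ z =
    ∑ a ∈ lev F k, ∑ b ∈ lev F m, cc a b z * (UA k κ a * UA m (fun j => κ (k + j)) b) := by
  have h1 := uc_ne (F := F) (n := k)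
  have h2 := uc_ne (F := F) (n := m)
  have h3 := mat_ne (F := F) (α := Fin k) (β := Fin m)
  rw [UA, US_split h, uc_split, div_eq_iff (mul_ne_zero (mul_ne_zero h1 h2) h3)]
  simp only [ev_sub, del, Fintype.card_fin, mul_sum, sum_mul, UA, US]
  rw [sum_congr rfl fun a _ => sum_comm_cycle.symm, ← sum_comm_cycle]
  refine sum_congr rfl fun a _ => sum_congr rfl fun b _ => ?_
  rw [div_mul_div_comm, sum_mul_sum, mul_assoc, div_mul_eq_mul_div, mul_comm (uc F k * uc F m),
    ← mul_assoc, mul_div_cancel_right₀ _ (mul_ne_zero h1 h2)]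
  simp only [mul_sum, sum_mul]
  exact sum_congr rfl fun _ _ => sum_congr rfl fun _ _ => by ring

omit [DecidableEq F] in
theorem UA_congr {κ κ' : ℕ → F → ℂ} (h : ∀ j, 0 < j → j < n → κ j = κ' j) (x : II F) :
    UA n κ x = UA n κ' x := by
  simp only [UA, US, ker_congr h]

omit [DecidableEq F] in
theorem UA_reg {ψ : AddChar F ℂ} (hψ : ψ ≠ 1) (x : II F) :
    UA n (fun _ t => 1 - ψ t) x = ev x (J F n) := by
  rw [UA, div_eq_iff uc_ne, ← US_one (κ := fun _ t => 1 - ψ t) fun _ => by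
    simp [AddChar.sum_eq_zero_of_ne_one hψ], US, US, mul_sum]
  refine sum_congr rfl fun M _ => ?_
  by_cases hM : Uni M
  · by_cases h : ∀ i j : Fin n, (j : ℕ) = i + 1 → M i j ≠ 0
    · obtain ⟨P, Q, h1, -, h2⟩ := hM.conj_J h
      have h3 : ev x M = ev x (J F n) := by rw [h2, ev_cj x h1]
      rw [h3]
      ring
    · simp only [not_forall, not_not] at h
      obtain ⟨i, j, h1, h2⟩ := h
      have h3 : ker (fun _ t => 1 - ψ t) M = 0 :=
        prod_eq_zero (mem_univ i) (prod_eq_zero (mem_univ j) (by simp [h1, h2]))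
      simp [h3]
  · simp [ind_neg hM]

/-- The multiplicity in the Gelfand-Graev character. -/
noncomputable def dl (ψ : AddChar F ℂ) (x : II F) : ℂ := UA x.1 (fun _ => ψ) x

/-- The signed value at a regular unipotent element. -/
noncomputable def dr (x : II F) : ℂ := (-1) ^ x.1 * ev x (J F x.1)

theorem uc_eq [Fintype (UT F n)] : uc F n = Fintype.card (UT F n) := by
  simpa [uc] using (sum_UT (F := F) (n := n) fun _ => 1).symm

theorem dl01 {ψ : AddChar F ℂ} (hψ : ψ ≠ 1) (x : II F) : dl ψ x = 0 ∨ dl ψ x = 1 := by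
  classical
  have h := gelfand ψ hψ (isIr_ev (Fintype.card_fin x.1))
  rw [← uc_eq] at h
  rw [dl, UA, div_eq_zero_iff, or_iff_left uc_ne, div_eq_one_iff_eq uc_ne, US, ← sum_UT]
  exact h

omit [DecidableEq F] in
theorem dl_oo (ψ : AddChar F ℂ) : dl ψ (oo F) = 1 := by
  change UA 0 _ _ = 1
  rw [UA, div_eq_one_iff_eq uc_ne]
  simp [US, uc, ker, ev_oo]

omit [Fintype F] [DecidableEq F] in
theorem dr_oo : dr (oo F) = 1 := by
  change (-1) ^ 0 * ev (oo F) (J F 0) = 1
  simp [ev_oo]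

theorem dr_mul (x y : II F) : ∑ z ∈ lev F (x.1 + y.1), (cc x y z : ℂ) * dr z = dr x * dr y := by
  have h1 := Ind_eq (Fintype.card_fin x.1) (Fintype.card_fin y.1) (ι := Fin x.1 ⊕ Fin y.1) (by simp)
    ((J F (x.1 + y.1)).submatrix finSumFinEquiv finSumFinEquiv)
  obtain ⟨v, hv⟩ := J_blocks (F := F) x.1 y.1
  have h2 : Ind (Fin x.1) (Fin y.1) x y ((J F (x.1 + y.1)).submatrix finSumFinEquiv finSumFinEquiv) =
      par F (Fin x.1) (Fin y.1) * (ev x (J F x.1) * ev y (J F y.1)) := by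
    rw [Ind, par, sum_mul]
    refine sum_congr rfl fun P _ => ?_
    by_cases hP : P.toBlocks₂₁ = 0
    · rw [Par, ind_and, ind_pos hP, mul_one, ← sum_inv, sum_mul]
      refine sum_congr rfl fun Q _ => ?_
      by_cases h : P * Q = 1 ∧ Q * P = 1
      · rw [X0_conj x y h.2 (inv_blocks h.1 hP).1, hv, X0, ind_pos (toBlocks_fromBlocks₂₁ _ _ _ _),
          one_mul, toBlocks_fromBlocks₁₁, toBlocks_fromBlocks₂₂]
      · rw [ind_neg h, zero_mul, zero_mul]
    · rw [ind_neg fun h : Par P => hP h.2, zero_mul]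
      refine sum_eq_zero fun Q _ => ?_
      by_cases h : P * Q = 1 ∧ Q * P = 1
      · rw [X0, ind_neg fun h3 => hP (unique_inv h.1 h3), zero_mul, mul_zero]
      · rw [ind_neg h, zero_mul]
  rw [h2, mul_right_inj' par_ne] at h1
  rw [dr, dr, mul_mul_mul_comm, h1, ← pow_add, mul_sum]
  refine sum_congr rfl fun z hz => ?_
  rw [dr, ev_sub, mul_left_comm, ← mem_lev.1 hz]

theorem dl_dr {ψ : AddChar F ℂ} (hψ : ψ ≠ 1) {x : II F} (hx : x ≠ oo F) :
    ∑ k ∈ range (x.1 + 1), ∑ a ∈ lev F k, ∑ b ∈ lev F (x.1 - k),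
      (cc a b x : ℂ) * dl ψ a * dr b = 0 := by
  have hn : 0 < x.1 := Nat.pos_of_ne_zero fun h => hx ((deg_oo x).1 h)
  have h1 : ∀ k ∈ range (x.1 + 1), ∑ a ∈ lev F k, ∑ b ∈ lev F (x.1 - k),
      (cc a b x : ℂ) * dl ψ a * dr b = (-1) ^ x.1 * ((-1) ^ k *
      UA x.1 (fun j t => if j < k then ψ t else if j = k then 1 else 1 - ψ t) x) := by
    intro k hk
    have hk' := Nat.add_sub_cancel' (Nat.lt_succ_iff.1 (mem_range.1 hk))
    have h2 := UA_split (k := k) (m := x.1 - k)
      (κ := fun j t => if j < k then ψ t else if j = k then 1 else 1 - ψ t) (by simp) x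
    rw [hk'] at h2
    rw [h2, ← mul_assoc, mul_sum]
    refine sum_congr rfl fun a ha => ?_
    rw [mul_sum]
    refine sum_congr rfl fun b hb => ?_
    rw [UA_congr (κ' := fun _ => ψ) fun j _ hj => funext fun t => if_pos hj,
      UA_congr (n := x.1 - k) (κ' := fun _ t => 1 - ψ t) fun j hj _ => funext fun t => by
        rw [if_neg (by omega), if_neg (by omega)], UA_reg hψ, dl, dr, mem_lev.1 ha, mem_lev.1 hb]
    have h3 : (-1 : ℂ) ^ x.1 * (-1) ^ k = (-1) ^ (x.1 - k) := by
      conv_lhs => rw [← hk', pow_add, mul_right_comm, ← mul_pow]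
      simp
    rw [h3]
    ring
  rw [sum_congr rfl h1, ← mul_sum]
  refine mul_eq_zero_of_right _ ?_
  simp only [UA, US, ← mul_div_assoc, ← sum_div, mul_sum]
  rw [sum_comm, sum_eq_zero, zero_div]
  intro M _
  simp only [mul_left_comm ((-1 : ℂ) ^ _), ← mul_sum]
  rw [tele hn, mul_zero, mul_zero]

end Pool.Agent.SemiProp.GLn
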