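import Pool.Agent.Lib.MP_c1c6b6_al.GLA4

set_option autoImplicit false

open Finset

namespace Pool.Agent.SemiProp.GLn

variable {I : Type} [DecidableEq I] {S : PSH I}

theorem PSH.H_zero (r : I) {η : I → ℤ} (h : η S.o = 1) : S.H r η 0 = 1 := by
  refine S.R_ext fun x => ?_
  rw [S.co_H, S.one_def, S.co_B]
  by_cases hx : x = S.o
  · rw [if_pos ((S.pure_zero _ _).2 hx), if_pos hx.symm, hx, h]
  · rw [if_neg fun h1 => hx ((S.pure_zero _ _).1 h1), if_neg (Ne.symm hx)]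

open Classical in
theorem PSH.ip_H (r : I) (η η' : I → ℤ) (k : ℕ) : S.ip (S.H r η k) (S.H r η' k) =
    ∑ a ∈ S.lev (k * S.deg r), if S.Pure r a k then η a * η' a else 0 := by
  conv_lhs => rw [PSH.H, S.ip_sum]
  refine sum_congr rfl fun a _ => ?_
  rw [S.co_H]
  split_ifs <;> simp

theorem PSH.ev_H (r : I) (η η' : I → ℤ) (k : ℕ) :
    S.lc η' (S.H r η k) = S.ip (S.H r η k) (S.H r η' k) := by
  rw [PSH.ip_H, PSH.H, map_sum]
  refine sum_congr rfl fun a _ => ?_
  rw [map_zsmul, S.lc_B]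
  split_ifs <;> simp

theorem PSH.Cusp.orth {r : I} (hr : S.Cusp r) {η : I → ℤ}
    (h : ∀ k, S.ip (S.H r η k) (S.H r η k) = 1) (i j : ℕ) :
    S.ip (S.H r η i) (S.H r η j) = if i = j then 1 else 0 := by
  split_ifs with h1
  · rw [h1, h]
  · by_contra h2
    obtain ⟨x, h3, h4⟩ := S.of_ip_ne h2
    simp only [S.co_H, ne_eq, ite_eq_right_iff, Classical.not_imp] at h3 h4
    exact h1 (hr.uniq h3.1 h4.1)

theorem PSH.Mult.norm_H {η : I → ℤ} (h : S.Mult η) (h01 : ∀ x, η x = 0 ∨ η x = 1) {r : I}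
    (hr : η r = 1) (k : ℕ) : S.ip (S.H r η k) (S.H r η k) = 1 := by
  have e1 : ∀ k, S.lc η (S.B r ^ k) = 1 := by
    intro k
    induction k with
    | zero => rw [pow_zero, h.ev_one]
    | succ k ih => rw [pow_succ, h.ev, ih, S.lc_B, hr, one_mul]
  have e2 := e1 k
  rw [S.R_repr (S.B r ^ k) (S.lev (k * S.deg r))
    (fun x hx => (S.mem_lev _ _).2 (PSH.Pure.deg_eq hx)), map_sum] at e2
  simp only [map_zsmul, S.lc_B, smul_eq_mul] at e2
  have hp := S.pos_pow (S.pos_B r) k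
  rw [PSH.ip_H]
  apply le_antisymm
  · rw [← e2]
    refine sum_le_sum fun a _ => ?_
    have h1 := hp a
    split_ifs with h2
    · have h3 : S.co a (S.B r ^ k) ≠ 0 := h2
      rcases h01 a with h4 | h4 <;> rw [h4] <;> omega
    · rcases h01 a with h4 | h4 <;> rw [h4] <;> omega
  · obtain ⟨a, ha, h1⟩ := exists_ne_zero_of_sum_ne_zero (e2.trans_ne one_ne_zero)
    obtain ⟨h2, h3⟩ := mul_ne_zero_iff.1 h1
    refine le_trans ?_ (single_le_sum (fun b _ => ?_) ha)
    · rw [if_pos (show S.Pure r a k from h2), (h01 a).resolve_left h3, mul_one]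
    · split_ifs
      · exact mul_self_nonneg _
      · exact le_rfl

open PowerSeries in
theorem PSH.Cusp.norm_H' {r : I} (hr : S.Cusp r) {η η' : I → ℤ} (h : S.Mult η) (h' : S.Mult η')
    (hi : S.Inv η η') (hn : ∀ k, S.ip (S.H r η k) (S.H r η k) = 1) (k : ℕ) :
    S.ip (S.H r η' k) (S.H r η' k) = 1 := by
  have e : ∀ {θ : I → ℤ}, S.Mult θ → (PowerSeries.mk fun k => S.lc θ (S.H r η k)) *
      (PowerSeries.mk fun k => S.lc θ (S.H r η' k)) = 1 := by
    intro θ hθ
    ext n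
    have h1 := congrArg (S.lc θ) (hr.conv hi n)
    simp only [map_sum, hθ.ev] at h1
    simp only [coeff_mul, coeff_mk, coeff_one, h1]
    split_ifs
    · exact hθ.ev_one
    · exact map_zero _
  have e1 := e h
  have e2 := e h'
  simp only [PSH.ev_H, hn] at e1 e2
  simp only [S.ip_comm (S.H r η _)] at e2
  have e3 : (PowerSeries.mk fun k => S.ip (S.H r η' k) (S.H r η' k)) =
      PowerSeries.mk fun _ => (1 : ℤ) := by
    rw [← one_mul (PowerSeries.mk fun k => S.ip (S.H r η' k) (S.H r η' k)), ← e1, mul_assoc, e2,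
      mul_one]
  have e4 := congrArg (coeff k) e3
  rwa [coeff_mk, coeff_mk] at e4

/-- The statement on the highest derivative inside the ring. -/
def PSH.HDR (S : PSH I) (η : I → ℤ) (x : I) : Prop :=
  ∃ k y, ∃ ε : ℤ, (ε = 1 ∨ ε = -1) ∧ (x ≠ S.o → 0 < k) ∧
    S.adj (S.Th η k) (S.B x) = ε • S.B y ∧ ∀ j, k < j → S.adj (S.Th η j) (S.B x) = 0

theorem PSH.co_adj_sum (s : Finset I) (f : I → ℤ) (x b : I) :
    S.co b (S.adj (∑ a ∈ s, f a • S.B a) (S.B x)) = ∑ a ∈ s, f a * S.c a b x := by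
  simp only [map_sum, map_zsmul, AddMonoidHom.finsetSum_apply, AddMonoidHom.smul_apply,
    S.co_adj_B, smul_eq_mul]

theorem PSH.Cusp.far {r : I} (hr : S.Cusp r) (η : I → ℤ) (y : S.R) :
    ∃ N, ∀ j, N < j → S.adj (S.H r η j) y = 0 := by
  obtain ⟨s, hs⟩ := S.R_fin y
  refine ⟨s.sup S.deg, fun j hj => S.R_ext fun b => ?_⟩
  rw [S.co_adj, map_zero]
  by_contra h1
  obtain ⟨x, h2, h3⟩ := S.of_ip_ne h1
  obtain ⟨a, b', h4, _, h5⟩ := S.of_co_mul h2
  simp only [S.co_H, ne_eq, ite_eq_right_iff, Classical.not_imp] at h4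
  have h6 := h4.1.deg_eq
  have h7 := S.c_deg _ _ _ h5
  have h8 : S.deg x ≤ s.sup S.deg := le_sup (hs x h3)
  have h9 : j * 1 ≤ j * S.deg r := Nat.mul_le_mul_left j (S.deg_pos hr.1)
  omega

theorem PSH.Cusp.hd_pure {r : I} (hr : S.Cusp r) {η η' : I → ℤ} (h : S.Mult η) (ho : η' S.o = 1)
    (hi : S.Inv η' η) (hn : ∀ k, S.ip (S.H r η k) (S.H r η k) = 1) {x : I} {k₀ : ℕ}
    (hx : S.Pure r x k₀) : S.HDR η x := by
  classical
  have hd := S.deg_pos hr.1
  have e1 : ∀ j, S.adj (S.Th η (j * S.deg r)) (S.B x) = S.adj (S.H r η j) (S.B x) := by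
    intro j
    refine S.R_ext fun b => ?_
    rw [PSH.Th, PSH.H, PSH.co_adj_sum, PSH.co_adj_sum]
    refine sum_congr rfl fun a ha => ?_
    by_cases hc : S.c a b x = 0
    · rw [hc]; simp
    obtain ⟨i, _, _, h1, _⟩ := hr.split hx hc
    have h2 : i = j := Nat.eq_of_mul_eq_mul_right hd (h1.deg_eq.symm.trans ((S.mem_lev _ _).1 ha))
    rw [if_pos (h2 ▸ h1)]
  have e2 : ∀ m, S.adj (S.Th η m) (S.B x) ≠ 0 → ∃ j, m = j * S.deg r := by
    intro m hm
    by_contra h1
    refine hm (S.R_ext fun b => ?_)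
    rw [PSH.Th, PSH.co_adj_sum, map_zero]
    refine sum_eq_zero fun a ha => ?_
    by_cases hc : S.c a b x = 0
    · rw [hc]; simp
    obtain ⟨i, _, _, h2, _⟩ := hr.split hx hc
    exact absurd ⟨i, ((S.mem_lev _ _).1 ha).symm.trans h2.deg_eq⟩ h1
  have hex := hr.far η (S.B x)
  have hk := Nat.find_spec hex
  have hne : S.adj (S.H r η (Nat.find hex)) (S.B x) ≠ 0 := by
    intro h0
    rcases Nat.eq_zero_or_pos (Nat.find hex) with h1 | h1
    · rw [h1, PSH.H_zero r h.1, S.adj_one] at h0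
      have h2 := S.co_B_self x
      rw [h0, map_zero] at h2
      exact zero_ne_one h2
    · refine Nat.find_min hex (m := Nat.find hex - 1) (by omega) fun j hj => ?_
      rcases Nat.lt_or_ge (Nat.find hex) j with h2 | h2
      · exact hk j h2
      · rw [show j = Nat.find hex by omega]; exact h0
  obtain ⟨N, hN⟩ := hr.far η' (S.adj (S.H r η (Nat.find hex)) (S.B x))
  have hle := PSH.fermion (hr.gl h) (hr.orth hn) (PSH.H_zero r h.1) (PSH.H_zero r ho) (hr.conv hi)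
    (S.B x) _ N hk hN
  rw [S.ip_B, S.co_B_self] at hle
  obtain ⟨y, ε, h1, h2⟩ := S.norm_one _ hne hle
  refine ⟨Nat.find hex * S.deg r, y, ε, h1, fun hxo => Nat.mul_pos ?_ hd, (e1 _).trans h2,
    fun m hm => ?_⟩
  · by_contra h3
    have h4 := hk 1 (by omega)
    have h5 : S.H r η 1 = η r • S.B r := by
      refine S.R_ext fun a => ?_
      rw [S.co_H, map_zsmul, S.co_B]
      by_cases ha : a = r
      · rw [if_pos ((S.pure_one _ _).2 ha), if_pos ha.symm, ha, smul_eq_mul, mul_one]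
      · rw [if_neg fun h6 => ha ((S.pure_one _ _).1 h6), if_neg (Ne.symm ha), smul_zero]
    have h6 : η r ≠ 0 := by
      intro h7
      have h8 := hn 1
      rw [h5, h7, zero_smul, map_zero] at h8
      exact zero_ne_one h8
    refine hxo (hx.eq_o fun b => ?_)
    have h7 := congrArg (S.co b) h4
    rw [h5, map_zsmul, AddMonoidHom.smul_apply, map_zsmul, S.co_adj_B, map_zero, smul_eq_mul] at h7
    exact_mod_cast (mul_eq_zero.1 h7).resolve_left h6
  · by_contra h3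
    obtain ⟨j, h4⟩ := e2 m h3
    rw [h4] at h3 hm
    exact h3 ((e1 j).trans (hk j (lt_of_mul_lt_mul_right hm (Nat.zero_le _))))

theorem PSH.Mult.hdr {η : I → ℤ} (h : S.Mult η)
    (hp : ∀ r, S.Cusp r → ∀ x k, S.Pure r x k → S.HDR η x) (n : ℕ) :
    ∀ x, S.deg x = n → S.HDR η x := by
  induction n using Nat.strong_induction_on with
  | _ n ih =>
  intro x hx
  have key : ∀ k z y (ε : ℤ), (ε = 1 ∨ ε = -1) → S.adj (S.Th η k) (S.B z) = ε • S.B y →
      ∃ a, S.c a y z ≠ 0 := by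
    intro k z y ε h1 h2
    have h3 := congrArg (S.co y) h2
    rw [PSH.Th, PSH.co_adj_sum, map_zsmul, S.co_B_self, smul_eq_mul, mul_one] at h3
    obtain ⟨a, _, h4⟩ := exists_ne_zero_of_sum_ne_zero (h3.trans_ne (by omega))
    exact ⟨a, Nat.cast_ne_zero.1 (mul_ne_zero_iff.1 h4).2⟩
  by_cases ho : x = S.o
  · refine ⟨0, x, 1, Or.inl rfl, fun h1 => absurd ho h1, ?_, fun j hj => S.R_ext fun b => ?_⟩
    · have h1 : S.Th η 0 = 1 := by
        refine S.R_ext fun a => ?_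
        rw [S.co_Th, S.one_def, S.co_B]
        by_cases ha : a = S.o
        · rw [if_pos ((S.deg_o _).2 ha), if_pos ha.symm, ha, h.1]
        · rw [if_neg fun h2 => ha ((S.deg_o _).1 h2), if_neg (Ne.symm ha)]
      rw [h1, S.adj_one, one_smul]
    · rw [PSH.Th, PSH.co_adj_sum, map_zero]
      refine sum_eq_zero fun a ha => ?_
      by_cases hc : S.c a b x = 0
      · rw [hc]; simp
      have h1 := S.c_deg _ _ _ hc
      have h2 := (S.mem_lev _ _).1 ha
      rw [ho, S.deg_o'] at h1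
      omega
  obtain ⟨r, hr, hf⟩ := PSH.exists_cusp _ x rfl ho
  obtain ⟨p, k, q, a1, a2, a3⟩ := hr.decomp _ x rfl
  obtain ⟨x', hx'⟩ := hr.basis a1 a2
  have e0 : x = x' := S.co_B_ne (by rw [← hx', S.co_B_mul]; exact Nat.cast_ne_zero.2 a3)
  rw [← e0] at hx'
  have hpo : p ≠ S.o := fun h1 => hf (by rw [h1] at a3; exact S.eq_of_left a3 ▸ a2)
  have d1 := S.c_deg _ _ _ a3
  have d2 := S.deg_pos hpo
  obtain ⟨k₁, y₁, ε₁, b1, b2, b3, b4⟩ := hp r hr p k a1
  obtain ⟨k₂, y₂, ε₂, c1, _, c3, c4⟩ := ih (S.deg q) (by omega) q rfl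
  obtain ⟨u, hu⟩ := key _ _ _ _ b1 b3
  obtain ⟨v, hv⟩ := key _ _ _ _ c1 c3
  obtain ⟨_, j, _, _, f1⟩ := hr.split a1 hu
  obtain ⟨y, hy⟩ := hr.basis f1 (a2.right hv)
  have top : ∀ m (t : ℕ × ℕ), t.1 + t.2 = m →
      S.adj (S.Th η t.1) (S.B p) * S.adj (S.Th η t.2) (S.B q) ≠ 0 → t.1 ≤ k₁ ∧ t.2 ≤ k₂ := by
    intro m t _ h2
    constructor
    · by_contra h3; exact h2 (by rw [b4 _ (by omega), zero_mul])
    · by_contra h3; exact h2 (by rw [c4 _ (by omega), mul_zero])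
  refine ⟨k₁ + k₂, y, ε₁ * ε₂, ?_, fun _ => by have := b2 hpo; omega, ?_, fun m hm => ?_⟩
  · rcases b1 with b1 | b1 <;> rcases c1 with c1 | c1 <;> simp [b1, c1]
  · rw [← hx', h.gl.mul, gla_ad _ _ k₁ k₂, if_pos rfl, b3, c3, smul_mul_smul_comm, hy]
    intro t h1 h2
    have h3 := top _ t h1 h2
    exact Prod.ext (by simp only; omega) (by simp only; omega)
  · rw [← hx', h.gl.mul]
    refine sum_eq_zero fun t ht => ?_
    by_contra h2
    have h1 := gla_mem.1 ht
    have h3 := top _ t h1 h2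
    omega

theorem PSH.hd_of_hdr {η : I → ℤ} (h : ∀ x, S.HDR η x) : S.HD fun x => (η x : ℂ) := by
  intro x
  obtain ⟨k, y, ε, h1, h2, h3, h4⟩ := h x
  have e : ∀ k b, S.der (fun x => (η x : ℂ)) k x b = (S.co b (S.adj (S.Th η k) (S.B x)) : ℤ) := by
    intro k b
    rw [PSH.der, PSH.Th, PSH.co_adj_sum]
    push_cast
    exact sum_congr rfl fun a _ => mul_comm _ _
  refine ⟨k, y, ε, by exact_mod_cast h1, h2, fun b => ?_, fun j hj b => ?_⟩
  · rw [e, h3, map_zsmul, S.co_B]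
    by_cases hb : b = y
    · rw [if_pos hb, if_pos hb.symm, smul_eq_mul, mul_one]
    · rw [if_neg hb, if_neg (Ne.symm hb), smul_zero, Int.cast_zero]
  · rw [e, h4 j hj, map_zero, Int.cast_zero]

variable (S)

theorem PSH.hd (δ δ' : I → ℂ) (h01 : ∀ x, δ x = 0 ∨ δ x = 1) (ho : δ S.o = 1) (ho' : δ' S.o = 1)
    (hmul : ∀ x y, ∑ z ∈ S.lev (S.deg x + S.deg y), (S.c x y z : ℂ) * δ' z = δ' x * δ' y)
    (hinv : ∀ x, x ≠ S.o → ∑ k ∈ range (S.deg x + 1), ∑ a ∈ S.lev k, ∑ b ∈ S.lev (S.deg x - k),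
      (S.c a b x : ℂ) * δ a * δ' b = 0)
    (hc : ∀ x, S.Cusp x → δ' x ≠ 0) : S.HD δ ∧ S.HD δ' := by
  have hinv' : ∀ x, x ≠ S.o → ∑ p ∈ S.prs (S.deg x), (S.c p.1 p.2 x : ℂ) * δ p.1 * δ' p.2 = 0 :=
    fun x hx => by rw [S.sum_prs]; exact hinv x hx
  have i1 : ∀ x, δ x ∈ (Int.castRingHom ℂ).range := fun x => by
    rcases h01 x with h | h <;> rw [h]
    · exact zero_mem _
    · exact one_mem _
  have i2 : ∀ n x, S.deg x = n → δ' x ∈ (Int.castRingHom ℂ).range := by
    intro n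
    induction n using Nat.strong_induction_on with
    | _ n ih =>
    intro x hx
    by_cases hxo : x = S.o
    · rw [hxo, ho']; exact one_mem _
    have h1 := hinv' x hxo
    rw [← add_sum_erase _ _ (a := (S.o, x))
      ((S.mem_prs _ _).2 (by simp only [S.deg_o', zero_add]))] at h1
    simp only [S.c_left, if_true, ho, Nat.cast_one, one_mul] at h1
    rw [eq_neg_of_add_eq_zero_left h1]
    refine neg_mem (sum_mem fun p hp => ?_)
    by_cases hcp : S.c p.1 p.2 x = 0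
    · rw [hcp]; simp
    have h2 := S.c_deg _ _ _ hcp
    have h3 : p.1 ≠ S.o := fun h4 => (mem_erase.1 hp).1
      (Prod.ext h4 (S.eq_of_left (by rwa [h4] at hcp)))
    have h4 := S.deg_pos h3
    exact mul_mem (mul_mem (natCast_mem _ _) (i1 _)) (ih (S.deg p.2) (by omega) _ rfl)
  choose η hη using i1
  choose η' hη' using fun x => i2 _ x rfl
  obtain rfl : δ = fun x => (η x : ℂ) := funext fun x => (hη x).symm
  obtain rfl : δ' = fun x => (η' x : ℂ) := funext fun x => (hη' x).symm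
  beta_reduce at h01 ho ho' hmul hinv' hc
  have g01 : ∀ x, η x = 0 ∨ η x = 1 := fun x => by exact_mod_cast h01 x
  have go : η S.o = 1 := by exact_mod_cast ho
  have go' : η' S.o = 1 := by exact_mod_cast ho'
  have gm' : S.Mult η' := ⟨go', fun x y => by exact_mod_cast hmul x y⟩
  have gi : S.Inv η η' := by
    intro x
    split_ifs with hx
    · rw [hx, sum_eq_single (S.o, S.o)]
      · simp [S.c_left, go, go']
      · intro p hp hne
        have h1 := (S.mem_prs _ _).1 hp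
        rw [S.deg_o'] at h1
        exact absurd (Prod.ext ((S.deg_o _).1 (by omega)) ((S.deg_o _).1 (by omega))) hne
      · intro h1
        exact absurd ((S.mem_prs _ _).2 (by simp only [S.deg_o', add_zero])) h1
    · have h1 := hinv' x hx
      simp only [mul_assoc] at h1
      exact_mod_cast h1
  have gm : S.Mult η := gi.mult gm' go
  have gr : ∀ r, S.Cusp r → η r = 1 := by
    intro r hr
    have h1 := hr.sum fun p => η p.1 * η' p.2
    simp only [smul_eq_mul, gi r, if_neg hr.1, go, go', mul_one, one_mul] at h1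
    have h2 : η' r ≠ 0 := by exact_mod_cast hc r hr
    rcases g01 r with h3 | h3 <;> omega
  constructor
  · refine PSH.hd_of_hdr fun x => gm.hdr (fun r hr z k hz => ?_) _ x rfl
    exact hr.hd_pure gm go' gi.symm (gm.norm_H g01 (gr r hr)) hz
  · refine PSH.hd_of_hdr fun x => gm'.hdr (fun r hr z k hz => ?_) _ x rfl
    exact hr.hd_pure gm' go gi (hr.norm_H' gm gm' gi (gm.norm_H g01 (gr r hr))) hz

end Pool.Agent.SemiProp.GLn
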