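import Pool.Agent.Lib.MP_c1c6b6_al.GL6
import Pool.Agent.Lib.MP_c1c6b6_al.GLA5

set_option autoImplicit false

open Finset Matrix

namespace Pool.Agent.SemiProp.GLn

variable {F : Type} [Field F] {ι : Type} [Fintype ι] [DecidableEq ι]

/-- `x` vanishes at the unipotent matrices with a Jordan block of size more than `K`. -/
def Top (x : II F) (K : ℕ) : Prop :=
  ∀ (ι : Type) [Fintype ι] [DecidableEq ι] (M : Matrix ι ι F),
    IsNilpotent (M - 1) → ev x M ≠ 0 → (M - 1) ^ K = 0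

theorem top_deg (x : II F) : Top x x.1 := by
  intro ι _ _ M hM h
  have h1 : Fintype.card ι = x.1 := by_contra fun h1 => h (ev_card h1 M)
  have h2 := (isNilpotent_charpoly_sub_pow_of_isNilpotent hM).eq_zero
  have h3 := aeval_self_charpoly (M - 1)
  rwa [sub_eq_zero.1 h2, map_pow, Polynomial.aeval_X, h1] at h3

theorem exists_top {x : II F} (hx : x.1 ≠ 0) : ∃ (k m : ℕ) (g : Matrix (Fin m) (Fin m) F),
    IsLeast {K | Top x K} (k + 1) ∧ k + 1 + m = x.1 ∧ (g - 1) ^ (k + 1) = 0 ∧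
      ev x (fromBlocks (J F (k + 1)) 0 0 g) ≠ 0 := by
  classical
  have h0 : ∃ K, Top x K := ⟨_, top_deg x⟩
  obtain ⟨k, hk⟩ : ∃ k, Nat.find h0 = k + 1 := Nat.exists_eq_succ_of_ne_zero fun h => by
    have h1 := (h ▸ Nat.find_spec h0) (Fin x.1) 1 (by simp) (ev_one_ne (by simp))
    have : NeZero x.1 := ⟨hx⟩
    simp at h1
  have h1 : Top x (k + 1) := hk ▸ Nat.find_spec h0
  have h2 : ¬ Top x k := Nat.find_min h0 (by omega)
  simp only [Top, not_forall] at h2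
  obtain ⟨ι, _, _, M, h3, h4, h5⟩ := h2
  have h6 := h1 ι M h3 h4
  obtain ⟨m, g, P, Q, h7, h8, h9, rfl⟩ := cyc_split h6 h5
  rw [ev_conj x h8 h9] at h4
  refine ⟨k, m, g, ⟨h1, fun K hK => hk ▸ Nat.find_min' h0 hK⟩, ?_, ?_, h4⟩
  · by_contra h10
    exact h4 (ev_card (by simpa using h10) _)
  · rw [glj_conj_pow h9 h8] at h6
    have h10 := conj_conj h9 ((fromBlocks (J F (k + 1)) 0 0 g - 1) ^ (k + 1))
    rw [h6, Matrix.mul_zero, Matrix.zero_mul] at h10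
    exact (of_pow_blocks h10.symm).2

variable [Fintype F]

theorem Top.sum {x : II F} {K : ℕ} (h : Top x K) {g : Matrix ι ι F} (hg : IsNilpotent (g - 1)) :
    ∑ v, ev x (fromBlocks (J F K) v 0 g) =
      (∑ v, ind ((fromBlocks (J F K) v 0 g - 1) ^ K = 0)) * ev x (fromBlocks (J F K) 0 0 g) := by
  rw [sum_mul]
  refine sum_congr rfl fun v _ => ?_
  by_cases h1 : (fromBlocks (J F K) v 0 g - 1) ^ K = 0
  · obtain ⟨P, Q, h2, -, h3⟩ := ext_split v g h1
    rw [ind_pos h1, one_mul, h3, ev_cj x h2]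
  · rw [ind_neg h1, zero_mul]
    exact by_contra fun h2 => h1 (h _ _ (nil_blocks v hg) h2)

theorem Top.zero {x : II F} {K j : ℕ} (h : Top x K) (hj : K < j) {g : Matrix ι ι F}
    (hg : IsNilpotent (g - 1)) : ∑ v, ev x (fromBlocks (J F j) v 0 g) = 0 :=
  sum_eq_zero fun v _ => by_contra fun h2 =>
    absurd (of_pow_blocks (h _ _ (nil_blocks v hg) h2)).1 (by omega)

variable [DecidableEq F]

theorem del_J (x : II F) (j : ℕ) (g : Matrix ι ι F) : ∑ v, ev x (fromBlocks (J F j) v 0 g) =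
    Fintype.card (Matrix (Fin j) ι F) * (-1) ^ j *
      ∑ b ∈ lev F (Fintype.card ι), (psh F).der dr j x b * ev b g := by
  rw [del, Fintype.card_fin, sum_comm, mul_assoc]
  congr 1
  rw [mul_sum]
  refine sum_congr rfl fun b _ => ?_
  change _ = _ * ((∑ a ∈ lev F j, (cc a b x : ℂ) * dr a) * _)
  rw [sum_mul, mul_sum]
  refine sum_congr rfl fun a ha => ?_
  have h1 : (-1 : ℂ) ^ j * (-1) ^ j = 1 := by rw [← mul_pow]; simp
  rw [dr, mem_lev.1 ha]
  linear_combination (-(cc a b x : ℂ) * ev a (J F j) * ev b g) * h1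

theorem dr_cusp {x : II F} (h : (psh F).Cusp x) : dr x ≠ 0 := by
  obtain ⟨k, m, g, h1, h2, h3, h4⟩ := exists_top fun h0 => h.1 ((deg_oo x).1 h0)
  have h5 := h1.1.sum ⟨_, h3⟩
  have h6 := mul_ne_zero (sum_ind_ne (p := fun v => (fromBlocks (J F (k + 1)) v 0 g - 1) ^ (k + 1)
    = 0) (pow_blocks h3)) h4
  rw [← h5, del] at h6
  obtain ⟨a, ha, h7⟩ := exists_ne_zero_of_sum_ne_zero (right_ne_zero_of_mul h6)
  obtain ⟨b, hb, h8⟩ := exists_ne_zero_of_sum_ne_zero h7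
  have h9 : cc a b x ≠ 0 := Nat.cast_ne_zero.1 (left_ne_zero_of_mul h8)
  rw [mem_lev, Fintype.card_fin] at ha hb
  rcases h.2 a b h9 with h10 | h10
  · rw [← (psh F).deg_o] at h10
    exact absurd (ha.symm.trans h10) (by omega)
  · obtain rfl : a = x := by
      by_contra h11
      exact h9 (h10 ▸ (cc_right a x).trans (if_neg h11))
    rw [dr, ha]
    exact mul_ne_zero (by simp) (left_ne_zero_of_mul (right_ne_zero_of_mul h8))

theorem hd_gl {ψ : AddChar F ℂ} (hψ : ψ ≠ 1) : (psh F).HD (dl ψ) ∧ (psh F).HD dr :=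
  (psh F).hd (dl ψ) dr (dl01 hψ) (dl_oo ψ) dr_oo dr_mul (fun _ => dl_dr hψ) fun _ => dr_cusp

omit [DecidableEq F] in
theorem exists_psi : ∃ ψ : AddChar F ℂ, ψ ≠ 1 := by
  obtain ⟨ψ, h⟩ := (AddChar.exists_apply_ne_zero (α := F) (a := 1)).2 one_ne_zero
  exact ⟨ψ, fun h1 => h (by rw [h1]; rfl)⟩

theorem der_deg {η : II F → ℂ} {k : ℕ} {x y : II F} (h : (psh F).der η k x y ≠ 0) :
    x.1 = k + y.1 := by
  obtain ⟨a, ha, h1⟩ := exists_ne_zero_of_sum_ne_zero h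
  rw [← mem_lev.1 ha]
  exact cc_deg (Nat.cast_ne_zero.1 (left_ne_zero_of_mul h1))

theorem sum_der {η : II F → ℂ} {k : ℕ} {x y : II F} {ε : ℂ}
    (h : ∀ b, (psh F).der η k x b = if b = y then ε else 0) (f : II F → ℂ) {n : ℕ}
    (hf : y.1 ≠ n → f y = 0) : ∑ b ∈ lev F n, (psh F).der η k x b * f b = ε * f y := by
  simp only [h, ite_mul, zero_mul, sum_ite_eq', mem_lev]
  split_ifs with h1
  · rfl
  · rw [hf h1, mul_zero]

theorem descend {x : II F} (hx : x.1 ≠ 0) : ∃ (K : ℕ) (y : II F), IsLeast {K | Top x K} K ∧ 0 < K ∧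
    x.1 = K + y.1 ∧ ∀ (ι : Type) [Fintype ι] [DecidableEq ι] (g : Matrix ι ι F),
      IsNilpotent (g - 1) → Fintype.card (Matrix (Fin K) ι F) * ‖ev y g‖ =
        ‖∑ v, ind ((fromBlocks (J F K) v 0 g - 1) ^ K = 0)‖ * ‖ev x (fromBlocks (J F K) 0 0 g)‖ := by
  obtain ⟨ψ, hψ⟩ := exists_psi (F := F)
  obtain ⟨K, y, ε, hε, -, h1, h2⟩ := (hd_gl hψ).2 x
  obtain ⟨k, m, g, h3, h4, h5, h6⟩ := exists_top hx
  have hε1 : ‖ε‖ = 1 := by rcases hε with rfl | rfl <;> simp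
  have h7 : ∀ (ι : Type) [Fintype ι] [DecidableEq ι] (g : Matrix ι ι F),
      ‖∑ v, ev x (fromBlocks (J F K) v 0 g)‖ = Fintype.card (Matrix (Fin K) ι F) * ‖ev y g‖ := by
    intro ι _ _ g
    rw [del_J, sum_der h1 _ fun h => ev_card (Ne.symm h) g]
    simp [hε1]
  obtain rfl : K = k + 1 := by
    refine le_antisymm (not_lt.1 fun h => ?_) (not_lt.1 fun h => ?_)
    · have h8 := h7 (Fin y.1) 1
      rw [h3.1.zero h (by simp), norm_zero] at h8
      exact mul_ne_zero (Nat.cast_ne_zero.2 Fintype.card_ne_zero)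
        (norm_ne_zero_iff.2 (ev_one_ne (by simp))) h8.symm
    · have h8 := mul_ne_zero (sum_ind_ne (p := fun v =>
        (fromBlocks (J F (k + 1)) v 0 g - 1) ^ (k + 1) = 0) (pow_blocks h5)) h6
      rw [← h3.1.sum ⟨_, h5⟩, del_J, sum_eq_zero fun b _ => by rw [h2 _ h, zero_mul], mul_zero] at h8
      exact h8 rfl
  refine ⟨_, y, h3, k.succ_pos, der_deg (η := dr) ?_, fun ι _ _ g hg => ?_⟩
  · rw [h1, if_pos rfl]
    exact norm_ne_zero_iff.1 (hε1 ▸ one_ne_zero)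
  · rw [← h7, h3.1.sum hg, norm_mul]

theorem gl_main {a b : ℝ} (ha : 0 < a) (hb : 0 < b) (n : ℕ) : ∀ x x' : II F, x.1 = n → x'.1 = n →
    (∀ (ι : Type) [Fintype ι] [DecidableEq ι] (M : Matrix ι ι F), IsNilpotent (M - 1) →
      a * ‖ev x M‖ = b * ‖ev x' M‖ ∨ b * ‖ev x M‖ = a * ‖ev x' M‖) → a = b := by
  induction n using Nat.strong_induction_on with
  | _ n ih =>
  intro x x' hx hx' h
  rcases Nat.eq_zero_or_pos n with rfl | hn
  · have h1 := h (Fin 0) 1 (by simp)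
    rw [(deg_oo x).1 hx, (deg_oo x').1 hx', ev_oo] at h1
    rcases h1 with h1 | h1 <;> simpa [eq_comm] using h1
  obtain ⟨K, y, h1, h2, h3, h4⟩ := descend (x := x) (by omega)
  obtain ⟨K', y', h1', -, h3', h4'⟩ := descend (x := x') (by omega)
  have h5 : {K | Top x K} = {K | Top x' K} := by
    have h6 : ∀ (ι : Type) [Fintype ι] [DecidableEq ι] (M : Matrix ι ι F), IsNilpotent (M - 1) →
        (ev x M ≠ 0 ↔ ev x' M ≠ 0) := fun ι _ _ M hM => by
      rw [← norm_ne_zero_iff, ← norm_ne_zero_iff (a := ev x' M)]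
      refine not_congr ⟨fun h7 => ?_, fun h7 => ?_⟩ <;> rcases h ι M hM with h8 | h8 <;>
        simpa [h7, ha.ne', hb.ne'] using h8
    ext K
    exact ⟨fun h7 ι _ _ M hM h8 => h7 ι M hM ((h6 ι M hM).2 h8),
      fun h7 ι _ _ M hM h8 => h7 ι M hM ((h6 ι M hM).1 h8)⟩
  obtain rfl : K = K' := h1.unique (h5 ▸ h1')
  refine ih y.1 (by omega) y y' rfl (by omega) fun ι _ _ g hg => ?_
  have h6 := h4 ι g hg
  have h7 := h4' ι g hg
  have h8 : (Fintype.card (Matrix (Fin K) ι F) : ℝ) ≠ 0 := Nat.cast_ne_zero.2 Fintype.card_ne_zero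
  refine (h _ _ (nil_blocks (k := K) 0 hg)).imp (fun h9 => mul_left_cancel₀ h8 ?_)
    fun h9 => mul_left_cancel₀ h8 ?_
  · rw [mul_left_comm, h6, mul_left_comm, h9, mul_left_comm, ← h7, mul_left_comm]
  · rw [mul_left_comm, h6, mul_left_comm, h9, mul_left_comm, ← h7, mul_left_comm]

end Pool.Agent.SemiProp.GLn
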