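import Pool.Agent.Lib.MP_c1c6b6_al.HZ4

/-! The bound for positive heights, and the passage to maximal ideals of the algebraic integers. -/

set_option autoImplicit false
set_option linter.unusedSectionVars false

open Finset Module Polynomial CategoryTheory

namespace Pool.Agent.SemiProp.HZ

variable {G : Type} [Group G] [Fintype G] {B : ValuationSubring ℂ} {l : ℕ}

theorem val_nat (hl : l.Prime) (hv : B.valuation (l : ℂ) < 1) {m : ℕ} (hm : m ≠ 0) :
    B.valuation (m : ℂ) = B.valuation (l : ℂ) ^ padicValNat l m := by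
  have := Fact.mk hl
  obtain ⟨e, n, hn, rfl⟩ := Nat.exists_eq_pow_mul_and_not_dvd hm l hl.ne_one
  rw [padicValNat.mul (pow_ne_zero _ hl.ne_zero) (right_ne_zero_of_mul hm),
    padicValNat.prime_pow, padicValNat.eq_zero_of_not_dvd hn, add_zero, Nat.cast_mul, map_mul,
    val_nat_eq hl hv hn, mul_one, Nat.cast_pow, map_pow]

theorem val_pos {m : ℕ} (hm : m ≠ 0) : 0 < B.valuation (m : ℂ) :=
  (Valuation.pos_iff _).2 (by exact_mod_cast hm)

theorem val_div_lt (hl : l.Prime) (hv : B.valuation (l : ℂ) < 1) {m n : ℕ} (hm : m ≠ 0)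
    (hn : n ≠ 0) : B.valuation ((m : ℂ) / n) < 1 ↔ padicValNat l n < padicValNat l m := by
  rw [map_div₀, div_lt_one₀ (val_pos hn), val_nat hl hv hm, val_nat hl hv hn,
    pow_lt_pow_iff_right_of_lt_one₀ (val_pos hl.ne_zero) hv]

theorem div_mem_iff (hl : l.Prime) (hv : B.valuation (l : ℂ) < 1) {m n : ℕ} (hm : m ≠ 0)
    (hn : n ≠ 0) : (m : ℂ) / n ∈ B ↔ padicValNat l n ≤ padicValNat l m := by
  rw [← B.valuation_le_one_iff, map_div₀, div_le_one₀ (val_pos hn), val_nat hl hv hm,
    val_nat hl hv hn, pow_le_pow_iff_right_of_lt_one₀ (val_pos hl.ne_zero) hv]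

theorem nat_dvd_of_integral {t n : ℕ} {z : ℂ} (hz : IsIntegral ℤ z) (hn : n ≠ 0)
    (h : (t : ℂ) = n * z) : n ∣ t := by
  have h0 : (n : ℂ) ≠ 0 := by exact_mod_cast hn
  have h1 : z = algebraMap ℚ ℂ (t / n) := by simp [h, h0]
  rw [h1, isIntegral_algebraMap_iff (algebraMap ℚ ℂ).injective,
    IsIntegrallyClosed.isIntegral_iff] at hz
  obtain ⟨y, hy⟩ := hz
  have h2 : (t : ℚ) = n * y := by
    rw [show (y : ℚ) = t / n from hy, mul_div_cancel₀ _ (by exact_mod_cast hn)]
  exact Int.natCast_dvd_natCast.1 ⟨y, by exact_mod_cast h2⟩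

section rep

variable {U V W : Type} [AddCommGroup U] [Module ℂ U] [FiniteDimensional ℂ U]
  [AddCommGroup V] [Module ℂ V] [FiniteDimensional ℂ V]
  [AddCommGroup W] [Module ℂ W] [FiniteDimensional ℂ W]

theorem SB.symm {ρ : Representation ℂ G V} {σ : Representation ℂ G W} (h : SB B ρ σ) :
    SB B σ ρ := fun g => by rw [Valuation.map_sub_swap]; exact h g

theorem SB.trans {τ : Representation ℂ G U} {ρ : Representation ℂ G V} {σ : Representation ℂ G W}
    (h : SB B τ ρ) (h' : SB B ρ σ) : SB B τ σ := fun g => by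
  have := Valuation.map_add_lt _ (h g) (h' g)
  rwa [sub_add_sub_cancel] at this

theorem reg_swap (l : ℕ) (χ ψ : G → ℂ) : ∑ g, reg l χ g * ψ g = ∑ g, reg l ψ g * χ g := by
  refine Fintype.sum_equiv (Equiv.inv G) _ _ fun g => ?_
  simp only [reg, Equiv.inv_apply, orderOf_inv, inv_inv]
  split_ifs
  · simp
  · ring

theorem brauer_feit (hl : l.Prime) (hv : B.valuation (l : ℂ) < 1) {ρ : Representation ℂ G V}
    {σ : Representation ℂ G W} (h : Irr ρ) (h' : Irr σ) (hz : HZero B σ) (hs : SB B ρ σ)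
    (hlt : padicValNat l (finrank ℂ W) < padicValNat l (finrank ℂ V)) :
    l ^ (padicValNat l (finrank ℂ V) + 2) ∣ Nat.card G := by
  classical
  have := Fact.mk hl
  have ha : (finrank ℂ V : ℂ) ≠ 0 := by exact_mod_cast h.finrank_pos.ne'
  have hb : (finrank ℂ W : ℂ) ≠ 0 := by exact_mod_cast h'.finrank_pos.ne'
  have c1 := hs.cong (cls_reg l (cls_char σ)) (reg_mem l σ)
  have c2 := hs.cong (cls_reg l (cls_char ρ)) (reg_mem l ρ)
  have n1 : ∑ g, reg l σ.character g * ρ.character g ≠ 0 := fun e => by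
    rw [om, e, zero_div, zero_sub, Valuation.map_neg] at c1
    exact brauer hl hv h' hz c1
  have v1 : B.valuation (om ρ (reg l ρ.character)) < 1 := by
    have e : om σ (reg l ρ.character) =
        om ρ (reg l σ.character) * ((finrank ℂ V : ℂ) / finrank ℂ W) := by
      rw [om, om, reg_swap]
      field_simp
    have h1 := val_mul_lt (om_mem h (cls_reg l (cls_char σ)) (reg_mem (B := B) l σ))
      ((val_div_lt hl hv h.finrank_pos.ne' h'.finrank_pos.ne').2 hlt)
    have h2 := Valuation.map_add_lt _ c2 (e ▸ h1)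
    rwa [sub_add_cancel] at h2
  have e1 : ∑ g, reg l ρ.character g * ρ.character g =
      ∑ g with ¬ l ∣ orderOf g, (ρ.linHom ρ).character g := by
    rw [sum_filter]
    refine sum_congr rfl fun g _ => ?_
    rw [reg, Representation.char_linHom]
    split_ifs <;> simp
  have e2 : ∀ g, (ρ.linHom ρ).character g = (Complex.normSq (ρ.character g) : ℝ) := fun g => by
    rw [Representation.char_linHom, char_inv, mul_comm, Complex.mul_conj]
  obtain ⟨n, hn⟩ := Subring.mem_bot.1 (rational l (θ := (ρ.linHom ρ).character) fun C => by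
    obtain ⟨N, hN⟩ := (isChar_top ρ C).ip_nat (isChar_top ρ C)
    rw [sm_congr (h' := fun a => ρ.character a * (starRingEnd ℂ) (ρ.character a))
      fun a _ => by rw [e2, Complex.mul_conj]]
    change ip C ρ.character ρ.character ∈ _
    exact hN ▸ mul_mem (natCast_mem _ _) (natCast_mem _ _))
  have r1 : (n : ℝ) = ∑ g with ¬ l ∣ orderOf g, Complex.normSq (ρ.character g) := by
    simp only [e2] at hn
    exact_mod_cast hn
  have r2 : ∑ g with l ∣ orderOf g, Complex.normSq (ρ.character g) + n = Nat.card G := by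
    rw [r1, sum_filter_add_sum_filter_not]
    have := h.sum_norm
    simp only [char_inv, Complex.mul_conj, ← Nat.card_eq_fintype_card] at this
    exact_mod_cast this
  have r3 : (0 : ℝ) < n := by
    rw [r1]
    refine sum_pos' (fun g _ => Complex.normSq_nonneg _) ⟨1, by simpa using hl.ne_one, ?_⟩
    rwa [Complex.normSq_pos, Representation.char_one]
  have r4 := sum_nonneg (s := univ.filter fun g : G => l ∣ orderOf g)
    fun g _ => Complex.normSq_nonneg (ρ.character g)
  lift n to ℕ using by exact_mod_cast r3.le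
  have n0 : n ≠ 0 := by exact_mod_cast r3.ne'
  rw [Int.cast_natCast] at hn r2
  rw [om, e1, ← hn, val_div_lt hl hv n0 h.finrank_pos.ne'] at v1
  by_contra hnd
  have d1 : Nat.card G ∣ n := (Nat.dvd_iff_prime_pow_dvd_dvd _ _).2 fun p k hp hk => by
    rcases eq_or_ne p l with rfl | hne
    · refine (padicValNat_dvd_iff_le n0).2 (not_lt.1 fun hlt' => hnd ((pow_dvd_pow _ ?_).trans hk))
      omega
    · have := Fact.mk hp
      obtain ⟨K, hK⟩ := Sylow.exists_subgroup_card_pow_prime p hk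
      obtain ⟨z, hz, e⟩ := frobenius (H := K) hl (ρ.linHom ρ) fun hd =>
        hne ((Nat.prime_dvd_prime_iff_eq hl hp).1 (hl.dvd_of_dvd_pow (hK ▸ hd))).symm
      exact hK ▸ nat_dvd_of_integral hz Nat.card_pos.ne' (hn.trans e)
  have d2 : (Nat.card G : ℝ) ≤ n := by exact_mod_cast Nat.le_of_dvd (Nat.pos_of_ne_zero n0) d1
  have z1 := (sum_eq_zero_iff_of_nonneg fun g _ => Complex.normSq_nonneg (ρ.character g)).1
    (le_antisymm (by linarith) r4)
  have := h.isIrreducible
  have := h'.isIrreducible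
  have : Invertible (Nat.card G : ℂ) := invertibleOfNonzero cardG_ne
  have o1 := Representation.char_orthonormal ρ σ
  rw [if_neg fun ⟨i⟩ => hlt.ne (by rw [i.toLinearEquiv.finrank_eq])] at o1
  refine n1 (Eq.trans (sum_congr rfl fun g _ => ?_)
    ((mul_eq_zero.1 o1).resolve_left (inv_ne_zero cardG_ne)))
  rw [reg]
  split_ifs with hg
  · rw [Complex.normSq_eq_zero.1 (z1 g (by simpa using hg)), zero_mul, zero_mul]
  · rw [mul_comm]

theorem exists_hzero (hl : l.Prime) (hv : B.valuation (l : ℂ) < 1) (n : ℕ) :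
    ∀ (W : Type) [AddCommGroup W] [Module ℂ W] [FiniteDimensional ℂ W] (σ : Representation ℂ G W),
      Irr σ → padicValNat l (finrank ℂ W) = n →
      ∃ (U : Type) (_ : AddCommGroup U) (_ : Module ℂ U) (_ : FiniteDimensional ℂ U)
        (τ : Representation ℂ G U), Irr τ ∧ HZero B τ ∧ SB B σ τ := by
  induction n using Nat.strong_induction_on with
  | _ n ih =>
  intro W _ _ _ σ h hn
  by_cases hz : HZero B σ
  · exact ⟨W, _, _, inferInstance, σ, h, hz, fun g => by simp⟩
  · simp only [HZero, not_forall] at hz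
    obtain ⟨U, _, _, _, ρ, h1, h2, h3⟩ := hz
    rw [div_mem_iff hl hv h1.finrank_pos.ne' h.finrank_pos.ne', not_le, hn] at h3
    obtain ⟨X, _, _, _, τ, k1, k2, k3⟩ := ih _ h3 U ρ h1 rfl
    exact ⟨X, _, _, inferInstance, τ, k1, k2, h2.symm.trans k3⟩

theorem bound_of_not (hl : l.Prime) (hv : B.valuation (l : ℂ) < 1) {σ : Representation ℂ G W}
    (h' : Irr σ) (hz : ¬ HZero B σ) : l ^ (padicValNat l (finrank ℂ W) + 2) ∣ Nat.card G := by
  simp only [HZero, not_forall] at hz
  obtain ⟨U, _, _, _, ρ', h1, h2, h3⟩ := hz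
  rw [div_mem_iff hl hv h1.finrank_pos.ne' h'.finrank_pos.ne', not_le] at h3
  obtain ⟨X, _, _, _, τ, k1, k2, k3⟩ := exists_hzero hl hv _ U ρ' h1 rfl
  exact brauer_feit hl hv h' k1 k2 (h2.symm.trans k3)
    (((div_mem_iff hl hv h1.finrank_pos.ne' k1.finrank_pos.ne').1 (k2 U ρ' h1 k3)).trans_lt h3)

theorem integral_om_cl {ρ : Representation ℂ G V} (h : Irr ρ) (g : G) :
    IsIntegral ℤ (om ρ (cl g)) := by
  classical
  let z : MonoidAlgebra ℤ G := ofFun fun x => if IsConj g x then 1 else 0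
  have hz : MonoidAlgebra.mapRingHom G (algebraMap ℤ ℂ) z = ofFun (cl g) := by
    ext x
    rw [MonoidAlgebra.coeff_mapRingHom, coeff_ofFun, coeff_ofFun, cl]
    split_ifs <;> simp
  obtain ⟨p, hp, h0⟩ := IsIntegral.of_finite ℤ z
  have h1 := isRoot_om h (cls_cl g) (p := p.map (algebraMap ℤ ℂ)) (by
    rw [← hz, ← map_aeval_eq_aeval_map
      (MonoidAlgebra.mapRingHom_comp_algebraMap (algebraMap ℤ ℂ)).symm, aeval_def, h0, map_zero])
  exact ⟨p, hp, by rwa [IsRoot.def, Polynomial.eval_map] at h1⟩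

end rep

theorem exists_val (P : Ideal (integralClosure ℤ ℂ)) (hP : P.IsMaximal) :
    ∃ B : ValuationSubring ℂ, ∀ x : integralClosure ℤ ℂ, x ∈ P ↔ B.valuation (x : ℂ) < 1 := by
  obtain ⟨B, h1, h2⟩ := Ideal.image_subset_nonunits_valuationSubring
    (A := (integralClosure ℤ ℂ).toSubring) P hP.ne_top
  have h3 : ∀ x ∈ P, B.valuation (x : ℂ) < 1 := fun x hx =>
    (ValuationSubring.mem_nonunits_iff B).1 (h2 ⟨x, hx, rfl⟩)
  refine ⟨B, fun x => ⟨h3 x, fun hx => ?_⟩⟩
  by_contra hn
  obtain ⟨y, z, hz, e⟩ := hP.exists_inv hn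
  have := Valuation.map_add_lt _ (val_mul_lt (h1 y.2) hx) (h3 z hz)
  rw [show (y : ℂ) * x + z = 1 from congrArg Subtype.val e, map_one] at this
  exact lt_irrefl _ this

theorem exists_max (hl : l.Prime) :
    ∃ P : Ideal (integralClosure ℤ ℂ), P.IsMaximal ∧ (l : integralClosure ℤ ℂ) ∈ P := by
  obtain ⟨P, h1, h2⟩ := Ideal.exists_le_maximal (Ideal.span {(l : integralClosure ℤ ℂ)}) fun h => by
    obtain ⟨y, hy⟩ := (Ideal.span_singleton_eq_top.1 h).exists_right_inv
    exact hl.not_dvd_one (nat_dvd_of_integral (t := 1) y.2 hl.ne_zero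
      (by simpa using (congrArg Subtype.val hy).symm))
  exact ⟨P, h1, h2 (Ideal.mem_span_singleton_self _)⟩

theorem simple_of_irr {U : Type} [AddCommGroup U] [Module ℂ U] [FiniteDimensional ℂ U]
    {ρ : Representation ℂ G U} (h : Irr ρ) : Simple (FDRep.of ρ) := by
  have : NeZero (Nat.card G : ℂ) := ⟨cardG_ne⟩
  rw [FDRep.simple_iff_char_is_norm_one, Nat.card_eq_fintype_card]
  exact h.sum_norm

end Pool.Agent.SemiProp.HZ
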