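import Pool.Agent.Lib.MP_c1c6b6_al.GL7
import Pool.Agent.Lib.MP_c1c6b6_al.HZ5

set_option autoImplicit false

open Finset Matrix

namespace Pool.Agent.SemiProp.GLn

variable {F : Type} [Field F] [Fintype F] [DecidableEq F]

theorem UA_der (ψ : AddChar F ℂ) (k m : ℕ) (κ : ℕ → AddChar F ℂ) (z : II F) :
    UA (k + m) (fun j => (if j < k then ψ else if j = k then 1 else κ (j - k) : AddChar F ℂ)) z =
      ∑ b ∈ lev F m, (psh F).der (dl ψ) k z b * UA m (fun j => κ j) b := by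
  rw [UA_split (by simp), sum_comm]
  refine sum_congr rfl fun b _ => ?_
  change _ = (∑ a ∈ lev F k, (cc a b z : ℂ) * dl ψ a) * _
  rw [sum_mul]
  refine sum_congr rfl fun a ha => ?_
  rw [UA_congr (κ' := fun _ => ψ) fun j _ hj => by rw [if_pos hj],
    UA_congr (n := m) (κ' := fun j => κ j) fun j hj _ => by
      rw [if_neg (by omega), if_neg (by omega), Nat.add_sub_cancel_left], dl, mem_lev.1 ha, mul_assoc]

theorem exists_ker (n : ℕ) : ∀ x x' : II F, x.1 = n → x'.1 = n → ∃ κ : ℕ → AddChar F ℂ,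
    ‖UA n (fun j => κ j) x‖ ≤ 1 ∧ ‖UA n (fun j => κ j) x'‖ ≤ 1 ∧
      (UA n (fun j => κ j) x ≠ 0 ∨ UA n (fun j => κ j) x' ≠ 0) := by
  obtain ⟨ψ, hψ⟩ := exists_psi (F := F)
  induction n using Nat.strong_induction_on with
  | _ n ih =>
  intro x x' hx hx'
  rcases Nat.eq_zero_or_pos n with rfl | hn
  · have h : UA 0 (fun _ => ψ) (oo F) = 1 := dl_oo ψ
    exact ⟨fun _ => ψ, by simp [(deg_oo x).1 hx, (deg_oo x').1 hx', h]⟩
  obtain ⟨k, y, ε, hε, h0, h1, h2⟩ := (hd_gl hψ).1 x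
  obtain ⟨k', y', ε', hε', h0', h1', h2'⟩ := (hd_gl hψ).1 x'
  wlog hk : k' ≤ k generalizing x x' k y ε k' y' ε'
  · obtain ⟨κ, h3, h4, h5⟩ := this x' x hx' hx k' y' ε' hε' h0' h1' h2' k y ε hε h0 h1 h2 (by omega)
    exact ⟨κ, h4, h3, h5.symm⟩
  have e1 : ‖ε‖ = 1 := by rcases hε with rfl | rfl <;> simp
  have e1' : ‖ε'‖ = 1 := by rcases hε' with rfl | rfl <;> simp
  have e0 : ε ≠ 0 := norm_ne_zero_iff.1 (e1 ▸ one_ne_zero)
  have e0' : ε' ≠ 0 := norm_ne_zero_iff.1 (e1' ▸ one_ne_zero)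
  have hk0 : 0 < k := h0 fun h => by rw [← (psh F).deg_o] at h; exact hn.ne' (hx.symm.trans h)
  have hd : x.1 = k + y.1 := der_deg (η := dl ψ) (by rw [h1, if_pos rfl]; exact e0)
  obtain rfl : n = k + y.1 := hx.symm.trans hd
  rcases hk.lt_or_eq with h3 | rfl
  · obtain ⟨κ, h4, -, h5⟩ := ih y.1 (by omega) y y rfl rfl
    refine ⟨fun j => if j < k then ψ else if j = k then 1 else κ (j - k), ?_, ?_, Or.inl ?_⟩
    · rw [UA_der ψ k y.1 κ, sum_der h1 _ fun h => absurd rfl h, norm_mul, e1, one_mul]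
      exact h4
    · rw [UA_der, sum_eq_zero fun b _ => by rw [h2' k h3, zero_mul], norm_zero]
      exact zero_le_one
    · rw [UA_der, sum_der h1 _ fun h => absurd rfl h]
      exact mul_ne_zero e0 (or_self_iff.1 h5)
  · have hd' : x'.1 = k' + y'.1 := der_deg (η := dl ψ) (by rw [h1', if_pos rfl]; exact e0')
    have hy : y'.1 = y.1 := by omega
    obtain ⟨κ, h4, h5, h6⟩ := ih y.1 (by omega) y y' rfl hy
    refine ⟨fun j => if j < k' then ψ else if j = k' then 1 else κ (j - k'), ?_⟩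
    rw [UA_der, UA_der, sum_der h1 _ fun h => absurd rfl h, sum_der h1' _ fun h => absurd hy h,
      norm_mul, norm_mul, e1, e1', one_mul, one_mul]
    exact ⟨h4, h5, h6.imp (mul_ne_zero e0) (mul_ne_zero e0')⟩

omit [DecidableEq F] in
theorem uc_pow (n : ℕ) : ∃ k : ℕ, uc F n = (Fintype.card F : ℂ) ^ k := by
  have h1 : ∀ n ≤ 1, uc F n = 1 := fun n hn => by
    classical
    rw [uc, sum_eq_single 1 (fun M _ hM => ind_neg fun h => hM ?_) (by simp), ind_pos glg_uni_one]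
    ext i j
    exact h i j (by omega)
  induction n with
  | zero => exact ⟨0, h1 0 (by omega)⟩
  | succ n ih =>
    obtain ⟨k, hk⟩ := ih
    refine ⟨k + n, ?_⟩
    rw [uc_split, hk, h1 1 le_rfl, mul_one, pow_add, ← Nat.card_eq_fintype_card (α := Matrix _ _ F)]
    simp [Matrix, Nat.card_fun]

theorem int_rel {a b : ℕ} (hab : a.Coprime b) {z z' : ℂ} (hz : IsIntegral ℤ z)
    (hz' : IsIntegral ℤ z') (h : b * z = a * z' ∨ a * z = -(b * z')) :
    ∃ w, IsIntegral ℤ w ∧ a * z + b * z' = (a ^ 2 + b ^ 2 : ℕ) * w := by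
  rcases h with h | h
  · obtain ⟨x, y, h1⟩ := Nat.isCoprime_iff_coprime.2 hab
    have h2 : (x : ℂ) * a + y * b = 1 := by exact_mod_cast h1
    refine ⟨x * z + y * z', ((isIntegral_intCast x).mul hz).add ((isIntegral_intCast y).mul hz'), ?_⟩
    push_cast
    linear_combination (-(a : ℂ) * z - b * z') * h2 + ((a : ℂ) * y - b * x) * h
  · exact ⟨0, isIntegral_zero, by rw [h, neg_add_cancel, mul_zero]⟩

theorem le_one_of_fam {C : Type} [CommGroup C] [Fintype C] {m : C → ℕ} {D : Subgroup C} {e : ℕ}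
    {z : ℂ} (hz : ‖z‖ ≤ 1) (he : e ≠ 0) (hD : ∀ d ∈ D, ∀ t, m (t * d) = m t)
    (h : (e : ℂ) * ∑ t, m t = Nat.card D * z) (t : C) : m t ≤ 1 := by
  classical
  have h1 : Nat.card D * m t ≤ ∑ s, m s := by
    calc Nat.card D * m t = ∑ d : D, m (t * d) := by
          simp [fun d : D => hD d d.2 t]
      _ = ∑ s ∈ univ.map ⟨fun d : D => t * d, fun _ _ h => Subtype.ext (mul_left_cancel h)⟩, m s := by
          rw [sum_map]; rfl
      _ ≤ _ := sum_le_sum_of_subset (subset_univ _)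
  have h2 : ((e * ∑ s, m s : ℕ) : ℝ) ≤ Nat.card D := by
    have h3 := congrArg norm h
    rw [← Nat.cast_mul, Complex.norm_natCast, norm_mul, Complex.norm_natCast] at h3
    rw [h3]
    exact mul_le_of_le_one_right (Nat.cast_nonneg _) hz
  have h4 : e * ∑ s, m s ≤ Nat.card D := by exact_mod_cast h2
  have h5 : 0 < Nat.card D := Nat.card_pos
  have h6 := Nat.le_mul_of_pos_left (∑ s, m s) (Nat.pos_of_ne_zero he)
  exact Nat.le_of_mul_le_mul_left (show Nat.card D * m t ≤ Nat.card D * 1 by omega) h5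

/-- The data attached to an irreducible character of a group between `SL` and `GL`. -/
def Cliff {n : ℕ} (x : II F) (f : Fˣ → Matrix (Fin n) (Fin n) F → ℂ) : Prop :=
  (∀ t, IsCh fun u : UT F n => f t u.1.val) ∧
    ∃ (D : Subgroup Fˣ) (e : ℕ), (∀ d ∈ D, ∀ t, f (t * d) = f t) ∧
      ∀ M : Matrix (Fin n) (Fin n) F, M.det = 1 → e * ∑ t, f t M = Nat.card D * ev x M

theorem Cliff.mult {n : ℕ} [Fintype (UT F n)] {x : II F} {f : Fˣ → Matrix (Fin n) (Fin n) F → ℂ}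
    (h : Cliff x f) (hx : x.1 = n) {κ : ℕ → AddChar F ℂ} (h1 : ‖UA n (fun j => κ j) x‖ ≤ 1) :
    ∃ m : Fˣ → ℕ, (∀ t, m t ≤ 1) ∧ (UA n (fun j => κ j) x ≠ 0 → ∃ t, m t ≠ 0) ∧
      ∀ t, ∑ u : UT F n, f t u.1.val * kerHom n κ u = m t * Fintype.card (UT F n) := by
  obtain ⟨h2, D, e, h3, h4⟩ := h
  choose m hm using fun t => ((h2 t).mul (isCh_lin (kerHom n κ))).avg
  have hD : (Nat.card D : ℂ) ≠ 0 := Nat.cast_ne_zero.2 Nat.card_pos.ne'
  have h5 : (e : ℂ) * ∑ t, m t = Nat.card D * UA n (fun j => κ j) x := by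
    rw [UA, US, ← mul_div_assoc, eq_div_iff uc_ne, uc_eq, ← sum_UT, Nat.cast_sum, mul_assoc, sum_mul]
    simp only [← hm]
    rw [sum_comm, mul_sum, mul_sum]
    refine sum_congr rfl fun u _ => ?_
    rw [← sum_mul, ← mul_assoc, h4 _ (Uni.det u.2), mul_assoc]
    rfl
  refine ⟨m, le_one_of_fam h1 (fun h6 => ?_) (fun d hd t => ?_) h5, fun h6 => ?_, hm⟩
  · have h7 := h4 1 det_one
    rw [h6, Nat.cast_zero, zero_mul] at h7
    exact mul_ne_zero hD (ev_one_ne (by simp [hx])) h7.symm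
  · have h7 := hm (t * d)
    rw [h3 d hd, hm] at h7
    exact_mod_cast (mul_right_cancel₀ (gle_card _) h7).symm
  · by_contra h7
    simp only [not_exists, not_not] at h7
    rw [sum_eq_zero fun t _ => h7 t, Nat.cast_zero, mul_zero] at h5
    exact mul_ne_zero hD h6 h5.symm

theorem gamma {n a b l : ℕ} (hab : a.Coprime b) (hl : l.Prime) (hl2 : l ≠ 2)
    (hN : l ∣ a ^ 2 + b ^ 2) {x x' : II F} (hx : x.1 = n) (hx' : x'.1 = n)
    {f f' : Fˣ → Matrix (Fin n) (Fin n) F → ℂ} (h : Cliff x f) (h' : Cliff x' f')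
    (hrel : ∀ t M, Uni M → b * f t M = a * f' t M ∨ a * f t M = -(b * f' t M)) :
    l = ringChar F := by
  classical
  obtain ⟨κ, h1, h2, h3⟩ := exists_ker n x x' hx hx'
  obtain ⟨m, h4, h5, h6⟩ := h.mult hx h1
  obtain ⟨m', h4', h5', h6'⟩ := h'.mult hx' h2
  obtain ⟨t, ht⟩ : ∃ t, m t ≠ 0 ∨ m' t ≠ 0 := exists_or.2 (h3.imp h5 h5')
  choose w hw hw' using fun u : UT F n =>
    int_rel hab ((h.1 t).integral u) ((h'.1 t).integral u) (hrel t _ u.2)
  have ha : ¬ l ∣ a := fun h7 => hl.one_lt.ne' (Nat.eq_one_of_dvd_coprimes hab h7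
    (hl.dvd_of_dvd_pow ((Nat.dvd_add_right (dvd_pow h7 two_ne_zero)).1 hN)))
  have hb : ¬ l ∣ b := fun h7 => ha (hl.dvd_of_dvd_pow ((Nat.dvd_add_left (dvd_pow h7 two_ne_zero)).1 hN))
  have h7 : a ^ 2 + b ^ 2 ∣ (a * m t + b * m' t) * Fintype.card (UT F n) := by
    refine HZ.nat_dvd_of_integral (z := ∑ u, w u * kerHom n κ u) (IsIntegral.sum _ fun u _ =>
      (hw u).mul ((isCh_lin (kerHom n κ)).integral u)) (fun h8 => ha ?_) ?_
    · rw [show a = 0 by nlinarith]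
      exact dvd_zero l
    · rw [mul_sum, sum_congr rfl fun u _ => by rw [← mul_assoc, ← hw', add_mul, mul_assoc, mul_assoc],
        sum_add_distrib, ← mul_sum, ← mul_sum, h6, h6']
      push_cast
      ring
  rcases (hl.dvd_mul).1 (hN.trans h7) with h8 | h8
  · exfalso
    have h9 := h4 t
    have h10 := h4' t
    have h11 : m t = 1 ∧ m' t = 0 ∨ m t = 0 ∧ m' t = 1 ∨ m t = 1 ∧ m' t = 1 := by omega
    rcases h11 with ⟨e1, e2⟩ | ⟨e1, e2⟩ | ⟨e1, e2⟩ <;> rw [e1, e2] at h8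
    · exact ha (by simpa using h8)
    · exact hb (by simpa using h8)
    · have h12 : l ∣ a ^ 2 + b ^ 2 + 2 * (a * b) := by
        rw [show a ^ 2 + b ^ 2 + 2 * (a * b) = (a * 1 + b * 1) ^ 2 by ring]
        exact dvd_pow h8 two_ne_zero
      rcases hl.dvd_mul.1 ((Nat.dvd_add_right hN).1 h12) with h13 | h13
      · exact hl2 ((Nat.prime_dvd_prime_iff_eq hl Nat.prime_two).1 h13)
      · exact (hl.dvd_mul.1 h13).elim ha hb
  · obtain ⟨k, hk⟩ := uc_pow (F := F) n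
    obtain ⟨j, hr, hq⟩ := FiniteField.card F (ringChar F)
    rw [uc_eq, ← Nat.cast_pow, Nat.cast_inj, hq, ← pow_mul] at hk
    exact (Nat.prime_dvd_prime_iff_eq hl hr).1 (hl.dvd_of_dvd_pow (hk ▸ h8))

end Pool.Agent.SemiProp.GLn
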