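import Pool.Agent.Lib.MP_c1c6b6_al.GLA0

set_option autoImplicit false

open Finset

namespace Pool.Agent.SemiProp.GLn

variable {I : Type} [DecidableEq I] (S : PSH I)

theorem gla_sum_eq {α M : Type} [AddCommMonoid M] (s t : Finset α) (f : α → M)
    (h : ∀ x, f x ≠ 0 → (x ∈ s ↔ x ∈ t)) : ∑ x ∈ s, f x = ∑ x ∈ t, f x := by
  classical
  rw [← sum_filter_ne_zero s, ← sum_filter_ne_zero t]
  refine sum_congr ?_ fun _ _ => rfl
  ext x
  simp only [mem_filter]
  constructor
  · rintro ⟨h1, h2⟩; exact ⟨(h x h2).1 h1, h2⟩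
  · rintro ⟨h1, h2⟩; exact ⟨(h x h2).2 h1, h2⟩

/-- Pairs of basis elements of total degree `n`. -/
def PSH.prs (n : ℕ) : Finset (I × I) :=
  (range (n + 1)).biUnion fun k => S.lev k ×ˢ S.lev (n - k)

theorem PSH.mem_prs (n : ℕ) (p : I × I) : p ∈ S.prs n ↔ S.deg p.1 + S.deg p.2 = n := by
  simp only [PSH.prs, mem_biUnion, mem_range, mem_product, S.mem_lev]
  constructor
  · rintro ⟨k, h1, h2, h3⟩; omega
  · intro h; exact ⟨S.deg p.1, by omega, rfl, by omega⟩

theorem PSH.sum_prs {M : Type} [AddCommMonoid M] (n : ℕ) (f : I × I → M) :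
    ∑ p ∈ S.prs n, f p = ∑ k ∈ range (n + 1), ∑ a ∈ S.lev k, ∑ b ∈ S.lev (n - k), f (a, b) := by
  rw [PSH.prs, sum_biUnion]
  · exact sum_congr rfl fun k _ => sum_product _ _ _
  · intro i _ j _ hij
    refine disjoint_left.2 fun p h1 h2 => hij ?_
    have h3 := (S.mem_lev _ _).1 (mem_product.1 h1).1
    have h4 := (S.mem_lev _ _).1 (mem_product.1 h2).1
    omega

theorem PSH.deg_o' : S.deg S.o = 0 := (S.deg_o _).2 rfl

theorem PSH.mackey' (x₁ x₂ y₁ y₂ : I) :
    ∑ z ∈ S.lev (S.deg x₁ + S.deg x₂), S.c x₁ x₂ z * S.c y₁ y₂ z =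
      ∑ p ∈ S.prs (S.deg x₁), ∑ q ∈ S.prs (S.deg x₂),
        S.c p.1 p.2 x₁ * S.c q.1 q.2 x₂ * S.c p.1 q.1 y₁ * S.c p.2 q.2 y₂ := by
  by_cases h : S.deg x₁ + S.deg x₂ = S.deg y₁ + S.deg y₂
  · rw [S.mackey _ _ _ _ h, S.sum_prs]
    refine sum_congr rfl fun i _ => sum_congr rfl fun a ha => sum_congr rfl fun b _ => ?_
    rw [← sum_product' (f := fun d e => S.c a b x₁ * S.c d e x₂ * S.c a d y₁ * S.c b e y₂)]
    refine gla_sum_eq _ _ _ fun q hq => ?_
    simp only [ne_eq, mul_eq_zero, not_or] at hq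
    have h1 := S.c_deg _ _ _ hq.1.1.2
    have h2 := S.c_deg _ _ _ hq.1.2
    have h3 := (S.mem_lev _ _).1 ha
    simp only [mem_product, S.mem_lev, S.mem_prs]
    omega
  · rw [sum_eq_zero, sum_eq_zero]
    · intro p _
      refine sum_eq_zero fun q _ => ?_
      by_contra hq
      simp only [mul_eq_zero, not_or] at hq
      have h0 := S.c_deg _ _ _ hq.1.1.1
      have h1 := S.c_deg _ _ _ hq.1.1.2
      have h2 := S.c_deg _ _ _ hq.1.2
      have h3 := S.c_deg _ _ _ hq.2
      omega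
    · intro z _
      by_contra hq
      simp only [mul_eq_zero, not_or] at hq
      have h0 := S.c_deg _ _ _ hq.1
      have h1 := S.c_deg _ _ _ hq.2
      omega

theorem PSH.sum_prs_swap {M : Type} [AddCommMonoid M] (n : ℕ) (f : I × I → M) :
    ∑ p ∈ S.prs n, f p = ∑ p ∈ S.prs n, f p.swap := by
  refine sum_nbij' Prod.swap Prod.swap ?_ ?_ ?_ ?_ ?_
  · intro p hp; rw [S.mem_prs] at *; simp only [Prod.fst_swap, Prod.snd_swap]; omega
  · intro p hp; rw [S.mem_prs] at *; simp only [Prod.fst_swap, Prod.snd_swap]; omega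
  · intro p _; rfl
  · intro p _; rfl
  · intro p _; rfl

theorem PSH.c_comm_aux (n : ℕ) : ∀ x y z, S.deg x + S.deg y = n → S.c x y z = S.c y x z := by
  induction n using Nat.strong_induction_on with
  | _ n ih =>
  intro x y z hn
  by_cases hx : x = S.o
  · subst hx; rw [S.c_left, S.c_right]
  by_cases hy : y = S.o
  · subst hy; rw [S.c_left, S.c_right]
  have hx0 : S.deg x ≠ 0 := fun h => hx ((S.deg_o _).1 h)
  have hy0 : S.deg y ≠ 0 := fun h => hy ((S.deg_o _).1 h)
  have key : ∀ u v, S.deg u < n → S.deg v < n →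
      ∑ w ∈ S.lev (S.deg u + S.deg v), S.c u v w * S.c x y w =
        ∑ w ∈ S.lev (S.deg u + S.deg v), S.c u v w * S.c y x w := by
    intro u v hu hv
    rw [S.mackey', S.mackey', S.sum_prs_swap]
    refine sum_congr rfl fun p hp => ?_
    rw [S.sum_prs_swap]
    refine sum_congr rfl fun q hq => ?_
    rw [S.mem_prs] at hp hq
    simp only [Prod.fst_swap, Prod.snd_swap]
    rw [ih (S.deg u) hu p.2 p.1 u (by omega), ih (S.deg v) hv q.2 q.1 v (by omega)]
    ring
  have k1 := key x y (by omega) (by omega)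
  have k2 := key y x (by omega) (by omega)
  rw [add_comm (S.deg y)] at k2
  have k3 : ∑ w ∈ S.lev (S.deg x + S.deg y), ((S.c x y w : ℤ) - S.c y x w) ^ 2 = 0 := by
    have e1 : ∑ w ∈ S.lev (S.deg x + S.deg y), ((S.c x y w : ℤ) - S.c y x w) ^ 2 =
        ∑ w ∈ S.lev (S.deg x + S.deg y), (S.c x y w : ℤ) * S.c x y w -
        ∑ w ∈ S.lev (S.deg x + S.deg y), (S.c x y w : ℤ) * S.c y x w -
        ∑ w ∈ S.lev (S.deg x + S.deg y), (S.c y x w : ℤ) * S.c x y w +
        ∑ w ∈ S.lev (S.deg x + S.deg y), (S.c y x w : ℤ) * S.c y x w := by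
      rw [← sum_sub_distrib, ← sum_sub_distrib, ← sum_add_distrib]
      exact sum_congr rfl fun w _ => by ring
    have k1' : ∑ w ∈ S.lev (S.deg x + S.deg y), (S.c x y w : ℤ) * S.c x y w =
        ∑ w ∈ S.lev (S.deg x + S.deg y), (S.c x y w : ℤ) * S.c y x w := by exact_mod_cast k1
    have k2' : ∑ w ∈ S.lev (S.deg x + S.deg y), (S.c y x w : ℤ) * S.c x y w =
        ∑ w ∈ S.lev (S.deg x + S.deg y), (S.c y x w : ℤ) * S.c y x w := by exact_mod_cast k2
    rw [e1, k1', k2']; ring
  by_cases hz : S.deg z = S.deg x + S.deg y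
  · have k4 := (sum_eq_zero_iff_of_nonneg fun w _ => sq_nonneg _).1 k3 z ((S.mem_lev _ _).2 hz)
    have k5 := pow_eq_zero_iff (two_ne_zero) |>.1 k4
    omega
  · have a1 : S.c x y z = 0 := by by_contra h; exact hz (S.c_deg _ _ _ h)
    have a2 : S.c y x z = 0 := by by_contra h; exact hz (by rw [S.c_deg _ _ _ h, add_comm])
    rw [a1, a2]

theorem PSH.c_comm (x y z : I) : S.c x y z = S.c y x z := S.c_comm_aux _ x y z rfl

/-- The free abelian group on the basis. -/
def PSH.R (_S : PSH I) : Type := I →₀ ℤ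

noncomputable instance : AddCommGroup S.R := inferInstanceAs (AddCommGroup (I →₀ ℤ))

/-- Basis elements. -/
noncomputable def PSH.B (x : I) : S.R := Finsupp.single x (1 : ℤ)

/-- Coefficients. -/
noncomputable def PSH.co (x : I) : S.R →+ ℤ := Finsupp.applyAddHom x

/-- Additive maps given on the basis. -/
noncomputable def PSH.lc {M : Type} [AddCommGroup M] (v : I → M) : S.R →+ M :=
  Finsupp.liftAddHom fun x => zmultiplesHom M (v x)

theorem PSH.lc_B {M : Type} [AddCommGroup M] (v : I → M) (x : I) : S.lc v (S.B x) = v x := by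
  have h := Finsupp.liftAddHom_apply_single (fun x => zmultiplesHom M (v x)) x (1 : ℤ)
  refine h.trans ?_
  simp

theorem PSH.co_B (x y : I) : S.co x (S.B y) = if y = x then 1 else 0 :=
  Finsupp.single_apply

theorem PSH.R_ext {u v : S.R} (h : ∀ x, S.co x u = S.co x v) : u = v := Finsupp.ext h

theorem PSH.R_ind {P : S.R → Prop} (v : S.R) (h0 : P 0) (ha : ∀ u w, P u → P w → P (u + w))
    (hb : ∀ (n : ℤ) x, P (n • S.B x)) : P v := by
  refine Finsupp.induction_linear (motive := P) v h0 ha fun x n => ?_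
  have h : (Finsupp.single x n : S.R) = n • S.B x := by
    refine S.R_ext fun y => ?_
    rw [map_zsmul, S.co_B]
    change Finsupp.single x n y = _
    rw [Finsupp.single_apply]
    split_ifs <;> simp
  rw [h]; exact hb n x

theorem PSH.hom_ext {M : Type} [AddCommGroup M] {f g : S.R →+ M}
    (h : ∀ x, f (S.B x) = g (S.B x)) (v : S.R) : f v = g v := by
  refine S.R_ind (P := fun v => f v = g v) v (by simp) ?_ ?_
  · intro u w h1 h2; rw [map_add, map_add, h1, h2]
  · intro n x; rw [map_zsmul, map_zsmul, h]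

theorem PSH.R_fin (v : S.R) : ∃ s : Finset I, ∀ x, S.co x v ≠ 0 → x ∈ s :=
  ⟨Finsupp.support (v : I →₀ ℤ), fun _ h => Finsupp.mem_support_iff.2 h⟩

theorem PSH.co_sum (s : Finset I) (f : I → ℤ) (x : I) :
    S.co x (∑ z ∈ s, f z • S.B z) = if x ∈ s then f x else 0 := by
  rw [map_sum]
  simp only [map_zsmul, S.co_B, smul_eq_mul, mul_ite, mul_one, mul_zero]
  exact sum_ite_eq' s x f

theorem PSH.R_repr (v : S.R) (s : Finset I) (h : ∀ x, S.co x v ≠ 0 → x ∈ s) :
    v = ∑ z ∈ s, S.co z v • S.B z := by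
  refine S.R_ext fun x => ?_
  rw [S.co_sum]
  split_ifs with hx
  · rfl
  · by_contra h1; exact hx (h x h1)

/-- The product as a biadditive map. -/
noncomputable def PSH.mulH : S.R →+ S.R →+ S.R :=
  S.lc fun x => S.lc fun y => ∑ z ∈ S.lev (S.deg x + S.deg y), (S.c x y z : ℤ) • S.B z

theorem PSH.mulH_B (x y : I) :
    S.mulH (S.B x) (S.B y) = ∑ z ∈ S.lev (S.deg x + S.deg y), (S.c x y z : ℤ) • S.B z := by
  rw [PSH.mulH, S.lc_B, S.lc_B]

theorem PSH.co_mulH_B (x y z : I) : S.co z (S.mulH (S.B x) (S.B y)) = S.c x y z := by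
  rw [S.mulH_B, S.co_sum]
  split_ifs with h
  · rfl
  · by_contra h1
    exact h ((S.mem_lev _ _).2 (S.c_deg _ _ _ fun h2 => h1 (by rw [h2]; rfl)))

theorem PSH.mulH_comm (u v : S.R) : S.mulH u v = S.mulH v u := by
  have h := S.hom_ext (f := S.mulH) (g := S.mulH.flip) (fun x => AddMonoidHom.ext fun v =>
    S.hom_ext (fun y => S.R_ext fun z => by
      rw [AddMonoidHom.flip_apply, S.co_mulH_B, S.co_mulH_B, S.c_comm]) v) u
  rw [h, AddMonoidHom.flip_apply]

theorem PSH.mulH_one (v : S.R) : S.mulH (S.B S.o) v = v :=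
  S.hom_ext (f := S.mulH (S.B S.o)) (g := AddMonoidHom.id _) (fun y => S.R_ext fun z => by
    rw [S.co_mulH_B, AddMonoidHom.id_apply, S.co_B, S.c_left]; split_ifs <;> rfl) v

theorem PSH.mulH_assoc (u v w : S.R) : S.mulH (S.mulH u v) w = S.mulH u (S.mulH v w) := by
  have hB : ∀ x y t, S.mulH (S.mulH (S.B x) (S.B y)) (S.B t) =
      S.mulH (S.B x) (S.mulH (S.B y) (S.B t)) := by
    intro x y t
    refine S.R_ext fun z => ?_
    rw [S.mulH_B x y, S.mulH_B y t]
    simp only [map_sum, map_zsmul, AddMonoidHom.finsetSum_apply, AddMonoidHom.smul_apply,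
      S.co_mulH_B, smul_eq_mul]
    exact_mod_cast S.assoc x y t z
  refine S.R_ind (P := fun u => S.mulH (S.mulH u v) w = S.mulH u (S.mulH v w)) u (by simp) ?_ ?_
  · intro a b h1 h2; simp only [map_add, AddMonoidHom.add_apply, h1, h2]
  intro n x
  simp only [map_zsmul, AddMonoidHom.smul_apply]
  congr 1
  refine S.R_ind (P := fun v => S.mulH (S.mulH (S.B x) v) w = S.mulH (S.B x) (S.mulH v w)) v
    (by simp) ?_ ?_
  · intro a b h1 h2; simp only [map_add, AddMonoidHom.add_apply, h1, h2]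
  intro m y
  simp only [map_zsmul, AddMonoidHom.smul_apply]
  congr 1
  exact S.hom_ext (f := S.mulH (S.mulH (S.B x) (S.B y)))
    (g := (S.mulH (S.B x)).comp (S.mulH (S.B y))) (fun t => hB x y t) w

noncomputable instance : CommRing S.R :=
  { (inferInstance : AddCommGroup S.R) with
    mul := fun u v => S.mulH u v
    one := S.B S.o
    left_distrib := fun u v w => map_add (S.mulH u) v w
    right_distrib := fun u v w => by
      change S.mulH (u + v) w = S.mulH u w + S.mulH v w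
      rw [map_add, AddMonoidHom.add_apply]
    zero_mul := fun u => by
      change S.mulH 0 u = 0
      rw [map_zero, AddMonoidHom.zero_apply]
    mul_zero := fun u => map_zero (S.mulH u)
    mul_assoc := S.mulH_assoc
    one_mul := S.mulH_one
    mul_one := fun u => (S.mulH_comm u _).trans (S.mulH_one u)
    mul_comm := S.mulH_comm }

theorem PSH.mul_def (u v : S.R) : u * v = S.mulH u v := rfl

theorem PSH.one_def : (1 : S.R) = S.B S.o := rfl

theorem PSH.co_B_mul (x y z : I) : S.co z (S.B x * S.B y) = S.c x y z := S.co_mulH_B x y z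

end Pool.Agent.SemiProp.GLn
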