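import Pool.Agent.Lib.MP_c1c6b6_al.GLA1

set_option autoImplicit false

open Finset

namespace Pool.Agent.SemiProp.GLn

variable {I : Type} [DecidableEq I] (S : PSH I)

/-- The inner product. -/
noncomputable def PSH.ip : S.R →+ S.R →+ ℤ := S.lc fun x => S.co x

theorem PSH.ip_B (x : I) (v : S.R) : S.ip (S.B x) v = S.co x v := by rw [PSH.ip, S.lc_B]

theorem PSH.ip_comm (u v : S.R) : S.ip u v = S.ip v u := by
  have h := S.hom_ext (f := S.ip) (g := S.ip.flip) (fun x => AddMonoidHom.ext fun v =>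
    S.hom_ext (fun y => by
      rw [AddMonoidHom.flip_apply, S.ip_B, S.ip_B, S.co_B, S.co_B]
      by_cases h : y = x
      · subst h; rfl
      · rw [if_neg h, if_neg (Ne.symm h)]) v) u
  rw [h, AddMonoidHom.flip_apply]

theorem PSH.ip_sum (s : Finset I) (f : I → ℤ) (v : S.R) :
    S.ip (∑ z ∈ s, f z • S.B z) v = ∑ z ∈ s, f z * S.co z v := by
  simp only [map_sum, map_zsmul, AddMonoidHom.finsetSum_apply, AddMonoidHom.smul_apply, S.ip_B,
    smul_eq_mul]

theorem PSH.ip_eq (u v : S.R) (s : Finset I) (h : ∀ x, S.co x u ≠ 0 → x ∈ s) :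
    S.ip u v = ∑ z ∈ s, S.co z u * S.co z v := by
  conv_lhs => rw [S.R_repr u s h]
  exact S.ip_sum _ _ _

theorem PSH.ip_self_nonneg (u : S.R) : 0 ≤ S.ip u u := by
  obtain ⟨s, hs⟩ := S.R_fin u
  rw [S.ip_eq u u s hs]
  exact sum_nonneg fun z _ => mul_self_nonneg _

theorem PSH.norm_one (u : S.R) (h0 : u ≠ 0) (h : S.ip u u ≤ 1) :
    ∃ y, ∃ ε : ℤ, (ε = 1 ∨ ε = -1) ∧ u = ε • S.B y := by
  obtain ⟨s, hs⟩ := S.R_fin u
  obtain ⟨y, hy⟩ : ∃ y, S.co y u ≠ 0 := by
    by_contra h1
    push Not at h1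
    exact h0 (S.R_ext fun x => by rw [h1, map_zero])
  rw [S.ip_eq u u s hs, ← add_sum_erase s _ (hs y hy)] at h
  have h1 : 0 < S.co y u * S.co y u := mul_self_pos.2 hy
  have h2 : 0 ≤ ∑ z ∈ s.erase y, S.co z u * S.co z u := sum_nonneg fun z _ => mul_self_nonneg _
  have h3 : ∑ z ∈ s.erase y, S.co z u * S.co z u = 0 := by omega
  have h4 : S.co y u * S.co y u = 1 := by omega
  refine ⟨y, S.co y u, mul_self_eq_one_iff.1 h4, S.R_ext fun x => ?_⟩
  rw [map_zsmul, S.co_B]
  split_ifs with hx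
  · subst hx; simp
  · rw [smul_zero]
    by_contra h5
    have h6 := (sum_eq_zero_iff_of_nonneg fun z _ => mul_self_nonneg (S.co z u)).1 h3 x
      (mem_erase.2 ⟨Ne.symm hx, hs x h5⟩)
    exact h5 (mul_self_eq_zero.1 h6)

/-- The adjoint of multiplication. -/
noncomputable def PSH.adj : S.R →+ S.R →+ S.R :=
  S.lc fun a => S.lc fun x => ∑ b ∈ S.lev (S.deg x - S.deg a), (S.c a b x : ℤ) • S.B b

theorem PSH.co_adj_B (a x b : I) : S.co b (S.adj (S.B a) (S.B x)) = S.c a b x := by
  rw [PSH.adj, S.lc_B, S.lc_B, S.co_sum]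
  split_ifs with h
  · rfl
  · by_contra h1
    have h2 := S.c_deg a b x fun h2 => h1 (by rw [h2]; rfl)
    exact h ((S.mem_lev _ _).2 (by omega))

theorem PSH.ip_adj (u v w : S.R) : S.ip (u * v) w = S.ip v (S.adj u w) := by
  refine S.R_ind (P := fun u => S.ip (u * v) w = S.ip v (S.adj u w)) u (by simp) ?_ ?_
  · intro a b h1 h2; simp only [add_mul, map_add, AddMonoidHom.add_apply, h1, h2]
  intro n a
  simp only [smul_mul_assoc, map_zsmul, AddMonoidHom.smul_apply]
  congr 1
  refine S.R_ind (P := fun v => S.ip (S.B a * v) w = S.ip v (S.adj (S.B a) w)) v (by simp) ?_ ?_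
  · intro a b h1 h2; simp only [mul_add, map_add, AddMonoidHom.add_apply, h1, h2]
  intro m b
  simp only [mul_smul_comm, map_zsmul, AddMonoidHom.smul_apply]
  congr 1
  exact S.hom_ext (f := S.ip (S.B a * S.B b)) (g := (S.ip (S.B b)).comp (S.adj (S.B a)))
    (fun x => by
      rw [AddMonoidHom.comp_apply, S.ip_comm, S.ip_B, S.ip_B, S.co_B_mul, S.co_adj_B]) w

theorem PSH.co_adj (u w : S.R) (b : I) : S.co b (S.adj u w) = S.ip (u * S.B b) w := by
  rw [S.ip_adj, S.ip_B]

theorem PSH.adj_mul (u v w : S.R) : S.adj (u * v) w = S.adj v (S.adj u w) :=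
  S.R_ext fun t => by rw [S.co_adj, S.co_adj, mul_assoc, S.ip_adj]

theorem PSH.adj_comm (u v w : S.R) : S.adj u (S.adj v w) = S.adj v (S.adj u w) := by
  rw [← S.adj_mul, ← S.adj_mul, mul_comm]

theorem PSH.adj_one (w : S.R) : S.adj 1 w = w :=
  S.R_ext fun t => by rw [S.co_adj, one_mul, S.ip_B]

theorem PSH.co_mul (x : I) (u v : S.R) :
    S.co x (u * v) = ∑ p ∈ S.prs (S.deg x), S.c p.1 p.2 x * S.co p.1 u * S.co p.2 v := by
  refine S.R_ind (P := fun u => S.co x (u * v) =
    ∑ p ∈ S.prs (S.deg x), S.c p.1 p.2 x * S.co p.1 u * S.co p.2 v) u (by simp) ?_ ?_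
  · intro a b h1 h2
    simp only [add_mul, mul_add, map_add, h1, h2, sum_add_distrib]
  intro n a
  refine S.R_ind (P := fun v => S.co x (n • S.B a * v) =
    ∑ p ∈ S.prs (S.deg x), S.c p.1 p.2 x * S.co p.1 (n • S.B a) * S.co p.2 v) v (by simp) ?_ ?_
  · intro a b h1 h2
    simp only [mul_add, map_add, h1, h2, sum_add_distrib]
  intro m b
  simp only [smul_mul_assoc, mul_smul_comm, map_zsmul, S.co_B_mul, S.co_B, smul_eq_mul]
  rw [sum_eq_single (a, b)]
  · simp; ring
  · intro p _ hp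
    by_cases h1 : a = p.1
    · by_cases h2 : b = p.2
      · exact absurd (Prod.ext h1.symm h2.symm) hp
      · simp [h2]
    · simp [h1]
  · intro h
    have h1 : S.c a b x = 0 := by
      by_contra h2
      exact h ((S.mem_prs _ _).2 (S.c_deg _ _ _ h2).symm)
    simp [h1]

theorem PSH.ip_BB (a b : I) (v : S.R) :
    S.ip (S.B a * S.B b) v = ∑ x ∈ S.lev (S.deg a + S.deg b), S.c a b x * S.co x v := by
  rw [S.mul_def, S.mulH_B, S.ip_sum]

theorem PSH.mackeyR (x : I) (u w : S.R) : S.adj (S.B x) (u * w) =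
    ∑ p ∈ S.prs (S.deg x), (S.c p.1 p.2 x : ℤ) • (S.adj (S.B p.1) u * S.adj (S.B p.2) w) := by
  refine S.R_ind (P := fun u => S.adj (S.B x) (u * w) =
    ∑ p ∈ S.prs (S.deg x), (S.c p.1 p.2 x : ℤ) • (S.adj (S.B p.1) u * S.adj (S.B p.2) w)) u
    (by simp) ?_ ?_
  · intro a b h1 h2
    simp only [add_mul, map_add, h1, h2, smul_add, sum_add_distrib]
  intro n a
  simp only [smul_mul_assoc, map_zsmul]
  rw [sum_congr rfl fun p _ => smul_comm _ n _, ← smul_sum]
  congr 1
  refine S.R_ind (P := fun w => S.adj (S.B x) (S.B a * w) =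
    ∑ p ∈ S.prs (S.deg x), (S.c p.1 p.2 x : ℤ) • (S.adj (S.B p.1) (S.B a) * S.adj (S.B p.2) w)) w
    (by simp) ?_ ?_
  · intro a b h1 h2
    simp only [mul_add, map_add, h1, h2, smul_add, sum_add_distrib]
  intro m b
  simp only [mul_smul_comm, map_zsmul]
  rw [sum_congr rfl fun p _ => smul_comm _ m _, ← smul_sum]
  congr 1
  refine S.R_ext fun t => ?_
  rw [S.co_adj, S.ip_BB, map_sum]
  simp only [map_zsmul, S.co_B_mul, smul_eq_mul, S.co_mul t, S.co_adj_B, mul_sum]
  have h := S.mackey' x t a b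
  have h' : ∑ z ∈ S.lev (S.deg x + S.deg t), (S.c x t z : ℤ) * S.c a b z =
      ∑ p ∈ S.prs (S.deg x), ∑ q ∈ S.prs (S.deg t),
        (S.c p.1 p.2 x : ℤ) * S.c q.1 q.2 t * S.c p.1 q.1 a * S.c p.2 q.2 b := by exact_mod_cast h
  rw [h']
  exact sum_congr rfl fun p _ => sum_congr rfl fun q _ => by ring

theorem gla_mem {n : ℕ} {p : ℕ × ℕ} : p ∈ antidiagonal n ↔ p.1 + p.2 = n :=
  HasAntidiagonal.mem_antidiagonal

/-- Group-like families. -/
def PSH.GL (G : ℕ → S.R) : Prop :=
  ∀ m u w, S.ip (u * w) (G m) = ∑ p ∈ antidiagonal m, S.ip u (G p.1) * S.ip w (G p.2)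

theorem PSH.gl_of_B (G : ℕ → S.R) (h : ∀ m a b, S.ip (S.B a * S.B b) (G m) =
    ∑ p ∈ antidiagonal m, S.co a (G p.1) * S.co b (G p.2)) : S.GL G := by
  intro m u w
  refine S.R_ind (P := fun u => S.ip (u * w) (G m) =
    ∑ p ∈ antidiagonal m, S.ip u (G p.1) * S.ip w (G p.2)) u (by simp) ?_ ?_
  · intro a b h1 h2
    simp only [add_mul, map_add, AddMonoidHom.add_apply, h1, h2, sum_add_distrib]
  intro n a
  refine S.R_ind (P := fun w => S.ip (n • S.B a * w) (G m) =
    ∑ p ∈ antidiagonal m, S.ip (n • S.B a) (G p.1) * S.ip w (G p.2)) w (by simp) ?_ ?_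
  · intro a b h1 h2
    simp only [mul_add, map_add, AddMonoidHom.add_apply, h1, h2, sum_add_distrib]
  intro k b
  simp only [smul_mul_assoc, mul_smul_comm, map_zsmul, AddMonoidHom.smul_apply, S.ip_B, h,
    smul_eq_mul, mul_sum]
  exact sum_congr rfl fun p _ => by ring

variable {S}

theorem PSH.GL.mul {G : ℕ → S.R} (h : S.GL G) (m : ℕ) (u w : S.R) :
    S.adj (G m) (u * w) = ∑ p ∈ antidiagonal m, S.adj (G p.1) u * S.adj (G p.2) w := by
  refine S.R_ext fun t => ?_
  rw [S.co_adj, mul_comm, S.ip_adj, S.mackeyR, map_sum, map_sum]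
  simp only [map_zsmul, S.co_mul t, smul_eq_mul]
  simp only [S.ip_comm (G m), h m, mul_sum]
  rw [sum_comm]
  refine sum_congr rfl fun p _ => sum_congr rfl fun q _ => ?_
  rw [S.co_adj, S.co_adj, mul_comm (G p.1), mul_comm (G p.2), S.ip_adj, S.ip_adj,
    S.ip_comm (G p.1), S.ip_comm (G p.2), mul_assoc]

theorem PSH.GL.self {G : ℕ → S.R} (h : S.GL G) (m : ℕ) (u : S.R) :
    S.adj u (G m) = ∑ p ∈ antidiagonal m, S.ip u (G p.1) • G p.2 := by
  refine S.R_ext fun t => ?_
  rw [S.co_adj, h m, map_sum]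
  simp only [map_zsmul, S.ip_B, smul_eq_mul]

theorem PSH.GL.shift {G : ℕ → S.R} (h : S.GL G)
    (ho : ∀ i j, S.ip (G i) (G j) = if i = j then 1 else 0) (l m : ℕ) :
    S.adj (G l) (G m) = if l ≤ m then G (m - l) else 0 := by
  rw [h.self]
  simp only [ho, ite_smul, one_smul, zero_smul]
  split_ifs with hl
  · rw [sum_eq_single (l, m - l)]
    · simp
    · intro p hp hne
      rw [if_neg]
      intro h1
      have h2 := gla_mem.1 hp
      exact hne (Prod.ext h1.symm (by simp only; omega))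
    · intro h1
      exact absurd (gla_mem.2 (by simp only; omega)) h1
  · refine sum_eq_zero fun p hp => if_neg fun h1 => ?_
    have h2 := gla_mem.1 hp
    omega

theorem PSH.fermion {G E : ℕ → S.R} (h : S.GL G)
    (ho : ∀ i j, S.ip (G i) (G j) = if i = j then 1 else 0) (hG : G 0 = 1) (hE : E 0 = 1)
    (hinv : ∀ M, ∑ p ∈ antidiagonal M, E p.1 * G p.2 = if M = 0 then 1 else 0)
    (x : S.R) (k N : ℕ) (hk : ∀ j, k < j → S.adj (G j) x = 0)
    (hN : ∀ j, N < j → S.adj (E j) (S.adj (G k) x) = 0) :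
    S.ip (S.adj (G k) x) (S.adj (G k) x) ≤ S.ip x x := by
  classical
  obtain ⟨y, hy⟩ : ∃ y, y = S.adj (G k) x := ⟨_, rfl⟩
  rw [← hy] at hN ⊢
  have hy0 : ∀ l j, k < l → S.adj (G l) (S.adj (E j) y) = 0 := by
    intro l j hl
    rw [S.adj_comm, hy, S.adj_comm (G l), hk l hl, map_zero, map_zero]
  have hconv : ∀ M, ∑ j ∈ range (M + 1), S.adj (G (M - j)) (S.adj (E j) y) =
      if M = 0 then y else 0 := by
    intro M
    have h1 := congrArg (fun u => S.adj u y) (hinv M)
    simp only [map_sum, AddMonoidHom.finsetSum_apply, S.adj_mul] at h1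
    rw [Nat.sum_antidiagonal_eq_sum_range_succ_mk] at h1
    rw [h1]
    split_ifs
    · exact S.adj_one y
    · simp
  obtain ⟨z, hz⟩ : ∃ z, z = ∑ j ∈ range (N + 1), G (k + j) * S.adj (E j) y := ⟨_, rfl⟩
  have hzm : ∀ i, S.adj (G (k + i)) z = if i = 0 then y else 0 := by
    intro i
    have e1 : ∀ j ∈ range (N + 1), S.adj (G (k + i)) (G (k + j) * S.adj (E j) y) =
        ∑ s ∈ range (k + N + 1), G s *
          (if j ≤ i + s then S.adj (G (i + s - j)) (S.adj (E j) y) else 0) := by
      intro j hj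
      have hj' := mem_range.1 hj
      rw [h.mul]
      simp only [h.shift ho]
      rw [← sum_filter_ne_zero (antidiagonal (k + i)), ← sum_filter_ne_zero (range (k + N + 1))]
      refine sum_nbij' (fun p => k + j - p.1) (fun s => (k + j - s, i + s - j)) ?_ ?_ ?_ ?_ ?_
      · intro p hp
        simp only [mem_filter, gla_mem, mem_range] at hp ⊢
        have h1 : p.1 ≤ k + j := by
          by_contra h2; exact hp.2 (by rw [if_neg h2, zero_mul])
        rw [if_pos h1] at hp
        refine ⟨by omega, ?_⟩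
        rw [if_pos (by omega), show i + (k + j - p.1) - j = p.2 by omega]
        exact hp.2
      · intro s hs
        simp only [mem_filter, gla_mem, mem_range] at hs ⊢
        have h1 : j ≤ i + s := by
          by_contra h2; exact hs.2 (by rw [if_neg h2, mul_zero])
        rw [if_pos h1] at hs
        have h2 : s ≤ k + j := by
          by_contra h2; exact hs.2 (by rw [hy0 _ _ (by omega), mul_zero])
        refine ⟨by omega, ?_⟩
        rw [if_pos (by omega), show k + j - (k + j - s) = s by omega]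
        exact hs.2
      · intro p hp
        simp only [mem_filter, gla_mem] at hp
        have h1 : p.1 ≤ k + j := by
          by_contra h2; exact hp.2 (by rw [if_neg h2, zero_mul])
        exact Prod.ext (by simp only; omega) (by simp only; omega)
      · intro s hs
        simp only [mem_filter, mem_range] at hs
        have h1 : j ≤ i + s := by
          by_contra h2; exact hs.2 (by rw [if_neg h2, mul_zero])
        rw [if_pos h1] at hs
        have h2 : s ≤ k + j := by
          by_contra h2; exact hs.2 (by rw [hy0 _ _ (by omega), mul_zero])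
        simp only
        omega
      · intro p hp
        simp only [mem_filter, gla_mem] at hp
        have h1 : p.1 ≤ k + j := by
          by_contra h2; exact hp.2 (by rw [if_neg h2, zero_mul])
        rw [if_pos h1, if_pos (by omega), show i + (k + j - p.1) - j = p.2 by omega]
    rw [hz, map_sum, sum_congr rfl e1, sum_comm]
    have e2 : ∀ s ∈ range (k + N + 1), ∑ j ∈ range (N + 1), G s *
        (if j ≤ i + s then S.adj (G (i + s - j)) (S.adj (E j) y) else 0) =
        G s * (if i + s = 0 then y else 0) := by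
      intro s _
      rw [← mul_sum, ← hconv (i + s), ← sum_filter]
      refine congrArg (G s * ·) (gla_sum_eq _ _ _ fun j hj => ?_)
      have h1 : j ≤ N := by
        by_contra h2; exact hj (by rw [hN j (by omega), map_zero])
      simp only [mem_filter, mem_range]
      omega
    rw [sum_congr rfl e2, sum_eq_single 0]
    · rw [hG, one_mul, add_zero]
    · intro s _ hs; rw [if_neg (by omega), mul_zero]
    · intro h1; exact absurd (mem_range.2 (by omega)) h1
  have hzw : ∀ w, (∀ i, S.adj (G (k + i)) w = if i = 0 then y else 0) → S.ip z w = S.ip y y := by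
    intro w hw
    rw [hz, map_sum, AddMonoidHom.finsetSum_apply, sum_eq_single 0]
    · rw [S.ip_adj, hw, if_pos rfl, hE, S.adj_one]
    · intro j _ hj; rw [S.ip_adj, hw, if_neg hj, map_zero]
    · intro h1; exact absurd (mem_range.2 (by omega)) h1
  have a1 := hzw z hzm
  have a2 := hzw x fun i => by
    split_ifs with hi
    · subst hi; exact hy.symm
    · exact hk _ (by omega)
  have a3 := S.ip_self_nonneg (z - x)
  simp only [map_sub, AddMonoidHom.sub_apply, S.ip_comm x z] at a3
  omega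

end Pool.Agent.SemiProp.GLn
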