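import Pool.Agent.Lib.MP_c1c6b6_al.GLA2

set_option autoImplicit false

open Finset

namespace Pool.Agent.SemiProp.GLn

variable {I : Type} [DecidableEq I] (S : PSH I)

/-- Non-negative coefficients. -/
def PSH.Pos (v : S.R) : Prop := ∀ x, 0 ≤ S.co x v

theorem PSH.pos_B (y : I) : S.Pos (S.B y) := fun x => by
  rw [S.co_B]; split_ifs <;> simp

theorem PSH.pos_mul {u v : S.R} (hu : S.Pos u) (hv : S.Pos v) : S.Pos (u * v) := fun x => by
  rw [S.co_mul]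
  exact sum_nonneg fun p _ => mul_nonneg (mul_nonneg (Int.natCast_nonneg _) (hu _)) (hv _)

theorem PSH.pos_pow {u : S.R} (hu : S.Pos u) (k : ℕ) : S.Pos (u ^ k) := by
  induction k with
  | zero => rw [pow_zero]; exact S.pos_B _
  | succ k ih => rw [pow_succ]; exact S.pos_mul ih hu

theorem PSH.co_B_ne {x y : I} (h : S.co x (S.B y) ≠ 0) : x = y := by
  rw [S.co_B] at h
  by_contra h1
  exact h (if_neg (Ne.symm h1))

theorem PSH.co_B_self (x : I) : S.co x (S.B x) = 1 := by rw [S.co_B, if_pos rfl]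

theorem PSH.of_co_mul {u v : S.R} {x : I} (h : S.co x (u * v) ≠ 0) :
    ∃ a b, S.co a u ≠ 0 ∧ S.co b v ≠ 0 ∧ S.c a b x ≠ 0 := by
  rw [S.co_mul] at h
  obtain ⟨p, _, hp⟩ := exists_ne_zero_of_sum_ne_zero h
  simp only [ne_eq, mul_eq_zero, not_or, Nat.cast_eq_zero] at hp
  exact ⟨p.1, p.2, hp.1.2, hp.2, hp.1.1⟩

theorem PSH.co_mul_ne {u v : S.R} (hu : S.Pos u) (hv : S.Pos v) {x a b : I} (ha : S.co a u ≠ 0)
    (hb : S.co b v ≠ 0) (h : S.c a b x ≠ 0) : S.co x (u * v) ≠ 0 := by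
  rw [S.co_mul]
  intro h0
  have h1 := (sum_eq_zero_iff_of_nonneg fun p _ =>
    mul_nonneg (mul_nonneg (Int.natCast_nonneg _) (hu _)) (hv _)).1 h0 (a, b)
    ((S.mem_prs _ _).2 (S.c_deg _ _ _ h).symm)
  simp only [mul_eq_zero, Nat.cast_eq_zero] at h1
  tauto

theorem PSH.ip_BB_ne {v : S.R} (hv : S.Pos v) {a b x : I} (h : S.c a b x ≠ 0)
    (hx : S.co x v ≠ 0) : S.ip (S.B a * S.B b) v ≠ 0 := by
  rw [S.ip_BB]
  intro h0
  have h1 := (sum_eq_zero_iff_of_nonneg fun p _ =>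
    mul_nonneg (Int.natCast_nonneg _) (hv _)).1 h0 x ((S.mem_lev _ _).2 (S.c_deg _ _ _ h))
  simp only [mul_eq_zero, Nat.cast_eq_zero] at h1
  tauto

theorem PSH.of_ip_ne {u v : S.R} (h : S.ip u v ≠ 0) : ∃ x, S.co x u ≠ 0 ∧ S.co x v ≠ 0 := by
  obtain ⟨s, hs⟩ := S.R_fin u
  rw [S.ip_eq u v s hs] at h
  obtain ⟨p, _, hp⟩ := exists_ne_zero_of_sum_ne_zero h
  exact ⟨p, mul_ne_zero_iff.1 hp⟩

theorem PSH.assoc_ne {a b w t x : I} (h1 : S.c a b w ≠ 0) (h2 : S.c w t x ≠ 0) :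
    ∃ w', S.c b t w' ≠ 0 ∧ S.c a w' x ≠ 0 := by
  have h3 : ∑ w ∈ S.lev (S.deg b + S.deg t), S.c b t w * S.c a w x ≠ 0 := by
    rw [← S.assoc]
    intro h0
    exact mul_ne_zero h1 h2 (sum_eq_zero_iff.1 h0 w ((S.mem_lev _ _).2 (S.c_deg _ _ _ h1)))
  obtain ⟨p, _, hp⟩ := exists_ne_zero_of_sum_ne_zero h3
  exact ⟨p, mul_ne_zero_iff.1 hp⟩

theorem PSH.assoc_ne' {a b w t x : I} (h1 : S.c b t w ≠ 0) (h2 : S.c a w x ≠ 0) :
    ∃ w', S.c a b w' ≠ 0 ∧ S.c w' t x ≠ 0 := by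
  have h3 : ∑ w ∈ S.lev (S.deg a + S.deg b), S.c a b w * S.c w t x ≠ 0 := by
    rw [S.assoc]
    intro h0
    exact mul_ne_zero h1 h2 (sum_eq_zero_iff.1 h0 w ((S.mem_lev _ _).2 (S.c_deg _ _ _ h1)))
  obtain ⟨p, _, hp⟩ := exists_ne_zero_of_sum_ne_zero h3
  exact ⟨p, mul_ne_zero_iff.1 hp⟩

theorem PSH.eq_of_left {y z : I} (h : S.c S.o y z ≠ 0) : y = z := by
  rw [S.c_left] at h
  by_contra h1
  exact h (if_neg h1)

theorem PSH.eq_of_right {y z : I} (h : S.c y S.o z ≠ 0) : y = z := by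
  rw [S.c_right] at h
  by_contra h1
  exact h (if_neg h1)

theorem PSH.deg_pos {x : I} (h : x ≠ S.o) : 0 < S.deg x :=
  Nat.pos_of_ne_zero fun h1 => h ((S.deg_o _).1 h1)

/-- Constituents of a power of `r`. -/
def PSH.Pure (r x : I) (k : ℕ) : Prop := S.co x (S.B r ^ k) ≠ 0

/-- Basis elements without a factor `r`. -/
def PSH.Free (r x : I) : Prop := ∀ b, S.c r b x = 0

theorem PSH.pure_zero (r x : I) : S.Pure r x 0 ↔ x = S.o := by
  rw [PSH.Pure, pow_zero, S.one_def]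
  exact ⟨S.co_B_ne, fun h => by rw [h, S.co_B_self]; exact one_ne_zero⟩

theorem PSH.pure_one (r x : I) : S.Pure r x 1 ↔ x = r := by
  rw [PSH.Pure, pow_one]
  exact ⟨S.co_B_ne, fun h => by rw [h, S.co_B_self]; exact one_ne_zero⟩

variable {S}

theorem PSH.Pure.add {r a b x : I} {i j : ℕ} (ha : S.Pure r a i) (hb : S.Pure r b j)
    (h : S.c a b x ≠ 0) : S.Pure r x (i + j) := by
  rw [PSH.Pure, pow_add]
  exact S.co_mul_ne (S.pos_pow (S.pos_B r) i) (S.pos_pow (S.pos_B r) j) ha hb h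

theorem PSH.Pure.succ {r x : I} {k : ℕ} (h : S.Pure r x (k + 1)) :
    ∃ a, S.Pure r a k ∧ S.c r a x ≠ 0 := by
  rw [PSH.Pure, pow_succ'] at h
  obtain ⟨a, b, h1, h2, h3⟩ := S.of_co_mul h
  rw [S.co_B_ne h1] at h3
  exact ⟨b, h2, h3⟩

theorem PSH.Pure.deg_eq {r : I} {k : ℕ} : ∀ {x : I}, S.Pure r x k → S.deg x = k * S.deg r := by
  induction k with
  | zero => intro x h; rw [(S.pure_zero r x).1 h, S.deg_o', zero_mul]
  | succ k ih =>
    intro x h
    obtain ⟨a, h1, h2⟩ := h.succ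
    rw [S.c_deg _ _ _ h2, ih h1]; ring

theorem PSH.Pure.eq_o {r x : I} {k : ℕ} (h : S.Pure r x k) (hf : S.Free r x) : x = S.o := by
  cases k with
  | zero => exact (S.pure_zero r x).1 h
  | succ k => obtain ⟨a, _, h2⟩ := h.succ; exact absurd (hf a) h2

theorem PSH.Cusp.uniq {r x : I} (hr : S.Cusp r) {i j : ℕ} (hi : S.Pure r x i)
    (hj : S.Pure r x j) : i = j :=
  Nat.eq_of_mul_eq_mul_right (S.deg_pos hr.1) (hi.deg_eq.symm.trans hj.deg_eq)

theorem PSH.Cusp.sum {r : I} (hr : S.Cusp r) {M : Type} [AddCommGroup M] (f : I × I → M) :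
    ∑ p ∈ S.prs (S.deg r), (S.c p.1 p.2 r : ℤ) • f p = f (r, S.o) + f (S.o, r) := by
  rw [gla_sum_eq _ {(r, S.o), (S.o, r)}, sum_pair fun h => hr.1 (Prod.ext_iff.1 h).1]
  · simp [S.c_left, S.c_right]
  · intro p hp
    have h1 : S.c p.1 p.2 r ≠ 0 := fun h => hp (by rw [h]; simp)
    refine iff_of_true ((S.mem_prs _ _).2 (S.c_deg _ _ _ h1).symm) ?_
    rcases hr.2 _ _ h1 with h | h
    · rw [h] at h1
      exact mem_insert_of_mem (mem_singleton.2 (Prod.ext h (S.eq_of_left h1)))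
    · rw [h] at h1
      exact mem_insert.2 (Or.inl (Prod.ext (S.eq_of_right h1) h))

theorem PSH.Cusp.deriv {r : I} (hr : S.Cusp r) (u w : S.R) :
    S.adj (S.B r) (u * w) = S.adj (S.B r) u * w + u * S.adj (S.B r) w := by
  rw [S.mackeyR, hr.sum fun p => S.adj (S.B p.1) u * S.adj (S.B p.2) w]
  simp only [← S.one_def, S.adj_one]

theorem PSH.Cusp.split {r : I} (hr : S.Cusp r) {k : ℕ} : ∀ {x a b : I}, S.Pure r x k →
    S.c a b x ≠ 0 → ∃ i j, i + j = k ∧ S.Pure r a i ∧ S.Pure r b j := by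
  induction k with
  | zero =>
    intro x a b h hc
    have h1 := S.c_deg _ _ _ hc
    rw [h.deg_eq] at h1
    exact ⟨0, 0, rfl, (S.pure_zero _ _).2 ((S.deg_o _).1 (by omega)),
      (S.pure_zero _ _).2 ((S.deg_o _).1 (by omega))⟩
  | succ k ih =>
    intro x a b h hc
    have h1 := S.ip_BB_ne (S.pos_pow (S.pos_B r) (k + 1)) hc h
    rw [S.ip_comm, pow_succ', S.ip_adj, hr.deriv, map_add] at h1
    by_cases h2 : S.ip (S.B r ^ k) (S.adj (S.B r) (S.B a) * S.B b) = 0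
    · rw [h2, zero_add] at h1
      obtain ⟨y, h3, h4⟩ := S.of_ip_ne h1
      obtain ⟨a', b', h5, h6, h7⟩ := S.of_co_mul h4
      rw [S.co_B_ne h5] at h7
      rw [S.co_adj_B, Nat.cast_ne_zero] at h6
      obtain ⟨i, j, e, p1, p2⟩ := ih h3 h7
      exact ⟨i, 1 + j, by omega, p1, ((S.pure_one r r).2 rfl).add p2 h6⟩
    · obtain ⟨y, h3, h4⟩ := S.of_ip_ne h2
      obtain ⟨a', b', h5, h6, h7⟩ := S.of_co_mul h4
      rw [S.co_B_ne h6] at h7
      rw [S.co_adj_B, Nat.cast_ne_zero] at h5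
      obtain ⟨i, j, e, p1, p2⟩ := ih h3 h7
      exact ⟨1 + i, j, by omega, ((S.pure_one r r).2 rfl).add p1 h5, p2⟩

theorem PSH.Free.left {r x a b : I} (h : S.Free r x) (hc : S.c a b x ≠ 0) : S.Free r a := by
  intro a'
  by_contra h1
  obtain ⟨w, _, h2⟩ := S.assoc_ne h1 hc
  exact h2 (h w)

theorem PSH.Free.right {r x a b : I} (h : S.Free r x) (hc : S.c a b x ≠ 0) : S.Free r b :=
  h.left (b := a) (by rwa [S.c_comm])

theorem PSH.Cusp.decomp {r : I} (hr : S.Cusp r) (n : ℕ) : ∀ x, S.deg x = n →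
    ∃ p k q, S.Pure r p k ∧ S.Free r q ∧ S.c p q x ≠ 0 := by
  induction n using Nat.strong_induction_on with
  | _ n ih =>
  intro x hx
  by_cases hf : S.Free r x
  · exact ⟨S.o, 0, x, (S.pure_zero _ _).2 rfl, hf, by rw [S.c_left, if_pos rfl]; exact one_ne_zero⟩
  · obtain ⟨y, hy⟩ := not_forall.1 hf
    have h1 := S.c_deg _ _ _ hy
    have h2 := S.deg_pos hr.1
    obtain ⟨p, k, q, a1, a2, a3⟩ := ih (S.deg y) (by omega) y rfl
    obtain ⟨p', b1, b2⟩ := S.assoc_ne' a3 hy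
    exact ⟨p', 1 + k, q, ((S.pure_one r r).2 rfl).add a1 b1, a2, b2⟩

theorem PSH.adj_self (p : I) : S.adj (S.B p) (S.B p) = 1 := by
  refine S.R_ext fun e => ?_
  rw [S.co_adj_B, S.one_def, S.co_B]
  split_ifs with h
  · rw [← h, S.c_right, if_pos rfl]; rfl
  · by_contra h1
    have h2 := S.c_deg p e p fun h2 => h1 (by rw [h2]; rfl)
    exact h ((S.deg_o _).1 (by omega)).symm

theorem PSH.Cusp.basis {r p q : I} (hr : S.Cusp r) {k : ℕ} (hp : S.Pure r p k)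
    (hq : S.Free r q) : ∃ x, S.B p * S.B q = S.B x := by
  have h1 : S.ip (S.B p * S.B q) (S.B p * S.B q) = 1 := by
    rw [S.ip_adj, S.mackeyR, sum_eq_single (p, S.o)]
    · simp only [S.c_right, if_pos, PSH.adj_self, ← S.one_def, S.adj_one, one_mul, Nat.cast_one,
        one_smul, S.ip_B, S.co_B_self]
    · intro a _ ha
      by_cases h2 : S.c a.1 a.2 p = 0
      · rw [h2]; simp
      obtain ⟨i, j, _, _, h3⟩ := hr.split hp h2
      have h4 : S.adj (S.B a.2) (S.B q) = 0 := by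
        refine S.R_ext fun e => ?_
        rw [S.co_adj_B, map_zero, Nat.cast_eq_zero]
        by_contra h5
        have h6 := h3.eq_o (hq.left h5)
        rw [h6] at h2
        exact ha (Prod.ext (S.eq_of_right h2) h6)
      rw [h4, mul_zero, smul_zero]
    · intro h2
      exact absurd ((S.mem_prs _ _).2 (by simp only [S.deg_o', add_zero])) h2
  obtain ⟨y, ε, h2, h3⟩ := S.norm_one (S.B p * S.B q)
    (fun h => by rw [h, map_zero] at h1; exact zero_ne_one h1) h1.le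
  rcases h2 with h2 | h2
  · exact ⟨y, by rw [h3, h2, one_smul]⟩
  · have h4 := S.pos_mul (S.pos_B p) (S.pos_B q) y
    rw [h3, map_zsmul, S.co_B_self, h2] at h4
    simp at h4

theorem PSH.exists_cusp (n : ℕ) : ∀ x, S.deg x = n → x ≠ S.o → ∃ r, S.Cusp r ∧ ¬ S.Free r x := by
  induction n using Nat.strong_induction_on with
  | _ n ih =>
  intro x hx ho
  by_cases hc : S.Cusp x
  · refine ⟨x, hc, fun h => ?_⟩
    have h1 := h S.o
    rw [S.c_right, if_pos rfl] at h1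
    exact one_ne_zero h1
  · have h1 : ∃ a b, S.c a b x ≠ 0 ∧ a ≠ S.o ∧ b ≠ S.o := by
      by_contra h2
      refine hc ⟨ho, fun a b h3 => ?_⟩
      by_contra h4
      rw [not_or] at h4
      exact h2 ⟨a, b, h3, h4.1, h4.2⟩
    obtain ⟨a, b, h2, h3, h4⟩ := h1
    have h5 := S.c_deg _ _ _ h2
    have h6 := S.deg_pos h4
    obtain ⟨r, h7, h8⟩ := ih (S.deg a) (by omega) a rfl h3
    exact ⟨r, h7, fun h => h8 (h.left h2)⟩

end Pool.Agent.SemiProp.GLn
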