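import Pool.Agent.Lib.MP_c1c6b6_al.GLA3

set_option autoImplicit false

open Finset

namespace Pool.Agent.SemiProp.GLn

variable {I : Type} [DecidableEq I] (S : PSH I)

/-- Multiplicative functions on the basis. -/
def PSH.Mult (η : I → ℤ) : Prop :=
  η S.o = 1 ∧ ∀ x y, ∑ z ∈ S.lev (S.deg x + S.deg y), S.c x y z * η z = η x * η y

/-- Convolution inverses. -/
def PSH.Inv (η η' : I → ℤ) : Prop :=
  ∀ x, ∑ p ∈ S.prs (S.deg x), S.c p.1 p.2 x * (η p.1 * η' p.2) = if x = S.o then 1 else 0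

/-- The homogeneous parts of a function on the basis. -/
noncomputable def PSH.Th (η : I → ℤ) (k : ℕ) : S.R := ∑ a ∈ S.lev k, η a • S.B a

open Classical in
/-- The pure parts of a function on the basis. -/
noncomputable def PSH.H (r : I) (η : I → ℤ) (k : ℕ) : S.R :=
  ∑ a ∈ S.lev (k * S.deg r), (if S.Pure r a k then η a else 0) • S.B a

theorem PSH.co_Th (η : I → ℤ) (k : ℕ) (a : I) :
    S.co a (S.Th η k) = if S.deg a = k then η a else 0 := by
  rw [PSH.Th, S.co_sum]; simp only [S.mem_lev]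

open Classical in
theorem PSH.co_H (r : I) (η : I → ℤ) (k : ℕ) (a : I) :
    S.co a (S.H r η k) = if S.Pure r a k then η a else 0 := by
  rw [PSH.H, S.co_sum]
  split_ifs with h1 h2 h2
  · rfl
  · rfl
  · exact absurd ((S.mem_lev _ _).2 h2.deg_eq) h1
  · rfl

theorem gla_ad {M : Type} [AddCommMonoid M] (f : ℕ × ℕ → M) (m i j : ℕ)
    (h : ∀ p : ℕ × ℕ, p.1 + p.2 = m → f p ≠ 0 → p = (i, j)) :
    ∑ p ∈ antidiagonal m, f p = if i + j = m then f (i, j) else 0 := by
  split_ifs with h1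
  · exact sum_eq_single_of_mem (i, j) (gla_mem.2 h1) fun p hq hp => by
      by_contra h2; exact hp (h p (gla_mem.1 hq) h2)
  · refine sum_eq_zero fun p hp => ?_
    by_contra h2
    rw [h p (gla_mem.1 hp) h2] at hp
    exact h1 (gla_mem.1 hp)

theorem PSH.ThTh (η η' : I → ℤ) (m : ℕ) (a b : I) :
    ∑ p ∈ antidiagonal m, S.co a (S.Th η p.1) * S.co b (S.Th η' p.2) =
      if S.deg a + S.deg b = m then η a * η' b else 0 := by
  rw [gla_ad _ m (S.deg a) (S.deg b)]
  · simp only [S.co_Th, if_true]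
  · intro p _ hp
    simp only [S.co_Th, ne_eq, mul_eq_zero, ite_eq_right_iff, not_or, Classical.not_imp] at hp
    exact Prod.ext hp.1.1.symm hp.2.1.symm

variable {S}

theorem PSH.Inv.symm {η η' : I → ℤ} (h : S.Inv η η') : S.Inv η' η := fun x => by
  rw [S.sum_prs_swap, ← h x]
  exact sum_congr rfl fun p _ => by
    simp only [Prod.fst_swap, Prod.snd_swap]; rw [S.c_comm p.2, mul_comm (η' _)]

theorem PSH.Mult.gl {η : I → ℤ} (h : S.Mult η) : S.GL (S.Th η) := by
  refine S.gl_of_B _ fun m a b => ?_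
  rw [S.ThTh, S.ip_BB]
  split_ifs with h1
  · rw [← h.2]
    exact sum_congr rfl fun x hx => by rw [S.co_Th, if_pos (((S.mem_lev _ _).1 hx).trans h1)]
  · exact sum_eq_zero fun x hx => by
      rw [S.co_Th, if_neg (fun h2 => h1 (((S.mem_lev _ _).1 hx).symm.trans h2)), mul_zero]

theorem PSH.Inv.conv {η η' : I → ℤ} (h : S.Inv η η') (M : ℕ) :
    ∑ p ∈ antidiagonal M, S.Th η p.1 * S.Th η' p.2 = if M = 0 then 1 else 0 := by
  refine S.R_ext fun x => ?_
  rw [map_sum]
  simp only [S.co_mul x, mul_assoc]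
  rw [sum_comm]
  simp only [← mul_sum, S.ThTh]
  by_cases hx : S.deg x = M
  · rw [sum_congr rfl fun p hp => by rw [if_pos (((S.mem_prs _ _).1 hp).trans hx)], h x]
    by_cases ho : x = S.o
    · rw [if_pos ho, if_pos (by rw [← hx, ho, S.deg_o']), S.one_def, ho, S.co_B_self]
    · rw [if_neg ho, if_neg (fun h1 => ho ((S.deg_o _).1 (hx.trans h1))), map_zero]
  · rw [sum_eq_zero fun p hp => by
      rw [if_neg (fun h1 => hx (((S.mem_prs _ _).1 hp).symm.trans h1)), mul_zero]]
    split_ifs with hM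
    · rw [S.one_def, S.co_B, if_neg fun h1 => hx (by rw [← h1, S.deg_o', hM])]
    · rw [map_zero]

open PowerSeries in
theorem PSH.Inv.mult {η η' : I → ℤ} (h : S.Inv η η') (h' : S.Mult η') (ho : η S.o = 1) :
    S.Mult η := by
  obtain ⟨A, hA⟩ : ∃ A : I → S.R⟦X⟧ → S.R⟦X⟧,
      ∀ a f n, coeff n (A a f) = S.adj (S.B a) (coeff n f) :=
    ⟨fun a f => PowerSeries.mk fun n => S.adj (S.B a) (coeff n f), fun a f n => coeff_mk _ _⟩
  have hm : ∀ x f g, A x (f * g) =
      ∑ p ∈ S.prs (S.deg x), (S.c p.1 p.2 x : ℤ) • (A p.1 f * A p.2 g) := by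
    intro x f g
    ext n
    rw [hA, coeff_mul, map_sum, map_sum]
    simp only [S.mackeyR, map_zsmul, coeff_mul, hA, smul_sum]
    exact sum_comm
  have hF' : ∀ b, A b (PowerSeries.mk (S.Th η')) =
      η' b • (X ^ S.deg b * PowerSeries.mk (S.Th η')) := by
    intro b
    ext n
    rw [hA, coeff_mk, map_zsmul, coeff_X_pow_mul', h'.gl.self,
      gla_ad _ n (S.deg b) (n - S.deg b)]
    · simp only [S.ip_B, S.co_Th, if_true, coeff_mk]
      by_cases h1 : S.deg b ≤ n
      · rw [if_pos h1, if_pos (by omega)]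
      · rw [if_neg h1, if_neg (by omega), smul_zero]
    · intro p hp h1
      have h2 : S.deg b = p.1 := by
        by_contra h3
        exact h1 (by rw [S.ip_B, S.co_Th, if_neg h3, zero_smul])
      exact Prod.ext h2.symm (by simp only; omega)
  have hFF : PowerSeries.mk (S.Th η) * PowerSeries.mk (S.Th η') = 1 := by
    ext n
    simp only [coeff_mul, coeff_mk, coeff_one, h.conv n]
  have hA1 : ∀ x, A x 1 = if x = S.o then 1 else 0 := by
    intro x
    ext n
    rw [hA, coeff_one]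
    by_cases hx : x = S.o
    · rw [if_pos hx, hx, ← S.one_def, S.adj_one, coeff_one]
    · rw [if_neg hx, map_zero]
      split_ifs
      · refine S.R_ext fun e => ?_
        rw [S.one_def, S.co_adj_B, map_zero, Nat.cast_eq_zero]
        by_contra h1
        have h2 := S.c_deg _ _ _ h1
        have h3 := S.deg_pos hx
        rw [S.deg_o'] at h2
        omega
      · rw [map_zero]
  have hF : ∀ n x, S.deg x = n → A x (PowerSeries.mk (S.Th η)) =
      η x • (X ^ S.deg x * PowerSeries.mk (S.Th η)) := by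
    intro n
    induction n using Nat.strong_induction_on with
    | _ n ih =>
    intro x hx
    have hxo : (x, S.o) ∈ S.prs (S.deg x) := (S.mem_prs _ _).2 (by simp only [S.deg_o', add_zero])
    have e1 := hm x (PowerSeries.mk (S.Th η)) (PowerSeries.mk (S.Th η'))
    have e2 := h x
    rw [hFF, hA1, ← add_sum_erase _ _ hxo] at e1
    rw [← add_sum_erase _ _ hxo] at e2
    have e3 : ∑ p ∈ (S.prs (S.deg x)).erase (x, S.o), (S.c p.1 p.2 x : ℤ) •
        (A p.1 (PowerSeries.mk (S.Th η)) * A p.2 (PowerSeries.mk (S.Th η'))) =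
        (∑ p ∈ (S.prs (S.deg x)).erase (x, S.o), (S.c p.1 p.2 x : ℤ) * (η p.1 * η' p.2)) •
          (X ^ S.deg x : S.R⟦X⟧) := by
      rw [sum_smul]
      refine sum_congr rfl fun p hp => ?_
      by_cases hc : S.c p.1 p.2 x = 0
      · rw [hc]; simp
      have h1 := S.c_deg _ _ _ hc
      have h2 : p.2 ≠ S.o := fun h3 => (mem_erase.1 hp).1
        (Prod.ext (S.eq_of_right (by rwa [h3] at hc)) h3)
      have h3 := S.deg_pos h2
      rw [ih (S.deg p.1) (by omega) p.1 rfl, hF', h1, pow_add]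
      simp only [zsmul_eq_mul, Int.cast_mul]
      linear_combination ((S.c p.1 p.2 x : ℤ) : S.R⟦X⟧) * (η p.1 : S.R⟦X⟧) * (η' p.2 : S.R⟦X⟧) *
        X ^ S.deg p.1 * X ^ S.deg p.2 * hFF
    rw [e3, hF', eq_sub_of_add_eq' e2] at e1
    simp only [S.c_right, if_true, h'.1, S.deg_o', Nat.cast_one, one_smul, pow_zero, one_mul,
      mul_one] at e1
    have e4 : (if x = S.o then (1 : S.R⟦X⟧) else 0) =
        (if x = S.o then (1 : ℤ) else 0) • (X ^ S.deg x : S.R⟦X⟧) := by
      split_ifs with h1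
      · rw [h1, S.deg_o', pow_zero, one_smul]
      · rw [zero_smul]
    rw [e4, sub_smul] at e1
    simp only [zsmul_eq_mul] at e1 ⊢
    linear_combination -(PowerSeries.mk (S.Th η)) * e1 - A x (PowerSeries.mk (S.Th η)) * hFF
  refine ⟨ho, fun x y => ?_⟩
  have e := congrArg (fun f => S.co y (coeff (S.deg x + S.deg y) f)) (hF _ x rfl)
  simp only [hA, coeff_mk, map_zsmul, coeff_X_pow_mul', Nat.le_add_right, if_true,
    Nat.add_sub_cancel_left, S.co_Th, S.co_adj, S.ip_BB, smul_eq_mul] at e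
  rw [← e]
  exact sum_congr rfl fun z hz => by rw [if_pos ((S.mem_lev _ _).1 hz)]

theorem PSH.Mult.ev {η : I → ℤ} (h : S.Mult η) (u w : S.R) :
    S.lc η (u * w) = S.lc η u * S.lc η w := by
  refine S.R_ind (P := fun u => S.lc η (u * w) = S.lc η u * S.lc η w) u (by simp) ?_ ?_
  · intro a b h1 h2; simp only [add_mul, map_add, h1, h2]
  intro n a
  refine S.R_ind (P := fun w => S.lc η (n • S.B a * w) = S.lc η (n • S.B a) * S.lc η w) w
    (by simp) ?_ ?_
  · intro a b h1 h2; simp only [mul_add, map_add, h1, h2]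
  intro m b
  simp only [smul_mul_assoc, mul_smul_comm, map_zsmul, S.lc_B, smul_eq_mul]
  rw [S.mul_def, S.mulH_B, map_sum]
  simp only [map_zsmul, S.lc_B, smul_eq_mul, h.2]
  ring

theorem PSH.Mult.ev_one {η : I → ℤ} (h : S.Mult η) : S.lc η 1 = 1 := by
  rw [S.one_def, S.lc_B, h.1]

open Classical in
theorem PSH.Cusp.HH {r : I} (hr : S.Cusp r) (η η' : I → ℤ) (m : ℕ) (a b : I) :
    ∑ p ∈ antidiagonal m, S.co a (S.H r η p.1) * S.co b (S.H r η' p.2) =
      if ∃ i j, i + j = m ∧ S.Pure r a i ∧ S.Pure r b j then η a * η' b else 0 := by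
  split_ifs with h
  · obtain ⟨i, j, h1, h2, h3⟩ := h
    rw [gla_ad _ m i j, if_pos h1, S.co_H, S.co_H, if_pos h2, if_pos h3]
    intro p _ hp
    simp only [S.co_H, ne_eq, mul_eq_zero, ite_eq_right_iff, not_or, Classical.not_imp] at hp
    exact Prod.ext (hr.uniq hp.1.1 h2) (hr.uniq hp.2.1 h3)
  · refine sum_eq_zero fun p hp => ?_
    by_contra h1
    simp only [S.co_H, mul_eq_zero, ite_eq_right_iff, not_or, Classical.not_imp] at h1
    exact h ⟨p.1, p.2, gla_mem.1 hp, h1.1.1, h1.2.1⟩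

theorem PSH.Cusp.gl {r : I} (hr : S.Cusp r) {η : I → ℤ} (h : S.Mult η) : S.GL (S.H r η) := by
  refine S.gl_of_B _ fun m a b => ?_
  rw [hr.HH, S.ip_BB]
  split_ifs with h1
  · obtain ⟨i, j, h2, h3, h4⟩ := h1
    rw [← h.2]
    refine sum_congr rfl fun x _ => ?_
    by_cases hc : S.c a b x = 0
    · rw [hc]; simp
    · rw [S.co_H, if_pos (h2 ▸ h3.add h4 hc)]
  · refine sum_eq_zero fun x _ => ?_
    by_cases hc : S.c a b x = 0
    · rw [hc]; simp
    · rw [S.co_H, if_neg (fun h2 => h1 (hr.split h2 hc)), mul_zero]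

open Classical in
theorem PSH.Cusp.conv {r : I} (hr : S.Cusp r) {η η' : I → ℤ} (h : S.Inv η η') (M : ℕ) :
    ∑ p ∈ antidiagonal M, S.H r η p.1 * S.H r η' p.2 = if M = 0 then 1 else 0 := by
  refine S.R_ext fun x => ?_
  rw [map_sum]
  simp only [S.co_mul x, mul_assoc]
  rw [sum_comm]
  simp only [← mul_sum, hr.HH]
  by_cases hx : S.Pure r x M
  · have e : ∀ p ∈ S.prs (S.deg x), (S.c p.1 p.2 x : ℤ) *
        (if ∃ i j, i + j = M ∧ S.Pure r p.1 i ∧ S.Pure r p.2 j then η p.1 * η' p.2 else 0) =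
        S.c p.1 p.2 x * (η p.1 * η' p.2) := by
      intro p _
      by_cases hc : S.c p.1 p.2 x = 0
      · rw [hc]; simp
      · rw [if_pos (hr.split hx hc)]
    rw [sum_congr rfl e, h x]
    by_cases ho : x = S.o
    · rw [if_pos ho, if_pos (hr.uniq hx ((S.pure_zero _ _).2 ho)), S.one_def, ho, S.co_B_self]
    · rw [if_neg ho, if_neg (fun h1 : M = 0 => ho ((S.pure_zero r _).1 (h1 ▸ hx))), map_zero]
  · rw [sum_eq_zero]
    · split_ifs with hM
      · rw [S.one_def, S.co_B, if_neg fun h1 => hx (hM ▸ (S.pure_zero r _).2 h1.symm)]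
      · rw [map_zero]
    · intro p _
      by_cases hc : S.c p.1 p.2 x = 0
      · rw [hc]; simp
      · rw [if_neg, mul_zero]
        rintro ⟨i, j, h1, h2, h3⟩
        exact hx (h1 ▸ h2.add h3 hc)

end Pool.Agent.SemiProp.GLn
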