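import Pool.Agent.Lib.MP_c1c6b6_al.Wr2

set_option autoImplicit false
set_option linter.unusedSectionVars false

open Finset Function

namespace Pool.Agent.SemiProp.Alt

theorem bessel {X Z I : Type} [Fintype X] [DecidableEq I] (S : Finset I) (u : I → X → ℂ) {C : ℝ}
    (hC : 0 < C)
    (hu : ∀ i ∈ S, ∀ j ∈ S, ∑ x, u i x * (starRingEnd ℂ) (u j x) = if i = j then (C : ℂ) else 0)
    (A : Finset Z) (e : Z → X) (he : Set.InjOn e A) (f : Z → ℂ) :
    ∑ i ∈ S, Complex.normSq (∑ y ∈ A, u i (e y) * f y) ≤ C * ∑ y ∈ A, Complex.normSq (f y) := by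
  classical
  obtain ⟨F, hF⟩ : ∃ F : I → ℂ, ∀ i, F i = ∑ y ∈ A, u i (e y) * f y := ⟨_, fun _ => rfl⟩
  obtain ⟨g, hg⟩ : ∃ g : X → ℂ, ∀ x, g x = ∑ i ∈ S, (starRingEnd ℂ) (F i) * u i x :=
    ⟨_, fun _ => rfl⟩
  simp only [← hF]
  have h1 : ∑ i ∈ S, Complex.normSq (F i) = ∑ y ∈ A, (f y * g (e y)).re := by
    have h2 : ∑ i ∈ S, (starRingEnd ℂ) (F i) * F i = ∑ y ∈ A, f y * g (e y) := by
      rw [sum_congr rfl fun i _ => congrArg ((starRingEnd ℂ) (F i) * ·) (hF i)]
      simp only [hg, mul_sum]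
      rw [sum_comm]
      exact sum_congr rfl fun y _ => sum_congr rfl fun i _ => by ring
    rw [← Complex.re_sum, ← h2, Complex.re_sum]
    exact sum_congr rfl fun i _ => by rw [← Complex.normSq_eq_conj_mul_self, Complex.ofReal_re]
  have h2 : ∑ x, Complex.normSq (g x) = C * ∑ i ∈ S, Complex.normSq (F i) := by
    refine Complex.ofReal_injective ?_
    rw [mul_sum]
    simp only [Complex.ofReal_sum, Complex.ofReal_mul, ← Complex.mul_conj, hg, map_sum, sum_mul_sum,
      map_mul, Complex.conj_conj]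
    rw [sum_comm]
    refine sum_congr rfl fun i hi => ?_
    have key : ∀ j ∈ S, ∑ x, (starRingEnd ℂ) (F i) * u i x * (F j * (starRingEnd ℂ) (u j x)) =
        (starRingEnd ℂ) (F i) * F j * if i = j then (C : ℂ) else 0 := fun j hj => by
      rw [← hu i hi j hj, mul_sum]
      exact sum_congr rfl fun x _ => by ring
    rw [sum_comm, sum_congr rfl key, sum_eq_single_of_mem i hi fun j _ h => by
      rw [if_neg h.symm, mul_zero], if_pos rfl]
    ring
  have h3 : ∑ y ∈ A, Complex.normSq (g (e y)) ≤ ∑ x, Complex.normSq (g x) := by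
    rw [← sum_image (f := fun x => Complex.normSq (g x)) he]
    exact sum_le_sum_of_subset_of_nonneg (subset_univ _) fun _ _ _ => Complex.normSq_nonneg _
  have h4 : 2 * C * ∑ y ∈ A, (f y * g (e y)).re ≤
      C ^ 2 * ∑ y ∈ A, Complex.normSq (f y) + ∑ y ∈ A, Complex.normSq (g (e y)) := by
    simp only [mul_sum, ← sum_add_distrib]
    refine sum_le_sum fun y _ => ?_
    simp only [Complex.mul_re, Complex.normSq_apply]
    nlinarith [sq_nonneg (C * (f y).re - (g (e y)).re), sq_nonneg (C * (f y).im + (g (e y)).im)]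
  rw [← h1] at h4
  exact le_of_mul_le_mul_left (by nlinarith) hC

variable {K T ι : Type} [Group K] [Fintype K] [Fintype T] [DecidableEq T] [Fintype ι]
  [DecidableEq ι]

/-- `B` is the direct sum of the irreducible matrix representations of `K`, and `t` names the
blocks. -/
def Fou (t : T → ι) (B : K →* Matrix T T ℂ) : Prop :=
  Surjective t ∧ (∀ k x y, t x ≠ t y → B k x y = 0) ∧
    (∀ x y, t x = t y → ∃ c : K → ℂ, ∑ k, c k • B k = Matrix.single x y 1) ∧
    ∀ c : K → ℂ, ∑ k, c k • B k = 0 → c = 0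

theorem exists_fou (K : Type) [Group K] [Fintype K] : ∃ (n : ℕ) (d : Fin n → ℕ)
    (B : K →* Matrix (Σ i, Fin (d i)) (Σ i, Fin (d i)) ℂ), Fou Sigma.fst B := by
  have : NeZero (Nat.card K : ℂ) := ⟨cardG_ne⟩
  obtain ⟨n, d, hd, ⟨E⟩⟩ :=
    IsSemisimpleRing.exists_algEquiv_pi_matrix_of_isAlgClosed ℂ (MonoidAlgebra ℂ K)
  have h1 : ∀ x : MonoidAlgebra ℂ K, ∑ k, x.coeff k • MonoidAlgebra.of ℂ K k = x := fun x => by
    ext g
    simp
  have h2 : ∀ c : K → ℂ, ∑ k, c k • Matrix.blockDiagonal' (E (MonoidAlgebra.of ℂ K k)) =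
      Matrix.blockDiagonal' (E (∑ k, c k • MonoidAlgebra.of ℂ K k)) := fun c => by
    simp only [map_sum, map_smul, ← Matrix.blockDiagonal'_smul]
    exact (map_sum (Matrix.blockDiagonal'AddMonoidHom _ _ ℂ) _ _).symm
  refine ⟨n, d, (Matrix.blockDiagonal'RingHom (fun i => Fin (d i)) ℂ).toMonoidHom.comp
    (E.toAlgHom.toRingHom.toMonoidHom.comp (MonoidAlgebra.of ℂ K)), fun i => ⟨⟨i, 0⟩, rfl⟩,
    fun k x y h => Matrix.blockDiagonal'_apply_ne (E (MonoidAlgebra.of ℂ K k)) x.2 y.2 h, ?_,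
    fun c hc => ?_⟩
  · rintro ⟨i, x⟩ ⟨j, y⟩ h
    obtain rfl : i = j := h
    refine ⟨(E.symm (Pi.single i (Matrix.single x y 1))).coeff, (h2 _).trans ?_⟩
    rw [h1, E.apply_symm_apply]
    ext ⟨a, b⟩ ⟨a', b'⟩
    by_cases h3 : a = a'
    · subst h3
      rw [Matrix.blockDiagonal'_apply_eq]
      by_cases h4 : a = i
      · subst h4
        simp [Matrix.single]
      · simp [Matrix.single, h4, Ne.symm h4]
    · rw [Matrix.blockDiagonal'_apply_ne _ _ _ h3, Matrix.single_apply_of_ne]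
      exact fun h4 => h3 ((congrArg Sigma.fst h4.1).symm.trans (congrArg Sigma.fst h4.2))
  · have h3 := Matrix.blockDiagonal'_injective
      (((h2 c).symm.trans hc).trans Matrix.blockDiagonal'_zero.symm)
    rw [map_eq_zero_iff _ E.injective] at h3
    funext g
    classical
    simpa [Finsupp.single_apply] using congrArg (fun x => x.coeff g) h3

/-- The size of a block. -/
def bs (t : T → ι) (i : ι) : ℕ := (univ.filter (t · = i)).card

variable {t : T → ι} {B : K →* Matrix T T ℂ}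

theorem Fou.bs_ne (h : Fou t B) (i : ι) : (bs t i : ℂ) ≠ 0 := by
  obtain ⟨x, hx⟩ := h.1 i
  exact Nat.cast_ne_zero.2 (card_pos.2 ⟨x, mem_filter.2 ⟨mem_univ _, hx⟩⟩).ne'

theorem Fou.schur (h : Fou t B) (x y z w : T) : ∑ k, B k x y * B k⁻¹ z w =
    if x = w ∧ y = z ∧ t x = t y then (Fintype.card K : ℂ) / bs t (t x) else 0 := by
  obtain ⟨A, hA⟩ : ∃ A : Matrix T T ℂ, A = ∑ k, B k * Matrix.single y z 1 * B k⁻¹ := ⟨_, rfl⟩
  have h1 : ∀ x w, A x w = ∑ k, B k x y * B k⁻¹ z w := fun x w => by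
    rw [hA, Matrix.sum_apply]
    refine sum_congr rfl fun k _ => ?_
    rw [Matrix.mul_apply, sum_eq_single z (fun b _ hb => by
      rw [Matrix.mul_single_apply_of_ne _ _ _ _ _ hb, zero_mul]) (by simp),
      Matrix.mul_single_apply_same, mul_one]
  have h2 : ∀ g, B g * A = A * B g := fun g => by
    rw [hA, mul_sum, sum_mul, ← Equiv.sum_comp (Equiv.mulLeft g)
      fun k => B k * Matrix.single y z 1 * B k⁻¹ * B g]
    refine sum_congr rfl fun k _ => ?_
    simp only [Equiv.coe_mulLeft, mul_assoc, ← map_mul]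
    simp [mul_assoc]
  have h3 : ∀ u v, t u = t v → Matrix.single u v (1 : ℂ) * A = A * Matrix.single u v (1 : ℂ) :=
    fun u v huv => by
      obtain ⟨c, hc⟩ := h.2.2.1 u v huv
      simp only [← hc, mul_sum, sum_mul, smul_mul_assoc, mul_smul_comm, h2]
  have h4 : ∀ u, t u ≠ t y → A u u = 0 := fun u hu => by
    rw [h1]
    exact sum_eq_zero fun k _ => by rw [h.2.1 k u y hu, zero_mul]
  rw [← h1]
  by_cases h5 : x = w
  · subst h5
    by_cases h6 : t x = t y
    · have h7 : A.trace = bs t (t x) * A x x := by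
        rw [Matrix.trace, bs, ← nsmul_eq_mul, ← sum_const, sum_filter]
        refine sum_congr rfl fun u _ => ?_
        split_ifs with h8
        · have h9 := congrFun (congrFun (h3 u x h8) u) x
          rw [Matrix.single_mul_apply_same, Matrix.mul_single_apply_same, one_mul, mul_one] at h9
          exact h9.symm
        · exact h4 u (h6 ▸ h8)
      have h8 : A.trace = Fintype.card K * (Matrix.single y z (1 : ℂ)).trace := by
        rw [hA, Matrix.trace_sum, ← nsmul_eq_mul, ← card_univ, ← sum_const]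
        exact sum_congr rfl fun k _ => by
          rw [Matrix.trace_mul_cycle, ← map_mul, inv_mul_cancel, map_one, one_mul]
      rw [h7] at h8
      by_cases h9 : y = z
      · subst h9
        rw [Matrix.trace_single_eq_same, mul_one] at h8
        rw [if_pos ⟨rfl, rfl, h6⟩, eq_div_iff (h.bs_ne _), mul_comm, h8]
      · rw [Matrix.trace_single_eq_of_ne _ _ _ h9, mul_zero] at h8
        rw [if_neg fun h10 => h9 h10.2.1]
        exact (mul_eq_zero.1 h8).resolve_left (h.bs_ne _)
    · rw [if_neg fun h10 => h6 h10.2.2, h4 x h6]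
  · have h9 := congrFun (congrFun (h3 x x rfl) x) w
    rw [Matrix.single_mul_apply_same, Matrix.mul_single_apply_of_ne _ _ _ _ _ (Ne.symm h5),
      one_mul] at h9
    rw [if_neg fun h10 => h5 h10.1, h9]

theorem Fou.complete [DecidableEq K] (h : Fou t B) (k : K) :
    ∑ x, bs t (t x) * B k x x = if k = 1 then (Fintype.card K : ℂ) else 0 := by
  have h1 := h.2.2.2 (fun k => ∑ x, bs t (t x) * B k⁻¹ x x -
    if k = 1 then (Fintype.card K : ℂ) else 0) (by
      simp only [sub_smul, sum_sub_distrib, ite_smul, zero_smul, sum_ite_eq', mem_univ, if_true,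
        map_one, sub_eq_zero]
      ext z w
      simp only [Matrix.sum_apply, Matrix.smul_apply, smul_eq_mul, sum_mul]
      rw [sum_comm]
      have h2 : ∀ x, ∑ k, bs t (t x) * B k⁻¹ x x * B k z w = bs t (t x) *
          if z = x ∧ w = x ∧ t z = t w then (Fintype.card K : ℂ) / bs t (t z) else 0 := fun x => by
        rw [← h.schur, mul_sum]
        exact sum_congr rfl fun k _ => by ring
      rw [sum_congr rfl fun x _ => h2 x, sum_eq_single z (fun x _ hx => by
        rw [if_neg fun h3 => hx h3.1.symm, mul_zero]) (by simp)]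
      by_cases h3 : z = w
      · subst h3
        rw [if_pos ⟨rfl, rfl, rfl⟩, mul_div_cancel₀ _ (h.bs_ne _), Matrix.one_apply_eq, mul_one]
      · rw [if_neg fun h4 => h3 h4.2.1.symm, Matrix.one_apply_ne h3, mul_zero, mul_zero])
  have h2 := congrFun h1 k⁻¹
  simpa only [inv_inv, inv_eq_one, Pi.zero_apply, sub_eq_zero] using h2

end Pool.Agent.SemiProp.Alt
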