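import Pool.Agent.Lib.MP_c1c6b6_al.GL0
import Pool.Agent.Lib.MP_c1c6b6_al.Wr3

set_option autoImplicit false

open Finset

namespace Pool.Agent.SemiProp.GLn

variable {G : Type} [Group G] {χ χ' : G → ℂ}

theorem IsIr.isCh (h : IsIr χ) : IsCh χ := by
  obtain ⟨V, i1, i2, i3, ρ, -, hρ⟩ := h
  exact ⟨V, i1, i2, i3, ρ, hρ⟩

theorem IsCh.mul (h : IsCh χ) (h' : IsCh χ') : IsCh fun g => χ g * χ' g := by
  obtain ⟨V, i1, i2, i3, ρ, rfl⟩ := h
  obtain ⟨W, j1, j2, j3, σ, rfl⟩ := h'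
  exact ⟨TensorProduct ℂ V W, inferInstance, inferInstance, inferInstance, ρ.tprod σ,
    (Representation.char_tensor ρ σ).symm⟩

theorem IsCh.comp {H : Type} [Group H] (h : IsCh χ) (f : H →* G) : IsCh fun g => χ (f g) := by
  obtain ⟨V, i1, i2, i3, ρ, rfl⟩ := h
  exact ⟨V, i1, i2, i3, ρ.comp f, rfl⟩

theorem IsIr.comp {H : Type} [Group H] (h : IsIr χ) (f : H ≃* G) : IsIr fun g => χ (f g) := by
  obtain ⟨V, i1, i2, i3, ρ, hρ, rfl⟩ := h
  refine ⟨V, i1, i2, i3, ρ.comp f.toMonoidHom, ⟨hρ.nontriv, fun U hU => hρ.inv U fun g v hv => ?_⟩,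
    rfl⟩
  obtain ⟨x, rfl⟩ := f.surjective g
  exact hU x v hv

theorem gle_lin (f : G →* ℂ) : IsIr fun g => f g := by
  refine ⟨ℂ, inferInstance, inferInstance, inferInstance,
    { toFun := fun g => f g • (1 : Module.End ℂ ℂ)
      map_one' := by rw [map_one, one_smul]
      map_mul' := fun a b => by rw [map_mul, smul_mul_smul_comm, mul_one] },
    ⟨inferInstance, fun U _ => eq_bot_or_eq_top U⟩, ?_⟩
  funext g
  change f g = LinearMap.trace ℂ ℂ (f g • (1 : Module.End ℂ ℂ))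
  rw [map_smul, LinearMap.trace_one, Module.finrank_self, Nat.cast_one, smul_eq_mul, mul_one]

theorem isCh_lin (f : G →* ℂ) : IsCh fun g => f g := (gle_lin f).isCh

theorem IsCh.cls (h : IsCh χ) (g x : G) : χ (x * g * x⁻¹) = χ g := by
  obtain ⟨V, i1, i2, i3, ρ, rfl⟩ := h
  exact ρ.char_conj g x

theorem IsIr.one_ne (h : IsIr χ) : χ 1 ≠ 0 := by
  obtain ⟨V, i1, i2, i3, ρ, hρ, rfl⟩ := h
  rw [Representation.char_one]
  exact Nat.cast_ne_zero.2 hρ.finrank_pos.ne'

theorem isIr_one : IsIr fun _ : G => (1 : ℂ) := gle_lin (1 : G →* ℂ)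

variable [Fintype G]

theorem IsCh.conj (h : IsCh χ) : IsCh fun g => (starRingEnd ℂ) (χ g) := by
  obtain ⟨V, i1, i2, i3, ρ, rfl⟩ := h
  refine ⟨Module.Dual ℂ V, inferInstance, inferInstance, inferInstance, ρ.dual, ?_⟩
  funext g
  rw [Representation.char_dual, char_inv]

theorem IsCh.integral (h : IsCh χ) (g : G) : IsIntegral ℤ (χ g) := by
  obtain ⟨V, i1, i2, i3, ρ, rfl⟩ := h
  exact (isChar_top ρ ⊤).integral (Subgroup.mem_top g)

theorem gle_card (G : Type) [Group G] [Fintype G] : (Fintype.card G : ℂ) ≠ 0 :=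
  Nat.cast_ne_zero.2 Fintype.card_ne_zero

theorem IsCh.avg (h : IsCh χ) : ∃ k : ℕ, ∑ g, χ g = k * Fintype.card G := by
  obtain ⟨V, i1, i2, i3, ρ, rfl⟩ := h
  have hc : (Nat.card G : ℂ) ≠ 0 := Nat.cast_ne_zero.2 Nat.card_pos.ne'
  have : Invertible (Nat.card G : ℂ) := invertibleOfNonzero hc
  refine ⟨Module.finrank ℂ ρ.invariants, ?_⟩
  rw [← Representation.card_inv_mul_sum_char_eq_finrank, ← Nat.card_eq_fintype_card,
    mul_right_comm, inv_mul_cancel₀ hc, one_mul]

open Classical in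
theorem IsIr.orth (h : IsIr χ) (h' : IsIr χ') :
    ∑ g, χ g * (starRingEnd ℂ) (χ' g) = if χ = χ' then (Fintype.card G : ℂ) else 0 := by
  obtain ⟨V, i1, i2, i3, ρ, hρ, e⟩ := h
  obtain ⟨W, j1, j2, j3, σ, hσ, e'⟩ := h'
  split_ifs with h0
  · rw [← h0, e, ← hρ.sum_norm]
    exact sum_congr rfl fun g _ => by rw [char_inv]
  · have hc : (Nat.card G : ℂ) ≠ 0 := Nat.cast_ne_zero.2 Nat.card_pos.ne'
    have : Invertible (Nat.card G : ℂ) := invertibleOfNonzero hc
    have := hρ.isIrreducible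
    have := hσ.isIrreducible
    have h1 := Representation.char_orthonormal ρ σ
    rw [if_neg (fun ⟨φ⟩ => h0 (by rw [e, e', Representation.char_iso φ])),
      mul_eq_zero, or_iff_right (inv_ne_zero hc)] at h1
    rw [e, e', ← h1]
    exact sum_congr rfl fun g _ => by rw [char_inv]

theorem gle_block {T ι : Type} [Fintype T] [DecidableEq T] [Fintype ι] [DecidableEq ι]
    {t : T → ι} {B : G →* Matrix T T ℂ} (h : Alt.Fou t B) (i : ι) :
    IsIr fun g => ∑ x : {x // t x = i}, B g x x := by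
  let M : G →* Matrix {x // t x = i} {x // t x = i} ℂ :=
    { toFun := fun g => (B g).submatrix Subtype.val Subtype.val
      map_one' := by rw [map_one]; exact Matrix.submatrix_one _ Subtype.val_injective
      map_mul' := fun a b => by
        ext x y
        rw [map_mul, Matrix.submatrix_apply, Matrix.mul_apply, Matrix.mul_apply]
        simp only [Matrix.submatrix_apply]
        rw [← sum_subtype (univ.filter fun z => t z = i) (p := fun z => t z = i) (by simp)
          fun z => B a x z * B b z y]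
        refine (sum_subset (filter_subset _ _) fun z _ hz => ?_).symm
        rw [h.2.1 a x z fun h1 => hz (mem_filter.2 ⟨mem_univ _, h1.symm.trans x.2⟩), zero_mul] }
  let ρ : Representation ℂ G ({x // t x = i} → ℂ) :=
    (Matrix.toLinAlgEquiv' (R := ℂ) (n := {x // t x = i})).toAlgHom.toRingHom.toMonoidHom.comp M
  have hρ : ∀ g v, ρ g v = (M g).mulVec v := fun g v => rfl
  obtain ⟨x0, hx0⟩ := h.1 i
  have : Nonempty {x // t x = i} := ⟨⟨x0, hx0⟩⟩
  refine ⟨{x // t x = i} → ℂ, inferInstance, inferInstance, inferInstance, ρ,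
    ⟨inferInstance, fun U hU => ?_⟩, ?_⟩
  · rw [or_iff_not_imp_left]
    intro h0
    obtain ⟨v, hv, hv0⟩ := (Submodule.ne_bot_iff U).1 h0
    obtain ⟨y, hy⟩ := Function.ne_iff.1 hv0
    have h1 : ∀ x : {x // t x = i}, (Pi.single x (v y) : {x // t x = i} → ℂ) ∈ U := fun x => by
      obtain ⟨c, hc⟩ := h.2.2.1 x y (x.2.trans y.2.symm)
      have h2 : ∑ k, c k • M k = Matrix.single x y 1 := by
        ext a b
        have h3 := congrFun (congrFun hc a) b
        simp only [Matrix.sum_apply, Matrix.smul_apply] at h3 ⊢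
        refine h3.trans ?_
        simp only [Matrix.single, Matrix.of_apply, Subtype.val_inj]
      have h3 : ∑ k, c k • ρ k v ∈ U := U.sum_mem fun k _ => U.smul_mem _ (hU k v hv)
      simp only [hρ, ← Matrix.smul_mulVec, ← Matrix.sum_mulVec, h2] at h3
      rwa [Matrix.single_mulVec, one_mul] at h3
    rw [eq_top_iff]
    intro w _
    rw [← univ_sum_single w]
    refine U.sum_mem fun x _ => ?_
    have h2 := U.smul_mem (w x / v y) (h1 x)
    rwa [← Pi.single_smul, smul_eq_mul, div_mul_cancel₀ _ hy] at h2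
  · funext g
    exact (Matrix.trace_toLin'_eq (M g)).symm

theorem IsIr.gle_fe (h : IsIr χ) {f : G → ℂ} (hf : ∀ g x, f (x * g * x⁻¹) = f g) (g : G) :
    χ 1 * ∑ x, f x * χ (g * x⁻¹) = (∑ x, f x * (starRingEnd ℂ) (χ x)) * χ g := by
  obtain ⟨V, i1, i2, i3, ρ, hρ, rfl⟩ := h
  refine mul_left_cancel₀ (gle_card G) ?_
  have h1 : ∀ y : G, ∑ x, f x * ρ.character (g * x⁻¹) =
      ∑ x, f x * ρ.character (g * y * x⁻¹ * y⁻¹) := fun y => by
    rw [← Equiv.sum_comp (MulAut.conj y).toEquiv]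
    refine sum_congr rfl fun x _ => ?_
    change f (y * x * y⁻¹) * ρ.character (g * (y * x * y⁻¹)⁻¹) = _
    rw [hf]
    simp only [mul_inv_rev, inv_inv, mul_assoc]
  have h2 : (Fintype.card G : ℂ) * ∑ x, f x * ρ.character (g * x⁻¹) =
      ∑ x, f x * ∑ y, ρ.character (g * y * x⁻¹ * y⁻¹) := by
    rw [← nsmul_eq_mul, ← card_univ, ← sum_const, sum_congr rfl fun y _ => h1 y, sum_comm]
    simp only [mul_sum]
  rw [mul_left_comm, h2, Representation.char_one, mul_sum, sum_mul, mul_sum]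
  refine sum_congr rfl fun x _ => ?_
  rw [mul_left_comm, hρ.fe, char_inv, Nat.card_eq_fintype_card]
  ring

theorem gle_all (G : Type) [Group G] [Fintype G] : ∃ (n : ℕ) (c : Fin n → G → ℂ),
    (∀ i, IsIr (c i)) ∧ ∀ f : G → ℂ, (∀ g x, f (x * g * x⁻¹) = f g) → ∀ g,
      Fintype.card G * f g = ∑ i, (∑ x, f x * (starRingEnd ℂ) (c i x)) * c i g := by
  classical
  obtain ⟨n, d, B, h⟩ := Alt.exists_fou G
  obtain ⟨c, hc⟩ : ∃ c : Fin n → G → ℂ, ∀ i, c i =
    fun g => ∑ x : {x : Σ i, Fin (d i) // x.1 = i}, B g x.1 x.1 := ⟨_, fun _ => rfl⟩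
  have h0 : ∀ i, IsIr (c i) := fun i => by
    rw [hc]
    exact gle_block h i
  refine ⟨n, c, h0, fun f hf g => ?_⟩
  have h1 : ∀ k, ∑ i, c i 1 * c i k = if k = 1 then (Fintype.card G : ℂ) else 0 := fun k => by
    rw [← h.complete k, ← Fintype.sum_fiberwise Sigma.fst]
    refine sum_congr rfl fun i _ => ?_
    simp only [hc]
    rw [mul_sum]
    refine sum_congr rfl fun x _ => ?_
    rw [x.2, map_one, Alt.bs, ← Fintype.card_subtype]
    simp only [Matrix.one_apply_eq, sum_const, card_univ, nsmul_eq_mul, mul_one]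
  rw [sum_congr rfl fun i _ => ((h0 i).gle_fe hf g).symm]
  simp only [mul_sum, mul_left_comm _ (f _)]
  rw [sum_comm]
  simp only [← mul_sum, h1, mul_inv_eq_one, mul_ite, mul_zero, sum_ite_eq, mem_univ, if_true]
  exact mul_comm _ _

theorem finite_isIr (G : Type) [Group G] [Fintype G] : {χ : G → ℂ | IsIr χ}.Finite := by
  obtain ⟨n, c, hc, h⟩ := gle_all G
  refine (Set.finite_range c).subset fun χ hχ => ?_
  by_contra h0
  have h1 := h χ hχ.isCh.cls 1
  rw [sum_eq_zero fun i _ => by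
    rw [IsIr.orth hχ (hc i), if_neg fun h2 => h0 ⟨i, h2.symm⟩, zero_mul]] at h1
  exact mul_ne_zero (gle_card G) hχ.one_ne h1

theorem expand {f : G → ℂ} (hf : ∀ g x, f (x * g * x⁻¹) = f g) (g : G) :
    Fintype.card G * f g =
      ∑ χ ∈ (finite_isIr G).toFinset, (∑ x, f x * (starRingEnd ℂ) (χ x)) * χ g := by
  classical
  obtain ⟨n, c, hc, h⟩ := gle_all G
  obtain ⟨a, ha⟩ : ∃ a : Fin n → ℂ, ∀ g, Fintype.card G * f g = ∑ i, a i * c i g := ⟨_, h f hf⟩
  have h1 : ∀ χ ∈ (finite_isIr G).toFinset, (∑ x, f x * (starRingEnd ℂ) (χ x)) * χ g =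
      ∑ i, if c i = χ then a i * χ g else 0 := fun χ hχ => by
    refine mul_left_cancel₀ (gle_card G) ?_
    rw [← mul_assoc, mul_sum]
    simp only [← mul_assoc, ha, sum_mul]
    rw [sum_comm, mul_sum]
    refine sum_congr rfl fun i _ => ?_
    have h2 := (hc i).orth (((finite_isIr G).mem_toFinset).1 hχ)
    rw [← sum_mul]
    simp only [mul_assoc (a i), ← mul_sum]
    rw [h2]
    split_ifs <;> ring
  rw [sum_congr rfl h1, sum_comm, ha]
  refine sum_congr rfl fun i _ => ?_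
  rw [sum_ite_eq, if_pos (((finite_isIr G).mem_toFinset).2 (hc i))]

end Pool.Agent.SemiProp.GLn
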