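import Pool.Agent.Lib.MP_c1c6b6_al.GL0

set_option autoImplicit false

open Finset Module

namespace Pool.Agent.SemiProp.GLn

variable {V : Type} [AddCommGroup V] [Module ℂ V] [FiniteDimensional ℂ V]
variable {G : Type} [Group G]

omit [FiniteDimensional ℂ V] in
theorem glg_span {ρ : Representation ℂ G V} (h : Irr ρ) (E : End ℂ V) {w : V} (hw : w ≠ 0)
    (P : Submodule ℂ V) (hP : ∀ g, E (ρ g w) ∈ P) : LinearMap.range E ≤ P := by
  have hs : Submodule.span ℂ (Set.range fun g => ρ g w) = ⊤ := by
    refine (h.inv _ fun g v hv => ?_).resolve_left fun hb => hw ?_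
    · have : Submodule.span ℂ (Set.range fun g => ρ g w) ≤
          (Submodule.span ℂ (Set.range fun g => ρ g w)).comap (ρ g) := by
        refine Submodule.span_le.2 ?_
        rintro _ ⟨k, rfl⟩
        refine Submodule.subset_span ⟨g * k, ?_⟩
        simp
      exact this hv
    · have : w ∈ Submodule.span ℂ (Set.range fun g => ρ g w) :=
        Submodule.subset_span ⟨1, by simp⟩
      rw [hb] at this
      simpa using this
  have h2 : Submodule.span ℂ (Set.range fun g => ρ g w) ≤ P.comap E := by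
    refine Submodule.span_le.2 ?_
    rintro _ ⟨k, rfl⟩
    exact hP k
  rintro _ ⟨v, rfl⟩
  exact h2 (hs ▸ Submodule.mem_top)

/-- An idempotent with a commutative corner has trace zero or one. -/
theorem glg_rank {ρ : Representation ℂ G V} (h : Irr ρ) (E : End ℂ V) (hE : E * E = E)
    (hc : ∀ g k, E * ρ g * E * ρ k * E = E * ρ k * E * ρ g * E) :
    LinearMap.trace ℂ V E = 0 ∨ LinearMap.trace ℂ V E = 1 := by
  have hfix : ∀ x ∈ LinearMap.range E, E x = x := by
    rintro _ ⟨v, rfl⟩
    rw [← Module.End.mul_apply, hE]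
  have hp : LinearMap.IsProj (LinearMap.range E) E :=
    ⟨fun x => LinearMap.mem_range_self E x, hfix⟩
  rw [hp.trace]
  by_cases hW : LinearMap.range E = ⊥
  · left
    rw [hW]
    simp
  right
  have hnt : Nontrivial (LinearMap.range E) := Submodule.nontrivial_iff_ne_bot.2 hW
  have hsc : ∀ k, ∃ c : ℂ, ∀ x ∈ LinearMap.range E, E (ρ k x) = c • x := by
    intro k
    let T : End ℂ (LinearMap.range E) := (E * ρ k).restrict fun x _ =>
      LinearMap.mem_range_self E (ρ k x)
    obtain ⟨c, hc'⟩ := Module.End.exists_eigenvalue T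
    obtain ⟨w, hw⟩ := hc'.exists_hasEigenvector
    have hw0 : (w : V) ≠ 0 := fun h0 => hw.2 (Subtype.ext h0)
    have hw1 : E (ρ k w) = c • (w : V) := congrArg Subtype.val hw.apply_eq_smul
    have hle := glg_span h E hw0 ((E * ρ k).eigenspace c) fun g => by
      rw [Module.End.mem_eigenspace_iff]
      have := congrArg (fun S : End ℂ V => S w) (hc k g)
      simp only [Module.End.mul_apply, hfix w w.2, hw1, map_smul] at this
      simpa only [Module.End.mul_apply] using this
    exact ⟨c, fun x hx => Module.End.mem_eigenspace_iff.1 (hle hx)⟩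
  obtain ⟨w, hw, hw0⟩ := Submodule.exists_mem_ne_zero_of_ne_bot hW
  have hle := glg_span h E hw0 (Submodule.span ℂ {w}) fun g => by
    obtain ⟨c, hc'⟩ := hsc g
    rw [hc' w hw]
    exact Submodule.smul_mem _ _ (Submodule.mem_span_singleton_self w)
  have heq : LinearMap.range E = Submodule.span ℂ {w} :=
    le_antisymm hle (Submodule.span_le.2 (by simpa using hw))
  rw [heq, finrank_span_singleton hw0, Nat.cast_one]

/-- The multiplicity one criterion through an anti-automorphism. -/
theorem glg_abs (U : Subgroup G) [Fintype U] (lam : U →* ℂ) (σ : G → G)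
    (hσ : ∀ g k, σ (g * k) = σ k * σ g) (τ : U ≃ U) (hτ : ∀ u : U, σ u = τ u)
    (hl : ∀ u, lam (τ u) = lam u)
    (hB : ∀ g, ∃ (u₁ u₂ : U) (m : G), g = u₁ * m * u₂ ∧
      (σ m = m ∨ ∃ x y : U, m * x = y * m ∧ lam x ≠ lam y))
    {ρ : Representation ℂ G V} (h : Irr ρ) :
    ∑ u : U, ρ.character u * lam u = 0 ∨ ∑ u : U, ρ.character u * lam u = Fintype.card U := by
  obtain ⟨E, hEdef⟩ : ∃ E : End ℂ V, E = ∑ u : U, lam u • ρ u := ⟨_, rfl⟩
  have hinv : ∀ x : U, lam x * lam x⁻¹ = 1 := fun x => by rw [← map_mul, mul_inv_cancel, map_one]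
  have hL : ∀ x : U, ρ x * E = lam x⁻¹ • E := by
    intro x
    rw [hEdef, Finset.mul_sum, Finset.smul_sum]
    refine Fintype.sum_equiv (Equiv.mulLeft x) _ _ fun u => ?_
    simp only [Equiv.coe_mulLeft, mul_smul_comm, smul_smul, ← map_mul, inv_mul_cancel_left,
      Subgroup.coe_mul]
  have hR : ∀ x : U, E * ρ x = lam x⁻¹ • E := by
    intro x
    rw [hEdef, Finset.sum_mul, Finset.smul_sum]
    refine Fintype.sum_equiv (Equiv.mulRight x) _ _ fun u => ?_
    simp only [Equiv.coe_mulRight, smul_mul_assoc, smul_smul, ← map_mul, Subgroup.coe_mul]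
    congr 1
    rw [map_mul, map_mul, mul_comm (lam u), ← mul_assoc, mul_comm (lam x⁻¹), hinv, one_mul]
  have hEE : E * E = (Fintype.card U : ℂ) • E := by
    conv_lhs => rw [hEdef, Finset.sum_mul]
    rw [← hEdef]
    simp only [smul_mul_assoc, hL, smul_smul, hinv, one_smul, Finset.sum_const, card_univ]
    rw [Nat.cast_smul_eq_nsmul]
  have hbad : ∀ (m : G) (x y : U), m * x = y * m → lam x ≠ lam y → E * ρ m * E = 0 := by
    intro m x y hxy hne
    have h1 : E * ρ (m * x) * E = lam x⁻¹ • (E * ρ m * E) := by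
      rw [map_mul, ← mul_assoc, mul_assoc _ (ρ x), hL, mul_smul_comm]
    have h2 : E * ρ (y * m) * E = lam y⁻¹ • (E * ρ m * E) := by
      rw [map_mul, ← mul_assoc, hR, smul_mul_assoc, smul_mul_assoc]
    rw [hxy, h2, ← sub_eq_zero, ← sub_smul] at h1
    refine (smul_eq_zero.1 h1).resolve_left fun h3 => hne ?_
    have h4 := hinv x
    have h5 := hinv y
    linear_combination (lam x * lam y) * h3 + lam y * h4 - lam x * h5
  have hmid : ∀ (u₁ u₂ : U) (m : G),
      E * ρ (u₁ * m * u₂) * E = (lam u₁⁻¹ * lam u₂⁻¹) • (E * ρ m * E) := by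
    intro u₁ u₂ m
    rw [map_mul, map_mul, ← mul_assoc, ← mul_assoc, hR, mul_assoc _ (ρ u₂), hL]
    simp only [smul_mul_assoc, mul_smul_comm, smul_smul]
    rw [mul_comm (lam u₂⁻¹)]
  have hli : ∀ u : U, lam (τ u)⁻¹ = lam u⁻¹ := by
    intro u
    have h4 := hinv u
    have h5 := hinv (τ u)
    rw [hl] at h5
    linear_combination lam u⁻¹ * h5 - lam (τ u)⁻¹ * h4
  have hsym : ∀ g, E * ρ (σ g) * E = E * ρ g * E := by
    intro g
    obtain ⟨u₁, u₂, m, rfl, hm⟩ := hB g
    rw [hσ, hσ, hτ, hτ, ← mul_assoc, hmid, hmid, hli, hli, mul_comm (lam u₂⁻¹)]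
    congr 1
    rcases hm with hm | ⟨x, y, hxy, hne⟩
    · rw [hm]
    · rw [hbad m x y hxy hne]
      refine hbad (σ m) (τ y) (τ x) ?_ ?_
      · rw [← hτ, ← hτ, ← hσ, ← hσ, hxy]
      · rw [hl, hl]
        exact hne.symm
  have hc0 : (Fintype.card U : ℂ) ≠ 0 := Nat.cast_ne_zero.2 Fintype.card_ne_zero
  have hexp : ∀ g k : G, E * ρ g * E * ρ k * E = ∑ u : U, lam u • (E * ρ (g * u * k) * E) := by
    intro g k
    have : ρ g * E * ρ k = ∑ u : U, lam u • ρ (g * u * k) := by
      rw [hEdef, Finset.mul_sum, Finset.sum_mul]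
      simp only [mul_smul_comm, smul_mul_assoc, map_mul]
    calc E * ρ g * E * ρ k * E = E * (ρ g * E * ρ k) * E := by simp only [mul_assoc]
      _ = _ := by
        rw [this, Finset.mul_sum, Finset.sum_mul]
        simp only [mul_smul_comm, smul_mul_assoc]
  have hsq : ∀ g k : G, (E * ρ g * E) * (E * ρ k * E) =
      (Fintype.card U : ℂ) • (E * ρ g * E * ρ k * E) := by
    intro g k
    calc (E * ρ g * E) * (E * ρ k * E) = E * ρ g * (E * E) * ρ k * E := by simp only [mul_assoc]
      _ = _ := by rw [hEE]; simp only [mul_smul_comm, smul_mul_assoc]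
  have hcomm : ∀ g k : G, E * ρ g * E * ρ k * E = E * ρ k * E * ρ g * E := by
    intro g k
    have h1 : E * ρ g * E * ρ k * E = E * ρ (σ k) * E * ρ (σ g) * E := by
      rw [hexp, hexp]
      refine Fintype.sum_equiv τ _ _ fun u => ?_
      rw [← hsym, hσ, hσ, hτ, hl, mul_assoc (σ k)]
    have h2 : (Fintype.card U : ℂ) • (E * ρ (σ k) * E * ρ (σ g) * E) =
        (Fintype.card U : ℂ) • (E * ρ k * E * ρ g * E) := by
      rw [← hsq, ← hsq, hsym, hsym]
    rw [h1]
    exact smul_right_injective _ hc0 h2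
  have hr := glg_rank h ((Fintype.card U : ℂ)⁻¹ • E) (by
      rw [smul_mul_assoc, mul_smul_comm, hEE, smul_smul, smul_smul, mul_assoc,
        inv_mul_cancel₀ hc0, mul_one]) (fun g k => by
      simp only [mul_smul_comm, smul_mul_assoc, hcomm g k])
  have ht : LinearMap.trace ℂ V E = ∑ u : U, ρ.character u * lam u := by
    rw [hEdef, map_sum]
    refine Finset.sum_congr rfl fun u _ => ?_
    rw [map_smul, smul_eq_mul, mul_comm]
    rfl
  rw [map_smul, ht, smul_eq_mul] at hr
  rcases hr with hr | hr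
  · left
    exact (mul_eq_zero.1 hr).resolve_left (inv_ne_zero hc0)
  · right
    exact ((inv_mul_eq_one₀ hc0).1 hr).symm

/-- A permutation whose descents all have size one is an involution. -/
theorem glg_block {n : ℕ} {T : Type} (v : Fin n → Fin n) (hv : Function.Injective v)
    (t : Fin n → T)
    (hs : ∀ i j : Fin n, (j : ℕ) = i + 1 → v i < v j ∨ ((v i : ℕ) = v j + 1 ∧ t i = t j))
    (i : Fin n) : ∀ (d : ℕ) (j : Fin n), (j : ℕ) = i + d → v j ≤ v i →
      ∀ l : Fin n, i ≤ l → l ≤ j → (v l : ℕ) + l = v i + i ∧ t l = t i := by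
  intro d
  induction d with
  | zero =>
    intro j hj _ l h1 h2
    have : l = i := by
      apply Fin.ext
      have h1' : (i : ℕ) ≤ l := h1
      have h2' : (l : ℕ) ≤ j := h2
      omega
    rw [this]
    exact ⟨rfl, rfl⟩
  | succ d ih =>
    intro j hj hji l h1 h2
    have hjn := j.2
    let j' : Fin n := ⟨i + d, by omega⟩
    have hj' : (j' : ℕ) = i + d := rfl
    have hji' : (v j : ℕ) ≤ v i := hji
    have hne : (v j : ℕ) ≠ v i := fun h => by
      have := congrArg Fin.val (hv (Fin.ext h))
      omega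
    have hst := hs j' j (by omega)
    have hle : v j' ≤ v i := by
      show (v j' : ℕ) ≤ v i
      rcases hst with h | h
      · have : (v j' : ℕ) < v j := h
        omega
      · omega
    have hall := ih j' hj' hle
    have hii : i ≤ j' := by
      show (i : ℕ) ≤ j'
      omega
    have hlast := hall j' hii le_rfl
    by_cases hl : l ≤ j'
    · exact hall l h1 hl
    have hlj : l = j := by
      apply Fin.ext
      have h2' : (l : ℕ) ≤ j := h2
      have h3 : ¬ (l : ℕ) ≤ j' := hl
      omega
    rw [hlj]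
    rcases hst with h | h
    · exfalso
      have h' : (v j' : ℕ) < v j := h
      let p : Fin n := ⟨i + (v i - v j), by omega⟩
      have hp : (p : ℕ) = i + (v i - v j) := rfl
      have hp1 : i ≤ p := by
        show (i : ℕ) ≤ p
        omega
      have hp2 : p ≤ j' := by
        show (p : ℕ) ≤ j'
        omega
      have h5 := (hall p hp1 hp2).1
      have h6 : v p = v j := Fin.ext (by omega)
      have h7 := congrArg Fin.val (hv h6)
      have h8 : (p : ℕ) ≤ j' := hp2
      omega
    · exact ⟨by omega, h.2.symm.trans hlast.2⟩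

theorem glg_invol {n : ℕ} {T : Type} (v : Fin n → Fin n) (hv : Function.Injective v)
    (t : Fin n → T)
    (hs : ∀ i j : Fin n, (j : ℕ) = i + 1 → v i < v j ∨ ((v i : ℕ) = v j + 1 ∧ t i = t j))
    (j : Fin n) : v (v j) = j ∧ t (v j) = t j := by
  have hC : ∀ i k : Fin n, i ≤ k → v k ≤ v i → (v k : ℕ) + k = v i + i ∧ t k = t i := by
    intro i k hik h
    have hik' : (i : ℕ) ≤ k := hik
    exact glg_block v hv t hs i (k - i) k (by omega) h k hik le_rfl
  have hD : ∀ (m : ℕ) (k : Fin n), (k : ℕ) = m → v (v k) = k := by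
    intro m
    induction m using Nat.strong_induction_on with
    | _ m ih =>
      intro k hk
      rcases lt_or_ge (v k) k with h | h
      · have h' : (v k : ℕ) < k := h
        exact hv (ih (v k) (by omega) (v k) rfl)
      obtain ⟨q, hq⟩ := Finite.surjective_of_injective hv k
      rcases lt_or_ge q k with h1 | h1
      · have h1' : (q : ℕ) < k := h1
        have h2 := ih q (by omega) q rfl
        rw [hq] at h2
        rw [h2, hq]
      · have h2 := (hC k q h1 (by rw [hq]; exact h)).1
        rw [hq] at h2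
        have h3 : v k = q := Fin.ext (by omega)
        rw [h3, hq]
  have h1 := hD j j rfl
  refine ⟨h1, ?_⟩
  rcases le_total j (v j) with h | h
  · exact (hC j (v j) h (by rw [h1]; exact h)).2
  · exact (hC (v j) j h (by rw [h1]; exact h)).2.symm

end Pool.Agent.SemiProp.GLn
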