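import Pool.Agent.Lib.MP_c1c6b6_al.GLG1

set_option autoImplicit false

open Finset Matrix

namespace Pool.Agent.SemiProp.GLn

variable {F : Type} [Field F] {n : ℕ}

theorem Uni.gLt {M : Matrix (Fin n) (Fin n) F} (h : Uni M) {i j : Fin n} (hij : j < i) :
    M i j = 0 := by
  rw [h i j hij.le, Matrix.one_apply_ne hij.ne']

theorem Uni.gDiag {M : Matrix (Fin n) (Fin n) F} (h : Uni M) (i : Fin n) : M i i = 1 := by
  rw [h i i le_rfl, Matrix.one_apply_eq]

theorem Uni.gOf {M : Matrix (Fin n) (Fin n) F} (h1 : ∀ i j, j < i → M i j = 0)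
    (h2 : ∀ i, M i i = 1) : Uni M := by
  intro i j hij
  rcases hij.lt_or_eq with h | h
  · rw [h1 i j h, Matrix.one_apply_ne h.ne']
  · rw [h, h2, Matrix.one_apply_eq]

theorem Uni.gTri {M : Matrix (Fin n) (Fin n) F} (h : Uni M) : M.BlockTriangular id :=
  fun _ _ hij => h.gLt hij

theorem glg_uni_one : Uni (1 : Matrix (Fin n) (Fin n) F) := fun _ _ _ => rfl

theorem glg_diag_mul {M N : Matrix (Fin n) (Fin n) F} (hM : M.BlockTriangular id)
    (hN : N.BlockTriangular id) (i : Fin n) : (M * N) i i = M i i * N i i := by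
  rw [Matrix.mul_apply]
  refine Finset.sum_eq_single i (fun l _ hl => ?_) (fun h => absurd (mem_univ i) h)
  rcases lt_or_gt_of_ne hl with h | h
  · rw [hM (show id l < id i from h), zero_mul]
  · rw [hN (show id i < id l from h), mul_zero]

theorem Uni.gMul {M N : Matrix (Fin n) (Fin n) F} (hM : Uni M) (hN : Uni N) : Uni (M * N) :=
  Uni.gOf (fun _ _ hij => (hM.gTri.mul hN.gTri) hij) fun i => by
    rw [glg_diag_mul hM.gTri hN.gTri, hM.gDiag, hN.gDiag, mul_one]

theorem glg_uni_det {M : Matrix (Fin n) (Fin n) F} (h : Uni M) : M.det = 1 := by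
  rw [Matrix.det_of_isUpperTriangular h.gTri]
  exact Finset.prod_eq_one fun i _ => h.gDiag i

theorem Uni.gInv {M : Matrix (Fin n) (Fin n) F} (h : Uni M) : Uni M⁻¹ := by
  have hu : IsUnit M.det := by rw [glg_uni_det h]; exact isUnit_one
  have := Matrix.invertibleOfIsUnitDet M hu
  have ht : M⁻¹.BlockTriangular id := Matrix.blockTriangular_inv_of_blockTriangular h.gTri
  refine Uni.gOf (fun _ _ hij => ht hij) fun i => ?_
  have h1 := glg_diag_mul ht h.gTri i
  rw [Matrix.nonsing_inv_mul M hu, h.gDiag, mul_one, Matrix.one_apply_eq] at h1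
  exact h1.symm

theorem Uni.gSuper {M N : Matrix (Fin n) (Fin n) F} (hM : Uni M) (hN : Uni N) {i j : Fin n}
    (hij : (j : ℕ) = i + 1) : (M * N) i j = M i j + N i j := by
  have hne : j ≠ i := fun h => by rw [h] at hij; omega
  rw [Matrix.mul_apply, Finset.sum_eq_add_of_mem j i (mem_univ _) (mem_univ _) hne, hM.gDiag,
    hN.gDiag, mul_one, one_mul]
  intro l _ hl
  have h1 : (l : ℕ) ≠ j := fun h => hl.1 (Fin.ext h)
  have h2 : (l : ℕ) ≠ i := fun h => hl.2 (Fin.ext h)
  by_cases h : l < i
  · rw [hM.gLt h, zero_mul]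
  · have h3 : ¬ (l : ℕ) < i := h
    rw [hN.gLt (show j < l from by show (j : ℕ) < l; omega), mul_zero]

/-- The first `k` columns are cleared. -/
def GlgRook (k : ℕ) (N : Matrix (Fin n) (Fin n) F) : Prop :=
  ∀ i j : Fin n, (j : ℕ) < k → N i j ≠ 0 →
    (∀ i', i' ≠ i → N i' j = 0) ∧ ∀ j', j' ≠ j → N i j' = 0

theorem glg_step {k : ℕ} {N : Matrix (Fin n) (Fin n) F} (h : GlgRook k N) :
    ∃ L R : Matrix (Fin n) (Fin n) F, Uni L ∧ Uni R ∧ GlgRook (k + 1) (L * N * R) := by
  classical
  by_cases hz : ∀ i j : Fin n, (j : ℕ) = k → N i j = 0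
  · refine ⟨1, 1, glg_uni_one, glg_uni_one, fun i j hj hN => ?_⟩
    rw [one_mul, mul_one] at hN ⊢
    refine h i j ?_ hN
    have : (j : ℕ) ≠ k := fun e => hN (hz i j e)
    omega
  push Not at hz
  obtain ⟨i₁, c, hc, hi₁⟩ := hz
  obtain ⟨r, hr, hmax⟩ := (univ.filter fun i => N i c ≠ 0).exists_max_image id
    ⟨i₁, mem_filter.2 ⟨mem_univ _, hi₁⟩⟩
  have hp : N r c ≠ 0 := (mem_filter.1 hr).2
  have hlow : ∀ i, r < i → N i c = 0 := fun i hi => by
    by_contra h0
    exact absurd (hmax i (mem_filter.2 ⟨mem_univ _, h0⟩)) (not_le.2 hi)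
  have hleft : ∀ j : Fin n, j < c → N r j = 0 := fun j hj => by
    by_contra h0
    have hj' : (j : ℕ) < c := hj
    exact hp ((h r j (by omega) h0).2 c hj.ne')
  let a : Fin n → F := fun i => if i = r then 0 else N i c / N r c
  let b : Fin n → F := fun j => if j = c then 0 else N r j / N r c
  let L : Matrix (Fin n) (Fin n) F :=
    Matrix.of fun i l => (1 : Matrix (Fin n) (Fin n) F) i l - if l = r then a i else 0
  let R : Matrix (Fin n) (Fin n) F :=
    Matrix.of fun l j => (1 : Matrix (Fin n) (Fin n) F) l j - if l = c then b j else 0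
  have hL : ∀ i j, (L * N) i j = N i j - a i * N r j := by
    intro i j
    simp [L, Matrix.mul_apply, sub_mul, Finset.sum_sub_distrib, Matrix.one_apply]
  have hR : ∀ (X : Matrix (Fin n) (Fin n) F) i j, (X * R) i j = X i j - X i c * b j := by
    intro X i j
    simp [R, Matrix.mul_apply, mul_sub, Finset.sum_sub_distrib, Matrix.one_apply]
  have har : a r = 0 := if_pos rfl
  have hbc : b c = 0 := if_pos rfl
  have ha : ∀ i, i ≠ r → a i * N r c = N i c := fun i hi => by
    simp only [a, if_neg hi]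
    field_simp
  have hb : ∀ j, j ≠ c → N r c * b j = N r j := fun j hj => by
    simp only [b, if_neg hj]
    field_simp
  have e1 : ∀ i, i ≠ r → (L * N * R) i c = 0 := fun i hi => by
    rw [hR, hL, hbc, ha i hi]
    ring
  have e2 : ∀ j, j ≠ c → (L * N * R) r j = 0 := fun j hj => by
    rw [hR, hL, hL, har, ← hb j hj]
    ring
  have e3 : ∀ i j, i ≠ r → (L * N * R) i j = N i j - a i * N r j := fun i j hi => by
    rw [hR, hL, hL, ha i hi]
    ring
  have e4 : ∀ i (j : Fin n), j < c → (L * N * R) i j = N i j := fun i j hj => by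
    by_cases hi : i = r
    · rw [hi, e2 j hj.ne, hleft j hj]
    · rw [e3 i j hi, hleft j hj]
      ring
  refine ⟨L, R, fun i l hl => ?_, fun l j hl => ?_, fun i j hj hN => ?_⟩
  · simp only [L, Matrix.of_apply, sub_eq_self]
    split_ifs with h1
    · rw [h1] at hl
      rcases hl.lt_or_eq with h2 | h2
      · simp only [a, hlow i h2, zero_div, ite_self]
      · rw [← h2, har]
    · rfl
  · simp only [R, Matrix.of_apply, sub_eq_self]
    split_ifs with h1
    · rw [h1] at hl
      rcases hl.lt_or_eq with h2 | h2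
      · simp only [b, hleft j h2, zero_div, ite_self]
      · rw [h2, hbc]
    · rfl
  · by_cases hjc : j = c
    · have hir : i = r := by
        by_contra hi
        exact hN (hjc ▸ e1 i hi)
      rw [hjc, hir]
      exact ⟨e1, e2⟩
    · have hj1 : (j : ℕ) ≠ c := fun e => hjc (Fin.ext e)
      have hlt : j < c := by show (j : ℕ) < c; omega
      rw [e4 i j hlt] at hN
      have h0 := h i j (by omega) hN
      have hir : i ≠ r := fun e => hN (e ▸ hleft j hlt)
      refine ⟨fun i' hi' => ?_, fun j' hj' => ?_⟩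
      · rw [e4 i' j hlt, h0.1 i' hi']
      · have h5 : a i = 0 := by
          simp only [a, h0.2 c hlt.ne', zero_div, ite_self]
        rw [e3 i j' hir, h5, h0.2 j' hj']
        ring

theorem glg_bruhat (M : Matrix (Fin n) (Fin n) F) (k : ℕ) :
    ∃ L R : Matrix (Fin n) (Fin n) F, Uni L ∧ Uni R ∧ GlgRook k (L * M * R) := by
  induction k with
  | zero => exact ⟨1, 1, glg_uni_one, glg_uni_one, fun i j hj => absurd hj (Nat.not_lt_zero _)⟩
  | succ k ih =>
    obtain ⟨L, R, hL, hR, h⟩ := ih
    obtain ⟨L', R', hL', hR', h'⟩ := glg_step h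
    refine ⟨L' * L, R * R', hL'.gMul hL, hR.gMul hR', ?_⟩
    have : L' * L * M * (R * R') = L' * (L * M * R) * R' := by simp only [Matrix.mul_assoc]
    rwa [this]

theorem glg_mono {N : Matrix (Fin n) (Fin n) F} (hN : N.det ≠ 0) (h : GlgRook n N) :
    ∃ (w : Fin n → Fin n) (t : Fin n → F), Function.Injective w ∧ (∀ j, t j ≠ 0) ∧
      ∀ i j, N i j = if i = w j then t j else 0 := by
  have h1 : ∀ j, ∃ i, N i j ≠ 0 := fun j => by
    by_contra h0
    push Not at h0
    exact hN (Matrix.det_eq_zero_of_column_eq_zero j h0)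
  choose w hw using h1
  refine ⟨w, fun j => N (w j) j, fun j j' e => ?_, hw, fun i j => ?_⟩
  · by_contra hne
    exact hw j (e ▸ (h (w j') j' j'.2 (hw j')).2 j hne)
  · split_ifs with hi
    · rw [hi]
    · exact (h (w j) j j.2 (hw j)).1 i hi

/-- Reflection in the second diagonal. -/
def glgS (M : Matrix (Fin n) (Fin n) F) : Matrix (Fin n) (Fin n) F :=
  Mᵀ.submatrix Fin.revPerm Fin.revPerm

omit [Field F] in
theorem glgS_apply (M : Matrix (Fin n) (Fin n) F) (i j : Fin n) : glgS M i j = M j.rev i.rev := rfl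

theorem glgS_mul (M N : Matrix (Fin n) (Fin n) F) : glgS (M * N) = glgS N * glgS M := by
  unfold glgS
  rw [Matrix.transpose_mul, Matrix.submatrix_mul_equiv]

theorem glgS_one : glgS (1 : Matrix (Fin n) (Fin n) F) = 1 := by
  unfold glgS
  rw [Matrix.transpose_one, Matrix.submatrix_one_equiv]

omit [Field F] in
theorem glgS_glgS (M : Matrix (Fin n) (Fin n) F) : glgS (glgS M) = M := by
  ext i j
  simp only [glgS_apply, Fin.rev_rev]

theorem Uni.glgS {M : Matrix (Fin n) (Fin n) F} (h : Uni M) : Uni (glgS M) :=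
  Uni.gOf (fun i j hij => by rw [glgS_apply]; exact h.gLt (Fin.rev_lt_rev.2 hij))
    fun i => by rw [glgS_apply]; exact h.gDiag _

omit [Field F] in
theorem glg_ker_S (ψ : F → ℂ) (M : Matrix (Fin n) (Fin n) F) :
    ker (fun _ => ψ) (glgS M) = ker (fun _ => ψ) M := by
  unfold ker
  rw [Finset.prod_comm]
  refine Fintype.prod_equiv Fin.revPerm _ _ fun j => ?_
  refine Fintype.prod_equiv Fin.revPerm _ _ fun i => ?_
  have hi := i.2
  have hj := j.2
  simp only [Fin.revPerm_apply, glgS_apply, Fin.val_rev]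
  exact if_congr (by omega) rfl rfl

/-- An elementary unitriangular matrix. -/
def glgE (p q : Fin n) (a : F) : Matrix (Fin n) (Fin n) F := 1 + Matrix.single p q a

theorem glgE_apply (p q : Fin n) (a : F) (i j : Fin n) :
    glgE p q a i j = (1 : Matrix (Fin n) (Fin n) F) i j + if p = i ∧ q = j then a else 0 := by
  simp [glgE, Matrix.single_apply]

theorem glgE_uni {p q : Fin n} (h : p < q) (a : F) : Uni (glgE p q a) := by
  intro i j hij
  rw [glgE_apply, if_neg, add_zero]
  rintro ⟨rfl, rfl⟩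
  exact absurd h (not_lt.2 hij)

theorem glg_ker_E (ψ : AddChar F ℂ) (p q : Fin n) (a : F) :
    ker (fun _ => ψ) (glgE p q a) = if (q : ℕ) = p + 1 then ψ a else 1 := by
  have key : ∀ i j : Fin n, ¬ (p = i ∧ q = j) →
      (if (j : ℕ) = i + 1 then ψ (glgE p q a i j) else 1) = 1 := by
    intro i j hij
    split_ifs with h
    · have hne : i ≠ j := fun e => by rw [e] at h; omega
      rw [glgE_apply, if_neg hij, add_zero, Matrix.one_apply_ne hne, AddChar.map_zero_eq_one]
    · rfl
  unfold ker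
  rw [Finset.prod_eq_single p (fun i _ hi => Finset.prod_eq_one fun j _ =>
      key i j fun e => hi e.1.symm) (fun h => absurd (mem_univ p) h),
    Finset.prod_eq_single q (fun j _ hj => key p j fun e => hj e.2.symm)
      (fun h => absurd (mem_univ q) h)]
  split_ifs with h
  · have hne : p ≠ q := fun e => by rw [e] at h; omega
    rw [glgE_apply, if_pos ⟨rfl, rfl⟩, Matrix.one_apply_ne hne, zero_add]
  · rfl

theorem glg_mono_E {N : Matrix (Fin n) (Fin n) F} {w : Fin n → Fin n} {t : Fin n → F}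
    (hw : Function.Injective w) (hN : ∀ i j, N i j = if i = w j then t j else 0) (p q : Fin n)
    {a a' : F} (h : t p * a = a' * t q) : N * glgE p q a = glgE (w p) (w q) a' * N := by
  unfold glgE
  rw [Matrix.mul_add, Matrix.add_mul, Matrix.mul_one, Matrix.one_mul]
  congr 1
  ext i j
  by_cases hj : j = q
  · subst hj
    rw [Matrix.mul_single_apply_same, hN]
    by_cases hi : i = w p
    · subst hi
      rw [Matrix.single_mul_apply_same, hN, if_pos rfl, if_pos rfl, h]
    · rw [Matrix.single_mul_apply_of_ne _ _ _ _ _ hi, if_neg hi, zero_mul]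
  · rw [Matrix.mul_single_apply_of_ne _ _ _ _ _ hj]
    by_cases hi : i = w p
    · subst hi
      rw [Matrix.single_mul_apply_same, hN, if_neg fun e => hj (hw e).symm, mul_zero]
    · rw [Matrix.single_mul_apply_of_ne _ _ _ _ _ hi]

/-- A monomial matrix is fixed by the reflection or carries two different values. -/
theorem glg_dich (ψ : AddChar F ℂ) (hψ : ψ ≠ 1) {N : Matrix (Fin n) (Fin n) F} (hN : N.det ≠ 0)
    (h : GlgRook n N) : glgS N = N ∨ ∃ X Y : Matrix (Fin n) (Fin n) F, Uni X ∧ Uni Y ∧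
      N * X = Y * N ∧ ker (fun _ => ψ) X ≠ ker (fun _ => ψ) Y := by
  obtain ⟨w, t, hw, ht, hm⟩ := glg_mono hN h
  obtain ⟨z, hz⟩ : ∃ z, ψ z ≠ 1 := by
    by_contra h0
    push Not at h0
    exact hψ (AddChar.ext _ _ h0)
  by_cases hg : ∀ i j : Fin n, (j : ℕ) = i + 1 →
      (w i).rev < (w j).rev ∨ (((w i).rev : ℕ) = (w j).rev + 1 ∧ t i = t j)
  · left
    have hv := glg_invol (fun j => (w j).rev) (Fin.rev_injective.comp hw) t hg
    ext i j
    rw [glgS_apply, hm, hm]
    by_cases hi : i = w j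
    · have h1 : j.rev = w (w j).rev := by
        have := congrArg Fin.rev (hv j).1
        simpa using this.symm
      rw [if_pos hi, hi, if_pos h1]
      exact (hv j).2
    · rw [if_neg hi, if_neg]
      intro e
      apply hi
      have h1 := (hv i.rev).1
      simp only [← e, Fin.rev_rev] at h1
      exact (Fin.rev_injective h1).symm
  · right
    push Not at hg
    obtain ⟨i, j, hij, h1, h2⟩ := hg
    have hlt : i < j := by show (i : ℕ) < j; omega
    have hwl : w i < w j := by
      refine lt_of_le_of_ne (Fin.rev_le_rev.1 h1) fun e => hlt.ne (hw e)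
    have hi := (w i).2
    have hj := (w j).2
    by_cases h3 : (w j : ℕ) = w i + 1
    · have h4 : t i ≠ t j := h2 (by simp only [Fin.val_rev]; omega)
      have h5 : t j - t i ≠ 0 := sub_ne_zero.2 h4.symm
      refine ⟨glgE i j (z * t j / (t j - t i)), glgE (w i) (w j) (z * t i / (t j - t i)),
        glgE_uni hlt _, glgE_uni hwl _, glg_mono_E hw hm i j (by ring), ?_⟩
      rw [glg_ker_E, glg_ker_E, if_pos hij, if_pos h3]
      have h6 : z * t j / (t j - t i) = z + z * t i / (t j - t i) := by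
        field_simp
        ring
      rw [h6, AddChar.map_add_eq_mul]
      intro e
      have h7 : ψ (z * t i / (t j - t i)) ≠ 0 := (ψ.val_isUnit _).ne_zero
      exact hz (mul_right_cancel₀ h7 (e.trans (one_mul _).symm))
    · refine ⟨glgE i j z, glgE (w i) (w j) (t i * z / t j), glgE_uni hlt _, glgE_uni hwl _,
        glg_mono_E hw hm i j (by have := ht j; field_simp), ?_⟩
      rw [glg_ker_E, glg_ker_E, if_pos hij, if_neg h3]
      exact hz

end Pool.Agent.SemiProp.GLn
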