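import Mathlib

/-! Valuation rings of the complex numbers: congruent matrices, idempotent polynomials. -/

set_option autoImplicit false

open Polynomial Finset

namespace Pool.Agent.SemiProp.HZ

variable {B : ValuationSubring ℂ}

theorem eq_of_cong {k : ℕ} (hk : B.valuation (k : ℂ) = 1) {x y : ℂ} (hx : x ^ (k + 1) = x)
    (hy : y ^ (k + 1) = y) (h : B.valuation (x - y) < 1) : x = y := by
  have hk0 : k ≠ 0 := by
    rintro rfl
    simp at hk
  have unit : ∀ z : ℂ, z ≠ 0 → z ^ (k + 1) = z → z ^ k = 1 ∧ B.valuation z = 1 := fun z h0 hz => by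
    have h1 : z ^ k = 1 := mul_right_cancel₀ h0 (by rw [← pow_succ, hz, one_mul])
    refine ⟨h1, (pow_eq_one_iff_left hk0).1 ?_⟩
    rw [← map_pow, h1, map_one]
  by_contra hne
  rcases eq_or_ne x 0 with rfl | hx0
  · rw [zero_sub, Valuation.map_neg, (unit y (Ne.symm hne) hy).2] at h
    exact lt_irrefl _ h
  rcases eq_or_ne y 0 with rfl | hy0
  · rw [sub_zero, (unit x hx0 hx).2] at h
    exact lt_irrefl _ h
  obtain ⟨x1, x2⟩ := unit x hx0 hx
  obtain ⟨y1, y2⟩ := unit y hy0 hy
  set u := x / y with hu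
  have u1 : u ^ k = 1 := by rw [hu, div_pow, x1, y1, div_one]
  have u2 : u ≠ 1 := fun e => hne (div_eq_one_iff_eq hy0 |>.1 e)
  have u3 : B.valuation (u - 1) < 1 := by
    rw [hu, div_sub_one hy0, map_div₀, y2, div_one]
    exact h
  have u4 : B.valuation u = 1 := by rw [hu, map_div₀, x2, y2, div_one]
  have u5 : ∀ i : ℕ, B.valuation (1 - u ^ i) < 1 := fun i => by
    induction i with
    | zero => simp
    | succ i ih =>
      rw [show 1 - u ^ (i + 1) = (1 - u ^ i) - u ^ i * (u - 1) by ring]
      refine Valuation.map_sub_lt _ ih ?_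
      rwa [map_mul, map_pow, u4, one_pow, one_mul]
  have u6 : ∑ i ∈ range k, u ^ i = 0 := by
    have := geom_sum_mul u k
    rw [u1, sub_self] at this
    exact (mul_eq_zero.1 this).resolve_right (sub_ne_zero.2 u2)
  have u7 : (k : ℂ) = ∑ i ∈ range k, (1 - u ^ i) := by
    rw [sum_sub_distrib, u6]
    simp
  have := Valuation.map_sum_lt B.valuation (s := range k) (f := fun i => 1 - u ^ i) one_ne_zero
    fun i _ => u5 i
  rw [← u7, hk] at this
  exact lt_irrefl _ this

theorem residue_eq_iff (a b : B) : IsLocalRing.residue B a = IsLocalRing.residue B b ↔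
    B.valuation ((a : ℂ) - b) < 1 := by
  rw [← sub_eq_zero, ← map_sub, IsLocalRing.residue_eq_zero_iff, B.valuation_lt_one_iff]
  rfl

theorem exists_roots {n : Type*} [Fintype n] [DecidableEq n] {k : ℕ} (hk : k ≠ 0) (Y : Matrix n n B)
    (hY : (Y.map B.subtype) ^ (k + 1) = Y.map B.subtype) :
    ∃ R : Multiset B, (∀ x ∈ R, (x : ℂ) ^ (k + 1) = x) ∧
      Y.charpoly = (R.map fun x => X - C x).prod ∧
      (Y.map B.subtype).trace = (R.map B.subtype).sum := by
  set Z := Y.map B.subtype with hZ
  have h1 : ∀ x ∈ Z.charpoly.roots, x ^ (k + 1) = x := fun x hx => by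
    have h2 := Matrix.mem_spectrum_of_isRoot_charpoly (isRoot_of_mem_roots hx)
    have h3 := spectrum.subset_polynomial_aeval Z (X ^ (k + 1) - X : ℂ[X]) ⟨x, h2, rfl⟩
    rw [map_sub, map_pow, aeval_X, hY, sub_self] at h3
    have : Nonempty n := by
      by_contra hn
      rw [not_nonempty_iff] at hn
      simp [Matrix.charpoly] at hx
    rw [spectrum.zero_eq] at h3
    simpa [sub_eq_zero] using h3
  have h2 : ∀ x ∈ Z.charpoly.roots, x ∈ B := fun x hx => by
    rw [← B.valuation_le_one_iff]
    by_contra hlt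
    have h3 := congrArg B.valuation (h1 x hx)
    rw [map_pow, pow_succ] at h3
    have h0 : B.valuation x ≠ 0 := (lt_trans zero_lt_one (not_le.1 hlt)).ne'
    exact (one_lt_pow₀ (not_le.1 hlt) hk).ne' (mul_right_cancel₀ h0 (h3.trans (one_mul _).symm))
  obtain ⟨R, hR⟩ : ∃ R : Multiset B, R.map B.subtype = Z.charpoly.roots :=
    ⟨Z.charpoly.roots.pmap (fun x hx => ⟨x, hx⟩) h2, by
      rw [Multiset.map_pmap]
      exact (Multiset.pmap_eq_map _ id _ _).trans (Multiset.map_id _)⟩
  refine ⟨R, fun x hx => h1 _ (hR ▸ Multiset.mem_map_of_mem _ hx), ?_, ?_⟩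
  · apply Polynomial.map_injective B.subtype B.subtype_injective
    rw [← Matrix.charpoly_map, ← hZ, Polynomial.map_multiset_prod, Multiset.map_map,
      (IsAlgClosed.splits Z.charpoly).eq_prod_roots_of_monic Z.charpoly_monic, ← hR,
      Multiset.map_map]
    congr 1
    refine Multiset.map_congr rfl fun x _ => ?_
    simp
  · rw [hR, Matrix.trace_eq_sum_roots_charpoly]

/-- congruent matrices that satisfy a separable equation have the same trace -/
theorem trace_eq_of_cong {n : Type*} [Fintype n] [DecidableEq n] {k : ℕ}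
    (hk : B.valuation (k : ℂ) = 1) {Y Y' : Matrix n n ℂ} (h1 : ∀ i j, Y i j ∈ B)
    (h2 : ∀ i j, Y' i j ∈ B) (h : ∀ i j, B.valuation (Y i j - Y' i j) < 1)
    (hY : Y ^ (k + 1) = Y) (hY' : Y' ^ (k + 1) = Y') : Y.trace = Y'.trace := by
  have hk0 : k ≠ 0 := by
    rintro rfl
    simp at hk
  obtain ⟨R, a1, a2, a3⟩ := exists_roots hk0 (Matrix.of fun i j => (⟨Y i j, h1 i j⟩ : B)) hY
  obtain ⟨R', b1, b2, b3⟩ := exists_roots hk0 (Matrix.of fun i j => (⟨Y' i j, h2 i j⟩ : B)) hY'
  have e : (Matrix.of fun i j => (⟨Y i j, h1 i j⟩ : B)).map (IsLocalRing.residue B) =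
      (Matrix.of fun i j => (⟨Y' i j, h2 i j⟩ : B)).map (IsLocalRing.residue B) := by
    ext i j
    exact (residue_eq_iff _ _).2 (h i j)
  have key : ∀ R : Multiset B, ((R.map fun x => X - C x).prod.map (IsLocalRing.residue B)).roots =
      R.map (IsLocalRing.residue B) := fun R => by
    rw [← roots_multiset_prod_X_sub_C (R.map (IsLocalRing.residue B)),
      Polynomial.map_multiset_prod, Multiset.map_map, Multiset.map_map]
    congr 2
    refine Multiset.map_congr rfl fun x _ => ?_
    simp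
  have e2 : R.map (IsLocalRing.residue B) = R'.map (IsLocalRing.residue B) := by
    rw [← key, ← key, ← a2, ← b2, ← Matrix.charpoly_map, ← Matrix.charpoly_map, e]
  have e3 : R = R' := by
    rw [← Multiset.rel_eq, Multiset.rel_map] at e2
    rw [← Multiset.rel_eq]
    exact e2.mono fun x hx y hy hxy =>
      Subtype.ext (eq_of_cong hk (a1 x hx) (b1 y hy) ((residue_eq_iff _ _).1 hxy))
  exact a3.trans (e3 ▸ b3.symm)

/-- a polynomial that is idempotent modulo `p` and separates two incongruent roots -/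
theorem exists_idem {p : ℂ[X]} (hp : p.Monic) (hB : ∀ x ∈ p.roots, x ∈ B) {w w' : ℂ}
    (hw : p.IsRoot w) (hw' : p.IsRoot w') (h : ¬ B.valuation (w - w') < 1) :
    ∃ q : B[X], p ∣ q.map B.subtype * q.map B.subtype - q.map B.subtype ∧
      (q.map B.subtype).eval w = 1 ∧ (q.map B.subtype).eval w' = 0 := by
  classical
  obtain ⟨R, hR⟩ : ∃ R : Multiset B, R.map B.subtype = p.roots :=
    ⟨p.roots.pmap (fun x hx => ⟨x, hx⟩) hB, by
      rw [Multiset.map_pmap]
      exact (Multiset.pmap_eq_map _ id _ _).trans (Multiset.map_id _)⟩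
  have hwB : w ∈ B := hB w ((mem_roots hp.ne_zero).2 hw)
  let P : B → Prop := fun x => B.valuation (w - x) < 1
  set f : B[X] := ((R.filter P).map fun x => X - C x).prod with hf
  set g : B[X] := ((R.filter fun x => ¬ P x).map fun x => X - C x).prod with hg
  have hfg : f.map B.subtype * g.map B.subtype = p := by
    rw [← Polynomial.map_mul, hf, hg, ← Multiset.prod_add, ← Multiset.map_add,
      Multiset.filter_add_not, Polynomial.map_multiset_prod, Multiset.map_map,
      (IsAlgClosed.splits p).eq_prod_roots_of_monic hp, ← hR, Multiset.map_map]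
    congr 1
    refine Multiset.map_congr rfl fun x _ => ?_
    simp
  have hco : IsCoprime f g := by
    refine Multiset.prod_induction (fun a => IsCoprime a g) _ (fun a b => IsCoprime.mul_left)
      isCoprime_one_left fun a ha => ?_
    refine Multiset.prod_induction (fun b => IsCoprime a b) _ (fun a b => IsCoprime.mul_right)
      isCoprime_one_right fun b hb => ?_
    obtain ⟨x, hx, rfl⟩ := Multiset.mem_map.1 ha
    obtain ⟨y, hy, rfl⟩ := Multiset.mem_map.1 hb
    refine isCoprime_X_sub_C_of_isUnit_sub ?_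
    by_contra hu
    have h1 : B.valuation ((x - y : B) : ℂ) < 1 := (B.valuation_lt_one_iff _).1 hu
    refine (Multiset.mem_filter.1 hy).2 ?_
    show B.valuation (w - y) < 1
    rw [show w - y = (w - x) + ((x - y : B) : ℂ) by push_cast; ring]
    exact Valuation.map_add_lt _ (Multiset.mem_filter.1 hx).2 h1
  have root : ∀ (S : Multiset B) (z : ℂ), z ∈ S.map B.subtype →
      ((S.map fun x => X - C x).prod.map B.subtype).eval z = 0 := fun S z hz => by
    obtain ⟨x, hx, rfl⟩ := Multiset.mem_map.1 hz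
    rw [eval_map, eval₂_at_apply, eval_multiset_prod, Multiset.map_map,
      Multiset.prod_eq_zero (Multiset.mem_map.2 ⟨x, hx, by simp⟩), map_zero]
  have f0 : (f.map B.subtype).eval w = 0 := by
    obtain ⟨x, hx, e⟩ := Multiset.mem_map.1 (hR ▸ (mem_roots hp.ne_zero).2 hw)
    refine root _ _ (Multiset.mem_map.2 ⟨x, Multiset.mem_filter.2 ⟨hx, ?_⟩, e⟩)
    show B.valuation (w - B.subtype x) < 1
    rw [e, sub_self, map_zero]
    exact zero_lt_one
  have g0 : (g.map B.subtype).eval w' = 0 := by
    obtain ⟨x, hx, e⟩ := Multiset.mem_map.1 (hR ▸ (mem_roots hp.ne_zero).2 hw')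
    refine root _ _ (Multiset.mem_map.2 ⟨x, Multiset.mem_filter.2 ⟨hx, ?_⟩, e⟩)
    show ¬ B.valuation (w - B.subtype x) < 1
    rwa [e]
  obtain ⟨u, v, huv⟩ := hco
  have e := congrArg (Polynomial.map B.subtype) huv
  rw [Polynomial.map_add, Polynomial.map_mul, Polynomial.map_mul, Polynomial.map_one] at e
  refine ⟨v * g, ⟨-(u.map B.subtype * v.map B.subtype), ?_⟩, ?_, ?_⟩
  · rw [← hfg, Polynomial.map_mul]
    linear_combination (v.map B.subtype * g.map B.subtype) * e
  · have := congrArg (eval w) e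
    rwa [eval_add, eval_mul, f0, mul_zero, zero_add, eval_one, ← Polynomial.map_mul] at this
  · rw [Polynomial.map_mul, eval_mul, g0, mul_zero]

end Pool.Agent.SemiProp.HZ
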