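import Pool.Agent.Lib.MP_c1c6b6_al.PN1

set_option autoImplicit false
set_option linter.unusedSectionVars false

open Module Finset

namespace Pool.Agent.SemiProp

variable {G : Type*} [Group G] [Fintype G]

/-- `χ` restricted to `X` is the character of a representation of `X`. -/
def IsChar (X : Subgroup G) (χ : G → ℂ) : Prop :=
  ∃ (U : Type) (_ : AddCommGroup U) (_ : Module ℂ U) (_ : FiniteDimensional ℂ U)
    (ρ : Representation ℂ X U), ∀ x : X, ρ.character x = χ x

theorem IsChar.mono {X Y : Subgroup G} {χ : G → ℂ} (h : IsChar X χ) (hle : Y ≤ X) :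
    IsChar Y χ := by
  obtain ⟨U, i1, i2, i3, ρ, hρ⟩ := h
  exact ⟨U, i1, i2, i3, ρ.comp (Subgroup.inclusion hle), fun x => hρ (Subgroup.inclusion hle x)⟩

theorem IsChar.cj {X : Subgroup G} {χ : G → ℂ} (h : IsChar X χ) (hX : X.Normal) (g : G) :
    IsChar X (cj g χ) := by
  obtain ⟨U, i1, i2, i3, ρ, hρ⟩ := h
  let c : X →* X :=
    { toFun := fun x => ⟨g⁻¹ * x * g, conj_mem' hX x.2 g⟩
      map_one' := Subtype.ext (by simp)
      map_mul' := fun a b => Subtype.ext (by simp [mul_assoc]) }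
  exact ⟨U, i1, i2, i3, ρ.comp c, fun x => hρ (c x)⟩

theorem IsChar.mul_lin {X : Subgroup G} {χ : G → ℂ} (h : IsChar X χ) (μ : G →* ℂ) :
    IsChar X (fun a => μ a * χ a) := by
  obtain ⟨U, i1, i2, i3, ρ, hρ⟩ := h
  let σ : Representation ℂ X U :=
    { toFun := fun x => μ x • ρ x
      map_one' := by simp
      map_mul' := fun a b => by
        rw [Subgroup.coe_mul, map_mul, map_mul, smul_mul_smul_comm] }
  refine ⟨U, i1, i2, i3, σ, fun x => ?_⟩
  change LinearMap.trace ℂ U (μ x • ρ x) = μ x * χ x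
  rw [map_smul, smul_eq_mul, ← hρ x]
  rfl

theorem IsChar.integral {X : Subgroup G} {χ : G → ℂ} (h : IsChar X χ) {a : G} (ha : a ∈ X) :
    IsIntegral ℤ (χ a) := by
  obtain ⟨U, i1, i2, i3, ρ, hρ⟩ := h
  have hk : 0 < orderOf (⟨a, ha⟩ : X) := orderOf_pos _
  obtain ⟨ζ, n, hζ, h1, -⟩ := trace_pow_decomp (ρ ⟨a, ha⟩) _ hk
    (by rw [← map_pow, pow_orderOf_eq_one, map_one])
  have h2 := h1 1
  rw [pow_one] at h2
  have h3 : χ a = LinearMap.trace ℂ U (ρ ⟨a, ha⟩) := (hρ ⟨a, ha⟩).symm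
  rw [h3, h2]
  refine IsIntegral.sum _ fun j _ => IsIntegral.mul ?_ ((hζ.isIntegral hk).pow _)
  exact_mod_cast isIntegral_algebraMap (R := ℤ) (A := ℂ) (x := (n j : ℤ))

theorem IsChar.ip_nat {X : Subgroup G} {χ χ' : G → ℂ} (h : IsChar X χ) (h' : IsChar X χ') :
    ∃ N : ℕ, ip X χ χ' = Nat.card X * N := by
  classical
  obtain ⟨U, i1, i2, i3, ρ, hρ⟩ := h
  obtain ⟨U', j1, j2, j3, ρ', hρ'⟩ := h'
  have : Invertible (Nat.card X : ℂ) := invertibleOfNonzero (card_ne X)
  have h1 := Representation.card_inv_mul_sum_char_mul_char_eq_finrank ρ' ρ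
  refine ⟨finrank ℂ (Representation.IntertwiningMap ρ' ρ), ?_⟩
  rw [← h1, ← mul_assoc, mul_inv_cancel₀ (card_ne X), one_mul, ip, sm_subtype]
  refine Finset.sum_congr rfl fun x _ => ?_
  rw [char_inv, hρ, hρ']

section rep

variable {V : Type} [AddCommGroup V] [Module ℂ V] [FiniteDimensional ℂ V]

theorem Irr.fe {Γ : Type*} [Group Γ] [Fintype Γ] {σ : Representation ℂ Γ V} (h : Irr σ)
    (a b : Γ) : (finrank ℂ V : ℂ) * ∑ x, σ.character (a * x * b * x⁻¹) =
      Nat.card Γ * (σ.character a * σ.character b) := by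
  have hd : (finrank ℂ V : ℂ) ≠ 0 := by exact_mod_cast h.finrank_pos.ne'
  have h1 := congrArg (fun T => LinearMap.trace ℂ V (σ a * T)) (h.class_sum b)
  simp only [Finset.mul_sum, map_sum, mul_smul_comm, mul_one, map_smul, smul_eq_mul,
    ← map_mul] at h1
  have h2 : ∑ x, σ.character (a * x * b * x⁻¹) =
      ∑ x, LinearMap.trace ℂ V (σ (a * (x⁻¹ * b * x))) :=
    Fintype.sum_equiv (Equiv.inv Γ) _ _ fun x => by
      simp [Representation.character, mul_assoc]
  rw [h2, h1, Nat.card_eq_fintype_card]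
  simp only [Representation.character]
  field_simp

theorem Irr.cls (ρ : Representation ℂ G V) (g a : G) :
    ρ.character (g⁻¹ * a * g) = ρ.character a := by
  have := ρ.char_conj a g⁻¹
  rwa [inv_inv] at this

theorem Irr.sph_top {ρ : Representation ℂ G V} (h : Irr ρ) :
    Sph ⊤ ⊤ (fun a => ρ.character a / finrank ℂ V) := by
  have hd : (finrank ℂ V : ℂ) ≠ 0 := by exact_mod_cast h.finrank_pos.ne'
  refine ⟨?_, fun a _ => ?_, fun x _ a _ => ?_, fun a _ b _ => ?_⟩
  · simp [hd]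
  · simp [char_inv]
  · simp only [Irr.cls]
  · rw [sm_top, ← Finset.sum_div, Subgroup.card_top]
    have := h.fe a b
    field_simp
    linear_combination this

theorem Irr.ip_top {ρ : Representation ℂ G V} (h : Irr ρ) :
    ip ⊤ ρ.character ρ.character = Nat.card G := by
  rw [ip, sm_top, Nat.card_eq_fintype_card, ← h.sum_norm]
  exact Finset.sum_congr rfl fun g _ => by rw [char_inv]

theorem isChar_top (ρ : Representation ℂ G V) (X : Subgroup G) : IsChar X ρ.character :=
  ⟨V, inferInstance, inferInstance, inferInstance, ρ.comp X.subtype, fun _ => rfl⟩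

theorem exists_sph {ρ : Representation ℂ G V} (hρ : Irr ρ) (X : Subgroup G) (hX : X.Normal) :
    ∃ (d : ℕ) (f : G → ℂ), 0 < d ∧ Sph X X f ∧ Avg X ρ.character (finrank ℂ V) f ∧
      IsChar X (fun a => d * f a) ∧ (d : ℂ) ^ 2 * ip X f f = Nat.card X := by
  classical
  have := hρ.nontriv
  let S : Set (Submodule ℂ V) := {U | U ≠ ⊥ ∧ ∀ x ∈ X, ∀ v ∈ U, ρ x v ∈ U}
  obtain ⟨U, hU, hmin⟩ := (wellFounded_lt (α := Submodule ℂ V)).has_min S
    ⟨⊤, top_ne_bot, fun _ _ _ _ => Submodule.mem_top⟩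
  let σ : Representation ℂ X U :=
    { toFun := fun x => (ρ x).restrict (fun v hv => hU.2 x x.2 v hv)
      map_one' := by ext v; simp
      map_mul' := fun a b => by ext v; simp }
  have hσv : ∀ (x : X) (u : U), (σ x u : V) = ρ x u := fun _ _ => rfl
  have hσ : Irr σ := by
    refine ⟨Submodule.nontrivial_iff_ne_bot.mpr hU.1, fun U' hU' => ?_⟩
    by_cases h0 : U' = ⊥
    · exact Or.inl h0
    right
    have h1 : U'.map U.subtype ∈ S := by
      refine ⟨fun h => h0 ?_, ?_⟩
      · rw [eq_bot_iff]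
        intro u hu
        have h2 : (u : V) ∈ U'.map U.subtype := ⟨u, hu, rfl⟩
        rw [h] at h2
        exact Subtype.ext h2
      · rintro x hx _ ⟨u, hu, rfl⟩
        exact ⟨σ ⟨x, hx⟩ u, hU' _ _ hu, rfl⟩
    have h2 : U'.map U.subtype = U :=
      ((Submodule.map_subtype_le U U').eq_or_lt).resolve_right (hmin _ h1)
    rw [eq_top_iff]
    intro u _
    obtain ⟨u', hu', h3⟩ : (u : V) ∈ U'.map U.subtype := h2.symm ▸ u.2
    exact (Subtype.ext h3 : u' = u) ▸ hu'
  have hd : (finrank ℂ U : ℂ) ≠ 0 := by exact_mod_cast hσ.finrank_pos.ne'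
  let f : G → ℂ := fun a => if h : a ∈ X then σ.character ⟨a, h⟩ / finrank ℂ U else 0
  have hf : ∀ x : X, f x = σ.character x / finrank ℂ U := fun x => dif_pos x.2
  have hf' : ∀ (a : G) (ha : a ∈ X), f a = σ.character ⟨a, ha⟩ / finrank ℂ U :=
    fun a ha => dif_pos ha
  refine ⟨finrank ℂ U, f, hσ.finrank_pos, ⟨?_, fun a ha => ?_, fun x hx a ha => ?_,
    fun a ha b hb => ?_⟩, fun a ha => ?_, ⟨U, inferInstance, inferInstance, inferInstance, σ,
    fun x => ?_⟩, ?_⟩
  · have := hf 1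
    rw [σ.char_one, div_self hd] at this
    exact this
  · have h1 := hf (⟨a, ha⟩ : X)⁻¹
    rw [char_inv] at h1
    rw [hf' a ha, map_div₀, Complex.conj_natCast]
    exact h1
  · have h1 := hf ((⟨x, hx⟩ : X)⁻¹ * ⟨a, ha⟩ * ⟨x, hx⟩)
    rw [Irr.cls] at h1
    rw [hf' a ha]
    exact h1
  · have h1 := hσ.fe ⟨a, ha⟩ ⟨b, hb⟩
    have h2 : ∀ x : X, f (a * x * b * (x : G)⁻¹) =
        σ.character (⟨a, ha⟩ * x * ⟨b, hb⟩ * x⁻¹) / finrank ℂ U :=
      fun x => hf (⟨a, ha⟩ * x * ⟨b, hb⟩ * x⁻¹)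
    rw [sm_subtype, hf' a ha, hf' b hb]
    simp_rw [h2]
    rw [← Finset.sum_div]
    field_simp
    linear_combination h1
  · obtain ⟨U', hU'⟩ := U.exists_isCompl
    let P : End ℂ V := U.subtype ∘ₗ U.projectionOnto U' hU'
    have hP : ∀ x : X, LinearMap.trace ℂ V (ρ x * P) = σ.character x := by
      intro x
      have h1 : ρ x * P = (ρ x ∘ₗ U.subtype) ∘ₗ U.projectionOnto U' hU' := rfl
      rw [h1, LinearMap.trace_comp_comm']
      congr 1
      ext u
      have := Submodule.projectionOnto_apply_left hU' (σ x u)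
      exact congrArg Subtype.val this
    obtain ⟨c, hc⟩ := hρ.schur (∑ g, ρ g * P * ρ g⁻¹) (by
      intro s
      rw [Finset.mul_sum, Finset.sum_mul]
      refine Fintype.sum_equiv (Equiv.mulLeft s) _ _ fun g => ?_
      simp only [Equiv.coe_mulLeft, mul_assoc, ← map_mul]
      rw [map_mul ρ s g, mul_assoc]
      congr 4
      group)
    have hT : ∀ (b : G) (hb : b ∈ X), c * ρ.character b =
        ∑ g, σ.character ⟨g⁻¹ * b * g, conj_mem' hX hb g⟩ := by
      intro b hb
      have h1 := congrArg (fun T => LinearMap.trace ℂ V (ρ b * T)) hc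
      simp only [Finset.mul_sum, map_sum, mul_smul_comm, mul_one, map_smul, smul_eq_mul] at h1
      refine h1.symm.trans (Finset.sum_congr rfl fun g _ => ?_)
      rw [← hP, ← mul_assoc, LinearMap.trace_mul_comm]
      simp only [map_mul, mul_assoc]
    have h1 := hT 1 X.one_mem
    have h2 : ∀ g : G, σ.character ⟨g⁻¹ * 1 * g, conj_mem' hX X.one_mem g⟩ = finrank ℂ U := by
      intro g
      rw [← σ.char_one]
      congr 1
      exact Subtype.ext (by simp)
    simp_rw [h2] at h1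
    rw [ρ.char_one, Finset.sum_const, card_univ, nsmul_eq_mul, ← Nat.card_eq_fintype_card] at h1
    have h3 : ∀ g : G, f (g⁻¹ * a * g) = _ := fun g => hf' _ (conj_mem' hX ha g)
    simp_rw [h3]
    rw [← Finset.sum_div, ← hT a ha]
    field_simp
    linear_combination -(ρ.character a) * h1
  · change _ = (finrank ℂ U : ℂ) * f x
    rw [hf]; field_simp
  · rw [ip, sm_subtype, Nat.card_eq_fintype_card, ← hσ.sum_norm, Finset.mul_sum]
    refine Finset.sum_congr rfl fun x _ => ?_
    rw [hf, char_inv, map_div₀, Complex.conj_natCast]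
    field_simp

end rep

/-- Summation over cosets. -/
theorem sum_coset {Γ M : Type*} [Group Γ] [Fintype Γ] [AddCommMonoid M] (K : Subgroup Γ)
    [Fintype (Γ ⧸ K)] (h : Γ → M) (hK : ∀ g, ∀ k ∈ K, h (g * k) = h g) :
    ∑ g, h g = Nat.card K • ∑ q : Γ ⧸ K, h q.out := by
  classical
  let e : (Γ ⧸ K) × K → Γ := fun x => x.1.out * x.2
  have he : Function.Bijective e := by
    rw [Fintype.bijective_iff_injective_and_card]
    refine ⟨?_, ?_⟩
    · rintro ⟨q, k⟩ ⟨q', k'⟩ hq
      have h1 : q = q' := by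
        have h2 := congrArg (QuotientGroup.mk (s := K)) hq
        simpa [e] using h2
      subst h1
      have h3 : (k : Γ) = k' := mul_left_cancel hq
      rw [Subtype.ext h3]
    · rw [Fintype.card_prod, ← Nat.card_eq_fintype_card, ← Nat.card_eq_fintype_card,
        ← Nat.card_eq_fintype_card, Subgroup.card_eq_card_quotient_mul_card_subgroup K]
  rw [← he.sum_comp h, Fintype.sum_prod_type, Finset.smul_sum]
  refine Finset.sum_congr rfl fun q _ => ?_
  rw [Finset.sum_congr rfl (fun (k : K) _ => (hK q.out k k.2 : h (e (q, k)) = h q.out)),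
    Finset.sum_const, card_univ, Nat.card_eq_fintype_card]

end Pool.Agent.SemiProp
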