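import Pool.Agent.Lib.MP_c1c6b6_al.HZ1
import Pool.Agent.Lib.MP_c1c6b6_al.PN2

/-! Central idempotents of the group algebra over a valuation ring; orthogonality on the
regular classes. -/

set_option autoImplicit false
set_option linter.unusedSectionVars false

open Polynomial Finset MonoidAlgebra Module

namespace Pool.Agent.SemiProp.HZ

variable {G : Type*} [Group G] [Fintype G] {B : ValuationSubring ℂ}

theorem mem_of_integral {x : ℂ} (h : IsIntegral B x) : x ∈ B := by
  obtain ⟨y, rfl⟩ := IsIntegrallyClosed.isIntegral_iff.1 h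
  exact y.2

theorem mem_of_integral_int {x : ℂ} (h : IsIntegral ℤ x) : x ∈ B :=
  mem_of_integral h.tower_top

theorem mem_of_pow {x : ℂ} {n : ℕ} (hn : n ≠ 0) (h : x ^ n = 1) : x ∈ B := by
  rw [← B.valuation_le_one_iff]
  have h1 := congrArg B.valuation h
  rw [map_pow, map_one, pow_eq_one_iff_left hn] at h1
  exact h1.le

theorem val_nat_le (n : ℕ) : B.valuation (n : ℂ) ≤ 1 :=
  (B.valuation_le_one_iff _).2 (natCast_mem B n)

theorem val_mul_lt {x y : ℂ} (hx : x ∈ B) (hy : B.valuation y < 1) : B.valuation (x * y) < 1 := by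
  rw [map_mul]
  exact mul_lt_one_of_nonneg_of_lt_one_right ((B.valuation_le_one_iff _).2 hx) zero_le hy

theorem val_nat_eq {l k : ℕ} (hl : l.Prime) (hv : B.valuation (l : ℂ) < 1) (hk : ¬ l ∣ k) :
    B.valuation (k : ℂ) = 1 := by
  refine le_antisymm (val_nat_le k) (not_lt.1 fun h => ?_)
  obtain ⟨a, b, hab⟩ := Nat.isCoprime_iff_coprime.2 ((Nat.Prime.coprime_iff_not_dvd hl).2 hk)
  have h1 : (a : ℂ) * l + b * k = 1 := by exact_mod_cast hab
  have := Valuation.map_add_lt B.valuation (val_mul_lt (intCast_mem B a) hv)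
    (val_mul_lt (intCast_mem B b) h)
  rw [h1, map_one] at this
  exact lt_irrefl _ this

theorem val_root {l : ℕ} (hl : l.Prime) (hv : B.valuation (l : ℂ) < 1) {x : ℂ} (hx : x ^ l = 1) :
    B.valuation (1 - x) < 1 := by
  have hB : x ∈ B := mem_of_pow hl.ne_zero hx
  obtain ⟨r, hr⟩ := exists_add_pow_prime_eq hl ((⟨x, hB⟩ : B) - 1) 1
  have h1 := congrArg B.subtype hr
  simp only [map_pow, map_add, map_sub, map_mul, map_one, map_natCast, one_pow, sub_add_cancel,
    ValuationSubring.coe_subtype, hx, mul_one] at h1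
  have h2 : (x - 1) ^ l = (-(x - 1) * r) * l := by linear_combination -h1
  have h3 : B.valuation ((x - 1) ^ l) < 1 := by
    rw [h2]
    exact val_mul_lt (mul_mem (neg_mem (sub_mem hB (one_mem B))) r.2) hv
  rw [map_pow] at h3
  rw [Valuation.map_sub_swap]
  exact lt_of_pow_lt_pow_left₀ l zero_le_one (by rwa [one_pow])

theorem mul_l (x y : MonoidAlgebra ℂ G) (g : G) :
    (x * y).coeff g = ∑ h, x.coeff h * y.coeff (h⁻¹ * g) := by
  rw [coeff_mul_apply_left, Finsupp.sum_fintype]
  simp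

theorem mul_r (x y : MonoidAlgebra ℂ G) (g : G) :
    (x * y).coeff g = ∑ h, x.coeff (g * h⁻¹) * y.coeff h := by
  rw [coeff_mul_apply_right, Finsupp.sum_fintype]
  simp

/-- the element of the group algebra with given coefficients -/
noncomputable def ofFun {R : Type*} [Semiring R] (f : G → R) : MonoidAlgebra R G :=
  .ofCoeff (Finsupp.equivFunOnFinite.symm f)

theorem coeff_ofFun {R : Type*} [Semiring R] (f : G → R) (g : G) : (ofFun f).coeff g = f g := rfl

/-- class functions -/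
def Cls (f : G → ℂ) : Prop := ∀ h g, f (h⁻¹ * g * h) = f g

theorem comm_of_cls {x : MonoidAlgebra ℂ G} (hx : Cls x.coeff) (y : MonoidAlgebra ℂ G) :
    x * y = y * x := by
  ext g
  rw [mul_r, mul_l]
  refine sum_congr rfl fun h _ => ?_
  rw [mul_comm, ← hx h]
  congr 2
  group

theorem cls_of_comm {x : MonoidAlgebra ℂ G} (hx : ∀ y, x * y = y * x) : Cls x.coeff := fun h g => by
  have := congrArg (fun u : MonoidAlgebra ℂ G => u.coeff (g * h)) (hx (single h 1))
  simpa [mul_assoc] using this.symm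

section rep

variable {V W : Type*} [AddCommGroup V] [Module ℂ V] [FiniteDimensional ℂ V]
  [AddCommGroup W] [Module ℂ W] [FiniteDimensional ℂ W]

theorem trace_alg (ρ : Representation ℂ G V) (x : MonoidAlgebra ℂ G) :
    LinearMap.trace ℂ V (ρ.asAlgebraHom x) = ∑ g, x.coeff g * ρ.character g := by
  rw [Representation.asAlgebraHom_def, MonoidAlgebra.lift_apply, Finsupp.sum_fintype _ _ (by simp),
    map_sum]
  simp [Representation.character]

theorem cls_char (ρ : Representation ℂ G V) : Cls ρ.character := fun h g => by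
  simpa using ρ.char_conj g h⁻¹

/-- the central character -/
noncomputable def om (ρ : Representation ℂ G V) (f : G → ℂ) : ℂ :=
  (∑ g, f g * ρ.character g) / finrank ℂ V

theorem alg_central {ρ : Representation ℂ G V} (h : Irr ρ) {x : MonoidAlgebra ℂ G}
    (hx : ∀ y, x * y = y * x) : ρ.asAlgebraHom x = algebraMap ℂ _ (om ρ x.coeff) := by
  obtain ⟨c, hc⟩ := h.schur (ρ.asAlgebraHom x) fun g => by
    rw [← ρ.asAlgebraHom_single_one, ← map_mul, ← map_mul, hx]
  have hd : (finrank ℂ V : ℂ) ≠ 0 := by exact_mod_cast h.finrank_pos.ne'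
  have ht := congrArg (LinearMap.trace ℂ V) hc
  rw [trace_alg, map_smul, LinearMap.trace_one, smul_eq_mul] at ht
  rw [hc, om, ht, Algebra.algebraMap_eq_smul_one, mul_div_cancel_right₀ _ hd]

theorem alg_aeval {ρ : Representation ℂ G V} (h : Irr ρ) {x : MonoidAlgebra ℂ G}
    (hx : ∀ y, x * y = y * x) (p : ℂ[X]) :
    ρ.asAlgebraHom (aeval x p) = algebraMap ℂ _ (p.eval (om ρ x.coeff)) := by
  rw [← aeval_algHom_apply, alg_central h hx, aeval_algebraMap_apply_eq_algebraMap_eval]

theorem map_aeval (z : MonoidAlgebra B G) (p : B[X]) :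
    mapRingHom G B.subtype (aeval z p) = aeval (mapRingHom G B.subtype z) (p.map B.subtype) :=
  map_aeval_eq_aeval_map (mapRingHom_comp_algebraMap B.subtype).symm p z

theorem exists_poly {f : G → ℂ} (hB : ∀ g, f g ∈ B) :
    ∃ (z : MonoidAlgebra B G) (p : ℂ[X]), mapRingHom G B.subtype z = ofFun f ∧ p.Monic ∧
      (∀ x ∈ p.roots, x ∈ B) ∧ aeval (ofFun f) p = 0 := by
  let z : MonoidAlgebra B G := ofFun fun g => ⟨f g, hB g⟩
  have hz : mapRingHom G B.subtype z = ofFun f := by
    ext g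
    rw [coeff_mapRingHom]
    rfl
  obtain ⟨p, hp, h0⟩ := IsIntegral.of_finite B z
  refine ⟨z, p.map B.subtype, hz, hp.map _, fun x hx => mem_of_integral ⟨p, hp, ?_⟩, ?_⟩
  · have := isRoot_of_mem_roots hx
    rwa [IsRoot.def, eval_map] at this
  · rw [← hz, ← map_aeval, aeval_def, h0, map_zero]

theorem isRoot_om {ρ : Representation ℂ G V} (h : Irr ρ) {f : G → ℂ} (hf : Cls f) {p : ℂ[X]}
    (hp : aeval (ofFun f) p = 0) : p.IsRoot (om ρ f) := by
  have := h.nontriv
  have h1 := alg_aeval h (comm_of_cls (x := ofFun f) hf) p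
  rw [hp, map_zero] at h1
  exact (map_eq_zero_iff _ (FaithfulSMul.algebraMap_injective ℂ _)).1 h1.symm

theorem om_mem {ρ : Representation ℂ G V} (h : Irr ρ) {f : G → ℂ} (hf : Cls f)
    (hB : ∀ g, f g ∈ B) : om ρ f ∈ B := by
  obtain ⟨z, p, -, h1, h2, h3⟩ := exists_poly hB
  exact h2 _ ((mem_roots h1.ne_zero).2 (isRoot_om h hf h3))

theorem exists_e {ρ : Representation ℂ G V} {σ : Representation ℂ G W} (h : Irr ρ) (h' : Irr σ)
    {f : G → ℂ} (hf : Cls f) (hB : ∀ g, f g ∈ B) (hne : ¬ B.valuation (om σ f - om ρ f) < 1) :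
    ∃ e : MonoidAlgebra ℂ G, e * e = e ∧ (∀ y, e * y = y * e) ∧ (∀ g, e.coeff g ∈ B) ∧
      ρ.asAlgebraHom e = 0 ∧ σ.asAlgebraHom e = 1 := by
  obtain ⟨z, p, h0, h1, h2, h3⟩ := exists_poly hB
  obtain ⟨q, ⟨r, hr⟩, q1, q0⟩ := exists_idem h1 h2 (isRoot_om h' hf h3) (isRoot_om h hf h3) hne
  have hc := comm_of_cls (x := ofFun f) hf
  refine ⟨aeval (ofFun f) (q.map B.subtype), ?_, fun y => ?_, fun g => ?_, ?_, ?_⟩
  · rw [← sub_eq_zero, ← map_mul, ← map_sub, hr, map_mul, h3, zero_mul]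
  · rw [aeval_eq_sum_range]
    exact (Commute.sum_left _ _ _ fun i _ => (Commute.pow_left (hc y) i).smul_left _).eq
  · rw [← h0, ← map_aeval, coeff_mapRingHom]
    exact Subtype.property _
  · rw [alg_aeval h hc]
    exact (congrArg _ q0).trans (map_zero _)
  · rw [alg_aeval h' hc]
    exact (congrArg _ q1).trans (map_one _)

end rep

theorem sum_split (H : Subgroup G) [Fintype H] [Fintype (G ⧸ H)] (F : G → ℂ) (a : G) :
    ∑ w, F w = ∑ q : G ⧸ H, ∑ c : H, F (a * c * q.out⁻¹) := by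
  let e : (G ⧸ H) × H → G := fun x => a * x.2 * x.1.out⁻¹
  have he : Function.Bijective e := by
    rw [Fintype.bijective_iff_injective_and_card]
    refine ⟨?_, ?_⟩
    · rintro ⟨q, k⟩ ⟨q', k'⟩ hq
      have h0 : q.out * (k⁻¹ : H) = q'.out * (k'⁻¹ : H) := by
        have := congrArg (fun x => x⁻¹ * a) hq
        simpa [e, mul_assoc] using this
      have h1 : q = q' := by
        have h2 := congrArg (QuotientGroup.mk (s := H)) h0
        simpa using h2
      subst h1
      rw [inv_injective (Subtype.ext (mul_left_cancel h0) : k⁻¹ = k'⁻¹)]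
    · rw [Fintype.card_prod, ← Nat.card_eq_fintype_card, ← Nat.card_eq_fintype_card,
        ← Nat.card_eq_fintype_card, Subgroup.card_eq_card_quotient_mul_card_subgroup H]
  rw [← he.sum_comp F, Fintype.sum_prod_type]

/-- the matrix of the induced representation -/
noncomputable def em (H : Subgroup G) [Fintype H] (ν : H → ℂ) (y : MonoidAlgebra ℂ G) :
    Matrix (G ⧸ H) (G ⧸ H) ℂ := fun q q' => ∑ c : H, y.coeff (q.out * c * q'.out⁻¹) * ν c

theorem em_mul (H : Subgroup G) [Fintype H] [Fintype (G ⧸ H)] {ν : H → ℂ}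
    (hν : ∀ a b, ν (a * b) = ν a * ν b) (y y' : MonoidAlgebra ℂ G) :
    em H ν (y * y') = em H ν y * em H ν y' := by
  ext q q''
  simp only [em, Matrix.mul_apply, mul_l, sum_mul_sum]
  simp_rw [sum_split H _ q.out, sum_mul]
  rw [sum_comm]
  refine sum_congr rfl fun q' _ => ?_
  rw [sum_comm]
  refine sum_congr rfl fun c _ => ?_
  refine (Fintype.sum_equiv (Equiv.mulLeft c) _ _ fun d => ?_).symm
  rw [Equiv.coe_mulLeft, hν, Subgroup.coe_mul,
    show (q.out * c * q'.out⁻¹)⁻¹ * (q.out * (c * d) * q''.out⁻¹) = q'.out * d * q''.out⁻¹ by group]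
  ring

theorem em_pow (H : Subgroup G) [Fintype H] [Fintype (G ⧸ H)] [DecidableEq (G ⧸ H)] {ν : H → ℂ}
    (hν : ∀ a b, ν (a * b) = ν a * ν b) (y : MonoidAlgebra ℂ G) (n : ℕ) :
    em H ν y ^ (n + 1) = em H ν (y ^ (n + 1)) := by
  induction n with
  | zero => simp
  | succ n ih => rw [pow_succ, ih, ← em_mul H hν, ← pow_succ]

theorem osima {l : ℕ} (hl : l.Prime) (hv : B.valuation (l : ℂ) < 1) {e : MonoidAlgebra ℂ G}
    (he : e * e = e) (hc : ∀ y, e * y = y * e) (hB : ∀ g, e.coeff g ∈ B) {s g : G}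
    (hs : ¬ l ∣ orderOf s) (hg : l ∣ orderOf g) {H : Subgroup G} (hH : Subgroup.zpowers g = H)
    [Fintype (G ⧸ H)] : ∑ q : G ⧸ H, e.coeff (q.out * g * q.out⁻¹ * s⁻¹) = 0 := by
  classical
  have hcm : IsMulCommutative H := hH ▸ Subgroup.zpowers_isMulCommutative g
  let _ : CommGroup H := { (inferInstance : Group H) with mul_comm := hcm.is_comm.comm }
  let g0 : H := ⟨g, hH ▸ Subgroup.mem_zpowers g⟩
  obtain ⟨m, hm⟩ := hg
  have hN : 0 < orderOf g := orderOf_pos g
  have hcN : ∀ c : H, c ^ orderOf g = 1 := fun c => by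
    rw [← Nat.card_zpowers, hH]
    exact pow_card_eq_one'
  have hpow : ∀ (ν : AddChar (Additive H) ℂ) (c : H) (n : ℕ),
      ν (Additive.ofMul c) ^ n = ν (Additive.ofMul (c ^ n)) := fun ν c n => by
    rw [ofMul_pow, AddChar.map_nsmul_eq_pow]
  have hνB : ∀ (ν : AddChar (Additive H) ℂ) (c : H), ν (Additive.ofMul c) ∈ B := fun ν c =>
    mem_of_pow hN.ne' (by rw [hpow, hcN, ofMul_one, AddChar.map_zero_eq_one])
  have hm0 : g0 ^ m ≠ 1 := fun h => by
    have h1 : orderOf g ∣ m := orderOf_dvd_of_pow_eq_one (congrArg Subtype.val h)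
    have h2 : 0 < m := Nat.pos_of_ne_zero (by rintro rfl; simp [hm] at hN)
    have h3 := Nat.le_of_dvd h2 h1
    have := hl.two_le
    nlinarith
  obtain ⟨ν0, hν0⟩ := (AddChar.exists_apply_ne_zero (a := Additive.ofMul (g0 ^ m))).2 hm0
  let μ : H → ℂ := fun c => ν0 (Additive.ofMul c) ^ m
  have hμ : ∀ c, B.valuation (1 - μ c) < 1 := fun c => val_root hl hv (by
    rw [← pow_mul, mul_comm, ← hm, hpow, hcN, ofMul_one, AddChar.map_zero_eq_one])
  have hμB : ∀ c, μ c ∈ B := fun c => pow_mem (hνB _ _) _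
  set y := e * single s 1 with hy
  have hyp : ∀ n : ℕ, y ^ (n + 1) = e * single (s ^ (n + 1)) 1 := fun n => by
    induction n with
    | zero => simp [hy]
    | succ n ih =>
      rw [pow_succ, ih, hy, mul_assoc, ← mul_assoc _ e, ← hc, ← mul_assoc, ← mul_assoc, he,
        mul_assoc, single_mul_single, mul_one, ← pow_succ]
  have hyk : y ^ (orderOf s + 1) = y := by rw [hyp, pow_succ, pow_orderOf_eq_one, one_mul]
  have hyB : ∀ a, y.coeff a ∈ B := fun a => by simpa [hy] using hB _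
  let τ : H → ℂ := fun c => ∑ q : G ⧸ H, y.coeff (q.out * c * q.out⁻¹)
  have htr : ∀ ν : H → ℂ, (em H ν y).trace = ∑ c, τ c * ν c := fun ν => by
    simp only [Matrix.trace, Matrix.diag, em, τ, sum_mul]
    exact sum_comm
  have key : ∀ ν : AddChar (Additive H) ℂ, ∑ c, τ c * (1 - μ c) * ν (Additive.ofMul c) = 0 :=
    fun ν => by
    have h1 : ∀ a b : H, ν (Additive.ofMul (a * b)) = ν (Additive.ofMul a) * ν (Additive.ofMul b) :=
      fun a b => by rw [ofMul_mul, AddChar.map_add_eq_mul]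
    have h2 : ∀ a b : H, ν (Additive.ofMul (a * b)) * μ (a * b) =
        ν (Additive.ofMul a) * μ a * (ν (Additive.ofMul b) * μ b) := fun a b => by
      simp only [μ, ofMul_mul, AddChar.map_add_eq_mul]
      ring
    have h3 := trace_eq_of_cong (val_nat_eq hl hv hs)
      (Y := em H (fun c => ν (Additive.ofMul c)) y)
      (Y' := em H (fun c => ν (Additive.ofMul c) * μ c) y)
      (fun i j => sum_mem fun c _ => mul_mem (hyB _) (hνB _ _))
      (fun i j => sum_mem fun c _ => mul_mem (hyB _) (mul_mem (hνB _ _) (hμB _)))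
      (fun i j => by
        simp only [em]
        rw [← sum_sub_distrib]
        refine Valuation.map_sum_lt _ one_ne_zero fun c _ => ?_
        rw [← mul_sub, ← mul_one_sub, ← mul_assoc]
        exact val_mul_lt (mul_mem (hyB _) (hνB _ _)) (hμ c))
      (by rw [em_pow H (ν := fun c => ν (Additive.ofMul c)) h1, hyk])
      (by rw [em_pow H (ν := fun c => ν (Additive.ofMul c) * μ c) h2, hyk])
    rw [htr, htr, ← sub_eq_zero, ← sum_sub_distrib] at h3
    rw [← h3]
    exact sum_congr rfl fun c _ => by ring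
  have h4 : ∑ ν : AddChar (Additive H) ℂ, (∑ c, τ c * (1 - μ c) * ν (Additive.ofMul c)) *
      ν (-Additive.ofMul g0) = τ g0 * (1 - μ g0) * Fintype.card (Additive H) := by
    simp_rw [sum_mul, mul_assoc, ← AddChar.map_add_eq_mul]
    rw [sum_comm]
    simp_rw [← mul_sum, AddChar.sum_apply_eq_ite, add_neg_eq_zero]
    simp
  simp_rw [key, zero_mul, sum_const_zero] at h4
  have h5 : 1 - μ g0 ≠ 0 := fun h => hν0 (by rw [← hpow]; exact (sub_eq_zero.1 h).symm)
  have h6 := (mul_eq_zero.1 ((mul_eq_zero.1 h4.symm).resolve_right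
    (by exact_mod_cast Fintype.card_ne_zero))).resolve_right h5
  simp only [τ, hy, g0, coeff_mul_single_apply, mul_one] at h6
  exact h6

theorem supp_reg {l : ℕ} (hl : l.Prime) (hv : B.valuation (l : ℂ) < 1) {e : MonoidAlgebra ℂ G}
    (he : e * e = e) (hc : ∀ y, e * y = y * e) (hB : ∀ g, e.coeff g ∈ B) {x : MonoidAlgebra ℂ G}
    (hx : ∀ y, x * y = y * x) (hx0 : ∀ g, l ∣ orderOf g → x.coeff g = 0) {g : G}
    (hg : l ∣ orderOf g) : (e * x).coeff g = 0 := by
  classical
  have hu : Cls (e * x).coeff := cls_of_comm fun y => by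
    rw [mul_assoc, hx, ← mul_assoc, hc, mul_assoc]
  have h1 : ∑ q : G ⧸ Subgroup.zpowers g, (e * x).coeff (q.out * g * q.out⁻¹) = 0 := by
    simp_rw [mul_r]
    rw [sum_comm]
    refine sum_eq_zero fun s _ => ?_
    rw [← sum_mul]
    by_cases hs : l ∣ orderOf s
    · rw [hx0 s hs, mul_zero]
    · rw [osima hl hv he hc hB hs hg rfl, zero_mul]
  have h2 : ∀ a : G, (e * x).coeff (a * g * a⁻¹) = (e * x).coeff g := fun a => by
    simpa using hu a⁻¹ g
  simp_rw [h2] at h1
  rw [sum_const, nsmul_eq_mul] at h1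
  exact (mul_eq_zero.1 h1).resolve_left (by exact_mod_cast Fintype.card_ne_zero)

/-- the regular part of the dual of a class function -/
noncomputable def reg (l : ℕ) (χ : G → ℂ) : G → ℂ := fun g => if l ∣ orderOf g then 0 else χ g⁻¹

theorem orderOf_cj (h g : G) : orderOf (h⁻¹ * g * h) = orderOf g := by
  have := (MulAut.conj h⁻¹).orderOf_eq g
  simpa using this

theorem cls_reg (l : ℕ) {χ : G → ℂ} (h : Cls χ) : Cls (reg l χ) := fun a g => by
  simp only [reg, orderOf_cj]
  rw [← h a g⁻¹]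
  congr 2
  group

theorem orth_reg {V W : Type*} [AddCommGroup V] [Module ℂ V] [FiniteDimensional ℂ V]
    [AddCommGroup W] [Module ℂ W] [FiniteDimensional ℂ W] {l : ℕ} (hl : l.Prime)
    (hv : B.valuation (l : ℂ) < 1) {ρ : Representation ℂ G V} {σ : Representation ℂ G W}
    (h : Irr ρ) (h' : Irr σ) {f : G → ℂ} (hf : Cls f) (hB : ∀ g, f g ∈ B)
    (hne : ¬ B.valuation (om σ f - om ρ f) < 1) :
    ∑ g, reg l ρ.character g * σ.character g = 0 := by
  obtain ⟨e, he, hc, heB, e0, e1⟩ := exists_e h h' hf hB hne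
  have c1 := comm_of_cls (x := ofFun (reg l ρ.character)) (cls_reg l (cls_char ρ))
  have c2 := comm_of_cls (x := ofFun (reg l σ.character)) (cls_reg l (cls_char σ))
  have key : ∀ (χ : G → ℂ) (u : MonoidAlgebra ℂ G), (∀ g, l ∣ orderOf g → u.coeff g = 0) →
      (u * ofFun (reg l χ)).coeff 1 = ∑ g, u.coeff g * χ g := fun χ u hu => by
    rw [mul_l]
    refine sum_congr rfl fun g _ => ?_
    by_cases hg : l ∣ orderOf g
    · rw [hu g hg, zero_mul, zero_mul]
    · simp [coeff_ofFun, reg, hg]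
  have k1 := key ρ.character _ fun g hg =>
    supp_reg hl hv he hc heB c2 (fun g hg => by simp [coeff_ofFun, reg, hg]) hg
  have k2 := key σ.character _ fun g hg =>
    supp_reg hl hv he hc heB c1 (fun g hg => by simp [coeff_ofFun, reg, hg]) hg
  rw [← trace_alg, map_mul, e0, zero_mul, map_zero] at k1
  rw [← trace_alg, map_mul, e1, one_mul, trace_alg, mul_assoc, c1, ← mul_assoc, k1] at k2
  exact k2.symm

end Pool.Agent.SemiProp.HZ
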