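import Pool.Agent.Lib.MP_c1c6b6_al.HZ2

/-! Characters of height zero. -/

set_option autoImplicit false
set_option linter.unusedSectionVars false

open Finset Module

namespace Pool.Agent.SemiProp.HZ

variable {G : Type} [Group G] [Fintype G] {B : ValuationSubring ℂ}

open Classical in
/-- the indicator of a conjugacy class -/
noncomputable def cl (g : G) : G → ℂ := fun h => if IsConj g h then 1 else 0

theorem isConj_cj (h g : G) : IsConj g (h⁻¹ * g * h) := isConj_iff.2 ⟨h⁻¹, by simp⟩

theorem Cls.eq {f : G → ℂ} (hf : Cls f) {g h : G} (hc : IsConj g h) : f h = f g := by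
  obtain ⟨c, rfl⟩ := isConj_iff.1 hc
  simpa using hf c⁻¹ g

theorem cls_cl (g : G) : Cls (cl g) := fun a b => by
  classical
  simp only [cl]
  exact if_congr ⟨fun h => h.trans (isConj_cj a b).symm, fun h => h.trans (isConj_cj a b)⟩ rfl rfl

theorem cl_mem (g h : G) : cl g h ∈ B := by
  unfold cl
  split_ifs
  exacts [one_mem B, zero_mem B]

theorem Cls.sum_cl {f : G → ℂ} (hf : Cls f) [Fintype (ConjClasses G)] (g : G) :
    f g = ∑ K : ConjClasses G, f K.out * cl K.out g := by
  have h1 : IsConj (ConjClasses.mk g).out g :=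
    ConjClasses.mk_eq_mk_iff_isConj.1 (Quotient.out_eq (ConjClasses.mk g))
  rw [sum_eq_single (ConjClasses.mk g)]
  · rw [cl, if_pos h1, mul_one, hf.eq h1]
  · intro K _ hK
    rw [cl, if_neg, mul_zero]
    exact fun h => hK ((Quotient.out_eq K).symm.trans (ConjClasses.mk_eq_mk_iff_isConj.2 h))
  · simp

theorem char_induction (P : (G → ℂ) → Prop) (h0 : P 0) (ha : ∀ f f', P f → P f' → P (f + f'))
    (hi : ∀ (U : Type) [AddCommGroup U] [Module ℂ U] [FiniteDimensional ℂ U]
      (ρ : Representation ℂ G U), Irr ρ → P ρ.character) (n : ℕ) :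
    ∀ (U : Type) [AddCommGroup U] [Module ℂ U] [FiniteDimensional ℂ U]
      (ρ : Representation ℂ G U), finrank ℂ U = n → P ρ.character := by
  induction n using Nat.strong_induction_on with
  | _ n ih =>
  intro U _ _ _ ρ hn
  rcases subsingleton_or_nontrivial U with hU | hU
  · have : ρ.character = 0 := funext fun g => by
      rw [Representation.character, Subsingleton.elim (ρ g) 0, map_zero]
      rfl
    rwa [this]
  by_cases hirr : Irr ρ
  · exact hi U ρ hirr
  obtain ⟨S, hS, h1, h2⟩ : ∃ S : Submodule ℂ U, (∀ g v, v ∈ S → ρ g v ∈ S) ∧ S ≠ ⊥ ∧ S ≠ ⊤ := by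
    by_contra hc
    refine hirr ⟨hU, fun S hS => ?_⟩
    by_contra h
    exact hc ⟨S, hS, fun e => h (Or.inl e), fun e => h (Or.inr e)⟩
  have : NeZero (Nat.card G : ℂ) := ⟨cardG_ne⟩
  let S1 : Subrepresentation ρ := ⟨S, fun g v hv => hS g v hv⟩
  obtain ⟨S2, hc⟩ := exists_isCompl S1
  have hc' : IsCompl S S2.toSubmodule :=
    ⟨disjoint_iff.2 (congrArg Subrepresentation.toSubmodule hc.inf_eq_bot),
      codisjoint_iff.2 (congrArg Subrepresentation.toSubmodule hc.sup_eq_top)⟩
  have hd := Submodule.finrank_add_eq_of_isCompl hc'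
  have p1 : 0 < finrank ℂ S := Nat.pos_of_ne_zero fun e => h1 (Submodule.finrank_eq_zero.1 e)
  have p2 : finrank ℂ S < finrank ℂ U := Submodule.finrank_lt h2
  have e : ρ.character = S1.toRepresentation.character + S2.toRepresentation.character := by
    funext g
    have : ρ g = (Submodule.prodEquivOfIsCompl _ _ hc').conj
        (LinearMap.prodMap (S1.toRepresentation g) (S2.toRepresentation g)) := by
      ext v
      obtain ⟨⟨a, b⟩, rfl⟩ := (Submodule.prodEquivOfIsCompl _ _ hc').surjective v
      rw [LinearEquiv.conj_apply_apply, LinearEquiv.symm_apply_apply]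
      simp [Subrepresentation.toRepresentation]
    rw [Representation.character, this, LinearMap.trace_conj', LinearMap.trace_prodMap']
    rfl
  rw [e]
  exact ha _ _ (ih _ (hn ▸ p2) _ _ rfl) (ih _ (by omega) _ _ rfl)

/-- the permutation representation on the cosets of a subgroup -/
noncomputable def perm (P : Subgroup G) : Representation ℂ G (G ⧸ P → ℂ) where
  toFun g := LinearMap.funLeft ℂ ℂ fun q => g⁻¹ • q
  map_one' := by ext; simp
  map_mul' a b := by ext; simp [mul_smul]

theorem perm_char (P : Subgroup G) {g : G} (h : ∀ q : G ⧸ P, g⁻¹ • q ≠ q) :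
    (perm P).character g = 0 := by
  classical
  rw [Representation.character, LinearMap.trace_eq_matrix_trace ℂ (Pi.basisFun ℂ (G ⧸ P))]
  refine sum_eq_zero fun q _ => ?_
  simp [perm, h q]

section rep

variable {V W : Type} [AddCommGroup V] [Module ℂ V] [FiniteDimensional ℂ V]
  [AddCommGroup W] [Module ℂ W] [FiniteDimensional ℂ W]

theorem om_cl (ρ : Representation ℂ G V) (g : G) :
    om ρ (cl g) = Nat.card {h : G // IsConj g h} * ρ.character g / finrank ℂ V := by
  classical
  rw [om, Nat.card_eq_fintype_card, Fintype.card_subtype, ← nsmul_eq_mul, ← sum_const, sum_filter]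
  congr 1
  refine sum_congr rfl fun h _ => ?_
  unfold cl
  split_ifs with hh
  · rw [one_mul, (cls_char ρ).eq hh]
  · rw [zero_mul]

/-- the two representations lie in the same block -/
def SB (B : ValuationSubring ℂ) (ρ : Representation ℂ G V) (σ : Representation ℂ G W) : Prop :=
  ∀ g, B.valuation (om ρ (cl g) - om σ (cl g)) < 1

theorem SB.cong {ρ : Representation ℂ G V} {σ : Representation ℂ G W} (h : SB B ρ σ) {f : G → ℂ}
    (hf : Cls f) (hB : ∀ g, f g ∈ B) : B.valuation (om ρ f - om σ f) < 1 := by
  classical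
  have e : om ρ f - om σ f = ∑ K : ConjClasses G, f K.out * (om ρ (cl K.out) - om σ (cl K.out)) := by
    simp only [om, mul_sub, sum_sub_distrib, ← mul_div_assoc, ← sum_div, mul_sum, ← mul_assoc]
    rw [sum_comm, sum_comm (s := (univ : Finset (ConjClasses G)))]
    simp only [← sum_mul, ← hf.sum_cl]
  rw [e]
  exact Valuation.map_sum_lt _ one_ne_zero fun K _ => val_mul_lt (hB _) (h _)

theorem char_mem (ρ : Representation ℂ G V) (g : G) : ρ.character g ∈ B :=
  mem_of_integral_int ((isChar_top ρ ⊤).integral (Subgroup.mem_top g))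

theorem reg_mem (l : ℕ) (ρ : Representation ℂ G V) (g : G) : reg l ρ.character g ∈ B := by
  unfold reg
  split_ifs
  exacts [zero_mem B, char_mem ρ _]

theorem orth_of_not {l : ℕ} (hl : l.Prime) (hv : B.valuation (l : ℂ) < 1)
    {ρ : Representation ℂ G V} {σ : Representation ℂ G W} (h : Irr ρ) (h' : Irr σ)
    (hn : ¬ SB B ρ σ) : ∑ g, reg l σ.character g * ρ.character g = 0 := by
  obtain ⟨g, hg⟩ := not_forall.1 hn
  exact orth_reg hl hv h' h (cls_cl g) (cl_mem g) hg

/-- the degree of `σ` has the least valuation in its block -/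
def HZero (B : ValuationSubring ℂ) (σ : Representation ℂ G W) : Prop :=
  ∀ (U : Type) [AddCommGroup U] [Module ℂ U] [FiniteDimensional ℂ U] (ρ : Representation ℂ G U),
    Irr ρ → SB B ρ σ → (finrank ℂ U : ℂ) / finrank ℂ W ∈ B

theorem brauer {l : ℕ} (hl : l.Prime) (hv : B.valuation (l : ℂ) < 1) {σ : Representation ℂ G W}
    (h' : Irr σ) (hz : HZero B σ) : ¬ B.valuation (om σ (reg l σ.character)) < 1 := fun hlt => by
  classical
  have := Fact.mk hl
  obtain ⟨P⟩ : Nonempty (Sylow l G) := inferInstance
  have hd : (finrank ℂ W : ℂ) ≠ 0 := by exact_mod_cast h'.finrank_pos.ne'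
  have key := char_induction (G := G)
    (fun χ => B.valuation ((∑ g, reg l σ.character g * χ g) / finrank ℂ W) < 1) (by simp)
    (fun f f' h1 h2 => by
      simp only [Pi.add_apply, mul_add, sum_add_distrib, add_div]
      exact Valuation.map_add_lt _ h1 h2)
    (fun U _ _ _ ρ h => by
      by_cases hs : SB B ρ σ
      · have hU : (finrank ℂ U : ℂ) ≠ 0 := by exact_mod_cast h.finrank_pos.ne'
        have h1 := Valuation.map_add_lt _ (hs.cong (cls_reg l (cls_char σ)) (reg_mem l σ)) hlt
        rw [sub_add_cancel] at h1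
        have h2 := val_mul_lt (hz U ρ h hs) h1
        rwa [om, div_mul_div_comm, mul_comm (finrank ℂ W : ℂ), mul_div_mul_left _ _ hU] at h2
      · rw [orth_of_not hl hv h h' hs]
        simp) _ _ (perm (P : Subgroup G)) rfl
  rw [sum_eq_single 1] at key
  · rw [reg, if_neg (by simpa using hl.ne_one), inv_one, Representation.char_one,
      Representation.char_one, mul_div_cancel_left₀ _ hd, finrank_fintype_fun_eq_card,
      ← Nat.card_eq_fintype_card, ← Subgroup.index_eq_card, val_nat_eq hl hv P.not_dvd_index] at key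
    exact lt_irrefl _ key
  · intro g _ hg
    by_cases hr : l ∣ orderOf g
    · simp [reg, hr]
    rw [perm_char, mul_zero]
    intro q hq
    obtain ⟨x, rfl⟩ := QuotientGroup.mk_surjective q
    rw [MulAction.Quotient.smul_mk, QuotientGroup.eq] at hq
    have hm : x⁻¹ * g * x ∈ (P : Subgroup G) := by simpa using hq
    obtain ⟨k, hk⟩ := IsPGroup.iff_orderOf.1 P.isPGroup' ⟨_, hm⟩
    rw [← Subgroup.orderOf_coe, orderOf_cj] at hk
    rcases k with _ | k
    · exact hg (orderOf_eq_one_iff.1 hk)
    · exact hr (hk ▸ dvd_pow_self l k.succ_ne_zero)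
  · simp

theorem sb_of_rel {l : ℕ} (hl : l.Prime) (hv : B.valuation (l : ℂ) < 1) {ρ : Representation ℂ G V}
    {σ : Representation ℂ G W} (h : Irr ρ) (h' : Irr σ) (hz : HZero B σ)
    (hlt : B.valuation ((finrank ℂ V : ℂ) / finrank ℂ W) < 1)
    (hrel : ∀ g, (finrank ℂ W : ℂ) * ρ.character g = finrank ℂ V * σ.character g ∨
      (finrank ℂ V : ℂ) * ρ.character g = -(finrank ℂ W * σ.character g)) : SB B ρ σ := by
  classical
  by_contra hn
  have ho := orth_of_not hl hv h h' hn
  have ha : (finrank ℂ V : ℂ) ≠ 0 := by exact_mod_cast h.finrank_pos.ne'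
  have hb : (finrank ℂ W : ℂ) ≠ 0 := by exact_mod_cast h'.finrank_pos.ne'
  set a : ℂ := (finrank ℂ V : ℂ) with ea
  set b : ℂ := (finrank ℂ W : ℂ) with eb
  let f : G → ℂ := fun g => if b * ρ.character g = a * σ.character g then 0 else
    reg l ρ.character g
  have hf : Cls f := fun x g => by
    simp only [f, cls_char ρ x g, cls_char σ x g, cls_reg l (cls_char ρ) x g]
  have hfB : ∀ g, f g ∈ B := fun g => by
    simp only [f]
    split_ifs
    exacts [zero_mem B, reg_mem l ρ g]
  have hm := om_mem h hf hfB
  have e : ∀ g, a * b * (reg l σ.character g * σ.character g) =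
      b * b * (reg l σ.character g * ρ.character g) + (a * b + a * a * a / b) *
        (f g * ρ.character g) := fun g => by
    simp only [f, reg]
    split_ifs with h1 h2 h2
    · simp
    · simp
    · linear_combination (-b * σ.character g⁻¹) * h2
    · have h3 := (hrel g).resolve_left h2
      have h4 := congrArg (starRingEnd ℂ) h3
      simp only [ea, eb, map_mul, map_neg, map_natCast, ← char_inv] at h4
      rw [← ea, ← eb] at h4
      have h5 : σ.character g = -(a / b * ρ.character g) := by
        field_simp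
        linear_combination h3
      have h6 : σ.character g⁻¹ = -(a / b * ρ.character g⁻¹) := by
        field_simp
        linear_combination h4
      rw [h5, h6]
      field_simp
      ring
  have e2 := sum_congr rfl fun g (_ : g ∈ (univ : Finset G)) => e g
  rw [sum_add_distrib, ← mul_sum, ← mul_sum, ← mul_sum, ho] at e2
  have hrB : a / b ∈ B := (B.valuation_le_one_iff _).1 hlt.le
  refine brauer hl hv h' hz ?_
  have e3 : om σ (reg l σ.character) = ((1 + a / b * (a / b)) * om ρ f) * (a / b) := by
    rw [om, om, ← ea, ← eb]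
    field_simp
    field_simp at e2
    apply mul_left_cancel₀ ha
    linear_combination e2
  rw [e3]
  exact val_mul_lt (mul_mem (add_mem (one_mem B) (mul_mem hrB hrB)) hm) hlt

end rep

end Pool.Agent.SemiProp.HZ
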