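import Pool.Agent.Lib.MP_c1c6b6_al.HZ3

/-! Sums of a character over the regular classes: divisibility and rationality. -/

set_option autoImplicit false
set_option linter.unusedSectionVars false

open Finset Module Polynomial

namespace Pool.Agent.SemiProp.HZ

variable {G : Type} [Group G] [Fintype G]

theorem integral_trace {V : Type*} [AddCommGroup V] [Module ℂ V] [FiniteDimensional ℂ V]
    {f : End ℂ V} {k : ℕ} (hk : k ≠ 0) (hf : f ^ (k + 1) = f) :
    IsIntegral ℤ (LinearMap.trace ℂ V f) := by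
  classical
  let b := Module.finBasis ℂ V
  set Z := LinearMap.toMatrixAlgEquiv b f with hZ
  have hY : Z ^ (k + 1) = Z := by rw [hZ, ← map_pow, hf]
  rw [LinearMap.trace_eq_matrix_trace ℂ b]
  change IsIntegral ℤ Z.trace
  rw [Matrix.trace_eq_sum_roots_charpoly]
  refine IsIntegral.multiset_sum fun x hx => ?_
  have h2 := Matrix.mem_spectrum_of_isRoot_charpoly (isRoot_of_mem_roots hx)
  have h3 := spectrum.subset_polynomial_aeval Z (X ^ (k + 1) - X : ℂ[X]) ⟨x, h2, rfl⟩
  rw [map_sub, map_pow, aeval_X, hY, sub_self] at h3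
  have : Nonempty (Fin (finrank ℂ V)) := by
    by_contra hn
    rw [not_nonempty_iff] at hn
    simp [Matrix.charpoly] at hx
  rw [spectrum.zero_eq] at h3
  have h4 : x ^ (k + 1) = x := by simpa [sub_eq_zero] using h3
  rcases eq_or_ne x 0 with rfl | h0
  · exact isIntegral_zero
  · refine IsIntegral.of_pow (Nat.pos_of_ne_zero hk) ?_
    rw [mul_right_cancel₀ h0 (by rw [← pow_succ, h4, one_mul] : x ^ k * x = 1 * x)]
    exact isIntegral_one

/-- the largest subgroup of `H` normalised by `x` -/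
def nc (H : Subgroup G) (x : G) : Subgroup G where
  carrier := {h | ∀ k : ℕ, (x ^ k)⁻¹ * h * x ^ k ∈ H}
  one_mem' := fun k => by simp
  mul_mem' := fun {a b} ha hb k => by
    have := H.mul_mem (ha k) (hb k)
    simpa [mul_assoc] using this
  inv_mem' := fun {a} ha k => by
    have := H.inv_mem (ha k)
    simpa [mul_assoc] using this

variable {H : Subgroup G} {x : G}

theorem nc_le {u : G} (hu : u ∈ nc H x) : u ∈ H := by simpa using hu 0

theorem nc_cj {u : G} (hu : u ∈ nc H x) : x⁻¹ * u * x ∈ nc H x := fun k => by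
  have := hu (k + 1)
  simpa [pow_succ', mul_assoc] using this

theorem nc_move {u h w : G} (hu : u ∈ nc H x) (hh : h ∈ H) (hw : w ∈ nc H x) :
    h⁻¹ * w * h ∈ nc H (h⁻¹ * (x * u) * h) := fun k => by
  have h1 : ((x * u) ^ k)⁻¹ * w * (x * u) ^ k ∈ nc H x := by
    induction k with
    | zero => simpa using hw
    | succ k ih =>
      have := mul_mem (mul_mem (inv_mem hu) (nc_cj ih)) hu
      simpa [pow_succ, mul_assoc] using this
  have h2 : (h⁻¹ * (x * u) * h) ^ k = h⁻¹ * (x * u) ^ k * h := by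
    simpa using conj_pow (a := h⁻¹) (b := x * u) (i := k)
  have := mul_mem (mul_mem (inv_mem hh) (nc_le h1)) hh
  rw [h2]
  simpa [mul_assoc] using this

theorem nc_pow {u : G} (hu : u ∈ nc H x) (k : ℕ) : (x ^ k)⁻¹ * (x * u) ^ k ∈ nc H x := by
  induction k with
  | zero => simp
  | succ k ih =>
    have := mul_mem (nc_cj ih) hu
    simpa [pow_succ, mul_assoc] using this

theorem nc_stab {u u' w : G} (hu : u ∈ nc H x) (hu' : u' ∈ nc H x) (hw : w ∈ H)
    (e : w⁻¹ * (x * u) * w = x * u') : w ∈ nc H x := fun k => by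
  have e1 : x⁻¹ * w * x = u * w * u'⁻¹ := by
    rw [eq_mul_inv_iff_mul_eq, mul_assoc, ← e]
    group
  have : ∃ a ∈ nc H x, ∃ b ∈ nc H x, (x ^ k)⁻¹ * w * x ^ k = a * w * b := by
    induction k with
    | zero => exact ⟨1, one_mem _, 1, one_mem _, by simp⟩
    | succ k ih =>
      obtain ⟨a, ha, b, hb, h⟩ := ih
      refine ⟨_, mul_mem (nc_cj ha) hu, _, mul_mem (inv_mem hu') (nc_cj hb), ?_⟩
      calc _ = x⁻¹ * ((x ^ k)⁻¹ * w * x ^ k) * x := by rw [pow_succ]; group
        _ = x⁻¹ * a * x * (x⁻¹ * w * x) * (x⁻¹ * b * x) := by rw [h]; group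
        _ = _ := by rw [e1]; group
  obtain ⟨a, ha, b, hb, h⟩ := this
  exact h ▸ mul_mem (mul_mem (nc_le ha) hw) (nc_le hb)

/-- conjugation by `H` and translation by the part of `H` that is normalised -/
def rel (H : Subgroup G) : Setoid G where
  r x y := ∃ h ∈ H, ∃ u ∈ nc H x, y = h⁻¹ * (x * u) * h
  iseqv := by
    refine ⟨fun x => ⟨1, one_mem _, 1, one_mem _, by simp⟩, ?_, ?_⟩
    · rintro x _ ⟨h, hh, u, hu, rfl⟩
      exact ⟨h⁻¹, inv_mem hh, _, nc_move hu hh (inv_mem hu), by group⟩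
    · rintro x _ _ ⟨h, hh, u, hu, rfl⟩ ⟨h', hh', u', hu', rfl⟩
      have := nc_move (nc_move hu hh (inv_mem hu)) (inv_mem hh) hu'
      rw [show h⁻¹⁻¹ * (h⁻¹ * (x * u) * h * (h⁻¹ * u⁻¹ * h)) * h⁻¹ = x by group] at this
      exact ⟨_, mul_mem hh hh', _, mul_mem hu this, by group⟩

variable {V : Type} [AddCommGroup V] [Module ℂ V] [FiniteDimensional ℂ V]

theorem coset_sum (ρ : Representation ℂ G V) (N : Subgroup G) (x : G) [Fintype N]
    (hx : ∀ u ∈ N, x⁻¹ * u * x ∈ N) :
    ∃ z : ℂ, IsIntegral ℤ z ∧ ∑ u : N, ρ.character (x * u) = Nat.card N * z := by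
  have hN : (Nat.card N : ℂ) ≠ 0 := card_ne N
  let s : End ℂ V := ∑ u : N, ρ u
  have h1 : s * s = (Nat.card N : ℂ) • s := by
    have : ∀ u : N, ρ u * s = s := fun u => by
      rw [mul_sum]
      exact Fintype.sum_equiv (Equiv.mulLeft u) _ _ fun w => by simp
    rw [sum_mul, sum_congr rfl fun u _ => this u, sum_const, card_univ, Nat.card_eq_fintype_card,
      Nat.cast_smul_eq_nsmul]
  have h2 : s * ρ x = ρ x * s := by
    rw [sum_mul, mul_sum]
    refine Fintype.sum_bijective (fun u : N => (⟨_, hx u u.2⟩ : N)) ?_ _ _ fun u => ?_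
    · refine Finite.injective_iff_bijective.1 fun a b hab => Subtype.ext ?_
      simpa using congrArg Subtype.val hab
    · simp only [← map_mul]
      congr 1
      group
  let e : End ℂ V := (Nat.card N : ℂ)⁻¹ • s
  have h3 : e * e = e := by
    simp only [e, smul_mul_smul_comm, h1, smul_smul, mul_assoc, inv_mul_cancel₀ hN, mul_one]
  have h4 : e * ρ x = ρ x * e := by simp only [e, smul_mul_assoc, mul_smul_comm, h2]
  have h5 : ∀ n : ℕ, (ρ x * e) ^ (n + 1) = ρ (x ^ (n + 1)) * e := fun n => by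
    induction n with
    | zero => simp
    | succ n ih =>
      rw [pow_succ, ih, mul_assoc, ← mul_assoc e, h4, mul_assoc, h3, ← mul_assoc, ← map_mul,
        ← pow_succ]
  refine ⟨_, integral_trace (f := ρ x * e) (orderOf_pos x).ne'
    (by rw [h5, pow_succ, pow_orderOf_eq_one, one_mul]), ?_⟩
  simp only [e, s, mul_smul_comm, map_smul, smul_eq_mul, mul_inv_cancel_left₀ hN, mul_sum, map_sum,
    ← map_mul, Representation.character]

open Classical in
theorem class_sum_rel (ρ : Representation ℂ G V) (H : Subgroup G) (x : G) :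
    ∃ z : ℂ, IsIntegral ℤ z ∧ ∑ y with (rel H).r x y, ρ.character y = Nat.card H * z := by
  obtain ⟨z, hz, e⟩ := coset_sum ρ (nc H x) x fun _ => nc_cj
  refine ⟨z, hz, mul_left_cancel₀ (card_ne (nc H x)) ?_⟩
  let Φ : H × nc H x → G := fun p => (p.1 : G)⁻¹ * (x * p.2) * p.1
  have h1 := sum_comp (s := univ) ρ.character Φ
  have h2 : univ.image Φ = univ.filter fun y => (rel H).r x y := by
    ext y
    simp only [mem_image, mem_univ, true_and, mem_filter]
    exact ⟨fun ⟨p, hp⟩ => ⟨_, p.1.2, _, p.2.2, hp.symm⟩,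
      fun ⟨h, hh, u, hu, hy⟩ => ⟨(⟨h, hh⟩, ⟨u, hu⟩), hy.symm⟩⟩
  have h3 : ∀ y ∈ univ.image Φ, (univ.filter fun p => Φ p = y).card = Nat.card (nc H x) := by
    intro y hy
    obtain ⟨⟨h, u⟩, -, rfl⟩ := mem_image.1 hy
    rw [Nat.card_eq_fintype_card, ← card_univ]
    symm
    refine card_bij (fun w _ => (⟨w * h, mul_mem (nc_le w.2) h.2⟩,
      ⟨x⁻¹ * w * x * u * (w : G)⁻¹, mul_mem (mul_mem (nc_cj w.2) u.2) (inv_mem w.2)⟩)) ?_ ?_ ?_
    · intro w _
      simp only [mem_filter, mem_univ, true_and, Φ]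
      group
    · intro a _ b _ hab
      exact Subtype.ext (mul_right_cancel (congrArg (fun p : H × nc H x => (p.1 : G)) hab))
    · rintro ⟨h', u'⟩ hp
      have e1 : (h' : G)⁻¹ * (x * u') * h' = (h : G)⁻¹ * (x * u) * h := (mem_filter.1 hp).2
      have e2 : ((h' : G) * (h : G)⁻¹)⁻¹ * (x * u') * (h' * (h : G)⁻¹) = x * u := by
        calc _ = h * ((h' : G)⁻¹ * (x * u') * h') * (h : G)⁻¹ := by group
          _ = _ := by rw [e1]; group
      refine ⟨⟨_, nc_stab u'.2 u.2 (mul_mem h'.2 (inv_mem h.2)) e2⟩, mem_univ _,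
        Prod.ext (Subtype.ext (by simp)) (Subtype.ext ?_)⟩
      change x⁻¹ * (h' * (h : G)⁻¹) * x * u * ((h' : G) * (h : G)⁻¹)⁻¹ = u'
      rw [mul_assoc _ x, ← e2]
      group
  rw [sum_congr (s₁ := univ.image Φ) (g := fun y => Nat.card (nc H x) • ρ.character y) rfl
    fun y hy => by rw [h3 y hy], h2, ← smul_sum, nsmul_eq_mul, Fintype.sum_prod_type] at h1
  rw [← h1]
  simp only [Φ, cls_char ρ _ _, e]
  rw [sum_const, card_univ, nsmul_eq_mul, ← Nat.card_eq_fintype_card]
  ring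

theorem frobenius {l : ℕ} (hl : l.Prime) (ρ : Representation ℂ G V) (hH : ¬ l ∣ Nat.card H) :
    ∃ z : ℂ, IsIntegral ℤ z ∧ ∑ g with ¬ l ∣ orderOf g, ρ.character g = Nat.card H * z := by
  classical
  have hS : ∀ x y, (rel H).r x y → ¬ l ∣ orderOf x → ¬ l ∣ orderOf y := by
    rintro x _ ⟨h, hh, u, hu, rfl⟩ hx hy
    rw [orderOf_cj] at hy
    have h1 := nc_le (nc_pow hu (orderOf x))
    rw [pow_orderOf_eq_one, inv_one, one_mul] at h1
    have h2 : (x * u) ^ (orderOf x * Nat.card H) = 1 := by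
      rw [pow_mul]
      exact congrArg Subtype.val (pow_card_eq_one' (x := (⟨_, h1⟩ : H)))
    exact ((Nat.Prime.dvd_mul hl).1 (hy.trans (orderOf_dvd_of_pow_eq_one h2))).elim hx hH
  rw [sum_partition (rel H)]
  refine sum_induction _ (fun s => ∃ z : ℂ, IsIntegral ℤ z ∧ s = Nat.card H * z) ?_
    ⟨0, isIntegral_zero, by simp⟩ fun q hq => ?_
  · rintro _ _ ⟨a, ha, rfl⟩ ⟨b, hb, rfl⟩
    exact ⟨a + b, ha.add hb, by ring⟩
  · obtain ⟨x, hx, rfl⟩ := mem_image.1 hq
    obtain ⟨z, hz, e⟩ := class_sum_rel ρ H x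
    refine ⟨z, hz, e ▸ sum_congr ?_ fun _ _ => rfl⟩
    ext y
    simp only [mem_filter, mem_univ, true_and, Quotient.eq] at hx ⊢
    exact ⟨fun h => (rel H).symm h.2, fun h => ⟨hS x y h hx, (rel H).symm h⟩⟩

theorem rational (l : ℕ) {θ : G → ℂ} (h : ∀ C : Subgroup G, sm C θ ∈ (⊥ : Subring ℂ)) :
    ∑ g with ¬ l ∣ orderOf g, θ g ∈ (⊥ : Subring ℂ) := by
  classical
  have := Fintype.ofFinite (Subgroup G)
  have split : ∀ (p : Subgroup G → Prop) [DecidablePred p], ∑ g with p (Subgroup.zpowers g), θ g =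
      ∑ D with p D, ∑ g with Subgroup.zpowers g = D, θ g := fun p _ => by
    rw [← sum_fiberwise_of_maps_to (t := univ.filter p) (g := Subgroup.zpowers) (by simp)]
    refine sum_congr rfl fun D hD => sum_congr ?_ fun _ _ => rfl
    ext g
    simp only [mem_filter, mem_univ, true_and] at hD ⊢
    exact ⟨fun h => h.2, fun h => ⟨h ▸ hD, h⟩⟩
  have key : ∀ C : Subgroup G, ∑ g with Subgroup.zpowers g = C, θ g ∈ (⊥ : Subring ℂ) := by
    intro C
    induction C using WellFoundedLT.induction with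
    | _ C ih =>
    have h1 := split (· ≤ C)
    rw [← add_sum_erase _ _ (a := C) (by simp)] at h1
    have h2 : ∑ g with Subgroup.zpowers g ≤ C, θ g = sm C θ :=
      sum_congr (filter_congr fun g _ => Subgroup.zpowers_le) fun _ _ => rfl
    rw [← add_sub_cancel_right (∑ g with Subgroup.zpowers g = C, θ g) _, ← h1]
    refine sub_mem (h2 ▸ h C) (sum_mem fun D hD => ih D ?_)
    simpa [lt_iff_le_and_ne, and_comm] using hD
  have h3 := split fun D => ¬ l ∣ Nat.card D
  have h4 : ∑ g with ¬ l ∣ orderOf g, θ g = ∑ g with ¬ l ∣ Nat.card (Subgroup.zpowers g), θ g :=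
    sum_congr (filter_congr fun g _ => by rw [Nat.card_zpowers]) fun _ _ => rfl
  rw [h4, h3]
  exact sum_mem fun D _ => key D

end Pool.Agent.SemiProp.HZ
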