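import Pool.Agent.Lib.MP_c1c6b6_al.Trace

set_option autoImplicit false

open Module Finset

namespace Pool.Agent.SemiProp

variable {V : Type*} [AddCommGroup V] [Module ℂ V] [FiniteDimensional ℂ V]
variable {G : Type*} [Group G]

/-- Elementary form of irreducibility. -/
structure Irr (ρ : Representation ℂ G V) : Prop where
  nontriv : Nontrivial V
  inv : ∀ U : Submodule ℂ V, (∀ g v, v ∈ U → ρ g v ∈ U) → U = ⊥ ∨ U = ⊤

omit [FiniteDimensional ℂ V] in
theorem Irr.isIrreducible {ρ : Representation ℂ G V} (h : Irr ρ) : ρ.IsIrreducible := by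
  have := h.nontriv
  have hnt : Nontrivial (Subrepresentation ρ) := by
    refine ⟨⊥, ⊤, fun hh => ?_⟩
    have h1 := congrArg Subrepresentation.toSubmodule hh
    exact bot_ne_top (α := Submodule ℂ V) h1
  refine ⟨fun U => ?_⟩
  rcases h.inv U.toSubmodule (fun g v hv => U.apply_mem_toSubmodule g hv) with h1 | h1
  · left; exact Subrepresentation.toSubmodule_injective h1
  · right; exact Subrepresentation.toSubmodule_injective h1

theorem Irr.finrank_pos {ρ : Representation ℂ G V} (h : Irr ρ) : 0 < finrank ℂ V := by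
  have := h.nontriv
  exact Module.finrank_pos

theorem Irr.schur {ρ : Representation ℂ G V} (h : Irr ρ) (T : End ℂ V)
    (hT : ∀ g, ρ g * T = T * ρ g) : ∃ c : ℂ, T = c • (1 : End ℂ V) := by
  have := h.nontriv
  obtain ⟨c, hc⟩ := Module.End.exists_eigenvalue T
  refine ⟨c, ?_⟩
  rcases h.inv (T.eigenspace c) (by
    intro g v hv
    rw [Module.End.mem_eigenspace_iff] at hv ⊢
    have := congrArg (fun S : End ℂ V => S v) (hT g)
    simp only [Module.End.mul_apply] at this
    rw [← this, hv, map_smul]) with h1 | h1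
  · exact absurd h1 hc
  · ext v
    have hv : v ∈ T.eigenspace c := h1 ▸ Submodule.mem_top
    simpa using Module.End.mem_eigenspace_iff.mp hv

variable [Fintype G]

theorem Irr.sum_norm {ρ : Representation ℂ G V} (h : Irr ρ) :
    ∑ g, ρ.character g * ρ.character g⁻¹ = Fintype.card G := by
  have := h.isIrreducible
  have hc : (Nat.card G : ℂ) ≠ 0 := by exact_mod_cast Nat.card_pos.ne'
  have : Invertible (Nat.card G : ℂ) := invertibleOfNonzero hc
  have h1 := Representation.char_orthonormal ρ ρ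
  rw [if_pos ⟨Representation.Equiv.refl ρ⟩, inv_mul_eq_one₀ hc] at h1
  rw [← h1, Nat.card_eq_fintype_card]

theorem Irr.class_sum {ρ : Representation ℂ G V} (h : Irr ρ) (x : G) :
    ∑ g, ρ (g⁻¹ * x * g) =
      ((Fintype.card G : ℂ) * ρ.character x / finrank ℂ V) • (1 : End ℂ V) := by
  obtain ⟨c, hc⟩ := h.schur (∑ g, ρ (g⁻¹ * x * g)) (by
    intro s
    rw [Finset.mul_sum, Finset.sum_mul]
    refine Fintype.sum_equiv (Equiv.mulRight s⁻¹) _ _ fun g => ?_
    simp only [Equiv.coe_mulRight, ← map_mul]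
    congr 1
    group)
  have hd : (finrank ℂ V : ℂ) ≠ 0 := by exact_mod_cast h.finrank_pos.ne'
  have ht := congrArg (LinearMap.trace ℂ V) hc
  rw [map_sum, map_smul, LinearMap.trace_one, smul_eq_mul] at ht
  have h2 : ∀ g : G, LinearMap.trace ℂ V (ρ (g⁻¹ * x * g)) = ρ.character x := by
    intro g
    have := ρ.char_conj x g⁻¹
    rwa [inv_inv] at this
  simp_rw [h2] at ht
  rw [Finset.sum_const, card_univ, nsmul_eq_mul] at ht
  rw [hc, ht]
  congr 1
  field_simp

omit [FiniteDimensional ℂ V] in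
open Classical in
/-- Sum of an irreducible representation over a normal subgroup acting non-trivially. -/
theorem Irr.sum_normal {ρ : Representation ℂ G V} (h : Irr ρ) (N : Subgroup G) (hN : N.Normal)
    (hx : ∃ x ∈ N, ρ x ≠ 1) : ∑ n : N, ρ n = 0 := by
  let U : Submodule ℂ V :=
    { carrier := {v | ∀ n ∈ N, ρ n v = v}
      add_mem' := fun {a b} ha hb n hn => by rw [map_add, ha n hn, hb n hn]
      zero_mem' := fun n _ => map_zero _
      smul_mem' := fun c {a} ha n hn => by rw [map_smul, ha n hn] }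
  rcases h.inv U (by
    intro g v hv n hn
    have h1 := hv (g⁻¹ * n * g) (by simpa using hN.conj_mem n hn g⁻¹)
    have h2 : n * g = g * (g⁻¹ * n * g) := by group
    rw [← Module.End.mul_apply, ← map_mul, h2, map_mul, Module.End.mul_apply, h1]) with h1 | h1
  · ext v
    have hv : (∑ n : N, ρ n) v ∈ U := by
      intro m hm
      rw [← Module.End.mul_apply, Finset.mul_sum]
      congr 1
      refine Fintype.sum_equiv (Equiv.mulLeft (⟨m, hm⟩ : N)) _ _ fun n => ?_
      simp
    rw [h1] at hv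
    simpa using hv
  · obtain ⟨x, hxN, hx⟩ := hx
    exfalso
    apply hx
    ext v
    have hv : v ∈ U := h1 ▸ Submodule.mem_top
    exact hv x hxN

/-- The elements whose image commutes with the image of `B`. -/
def cen (ρ : Representation ℂ G V) (B : Subgroup G) : Subgroup G where
  carrier := {g | ∀ b ∈ B, ρ g * ρ b = ρ b * ρ g}
  one_mem' := fun b _ => by simp
  mul_mem' := fun {x y} hx hy b hb => by
    rw [map_mul, mul_assoc, hy b hb, ← mul_assoc, hx b hb, mul_assoc]
  inv_mem' := fun {x} hx b hb => by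
    have h1 : ρ x⁻¹ * ρ x = 1 := by rw [← map_mul, inv_mul_cancel, map_one]
    have h2 : ρ x * ρ x⁻¹ = 1 := by rw [← map_mul, mul_inv_cancel, map_one]
    calc ρ x⁻¹ * ρ b = ρ x⁻¹ * ρ b * (ρ x * ρ x⁻¹) := by rw [h2, mul_one]
      _ = ρ x⁻¹ * (ρ x * ρ b) * ρ x⁻¹ := by rw [hx b hb]; simp only [mul_assoc]
      _ = ρ b * ρ x⁻¹ := by rw [← mul_assoc, h1, one_mul]

omit [FiniteDimensional ℂ V] [Fintype G] in
theorem mem_cen {ρ : Representation ℂ G V} {B : Subgroup G} {g : G} :
    g ∈ cen ρ B ↔ ∀ b ∈ B, ρ g * ρ b = ρ b * ρ g := Iff.rfl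

omit [Fintype G] in
theorem normal_of_commutator_le {B : Subgroup G} (hB : commutator G ≤ B) : B.Normal := by
  refine ⟨fun b hb g => ?_⟩
  have h1 : g * b * g⁻¹ * b⁻¹ ∈ B :=
    hB (Subgroup.commutator_mem_commutator (Subgroup.mem_top g) (Subgroup.mem_top b))
  simpa using B.mul_mem h1 hb

open Classical in
theorem Irr.avg_comm {ρ : Representation ℂ G V} (h : Irr ρ) {B : Subgroup G}
    (hB : commutator G ≤ B) (hc : ∀ b ∈ B, ∀ b' ∈ B, ρ b * ρ b' = ρ b' * ρ b) {g : G}
    (hg : g ∉ cen ρ B) : ∑ b : B, ρ (g⁻¹ * b * g * (b : G)⁻¹) = 0 := by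
  have hN := normal_of_commutator_le hB
  have hconj : ∀ s : G, ∀ b ∈ B, s⁻¹ * b * s ∈ B := fun s b hb => by
    simpa using hN.conj_mem b hb s⁻¹
  let U : Submodule ℂ V :=
    { carrier := {v | ∀ b ∈ B, ρ (g⁻¹ * b * g) v = ρ b v}
      add_mem' := fun {a b} ha hb n hn => by rw [map_add, map_add, ha n hn, hb n hn]
      zero_mem' := fun n _ => by simp
      smul_mem' := fun c {a} ha n hn => by rw [map_smul, map_smul, ha n hn] }
  rcases h.inv U (by
    intro s v hv b hb
    have hcm : g⁻¹ * s⁻¹ * g * s ∈ B := by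
      have := hB (Subgroup.commutator_mem_commutator (Subgroup.mem_top g⁻¹) (Subgroup.mem_top s⁻¹))
      simpa [commutatorElement_def] using this
    have h1 := hv (s⁻¹ * b * s) (hconj s b hb)
    have h2 := hc _ hcm _ (hconj g _ (hconj s b hb))
    have h3 : ρ (g⁻¹ * b * g) * ρ s = ρ s * ρ (g⁻¹ * (s⁻¹ * b * s) * g) := by
      have h4 : ρ (g⁻¹ * s⁻¹ * g * s)⁻¹ * ρ (g⁻¹ * s⁻¹ * g * s) = 1 := by
        rw [← map_mul, inv_mul_cancel, map_one]
      calc ρ (g⁻¹ * b * g) * ρ s
          = ρ s * (ρ (g⁻¹ * s⁻¹ * g * s)⁻¹ *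
            (ρ (g⁻¹ * (s⁻¹ * b * s) * g) * ρ (g⁻¹ * s⁻¹ * g * s))) := by
            simp only [← map_mul]; congr 1; group
        _ = _ := by rw [← h2, ← mul_assoc (ρ (g⁻¹ * s⁻¹ * g * s)⁻¹), h4, one_mul]
    rw [← Module.End.mul_apply, h3, Module.End.mul_apply, h1, ← Module.End.mul_apply,
      ← Module.End.mul_apply, ← map_mul, ← map_mul]
    congr 2
    group) with h1 | h1
  · ext v
    have hv : (∑ b : B, ρ (g⁻¹ * b * g * (b : G)⁻¹)) v ∈ U := by
      intro m hm
      rw [← Module.End.mul_apply, ← Module.End.mul_apply, Finset.mul_sum, Finset.mul_sum]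
      congr 1
      refine Fintype.sum_equiv (Equiv.mulLeft (⟨m, hm⟩ : B)) _ _ fun n => ?_
      simp only [Equiv.coe_mulLeft, Subgroup.coe_mul]
      have h5 := hc m hm (g⁻¹ * (m * n) * g * (n : G)⁻¹)
        (B.mul_mem (hconj g _ (B.mul_mem hm n.2)) (B.inv_mem n.2))
      have h6 : g⁻¹ * (m * n) * g * (m * n : G)⁻¹ = g⁻¹ * (m * n) * g * (n : G)⁻¹ * m⁻¹ := by group
      rw [h6, map_mul ρ _ m⁻¹, ← mul_assoc (ρ m), h5, mul_assoc _ (ρ m), ← map_mul ρ m,
        mul_inv_cancel, map_one, mul_one, ← map_mul]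
      congr 1
      group
    rw [h1] at hv
    simpa using hv
  · exfalso
    apply hg
    intro b hb
    have h2 : ρ (g⁻¹ * b * g) = ρ b := by
      ext v
      have hv : v ∈ U := h1 ▸ Submodule.mem_top
      exact hv b hb
    rw [← h2, ← map_mul, h2, ← map_mul]
    congr 1
    group

theorem Irr.char_eq_zero {ρ : Representation ℂ G V} (h : Irr ρ) {B : Subgroup G}
    (hB : commutator G ≤ B) (hc : ∀ b ∈ B, ∀ b' ∈ B, ρ b * ρ b' = ρ b' * ρ b) {g : G}
    (hg : g ∉ cen ρ B) : ρ.character g = 0 := by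
  classical
  have h1 := congrArg (fun T => LinearMap.trace ℂ V (ρ g * T)) (h.avg_comm hB hc hg)
  simp only [Finset.mul_sum, map_sum, mul_zero, map_zero, ← map_mul] at h1
  have h2 : ∀ b : B, LinearMap.trace ℂ V (ρ (g * (g⁻¹ * b * g * (b : G)⁻¹))) = ρ.character g := by
    intro b
    rw [← ρ.char_conj g b]
    congr 2
    group
  simp_rw [h2] at h1
  rw [Finset.sum_const, nsmul_eq_mul] at h1
  refine (mul_eq_zero.mp h1).resolve_left ?_
  exact_mod_cast Fintype.card_ne_zero

theorem Irr.count {ρ : Representation ℂ G V} (h : Irr ρ) {B : Subgroup G}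
    (hB : commutator G ≤ B) (hc : ∀ b ∈ B, ∀ b' ∈ B, ρ b * ρ b' = ρ b' * ρ b)
    (h0 : ∀ g, g ∉ B → ρ.character g = 0) :
    Nat.card (cen ρ B) * Nat.card B * finrank ℂ V ^ 2 = Nat.card G ^ 2 := by
  classical
  have hd : (finrank ℂ V : ℂ) ≠ 0 := by exact_mod_cast h.finrank_pos.ne'
  have hS1 : ∑ g : G, ∑ b : B, ρ.character (g⁻¹ * b * g * (b : G)⁻¹) =
      Nat.card (cen ρ B) * (Nat.card B * finrank ℂ V) := by
    have h1 : ∀ g : G, ∑ b : B, ρ.character (g⁻¹ * b * g * (b : G)⁻¹) =
        if g ∈ cen ρ B then (Nat.card B * finrank ℂ V : ℂ) else 0 := by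
      intro g
      split_ifs with hg
      · have h2 : ∀ b : B, ρ.character (g⁻¹ * b * g * (b : G)⁻¹) = finrank ℂ V := by
          intro b
          have h3 : ρ (g⁻¹ * b * g * (b : G)⁻¹) = 1 := by
            rw [map_mul, map_mul, map_mul, mul_assoc (ρ g⁻¹), ← hg b b.2, ← mul_assoc, ← map_mul,
              ← map_mul, ← map_mul]
            simp
          rw [Representation.character, h3, LinearMap.trace_one]
        simp_rw [h2]
        rw [Finset.sum_const, card_univ, nsmul_eq_mul, Nat.card_eq_fintype_card]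
      · have h2 := congrArg (LinearMap.trace ℂ V) (h.avg_comm hB hc hg)
        rw [map_sum, map_zero] at h2
        exact h2
    simp_rw [h1]
    rw [← Finset.sum_filter, Finset.sum_const, nsmul_eq_mul]
    congr 1
    rw [Nat.card_eq_fintype_card, Fintype.card_subtype]
  have hS2 : ∑ g : G, ∑ b : B, ρ.character (g⁻¹ * b * g * (b : G)⁻¹) =
      Nat.card G / finrank ℂ V * Nat.card G := by
    rw [Finset.sum_comm]
    have h1 : ∀ b : B, ∑ g : G, ρ.character (g⁻¹ * b * g * (b : G)⁻¹) =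
        Nat.card G / finrank ℂ V * (ρ.character b * ρ.character (b : G)⁻¹) := by
      intro b
      have h2 := congrArg (fun T => LinearMap.trace ℂ V (T * ρ (b : G)⁻¹)) (h.class_sum b)
      simp only [Finset.sum_mul, map_sum, smul_mul_assoc, one_mul, map_smul, smul_eq_mul,
        ← map_mul] at h2
      rw [Nat.card_eq_fintype_card]
      refine h2.trans ?_
      simp only [Representation.character]
      ring
    simp_rw [h1]
    rw [← Finset.mul_sum]
    congr 1
    rw [Nat.card_eq_fintype_card, ← h.sum_norm]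
    rw [← Finset.sum_subtype (univ.filter (· ∈ B)) (by simp)
      (fun g => ρ.character g * ρ.character g⁻¹), Finset.sum_filter]
    refine Finset.sum_congr rfl fun g _ => ?_
    split_ifs with hg
    · rfl
    · rw [h0 g hg, zero_mul]
  have h3 : ((Nat.card (cen ρ B) * Nat.card B * finrank ℂ V ^ 2 : ℕ) : ℂ) =
      ((Nat.card G ^ 2 : ℕ) : ℂ) := by
    push_cast
    rw [hS2] at hS1
    field_simp at hS1
    linear_combination -hS1
  exact_mod_cast h3

end Pool.Agent.SemiProp
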