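import Pool.Agent.Lib.MP_c1c6b6_al.Core

set_option autoImplicit false

open Module Finset

namespace Pool.Agent.SemiProp

variable {V : Type*} [AddCommGroup V] [Module ℂ V] [FiniteDimensional ℂ V]
variable {W : Type*} [AddCommGroup W] [Module ℂ W] [FiniteDimensional ℂ W]
variable {G : Type*} [Group G] [Fintype G]

theorem core_faithful (hG : ∀ x ∈ commutator G, ∀ y ∈ commutator G, x * y = y * x)
    {ρ : Representation ℂ G V} {σ : Representation ℂ G W} (hρ : Irr ρ) (hσ : Irr σ)
    (hf : Function.Injective ρ) (hlt : finrank ℂ W < finrank ℂ V)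
    (hrel : ∀ g, (finrank ℂ W : ℂ) * ρ.character g = finrank ℂ V * σ.character g ∨
      (finrank ℂ V : ℂ) * ρ.character g = -(finrank ℂ W * σ.character g)) : False := by
  classical
  have hV : (finrank ℂ V : ℂ) ≠ 0 := by exact_mod_cast hρ.finrank_pos.ne'
  have hW : (finrank ℂ W : ℂ) ≠ 0 := by exact_mod_cast hσ.finrank_pos.ne'
  obtain ⟨A, hA, hAc, hAm⟩ := exists_selfCentralizing hG
  have hAN := normal_of_commutator_le hA
  have hcρ : ∀ b ∈ A, ∀ b' ∈ A, ρ b * ρ b' = ρ b' * ρ b := fun b hb b' hb' => by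
    rw [← map_mul, hAc b hb b' hb', map_mul]
  have hcσ : ∀ b ∈ A, ∀ b' ∈ A, σ b * σ b' = σ b' * σ b := fun b hb b' hb' => by
    rw [← map_mul, hAc b hb b' hb', map_mul]
  have hcenρ : cen ρ A = A := by
    apply le_antisymm
    · intro g hg
      refine hAm g fun x hx => hf ?_
      rw [map_mul, map_mul, hg x hx]
    · intro g hg b hb
      exact hcρ g hg b hb
  have hφ0 : ∀ g, g ∉ A → ρ.character g = 0 := fun g hg =>
    hρ.char_eq_zero hA hcρ (by rwa [hcenρ])
  have hψ0 : ∀ g, g ∉ A → σ.character g = 0 := by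
    intro g hg
    rcases hrel g with h | h
    · rw [hφ0 g hg, mul_zero] at h
      exact (mul_eq_zero.mp h.symm).resolve_left hV
    · rw [hφ0 g hg, mul_zero, zero_eq_neg] at h
      exact (mul_eq_zero.mp h).resolve_left hW
  have c1 := hρ.count hA hcρ hφ0
  rw [hcenρ] at c1
  set J := cen σ A with hJ
  have c2 := hσ.count hA hcσ hψ0
  rw [← hJ] at c2
  have hAJ : A ≤ J := fun g hg b hb => hcσ g hg b hb
  have hApos : 0 < Nat.card A := Nat.card_pos
  have hJpos : 0 < Nat.card J := Nat.card_pos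
  -- the index of `A` in `J`
  obtain ⟨r, hr⟩ : ∃ r, r = A.relIndex J := ⟨_, rfl⟩
  have hrJ : Nat.card J = Nat.card A * r := by
    rw [hr, Subgroup.relIndex, ← (A.subgroupOf J).card_mul_index,
      Nat.card_congr (Subgroup.subgroupOfEquivOfLe hAJ).toEquiv]
  have hrd : r * finrank ℂ W ^ 2 = finrank ℂ V ^ 2 := by
    have h1 : Nat.card A * Nat.card A * (r * finrank ℂ W ^ 2) =
        Nat.card A * Nat.card A * finrank ℂ V ^ 2 := by
      rw [c1, ← c2, hrJ]; ring
    exact Nat.eq_of_mul_eq_mul_left (Nat.mul_pos hApos hApos) h1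
  have hr1 : r ≠ 1 := by
    rintro rfl
    rw [one_mul] at hrd
    have := Nat.pow_lt_pow_left hlt two_ne_zero
    omega
  have hpowJ : ∀ x ∈ J, x ^ r ∈ A := by
    intro x hx
    have := (A.subgroupOf J).pow_index_mem (⟨x, hx⟩ : J)
    rw [Subgroup.mem_subgroupOf] at this
    rw [hr]
    exact this
  set N := MonoidHom.ker σ with hN
  have hNn : N.Normal := inferInstance
  have hNA : N ≤ A := by
    intro n hn
    by_contra h
    have h1 := hψ0 n h
    rw [Representation.character, MonoidHom.mem_ker.mp hn, LinearMap.trace_one] at h1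
    exact hW h1
  have hcard : ∀ N' : Subgroup G, N'.Normal → N' ≤ N → N' ≠ ⊥ → Nat.card N' = r + 1 := by
    intro N' hN' hle hne
    have hx : ∃ x ∈ N', ρ x ≠ 1 := by
      obtain ⟨x, hx, hx1⟩ := (Subgroup.bot_or_exists_ne_one N').resolve_left hne
      exact ⟨x, hx, fun h => hx1 (hf (by rw [h, map_one]))⟩
    have h1 := congrArg (LinearMap.trace ℂ V) (hρ.sum_normal N' hN' hx)
    rw [map_sum, map_zero] at h1
    have h2 : ∀ n : N', (finrank ℂ V : ℂ) * LinearMap.trace ℂ V (ρ n) =
        -(finrank ℂ W : ℂ) ^ 2 +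
          if n = 1 then (finrank ℂ V : ℂ) ^ 2 + (finrank ℂ W : ℂ) ^ 2 else 0 := by
      intro n
      split_ifs with hn
      · subst hn
        simp only [OneMemClass.coe_one, map_one, LinearMap.trace_one]
        ring
      · have h3 : σ.character n = finrank ℂ W := by
          rw [Representation.character, MonoidHom.mem_ker.mp (hle n.2), LinearMap.trace_one]
        rcases hrel n with h | h
        · exfalso
          apply hn
          rw [h3, mul_comm (finrank ℂ V : ℂ)] at h
          have h4 := eq_one_of_char_eq ρ n (mul_left_cancel₀ hW h)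
          exact Subtype.ext (hf (by rw [h4]; simp))
        · rw [h3] at h
          rw [add_zero, sq]
          exact h
    have h3 := congrArg (fun t => (finrank ℂ V : ℂ) * t) h1
    simp only [Finset.mul_sum, h2, mul_zero, Finset.sum_add_distrib, Finset.sum_const, card_univ,
      Finset.sum_ite_eq', mem_univ, if_true, nsmul_eq_mul] at h3
    have h4 : ((r * finrank ℂ W ^ 2 : ℕ) : ℂ) = ((finrank ℂ V ^ 2 : ℕ) : ℂ) := by rw [hrd]
    push_cast at h4
    have h5 : ((Fintype.card N' : ℂ) - (r + 1)) * (finrank ℂ W : ℂ) ^ 2 = 0 := by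
      linear_combination -h3 - h4
    have h6 := (mul_eq_zero.mp h5).resolve_right (pow_ne_zero _ hW)
    rw [Nat.card_eq_fintype_card]
    have h7 : (Fintype.card N' : ℂ) = ((r + 1 : ℕ) : ℂ) := by push_cast; linear_combination h6
    exact_mod_cast h7
  have hcomm : ∀ x ∈ J, ∀ b ∈ A, x⁻¹ * b * x * b⁻¹ ∈ N := by
    intro x hx b hb
    rw [hN, MonoidHom.mem_ker, map_mul, map_mul, map_mul, mul_assoc (σ x⁻¹), ← hx b hb,
      ← mul_assoc, ← map_mul, ← map_mul, ← map_mul]
    simp
  have hN0 : N ≠ ⊥ := by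
    intro h0
    apply hr1
    have hJA : J ≤ A := by
      intro x hx
      refine hAm x fun b hb => ?_
      have := hcomm x hx b hb
      rw [h0, Subgroup.mem_bot] at this
      calc x * b = x * (x⁻¹ * b * x * b⁻¹) * b := by rw [this, mul_one]
        _ = b * x := by group
    rw [hr, Subgroup.relIndex_eq_one]
    exact hJA
  have hcN := hcard N hNn le_rfl hN0
  have hmin : ∀ N' : Subgroup G, N'.Normal → N' ≤ N → N' = ⊥ ∨ N' = N := by
    intro N' hN' hle
    by_cases h : N' = ⊥
    · exact Or.inl h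
    · right
      exact Subgroup.eq_of_le_of_card_ge hle (by rw [hcN, hcard N' hN' hle h])
  have hker : ∀ x ∈ J, (∀ n ∈ N, x * n = n * x) → x ∈ A := by
    intro x hx hxN
    have h1 : x ^ (r + 1) ∈ A := by
      refine hAm _ fun b hb => ?_
      have hc := hcomm x hx b hb
      set c := x⁻¹ * b * x * b⁻¹ with hcdef
      have hxc : Commute x c := hxN c hc
      have h2 : ∀ k : ℕ, b * x ^ k = x ^ k * c ^ k * b := by
        intro k
        induction k with
        | zero => simp
        | succ k ih =>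
          have h3 : b * x = x * c * b := by rw [hcdef]; group
          rw [pow_succ, ← mul_assoc, ih, mul_assoc, h3, pow_succ c, ← mul_assoc, ← mul_assoc,
            mul_assoc (x ^ k), ← (hxc.pow_right k).eq]
          simp only [mul_assoc]
      have h4 : c ^ (r + 1) = 1 := by
        have := pow_card_eq_one' (x := (⟨c, hc⟩ : N))
        rw [hcN] at this
        exact congrArg Subtype.val this
      rw [h2, h4, mul_one]
    have h2 := A.mul_mem h1 (A.inv_mem (hpowJ x hx))
    simpa [pow_succ'] using h2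
  obtain ⟨x, hxJ, hgen⟩ := exists_generator A J N hA hNA hAc hNn hN0 hmin hker
  -- the centre of `J` modulo `N`
  set B := J ⊓ cen σ J with hB
  have hAB : A ≤ B := fun a ha => ⟨hAJ ha, fun j hj => (hj a ha).symm⟩
  have hcB : ∀ b ∈ B, ∀ b' ∈ B, σ b * σ b' = σ b' * σ b := fun b hb b' hb' => hb.2 b' hb'.1
  have c3 := hσ.count (hA.trans hAB) hcB (fun g hg => hψ0 g fun h => hg (hAB h))
  have hcenB : cen σ B = J := by
    apply le_antisymm
    · intro g hg a ha
      exact hg a (hAB ha)
    · intro g hg b hb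
      exact (hb.2 g hg).symm
  rw [hcenB, ← c2] at c3
  have hBA : A = B := by
    refine Subgroup.eq_of_le_of_card_ge hAB (le_of_eq ?_)
    have hWpos : 0 < finrank ℂ W ^ 2 := pow_pos hσ.finrank_pos 2
    exact Nat.eq_of_mul_eq_mul_left hJpos (Nat.eq_of_mul_eq_mul_right hWpos c3)
  have hxB : x ∈ B := by
    refine ⟨hxJ, fun y hy => ?_⟩
    obtain ⟨k, hk⟩ := hgen y hy
    have h1 : y = x ^ k * ((x ^ k)⁻¹ * y) := by group
    have h2 : σ x * σ (x ^ k) = σ (x ^ k) * σ x := by
      rw [← map_mul, ← map_mul, (Commute.self_zpow x k).eq]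
    rw [h1, map_mul, ← mul_assoc, h2, mul_assoc, hxJ _ hk, mul_assoc]
  apply hr1
  rw [hr, Subgroup.relIndex_eq_one]
  intro y hy
  obtain ⟨k, hk⟩ := hgen y hy
  have := A.mul_mem (A.zpow_mem (hBA ▸ hxB) k) hk
  simpa using this

theorem core {ρ : Representation ℂ G V} {σ : Representation ℂ G W} (hρ : Irr ρ) (hσ : Irr σ)
    (hG : ∀ x ∈ commutator G, ∀ y ∈ commutator G, ρ x * ρ y = ρ y * ρ x)
    (hlt : finrank ℂ W < finrank ℂ V)
    (hrel : ∀ g, (finrank ℂ W : ℂ) * ρ.character g = finrank ℂ V * σ.character g ∨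
      (finrank ℂ V : ℂ) * ρ.character g = -(finrank ℂ W * σ.character g)) : False := by
  classical
  have hV : (finrank ℂ V : ℂ) ≠ 0 := by exact_mod_cast hρ.finrank_pos.ne'
  have hK : MonoidHom.ker ρ ≤ MonoidHom.ker σ := by
    intro g hg
    have h1 : ρ.character g = finrank ℂ V := by
      rw [Representation.character, MonoidHom.mem_ker.mp hg, LinearMap.trace_one]
    rcases hrel g with h | h
    · rw [h1, mul_comm] at h
      exact eq_one_of_char_eq σ g (mul_left_cancel₀ hV h).symm
    · exfalso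
      have h2 := congrArg norm h
      rw [h1, norm_neg, norm_mul, norm_mul, Complex.norm_natCast, Complex.norm_natCast] at h2
      have h3 := norm_char_le σ g
      have h4 : (finrank ℂ W : ℝ) < finrank ℂ V := by exact_mod_cast hlt
      have h5 : (0 : ℝ) ≤ finrank ℂ W := by positivity
      nlinarith
  let ρ' : Representation ℂ (G ⧸ MonoidHom.ker ρ) V := QuotientGroup.lift _ ρ le_rfl
  let σ' : Representation ℂ (G ⧸ MonoidHom.ker ρ) W := QuotientGroup.lift _ σ hK
  have hinj : Function.Injective ρ' := by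
    intro a b hab
    obtain ⟨a, rfl⟩ := QuotientGroup.mk_surjective a
    obtain ⟨b, rfl⟩ := QuotientGroup.mk_surjective b
    rw [QuotientGroup.eq, MonoidHom.mem_ker, map_mul]
    have : ρ a = ρ b := hab
    rw [← this, ← map_mul, inv_mul_cancel, map_one]
  have := Fintype.ofFinite (G ⧸ MonoidHom.ker ρ)
  refine core_faithful (ρ := ρ') (σ := σ') ?_
    ⟨hρ.nontriv, fun U hU => hρ.inv U fun g => hU (QuotientGroup.mk g)⟩
    ⟨hσ.nontriv, fun U hU => hσ.inv U fun g => hU (QuotientGroup.mk g)⟩ hinj hlt ?_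
  · have hmap : commutator (G ⧸ MonoidHom.ker ρ) =
        (commutator G).map (QuotientGroup.mk' (MonoidHom.ker ρ)) := by
      rw [commutator, commutator, Subgroup.map_commutator,
        Subgroup.map_top_of_surjective _ (QuotientGroup.mk'_surjective _)]
    rw [hmap]
    rintro _ ⟨x, hx, rfl⟩ _ ⟨y, hy, rfl⟩
    apply hinj
    rw [map_mul, map_mul]
    exact hG x hx y hy
  · intro g
    obtain ⟨g, rfl⟩ := QuotientGroup.mk_surjective g
    exact hrel g

/-- The two proportionality constants of a semiproportional pair. -/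
theorem ratio (φ ψ : G → ℂ) (a : ℝ) (ha : 0 < a) (M : Set G) (h1 : (1 : G) ∈ M) (hψ1 : ψ 1 ≠ 0)
    (hM : ∀ g ∈ M, φ g = a * ψ g)
    (hM' : ∃ α β : ℂ, (α ≠ 0 ∨ β ≠ 0) ∧ ∀ g, g ∉ M → α * φ g = β * ψ g)
    (horth : ∑ g, φ g * (starRingEnd ℂ) (ψ g) = 0)
    (hnorm : ∑ g, φ g * (starRingEnd ℂ) (φ g) = ∑ g, ψ g * (starRingEnd ℂ) (ψ g)) :
    ∀ g, g ∉ M → a * φ g = -ψ g := by
  classical
  obtain ⟨α, β, hαβ, hM'⟩ := hM'
  set x : ℝ := ∑ g ∈ univ.filter (· ∈ M), Complex.normSq (ψ g) with hx
  set y : ℝ := ∑ g ∈ univ.filter (· ∉ M), Complex.normSq (ψ g) with hy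
  have hxpos : 0 < x := by
    refine Finset.sum_pos' (fun g _ => Complex.normSq_nonneg _) ⟨1, by simpa using h1, ?_⟩
    exact Complex.normSq_pos.mpr hψ1
  have hy0 : 0 ≤ y := Finset.sum_nonneg fun g _ => Complex.normSq_nonneg _
  have haC : (a : ℂ) ≠ 0 := by exact_mod_cast ha.ne'
  have hxC : (x : ℂ) ≠ 0 := by exact_mod_cast hxpos.ne'
  rw [← Finset.sum_filter_add_sum_filter_not univ (· ∈ M)] at horth
  rw [← Finset.sum_filter_add_sum_filter_not univ (· ∈ M),
    ← Finset.sum_filter_add_sum_filter_not univ (· ∈ M) (fun g => ψ g * _)] at hnorm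
  have e1 : ∑ g ∈ univ.filter (· ∈ M), φ g * (starRingEnd ℂ) (ψ g) = a * x := by
    rw [hx, Complex.ofReal_sum, Finset.mul_sum]
    refine Finset.sum_congr rfl fun g hg => ?_
    rw [hM g (by simpa using hg), mul_assoc, Complex.mul_conj]
  have e2 : ∑ g ∈ univ.filter (· ∈ M), φ g * (starRingEnd ℂ) (φ g) = a ^ 2 * x := by
    rw [hx, Complex.ofReal_sum, Finset.mul_sum]
    refine Finset.sum_congr rfl fun g hg => ?_
    rw [hM g (by simpa using hg), map_mul, Complex.conj_ofReal, ← Complex.mul_conj]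
    ring
  have e3 : ∑ g ∈ univ.filter (· ∈ M), ψ g * (starRingEnd ℂ) (ψ g) = x := by
    rw [hx, Complex.ofReal_sum]
    exact Finset.sum_congr rfl fun g _ => Complex.mul_conj _
  have e4 : ∑ g ∈ univ.filter (· ∉ M), ψ g * (starRingEnd ℂ) (ψ g) = y := by
    rw [hy, Complex.ofReal_sum]
    exact Finset.sum_congr rfl fun g _ => Complex.mul_conj _
  have hα : α ≠ 0 := by
    rintro rfl
    have hβ : β ≠ 0 := by simpa using hαβ
    have : ∑ g ∈ univ.filter (· ∉ M), φ g * (starRingEnd ℂ) (ψ g) = 0 := by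
      refine Finset.sum_eq_zero fun g hg => ?_
      have h2 := hM' g (by simpa using hg)
      rw [zero_mul] at h2
      rw [(mul_eq_zero.mp h2.symm).resolve_left hβ, map_zero, mul_zero]
    rw [e1, this, add_zero] at horth
    exact mul_ne_zero haC hxC horth
  have hb : ∀ g, g ∉ M → φ g = β / α * ψ g := by
    intro g hg
    field_simp
    rw [mul_comm]
    exact hM' g hg
  set b := β / α with hbdef
  have e5 : ∑ g ∈ univ.filter (· ∉ M), φ g * (starRingEnd ℂ) (ψ g) = b * y := by
    rw [hy, Complex.ofReal_sum, Finset.mul_sum]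
    refine Finset.sum_congr rfl fun g hg => ?_
    rw [hb g (by simpa using hg), mul_assoc, Complex.mul_conj]
  have e6 : ∑ g ∈ univ.filter (· ∉ M), φ g * (starRingEnd ℂ) (φ g) =
      b * (starRingEnd ℂ) b * y := by
    rw [hy, Complex.ofReal_sum, Finset.mul_sum]
    refine Finset.sum_congr rfl fun g hg => ?_
    rw [hb g (by simpa using hg), map_mul, ← Complex.mul_conj]
    ring
  rw [e1, e5] at horth
  rw [e2, e6, e3, e4] at hnorm
  have hyC : (y : ℂ) ≠ 0 := by
    intro h
    rw [h, mul_zero, add_zero] at horth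
    exact mul_ne_zero haC hxC horth
  have hconj : (a : ℂ) * x + (starRingEnd ℂ) b * y = 0 := by
    have := congrArg (starRingEnd ℂ) horth
    simpa using this
  have hxy : ((x + y : ℝ) : ℂ) ≠ 0 := by exact_mod_cast (by positivity : x + y ≠ 0)
  push_cast at hxy
  have h7 : (a : ℂ) ^ 2 * x = y := by
    have : ((x : ℂ) + y) * ((a : ℂ) ^ 2 * x - y) = 0 := by
      linear_combination y * hnorm - (b * y) * hconj + (a * x) * horth
    exact sub_eq_zero.mp ((mul_eq_zero.mp this).resolve_left hxy)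
  have h8 : a * b = -1 := by
    have : (y : ℂ) * (a * b + 1) = 0 := by linear_combination a * horth - h7
    exact eq_neg_of_add_eq_zero_left ((mul_eq_zero.mp this).resolve_left hyC)
  intro g hg
  rw [hb g hg, ← mul_assoc, h8, neg_one_mul]

end Pool.Agent.SemiProp
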