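import Pool.Agent.Lib.MP_c1c6b6_al.Simple

set_option autoImplicit false
set_option linter.unusedSectionVars false

open Module Finset

namespace Pool.Agent.SemiProp

variable {G : Type*} [Group G] [Fintype G]

open Classical in
/-- Sum of a function over a subgroup. -/
noncomputable def sm (R : Subgroup G) (h : G → ℂ) : ℂ := ∑ a ∈ univ.filter (· ∈ R), h a

theorem sm_congr {R : Subgroup G} {h h' : G → ℂ} (H : ∀ a ∈ R, h a = h' a) : sm R h = sm R h' := by
  classical
  exact Finset.sum_congr rfl fun a ha => H a (by simpa using ha)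

theorem sm_equiv {R S : Subgroup G} (e : G ≃ G) (he : ∀ a, a ∈ R ↔ e a ∈ S) (h : G → ℂ) :
    sm R (fun a => h (e a)) = sm S h := by
  classical
  exact Finset.sum_equiv e (by simpa using he) (fun _ _ => rfl)

theorem sm_const (R : Subgroup G) (c : ℂ) : sm R (fun _ => c) = Nat.card R * c := by
  classical
  unfold sm
  rw [Finset.sum_const, nsmul_eq_mul, Nat.card_eq_fintype_card, Fintype.card_subtype]

theorem sm_zero (R : Subgroup G) : sm R (fun _ => 0) = 0 := by rw [sm_const, mul_zero]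

theorem sm_mul (R : Subgroup G) (c : ℂ) (h : G → ℂ) : sm R (fun a => c * h a) = c * sm R h := by
  unfold sm; rw [Finset.mul_sum]

theorem sm_mul' (R : Subgroup G) (c : ℂ) (h : G → ℂ) : sm R (fun a => h a * c) = sm R h * c := by
  unfold sm; rw [Finset.sum_mul]

theorem sm_add (R : Subgroup G) (h h' : G → ℂ) :
    sm R (fun a => h a + h' a) = sm R h + sm R h' := by
  unfold sm; rw [Finset.sum_add_distrib]

theorem sm_comm (R S : Subgroup G) (h : G → G → ℂ) :
    sm R (fun a => sm S (fun b => h a b)) = sm S (fun b => sm R (fun a => h a b)) := by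
  unfold sm; rw [Finset.sum_comm]

theorem sm_sum {ι : Type*} (R : Subgroup G) (s : Finset ι) (h : ι → G → ℂ) :
    sm R (fun a => ∑ i ∈ s, h i a) = ∑ i ∈ s, sm R (h i) := by
  unfold sm; rw [Finset.sum_comm]

theorem sm_star (R : Subgroup G) (h : G → ℂ) :
    (starRingEnd ℂ) (sm R h) = sm R (fun a => (starRingEnd ℂ) (h a)) := by
  unfold sm; rw [map_sum]

theorem sm_top (h : G → ℂ) : sm ⊤ h = ∑ a, h a := by
  unfold sm; simp

theorem sm_subtype (R : Subgroup G) [Fintype R] (h : G → ℂ) : sm R h = ∑ a : R, h a := by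
  classical
  unfold sm
  exact Finset.sum_subtype (p := (· ∈ R)) (univ.filter (· ∈ R)) (by simp) h

theorem sm_of_zero {R S : Subgroup G} (hRS : R ≤ S) {h : G → ℂ} (h0 : ∀ a ∈ S, a ∉ R → h a = 0) :
    sm S h = sm R h := by
  classical
  unfold sm
  symm
  refine Finset.sum_subset (fun a ha => ?_) (fun a ha hb => ?_)
  · simp only [mem_filter, mem_univ, true_and] at ha ⊢
    exact hRS ha
  · simp only [mem_filter, mem_univ, true_and] at ha hb
    exact h0 a ha hb

theorem sm_mul_left {R : Subgroup G} {r : G} (hr : r ∈ R) (h : G → ℂ) :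
    sm R (fun a => h (r * a)) = sm R h :=
  sm_equiv (Equiv.mulLeft r) (fun a => by simp [R.mul_mem_cancel_left hr]) h

theorem sm_mul_right {R : Subgroup G} {r : G} (hr : r ∈ R) (h : G → ℂ) :
    sm R (fun a => h (a * r)) = sm R h :=
  sm_equiv (Equiv.mulRight r) (fun a => by simp [R.mul_mem_cancel_right hr]) h

theorem sm_inv (R : Subgroup G) (h : G → ℂ) : sm R (fun a => h a⁻¹) = sm R h :=
  sm_equiv (Equiv.inv G) (fun a => by simp) h

theorem conj_mem' {R : Subgroup G} (hR : R.Normal) {a : G} (ha : a ∈ R) (g : G) :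
    g⁻¹ * a * g ∈ R := by simpa using hR.conj_mem a ha g⁻¹

theorem sm_conj {R : Subgroup G} (hR : R.Normal) (g : G) (h : G → ℂ) :
    sm R (fun a => h (g⁻¹ * a * g)) = sm R h := by
  refine sm_equiv ((Equiv.mulLeft g⁻¹).trans (Equiv.mulRight g)) (fun a => ?_) h
  simp only [Equiv.trans_apply, Equiv.coe_mulLeft, Equiv.coe_mulRight]
  refine ⟨fun ha => conj_mem' hR ha g, fun ha => ?_⟩
  have := hR.conj_mem _ ha g
  simpa [mul_assoc] using this

theorem sm_conj' {R : Subgroup G} (hR : R.Normal) (g : G) (h : G → ℂ) :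
    sm R (fun a => h (g * a * g⁻¹)) = sm R h := by
  simpa using sm_conj hR g⁻¹ h

theorem card_ne (R : Subgroup G) : (Nat.card R : ℂ) ≠ 0 := by
  exact_mod_cast (Nat.card_pos (α := R)).ne'

theorem cardG_ne : (Nat.card G : ℂ) ≠ 0 := by
  exact_mod_cast (Nat.card_pos (α := G)).ne'

/-- Double counting over cosets. -/
theorem sm_double {R S : Subgroup G} (hRS : R ≤ S) (h : G → ℂ) :
    sm S (fun b => sm R (fun r => h (b * r))) = Nat.card R * sm S h := by
  rw [sm_comm, ← sm_const]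
  exact sm_congr fun r hr => sm_mul_right (hRS hr) h

/-- The inner product over a subgroup. -/
noncomputable def ip (R : Subgroup G) (f1 f2 : G → ℂ) : ℂ :=
  sm R (fun a => f1 a * (starRingEnd ℂ) (f2 a))

/-- The real mass of a function on a subgroup. -/
theorem ip_self_real (R : Subgroup G) (f : G → ℂ) :
    ∃ s : ℝ, 0 ≤ s ∧ ip R f f = s ∧ (f 1 ≠ 0 → 0 < s) ∧ (s = 0 → ∀ a ∈ R, f a = 0) := by
  classical
  refine ⟨∑ a ∈ univ.filter (· ∈ R), Complex.normSq (f a),
    Finset.sum_nonneg fun a _ => Complex.normSq_nonneg _, ?_, fun h => ?_, fun h a ha => ?_⟩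
  · rw [Complex.ofReal_sum]
    exact Finset.sum_congr rfl fun a _ => Complex.mul_conj _
  · exact Finset.sum_pos' (fun a _ => Complex.normSq_nonneg _)
      ⟨1, by simp, Complex.normSq_pos.mpr h⟩
  · have := (Finset.sum_eq_zero_iff_of_nonneg (fun a _ => Complex.normSq_nonneg _)).mp h a
      (by simpa using ha)
    exact Complex.normSq_eq_zero.mp this

theorem ip_self_ne {R : Subgroup G} {f : G → ℂ} (h : f 1 ≠ 0) : ip R f f ≠ 0 := by
  obtain ⟨s, -, h1, h2, -⟩ := ip_self_real R f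
  rw [h1]
  exact_mod_cast (h2 h).ne'

theorem ip_congr {R : Subgroup G} {f1 f2 g1 g2 : G → ℂ} (h1 : ∀ a ∈ R, f1 a = g1 a)
    (h2 : ∀ a ∈ R, f2 a = g2 a) : ip R f1 f2 = ip R g1 g2 :=
  sm_congr fun a ha => by rw [h1 a ha, h2 a ha]

/-- Conjugate of a function. -/
def cj (g : G) (f : G → ℂ) : G → ℂ := fun a => f (g⁻¹ * a * g)

theorem ip_cj {R : Subgroup G} (hR : R.Normal) (g : G) (f1 f2 : G → ℂ) :
    ip R (cj g f1) (cj g f2) = ip R f1 f2 :=
  sm_conj hR g (fun a => f1 a * (starRingEnd ℂ) (f2 a))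

theorem cj_cj (g h : G) (f : G → ℂ) : cj g (cj h f) = cj (g * h) f := by
  funext a
  simp [cj, mul_assoc]

/-- The functional equation of a normalised irreducible character of `X`, read on `R`. -/
structure Sph (X R : Subgroup G) (f : G → ℂ) : Prop where
  one : f 1 = 1
  inv : ∀ a ∈ R, f a⁻¹ = (starRingEnd ℂ) (f a)
  cls : ∀ x ∈ X, ∀ a ∈ R, f (x⁻¹ * a * x) = f a
  fe : ∀ a ∈ R, ∀ b ∈ R, sm X (fun x => f (a * x * b * x⁻¹)) = Nat.card X * (f a * f b)

theorem Sph.mono {X R R' : Subgroup G} {f : G → ℂ} (h : Sph X R f) (hle : R' ≤ R) : Sph X R' f :=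
  ⟨h.one, fun a ha => h.inv a (hle ha), fun x hx a ha => h.cls x hx a (hle ha),
    fun a ha b hb => h.fe a (hle ha) b (hle hb)⟩

theorem Sph.cj {X R : Subgroup G} {f : G → ℂ} (h : Sph X R f) (hX : X.Normal) (hR : R.Normal)
    (g : G) : Sph X R (cj g f) := by
  refine ⟨by simpa [SemiProp.cj] using h.one, fun a ha => ?_, fun x hx a ha => ?_,
    fun a ha b hb => ?_⟩
  · have := h.inv _ (conj_mem' hR ha g)
    simpa [SemiProp.cj, mul_assoc] using this
  · have := h.cls _ (conj_mem' hX hx g) _ (conj_mem' hR ha g)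
    simpa [SemiProp.cj, mul_assoc] using this
  · have h1 := h.fe _ (conj_mem' hR ha g) _ (conj_mem' hR hb g)
    rw [← sm_conj hX g] at h1
    refine Eq.trans (sm_congr fun x _ => ?_) h1
    simp [SemiProp.cj, mul_assoc]

theorem Sph.congr {X R : Subgroup G} {f f' : G → ℂ} (h : Sph X R f) (hR : R.Normal) (hXR : X ≤ R)
    (he : ∀ a ∈ R, f' a = f a) : Sph X R f' := by
  refine ⟨by rw [he 1 R.one_mem, h.one], fun a ha => ?_, fun x hx a ha => ?_, fun a ha b hb => ?_⟩
  · rw [he _ (R.inv_mem ha), he _ ha, h.inv a ha]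
  · rw [he _ (conj_mem' hR ha x), he _ ha, h.cls x hx a ha]
  · rw [he a ha, he b hb, ← h.fe a ha b hb]
    refine sm_congr fun x hx => he _ ?_
    exact R.mul_mem (R.mul_mem (R.mul_mem ha (hXR hx)) hb) (R.inv_mem (hXR hx))

/-- Averaging over a larger group that fixes the function. -/
theorem Sph.up {X Y R : Subgroup G} {f : G → ℂ} (h : Sph X R f) (hXY : X ≤ Y) (hR : R.Normal)
    (hX : X.Normal) (hY : ∀ y ∈ Y, ∀ a ∈ R, f (y⁻¹ * a * y) = f a) : Sph Y R f := by
  refine ⟨h.one, h.inv, hY, fun a ha b hb => ?_⟩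
  have h1 := sm_double hXY (fun y => f (a * y * b * y⁻¹))
  have h2 : sm Y (fun y => sm X (fun r => f (a * (y * r) * b * (y * r)⁻¹))) =
      sm Y (fun _ => Nat.card X * (f a * f b)) := by
    refine sm_congr fun y hy => ?_
    have h3 := h.fe a ha _ (hR.conj_mem b hb y)
    have h4 := hY y⁻¹ (Y.inv_mem hy) b hb
    rw [inv_inv] at h4
    rw [h4, ← sm_conj' hX y] at h3
    refine Eq.trans (sm_congr fun x _ => ?_) h3
    simp [mul_assoc]
  rw [h2, sm_const] at h1
  apply mul_left_cancel₀ (card_ne X)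
  rw [← h1]; ring

/-- Convolution with an invariant function. -/
theorem Sph.conv {X R R' : Subgroup G} {f : G → ℂ} (h : Sph X R' f) (hle : R ≤ R') (hR : R.Normal)
    {e : G → ℂ} (he : ∀ x ∈ X, ∀ r ∈ R, e (x⁻¹ * r * x) = e r) {a : G} (ha : a ∈ R') :
    sm R (fun r => f (a * r) * e r) = f a * sm R (fun r => f r * e r) := by
  apply mul_left_cancel₀ (card_ne X)
  have h1 : sm X (fun x => sm R (fun r => f (a * x * r * x⁻¹) * e r)) =
      sm X (fun _ => sm R (fun r => f (a * r) * e r)) := by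
    refine sm_congr fun x hx => ?_
    rw [← sm_conj hR x]
    refine sm_congr fun r hr => ?_
    rw [he x hx r hr]
    simp [mul_assoc]
  rw [← sm_const, ← h1, sm_comm, ← sm_mul, ← sm_mul]
  refine sm_congr fun r hr => ?_
  rw [sm_mul', h.fe a ha r (hle hr)]
  ring

/-- Inner product over the coset `a R`. -/
noncomputable def tc (R : Subgroup G) (f1 f2 : G → ℂ) (a : G) : ℂ :=
  sm R (fun r => f1 (a * r) * (starRingEnd ℂ) (f2 (a * r)))

theorem tc_one (R : Subgroup G) (f1 f2 : G → ℂ) : tc R f1 f2 1 = ip R f1 f2 := by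
  simp [tc, ip]

theorem tc_mul {R : Subgroup G} (f1 f2 : G → ℂ) (a : G) {r : G} (hr : r ∈ R) :
    tc R f1 f2 (a * r) = tc R f1 f2 a := by
  unfold tc
  rw [← sm_mul_left hr (fun s => f1 (a * s) * (starRingEnd ℂ) (f2 (a * s)))]
  simp only [mul_assoc]

theorem transfer {X R R' : Subgroup G} {f1 f2 : G → ℂ} (h1 : Sph X R' f1) (h2 : Sph X R' f2)
    (hle : R ≤ R') (hR : R.Normal) {a b : G} (ha : a ∈ R') (hb : b ∈ R')
    (hc : ∀ x ∈ X, b⁻¹ * x * b * x⁻¹ ∈ R) :
    f1 b * tc R f1 f2 a = f2 b * tc R f1 f2 (a * b) := by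
  apply mul_left_cancel₀ (card_ne X)
  have e1 : (Nat.card X : ℂ) * (f1 b * tc R f1 f2 a) =
      sm X (fun x => sm R (fun r => f1 (a * r * x * b * x⁻¹) * (starRingEnd ℂ) (f2 (a * r)))) := by
    rw [sm_comm, tc, ← sm_mul, ← sm_mul]
    refine sm_congr fun r hr => ?_
    rw [sm_mul', h1.fe _ (R'.mul_mem ha (hle hr)) b hb]
    ring
  have e2 : (Nat.card X : ℂ) * (f2 b * tc R f1 f2 (a * b)) =
      sm X (fun x => sm R (fun r => f1 (a * b * r) *
        (starRingEnd ℂ) (f2 (a * b * r * x * b⁻¹ * x⁻¹)))) := by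
    rw [sm_comm, tc, ← sm_mul, ← sm_mul]
    refine sm_congr fun r hr => ?_
    rw [sm_mul, ← sm_star, h2.fe _ (R'.mul_mem (R'.mul_mem ha hb) (hle hr)) _ (R'.inv_mem hb),
      h2.inv b hb]
    simp only [map_mul, Complex.conj_natCast, Complex.conj_conj]
    ring
  rw [e1, e2]
  refine sm_congr fun x hx => ?_
  rw [← sm_mul_right (hc x hx) (fun r => f1 (a * b * r) *
        (starRingEnd ℂ) (f2 (a * b * r * x * b⁻¹ * x⁻¹))),
    ← sm_conj hR b (fun r => f1 (a * b * (r * (b⁻¹ * x * b * x⁻¹))) *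
        (starRingEnd ℂ) (f2 (a * b * (r * (b⁻¹ * x * b * x⁻¹)) * x * b⁻¹ * x⁻¹)))]
  refine sm_congr fun r _ => ?_
  simp [mul_assoc]

theorem orth {X R : Subgroup G} {f1 f2 : G → ℂ} (h1 : Sph X R f1) (h2 : Sph X R f2)
    (hR : R.Normal) (hne : ip R f1 f2 ≠ 0) : ∀ b ∈ R, f1 b = f2 b := by
  intro b hb
  have := transfer h1 h2 le_rfl hR R.one_mem hb (fun x _ => by
    have := R.mul_mem (R.inv_mem hb) (hR.conj_mem b hb x)
    simpa [mul_assoc] using this)
  rw [tc_mul _ _ _ hb, tc_one] at this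
  exact mul_right_cancel₀ hne this

/-- The stabiliser of the restriction of a function to a normal subgroup. -/
def stab (R : Subgroup G) [hR : R.Normal] (f : G → ℂ) : Subgroup G where
  carrier := {g | ∀ a ∈ R, f (g⁻¹ * a * g) = f a}
  one_mem' := fun a _ => by simp
  mul_mem' := fun {x y} hx hy a ha => by
    have := hy _ (conj_mem' hR ha x)
    rw [hx a ha] at this
    rw [← this]; simp [mul_assoc]
  inv_mem' := fun {x} hx a ha => by
    have := hx _ (hR.conj_mem a ha x)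
    rw [inv_inv, ← this]; simp [mul_assoc]

theorem mem_stab {R : Subgroup G} [R.Normal] {f : G → ℂ} {g : G} :
    g ∈ stab R f ↔ ∀ a ∈ R, f (g⁻¹ * a * g) = f a := Iff.rfl

/-- `φ` restricted to `X` is `d` times the average of the conjugates of `f`. -/
def Avg (X : Subgroup G) (φ : G → ℂ) (d : ℂ) (f : G → ℂ) : Prop :=
  ∀ a ∈ X, Nat.card G * φ a = d * ∑ g, f (g⁻¹ * a * g)

theorem Avg.mono {X R : Subgroup G} {φ f : G → ℂ} {d : ℂ} (h : Avg X φ d f) (hle : R ≤ X) :
    Avg R φ d f := fun a ha => h a (hle ha)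

theorem Avg.cj {X : Subgroup G} {φ f : G → ℂ} {d : ℂ} (h : Avg X φ d f) (g : G) :
    Avg X φ d (cj g f) := by
  intro a ha
  rw [h a ha]
  congr 1
  refine (Fintype.sum_equiv (Equiv.mulRight g) _ _ fun x => ?_).symm
  simp [SemiProp.cj, mul_assoc]

theorem Avg.ip_left {R : Subgroup G} {φ f : G → ℂ} {d : ℂ} (h : Avg R φ d f) (f2 : G → ℂ) :
    Nat.card G * ip R φ f2 = d * ∑ g, ip R (SemiProp.cj g f) f2 := by
  unfold ip
  rw [← sm_mul, ← sm_sum, ← sm_mul]
  refine sm_congr fun a ha => ?_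
  rw [← mul_assoc, h a ha, ← Finset.sum_mul]
  simp only [SemiProp.cj]
  ring

theorem Avg.ip_right {R : Subgroup G} (hR : R.Normal) {ψ f : G → ℂ} {d : ℕ} (h : Avg R ψ d f)
    {φ : G → ℂ} (hφ : ∀ g a, φ (g⁻¹ * a * g) = φ a) : ip R φ ψ = d * ip R φ f := by
  apply mul_left_cancel₀ (cardG_ne (G := G))
  have h1 : ∀ g : G, ip R φ (SemiProp.cj g f) = ip R φ f := fun g => by
    rw [← ip_cj hR g φ f]
    exact ip_congr (fun a _ => (hφ g a).symm) (fun _ _ => rfl)
  have h2 : (Nat.card G : ℂ) * ip R φ ψ = d * ∑ g, ip R φ (SemiProp.cj g f) := by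
    unfold ip
    rw [← sm_mul, ← sm_sum, ← sm_mul]
    refine sm_congr fun a ha => ?_
    have h3 := congrArg (starRingEnd ℂ) (h a ha)
    simp only [map_mul, Complex.conj_natCast, map_sum] at h3
    rw [← Finset.mul_sum]
    simp only [SemiProp.cj]
    linear_combination φ a * h3
  rw [h2]
  simp_rw [h1]
  rw [Finset.sum_const, card_univ, nsmul_eq_mul, Nat.card_eq_fintype_card]
  ring

theorem ip_cj_eq {X R : Subgroup G} (hX : X.Normal) [hR : R.Normal] {f : G → ℂ} (h : Sph X R f)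
    (g : G) [Decidable (g ∈ stab R f)] :
    ip R (cj g f) f = if g ∈ stab R f then ip R f f else 0 := by
  split_ifs with hg
  · exact ip_congr hg (fun _ _ => rfl)
  · by_contra hne
    exact hg (orth (h.cj hX hR g) h hR hne)

theorem sum_ite_mem (S : Subgroup G) [DecidablePred (· ∈ S)] (h : G → ℂ) :
    ∑ g, (if g ∈ S then h g else 0) = sm S h := by
  unfold sm
  rw [Finset.sum_filter]
  refine Finset.sum_congr rfl fun g _ => ?_
  congr

/-- The norm of a class function on a normal subgroup. -/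
theorem Avg.norm {X R : Subgroup G} (hX : X.Normal) [hR : R.Normal] {φ f : G → ℂ} {d : ℕ}
    (h : Avg R φ d f) (hf : Sph X R f) (hφ : ∀ g a, φ (g⁻¹ * a * g) = φ a) :
    ((stab R f).index : ℂ) * ip R φ φ = d ^ 2 * ip R f f := by
  classical
  have h1 := h.ip_left f
  simp_rw [ip_cj_eq hX hf] at h1
  rw [sum_ite_mem, sm_const, ← (stab R f).card_mul_index] at h1
  rw [h.ip_right hR hφ]
  apply mul_left_cancel₀ (card_ne (stab R f))
  push_cast at h1
  linear_combination d * h1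

theorem Avg.ip_zero {X R : Subgroup G} (hX : X.Normal) (hR : R.Normal) {φ ψ f f' : G → ℂ}
    {d d' : ℕ} (h : Avg R φ d f) (h' : Avg R ψ d' f') (hf : Sph X R f) (hf' : Sph X R f')
    (hφ : ∀ g a, φ (g⁻¹ * a * g) = φ a) (hne : ¬ ∃ g, ∀ a ∈ R, SemiProp.cj g f a = f' a) :
    ip R φ ψ = 0 := by
  rw [h'.ip_right hR hφ]
  have h1 := h.ip_left f'
  rw [Finset.sum_eq_zero (fun g _ => by
    by_contra h2
    exact hne ⟨g, orth (hf.cj hX hR g) hf' hR h2⟩), mul_zero] at h1
  rw [(mul_eq_zero.mp h1).resolve_left cardG_ne, mul_zero]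

end Pool.Agent.SemiProp
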