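import Pool.Agent.Lib.MP_c1c6b6_al.PN2

set_option autoImplicit false
set_option linter.unusedSectionVars false

open Module Finset

namespace Pool.Agent.SemiProp

/-- A group with abelian action on a minimal normal subgroup acts on it as a cyclic group. -/
theorem exists_generator' {G : Type*} [Group G] [Finite G] (A J N : Subgroup G)
    (hA : commutator G ≤ A) (hNA : N ≤ A)
    (hAc : ∀ x ∈ A, ∀ y ∈ N, x * y = y * x) (hN : N.Normal) (hN0 : N ≠ ⊥)
    (hmin : ∀ N' : Subgroup G, N'.Normal → N' ≤ N → N' = ⊥ ∨ N' = N) :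
    ∃ x ∈ J, ∀ y ∈ J, ∃ k : ℤ, ∀ n ∈ N, n * ((x ^ k)⁻¹ * y) = (x ^ k)⁻¹ * y * n := by
  let _ : CommGroup N :=
    { (inferInstance : Group N) with
      mul_comm := fun a b => Subtype.ext (hAc _ (hNA a.2) _ b.2) }
  have hext : ∀ {S T : Module.End ℤ (Additive N)},
      (∀ n : N, ((Additive.toMul (S (Additive.ofMul n)) : N) : G) =
        ((Additive.toMul (T (Additive.ofMul n)) : N) : G)) → S = T := by
    intro S T h
    refine LinearMap.ext fun n => ?_
    exact Additive.toMul.injective (Subtype.ext (h (Additive.toMul n)))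
  let c : G → Module.End ℤ (Additive N) := fun g =>
    AddMonoidHom.toIntLinearMap
      { toFun := fun n => Additive.ofMul
          (⟨g * (Additive.toMul n : N) * g⁻¹, hN.conj_mem _ (Additive.toMul n).2 g⟩ : N)
        map_zero' := Additive.toMul.injective (Subtype.ext (by simp))
        map_add' := fun a b => Additive.toMul.injective (Subtype.ext (by simp)) }
  have hc : ∀ (g : G) (n : N), ((Additive.toMul (c g (Additive.ofMul n)) : N) : G) =
      g * n * g⁻¹ := fun g n => rfl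
  let κ : G →* Module.End ℤ (Additive N) :=
    { toFun := c
      map_one' := hext fun n => by rw [hc]; simp
      map_mul' := fun a b => hext fun n => by
        rw [hc]
        change _ = a * (b * n * b⁻¹) * a⁻¹
        group }
  have hκ : ∀ (g : G) (n : N), ((Additive.toMul (κ g (Additive.ofMul n)) : N) : G) =
      g * n * g⁻¹ := hc
  have hκA : ∀ a ∈ A, κ a = 1 := by
    intro a ha
    refine hext fun n => ?_
    rw [hκ, hAc a ha _ n.2]
    simp
  have hκc : ∀ a b : G, κ a * κ b = κ b * κ a := by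
    intro a b
    have h1 : κ (a * b) = κ (b * a) := by
      have h2 : a * b = (a * b * a⁻¹ * b⁻¹) * (b * a) := by group
      have h3 : a * b * a⁻¹ * b⁻¹ ∈ A :=
        hA (Subgroup.commutator_mem_commutator (Subgroup.mem_top a) (Subgroup.mem_top b))
      rw [h2, map_mul, hκA _ h3, one_mul]
    rw [← map_mul, h1, map_mul]
  have hnt : Nontrivial N := (Subgroup.nontrivial_iff_ne_bot N).mpr hN0
  have hnt' : Nontrivial (Additive N) := hnt
  obtain ⟨x, hx, hgen⟩ := exists_generator_aux κ hκc (by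
    intro U hU
    let N' : Subgroup G :=
      { carrier := {x | ∃ hx : x ∈ N, (Additive.ofMul ⟨x, hx⟩ : Additive N) ∈ U}
        one_mem' := ⟨N.one_mem, U.zero_mem⟩
        mul_mem' := by
          rintro a b ⟨ha, ha'⟩ ⟨hb, hb'⟩
          exact ⟨N.mul_mem ha hb, U.add_mem ha' hb'⟩
        inv_mem' := by
          rintro a ⟨ha, ha'⟩
          exact ⟨N.inv_mem ha, U.neg_mem ha'⟩ }
    have hnorm : N'.Normal := by
      refine ⟨fun x hx g => ?_⟩
      obtain ⟨hx, hx'⟩ := hx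
      exact ⟨hN.conj_mem x hx g, hU g _ hx'⟩
    rcases hmin N' hnorm (fun x hx => hx.1) with h | h
    · left
      rw [eq_bot_iff]
      intro n hn
      have : ((Additive.toMul n : N) : G) ∈ N' := ⟨(Additive.toMul n).2, hn⟩
      rw [h, Subgroup.mem_bot] at this
      exact Additive.toMul.injective (Subtype.ext this)
    · right
      rw [eq_top_iff]
      intro n _
      have : ((Additive.toMul n : N) : G) ∈ N' := by rw [h]; exact (Additive.toMul n).2
      exact this.2) J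
  refine ⟨x, hx, fun y hy => ?_⟩
  obtain ⟨k, h1⟩ := hgen y hy
  refine ⟨k, fun n hn => ?_⟩
  have h2 := hκ ((x ^ k)⁻¹ * y) ⟨n, hn⟩
  rw [h1] at h2
  have h3 : n = (x ^ k)⁻¹ * y * n * ((x ^ k)⁻¹ * y)⁻¹ := h2
  rwa [eq_mul_inv_iff_mul_eq] at h3

variable {G : Type*} [Group G] [Fintype G]

theorem comm_iff {R : Subgroup G} [R.Normal] (b g : G) :
    b⁻¹ * g * b * g⁻¹ ∈ R ↔
      (QuotientGroup.mk' R b) * (QuotientGroup.mk' R g) =
        (QuotientGroup.mk' R g) * (QuotientGroup.mk' R b) := by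
  rw [← QuotientGroup.eq_one_iff]
  change QuotientGroup.mk' R (b⁻¹ * g * b * g⁻¹) = 1 ↔ _
  rw [map_mul, map_mul, map_mul, map_inv, map_inv, mul_inv_eq_one, mul_assoc, inv_mul_eq_iff_eq_mul,
    eq_comm]

/-- The centraliser of the section `R2 / R1`. -/
def cent (R1 R2 : Subgroup G) [R1.Normal] : Subgroup G :=
  (Subgroup.centralizer (R2.map (QuotientGroup.mk' R1) : Set (G ⧸ R1))).comap (QuotientGroup.mk' R1)

theorem mem_cent {R1 R2 : Subgroup G} [R1.Normal] {g : G} :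
    g ∈ cent R1 R2 ↔ ∀ b ∈ R2, b⁻¹ * g * b * g⁻¹ ∈ R1 := by
  rw [cent, Subgroup.mem_comap, Subgroup.mem_centralizer_iff]
  constructor
  · intro h b hb
    exact (comm_iff b g).mpr (h _ ⟨b, hb, rfl⟩)
  · rintro h _ ⟨b, hb, rfl⟩
    exact (comm_iff b g).mp (h b hb)

/-- Every subgroup is cyclic modulo `C`. -/
def Cyc (C : Subgroup G) : Prop := ∀ J : Subgroup G, ∃ x ∈ J, ∀ y ∈ J, ∃ k : ℤ, (x ^ k)⁻¹ * y ∈ C

/-- A chief factor inside `F` and central in `F`. -/
structure Chief (F R1 R2 : Subgroup G) [R1.Normal] : Prop where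
  lt : R1 < R2
  le : R2 ≤ F
  normal : R2.Normal
  cen : F ≤ cent R1 R2
  min : ∀ S : Subgroup G, S.Normal → R1 ≤ S → S ≤ R2 → S = R1 ∨ S = R2

theorem Chief.cyc {F R1 R2 : Subgroup G} [R1.Normal] (h : Chief F R1 R2) (hF : commutator G ≤ F) :
    Cyc (cent R1 R2) := by
  intro J
  have hs := QuotientGroup.mk'_surjective R1
  have := h.normal
  obtain ⟨_, ⟨x, hx, rfl⟩, hgen⟩ := exists_generator' (F.map (QuotientGroup.mk' R1))
    (J.map (QuotientGroup.mk' R1)) (R2.map (QuotientGroup.mk' R1))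
    (by
      rw [commutator, ← Subgroup.map_top_of_surjective _ hs, ← Subgroup.map_commutator]
      exact Subgroup.map_mono hF)
    (Subgroup.map_mono h.le)
    (by
      rintro _ ⟨x, hx, rfl⟩ _ ⟨b, hb, rfl⟩
      exact ((comm_iff b x).mp (mem_cent.mp (h.cen hx) b hb)).symm)
    (Subgroup.Normal.map this _ hs)
    (by
      rw [Ne, Subgroup.map_eq_bot_iff, QuotientGroup.ker_mk']
      exact h.lt.not_ge)
    (by
      intro N' hN' hle
      have h1 : R1 ≤ N'.comap (QuotientGroup.mk' R1) := by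
        intro r hr
        rw [Subgroup.mem_comap, show QuotientGroup.mk' R1 r = 1 from
          (QuotientGroup.eq_one_iff r).mpr hr]
        exact N'.one_mem
      have h2 : N'.comap (QuotientGroup.mk' R1) ≤ R2 := by
        refine (Subgroup.comap_mono hle).trans ?_
        rw [Subgroup.comap_map_eq, QuotientGroup.ker_mk', sup_eq_left.mpr h.lt.le]
      rcases h.min _ (hN'.comap _) h1 h2 with h3 | h3
      · left
        rw [← Subgroup.map_comap_eq_self_of_surjective hs N', h3, Subgroup.map_eq_bot_iff,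
          QuotientGroup.ker_mk']
      · right
        rw [← Subgroup.map_comap_eq_self_of_surjective hs N', h3])
  refine ⟨x, hx, fun y hy => ?_⟩
  obtain ⟨k, hk⟩ := hgen _ ⟨y, hy, rfl⟩
  refine ⟨k, mem_cent.mpr fun b hb => (comm_iff _ _).mpr ?_⟩
  have := hk _ ⟨b, hb, rfl⟩
  simpa using this

theorem exists_chief {F R1 : Subgroup G} [R1.Normal] (hF : F.Normal) {p c : ℕ} (hp : p.Prime)
    (hpow : ∀ x ∈ F, x ^ p ^ c ∈ R1) (hlt : R1 < F) : ∃ R2, Chief F R1 R2 := by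
  have : Fact p.Prime := ⟨hp⟩
  have hs := QuotientGroup.mk'_surjective R1
  have hP : IsPGroup p (F.map (QuotientGroup.mk' R1)) := by
    rintro ⟨_, x, hx, rfl⟩
    refine ⟨c, Subtype.ext ?_⟩
    change (QuotientGroup.mk' R1 x) ^ p ^ c = 1
    rw [← map_pow]
    exact (QuotientGroup.eq_one_iff _).mpr (hpow x hx)
  have hnt : Nontrivial (F.map (QuotientGroup.mk' R1)) := by
    rw [Subgroup.nontrivial_iff_ne_bot, Ne, Subgroup.map_eq_bot_iff, QuotientGroup.ker_mk']
    exact hlt.not_ge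
  have := hP.center_nontrivial
  obtain ⟨⟨⟨_, z, hz, rfl⟩, hz2⟩, hz1⟩ :=
    exists_ne (1 : Subgroup.center (F.map (QuotientGroup.mk' R1)))
  have hFn : (F.map (QuotientGroup.mk' R1)).Normal := Subgroup.Normal.map hF _ hs
  have hZn : (F ⊓ cent R1 F).Normal := by
    have : (cent R1 F).Normal := Subgroup.Normal.comap inferInstance _
    infer_instance
  have hZ : R1 < F ⊓ cent R1 F := by
    refine lt_of_le_of_ne (le_inf hlt.le fun r hr => mem_cent.mpr fun b _ => ?_) fun he => hz1 ?_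
    · exact R1.mul_mem (conj_mem' inferInstance hr b) (R1.inv_mem hr)
    · have h1 : z ∈ F ⊓ cent R1 F := by
        refine ⟨hz, mem_cent.mpr fun b hb => (comm_iff _ _).mpr ?_⟩
        exact congrArg Subtype.val (Subgroup.mem_center_iff.mp hz2 ⟨_, b, hb, rfl⟩)
      rw [← he] at h1
      exact Subtype.ext (Subtype.ext ((QuotientGroup.eq_one_iff z).mpr h1))
  let S : Set (Subgroup G) := {S | S.Normal ∧ R1 < S ∧ S ≤ F ⊓ cent R1 F}
  obtain ⟨R2, hR2⟩ := (Set.toFinite S).exists_minimal ⟨_, hZn, hZ, le_rfl⟩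
  refine ⟨R2, hR2.prop.2.1, hR2.prop.2.2.trans inf_le_left, hR2.prop.1, fun x hx => ?_,
    fun T hT h1 h2 => ?_⟩
  · refine mem_cent.mpr fun b hb => (comm_iff _ _).mpr ?_
    exact ((comm_iff _ _).mp (mem_cent.mp (hR2.prop.2.2 hb).2 x hx)).symm
  · rcases h1.eq_or_lt with h3 | h3
    · exact Or.inl h3.symm
    · exact Or.inr (le_antisymm h2 (hR2.le_of_le ⟨hT, h3, h2.trans hR2.prop.2.2⟩ h2))

section step

variable {F R1 R2 : Subgroup G} [hR1 : R1.Normal] {f : G → ℂ}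

theorem tc_ne {b : G} (h : tc R1 f f b ≠ 0) : ∃ r ∈ R1, f (b * r) ≠ 0 := by
  by_contra hne
  push Not at hne
  apply h
  rw [tc, ← sm_zero R1]
  exact sm_congr fun r hr => by rw [hne r hr, zero_mul]

theorem Chief.tr (h : Chief F R1 R2) {f1 : G → ℂ} (h1 : Sph F R2 f1) (hf : Sph F R2 f) {a b : G}
    (ha : a ∈ R2) (hb : b ∈ R2) : f1 b * tc R1 f1 f a = f b * tc R1 f1 f (a * b) :=
  transfer h1 hf h.lt.le hR1 ha hb fun _ hx => mem_cent.mp (h.cen hx) b hb

theorem Chief.tc_supp (h : Chief F R1 R2) (hf : Sph F R2 f) {a b : G}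
    (ha : a ∈ R2) (hb : b ∈ R2) (hne : tc R1 f f b ≠ 0) : tc R1 f f (a * b) = tc R1 f f a := by
  obtain ⟨r, hr, h1⟩ := tc_ne hne
  have h2 := h.tr hf hf ha (R2.mul_mem hb (h.lt.le hr))
  rw [← mul_assoc, tc_mul _ _ _ hr] at h2
  exact (mul_left_cancel₀ h1 h2).symm

/-- The cosets of `R1` in `R2` on which `f` does not vanish. -/
def Chief.supp (h : Chief F R1 R2) (hf : Sph F R2 f) : Subgroup G where
  carrier := {b | b ∈ R2 ∧ tc R1 f f b ≠ 0}
  one_mem' := ⟨R2.one_mem, by rw [tc_one]; exact ip_self_ne (by rw [hf.one]; exact one_ne_zero)⟩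
  mul_mem' := fun {a b} ha hb =>
    ⟨R2.mul_mem ha.1 hb.1, by rw [h.tc_supp hf ha.1 hb.1 hb.2]; exact ha.2⟩
  inv_mem' := fun {b} hb => ⟨R2.inv_mem hb.1, by
    rw [← h.tc_supp hf (R2.inv_mem hb.1) hb.1 hb.2, inv_mul_cancel, tc_one]
    exact ip_self_ne (by rw [hf.one]; exact one_ne_zero)⟩

theorem Chief.mem_supp (h : Chief F R1 R2) (hf : Sph F R2 f) {b : G} (hb : b ∈ R2)
    (hne : f b ≠ 0) : b ∈ h.supp hf := by
  refine ⟨hb, ?_⟩
  have h2 := mul_left_cancel₀ hne (h.tr hf hf R2.one_mem hb)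
  rw [one_mul] at h2
  rw [← h2]
  exact (h.supp hf).one_mem.2

theorem Chief.mass (h : Chief F R1 R2) (hf : Sph F R2 f) :
    ∃ S : Subgroup G, R1 ≤ S ∧ S ≤ R2 ∧ ip R2 f f = R1.relIndex S * ip R1 f f := by
  have hle : R1 ≤ h.supp hf := fun r hr => ⟨h.lt.le hr, by
    rw [← one_mul r, tc_mul _ _ _ hr]; exact (h.supp hf).one_mem.2⟩
  refine ⟨h.supp hf, hle, fun b hb => hb.1, ?_⟩
  have h1 := sm_double h.lt.le (fun a => f a * (starRingEnd ℂ) (f a))
  change sm R2 (tc R1 f f) = Nat.card R1 * ip R2 f f at h1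
  rw [sm_of_zero (R := h.supp hf) (fun b hb => hb.1) (fun a ha hn => by
      by_contra h2
      exact hn ⟨ha, h2⟩),
    sm_congr (h' := fun _ => ip R1 f f) (fun b hb => by
      rw [← one_mul b, h.tc_supp hf R2.one_mem hb.1 hb.2, tc_one]), sm_const] at h1
  have h2 : Nat.card (h.supp hf) = Nat.card R1 * R1.relIndex (h.supp hf) := by
    rw [Subgroup.relIndex, ← (R1.subgroupOf (h.supp hf)).card_mul_index,
      Nat.card_congr (Subgroup.subgroupOfEquivOfLe hle).toEquiv]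
  rw [h2] at h1
  apply mul_left_cancel₀ (card_ne R1)
  rw [← h1]
  push_cast
  ring

theorem Chief.kappa (h : Chief F R1 R2) (hf : Sph F R2 f) {f1 : G → ℂ} (h1 : Sph F R2 f1)
    (he : ∀ r ∈ R1, f1 r = f r) :
    ∃ κ : G → ℂ, (∀ b ∈ R2, f1 b = κ b * f b) ∧
      (∀ a ∈ R2, ∀ b ∈ h.supp hf, κ (a * b) = κ a * κ b) ∧
      (∀ a, ∀ r ∈ R1, κ (a * r) = κ a) ∧ κ 1 = 1 := by
  have hs : ip R1 f f ≠ 0 := ip_self_ne (by rw [hf.one]; exact one_ne_zero)
  have h0 : tc R1 f1 f 1 = ip R1 f f := by rw [tc_one]; exact ip_congr he fun _ _ => rfl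
  have hA : ∀ b ∈ R2, f1 b = tc R1 f1 f b / ip R1 f f * f b := by
    intro b hb
    have h2 := h.tr h1 hf R2.one_mem hb
    rw [one_mul, h0] at h2
    field_simp
    linear_combination h2
  refine ⟨fun b => tc R1 f1 f b / ip R1 f f, hA, fun a ha b hb => ?_, fun a r hr => ?_, ?_⟩
  · obtain ⟨r, hr, h2⟩ := tc_ne hb.2
    have hb' := R2.mul_mem hb.1 (h.lt.le hr)
    have h3 := h.tr h1 hf ha hb'
    rw [hA _ hb', ← mul_assoc a, tc_mul _ _ _ hr, tc_mul _ _ _ hr] at h3
    apply mul_left_cancel₀ h2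
    field_simp at h3 ⊢
    linear_combination -h3
  · simp only [tc_mul _ _ _ hr]
  · simp only [h0, div_self hs]

theorem Chief.stab_of_cent (h : Chief F R1 R2) [R2.Normal] (hF : F.Normal) (hf : Sph F R2 f)
    {p c : ℕ} (hpow : ∀ x ∈ F, x ^ p ^ c ∈ R1) (hcop : Nat.Coprime p F.index) {g : G}
    (hg : g ∈ stab R1 f) (hc : g ∈ cent R1 R2) : g ∈ stab R2 f := by
  obtain ⟨κ, k1, k2, k3, k4⟩ := h.kappa hf (hf.cj hF h.normal g) hg
  intro b hb
  change cj g f b = _
  rw [k1 b hb]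
  by_cases h0 : f b = 0
  · rw [h0, mul_zero]
  have hbS := h.mem_supp hf hb h0
  have e1 : ∀ i : ℕ, f ((g ^ i)⁻¹ * b * g ^ i) = κ b ^ i * f b := by
    intro i
    induction i with
    | zero => simp
    | succ i ih =>
      have h2 := k1 _ (conj_mem' h.normal hb (g ^ i))
      have h3 := mem_cent.mp ((cent R1 R2).inv_mem ((cent R1 R2).pow_mem hc i)) b hb
      have h4 : (g ^ i)⁻¹ * b * g ^ i = b * (b⁻¹ * (g ^ i)⁻¹ * b * (g ^ i)⁻¹⁻¹) := by group
      have h5 : κ ((g ^ i)⁻¹ * b * g ^ i) = κ b := by rw [h4, k3 _ _ h3]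
      rw [h5, ih] at h2
      rw [pow_succ' (κ b), mul_assoc (κ b), ← h2]
      simp [cj, pow_succ, mul_assoc]
  have e2 : κ b ^ F.index = 1 := by
    have h2 := e1 F.index
    rw [hf.cls _ (F.pow_index_mem g) b hb] at h2
    exact (mul_right_cancel₀ h0 (h2.symm.trans (one_mul _).symm))
  have e3 : ∀ i : ℕ, κ (b ^ i) = κ b ^ i := by
    intro i
    induction i with
    | zero => simp [k4]
    | succ i ih => rw [pow_succ, k2 _ (R2.pow_mem hb i) b hbS, ih, pow_succ]
  have e4 : κ b ^ p ^ c = 1 := by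
    rw [← e3, ← one_mul (b ^ p ^ c), k3 _ _ (hpow b (h.le hb)), k4]
  have e5 := pow_gcd_eq_one.mpr ⟨e4, e2⟩
  rw [Nat.Coprime.gcd_eq_one (Nat.Coprime.pow_left c hcop), pow_one] at e5
  rw [e5, one_mul]

theorem Chief.fpf (h : Chief F R1 R2) (hF : commutator G ≤ F) {y : G} (hy : y ∉ cent R1 R2)
    {b : G} (hb : b ∈ R2) (hc : b⁻¹ * y * b * y⁻¹ ∈ R1) : b ∈ R1 := by
  let D : Subgroup G :=
    R2 ⊓ (Subgroup.centralizer {QuotientGroup.mk' R1 y}).comap (QuotientGroup.mk' R1)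
  have hD : ∀ a, a ∈ D ↔ a ∈ R2 ∧ a⁻¹ * y * a * y⁻¹ ∈ R1 := by
    intro a
    rw [comm_iff, Subgroup.mem_inf, Subgroup.mem_comap, Subgroup.mem_centralizer_iff]
    simp [eq_comm]
  have hDn : D.Normal := by
    refine ⟨fun a ha g => ?_⟩
    rw [hD] at ha ⊢
    refine ⟨h.normal.conj_mem a ha.1 g, ?_⟩
    have h1 : g⁻¹ * y * g * y⁻¹ ∈ F := by
      have := hF (Subgroup.commutator_mem_commutator (Subgroup.mem_top g⁻¹) (Subgroup.mem_top y))
      simpa [commutatorElement_def] using this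
    have h2 := mem_cent.mp (h.cen h1) a ha.1
    have h3 := hR1.conj_mem _ (R1.mul_mem h2 (hR1.conj_mem _ ha.2 (g⁻¹ * y * g * y⁻¹))) g
    convert h3 using 1
    group
  have h1 : R1 ≤ D := fun r hr => (hD r).mpr ⟨h.lt.le hr, by
    have := R1.mul_mem (R1.inv_mem hr) (hR1.conj_mem r hr y)
    simpa [mul_assoc] using this⟩
  rcases h.min D hDn h1 inf_le_left with h2 | h2
  · rw [← h2]; exact (hD b).mpr ⟨hb, hc⟩
  · exact absurd (mem_cent.mpr fun a ha => ((hD a).mp (h2.symm ▸ ha)).2) hy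

theorem Chief.stab_of_not_cent (h : Chief F R1 R2) [R2.Normal] (hF : commutator G ≤ F)
    (hf : Sph F R2 f) {y g : G} (hy : y ∈ stab R2 f) (hyc : y ∉ cent R1 R2)
    (hg : g ∈ stab R1 f) : g ∈ stab R2 f := by
  have hFn := normal_of_commutator_le hF
  obtain ⟨κ, k1, k2, k3, k4⟩ := h.kappa hf (hf.cj hFn h.normal g) hg
  set S := h.supp hf with hS
  have hyS : ∀ b ∈ S, y⁻¹ * b * y ∈ S := by
    intro b hb
    refine ⟨conj_mem' h.normal hb.1 y, ?_⟩
    have h1 : tc R1 f f (y⁻¹ * b * y) = tc R1 f f b := by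
      unfold tc
      rw [← sm_conj hR1 y]
      refine sm_congr fun r hr => ?_
      have h2 := hy _ (R2.mul_mem hb.1 (h.lt.le hr))
      have h3 : y⁻¹ * b * y * (y⁻¹ * r * y) = y⁻¹ * (b * r) * y := by group
      rw [h3, h2]
    rw [h1]
    exact hb.2
  have hκy : ∀ b ∈ S, κ (y⁻¹ * b * y) = κ b := by
    intro b hb
    obtain ⟨r, hr, h1⟩ := tc_ne hb.2
    have hb' := R2.mul_mem hb.1 (h.lt.le hr)
    have h2 := k1 _ (conj_mem' h.normal hb' y)
    have h3 : g⁻¹ * y⁻¹ * g * y ∈ F := by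
      have := hF (Subgroup.commutator_mem_commutator (Subgroup.mem_top g⁻¹) (Subgroup.mem_top y⁻¹))
      simpa [commutatorElement_def] using this
    have h4 : cj g f (y⁻¹ * (b * r) * y) = cj g f (b * r) := by
      have h5 := hf.cls _ h3 _ (conj_mem' h.normal (conj_mem' h.normal hb' y) g)
      have h6 := hy _ (conj_mem' h.normal hb' g)
      simp only [cj]
      rw [← h5, ← h6]
      congr 1
      group
    have h7 : y⁻¹ * (b * r) * y = y⁻¹ * b * y * (y⁻¹ * r * y) := by group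
    rw [h4, k1 _ hb', hy _ hb', k3 _ _ hr, h7, k3 _ _ (conj_mem' hR1 hr y)] at h2
    exact (mul_right_cancel₀ h1 h2).symm
  let T := S.map (QuotientGroup.mk' R1)
  let Φ : T → T := fun t => ⟨(QuotientGroup.mk' R1 y)⁻¹ * t * QuotientGroup.mk' R1 y * (t : G ⧸ R1)⁻¹, by
    obtain ⟨_, b, hb, rfl⟩ := t
    exact ⟨y⁻¹ * b * y * b⁻¹, S.mul_mem (hyS b hb) (S.inv_mem hb), by simp⟩⟩
  have hinj : Function.Injective Φ := by
    rintro ⟨_, a, ha, rfl⟩ ⟨_, b, hb, rfl⟩ hab
    have h1 := congrArg Subtype.val hab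
    simp only [Φ, mul_assoc, mul_right_inj] at h1
    have h2 : b⁻¹ * a ∈ R1 := by
      refine h.fpf hF hyc (R2.mul_mem (R2.inv_mem hb.1) ha.1) ((comm_iff _ _).mpr ?_)
      rw [map_mul, map_inv]
      set A := QuotientGroup.mk' R1 a
      set B := QuotientGroup.mk' R1 b
      set Y := QuotientGroup.mk' R1 y
      calc B⁻¹ * A * Y = B⁻¹ * (A * (Y * A⁻¹)) * A := by group
        _ = Y * (B⁻¹ * A) := by rw [h1]; group
    exact Subtype.ext (QuotientGroup.eq.mpr h2).symm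
  have hsurj := Finite.surjective_of_injective hinj
  intro s hs
  change cj g f s = _
  rw [k1 s hs]
  by_cases h0 : f s = 0
  · rw [h0, mul_zero]
  obtain ⟨⟨_, b, hb, rfl⟩, h1⟩ := hsurj ⟨_, s, h.mem_supp hf hs h0, rfl⟩
  have h2 : (y⁻¹ * b * y * b⁻¹)⁻¹ * s ∈ R1 := by
    refine QuotientGroup.eq.mp ?_
    have := congrArg Subtype.val h1
    simpa [Φ] using this
  have h3 := k3 (y⁻¹ * b * y * b⁻¹) _ h2
  rw [mul_inv_cancel_left, k2 _ (hyS b hb).1 _ (S.inv_mem hb), hκy b hb,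
    ← k2 _ hb.1 _ (S.inv_mem hb), mul_inv_cancel, k4] at h3
  rw [h3, one_mul]

theorem stab_anti {R1 R2 : Subgroup G} [R1.Normal] [R2.Normal] (hle : R1 ≤ R2) (f : G → ℂ) :
    stab R2 f ≤ stab R1 f := fun _ hg a ha => hg a (hle ha)

theorem Chief.dichotomy (h : Chief F R1 R2) [R2.Normal] (hF : commutator G ≤ F) (hf : Sph F R2 f)
    {p c : ℕ} (hpow : ∀ x ∈ F, x ^ p ^ c ∈ R1) (hcop : Nat.Coprime p F.index) :
    stab R2 f = stab R1 f ∨ stab R2 f = stab R1 f ⊓ cent R1 R2 := by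
  by_cases hy : stab R2 f ≤ cent R1 R2
  · right
    exact le_antisymm (le_inf (stab_anti h.lt.le f) hy) fun g hg =>
      h.stab_of_cent (normal_of_commutator_le hF) hf hpow hcop hg.1 hg.2
  · left
    obtain ⟨y, hy1, hy2⟩ := SetLike.not_le_iff_exists.mp hy
    exact le_antisymm (stab_anti h.lt.le f) fun g hg => h.stab_of_not_cent hF hf hy1 hy2 hg

end step

end Pool.Agent.SemiProp
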