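import Pool.Agent.Lib.MP_c1c6b6_al.PN4

set_option autoImplicit false
set_option linter.unusedSectionVars false

open Module Finset

namespace Pool.Agent.SemiProp

universe u

variable {G : Type u} [Group G] [Fintype G]

/-- A group of linear characters of `G / F` that separates the cosets of `F`. -/
structure Dual {Λ : Type*} [CommGroup Λ] [Fintype Λ] (F : Subgroup G) (ev : Λ →* G →* ℂ) :
    Prop where
  one : ∀ l, ∀ x ∈ F, ev l x = 1
  zero : ∀ g, g ∉ F → ∑ l, ev l g = 0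

theorem exists_dual {F : Subgroup G} (hF : commutator G ≤ F) :
    ∃ (Λ : Type u) (_ : CommGroup Λ) (_ : Fintype Λ) (ev : Λ →* G →* ℂ), Dual F ev := by
  have hn := normal_of_commutator_le hF
  have hc : IsMulCommutative (G ⧸ F) :=
    Subgroup.Normal.quotient_commutative_iff_commutator_le.mpr hF
  let _ : CommGroup (G ⧸ F) := { (inferInstance : Group (G ⧸ F)) with mul_comm := hc.is_comm.comm }
  have : NeZero (Monoid.exponent (G ⧸ F)) := ⟨Monoid.exponent_ne_zero_of_finite⟩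
  have : NeZero ((Monoid.exponent (G ⧸ F) : ℕ) : ℂ) :=
    ⟨by exact_mod_cast Monoid.exponent_ne_zero_of_finite⟩
  have : Finite ((G ⧸ F) →* ℂˣ) := inferInstance
  let _ : Fintype ((G ⧸ F) →* ℂˣ) := Fintype.ofFinite _
  let ev : ((G ⧸ F) →* ℂˣ) →* G →* ℂ :=
    { toFun := fun l => (Units.coeHom ℂ).comp (l.comp (QuotientGroup.mk' F))
      map_one' := by ext; simp
      map_mul' := fun a b => by ext; simp }
  refine ⟨_, inferInstance, inferInstance, ev, fun l x hx => ?_, fun g hg => ?_⟩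
  · change ((l (QuotientGroup.mk x) : ℂˣ) : ℂ) = 1
    rw [(QuotientGroup.eq_one_iff x).mpr hx, map_one, Units.val_one]
  · obtain ⟨l, hl⟩ := CommGroup.exists_apply_ne_one_of_hasEnoughRootsOfUnity (G ⧸ F) ℂ
      (a := QuotientGroup.mk g) (by rwa [Ne, QuotientGroup.eq_one_iff])
    exact sum_hom_units_eq_zero (ev.flip g) (fun h => hl (Units.ext (DFunLike.congr_fun h l)))

theorem lin_inv (μ : G →* ℂ) (a : G) : μ a⁻¹ = (starRingEnd ℂ) (μ a) := by
  have h1 : ‖μ a‖ = 1 := Complex.norm_eq_one_of_pow_eq_one (n := orderOf a)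
    (by rw [← map_pow, pow_orderOf_eq_one, map_one]) (orderOf_pos a).ne'
  rw [map_inv, Complex.inv_eq_conj h1]

theorem lin_conj (μ : G →* ℂ) (x a : G) : μ (x⁻¹ * a * x) = μ a := by
  rw [map_mul, mul_comm, ← map_mul, mul_inv_cancel_left]

theorem Sph.mul_lin {X R : Subgroup G} {f : G → ℂ} (h : Sph X R f) (μ : G →* ℂ) :
    Sph X R (fun a => μ a * f a) := by
  refine ⟨by simp [h.one], fun a ha => ?_, fun x hx a ha => ?_, fun a ha b hb => ?_⟩
  · simp only [lin_inv, h.inv a ha, map_mul]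
  · simp only [lin_conj, h.cls x hx a ha]
  · have h1 : ∀ x : G, μ (a * x * b * x⁻¹) = μ a * μ b := fun x => by
      rw [← lin_conj μ x⁻¹ b, ← map_mul]
      simp [mul_assoc]
    simp only [h1]
    rw [sm_mul, h.fe a ha b hb]
    ring

theorem ip_mul (R : Subgroup G) (c c' : ℂ) (f1 f2 : G → ℂ) :
    ip R (fun x => c * f1 x) (fun x => c' * f2 x) = c * (starRingEnd ℂ) c' * ip R f1 f2 := by
  unfold ip
  rw [← sm_mul]
  exact sm_congr fun x _ => by rw [map_mul]; ring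

theorem twist {φ ψ : G → ℂ} {a b : ℕ} (hφ : Chr φ a) (hψ : Chr ψ b) (μ : G →* ℂ)
    (h : ip ⊤ (fun x => μ x * φ x) ψ ≠ 0) (g : G) : b * (μ g * φ g) = a * ψ g := by
  have ha := hφ.ne
  have hb := hψ.ne
  have h1 := orth (hφ.sph.mul_lin μ) hψ.sph inferInstance (by
    rw [ip_congr (g1 := fun x => (a : ℂ)⁻¹ * (μ x * φ x)) (g2 := fun x => (b : ℂ)⁻¹ * ψ x)
      (fun x _ => by ring) (fun x _ => by ring), ip_mul]
    exact mul_ne_zero (mul_ne_zero (inv_ne_zero ha) (by simpa using hψ.pos.ne')) h) g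
    (Subgroup.mem_top g)
  field_simp at h1
  linear_combination h1

section dual

variable {Λ : Type*} [CommGroup Λ] [Fintype Λ] {F : Subgroup G} {ev : Λ →* G →* ℂ}

theorem Dual.sum_ip (h : Dual F ev) {Y Z : Subgroup G} (hZ : Z ≤ Y) (hF : Z ≤ F)
    (hZF : ∀ x ∈ Y, x ∈ F → x ∈ Z) (f1 f2 : G → ℂ) :
    ∑ l, ip Y (fun x => ev l x * f1 x) f2 = Nat.card Λ * ip Z f1 f2 := by
  unfold ip
  rw [← sm_sum, sm_of_zero hZ, ← sm_mul]
  · refine sm_congr fun x hx => ?_
    simp [h.one _ x (hF hx)]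
  · intro x hx hn
    simp_rw [mul_assoc]
    rw [← Finset.sum_mul, h.zero x (fun h => hn (hZF x hx h)), zero_mul]

/-- The linear characters that fix `φ`. -/
def fixU (ev : Λ →* G →* ℂ) (φ : G → ℂ) : Subgroup Λ where
  carrier := {l | ∀ g, φ g = 0 ∨ ev l g = 1}
  one_mem' := fun g => Or.inr (by simp)
  mul_mem' := fun {l l'} hl hl' g => by
    rcases hl g with h1 | h1
    · exact Or.inl h1
    · refine (hl' g).imp_right fun h2 => ?_
      rw [map_mul, MonoidHom.mul_apply, h1, h2, mul_one]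
  inv_mem' := fun {l} hl g => (hl g).imp_right fun h1 => by
    have h2 : ev (l⁻¹ * l) g = ev l⁻¹ g * ev l g := by rw [map_mul, MonoidHom.mul_apply]
    rw [inv_mul_cancel, h1, mul_one, map_one] at h2
    exact h2.symm

theorem Dual.card_fix (h : Dual F ev) {φ : G → ℂ} {a : ℕ} (hφ : Chr φ a) :
    (Nat.card (fixU ev φ) : ℂ) * Nat.card G = Nat.card Λ * ip F φ φ := by
  classical
  rw [← h.sum_ip le_top le_rfl (fun _ _ hx => hx), ← sm_const, ← sum_ite_mem]
  refine Finset.sum_congr rfl fun l _ => ?_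
  split_ifs with hl
  · rw [← hφ.norm]
    refine ip_congr (fun x _ => ?_) (fun _ _ => rfl)
    rcases hl x with h1 | h1 <;> simp [h1]
  · by_contra hne
    refine hl fun g => ?_
    have h1 := mul_left_cancel₀ hφ.ne (twist hφ hφ (ev l) (Ne.symm hne) g)
    by_cases h0 : φ g = 0
    · exact Or.inl h0
    · exact Or.inr (mul_right_cancel₀ h0 (h1.trans (one_mul _).symm))

end dual

theorem deg_eq_of_ip {φ ψ : G → ℂ} {a b : ℕ} (hφ : Chr φ a) (hψ : Chr ψ b) {F : Subgroup G}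
    (hF : commutator G ≤ F) (h : ip F φ ψ ≠ 0) : a = b := by
  obtain ⟨Λ, _, _, ev, hev⟩ := exists_dual hF
  have h1 := hev.sum_ip le_top le_rfl (fun _ _ hx => hx) φ ψ
  obtain ⟨l, -, hl⟩ := Finset.exists_ne_zero_of_sum_ne_zero (h1 ▸ mul_ne_zero cardG_ne h)
  have h2 : ip ⊤ (fun x => b * φ x) (fun x => b * φ x) = ip ⊤ (fun x => a * ψ x) (fun x => a * ψ x) :=
    sm_congr fun x _ => by
      have h3 : ev l x * (starRingEnd ℂ) (ev l x) = 1 := by
        rw [← lin_inv, ← map_mul, mul_inv_cancel, map_one]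
      simp only [← twist hφ hψ (ev l) hl x, map_mul]
      linear_combination -(b * φ x * ((starRingEnd ℂ) b * (starRingEnd ℂ) (φ x))) * h3
  rw [ip_mul, ip_mul, hφ.norm, hψ.norm, Complex.conj_natCast, Complex.conj_natCast] at h2
  have h4 : b * b = a * a := by exact_mod_cast mul_right_cancel₀ cardG_ne h2
  exact (Nat.mul_self_inj.mp h4).symm

section comp

variable {φ f : G → ℂ} {a : ℕ} {F X : Subgroup G} [hF : F.Normal]

theorem comp_exists (hφ : Chr φ a) (hf : Sph F F f) (hav : Avg F φ a f) (hX : X.Normal)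
    (h1 : F ≤ X) (h2 : X ≤ stab F f) :
    ∃ (d : ℕ) (h : G → ℂ), 0 < d ∧ Sph X X h ∧ Avg X φ a h ∧ IsChar X (fun x => d * h x) ∧
      (d : ℂ) ^ 2 * ip X h h = Nat.card X ∧ ∀ x ∈ F, h x = f x := by
  obtain ⟨d, h, hd, hs, hv, hc, hn⟩ := hφ.ex X hX
  have h3 : ∃ g, ∀ x ∈ F, cj g h x = f x := by
    by_contra hne
    exact ip_self_ne (by rw [hφ.one]; exact hφ.ne) (Avg.ip_zero hX hF (hv.mono h1) hav (hs.mono h1)
      (hf.up h1 hF hF fun y hy => h2 hy) hφ.cls hne)
  obtain ⟨g, hg⟩ := h3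
  exact ⟨d, cj g h, hd, hs.cj hX hX g, hv.cj g, hc.cj hX g, by rw [ip_cj hX, hn], hg⟩

theorem comp_sum {h : G → ℂ} (hf : Sph F F f) (hX : X.Normal) (h1 : F ≤ X) (h2 : X ≤ stab F f)
    (hs : Sph X X h) (hv : Avg X φ a h) (he : ∀ x ∈ F, h x = f x) {x : G} (hx : x ∈ X) :
    Nat.card G * sm F (fun r => φ (x * r) * (starRingEnd ℂ) (f r)) =
      a * ip F f f * sm (stab F f) (fun g => h (g⁻¹ * x * g)) := by
  classical
  have e1 : ∀ g : G, sm F (fun r => cj g h (x * r) * (starRingEnd ℂ) (f r)) =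
      if g ∈ stab F f then ip F f f * h (g⁻¹ * x * g) else 0 := by
    intro g
    rw [(hs.cj hX hX g).conv h1 hF (e := fun r => (starRingEnd ℂ) (f r))
      (fun y hy r hr => by rw [h2 hy r hr]) hx]
    have e2 : ip F (cj g h) f = ip F (cj g f) f :=
      ip_congr (fun r hr => he _ (conj_mem' hF hr g)) (fun _ _ => rfl)
    change _ * ip F (cj g h) f = _
    rw [e2, ip_cj_eq hF hf]
    split_ifs
    · exact mul_comm _ _
    · exact mul_zero _
  rw [mul_assoc, ← sm_mul (stab F f), ← sum_ite_mem (stab F f),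
    ← Finset.sum_congr rfl (fun g _ => e1 g),
    ← sm_sum, ← sm_mul, ← sm_mul]
  refine sm_congr fun r hr => ?_
  rw [← mul_assoc, hv _ (X.mul_mem hx (h1 hr)), ← Finset.sum_mul, mul_assoc]
  rfl

end comp

/-- An invariant character extends over a cyclic quotient, so it is not fully ramified. -/
theorem cyc_contra {I I' : Subgroup G} (hI' : I'.Normal) (hle : I' ≤ I) {g0 : G → ℂ}
    (h1 : Sph I I g0) (h2 : Sph I' I' g0) (h0 : ∀ y ∈ I, y ∉ I' → g0 y = 0) {x : G} (hx : x ∈ I)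
    (hgen : ∀ y ∈ I, ∃ k : ℤ, (x ^ k)⁻¹ * y ∈ I') : x ∈ I' := by
  by_contra hx'
  have key : ∀ t ∈ I', sm I' (fun c => g0 ((x * t)⁻¹ * c * (x * t) * c⁻¹)) = 0 := by
    intro t ht
    set b := x * t with hb
    have hbI : b ∈ I := I.mul_mem hx (hle ht)
    have hb0 : g0 b = 0 := h0 b hbI fun h => hx' ((I'.mul_mem_cancel_right ht).mp h)
    have e1 := h1.fe _ (I.inv_mem hbI) _ hbI
    have e2 := sm_double hle (fun y => g0 (b⁻¹ * y * b * y⁻¹))
    rw [e1, hb0, mul_zero, mul_zero, mul_zero,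
      sm_congr (h' := fun _ => sm I' (fun c => g0 (b⁻¹ * c * b * c⁻¹))), sm_const] at e2
    · exact (mul_eq_zero.mp e2).resolve_left (card_ne I)
    · intro y hy
      obtain ⟨k, hk⟩ := hgen y hy
      have e3 : (b ^ k)⁻¹ * y ∈ I' := by
        rw [← QuotientGroup.eq] at hk ⊢
        rw [← hk, QuotientGroup.mk_zpow, QuotientGroup.mk_zpow, hb, QuotientGroup.mk_mul_of_mem x ht]
      rw [← sm_conj' hI' (b ^ k) (fun c => g0 (b⁻¹ * c * b * c⁻¹)),
        ← sm_mul_left e3 (fun c => g0 (b⁻¹ * (b ^ k * c * (b ^ k)⁻¹) * b * (b ^ k * c * (b ^ k)⁻¹)⁻¹))]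
      refine sm_congr fun c _ => ?_
      congr 1
      group
  have e4 : sm I' (fun t => sm I' (fun c => g0 ((x * t)⁻¹ * c * (x * t) * c⁻¹))) =
      Nat.card I' * ip I' g0 g0 := by
    rw [sm_comm, ip, ← sm_mul]
    refine sm_congr fun c hc => ?_
    have e5 := h2.fe _ (I'.inv_mem hc) _ (conj_mem' hI' hc x)
    rw [h2.inv c hc, h1.cls x hx c (hle hc), mul_comm _ (g0 c), ← sm_inv] at e5
    rw [← e5]
    refine sm_congr fun t ht => ?_
    have e6 : (x * t)⁻¹ * c * (x * t) * c⁻¹ ∈ I' :=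
      I'.mul_mem (conj_mem' hI' hc _) (I'.inv_mem hc)
    rw [← h2.cls c hc _ e6]
    congr 1
    group
  rw [sm_congr key, sm_zero] at e4
  exact mul_ne_zero (card_ne I') (ip_self_ne (by rw [h1.one]; exact one_ne_zero)) e4.symm

theorem exists_compl {Q F : Subgroup G} [Q.Normal] [F.Normal] (hle : Q ≤ F)
    (hcop : Nat.Coprime (Q.relIndex F) F.index) {I : Subgroup G} (hI : F ≤ I) :
    ∃ H : Subgroup G, Q ≤ H ∧ H ≤ I ∧ (∀ x ∈ H, x ∈ F → x ∈ Q) ∧
      Nat.card H * Q.relIndex F = Nat.card I := by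
  have hs := QuotientGroup.mk'_surjective Q
  have hn : (F.map (QuotientGroup.mk' Q)).Normal := Subgroup.Normal.map inferInstance _ hs
  obtain ⟨K, hK⟩ := Subgroup.exists_left_complement'_of_coprime (N := F.map (QuotientGroup.mk' Q)) (by
    rw [← Subgroup.relIndex_ker, QuotientGroup.ker_mk',
      Subgroup.index_map_eq _ hs (by rwa [QuotientGroup.ker_mk'])]
    exact hcop)
  let H := K.comap (QuotientGroup.mk' Q) ⊓ I
  have h1 : Q ≤ H := fun q hq => Subgroup.mem_inf.mpr ⟨by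
    rw [Subgroup.mem_comap, show QuotientGroup.mk' Q q = 1 from
      (QuotientGroup.eq_one_iff q).mpr hq]
    exact K.one_mem, hI (hle hq)⟩
  have h2 : ∀ x ∈ H, x ∈ F → x ∈ Q := fun x hx hx' =>
    (QuotientGroup.eq_one_iff x).mp
      (Subgroup.disjoint_def.mp hK.disjoint hx.1 ⟨x, hx', rfl⟩)
  have h3 : H ⊔ F = I := by
    refine le_antisymm (sup_le inf_le_right hI) fun y hy => ?_
    obtain ⟨⟨k, ⟨_, r, hr, rfl⟩⟩, hk⟩ := hK.2 (QuotientGroup.mk' Q y)
    have e1 : y * r⁻¹ ∈ H := Subgroup.mem_inf.mpr ⟨by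
      rw [Subgroup.mem_comap, map_mul, ← hk, map_inv]
      simp, I.mul_mem hy (I.inv_mem (hI hr))⟩
    simpa using Subgroup.mul_mem_sup e1 hr
  have h4 : F ⊓ H = Q := le_antisymm (fun x hx => h2 x hx.2 hx.1) (le_inf hle h1)
  have hc : ∀ {A B : Subgroup G}, A ≤ B → Nat.card B = Nat.card A * A.relIndex B := by
    intro A B hAB
    rw [Subgroup.relIndex, ← (A.subgroupOf B).card_mul_index,
      Nat.card_congr (Subgroup.subgroupOfEquivOfLe hAB).toEquiv]
  refine ⟨H, h1, inf_le_right, h2, ?_⟩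
  rw [hc hI, hc hle, hc h1, ← h3, Subgroup.relIndex_sup_right, ← Subgroup.inf_relIndex_right F H, h4]
  ring

end Pool.Agent.SemiProp
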