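import Pool.Agent.Lib.MP_c1c6b6_al.PN5

set_option autoImplicit false
set_option linter.unusedSectionVars false

open Module Finset

namespace Pool.Agent.SemiProp

universe u

variable {G : Type u} [Group G] [Fintype G]

theorem ip_split (R : Subgroup G) (f : G → ℂ) :
    ∃ t : ℝ, 0 ≤ t ∧ ip ⊤ f f = ip R f f + t ∧ (t = 0 → ∀ a, a ∉ R → f a = 0) := by
  classical
  obtain ⟨t, t1, t2, -, t3⟩ := ip_self_real ⊤ (fun a => if a ∈ R then 0 else f a)
  refine ⟨t, t1, ?_, fun h a ha => by simpa [ha] using t3 h a (Subgroup.mem_top a)⟩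
  rw [← t2]
  unfold ip
  rw [← sum_ite_mem R, ← sm_top, ← sm_add]
  refine sm_congr fun a _ => ?_
  by_cases ha : a ∈ R <;> simp [ha]

/-- An irreducible character is induced from the stabiliser of a constituent. -/
theorem induced {ψ h0 : G → ℂ} {b d0 : ℕ} (hψ : Chr ψ b) {X : Subgroup G} [hX : X.Normal]
    (hs : Sph X X h0) (hv : Avg X ψ b h0) (hc : IsChar X (fun x => d0 * h0 x))
    (hn : (d0 : ℂ) ^ 2 * ip X h0 h0 = Nat.card X) (hd : 0 < d0) (hst : stab X h0 = X) :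
    b = d0 * X.index ∧ ∀ y, y ∉ X → ψ y = 0 := by
  have n0 := hv.norm hX hs hψ.cls
  rw [hst] at n0
  obtain ⟨N, hN⟩ := (hψ.chr X).ip_nat hc
  have r0 := hv.ip_right hX hψ.cls
  have e0 := ip_mul X 1 d0 ψ h0
  simp only [one_mul, Complex.conj_natCast] at e0
  rw [e0] at hN
  have hd' : (d0 : ℂ) ≠ 0 := by exact_mod_cast hd.ne'
  have e1 : (b : ℂ) = d0 * X.index * N := by
    apply mul_left_cancel₀ (mul_ne_zero hψ.ne (card_ne X))
    linear_combination -(b : ℂ) ^ 2 * hn - (d0 : ℂ) ^ 2 * n0 + (d0 ^ 2 * X.index : ℂ) * r0 +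
      (b * d0 * X.index : ℂ) * hN
  have e2 : ip X ψ ψ = Nat.card G * N ^ 2 := by
    rw [← X.card_mul_index]
    push_cast
    apply mul_left_cancel₀ hd'
    linear_combination d0 * r0 + b * hN + (Nat.card X * N : ℂ) * e1
  obtain ⟨t, t1, t2, t3⟩ := ip_split X ψ
  rw [hψ.norm, e2] at t2
  have e3 : (Nat.card G : ℝ) = Nat.card G * N ^ 2 + t := by exact_mod_cast t2
  have e4 : b = d0 * X.index * N := by exact_mod_cast e1
  have hN0 : 1 ≤ N := Nat.pos_of_ne_zero (by rintro rfl; exact hψ.pos.ne' (by simpa using e4))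
  have hG : (0 : ℝ) < Nat.card G := by exact_mod_cast Nat.card_pos
  have hN1 : (1 : ℝ) ≤ N := by exact_mod_cast hN0
  have e5 : (N : ℝ) ^ 2 ≤ 1 := by nlinarith
  have e6 : N = 1 := by
    have : (N : ℝ) ≤ 1 := by nlinarith
    exact le_antisymm (by exact_mod_cast this) hN0
  subst e6
  exact ⟨by simpa using e4, t3 (by simpa using e3)⟩

variable {φ ψ f f' : G → ℂ} {a b m n p c : ℕ} {Q F : Subgroup G}

theorem Setup.sep (h : Setup φ ψ f f' a b m n p c Q F) : ¬ ∃ g, ∀ x ∈ F, cj g f x = f' x := by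
  have hF := normal_of_commutator_le h.comm
  rintro ⟨g, hg⟩
  have e1 : ∀ x ∈ F, (a : ℂ) * ψ x = b * φ x := by
    intro x hx
    have h1 := h.avg.cj g x hx
    have h2 := h.avg' x hx
    rw [Finset.sum_congr rfl (fun y _ => hg _ (conj_mem' hF hx y))] at h1
    apply mul_left_cancel₀ (cardG_ne (G := G))
    linear_combination a * h2 - b * h1
  have e2 : ip F φ ψ ≠ 0 := by
    intro h0
    have h1 : ip F (fun x => 1 * φ x) (fun x => a * ψ x) =
        ip F (fun x => 1 * φ x) (fun x => b * φ x) := ip_congr (fun _ _ => rfl) e1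
    rw [ip_mul, ip_mul, h0, mul_zero, one_mul, Complex.conj_natCast] at h1
    exact mul_ne_zero h.hψ.ne (ip_self_ne (by rw [h.hφ.one]; exact h.hφ.ne)) h1.symm
  have e3 := deg_eq_of_ip h.hφ h.hψ h.comm e2
  have e4 := h.deg
  rw [← e3] at e4
  exact h.lt.ne' (Nat.eq_of_mul_eq_mul_left h.hφ.pos e4)

theorem Setup.contra (h : Setup φ ψ f f' a b m n p c Q F) : False := by
  classical
  have hF := normal_of_commutator_le h.comm
  have hQ := h.normal
  obtain ⟨⟨k, k', m1, m2⟩, hC⟩ := h.chain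
  obtain ⟨C, hC1, hC2⟩ := hC h.sep
  have hidx := h.idx le_rfl m1 m2 h.sep
  have hFI' : F ≤ stab F f' := h.sph'.le_stab
  have hI'I : stab F f' ≤ stab F f := hC2.le.trans inf_le_left
  have hI' := normal_of_commutator_le (h.comm.trans hFI')
  have hI := normal_of_commutator_le ((h.comm.trans hFI').trans hI'I)
  have hs1 : ip F f f ≠ 0 := ip_self_ne (by rw [h.sph.one]; exact one_ne_zero)
  have hs2 : ip F f' f' ≠ 0 := ip_self_ne (by rw [h.sph'.one]; exact one_ne_zero)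
  have hs3 : ip Q f f ≠ 0 := ip_self_ne (by rw [h.sph.one]; exact one_ne_zero)
  have hpos : ∀ T : Subgroup G, 0 < T.index := fun T =>
    Nat.pos_of_ne_zero T.index_ne_zero_of_finite
  obtain ⟨d0, h0, hd0, hs0, hv0, hc0, hn0, he0⟩ := comp_exists h.hψ h.sph' h.avg' hI' hFI' le_rfl
  obtain ⟨hb, hψ0⟩ := induced h.hψ hs0 hv0 hc0 hn0 hd0
    (le_antisymm ((stab_anti hFI' h0).trans (stab_congr he0).le) hs0.le_stab)
  have hφ0 : ∀ y, y ∉ stab F f' → φ y = 0 := fun y hy =>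
    (h.rel.zero_iff (h.npos.trans h.lt) h.npos y).mpr (hψ0 y hy)
  obtain ⟨d, δ, hd, hs, hv, hc, hn, he⟩ := comp_exists h.hφ h.sph h.avg hI' hFI' hI'I
  have hJ : stab (stab F f') δ ≤ stab F f := (stab_anti hFI' δ).trans (stab_congr he).le
  set r := (stab (stab F f') δ).relIndex (stab F f) with hr
  have hri := Subgroup.relIndex_mul_index hJ
  have e1 : r * d ^ 2 = d0 ^ 2 := by
    have n1 := hv.norm hI' hs h.hφ.cls
    have n2 : ip (stab F f') φ φ = Nat.card G := by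
      rw [← h.hφ.norm]
      exact (sm_of_zero le_top fun y _ hy => by rw [hφ0 y hy, zero_mul]).symm
    rw [n2, ← (stab F f').card_mul_index, ← hri] at n1
    have n3 : ((r * (stab F f).index * (stab F f').index * d ^ 2 : ℕ) : ℂ) = ((a ^ 2 : ℕ) : ℂ) := by
      apply mul_left_cancel₀ (card_ne (stab F f'))
      push_cast at n1 ⊢
      linear_combination (d : ℂ) ^ 2 * n1 + (a : ℂ) ^ 2 * hn
    have n4 : r * (stab F f).index * (stab F f').index * d ^ 2 = a ^ 2 := by exact_mod_cast n3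
    have n5 := h.deg
    rw [hb] at n5
    refine Nat.eq_of_mul_eq_mul_left (Nat.mul_pos (Nat.mul_pos (hpos (stab F f)) (hpos (stab F f')))
      (pow_pos (h.npos.trans h.lt) 2)) ?_
    zify at n4 n5 hidx ⊢
    linear_combination (m : ℤ) ^ 2 * n4 + (a * m + d0 * (stab F f').index * n : ℤ) * n5 +
      (d0 ^ 2 * (stab F f').index : ℤ) * hidx
  obtain ⟨H, hQH, hHI, hHF, hH⟩ := exists_compl h.le
    (by rw [h.rel_index]; exact h.cop.pow_left c) hFI'
  rw [h.rel_index] at hH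
  obtain ⟨Λ, _, _, ev, hev⟩ := exists_dual h.comm
  choose N hN using fun l : Λ => ((hc0.mul_lin (ev l)).mono hHI).ip_nat (hc.mono hHI)
  have e2 : ∀ l, ∀ u ∈ fixU ev ψ, N (l * u) = N l := by
    intro l u hu
    have n1 : (Nat.card H : ℂ) * N (l * u) = Nat.card H * N l := by
      rw [← hN, ← hN]
      refine ip_congr (fun x hx => ?_) (fun _ _ => rfl)
      rw [map_mul, MonoidHom.mul_apply]
      by_cases hx1 : ev u x = 1
      · rw [hx1, mul_one]
      have n2 := comp_sum h.sph' hI' hFI' le_rfl hs0 hv0 he0 (hHI hx)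
      rw [sm_congr (R := F) (h' := fun _ => 0) (fun t ht => by
          rw [(hu (x * t)).resolve_right (by rwa [map_mul, hev.one u t ht, mul_one]), zero_mul]),
        sm_zero, mul_zero, sm_congr (h' := fun _ => h0 x) (fun g hg => hs0.cls g hg x (hHI hx)),
        sm_const] at n2
      rw [(mul_eq_zero.mp ((mul_eq_zero.mp n2.symm).resolve_left
        (mul_ne_zero h.hψ.ne hs2))).resolve_left (card_ne _)]
      simp
    exact_mod_cast mul_left_cancel₀ (card_ne H) n1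
  let _ := Fintype.ofFinite (Λ ⧸ fixU ev ψ)
  have e3 := sum_coset (fixU ev ψ) N e2
  set z := ∑ q : Λ ⧸ fixU ev ψ, N q.out
  have e4 : z * d0 * p ^ k' = d * p ^ c := by
    have n1 := hev.sum_ip hQH h.le hHF (fun x => d0 * h0 x) (fun x => d * δ x)
    rw [ip_mul, ip_congr (g1 := f) (g2 := f) (fun x hx => by rw [he0 x (h.le hx), h.same x hx])
      (fun x hx => he x (h.le hx)), Finset.sum_congr rfl (fun l _ => hN l), ← Finset.mul_sum,
      ← Nat.cast_sum, e3, Complex.conj_natCast, smul_eq_mul] at n1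
    have n2 := hev.card_fix h.hψ
    have n3 := h.avg'.norm hF h.sph' h.hψ.cls
    rw [← (stab F f').card_mul_index, ← hH] at n2
    rw [m2, hb] at n3
    have n4 : ((z * d0 * p ^ k' : ℕ) : ℂ) = ((d * p ^ c : ℕ) : ℂ) := by
      have hi : ((stab F f').index : ℂ) ≠ 0 := by exact_mod_cast (hpos _).ne'
      have hd0' : (d0 : ℂ) ≠ 0 := by exact_mod_cast hd0.ne'
      apply mul_left_cancel₀ (mul_ne_zero (mul_ne_zero (mul_ne_zero (cardG_ne (G := Λ)) hs3) hd0')
        (pow_ne_zero 2 hi))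
      push_cast at n1 n2 n3 ⊢
      linear_combination (p ^ c * (stab F f').index ^ 2 : ℂ) * n1 -
        (z * (stab F f').index : ℂ) * n2 - (z * Nat.card Λ : ℂ) * n3
    exact_mod_cast n4
  have e5 : r = 1 := by
    have n1 : r * (z * p ^ k') ^ 2 = p ^ (2 * c) := by
      refine Nat.eq_of_mul_eq_mul_left (pow_pos hd 2) ?_
      zify at e1 e4 ⊢
      linear_combination ((z : ℤ) * p ^ k') ^ 2 * e1 + (z * d0 * p ^ k' + d * p ^ c : ℤ) * e4
    have n2 : r ∣ F.index :=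
      (Dvd.intro _ hri).trans (Subgroup.index_dvd_of_le (hFI'.trans hs.le_stab))
    exact Nat.Coprime.eq_one_of_dvd
      (Nat.Coprime.coprime_dvd_left n2 (h.cop.pow_left (2 * c)).symm) (Dvd.intro _ n1)
  have e6 : stab F f ≤ stab (stab F f') δ := Subgroup.relIndex_eq_one.mp e5
  obtain ⟨-, g0, -, gs, gv, -, -, ge⟩ :=
    comp_exists h.hφ h.sph h.avg hI (hFI'.trans hI'I) le_rfl
  have e7 : ∀ x ∈ stab F f, Nat.card G * sm F (fun r => φ (x * r) * (starRingEnd ℂ) (f r)) =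
      a * ip F f f * (Nat.card (stab F f) * g0 x) := fun x hx => by
    rw [comp_sum h.sph hI (hFI'.trans hI'I) le_rfl gs gv ge hx, ← sm_const]
    exact congrArg _ (sm_congr fun g hg => gs.cls g hg x hx)
  have e8 : ∀ x ∈ stab F f', g0 x = δ x := fun x hx => by
    have n1 := e7 x (hI'I hx)
    rw [comp_sum h.sph hI' hFI' hI'I hs hv he hx,
      sm_congr (h' := fun _ => δ x) (fun g hg => e6 hg x hx), sm_const] at n1
    exact (mul_left_cancel₀ (card_ne _) (mul_left_cancel₀ (mul_ne_zero h.hφ.ne hs1) n1)).symm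
  have e9 : ∀ y ∈ stab F f, y ∉ stab F f' → g0 y = 0 := fun y hy hy' => by
    have n1 := e7 y hy
    rw [sm_congr (R := F) (h' := fun _ => 0) (fun t ht => by
      rw [hφ0 _ fun h => hy' (((stab F f').mul_mem_cancel_right (hFI' ht)).mp h), zero_mul]),
      sm_zero, mul_zero] at n1
    exact (mul_eq_zero.mp ((mul_eq_zero.mp n1.symm).resolve_left
      (mul_ne_zero h.hφ.ne hs1))).resolve_left (card_ne _)
  obtain ⟨x, hx, hgen⟩ := hC1 (stab F f)
  have hgen' : ∀ y ∈ stab F f, ∃ k : ℤ, (x ^ k)⁻¹ * y ∈ stab F f' := fun y hy => by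
    obtain ⟨j, hj⟩ := hgen y hy
    exact ⟨j, hC2.ge (Subgroup.mem_inf.mpr ⟨mul_mem (inv_mem (zpow_mem hx j)) hy, hj⟩)⟩
  have hx' := cyc_contra hI' hI'I gs (hs.congr hI' le_rfl e8) e9 hx hgen'
  have e10 : stab F f' = stab F f := le_antisymm hI'I fun y hy => by
    obtain ⟨j, hj⟩ := hgen' y hy
    simpa using mul_mem (zpow_mem hx' j) hj
  rw [e10] at hidx
  exact (Nat.pow_lt_pow_left h.lt two_ne_zero).ne (Nat.eq_of_mul_eq_mul_right (hpos _) hidx)

theorem core_pn (hφ : Chr φ a) (hψ : Chr ψ b) (hrel : Rel φ ψ m n) (deg : a * m = b * n)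
    (hlt : n < m) (hn : 0 < n) (hmn : Nat.Coprime m n) (hp : p.Prime) (hpN : p ∣ m ^ 2 + n ^ 2)
    [hQ : Q.Normal] (hpQ : ¬ p ∣ Nat.card Q) (hG : ∀ g ∈ commutator G, ∃ j, g ^ p ^ j ∈ Q) :
    False := by
  have : Fact p.Prime := ⟨hp⟩
  have hpmn : ¬ (p ∣ m ∧ p ∣ n) := fun h =>
    hp.not_dvd_one (hmn.gcd_eq_one ▸ Nat.dvd_gcd h.1 h.2)
  have hpm : ¬ p ∣ m := fun h => hpmn ⟨h, hp.dvd_of_dvd_pow
    ((Nat.dvd_add_right (dvd_pow h two_ne_zero)).mp hpN)⟩
  have hpn : ¬ p ∣ n := fun h => hpmn ⟨hp.dvd_of_dvd_pow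
    ((Nat.dvd_add_left (dvd_pow h two_ne_zero)).mp hpN), h⟩
  have hs := QuotientGroup.mk'_surjective Q
  have hP : IsPGroup p ((commutator G).map (QuotientGroup.mk' Q)) := by
    rintro ⟨_, x, hx, rfl⟩
    obtain ⟨j, hj⟩ := hG x hx
    refine ⟨j, Subtype.ext ?_⟩
    change (QuotientGroup.mk' Q x) ^ p ^ j = 1
    rw [← map_pow]
    exact (QuotientGroup.eq_one_iff _).mpr hj
  obtain ⟨P, hP1⟩ := hP.exists_le_sylow
  obtain ⟨c, hc⟩ := IsPGroup.iff_card.mp P.isPGroup'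
  have hcomm : commutator G ≤ (P : Subgroup (G ⧸ Q)).comap (QuotientGroup.mk' Q) :=
    Subgroup.map_le_iff_le_comap.mp hP1
  have hF := normal_of_commutator_le hcomm
  have hle : Q ≤ (P : Subgroup (G ⧸ Q)).comap (QuotientGroup.mk' Q) := fun q hq => by
    rw [Subgroup.mem_comap, show QuotientGroup.mk' Q q = 1 from (QuotientGroup.eq_one_iff q).mpr hq]
    exact one_mem _
  obtain ⟨-, f, -, fs, fv, -⟩ := hφ.ex _ hF
  obtain ⟨-, f', -, fs', fv', -⟩ := hψ.ex _ hF
  have h1 : ∃ g, ∀ x ∈ Q, cj g f x = f' x := by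
    by_contra hne
    exact no_sep hφ hψ hrel hp hpN hpn hpQ (Avg.ip_zero hF hQ (fv.mono hle) (fv'.mono hle)
      (fs.mono hle) (fs'.mono hle) hφ.cls hne)
  obtain ⟨g, hg⟩ := h1
  refine Setup.contra (c := c) ⟨hφ, hψ, hrel, deg, hlt, hn, hp, (hp.coprime_iff_not_dvd).mpr hpm,
    (hp.coprime_iff_not_dvd).mpr hpn, hQ, hle, hcomm, ?_, ?_, fs.cj hF hF g, fs', fv.cj g, fv', hg⟩
  · rw [← hc, ← Subgroup.map_comap_eq_self_of_surjective hs (P : Subgroup (G ⧸ Q)),
      ← Subgroup.relIndex_ker, QuotientGroup.ker_mk', Subgroup.map_comap_eq_self_of_surjective hs]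
  · rw [Subgroup.index_comap_of_surjective _ hs]
    exact (hp.coprime_iff_not_dvd).mpr P.not_dvd_index

end Pool.Agent.SemiProp
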