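import Pool.Agent.Lib.MP_c1c6b6_al.PN6

set_option autoImplicit false
set_option linter.unusedSectionVars false

open Module Finset

namespace Pool.Agent.SemiProp

theorem exists_prime_one_mod_four {m n : ℕ} (hmn : Nat.Coprime m n) (hn : 0 < n) (hlt : n < m) :
    ∃ p : ℕ, p.Prime ∧ p % 4 = 1 ∧ p ∣ m ^ 2 + n ^ 2 := by
  have h1 : IsSquare (-1 : ZMod (m ^ 2 + n ^ 2)) :=
    ZMod.isSquare_neg_one_of_eq_sq_add_sq_of_coprime rfl hmn
  rcases Nat.four_dvd_or_exists_odd_prime_and_dvd_of_two_lt (n := m ^ 2 + n ^ 2) (by nlinarith) with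
    h | ⟨p, hp, hd, ho⟩
  · exact absurd (ZMod.isSquare_neg_one_of_dvd h h1) (by decide)
  · have h2 := Nat.mod_four_ne_three_of_mem_primeFactors_of_isSquare_neg_one
      (Nat.mem_primeFactors.mpr ⟨hp, hd, by positivity⟩) h1
    have h3 := Nat.odd_iff.mp ho
    exact ⟨p, hp, by omega, hd⟩

variable {G : Type*} [Group G] [Fintype G]
variable {V W : Type} [AddCommGroup V] [Module ℂ V] [FiniteDimensional ℂ V]
  [AddCommGroup W] [Module ℂ W] [FiniteDimensional ℂ W]

theorem core_rep {ρ : Representation ℂ G V} {σ : Representation ℂ G W} (hρ : Irr ρ) (hσ : Irr σ)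
    (hlt : finrank ℂ W < finrank ℂ V)
    (hrel : ∀ g, (finrank ℂ W : ℂ) * ρ.character g = finrank ℂ V * σ.character g ∨
      (finrank ℂ V : ℂ) * ρ.character g = -(finrank ℂ W * σ.character g))
    {p : ℕ} (hp : p.Prime)
    (hpN : p ∣ (finrank ℂ V / Nat.gcd (finrank ℂ V) (finrank ℂ W)) ^ 2 +
      (finrank ℂ W / Nat.gcd (finrank ℂ V) (finrank ℂ W)) ^ 2)
    {Q : Subgroup G} (hQ : Q.Normal) (hQp : ∀ q ∈ Q, ∃ k : ℕ, ¬ p ∣ k ∧ ρ (q ^ k) = 1)
    (hG : ∀ g ∈ commutator G, ∃ j : ℕ, g ^ p ^ j ∈ Q) : False := by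
  classical
  have : Fact p.Prime := ⟨hp⟩
  have hV : (finrank ℂ V : ℂ) ≠ 0 := by exact_mod_cast hρ.finrank_pos.ne'
  have hK : MonoidHom.ker ρ ≤ MonoidHom.ker σ := by
    intro g hg
    have h1 : ρ.character g = finrank ℂ V := by
      rw [Representation.character, MonoidHom.mem_ker.mp hg, LinearMap.trace_one]
    rcases hrel g with h | h
    · rw [h1, mul_comm] at h
      exact eq_one_of_char_eq σ g (mul_left_cancel₀ hV h).symm
    · exfalso
      have h2 := congrArg norm h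
      rw [h1, norm_neg, norm_mul, norm_mul, Complex.norm_natCast, Complex.norm_natCast] at h2
      have h3 := norm_char_le σ g
      have h4 : (finrank ℂ W : ℝ) < finrank ℂ V := by exact_mod_cast hlt
      have h5 : (0 : ℝ) ≤ finrank ℂ W := by positivity
      nlinarith
  let ρ' : Representation ℂ (G ⧸ MonoidHom.ker ρ) V := QuotientGroup.lift _ ρ le_rfl
  let σ' : Representation ℂ (G ⧸ MonoidHom.ker ρ) W := QuotientGroup.lift _ σ hK
  have := Fintype.ofFinite (G ⧸ MonoidHom.ker ρ)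
  have hρ' : Irr ρ' := ⟨hρ.nontriv, fun U hU => hρ.inv U fun g => hU (QuotientGroup.mk g)⟩
  have hσ' : Irr σ' := ⟨hσ.nontriv, fun U hU => hσ.inv U fun g => hU (QuotientGroup.mk g)⟩
  have hs := QuotientGroup.mk'_surjective (MonoidHom.ker ρ)
  have hg : 0 < Nat.gcd (finrank ℂ V) (finrank ℂ W) := Nat.gcd_pos_of_pos_left _ hρ.finrank_pos
  have hmn := Nat.coprime_div_gcd_div_gcd hg
  have e1 := Nat.mul_div_cancel' (Nat.gcd_dvd_left (finrank ℂ V) (finrank ℂ W))
  have e2 := Nat.mul_div_cancel' (Nat.gcd_dvd_right (finrank ℂ V) (finrank ℂ W))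
  generalize finrank ℂ V / Nat.gcd (finrank ℂ V) (finrank ℂ W) = m at hpN hmn e1
  generalize finrank ℂ W / Nat.gcd (finrank ℂ V) (finrank ℂ W) = n at hpN hmn e2
  generalize Nat.gcd (finrank ℂ V) (finrank ℂ W) = t at hg e1 e2
  have ht : (t : ℂ) ≠ 0 := by exact_mod_cast hg.ne'
  have hQ' : (Q.map (QuotientGroup.mk' (MonoidHom.ker ρ))).Normal := hQ.map _ hs
  refine core_pn (Q := Q.map (QuotientGroup.mk' (MonoidHom.ker ρ))) hσ'.chr hρ'.chr
    (m := m) (n := n) (fun g => ?_) (by rw [← e1, ← e2]; ring)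
    (Nat.lt_of_mul_lt_mul_left (a := t) (by rwa [e1, e2]))
    (Nat.pos_of_mul_pos_left (a := t) (by rw [e2]; exact hσ.finrank_pos)) hmn hp hpN ?_ ?_
  · obtain ⟨g, rfl⟩ := QuotientGroup.mk_surjective g
    have h1 := hrel g
    rw [← e1, ← e2] at h1
    push_cast at h1
    refine h1.imp (fun h2 => mul_left_cancel₀ ht ?_) (fun h2 => mul_left_cancel₀ ht ?_)
    · change t * (n * ρ.character g) = t * (m * σ.character g)
      linear_combination h2
    · change t * (m * ρ.character g) = t * -(n * σ.character g)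
      linear_combination h2
  · intro hd
    obtain ⟨⟨_, q, hq, rfl⟩, hx⟩ := exists_prime_orderOf_dvd_card' p hd
    obtain ⟨k, hk, h1⟩ := hQp q hq
    refine hk (hx ▸ orderOf_dvd_of_pow_eq_one (Subtype.ext ?_))
    change (QuotientGroup.mk' (MonoidHom.ker ρ) q) ^ k = 1
    rw [← map_pow]
    exact (QuotientGroup.eq_one_iff _).mpr h1
  · rw [commutator, ← Subgroup.map_top_of_surjective _ hs, ← Subgroup.map_commutator]
    rintro _ ⟨x, hx, rfl⟩
    obtain ⟨j, hj⟩ := hG x hx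
    exact ⟨j, x ^ p ^ j, hj, map_pow _ _ _⟩

theorem mul_pow_eq_one_of_nilpotent {D : Type*} [Group D] [Finite D] [Group.IsNilpotent D] {p : ℕ}
    (hp : p.Prime) {x y : D} {k l : ℕ} (hk : ¬ p ∣ k) (hl : ¬ p ∣ l) (hx : x ^ k = 1)
    (hy : y ^ l = 1) : ∃ j, ¬ p ∣ j ∧ (x * y) ^ j = 1 := by
  let e := Sylow.directProductOfNormal (G := D) (fun P => inferInstance)
  refine ⟨Nat.card D / p ^ (Nat.card D).factorization p, Nat.not_dvd_ordCompl hp Nat.card_pos.ne',
    e.symm.injective ?_⟩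
  rw [map_pow, map_mul, map_one]
  funext q P
  have : Fact (q : ℕ).Prime := ⟨Nat.prime_of_mem_primeFactors q.2⟩
  obtain ⟨c, hc⟩ := IsPGroup.iff_card.mp P.isPGroup'
  simp only [Pi.pow_apply, Pi.mul_apply, Pi.one_apply]
  by_cases hq : (q : ℕ) = p
  · have h1 : ∀ (z : D) (i : ℕ), ¬ p ∣ i → z ^ i = 1 → e.symm z q P = 1 := by
      intro z i hi hz
      have h2 : e.symm z q P ^ i = 1 := by
        have := congrArg (fun w => e.symm w q P) hz
        simpa using this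
      have h3 : e.symm z q P ^ (q : ℕ) ^ c = 1 := by rw [← hc]; exact pow_card_eq_one'
      have h4 := pow_gcd_eq_one.mpr ⟨h3, h2⟩
      rwa [Nat.Coprime.gcd_eq_one (Nat.Coprime.pow_left c
        (hq ▸ hp.coprime_iff_not_dvd.mpr hi)), pow_one] at h4
    rw [h1 x k hk hx, h1 y l hl hy, mul_one, one_pow]
  · obtain ⟨j, hj⟩ : Nat.card P ∣ Nat.card D / p ^ (Nat.card D).factorization p :=
      Nat.dvd_ordCompl_of_dvd_not_dvd (Subgroup.card_subgroup_dvd_card _) (by
        rw [hc]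
        exact fun h => hq ((Nat.prime_dvd_prime_iff_eq hp this.out).mp (hp.dvd_of_dvd_pow h)).symm)
    have h1 : (e.symm x q P * e.symm y q P) ^ Nat.card P = 1 := pow_card_eq_one'
    rw [hj, pow_mul, h1, one_pow]

theorem exists_of_nilpotent (ρ : Representation ℂ G V)
    (h : Group.IsNilpotent ((commutator G).map ρ.asGroupHom)) {p : ℕ} (hp : p.Prime) :
    ∃ Q : Subgroup G, Q.Normal ∧ (∀ q ∈ Q, ∃ k : ℕ, ¬ p ∣ k ∧ ρ (q ^ k) = 1) ∧
      ∀ g ∈ commutator G, ∃ j : ℕ, g ^ p ^ j ∈ Q := by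
  have hfin : Finite ((commutator G).map ρ.asGroupHom) :=
    Finite.of_surjective _ (ρ.asGroupHom.subgroupMap_surjective (commutator G))
  have hu : ∀ (g : G) (hg : g ∈ commutator G) (k : ℕ), ρ (g ^ k) = 1 ↔
      (ρ.asGroupHom.subgroupMap (commutator G) ⟨g, hg⟩) ^ k = 1 := by
    intro g hg k
    rw [Subtype.ext_iff, Units.ext_iff, ← map_pow]
    rfl
  let Q : Subgroup G :=
    { carrier := {g | g ∈ commutator G ∧ ∃ k : ℕ, ¬ p ∣ k ∧ ρ (g ^ k) = 1}
      one_mem' := ⟨one_mem _, 1, hp.not_dvd_one, by simp⟩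
      mul_mem' := by
        rintro x y ⟨hx, k, hk, h1⟩ ⟨hy, l, hl, h2⟩
        obtain ⟨j, hj, h3⟩ := mul_pow_eq_one_of_nilpotent hp hk hl ((hu x hx k).mp h1)
          ((hu y hy l).mp h2)
        rw [← map_mul] at h3
        exact ⟨mul_mem hx hy, j, hj, (hu _ (mul_mem hx hy) j).mpr h3⟩
      inv_mem' := by
        rintro x ⟨hx, k, hk, h1⟩
        refine ⟨inv_mem hx, k, hk, ?_⟩
        rw [← mul_one (ρ _), ← h1, ← map_mul, inv_pow, inv_mul_cancel, map_one, h1] }
  refine ⟨Q, ⟨?_⟩, fun q hq => hq.2, fun g hg => ?_⟩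
  · rintro x ⟨hx, k, hk, h1⟩ g
    refine ⟨Subgroup.Normal.conj_mem inferInstance x hx g, k, hk, ?_⟩
    rw [conj_pow, map_mul, map_mul, h1, mul_one, ← map_mul, mul_inv_cancel, map_one]
  · refine ⟨(orderOf g).factorization p, pow_mem hg _, orderOf g / p ^ (orderOf g).factorization p,
      Nat.not_dvd_ordCompl hp (orderOf_pos g).ne', ?_⟩
    rw [← pow_mul, Nat.ordProj_mul_ordCompl_eq_self, pow_orderOf_eq_one, map_one]

end Pool.Agent.SemiProp
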