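import Pool.Agent.Lib.MP_c1c6b6_al.GL7

set_option autoImplicit false

open Finset Matrix

namespace Pool.Agent.SemiProp.GLn

variable {F : Type} [Field F] {ι : Type} [Fintype ι] [DecidableEq ι] {n : ℕ}

/-- Functions invariant under conjugation by matrices of determinant one. -/
def SLinv (f : Matrix ι ι F → ℂ) : Prop :=
  ∀ P Q M : Matrix ι ι F, P * Q = 1 → P.det = 1 → f (P * M * Q) = f M

/-- The family of conjugates of such a function. -/
def Fam (f : Fˣ → Matrix ι ι F → ℂ) : Prop :=
  ∀ (t d : Fˣ) (P Q M : Matrix ι ι F), P * Q = 1 → P.det = d → f t (P * M * Q) = f (t * d) M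

/-- The kernel that detects regular unipotent elements. -/
noncomputable def lam (ψ : AddChar F ℂ) : ℕ → F → ℂ := fun _ t => 1 - ψ t

/-- The class invariant of a regular unipotent element. -/
def pw (M : Matrix (Fin n) (Fin n) F) : F :=
  ∏ i : Fin n, ∏ j : Fin n, if (j : ℕ) = i + 1 then M i j ^ (j : ℕ) else 1

variable [Fintype F]

noncomputable instance : Fintype (MulChar F ℂ) := Fintype.ofFinite _

/-- The distribution of the class invariant. -/
noncomputable def kap (ψ : AddChar F ℂ) (K : ℕ) (u : Fˣ) : ℂ :=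
  US K (lam ψ) (fun M => ind (pw M = u)) / uc F K

/-- `f` agrees on matrices of determinant one with a coefficient function of `x`. -/
def Co (x : II F) (f : Matrix ι ι F → ℂ) : Prop :=
  ∃ D : Matrix ι ι F → ℂ, SLinv D ∧
    ∀ M, M.det = 1 → f M = ∑ h : Matrix ι ι F, D (M * h) * (starRingEnd ℂ) (ev x h)

/-- The weighted pairing of two functions induced from the unitriangular group. -/
noncomputable def PW (w : F → ℂ) (n : ℕ) (κ κ' : ℕ → F → ℂ) : ℂ :=
  (∑ g : Matrix (Fin n) (Fin n) F, ∑ u : Matrix (Fin n) (Fin n) F, ∑ u' : Matrix (Fin n) (Fin n) F,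
    w g.det * (ind (Uni u ∧ Uni u' ∧ u * g = g * u') *
      (ker κ u * (starRingEnd ℂ) (ker κ' u')))) / uc F n ^ 2

end Pool.Agent.SemiProp.GLn
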