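import Pool.Agent.Lib.MP_c1c6b6_al.SLBa

set_option autoImplicit false

open Finset Matrix

namespace Pool.Agent.SemiProp.GLn

variable {F : Type} [Field F] {n : ℕ}
variable [Fintype F] [DecidableEq F] [Fintype (slb_K F n)] [Fintype (UT F n)]

theorem slb_L {ψ : AddChar F ℂ} (hψ : ψ ≠ 1) {a : II F} (hn : a.1 = n) (ha : dr a = 0)
    {γ : slb_K F n → ℂ} (hγ : IsIr γ)
    (h : ∑ k : slb_K F n, ev a k.1.val * (starRingEnd ℂ) (γ k) ≠ 0) : slb_A (lam ψ) γ = 0 := by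
  classical
  obtain ⟨m, hm⟩ := slb_mult (F := F) (n := n)
  have hc := gle_card (slb_K F n)
  have hu := uc_ne (F := F) (n := n)
  have hI := slb_mem (G := slb_K F n)
  have hm0 : ∀ x : II F, x.1 = n → ∀ α, IsIr α →
      (∑ k : slb_K F n, ev x k.1.val * (starRingEnd ℂ) (α k) ≠ 0 ↔ m x α ≠ 0) := by
    intro x hx α hα
    rw [hm x hx α hα, mul_ne_zero_iff, and_iff_left hc, Nat.cast_ne_zero]
  have hW : ∀ α : slb_K F n → ℂ, ∃ w : ℕ, IsIr α → slb_A (fun _ => ψ) α = w * uc F n := by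
    intro α
    by_cases hα : IsIr α
    · obtain ⟨w, hw⟩ := ((hα.isCh.comp (slb_j F n)).mul (isCh_lin (kerHom n fun _ => ψ))).avg
      exact ⟨w, fun _ => by rw [uc_eq]; exact hw⟩
    · exact ⟨0, fun h1 => absurd h1 hα⟩
  have hL : ∀ α : slb_K F n → ℂ, ∃ l : ℤ, IsIr α → slb_A (lam ψ) α = l * uc F n := by
    intro α
    by_cases hα : IsIr α
    · obtain ⟨l, hl⟩ := ker_int ψ (hα.isCh.comp (slb_j F n)) (κ := lam ψ) fun _ => Or.inr rfl
      exact ⟨l, fun _ => hl⟩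
    · exact ⟨0, fun h1 => absurd h1 hα⟩
  choose W hW using hW
  choose L hL using hL
  have hN : ∑ α ∈ (finite_isIr (slb_K F n)).toFinset, L α ^ 2 =
      ∑ α ∈ (finite_isIr (slb_K F n)).toFinset, (W α : ℤ) ^ 2 := by
    have h1 := slb_norm (n := n) (lam ψ)
    rw [PW_norm hψ, ← slb_norm] at h1
    have h2 : (starRingEnd ℂ) (uc F n) = uc F n := by rw [uc_eq, map_natCast]
    have h3 : ((∑ α ∈ (finite_isIr (slb_K F n)).toFinset, L α ^ 2 : ℤ) : ℂ) =
        ((∑ α ∈ (finite_isIr (slb_K F n)).toFinset, (W α : ℤ) ^ 2 : ℤ) : ℂ) := by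
      refine mul_right_cancel₀ (pow_ne_zero 2 hu) ?_
      push_cast
      rw [sum_mul, sum_mul]
      refine Eq.trans (sum_congr rfl fun α hα => ?_) (h1.trans (sum_congr rfl fun α hα => ?_))
      · rw [hL α ((hI α).1 hα), map_mul, h2, map_intCast]
        ring
      · rw [hW α ((hI α).1 hα), map_mul, h2, map_natCast]
        ring
    exact_mod_cast h3
  have hA : ∀ (κ : ℕ → F → ℂ) (x : II F), x.1 = n → UA n κ x * uc F n =
      ∑ α ∈ (finite_isIr (slb_K F n)).toFinset, m x α * slb_A κ α := by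
    intro κ x hx
    refine mul_left_cancel₀ hc ?_
    rw [UA, div_mul_cancel₀ _ hu, slb_exp κ (slb_ev x), mul_sum]
    refine sum_congr rfl fun α hα => ?_
    rw [hm x hx α ((hI α).1 hα)]
    ring
  obtain ⟨σ, hσ, hσ'⟩ := ((psh F).partner (dl ψ) dr (dl01 hψ) (dl_oo ψ) dr_oo dr_mul
    (fun _ => dl_dr hψ) fun _ => dr_cusp).2
  have hd : ∀ x : II F, x.1 = n → dl ψ x =
      ((∑ α ∈ (finite_isIr (slb_K F n)).toFinset, m x α * W α : ℕ) : ℂ) := by
    intro x hx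
    refine mul_right_cancel₀ hu ?_
    rw [dl, hx, hA _ x hx, Nat.cast_sum, sum_mul]
    refine sum_congr rfl fun α hα => ?_
    rw [hW α ((hI α).1 hα), Nat.cast_mul, mul_assoc]
  have hd1 : ∀ x : II F, x.1 = n →
      ∑ α ∈ (finite_isIr (slb_K F n)).toFinset, m x α * W α ≤ 1 := by
    intro x hx
    rcases dl01 hψ x with h1 | h1 <;> rw [hd x hx] at h1
    · exact (Nat.cast_eq_zero.1 h1).trans_le zero_le_one
    · exact (Nat.cast_eq_one.1 h1).le
  have hX : ∀ α : slb_K F n → ℂ, ∃ (x : II F) (β : slb_K F n → ℂ), IsIr α → x.1 = n ∧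
      m x α ≠ 0 ∧ (W α ≠ 0 → dl ψ x ≠ 0 ∧ IsIr β ∧ m (σ x) β ≠ 0 ∧ L β ≠ 0) := by
    intro α
    by_cases hα : IsIr α
    · obtain ⟨x, hx, h1⟩ := exists_over (slb_K F n) hα
      have h2 := (hm0 x hx α hα).1 h1
      by_cases hw : W α = 0
      · exact ⟨x, α, fun _ => ⟨hx, h2, fun h3 => absurd hw h3⟩⟩
      have h3 : dl ψ x ≠ 0 := by
        rw [hd x hx]
        exact Nat.cast_ne_zero.2 fun h3 =>
          mul_ne_zero h2 hw (sum_eq_zero_iff.1 h3 α ((hI α).2 hα))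
      obtain ⟨h4, h5⟩ := hσ x h3
      have h6 : (σ x).1 = n := h5.trans hx
      have h7 := hA (lam ψ) (σ x) h6
      rw [show UA n (lam ψ) (σ x) = ev (σ x) (J F n) from UA_reg hψ _] at h7
      rw [dr, h6] at h4
      obtain ⟨β, hβ, h8⟩ := exists_ne_zero_of_sum_ne_zero
        (h7 ▸ mul_ne_zero (right_ne_zero_of_mul h4) hu)
      rw [hL β ((hI β).1 hβ)] at h8
      exact ⟨x, β, fun _ => ⟨hx, h2, fun _ => ⟨h3, (hI β).1 hβ,
        Nat.cast_ne_zero.1 (left_ne_zero_of_mul h8),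
        Int.cast_ne_zero.1 (left_ne_zero_of_mul (right_ne_zero_of_mul h8))⟩⟩⟩
    · exact ⟨a, α, fun h1 => absurd h1 hα⟩
  choose X B hX using hX
  have hσn : ∀ α, IsIr α → W α ≠ 0 → (σ (X α)).1 = n := fun α hα hw =>
    (hσ _ ((hX α hα).2.2 hw).1).2.trans (hX α hα).1
  rw [hL γ hγ, slb_count _ W L hN (fun α hα => ?_) B (fun α hα hw => ?_)
    (fun α hα hw α' hα' hw' e => ?_) ((hI γ).2 hγ) fun α hα hw e => ?_, Int.cast_zero, zero_mul]
  · obtain ⟨h1, h2, -⟩ := hX α ((hI α).1 hα)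
    exact (Nat.le_mul_of_pos_left _ (Nat.pos_of_ne_zero h2)).trans
      ((single_le_sum (f := fun α' => m (X α) α' * W α') (fun _ _ => Nat.zero_le _) hα).trans
        (hd1 _ h1))
  · obtain ⟨-, h1, -, h2⟩ := (hX α ((hI α).1 hα)).2.2 hw
    exact ⟨(hI _).2 h1, h2⟩
  · rw [hI] at hα hα'
    obtain ⟨h1, h2, h3⟩ := hX α hα
    obtain ⟨h1', h2', h3'⟩ := hX α' hα'
    obtain ⟨h4, h5, h6, -⟩ := h3 hw
    obtain ⟨h4', -, h6', -⟩ := h3' hw'
    obtain ⟨τ, t0, t1, t2, t3, t4, -⟩ := slb_share ψ (hσn α' hα' hw') (hσn α hα hw) h5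
      ((hm0 _ (hσn α' hα' hw') _ h5).2 (e ▸ h6')) ((hm0 _ (hσn α hα hw) _ h5).2 h6)
    have h7 := hσ' τ t3 t1 t4 _ _ h4 h4' t0
    have h8 : m (X α) α' ≠ 0 := by
      refine (hm0 _ h1 _ hα').1 ?_
      have h8 := (hm0 _ h1' _ hα').2 h2'
      rwa [h7, sum_congr rfl fun k _ => by rw [t2]] at h8
    by_contra h9
    have h10 := sum_le_sum_of_subset (f := fun β => m (X α) β * W β) (s := {α, α'})
      (insert_subset ((hI α).2 hα) (singleton_subset_iff.2 ((hI α').2 hα')))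
    rw [sum_pair h9] at h10
    have h11 := hd1 _ h1
    have h12 := Nat.pos_of_ne_zero (mul_ne_zero h2 hw)
    have h13 := Nat.pos_of_ne_zero (mul_ne_zero h8 hw')
    omega
  · rw [hI] at hα
    obtain ⟨h4, -, h6, -⟩ := (hX α hα).2.2 hw
    obtain ⟨τ, t0, -, -, -, -, t5⟩ := slb_share ψ hn (hσn α hα hw) hγ h
      ((hm0 _ (hσn α hα hw) _ hγ).2 (e ▸ h6))
    exact (hσ _ h4).1 (by rw [← t5, ← t0, ha])

theorem slb_US {ψ : AddChar F ℂ} (hψ : ψ ≠ 1) {a : II F} (hn : a.1 = n) (ha : dr a = 0)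
    {D : Matrix (Fin n) (Fin n) F → ℂ} (hD : SLinv fun M =>
      ∑ h : Matrix (Fin n) (Fin n) F, D (M * h) * (starRingEnd ℂ) (ev a h)) :
    US n (lam ψ) (fun M =>
      ∑ h : Matrix (Fin n) (Fin n) F, D (M * h) * (starRingEnd ℂ) (ev a h)) = 0 := by
  refine (mul_eq_zero.1 ((slb_exp _ hD).trans (sum_eq_zero fun α hα => ?_))).resolve_left
    (gle_card _)
  have hα : IsIr α := (slb_mem α).1 hα
  by_cases h : ∑ k : slb_K F n, ev a k.1.val * (starRingEnd ℂ) (α k) = 0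
  · have hx := (isIr_ev (ι := Fin n) (x := a) (by simp [hn])).isCh
    have h1 : ∀ k : slb_K F n, ∑ h : Matrix (Fin n) (Fin n) F,
        D (k.1.val * h) * (starRingEnd ℂ) (ev a h) =
        ∑ g : GL (Fin n) F, D g * ev a (g⁻¹ * k.1 * 1 : GL (Fin n) F).val := fun k => by
      rw [← sum_GL' (f := fun h => D (k.1.val * h) * (starRingEnd ℂ) (ev a h)) fun M hM => by
        rw [ev_sing a hM, map_zero, mul_zero], ← Equiv.sum_comp (Equiv.mulLeft k.1)
        fun g => D g * ev a (g⁻¹ * k.1 * 1 : GL (Fin n) F).val]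
      refine sum_congr rfl fun g _ => ?_
      rw [← hx.slb_inv g, Equiv.coe_mulLeft, _root_.mul_inv_rev, inv_mul_cancel_right, mul_one]
      rfl
    refine mul_eq_zero_of_left ?_ _
    simp only [h1, sum_mul]
    rw [sum_comm]
    refine sum_eq_zero fun g _ => ?_
    simp only [mul_assoc (D _), ← mul_sum]
    exact mul_eq_zero_of_right _ (idem (slb_K F n).subtype hα.isCh hx h g⁻¹ 1)
  · rw [slb_L hψ hn ha hα h, mul_zero]

omit [DecidableEq F] [Fintype (slb_K F n)] [Fintype (UT F n)] in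
theorem slb_conj (a : II F) (D : Matrix (Fin n) (Fin n) F → ℂ) {P Q : Matrix (Fin n) (Fin n) F}
    (h : P * Q = 1) (M : Matrix (Fin n) (Fin n) F) :
    ∑ g : Matrix (Fin n) (Fin n) F, D (P * M * Q * g) * (starRingEnd ℂ) (ev a g) =
      ∑ g : Matrix (Fin n) (Fin n) F, D (P * (M * g) * Q) * (starRingEnd ℂ) (ev a g) := by
  have h' := mul_eq_one_comm.1 h
  refine (Fintype.sum_equiv ⟨fun g => P * g * Q, fun g => Q * g * P, conj_conj h', conj_conj h⟩
    _ _ fun g => ?_).symm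
  change _ = D (P * M * Q * (P * g * Q)) * (starRingEnd ℂ) (ev a (P * g * Q))
  rw [ev_cj a h, show P * M * Q * (P * g * Q) = P * (M * (Q * P) * g) * Q by
    simp only [Matrix.mul_assoc], h', Matrix.mul_one]

omit [Fintype (slb_K F n)] [Fintype (UT F n)] in
theorem reg_zero {a : II F} (hn : a.1 = n) (ha : dr a = 0) {D : Matrix (Fin n) (Fin n) F → ℂ}
    (hD : SLinv D) :
    ∑ h : Matrix (Fin n) (Fin n) F, D (J F n * h) * (starRingEnd ℂ) (ev a h) = 0 := by
  classical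
  have : Nonempty (Fin n) := Fin.pos_iff_nonempty.1 (Nat.pos_of_ne_zero fun h => by
    rw [(deg_oo a).1 (hn.trans h), dr_oo] at ha
    exact one_ne_zero ha)
  obtain ⟨ψ, hψ⟩ := exists_psi (F := F)
  have h1 : ∀ {D : Matrix (Fin n) (Fin n) F → ℂ}, SLinv D → SLinv fun M =>
      ∑ h : Matrix (Fin n) (Fin n) F, D (M * h) * (starRingEnd ℂ) (ev a h) := by
    intro D hD P Q M h h'
    refine (slb_conj a D h M).trans (sum_congr rfl fun g _ => ?_)
    rw [hD P Q _ h h']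
  obtain ⟨g, hg, hg1⟩ := (h1 hD).fam
  have h2 : ∀ t, US n (lam ψ) (g t) = 0 := by
    intro t
    obtain ⟨P, Q, h, h'⟩ := exists_det (ι := Fin n) t
    have hQ := mul_eq_one_comm.1 h
    have h3 : g t = fun M => ∑ h : Matrix (Fin n) (Fin n) F,
        (fun N => D (P * N * Q)) (M * h) * (starRingEnd ℂ) (ev a h) := funext fun M => by
      rw [← one_mul t, ← hg 1 t P Q M h h', hg1]
      exact slb_conj a D h M
    rw [h3]
    refine slb_US (D := fun N => D (P * N * Q)) hψ hn ha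
      (h1 (D := fun N => D (P * N * Q)) fun P' Q' M e e' => ?_)
    have h4 := hD (P * P' * Q) (P * Q' * Q) (P * M * Q) (by
      rw [show P * P' * Q * (P * Q' * Q) = P * (P' * (Q * P) * Q') * Q by
        simp only [Matrix.mul_assoc], hQ, Matrix.mul_one, e, Matrix.mul_one, h]) (by
      rw [det_mul, det_mul, e', mul_one, ← det_mul, h, det_one])
    refine Eq.trans ?_ h4
    change D _ = D _
    rw [show P * P' * Q * (P * M * Q) * (P * Q' * Q) = P * (P' * (Q * P) * M * (Q * P) * Q') * Q by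
      simp only [Matrix.mul_assoc], hQ, Matrix.mul_one, Matrix.mul_one]
  have h3 := four_inv (c := n) (p := fun t => g t (J F n)) (κ := kap ψ n) (fun t y => by
    have h3 := hg t (y ^ n) ((y : F) • 1) (((y⁻¹ : Fˣ) : F) • 1) (J F n) (by simp [smul_smul])
      (by simp)
    rw [← h3]
    simp [smul_smul]) (fun ζ hζ h0 => by
    rcases kap_gauss hψ hζ with h3 | h3 <;> simp [h0] at h3) (fun t =>
    (mul_eq_zero.1 ((hg.US_reg ψ t).symm.trans (h2 t))).resolve_left uc_ne) 1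
  rw [hg1] at h3
  exact h3

end Pool.Agent.SemiProp.GLn
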