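import Pool.Agent.Lib.MP_c1c6b6_al.SL0

set_option autoImplicit false

open Finset Matrix

namespace Pool.Agent.SemiProp.GLn

variable {F : Type} [Field F] {ι : Type} [Fintype ι] [DecidableEq ι] {k n : ℕ}

theorem ext_split_det (v : Matrix (Fin k) ι F) (g : Matrix ι ι F)
    (h : (fromBlocks (J F k) v 0 g - 1) ^ k = 0) :
    ∃ P Q : Matrix (Fin k ⊕ ι) (Fin k ⊕ ι) F, P * Q = 1 ∧ P.det = 1 ∧
      fromBlocks (J F k) v 0 g = P * fromBlocks (J F k) 0 0 g * Q := by
  rw [glj_sub, glj_J_sub] at h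
  obtain ⟨S, h0, hS, hp⟩ := glj_pow (gljN F k) v (g - 1)
  rw [hp] at h
  have hk : S k = 0 := (glj_zero h).2.1
  let w : Matrix (Fin k) ι F := Matrix.of fun i c => -S i ⟨0, i.pos⟩ c
  have hw : v = w * (g - 1) - gljN F k * w := by
    ext i c
    have h1 : (gljN F k * w) i c = -S (i + 1) ⟨0, i.pos⟩ c := by
      have := glj_N_mul 1 w i c
      rw [pow_one] at this
      rw [this]
      split_ifs with hi
      · rfl
      · rw [show (i : ℕ) + 1 = k by omega, hk, Matrix.zero_apply, neg_zero]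
    have h2 : (w * (g - 1) : Matrix (Fin k) ι F) i c =
        -(S i * (g - 1) : Matrix (Fin k) ι F) ⟨0, i.pos⟩ c := by
      simp only [Matrix.mul_apply, w, of_apply, neg_mul, sum_neg_distrib]
    have h3 : (gljN F k ^ (i : ℕ) * v) ⟨0, i.pos⟩ c = v i c := by
      rw [glj_N_mul, dif_pos (by simp)]
      simp
    rw [Matrix.sub_apply, h1, h2, hS, Matrix.add_apply, h3]
    ring
  refine ⟨fromBlocks 1 w 0 1, fromBlocks 1 (-w) 0 1, ?_, ?_, ?_⟩
  · rw [fromBlocks_multiply, ← fromBlocks_one]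
    simp
  · rw [det_fromBlocks_zero₂₁, det_one, det_one, one_mul]
  · rw [fromBlocks_multiply, fromBlocks_multiply, fromBlocks_inj]
    refine ⟨by simp, ?_, by simp, by simp⟩
    rw [hw, glj_J]
    simp only [Matrix.one_mul, Matrix.mul_zero, add_zero, zero_add, Matrix.mul_one, Matrix.mul_neg,
      Matrix.add_mul, Matrix.mul_sub]
    abel

theorem slj_zero {A : Matrix (Fin n) (Fin n) F} (h : ∀ i j, j ≤ i → A i j = 0) (p : ℕ)
    (i j : Fin n) (hj : (j : ℕ) < i + p) : (A ^ p) i j = 0 := by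
  induction p generalizing j with
  | zero => rw [pow_zero, one_apply_ne (fun e => by subst e; omega)]
  | succ p ih =>
    rw [pow_succ, Matrix.mul_apply]
    refine sum_eq_zero fun l _ => ?_
    by_cases hl : (l : ℕ) < i + p
    · rw [ih l hl, zero_mul]
    · rw [h l j (by rw [Fin.le_def]; omega), mul_zero]

theorem slj_pow {A : Matrix (Fin n) (Fin n) F} (h : ∀ i j, j ≤ i → A i j = 0) {a : ℕ → F}
    (ha : ∀ i j : Fin n, (j : ℕ) = i + 1 → A i j = a i) (p : ℕ) (i j : Fin n)
    (hj : (j : ℕ) = i + p) : (A ^ p) i j = ∏ l ∈ Ico (i : ℕ) (i + p), a l := by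
  induction p generalizing j with
  | zero => rw [pow_zero, show j = i from Fin.ext hj, one_apply_eq, add_zero, Ico_self, prod_empty]
  | succ p ih =>
    rw [pow_succ, Matrix.mul_apply, sum_eq_single (⟨i + p, by omega⟩ : Fin n)]
    · rw [ih _ rfl, ha _ _ hj, ← add_assoc, prod_Ico_succ_top (Nat.le_add_right _ _)]
    · intro l _ hl
      have : (l : ℕ) ≠ i + p := fun e => hl (Fin.ext e)
      by_cases hl : (l : ℕ) < i + p
      · rw [slj_zero h p i l hl, zero_mul]
      · rw [h l j (by rw [Fin.le_def]; omega), mul_zero]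
    · simp

theorem slj_prod (a : ℕ → F) (k : ℕ) :
    ∏ j ∈ range (k + 1), ∏ l ∈ Ico j k, a l = ∏ l ∈ range k, a l ^ (l + 1) := by
  induction k with
  | zero => simp
  | succ k ih =>
    rw [prod_range_succ, Ico_self, prod_empty, mul_one,
      prod_range_succ (fun l => a l ^ (l + 1)) k, ← ih,
      prod_congr rfl fun j hj => prod_Ico_succ_top (Nat.lt_succ_iff.1 (mem_range.1 hj)) a,
      prod_mul_distrib, prod_const, card_range]

theorem slj_sub {M : Matrix (Fin n) (Fin n) F} (h : Uni M) (i j : Fin n) (hij : j ≤ i) :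
    (M - 1) i j = 0 := by rw [Matrix.sub_apply, h i j hij, sub_self]

theorem Uni.conj_J_det {M : Matrix (Fin n) (Fin n) F} (h : Uni M)
    (h' : ∀ i j : Fin n, (j : ℕ) = i + 1 → M i j ≠ 0) :
    ∃ P Q : Matrix (Fin n) (Fin n) F, P * Q = 1 ∧ P.det = pw M ∧ M = P * J F n * Q := by
  rcases n with _ | k
  · exact ⟨1, 1, Subsingleton.elim _ _, by simp [pw], Subsingleton.elim _ _⟩
  let a : ℕ → F := fun l => if hl : l + 1 < k + 1 then M ⟨l, by omega⟩ ⟨l + 1, hl⟩ else 1
  have ha : ∀ i j : Fin (k + 1), (j : ℕ) = i + 1 → M i j = a i := fun i j e => by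
    simp only [a]
    rw [dif_pos (e ▸ j.2)]
    exact congrArg (M i) (Fin.ext e)
  have ha' : ∀ i j : Fin (k + 1), (j : ℕ) = i + 1 → (M - 1) i j = a i := fun i j e => by
    rw [Matrix.sub_apply, one_apply_ne (fun e' => by subst e'; omega), sub_zero, ha i j e]
  let P : Matrix (Fin (k + 1)) (Fin (k + 1)) F :=
    Matrix.of fun i j => ((M - 1) ^ (k - j)) i (Fin.last k)
  have hd : P.det = ∏ l ∈ range k, a l ^ (l + 1) := by
    rw [det_of_isUpperTriangular (M := P) fun i j hij => slj_zero (slj_sub h) _ _ _ (by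
      have : (j : ℕ) < i := hij
      have := i.2
      simp only [Fin.val_last]
      omega), ← slj_prod, ← Fin.prod_univ_eq_prod_range fun j => ∏ l ∈ Ico j k, a l]
    refine prod_congr rfl fun j _ => ?_
    have e : (j : ℕ) + (k - j) = k := by omega
    exact (slj_pow (slj_sub h) ha' _ j _ e.symm).trans (by rw [e])
  have hw : pw M = ∏ l ∈ range k, a l ^ (l + 1) := by
    rw [pw, Fin.prod_univ_castSucc, prod_eq_one (s := univ) fun (j : Fin (k + 1)) _ => if_neg (by
      simp only [Fin.val_last]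
      omega), mul_one, ← Fin.prod_univ_eq_prod_range fun l => a l ^ (l + 1)]
    refine prod_congr rfl fun i _ => ?_
    refine (prod_eq_single i.succ (fun j _ hj => if_neg fun e => hj (Fin.ext e))
      (by simp)).trans ((if_pos rfl).trans ?_)
    rw [ha i.castSucc i.succ rfl]
    rfl
  have hu : IsUnit P.det := by
    rw [hd, ← hw, isUnit_iff_ne_zero, pw]
    refine prod_ne_zero_iff.2 fun i _ => prod_ne_zero_iff.2 fun j _ => ?_
    split_ifs with e
    exacts [pow_ne_zero _ (h' i j e), one_ne_zero]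
  have hN : (M - 1) * P = P * gljN F (k + 1) := by
    ext i j
    have e1 : ((M - 1) * P) i j = ((M - 1) ^ (k - j + 1)) i (Fin.last k) := by
      rw [pow_succ']
      rfl
    rw [e1, Matrix.mul_apply]
    simp only [gljN, of_apply, mul_ite, mul_one, mul_zero]
    rcases Nat.eq_zero_or_pos j with hj | hj
    · rw [slj_zero (slj_sub h) _ _ _ (by simp only [Fin.val_last]; omega)]
      exact (sum_eq_zero fun l _ => if_neg (by omega)).symm
    · rw [sum_eq_single (⟨j - 1, by omega⟩ : Fin (k + 1))]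
      · rw [if_pos (by simp only; omega), show k - (j : ℕ) + 1 = k - (j - 1) by omega]
        rfl
      · intro l _ hl
        exact if_neg fun e => hl (Fin.ext (by simp only; omega))
      · simp
  refine ⟨P, P⁻¹, mul_nonsing_inv P hu, hd.trans hw.symm, ?_⟩
  rw [glj_J, mul_add, ← hN, mul_one, sub_mul, one_mul, add_sub_cancel, Matrix.mul_assoc,
    mul_nonsing_inv P hu, mul_one]

theorem exists_det [Nonempty ι] (t : Fˣ) : ∃ P Q : Matrix ι ι F, P * Q = 1 ∧ P.det = t := by
  obtain ⟨i⟩ := ‹Nonempty ι›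
  refine ⟨diagonal fun j => if j = i then (t : F) else 1,
    diagonal fun j => if j = i then (t⁻¹ : Fˣ) else 1, ?_, by simp⟩
  rw [diagonal_mul_diagonal, ← diagonal_one]
  congr 1
  ext j
  split_ifs <;> simp

theorem det_unip {M : Matrix ι ι F} (h : IsNilpotent (M - 1)) : M.det = 1 := by
  have h1 := sub_eq_zero.1 (isNilpotent_charpoly_sub_pow_of_isNilpotent h.neg).eq_zero
  have h2 := eval_charpoly (-(M - 1)) 1
  rw [h1] at h2
  simpa using h2.symm

theorem Uni.nil {M : Matrix (Fin n) (Fin n) F} (h : Uni M) : IsNilpotent (M - 1) := by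
  exact ⟨n, Matrix.ext fun i j => slj_zero (slj_sub h) n i j (by omega)⟩

theorem SLinv.fam [Nonempty ι] {f : Matrix ι ι F → ℂ} (h : SLinv f) :
    ∃ g : Fˣ → Matrix ι ι F → ℂ, Fam g ∧ g 1 = f := by
  choose A B hAB hA using exists_det (F := F) (ι := ι)
  have hBA := fun t => mul_eq_one_comm.1 (hAB t)
  refine ⟨fun t M => f (A t * M * B t), fun t d P Q M hP hd => ?_,
    funext fun M => h _ _ M (hAB 1) (hA 1)⟩
  have h1 : (B (t * d)).det * (t * d) = 1 := by
    rw [← Units.val_mul, ← hA, ← det_mul, hBA, det_one]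
  refine Eq.trans (congrArg f ?_) (h (A t * P * B (t * d)) (A (t * d) * Q * B t) _ ?_ ?_)
  · simp only [Matrix.mul_assoc]
    rw [← Matrix.mul_assoc (B (t * d)) (A _), ← Matrix.mul_assoc (B (t * d)) (A _), hBA,
      Matrix.one_mul, Matrix.one_mul]
  · simp only [Matrix.mul_assoc]
    rw [← Matrix.mul_assoc (B (t * d)), hBA, Matrix.one_mul, ← Matrix.mul_assoc P, hP,
      Matrix.one_mul, hAB]
  · rw [det_mul, det_mul, hA, hd, mul_comm, h1]

variable [Fintype F] [DecidableEq F]

theorem Fam.US_reg (ψ : AddChar F ℂ) {f : Fˣ → Matrix (Fin n) (Fin n) F → ℂ} (h : Fam f) (t : Fˣ) :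
    US n (lam ψ) (f t) = uc F n * ∑ u, kap ψ n u * f (t * u) (J F n) := by
  simp only [kap, div_mul_eq_mul_div, ← sum_div]
  rw [mul_div_cancel₀ _ uc_ne]
  simp only [US, sum_mul]
  rw [sum_comm]
  refine sum_congr rfl fun M _ => ?_
  by_cases hM : Uni M
  · by_cases hr : ∀ i j : Fin n, (j : ℕ) = i + 1 → M i j ≠ 0
    · obtain ⟨P, Q, h1, h2, h3⟩ := hM.conj_J_det hr
      obtain ⟨d, hd⟩ : IsUnit P.det := isUnit_det_of_right_inverse h1
      rw [sum_eq_single d (fun u _ hu => by
        rw [ind_neg (p := pw M = u) fun e => hu (Units.ext (by rw [← e, hd, h2])), zero_mul,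
          mul_zero, zero_mul]) (by simp), ind_pos (p := pw M = d) (by rw [hd, h2]),
        ← h t d P Q _ h1 hd.symm, ← h3]
      ring
    · simp only [not_forall, not_not] at hr
      obtain ⟨i, j, h1, h2⟩ := hr
      have h3 : ker (lam ψ) M = 0 :=
        prod_eq_zero (mem_univ i) (prod_eq_zero (mem_univ j) (by simp [lam, h1, h2]))
      simp [h3]
  · simp [ind_neg hM]

end Pool.Agent.SemiProp.GLn
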