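import Pool.Agent.Lib.MP_c1c6b6_al.SL0

set_option autoImplicit false

open Finset Matrix

namespace Pool.Agent.SemiProp.GLn

variable {F : Type} [Field F] [Fintype F] [DecidableEq F]

theorem mulChar_sum (d : F) :
    ∑ ζ : MulChar F ℂ, ζ d = if d = 1 then (Fintype.card F - 1 : ℂ) else 0 := by
  have : NeZero (Monoid.exponent Fˣ) := ⟨Monoid.exponent_ne_zero_of_finite⟩
  split_ifs with h
  · have h1 := MulChar.card_eq_card_units_of_hasEnoughRootsOfUnity F ℂ
    rw [Nat.card_eq_fintype_card, Nat.card_eq_fintype_card, Fintype.card_units] at h1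
    have h2 : 1 ≤ Fintype.card F := Fintype.card_pos
    simp only [h, map_one, sum_const, card_univ, nsmul_eq_mul, mul_one, h1, Nat.cast_sub h2,
      Nat.cast_one]
  · obtain ⟨χ, hχ⟩ := MulChar.exists_apply_ne_one_of_hasEnoughRootsOfUnity F ℂ h
    have h1 : ∑ ζ : MulChar F ℂ, (χ * ζ) d = ∑ ζ : MulChar F ℂ, ζ d :=
      Fintype.sum_equiv (Equiv.mulLeft χ) _ _ fun _ => rfl
    simp only [MulChar.mul_apply, ← mul_sum] at h1
    have h2 : (χ d - 1) * ∑ ζ : MulChar F ℂ, ζ d = 0 := by rw [sub_mul, h1, one_mul, sub_self]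
    exact (mul_eq_zero.1 h2).resolve_left (sub_ne_zero.2 hχ)

/-- The factor of one entry above the diagonal. -/
noncomputable def slgA (ψ : AddChar F ℂ) (χ : MulChar F ℂ) : ℂ :=
  (∑ t, χ t * (1 - ψ t)) / Fintype.card F

omit [DecidableEq F] in
theorem slg_q : (Fintype.card F : ℂ) ≠ 0 := Nat.cast_ne_zero.2 Fintype.card_ne_zero

theorem slgA_one {ψ : AddChar F ℂ} (hψ : ψ ≠ 1) : slgA ψ 1 = 1 := by
  have h1 := gaussSum_one_left hψ
  have h2 : 1 ≤ Fintype.card F := Fintype.card_pos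
  rw [slgA, div_eq_one_iff_eq slg_q]
  simp only [mul_sub, mul_one, sum_sub_distrib]
  rw [MulChar.sum_one_eq_card_units, Fintype.card_units, Nat.cast_sub h2]
  rw [gaussSum] at h1
  rw [h1]
  simp

omit [DecidableEq F] in
theorem slgA_ne {ψ : AddChar F ℂ} {χ : MulChar F ℂ} (hχ : χ ≠ 1) :
    slgA ψ χ = -gaussSum χ ψ / Fintype.card F := by
  rw [slgA]
  simp only [mul_sub, mul_one, sum_sub_distrib]
  rw [MulChar.sum_eq_zero_of_ne_one hχ, zero_sub, gaussSum]

omit [DecidableEq F] in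
theorem slgA_pair {ψ : AddChar F ℂ} (hψ : ψ ≠ 1) {χ : MulChar F ℂ} (hχ : χ ≠ 1) :
    slgA ψ χ * slgA ψ χ⁻¹ * Fintype.card F = 1 ∨ slgA ψ χ * slgA ψ χ⁻¹ * Fintype.card F = -1 := by
  have h1 := gaussSum_mul_gaussSum_eq_card hχ (AddChar.IsPrimitive.of_ne_one hψ)
  have h2 := mul_gaussSum_inv_eq_gaussSum χ⁻¹ ψ
  have h3 : χ⁻¹ (-1) * χ⁻¹ (-1) = 1 := by rw [← map_mul, neg_mul_neg, one_mul, map_one]
  have h4 : slgA ψ χ * slgA ψ χ⁻¹ * Fintype.card F = χ⁻¹ (-1) := by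
    have hq := slg_q (F := F)
    rw [slgA_ne hχ, slgA_ne (inv_ne_one.2 hχ), ← h2]
    field_simp
    linear_combination χ⁻¹ (-1) * h1
  rw [h4]
  exact mul_self_eq_one_iff.1 h3

theorem slgA_nz {ψ : AddChar F ℂ} (hψ : ψ ≠ 1) (χ : MulChar F ℂ) : slgA ψ χ ≠ 0 := by
  by_cases hχ : χ = 1
  · rw [hχ, slgA_one hψ]; exact one_ne_zero
  · intro h
    have := slgA_pair hψ hχ
    rw [h] at this
    simp at this

theorem slg_kap {ψ : AddChar F ℂ} (hψ : ψ ≠ 1) {K : ℕ} {ζ : MulChar F ℂ} (h : ζ ^ K = 1) :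
    ∑ u, kap ψ K u * ζ u = ∏ i ∈ range K, slgA ψ (ζ ^ (i + 1)) := by
  have h1 : ∀ d : F, ∑ u : Fˣ, ind (d = u) * ζ u = ζ d := fun d => by
    by_cases hd : d = 0
    · rw [hd, MulChar.map_zero]
      exact sum_eq_zero fun u _ => by rw [ind_neg u.ne_zero.symm, zero_mul]
    · rw [sum_eq_single (Units.mk0 d hd) (fun u _ hu => by
        rw [ind_neg fun e => hu (Units.ext e.symm), zero_mul]) (fun hu => absurd (mem_univ _) hu),
        Units.val_mk0, ind_pos rfl, one_mul]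
  let κ : ℕ → F → ℂ := fun j t => (ζ ^ j) t * (1 - ψ t) / slgA ψ (ζ ^ j)
  have h2 : ∀ j, ∑ t, κ j t = Fintype.card F := fun j => by
    have := slgA_nz hψ (ζ ^ j)
    rw [← sum_div, div_eq_iff this, slgA, mul_div_cancel₀ _ slg_q]
  have h3 : ∏ i : Fin K, ∏ j : Fin K, (if (j : ℕ) = i + 1 then slgA ψ (ζ ^ (j : ℕ)) else 1)
      = ∏ i ∈ range K, slgA ψ (ζ ^ (i + 1)) := by
    rw [← Fin.prod_univ_eq_prod_range (fun i => slgA ψ (ζ ^ (i + 1))) K]
    refine prod_congr rfl fun i _ => ?_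
    by_cases hi : (i : ℕ) + 1 < K
    · rw [prod_eq_single ⟨i + 1, hi⟩ (fun j _ hj => if_neg fun e => hj (Fin.ext e))
        (fun hu => absurd (mem_univ _) hu), if_pos rfl]
    · have e : (i : ℕ) + 1 = K := by have := i.2; omega
      rw [e, h, slgA_one hψ]
      exact prod_eq_one fun j _ => if_neg (by have := j.2; omega)
  have h4 : ∀ M : Matrix (Fin K) (Fin K) F, ζ (pw M) * ker (lam ψ) M =
      (∏ i ∈ range K, slgA ψ (ζ ^ (i + 1))) * ker κ M := fun M => by
    rw [← h3, pw, ker, ker, map_prod, ← prod_mul_distrib, ← prod_mul_distrib]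
    refine prod_congr rfl fun i _ => ?_
    rw [map_prod, ← prod_mul_distrib, ← prod_mul_distrib]
    refine prod_congr rfl fun j _ => ?_
    split_ifs with e
    · have := slgA_nz hψ (ζ ^ (j : ℕ))
      rw [map_pow, ← MulChar.pow_apply' ζ (by omega), lam, mul_div_cancel₀ _ this]
    · rw [map_one]
  have h5 : ∑ u : Fˣ, US K (lam ψ) (fun M => ind (pw M = u)) * ζ u
      = (∏ i ∈ range K, slgA ψ (ζ ^ (i + 1))) * uc F K := by
    rw [← US_one h2, US, mul_sum]
    simp only [US, sum_mul]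
    rw [sum_comm]
    refine sum_congr rfl fun M _ => ?_
    calc _ = ind (Uni M) * ((∑ u : Fˣ, ind (pw M = u) * ζ u) * ker (lam ψ) M) := by
          rw [sum_mul, mul_sum]
          exact sum_congr rfl fun _ _ => by ring
      _ = _ := by rw [h1, h4]; ring
  simp only [kap, div_mul_eq_mul_div]
  rw [← sum_div, h5, mul_div_cancel_right₀ _ uc_ne]

theorem kap_one {ψ : AddChar F ℂ} (hψ : ψ ≠ 1) (K : ℕ) : ∑ u, kap ψ K u = 1 := by
  have h := slg_kap hψ (K := K) (ζ := 1) (one_pow K)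
  simpa only [MulChar.one_apply_coe, mul_one, one_pow, slgA_one hψ, prod_const_one] using h

theorem kap_gauss {ψ : AddChar F ℂ} (hψ : ψ ≠ 1) {K : ℕ} {ζ : MulChar F ℂ} (h : orderOf ζ ∣ K) :
    (∑ u, kap ψ K u * ζ u) ^ 2 * (Fintype.card F : ℂ) ^ (K - K / orderOf ζ) = 1 ∨
      (∑ u, kap ψ K u * ζ u) ^ 2 * (Fintype.card F : ℂ) ^ (K - K / orderOf ζ) = -1 := by
  have hK : ζ ^ K = 1 := orderOf_dvd_iff_pow_eq_one.1 h
  have h1 : ∏ i ∈ range K, slgA ψ (ζ ^ (i + 1)) = ∏ i ∈ range K, slgA ψ (ζ ^ (i + 1))⁻¹ := by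
    have a1 := prod_range_succ (fun i => slgA ψ (ζ ^ i)) K
    have a2 := prod_range_succ' (fun i => slgA ψ (ζ ^ i)) K
    rw [hK, slgA_one hψ, mul_one] at a1
    rw [pow_zero, slgA_one hψ, mul_one] at a2
    rw [← a2, a1, ← prod_range_reflect]
    refine prod_congr rfl fun i hi => ?_
    have := mem_range.1 hi
    rw [eq_inv_of_mul_eq_one_left (a := ζ ^ (K - 1 - i)) (b := ζ ^ (i + 1))
      (by rw [← pow_add, show K - 1 - i + (i + 1) = K by omega, hK])]
  have h2 : (Fintype.card F : ℂ) ^ (K - K / orderOf ζ)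
      = ∏ i ∈ range K, if orderOf ζ ∣ i + 1 then 1 else (Fintype.card F : ℂ) := by
    have a1 := card_filter_add_card_filter_not (s := range K) fun i => orderOf ζ ∣ i + 1
    rw [Nat.card_multiples, card_range] at a1
    rw [prod_ite, prod_const_one, one_mul, prod_const]
    congr 1
    omega
  rw [slg_kap hψ hK, sq, h2]
  nth_rewrite 2 [h1]
  nth_rewrite 3 [h1]
  rw [← prod_mul_distrib, ← prod_mul_distrib]
  refine prod_induction _ (fun x : ℂ => x = 1 ∨ x = -1) ?_ (Or.inl rfl) fun i _ => ?_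
  · rintro a b (rfl | rfl) (rfl | rfl) <;> simp
  · split_ifs with e
    · rw [orderOf_dvd_iff_pow_eq_one.1 e, inv_one, slgA_one hψ]
      simp
    · exact slgA_pair hψ fun e' => e (orderOf_dvd_iff_pow_eq_one.2 e')

theorem four_inv {c : ℕ} {p κ : Fˣ → ℂ} (hp : ∀ t y, p (t * y ^ c) = p t)
    (hκ : ∀ ζ : MulChar F ℂ, orderOf ζ ∣ c → ∑ u, κ u * ζ u ≠ 0)
    (h : ∀ t, ∑ u, κ u * p (t * u) = 0) (t : Fˣ) : p t = 0 := by
  have sh : ∀ (η : MulChar F ℂ) (u : Fˣ),
      ∑ s : Fˣ, p (s * u) * η (s * u : Fˣ) = ∑ s : Fˣ, p s * η s := fun η u =>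
    Fintype.sum_equiv (Equiv.mulRight u) _ _ fun _ => rfl
  have h1 : ∀ η : MulChar F ℂ, ∑ s : Fˣ, p s * η s = 0 := fun η => by
    by_cases hη : orderOf η ∣ c
    · have a1 : (∑ u, κ u * η⁻¹ u) * ∑ s : Fˣ, p s * η s
          = ∑ s : Fˣ, η s * ∑ u, κ u * p (s * u) := by
        simp only [mul_sum, sum_mul]
        rw [sum_comm (γ := Fˣ) (f := fun s u => η (s : Fˣ) * (κ u * p (s * u))), sum_comm]
        refine sum_congr rfl fun u _ => ?_
        rw [← mul_sum, ← sh η u, mul_sum]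
        refine sum_congr rfl fun s _ => ?_
        have a2 : η⁻¹ u * η u = 1 := by
          rw [← MulChar.mul_apply, inv_mul_cancel, MulChar.one_apply_coe]
        rw [Units.val_mul, map_mul]
        linear_combination κ u * p (s * u) * η s * a2
      simp only [h, mul_zero, sum_const_zero] at a1
      exact (mul_eq_zero.1 a1).resolve_left (hκ _ (by rwa [orderOf_inv]))
    · obtain ⟨y, hy⟩ := MulChar.ne_one_iff.1 fun e => hη (orderOf_dvd_iff_pow_eq_one.2 e)
      have a1 := sh η (y ^ c)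
      simp only [hp, Units.val_mul, map_mul, ← mul_assoc, ← sum_mul, Units.val_pow_eq_pow_val,
        map_pow] at a1
      rw [MulChar.pow_apply_coe] at hy
      have a2 : (∑ s : Fˣ, p s * η s) * (η y ^ c - 1) = 0 := by rw [mul_sub, a1, mul_one, sub_self]
      exact (mul_eq_zero.1 a2).resolve_right (sub_ne_zero.2 hy)
  have h2 : ∑ η : MulChar F ℂ, (∑ s : Fˣ, p s * η s) * η (t⁻¹ : Fˣ)
      = p t * (Fintype.card F - 1 : ℂ) := by
    simp only [sum_mul]
    rw [sum_comm]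
    simp only [mul_assoc, ← map_mul, ← mul_sum, mulChar_sum]
    rw [sum_eq_single t (fun s _ hs => by
      have e : (s : F) * (t⁻¹ : Fˣ) ≠ 1 := fun e => hs (mul_inv_eq_one.1 (Units.ext e))
      rw [if_neg e, mul_zero])
      (fun hu => absurd (mem_univ _) hu), if_pos t.mul_inv]
  simp only [h1, zero_mul, sum_const_zero] at h2
  refine (mul_eq_zero.1 h2.symm).resolve_right (sub_ne_zero.2 ?_)
  exact_mod_cast (Fintype.one_lt_card (α := F)).ne'

end Pool.Agent.SemiProp.GLn
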