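import Pool.Agent.Lib.MP_c1c6b6_al.SLP2a

set_option autoImplicit false

open Finset Matrix

namespace Pool.Agent.SemiProp.GLn

variable {F : Type} [Field F] [Fintype F] {k m n : ℕ}

theorem slp2_uni_sum (h : k + m = n) (f : Matrix (Fin n) (Fin n) F → ℂ) :
    ∑ u, ind (Uni u) * f u = ∑ a, ∑ d, ∑ v, ind (Uni a) * (ind (Uni d) *
      f ((fromBlocks a v 0 d).submatrix (slp2_e h).symm (slp2_e h).symm)) := by
  rw [← sum_sub (slp2_e h).symm (slp2_e h).symm]
  simp only [slp2_uni, ind_and, mul_assoc, sum_blocks, toBlocks_fromBlocks₁₁, toBlocks_fromBlocks₂₂]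

omit [Field F] in
theorem slp2_one {X : Type} [Fintype X] (a : X) (f : X → ℂ) : ∑ x, ind (x = a) * f x = f a := by
  rw [sum_eq_single a (fun x _ hx => by rw [ind_neg hx, zero_mul]) fun h => absurd (mem_univ a) h,
    ind_pos rfl, one_mul]

theorem slp2_cell (ψ : AddChar F ℂ) {κ : ℕ → F → ℂ} (h : ∀ t, κ k t = 1)
    {A : Matrix (Fin k) (Fin k) F} (hA : A.det ≠ 0) (B : Matrix (Fin m) (Fin m) F) :
    slp2_S ψ κ ((fromBlocks 0 B A 0).submatrix (slp2_e (add_comm m k)).symm (slp2_e rfl).symm) =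
      slp2_S ψ κ A * slp2_S ψ (fun j => κ (k + j)) B := by
  have hu : IsUnit A.det := isUnit_iff_ne_zero.2 hA
  have key : ∀ (a : Matrix (Fin m) (Fin m) F) (d : Matrix (Fin k) (Fin k) F)
      (v : Matrix (Fin m) (Fin k) F) (a' : Matrix (Fin k) (Fin k) F) (d' : Matrix (Fin m) (Fin m) F)
      (v' : Matrix (Fin k) (Fin m) F),
      (fromBlocks a v 0 d).submatrix (slp2_e (add_comm m k)).symm (slp2_e (add_comm m k)).symm *
        (fromBlocks 0 B A 0).submatrix (slp2_e (add_comm m k)).symm (slp2_e rfl).symm =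
      (fromBlocks 0 B A 0).submatrix (slp2_e (add_comm m k)).symm (slp2_e rfl).symm *
        (fromBlocks a' v' 0 d').submatrix (slp2_e rfl).symm (slp2_e rfl).symm ↔
      v' = 0 ∧ v = 0 ∧ d * A = A * a' ∧ a * B = B * d' := by
    intro a d v a' d' v'
    rw [submatrix_mul_equiv, submatrix_mul_equiv, ← reindex_apply, ← reindex_apply,
      (reindex _ _).injective.eq_iff]
    simp only [fromBlocks_multiply, fromBlocks_inj, Matrix.mul_zero, Matrix.zero_mul, zero_add,
      add_zero]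
    have e1 : v * A = 0 ↔ v = 0 := ⟨fun e => by
      rw [← Matrix.mul_one v, ← Matrix.mul_nonsing_inv A hu, ← Matrix.mul_assoc, e,
        Matrix.zero_mul], fun e => by rw [e, Matrix.zero_mul]⟩
    have e2 : 0 = A * v' ↔ v' = 0 := ⟨fun e => by
      rw [← Matrix.one_mul v', ← Matrix.nonsing_inv_mul A hu, Matrix.mul_assoc, ← e,
        Matrix.mul_zero], fun e => by rw [e, Matrix.mul_zero]⟩
    rw [e1, e2]
    tauto
  rw [slp2_S, slp2_uni_sum (add_comm m k)]
  simp only [slp2_uni_sum (rfl : k + m = k + m), key, slp2_kerb rfl h, toBlocks_fromBlocks₁₁,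
    toBlocks_fromBlocks₂₂, ind_and, mul_assoc, ← mul_sum, slp2_one]
  simp only [mul_left_comm _ (ind (_ = (0 : Matrix (Fin m) (Fin k) F))), ← mul_sum, slp2_one,
    slp2_ker_diag]
  rw [slp2_S, slp2_S, mul_comm, sum_mul_sum]
  refine sum_congr rfl fun a _ => ?_
  rw [mul_sum]
  refine sum_congr rfl fun d _ => ?_
  rw [mul_mul_mul_comm, mul_assoc, sum_mul_sum, sum_comm]
  congr 2
  refine sum_congr rfl fun a' _ => ?_
  rw [mul_sum]
  refine sum_congr rfl fun d' _ => ?_
  rw [map_mul]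
  ring

theorem slp2_big (ψ : AddChar F ℂ) (ζ : MulChar F ℂ) {κ : ℕ → F → ℂ} (h : ∀ t, κ k t = 1)
    {A : Matrix (Fin k) (Fin k) F} (hA : A.det ≠ 0) (B : Matrix (Fin m) (Fin m) F)
    (P : Matrix (Fin m) (Fin k) F) (R : Matrix (Fin k) (Fin m) F) {g : Matrix _ _ F}
    (hg : g = (fromBlocks P (B + P * A⁻¹ * R) A R).submatrix (slp2_e (add_comm m k)).symm
      (slp2_e rfl).symm) : ζ g.det * slp2_S ψ κ g = ζ ((-1) ^ (k * m)) *
      (ζ A.det * slp2_S ψ κ A * (ζ B.det * slp2_S ψ (fun j => κ (k + j)) B)) := by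
  have hu : IsUnit A.det := isUnit_iff_ne_zero.2 hA
  have a1 := Matrix.mul_nonsing_inv A hu
  have a2 := Matrix.nonsing_inv_mul A hu
  have hX := slp2_rad_block (add_comm m k) (P * A⁻¹)
  have hX' := slp2_rad_block (add_comm m k) (-(P * A⁻¹))
  have hY := slp2_rad_block (rfl : k + m = k + m) (A⁻¹ * R)
  have hY' := slp2_rad_block (rfl : k + m = k + m) (-(A⁻¹ * R))
  have h1 : g * (fromBlocks 1 (-(A⁻¹ * R)) 0 1).submatrix (slp2_e rfl).symm (slp2_e rfl).symm =
      (fromBlocks 1 (P * A⁻¹) 0 1).submatrix (slp2_e (add_comm m k)).symm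
        (slp2_e (add_comm m k)).symm *
      (fromBlocks 0 B A 0).submatrix (slp2_e (add_comm m k)).symm (slp2_e rfl).symm := by
    rw [hg, submatrix_mul_equiv, submatrix_mul_equiv, fromBlocks_multiply, fromBlocks_multiply]
    simp [← Matrix.mul_assoc A, a1, a2, Matrix.mul_assoc P]
  have h2 : (fromBlocks 1 (-(P * A⁻¹)) 0 1).submatrix (slp2_e (add_comm m k)).symm
        (slp2_e (add_comm m k)).symm * g =
      (fromBlocks 0 B A 0).submatrix (slp2_e (add_comm m k)).symm (slp2_e rfl).symm *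
      (fromBlocks 1 (A⁻¹ * R) 0 1).submatrix (slp2_e rfl).symm (slp2_e rfl).symm := by
    rw [hg, submatrix_mul_equiv, submatrix_mul_equiv, fromBlocks_multiply, fromBlocks_multiply]
    simp [← Matrix.mul_assoc A, a1, a2, Matrix.mul_assoc P]
  have h3 := congrArg det h1
  rw [det_mul, det_mul, hX.1.det, hY'.1.det, mul_one, one_mul, slp2_det] at h3
  rw [slp2_move ψ h hX.1 hX'.1 hY' hY h1 h2, ← slp2_ker_mul ψ hX.1 hX'.1, submatrix_mul_equiv,
    fromBlocks_multiply, h3, slp2_cell ψ h hA, map_mul, map_mul]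
  simp only [Matrix.mul_zero, Matrix.zero_mul, Matrix.mul_one, Matrix.one_mul, add_zero, zero_add,
    neg_add_cancel, fromBlocks_one, submatrix_one_equiv, slp2_ker_one]
  ring

variable [DecidableEq F]

theorem PW_psi {ψ : AddChar F ℂ} (hψ : ψ ≠ 1) (ζ : MulChar F ℂ) {κ : ℕ → F → ℂ}
    (h : ∀ t, κ k t = 1) : PW ζ (k + m) (fun _ => ψ) κ =
      ζ ((-1) ^ (k * m)) * (PW ζ k (fun _ => ψ) κ * PW ζ m (fun _ => ψ) fun j => κ (k + j)) := by
  obtain ⟨T, hT⟩ : ∃ T : Matrix (Fin m ⊕ Fin k) (Fin k ⊕ Fin m) F → ℂ, T = fun s =>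
      ζ (s.submatrix (slp2_e (add_comm m k)).symm (slp2_e rfl).symm).det *
        slp2_S ψ κ (s.submatrix (slp2_e (add_comm m k)).symm (slp2_e rfl).symm) := ⟨_, rfl⟩
  have key : ∀ P A R, ∑ Q, T (fromBlocks P Q A R) = ζ ((-1) ^ (k * m)) * (ζ A.det * slp2_S ψ κ A *
      ∑ B : Matrix (Fin m) (Fin m) F, ζ B.det * slp2_S ψ (fun j => κ (k + j)) B) := by
    intro P A R
    by_cases hA : A.det = 0
    · rw [hA, MulChar.map_zero, zero_mul, zero_mul, mul_zero, hT]
      refine sum_eq_zero fun Q _ => ?_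
      by_cases hg : ((fromBlocks P Q A R).submatrix (slp2_e (add_comm m k)).symm
        (slp2_e rfl).symm).det = 0
      · simp only [hg, MulChar.map_zero, zero_mul]
      · simp only [slp2_zero hψ h (fromBlocks P Q A R) hA hg, mul_zero]
    · rw [mul_sum, mul_sum, ← Equiv.sum_comp (Equiv.addRight (P * A⁻¹ * R)), hT]
      exact sum_congr rfl fun B _ => slp2_big ψ ζ h hA B P R rfl
  have h1 : ∑ s, T s = ∑ P, ∑ A, ∑ R, ∑ Q, T (fromBlocks P Q A R) := by
    rw [sum_cols, sum_rows]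
    refine sum_congr rfl fun P _ => sum_congr rfl fun A _ => ?_
    rw [sum_rows, sum_comm]
    simp only [fromCols_fromRows_eq_fromBlocks]
  have h2 : Fintype.card (Matrix (Fin m) (Fin k) F) = Fintype.card (Matrix (Fin k) (Fin m) F) :=
    Fintype.card_congr ⟨transpose, transpose, transpose_transpose, transpose_transpose⟩
  rw [slp2_PW, slp2_PW, slp2_PW, ← sum_sub (slp2_e (add_comm m k)).symm (slp2_e rfl).symm,
    uc_split]
  simp only [key, sum_const, card_univ, nsmul_eq_mul, ← mul_sum, ← sum_mul, h2] at h1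
  rw [hT] at h1
  rw [h1]
  have h3 := uc_ne (F := F) (n := k)
  have h4 := uc_ne (F := F) (n := m)
  have h5 := mat_ne (F := F) (α := Fin k) (β := Fin m)
  field_simp

end Pool.Agent.SemiProp.GLn
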