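import Pool.Agent.Lib.MP_c1c6b6_al.SLP1
import Pool.Agent.Lib.MP_c1c6b6_al.SLP2
import Pool.Agent.Lib.MP_c1c6b6_al.SLG

set_option autoImplicit false

open Finset Matrix

namespace Pool.Agent.SemiProp.GLn

variable {F : Type} [Field F] [Fintype F] [DecidableEq F]

omit [DecidableEq F] in
theorem slp3_congr (w : F → ℂ) {n : ℕ} {κ κ₁ κ₂ : ℕ → F → ℂ}
    (h : ∀ j, 0 < j → j < n → κ₁ j = κ₂ j) : PW w n κ κ₁ = PW w n κ κ₂ := by
  simp only [PW, ker_congr h]

omit [DecidableEq F] in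
theorem slp3_zero (ζ : MulChar F ℂ) (κ κ' : ℕ → F → ℂ) : PW ζ 0 κ κ' = 1 := by
  have h1 : ∀ M : Matrix (Fin 0) (Fin 0) F, Uni M := fun M i => i.elim0
  have h2 : uc F 0 = 1 := by
    rw [uc, Fintype.sum_subsingleton _ 1, ind_pos (h1 _)]
  rw [PW, h2, Fintype.sum_subsingleton _ 1, Fintype.sum_subsingleton _ 1,
    Fintype.sum_subsingleton _ 1, ind_pos ⟨h1 _, h1 _, rfl⟩]
  simp [ker]

omit [Field F] [Fintype F] [DecidableEq F] in
theorem slp3_ind (p : Prop) : (starRingEnd ℂ) (ind p) = ind p := by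
  by_cases h : p
  · rw [ind_pos h, map_one]
  · rw [ind_neg h, map_zero]

theorem slp3_conj (ζ : MulChar F ℂ) (n : ℕ) (κ κ' : ℕ → F → ℂ) :
    (starRingEnd ℂ) (PW ζ n κ κ') = PW ζ n κ' κ := by
  classical
  have h0 : (starRingEnd ℂ) (uc F n) = uc F n := by simp only [uc, map_sum, slp3_ind]
  rw [PW, PW, map_div₀, map_pow, h0, map_sum]
  congr 1
  have hφ : Function.Involutive fun g : Matrix (Fin n) (Fin n) F =>
      if IsUnit g.det then g⁻¹ else g := by
    intro g
    by_cases hg : IsUnit g.det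
    · simp only [if_pos hg, if_pos (isUnit_nonsing_inv_det g hg), nonsing_inv_nonsing_inv g hg]
    · simp only [if_neg hg]
  refine Fintype.sum_bijective _ hφ.bijective _ _ fun g => ?_
  by_cases hg : IsUnit g.det
  · rw [if_pos hg, sum_comm, map_sum]
    refine sum_congr rfl fun u' _ => ?_
    rw [map_sum]
    refine sum_congr rfl fun u _ => ?_
    have h1 : (starRingEnd ℂ) (ζ g.det) = ζ g⁻¹.det := by
      rw [det_nonsing_inv, Ring.inverse_eq_inv', ← MulChar.inv_apply', ← MulChar.star_apply']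
      rfl
    have h2 : (Uni u ∧ Uni u' ∧ u * g = g * u') ↔ (Uni u' ∧ Uni u ∧ u' * g⁻¹ = g⁻¹ * u) := by
      have h3 : u * g = g * u' ↔ u' * g⁻¹ = g⁻¹ * u := by
        constructor
        · intro h
          calc u' * g⁻¹ = g⁻¹ * (g * u') * g⁻¹ := by
                rw [nonsing_inv_mul_cancel_left g _ hg]
            _ = g⁻¹ * u := by
                rw [← h, ← Matrix.mul_assoc, mul_nonsing_inv_cancel_right g _ hg]
        · intro h
          calc u * g = g * (g⁻¹ * u) * g := by rw [mul_nonsing_inv_cancel_left g _ hg]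
            _ = g * u' := by
                rw [← h, ← Matrix.mul_assoc, nonsing_inv_mul_cancel_right g _ hg]
      rw [h3]
      exact and_left_comm
    rw [map_mul, map_mul, map_mul, slp3_ind, h1, Complex.conj_conj, propext h2, mul_comm (ker κ' u')]
  · simp only [if_neg hg, ζ.map_nonunit hg, zero_mul, sum_const_zero, map_zero]

omit [DecidableEq F] in
theorem slp3_neg (ζ : MulChar F ℂ) (k : ℕ) (κ κ' : ℕ → F → ℂ) :
    ζ ((-1) ^ k) * PW ζ k κ κ' = PW ζ k κ κ' := by
  rw [PW, ← mul_div_assoc, mul_sum]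
  congr 1
  refine Fintype.sum_equiv (Equiv.neg _) _ _ fun g => ?_
  simp only [Equiv.neg_apply, det_neg, Fintype.card_fin, map_mul, Matrix.mul_neg, Matrix.neg_mul,
    neg_inj, mul_sum, mul_assoc]

omit [DecidableEq F] in
theorem slp3_sign (ζ : MulChar F ℂ) (k m : ℕ) (κ κ' : ℕ → F → ℂ) :
    ζ ((-1) ^ (k * m)) * PW ζ k κ κ' = PW ζ k κ κ' := by
  induction m with
  | zero => rw [mul_zero, pow_zero, map_one, one_mul]
  | succ m ih => rw [Nat.mul_succ, pow_add, map_mul, mul_assoc, slp3_neg, ih]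

omit [DecidableEq F] in
theorem slp3_tele (w : F → ℂ) {n : ℕ} (hn : 0 < n) (ψ : F → ℂ) (κ : ℕ → F → ℂ) :
    ∑ k ∈ range (n + 1), (-1) ^ k *
      PW w n κ (fun j t => if j < k then ψ t else if j = k then 1 else 1 - ψ t) = 0 := by
  simp only [PW, ← mul_div_assoc, ← sum_div, mul_sum]
  rw [sum_comm, sum_eq_zero, zero_div]
  intro g _
  rw [sum_comm]
  refine sum_eq_zero fun u _ => ?_
  rw [sum_comm]
  refine sum_eq_zero fun u' _ => ?_
  have h := congrArg (starRingEnd ℂ) (tele hn ψ u')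
  simp only [map_sum, map_mul, map_pow, map_neg, map_one, map_zero] at h
  simp only [mul_left_comm ((-1 : ℂ) ^ _), ← mul_sum]
  rw [h, mul_zero, mul_zero, mul_zero]

omit [DecidableEq F] in
theorem slp3_left (w : F → ℂ) (k : ℕ) (ψ : AddChar F ℂ) (κ : ℕ → F → ℂ) :
    PW w k κ (fun j t => if j < k then ψ t else if j = k then 1 else 1 - ψ t) =
      PW w k κ fun _ => ψ :=
  slp3_congr w fun _ _ hj => funext fun _ => if_pos hj

omit [DecidableEq F] in
theorem slp3_right (w : F → ℂ) (k m : ℕ) (ψ : AddChar F ℂ) (κ : ℕ → F → ℂ) :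
    PW w m κ (fun j t => if k + j < k then ψ t else if k + j = k then 1 else 1 - ψ t) =
      PW w m κ (lam ψ) :=
  slp3_congr w fun j hj _ => funext fun t => by
    rw [if_neg (by omega), if_neg (by omega)]
    rfl

theorem slp3_lam {ψ : AddChar F ℂ} (hψ : ψ ≠ 1) (ζ : MulChar F ℂ) {n : ℕ} (hn : 0 < n) :
    ∑ k ∈ range (n + 1), (-1) ^ k * PW ζ k (lam ψ) (fun _ => ψ) *
      PW ζ (n - k) (lam ψ) (lam ψ) = 0 := by
  rw [← slp3_tele ζ hn ψ (lam ψ)]
  refine sum_congr rfl fun k hk => ?_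
  have hk' := Nat.add_sub_cancel' (Nat.lt_succ_iff.1 (mem_range.1 hk))
  have h2 := PW_lam (k := k) (m := n - k) hψ ζ
    (κ := fun j t => if j < k then ψ t else if j = k then 1 else 1 - ψ t) (by simp)
  rw [hk'] at h2
  rw [h2, slp3_left, slp3_right, mul_assoc]

theorem slp3_psi {ψ : AddChar F ℂ} (hψ : ψ ≠ 1) (ζ : MulChar F ℂ) {n : ℕ} (hn : 0 < n) :
    ∑ k ∈ range (n + 1), (-1) ^ k * PW ζ k (lam ψ) (fun _ => ψ) *
      PW ζ (n - k) (fun _ => ψ) (fun _ => ψ) = 0 := by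
  have h1 : ∑ k ∈ range (n + 1), (-1) ^ k * (PW ζ k (fun _ => ψ) (fun _ => ψ) *
      PW ζ (n - k) (fun _ => ψ) (lam ψ)) = 0 := by
    rw [← slp3_tele ζ hn ψ fun _ => ψ]
    refine sum_congr rfl fun k hk => ?_
    have hk' := Nat.add_sub_cancel' (Nat.lt_succ_iff.1 (mem_range.1 hk))
    have h2 := PW_psi (k := k) (m := n - k) hψ ζ
      (κ := fun j t => if j < k then ψ t else if j = k then 1 else 1 - ψ t) (by simp)
    rw [hk'] at h2
    rw [h2, ← mul_assoc (ζ _), slp3_sign, slp3_left, slp3_right]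
  have h2 := congrArg (fun z => (-1) ^ n * (starRingEnd ℂ) z) h1
  simp only [map_sum, map_mul, map_pow, map_neg, map_one, map_zero, slp3_conj, mul_zero,
    mul_sum] at h2
  rw [← h2, ← sum_range_reflect]
  refine sum_congr rfl fun k hk => ?_
  have hk' := Nat.lt_succ_iff.1 (mem_range.1 hk)
  have h3 : (-1 : ℂ) ^ n * (-1) ^ k = (-1) ^ (n - k) := by
    conv_lhs => rw [← Nat.add_sub_cancel' hk', pow_add, mul_right_comm, ← mul_pow]
    simp
  rw [Nat.add_sub_cancel, Nat.sub_sub_self hk', ← mul_assoc, h3]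
  ring

theorem slp3_main {ψ : AddChar F ℂ} (hψ : ψ ≠ 1) (ζ : MulChar F ℂ) (n : ℕ) :
    PW ζ n (lam ψ) (lam ψ) = PW ζ n (fun _ => ψ) fun _ => ψ := by
  induction n using Nat.strong_induction_on with
  | _ n ih =>
    rcases Nat.eq_zero_or_pos n with rfl | hn
    · rw [slp3_zero, slp3_zero]
    · have h := (slp3_lam hψ ζ hn).trans (slp3_psi hψ ζ hn).symm
      rw [sum_range_succ', sum_range_succ', slp3_zero, sum_congr rfl fun k _ => by
        rw [ih (n - (k + 1)) (by omega)]] at h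
      simpa using h

theorem PW_norm {ψ : AddChar F ℂ} (hψ : ψ ≠ 1) (n : ℕ) :
    PW (fun d => ind (d = 1)) n (lam ψ) (lam ψ) =
      PW (fun d => ind (d = 1)) n (fun _ => ψ) fun _ => ψ := by
  have hq : (Fintype.card F - 1 : ℂ) ≠ 0 := by
    rw [sub_ne_zero]
    exact_mod_cast Fintype.one_lt_card.ne'
  have h1 : ∀ κ κ' : ℕ → F → ℂ, (Fintype.card F - 1 : ℂ) * PW (fun d => ind (d = 1)) n κ κ' =
      ∑ ζ : MulChar F ℂ, PW ζ n κ κ' := by
    intro κ κ'
    simp only [PW, ← mul_div_assoc, ← sum_div, mul_sum]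
    congr 1
    rw [sum_comm (s := (univ : Finset (MulChar F ℂ)))]
    refine sum_congr rfl fun g _ => ?_
    rw [sum_comm (s := (univ : Finset (MulChar F ℂ)))]
    refine sum_congr rfl fun u _ => ?_
    rw [sum_comm (s := (univ : Finset (MulChar F ℂ)))]
    refine sum_congr rfl fun u' _ => ?_
    rw [← sum_mul, mulChar_sum, ← mul_assoc]
    congr 1
    by_cases h : g.det = 1
    · rw [ind_pos h, if_pos h, mul_one]
    · rw [ind_neg h, if_neg h, mul_zero]
  refine mul_left_cancel₀ hq ?_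
  rw [h1, h1]
  exact sum_congr rfl fun ζ _ => slp3_main hψ ζ n

end Pool.Agent.SemiProp.GLn
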