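import Pool.Agent.Lib.MP_c1c6b6_al.SLI
import Pool.Agent.Lib.MP_c1c6b6_al.SLG

set_option autoImplicit false

open Finset Matrix

namespace Pool.Agent.SemiProp.GLn

variable {F : Type} [Field F] [Fintype F] [DecidableEq F] {n : ℕ}

/-- The twist of an irreducible character by a character of the determinant. -/
noncomputable def slt_tw (ζ : MulChar F ℂ) (x : II F) : II F :=
  ⟨x.1, fun g => ζ g.val.det * x.2.1 g,
    x.2.2.twist (ζ.toMonoidHom.comp (Matrix.detMonoidHom.comp (Units.coeHom _)))⟩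

omit [Fintype F] [DecidableEq F] in
theorem slt_ev (ζ : MulChar F ℂ) (x : II F) {ι : Type} [Fintype ι] [DecidableEq ι]
    (M : Matrix ι ι F) : ev (slt_tw ζ x) M = ζ M.det * ev x M := by
  by_cases h : Fintype.card ι = x.1
  · rw [ev, ev, dif_pos h, dif_pos (show Fintype.card ι = (slt_tw ζ x).1 from h)]
    by_cases h1 : IsUnit (M.submatrix (Fintype.equivFinOfCardEq h).symm
      (Fintype.equivFinOfCardEq h).symm)
    · rw [← det_submatrix_equiv_self (Fintype.equivFinOfCardEq h).symm M]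
      refine (dif_pos h1).trans ?_
      rw [ext, dif_pos h1]
      rfl
    · rw [ext_sing x.2.1 h1, mul_zero]
      exact ext_sing _ h1
  · rw [ev_card h, ev_card (show Fintype.card ι ≠ (slt_tw ζ x).1 from h), mul_zero]

omit [Fintype F] [DecidableEq F] in
theorem slt_inv {ζ ζ' : MulChar F ℂ} (h : ζ * ζ' = 1) (x : II F) : slt_tw ζ (slt_tw ζ' x) = x := by
  refine Sigma.ext rfl (heq_of_eq (Subtype.ext (funext fun g => ?_)))
  change ζ g.val.det * (ζ' g.val.det * x.2.1 g) = x.2.1 g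
  rw [← mul_assoc, ← MulChar.mul_apply, h,
    MulChar.one_apply ((isUnit_iff_isUnit_det _).1 g.isUnit), one_mul]

omit [DecidableEq F] in
theorem slt_conj (ζ : MulChar F ℂ) {d : F} (h : IsUnit d) :
    ζ d * (starRingEnd ℂ) (ζ d) = 1 := by
  change ζ d * star (ζ d) = 1
  rw [MulChar.star_apply', ← MulChar.mul_apply, mul_inv_cancel, MulChar.one_apply h]

theorem slt_cc (ζ : MulChar F ℂ) (x y z : II F) :
    cc (slt_tw ζ x) (slt_tw ζ y) (slt_tw ζ z) = cc x y z := by
  have h1 := cc_spec (α := Fin x.1) (β := Fin y.1) (x := slt_tw ζ x) (y := slt_tw ζ y)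
    (Fintype.card_fin _) (Fintype.card_fin _) (slt_tw ζ z)
  have h2 := cc_spec (α := Fin x.1) (β := Fin y.1) (x := x) (y := y)
    (Fintype.card_fin _) (Fintype.card_fin _) z
  refine Nat.cast_injective (R := ℂ) (mul_right_cancel₀ (par_ne (F := F) (α := Fin x.1)
    (β := Fin y.1)) ?_)
  rw [← h1, ← h2]
  refine sum_congr rfl fun s _ => ?_
  by_cases hs : s.toBlocks₂₁ = 0
  · by_cases hu : IsUnit s
    · have h3 : s.det = s.toBlocks₁₁.det * s.toBlocks₂₂.det := by
        conv_lhs => rw [eq_blocks hs]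
        exact det_fromBlocks_zero₂₁ _ _ _
      have h4 := slt_conj ζ ((isUnit_iff_isUnit_det _).1 hu)
      rw [X0, X0, slt_ev, slt_ev, slt_ev, mul_mul_mul_comm (ζ _), ← map_mul ζ, ← h3,
        mul_left_comm (ind _), map_mul (starRingEnd ℂ) (ζ _), mul_mul_mul_comm, h4, one_mul]
    · rw [ev_sing _ hu, ev_sing _ hu, zero_mul, zero_mul]
  · simp only [X0, ind_neg hs, zero_mul, map_zero, mul_zero]

theorem exists_tw (ψ : AddChar F ℂ) (ζ : MulChar F ℂ) : ∃ τ : II F ≃ II F,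
    (∀ x, (τ x).1 = x.1) ∧ (∀ (x : II F) (ι : Type) [Fintype ι] [DecidableEq ι] (M : Matrix ι ι F),
      ev (τ x) M = ζ M.det * ev x M) ∧ (∀ x y z, cc (τ x) (τ y) (τ z) = cc x y z) ∧
      (∀ x, dl ψ (τ x) = dl ψ x) ∧ ∀ x, dr (τ x) = dr x := by
  refine ⟨⟨slt_tw ζ, slt_tw ζ⁻¹, slt_inv (inv_mul_cancel ζ), slt_inv (mul_inv_cancel ζ)⟩,
    fun _ => rfl, fun x ι _ _ M => slt_ev ζ x M, slt_cc ζ, fun x => ?_, fun x => ?_⟩
  · change US x.1 _ (fun M => ev (slt_tw ζ x) M) / _ = US x.1 _ (fun M => ev x M) / uc F x.1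
    congr 1
    refine sum_congr rfl fun M _ => ?_
    by_cases hM : Uni M
    · simp only [slt_ev, hM.det, map_one, one_mul]
    · rw [ind_neg hM, zero_mul, zero_mul]
  · change (-1) ^ x.1 * ev (slt_tw ζ x) (J F x.1) = (-1) ^ x.1 * ev x (J F x.1)
    rw [slt_ev, uni_J.det, map_one, one_mul]

theorem slt_sum (H : Subgroup (GL (Fin n) F)) [Fintype H] (f : GL (Fin n) F → ℂ) :
    ∑ g : H, f g.1 = ∑ g, ind (g ∈ H) * f g := by
  classical
  rw [← Finset.sum_subtype (univ.filter (· ∈ H)) (by simp) f, sum_filter]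
  exact sum_congr rfl fun g _ => by by_cases hg : g ∈ H <;> simp [ind, hg]

theorem clifford (H : Subgroup (GL (Fin n) F)) [Fintype H]
    (hH : ∀ g : GL (Fin n) F, g.val.det = 1 → g ∈ H) {x y : II F} (hx : x.1 = n) (hy : y.1 = n)
    (h : ∑ g : H, ev x g.1.val * (starRingEnd ℂ) (ev y g.1.val) ≠ 0) :
    ∃ ζ : MulChar F ℂ, (∀ g ∈ H, ζ g.val.det = 1) ∧
      ∀ M : Matrix (Fin n) (Fin n) F, ev x M = ζ M.det * ev y M := by
  have h1 : ∑ g : H, ev y g.1.val * (starRingEnd ℂ) (ev x g.1.val) ≠ 0 := fun h0 => h (by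
    have := congrArg (starRingEnd ℂ) h0
    simpa only [map_sum, map_mul, Complex.conj_conj, map_zero, mul_comm] using this)
  have hq : (Fintype.card F - 1 : ℂ) ≠ 0 := by
    rw [sub_ne_zero]
    exact_mod_cast Fintype.one_lt_card.ne'
  have hT : ∑ k : H, ind (k.1.val.det = 1) ≠ 0 := sum_ind_ne (x := 1) (by simp)
  have h2 : ∀ g : GL (Fin n) F, ∑ ζ : MulChar F ℂ, (∑ k : H, ζ k.1.val.det) * ζ g.val.det =
      (Fintype.card F - 1 : ℂ) * (∑ k : H, ind (k.1.val.det = 1)) * ind (g ∈ H) := fun g => by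
    have h3 : ∑ ζ : MulChar F ℂ, (∑ k : H, ζ k.1.val.det) * ζ g.val.det =
        (Fintype.card F - 1 : ℂ) * ∑ k : H, ind ((k.1 * g).val.det = 1) := by
      simp only [sum_mul, mul_sum]
      rw [sum_comm]
      refine sum_congr rfl fun k _ => ?_
      simp only [← map_mul]
      rw [mulChar_sum, Units.val_mul, det_mul]
      split_ifs with h4
      · rw [ind_pos h4, mul_one]
      · rw [ind_neg h4, mul_zero]
    rw [h3, mul_assoc]
    congr 1
    by_cases hg : g ∈ H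
    · rw [ind_pos hg, mul_one]
      exact Equiv.sum_comp (Equiv.mulRight (⟨g, hg⟩ : H)) fun k : H => ind (k.1.val.det = 1)
    · rw [ind_neg hg, mul_zero]
      exact sum_eq_zero fun k _ => ind_neg fun h4 => hg ((H.mul_mem_cancel_left k.2).1 (hH _ h4))
  have h4 : ∑ ζ : MulChar F ℂ, (∑ k : H, ζ k.1.val.det) *
      ∑ M : Matrix (Fin n) (Fin n) F, ev (slt_tw ζ y) M * (starRingEnd ℂ) (ev x M) ≠ 0 := by
    refine fun h0 => mul_ne_zero (mul_ne_zero hq hT) h1 (Eq.trans ?_ h0)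
    rw [slt_sum H fun g => ev y g.val * (starRingEnd ℂ) (ev x g.val), mul_sum]
    simp only [← mul_assoc, ← h2, sum_mul _ (fun ζ : MulChar F ℂ => _ * _)]
    rw [sum_comm]
    refine sum_congr rfl fun ζ _ => ?_
    rw [← sum_GL' fun M hM => by rw [ev_sing _ hM, zero_mul], mul_sum]
    exact sum_congr rfl fun g _ => by rw [slt_ev]; ring
  obtain ⟨ζ, -, h5⟩ := exists_ne_zero_of_sum_ne_zero h4
  refine ⟨ζ, fun g hg => mul_left_cancel₀ (left_ne_zero_of_mul h5) ?_, fun M => ?_⟩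
  · rw [mul_one, sum_mul, ← Equiv.sum_comp (Equiv.mulRight (⟨g, hg⟩ : H))
      fun k : H => ζ k.1.val.det]
    exact sum_congr rfl fun k _ => by rw [← map_mul, ← det_mul]; rfl
  · have h6 := right_ne_zero_of_mul h5
    rw [ev_orth (x := slt_tw ζ y) ((Fintype.card_fin n).trans hy.symm)] at h6
    rw [← slt_ev, by_contra fun h7 : ¬ slt_tw ζ y = x => h6 (if_neg h7)]

theorem exists_over (H : Subgroup (GL (Fin n) F)) [Fintype H] {φ : H → ℂ} (hφ : IsIr φ) :
    ∃ x : II F, x.1 = n ∧ ∑ g : H, ev x g.1.val * (starRingEnd ℂ) (φ g) ≠ 0 := by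
  by_contra h0
  push Not at h0
  have h1 := complete (F := F) (fun M : Matrix (Fin n) (Fin n) F =>
    ∑ k : H, ind (M = k.1.val) * φ k) 1
  rw [sum_eq_zero fun a ha => ?_, sum_eq_single 1 (fun k _ hk => ?_) (by simp),
    ind_pos (by simp), one_mul] at h1
  · exact mul_ne_zero gl_ne hφ.one_ne h1.symm
  · rw [ind_neg fun h2 => hk (Subtype.ext (Units.ext h2.symm)), zero_mul]
  · have h2 := congrArg (starRingEnd ℂ) (h0 a ((mem_lev.1 ha).trans (Fintype.card_fin n)))
    simp only [map_sum, map_mul, Complex.conj_conj, map_zero] at h2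
    refine mul_eq_zero_of_right _ (Eq.trans ?_ h2)
    simp only [Matrix.one_mul, sum_mul]
    rw [sum_comm]
    refine sum_congr rfl fun k _ => ?_
    rw [sum_eq_single k.1.val (fun M _ hM => by rw [ind_neg hM, zero_mul, zero_mul]) (by simp),
      ind_pos rfl, one_mul, mul_comm]

end Pool.Agent.SemiProp.GLn
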