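import Pool.Agent.Lib.MP_c1c6b6_al.SLS
import Pool.Agent.Lib.MP_c1c6b6_al.SLT
import Pool.Agent.Lib.MP_c1c6b6_al.SLJ
import Pool.Agent.Lib.MP_c1c6b6_al.SLP3

set_option autoImplicit false

open Finset Matrix

namespace Pool.Agent.SemiProp.GLn

theorem slb_count {X : Type} (I : Finset X) (W : X → ℕ) (L : X → ℤ)
    (h : ∑ x ∈ I, L x ^ 2 = ∑ x ∈ I, (W x : ℤ) ^ 2) (h1 : ∀ x ∈ I, W x ≤ 1) (β : X → X)
    (hβ : ∀ x ∈ I, W x ≠ 0 → β x ∈ I ∧ L (β x) ≠ 0)
    (hi : ∀ x ∈ I, W x ≠ 0 → ∀ y ∈ I, W y ≠ 0 → β x = β y → x = y) {γ : X} (hγ : γ ∈ I)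
    (hn : ∀ x ∈ I, W x ≠ 0 → β x ≠ γ) : L γ = 0 := by
  classical
  by_contra h0
  have h2 : ∑ x ∈ I, (W x : ℤ) ^ 2 = ((I.filter fun x => W x ≠ 0).card : ℤ) := by
    rw [card_filter, Nat.cast_sum]
    refine sum_congr rfl fun x hx => ?_
    rcases Nat.le_one_iff_eq_zero_or_eq_one.1 (h1 x hx) with h3 | h3 <;> simp [h3]
  have h3 : γ ∉ (I.filter fun x => W x ≠ 0).image β := fun h3 => by
    obtain ⟨x, hx, h4⟩ := mem_image.1 h3
    exact hn x (mem_filter.1 hx).1 (mem_filter.1 hx).2 h4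
  have h4 : (insert γ ((I.filter fun x => W x ≠ 0).image β)).card =
      (I.filter fun x => W x ≠ 0).card + 1 := by
    rw [card_insert_of_notMem h3, card_image_of_injOn fun x hx y hy =>
      hi x (mem_filter.1 hx).1 (mem_filter.1 hx).2 y (mem_filter.1 hy).1 (mem_filter.1 hy).2]
  have h5 : ∀ z ∈ insert γ ((I.filter fun x => W x ≠ 0).image β), z ∈ I ∧ L z ≠ 0 := by
    intro z hz
    rcases mem_insert.1 hz with rfl | hz
    · exact ⟨hγ, h0⟩
    · obtain ⟨x, hx, rfl⟩ := mem_image.1 hz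
      exact hβ x (mem_filter.1 hx).1 (mem_filter.1 hx).2
  have h6 : ∑ z ∈ insert γ ((I.filter fun x => W x ≠ 0).image β), (1 : ℤ) ≤ ∑ x ∈ I, L x ^ 2 :=
    (sum_le_sum fun z hz => by
      have := (h5 z hz).2
      have : 0 < L z ^ 2 := by positivity
      omega).trans
      (sum_le_sum_of_subset_of_nonneg (fun z hz => (h5 z hz).1) fun _ _ _ => sq_nonneg _)
  rw [sum_const, h4, h, h2] at h6
  simp at h6

theorem slb_mem {G : Type} [Group G] [Fintype G] (α : G → ℂ) :
    α ∈ (finite_isIr G).toFinset ↔ IsIr α := Set.Finite.mem_toFinset _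

theorem IsCh.slb_inv {G : Type} [Group G] [Fintype G] {χ : G → ℂ} (h : IsCh χ) (g : G) :
    χ g⁻¹ = (starRingEnd ℂ) (χ g) := by
  obtain ⟨V, i1, i2, i3, ρ, rfl⟩ := h
  exact char_inv ρ g

variable {F : Type} [Field F] {n : ℕ}

variable (F n) in
/-- The matrices of determinant one. -/
def slb_K : Subgroup (GL (Fin n) F) where
  carrier := {g | g.val.det = 1}
  one_mem' := det_one
  mul_mem' := fun {a b} ha hb => by
    change (a.val * b.val).det = 1
    rw [det_mul, show a.val.det = 1 from ha, show b.val.det = 1 from hb, mul_one]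
  inv_mem' := fun {a} ha => by
    have h := congrArg det a.inv_mul
    rwa [det_mul, show a.val.det = 1 from ha, mul_one, det_one] at h

variable (F n) in
/-- The inclusion of the unitriangular group. -/
def slb_j : UT F n →* slb_K F n := Subgroup.inclusion fun _ hu => Uni.det hu

variable [Fintype F] [DecidableEq F] [Fintype (slb_K F n)] [Fintype (UT F n)]

/-- The pairing of a function with a kernel. -/
noncomputable def slb_A (κ : ℕ → F → ℂ) (α : slb_K F n → ℂ) : ℂ :=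
  ∑ u : UT F n, α (slb_j F n u) * ker κ u.1.val

omit [Fintype (UT F n)] in
theorem slb_sum (f : Matrix (Fin n) (Fin n) F → ℂ) :
    ∑ k : slb_K F n, f k.1.val = ∑ M, ind (M.det = 1) * f M := by
  classical
  rw [← sum_subtype (univ.filter (· ∈ slb_K F n)) (by simp) fun g : GL (Fin n) F => f g.val,
    sum_filter, ← sum_GL' (f := fun M => ind (M.det = 1) * f M) fun M hM => by
      rw [ind_neg fun h : M.det = 1 => hM ((isUnit_iff_isUnit_det M).2 (h ▸ isUnit_one)),
        zero_mul]]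
  refine sum_congr rfl fun g _ => ?_
  split_ifs with h
  · rw [ind_pos (show g.val.det = 1 from h), one_mul]
  · rw [ind_neg (show ¬ g.val.det = 1 from h), zero_mul]

theorem slb_norm (κ : ℕ → F → ℂ) :
    ∑ α ∈ (finite_isIr (slb_K F n)).toFinset, slb_A κ α * (starRingEnd ℂ) (slb_A κ α) =
      uc F n ^ 2 * PW (fun d => ind (d = 1)) n κ κ := by
  rw [PW, mul_div_cancel₀ _ (pow_ne_zero 2 uc_ne)]
  have h1 : ∀ u u' : UT F n, ∑ α ∈ (finite_isIr (slb_K F n)).toFinset,
      α (slb_j F n u) * ker κ u.1.val * (starRingEnd ℂ) (α (slb_j F n u') * ker κ u'.1.val) =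
      ∑ g : Matrix (Fin n) (Fin n) F, ind (g.det = 1) * (ind (u.1.val * g = g * u'.1.val) *
        (ker κ u.1.val * (starRingEnd ℂ) (ker κ u'.1.val))) := by
    intro u u'
    rw [← slb_sum fun g => ind (u.1.val * g = g * u'.1.val) *
      (ker κ u.1.val * (starRingEnd ℂ) (ker κ u'.1.val)), ← sum_mul,
      sum_congr rfl fun (y : slb_K F n) _ => ind_congr
        (show u.1.val * y.1.val = y.1.val * u'.1.val ↔ slb_j F n u * y = y * slb_j F n u' from
          ⟨fun h => Subtype.ext (Units.ext h), fun h => congrArg (fun z : slb_K F n => z.1.val) h⟩),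
      ← column, sum_mul]
    exact sum_congr rfl fun α _ => by rw [map_mul]; ring
  simp only [slb_A, map_sum, sum_mul_sum]
  rw [sum_comm, sum_congr rfl fun u _ => sum_comm, sum_congr rfl fun u _ =>
    sum_congr rfl fun u' _ => h1 u u', sum_congr rfl fun u _ => sum_comm, sum_comm]
  refine sum_congr rfl fun g _ => ?_
  rw [sum_UT fun u => ∑ u' : UT F n, ind (g.det = 1) * (ind (u * g = g * u'.1.val) *
    (ker κ u * (starRingEnd ℂ) (ker κ u'.1.val)))]
  refine sum_congr rfl fun u _ => ?_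
  rw [sum_UT fun u' => ind (g.det = 1) * (ind (u * g = g * u') *
    (ker κ u * (starRingEnd ℂ) (ker κ u'))), mul_sum]
  refine sum_congr rfl fun u' _ => ?_
  rw [ind_and, ind_and]
  ring

theorem slb_exp (κ : ℕ → F → ℂ) {f : Matrix (Fin n) (Fin n) F → ℂ} (hf : SLinv f) :
    Fintype.card (slb_K F n) * US n κ f = ∑ α ∈ (finite_isIr (slb_K F n)).toFinset,
      (∑ k : slb_K F n, f k.1.val * (starRingEnd ℂ) (α k)) * slb_A κ α := by
  rw [US, ← sum_UT fun M => f M * ker κ M, mul_sum]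
  simp only [slb_A, mul_sum (s := (univ : Finset (UT F n)))]
  rw [sum_comm]
  refine sum_congr rfl fun u _ => ?_
  have h := expand (G := slb_K F n) (f := fun k => f k.1.val)
    (fun g x => hf _ _ _ x.1.mul_inv x.2) (slb_j F n u)
  rw [← mul_assoc]
  refine (congrArg (· * ker κ u.1.val) h).trans ?_
  rw [sum_mul]
  exact sum_congr rfl fun α _ => mul_assoc _ _ _

omit [Fintype F] [DecidableEq F] [Fintype (slb_K F n)] [Fintype (UT F n)] in
theorem slb_ev (x : II F) : SLinv fun M : Matrix (Fin n) (Fin n) F => ev x M :=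
  fun _ _ M h _ => ev_cj x h M

omit [Fintype F] [DecidableEq F] [Fintype (UT F n)] in
theorem slb_mult : ∃ m : II F → (slb_K F n → ℂ) → ℕ, ∀ x : II F, x.1 = n → ∀ α, IsIr α →
    ∑ k : slb_K F n, ev x k.1.val * (starRingEnd ℂ) (α k) = m x α * Fintype.card (slb_K F n) := by
  have h : ∀ (x : II F) (α : slb_K F n → ℂ), ∃ m : ℕ, x.1 = n → IsIr α →
      ∑ k : slb_K F n, ev x k.1.val * (starRingEnd ℂ) (α k) = m * Fintype.card (slb_K F n) := by
    intro x α
    by_cases h : x.1 = n ∧ IsIr α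
    · obtain ⟨m, hm⟩ := (((isIr_ev (ι := Fin n) (x := x) (by simp [h.1])).isCh.comp
        (slb_K F n).subtype).mul h.2.isCh.conj).avg
      exact ⟨m, fun _ _ => hm⟩
    · exact ⟨0, fun h1 h2 => absurd ⟨h1, h2⟩ h⟩
  choose m hm using h
  exact ⟨m, fun x hx α hα => hm x α hx hα⟩

omit [Fintype (UT F n)] in
theorem slb_share (ψ : AddChar F ℂ) {y y' : II F} (hy : y.1 = n) (hy' : y'.1 = n)
    {β : slb_K F n → ℂ} (hβ : IsIr β)
    (h : ∑ k : slb_K F n, ev y k.1.val * (starRingEnd ℂ) (β k) ≠ 0)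
    (h' : ∑ k : slb_K F n, ev y' k.1.val * (starRingEnd ℂ) (β k) ≠ 0) :
    ∃ τ : II F ≃ II F, y = τ y' ∧ (∀ x, (τ x).1 = x.1) ∧
      (∀ (x : II F) (k : slb_K F n), ev (τ x) k.1.val = ev x k.1.val) ∧
      (∀ x y z, cc (τ x) (τ y) (τ z) = cc x y z) ∧ (∀ x, dl ψ (τ x) = dl ψ x) ∧
      ∀ x, dr (τ x) = dr x := by
  obtain ⟨m, hm⟩ := slb_mult (F := F) (n := n)
  have hc := gle_card (slb_K F n)
  have h1 : ∑ k : slb_K F n, ev y k.1.val * (starRingEnd ℂ) (ev y' k.1.val) =
      ((∑ α ∈ (finite_isIr (slb_K F n)).toFinset, m y' α * m y α : ℕ) : ℂ) *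
        Fintype.card (slb_K F n) := by
    have h2 : ∀ k : slb_K F n,
        ev y' k.1.val = ∑ α ∈ (finite_isIr (slb_K F n)).toFinset, m y' α * α k := fun k => by
      refine mul_left_cancel₀ hc ?_
      rw [expand (G := slb_K F n) (f := fun k => ev y' k.1.val)
        (fun g x => ev_cj y' x.1.mul_inv _) k, mul_sum]
      refine sum_congr rfl fun α hα => ?_
      rw [hm y' hy' α ((slb_mem α).1 hα)]
      ring
    simp only [h2, map_sum, mul_sum, map_mul, map_natCast]
    rw [sum_comm, Nat.cast_sum, sum_mul]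
    refine sum_congr rfl fun α hα => ?_
    rw [Nat.cast_mul, mul_assoc, ← hm y hy α ((slb_mem α).1 hα), mul_sum]
    exact sum_congr rfl fun k _ => by ring
  obtain ⟨ζ, -, h2⟩ := clifford (slb_K F n) (fun _ hg => hg) hy hy' (by
    rw [h1]
    refine mul_ne_zero (Nat.cast_ne_zero.2 fun h2 => ?_) hc
    have h3 := sum_eq_zero_iff.1 h2 β ((slb_mem β).2 hβ)
    rw [hm y hy β hβ] at h
    rw [hm y' hy' β hβ] at h'
    rcases mul_eq_zero.1 h3 with h4 | h4
    · exact h' (by rw [h4]; simp)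
    · exact h (by rw [h4]; simp))
  obtain ⟨τ, t1, t2, t3, t4, t5⟩ := exists_tw ψ ζ
  refine ⟨τ, ?_, t1, fun x k => by rw [t2, show k.1.val.det = 1 from k.2, map_one, one_mul], t3,
    t4, t5⟩
  by_contra h3
  have h4 := ev_orth (ι := Fin n) (x := y) (y := τ y') (by simp [hy])
  have h5 := ev_orth (ι := Fin n) (x := y) (y := y) (by simp [hy])
  rw [if_neg h3] at h4
  rw [if_pos rfl] at h5
  simp only [t2, ← h2] at h4
  exact gl_ne (h5.symm.trans h4)

end Pool.Agent.SemiProp.GLn
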