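import Pool.Agent.Lib.MP_c1c6b6_al.SLT
import Pool.Agent.Lib.MP_c1c6b6_al.SLJ

set_option autoImplicit false

open Finset Matrix

namespace Pool.Agent.SemiProp.GLn

section group

variable {K : Type} [Group K] [Fintype K] {a b φ : K → ℂ}

theorem slc_inv (h : IsCh a) (g : K) : a g⁻¹ = (starRingEnd ℂ) (a g) := by
  obtain ⟨V, i1, i2, i3, ρ, rfl⟩ := h
  rw [char_inv]

/-- two characters with a common constituent are not orthogonal -/
theorem slc_pair (ha : IsCh a) (hb : IsCh b) (hφ : IsIr φ)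
    (h1 : ∑ g, a g * (starRingEnd ℂ) (φ g) ≠ 0) (h2 : ∑ g, b g * (starRingEnd ℂ) (φ g) ≠ 0) :
    ∑ g, a g * (starRingEnd ℂ) (b g) ≠ 0 := by
  intro h0
  have key : ∀ c : K → ℂ, IsCh c → ∀ α : K → ℂ, ∃ p : ℕ, IsIr α →
      ∑ g, c g * (starRingEnd ℂ) (α g) = p * Fintype.card K := fun c hc α => by
    by_cases hα : IsIr α
    · obtain ⟨p, hp⟩ := (hc.mul hα.isCh.conj).avg
      exact ⟨p, fun _ => hp⟩
    · exact ⟨0, fun h => absurd h hα⟩
  choose p hp using key a ha
  choose q hq using key b hb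
  have h3 : (Fintype.card K : ℂ) * ∑ g, a g * (starRingEnd ℂ) (b g) =
      ((∑ α ∈ (finite_isIr K).toFinset, p α * q α : ℕ) : ℂ) * (Fintype.card K : ℂ) ^ 2 := by
    rw [mul_sum, sum_congr rfl fun g _ => by rw [← mul_assoc, expand ha.cls g, sum_mul],
      sum_comm, Nat.cast_sum, sum_mul]
    refine sum_congr rfl fun α hα => ?_
    have h4 := ((finite_isIr K).mem_toFinset).1 hα
    have h5 : ∑ g, α g * (starRingEnd ℂ) (b g) = q α * Fintype.card K := by
      have h6 := congrArg (starRingEnd ℂ) (hq α h4)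
      simp only [map_sum, map_mul, Complex.conj_conj, map_natCast] at h6
      rw [← h6]
      exact sum_congr rfl fun g _ => mul_comm _ _
    simp only [mul_assoc]
    rw [← mul_sum, hp α h4, h5]
    push_cast
    ring
  rw [h0, mul_zero, eq_comm, mul_eq_zero, or_iff_left (pow_ne_zero 2 (gle_card K)),
    Nat.cast_eq_zero, sum_eq_zero_iff] at h3
  rcases mul_eq_zero.1 (h3 φ (((finite_isIr K).mem_toFinset).2 hφ)) with h4 | h4
  · exact h1 (by rw [hp φ hφ, h4, Nat.cast_zero, zero_mul])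
  · exact h2 (by rw [hq φ hφ, h4, Nat.cast_zero, zero_mul])

end group

variable {F : Type} [Field F] [Fintype F] [DecidableEq F] {n : ℕ}

omit [Fintype F] [DecidableEq F] in
theorem slc_normal {H : Subgroup (GL (Fin n) F)}
    (hH : ∀ g : GL (Fin n) F, g.val.det = 1 → g ∈ H) : H.Normal := by
  refine ⟨fun h hh g => ?_⟩
  have h1 : g * h * g⁻¹ * h⁻¹ ∈ H := by
    refine hH _ ?_
    have h2 : GeneralLinearGroup.det (g * h * g⁻¹ * h⁻¹) = 1 := by
      simp only [map_mul, map_inv]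
      rw [mul_inv_cancel_comm, mul_inv_cancel]
    exact congrArg Units.val h2
  simpa using H.mul_mem h1 hh

omit [DecidableEq F] in
theorem slc_sum (H : Subgroup (GL (Fin n) F)) [Fintype H] {u : Matrix (Fin n) (Fin n) F → ℂ}
    (h : ∀ M, (∀ g : H, g.1.val ≠ M) → u M = 0) : ∑ M, u M = ∑ g : H, u g.1.val := by
  have hi : Function.Injective fun g : H => g.1.val :=
    fun g g' e => Subtype.ext (Units.ext e)
  rw [← sum_subset (s₂ := (univ : Finset (Matrix (Fin n) (Fin n) F)))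
    (subset_univ (univ.map ⟨_, hi⟩)) fun M _ hM =>
      h M fun g e => hM (mem_map.2 ⟨g, mem_univ _, e⟩), sum_map]
  rfl

omit [Fintype F] [DecidableEq F] in
/-- the family of conjugates of an irreducible character of `H` -/
theorem slc_fam (hn : 0 < n) (H : Subgroup (GL (Fin n) F)) [Fintype H]
    (hH : ∀ g : GL (Fin n) F, g.val.det = 1 → g ∈ H) {φ : H → ℂ} (hφ : IsIr φ) :
    ∃ f : Fˣ → Matrix (Fin n) (Fin n) F → ℂ, Fam f ∧ (∀ g : H, f 1 g.1.val = φ g) ∧
      (∀ t M, (∀ g : H, g.1.val ≠ M) → f t M = 0) ∧ (∀ t, IsIr fun g : H => f t g.1.val) ∧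
      ∀ (t : Fˣ) (y : II F), ∑ g : H, ev y g.1.val * (starRingEnd ℂ) (f t g.1.val) =
        ∑ g : H, ev y g.1.val * (starRingEnd ℂ) (φ g) := by
  have hN := slc_normal hH
  have : Nonempty (Fin n) := ⟨⟨0, hn⟩⟩
  obtain ⟨E, hE⟩ : ∃ E : Matrix (Fin n) (Fin n) F → ℂ,
      E = fun M => ∑ g : H, ind (g.1.val = M) * φ g := ⟨_, rfl⟩
  have e1 : ∀ g : H, E g.1.val = φ g := fun g => by
    rw [hE]
    change ∑ g' : H, ind (g'.1.val = g.1.val) * φ g' = φ g
    rw [sum_eq_single_of_mem g (mem_univ _) fun g' _ hg => by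
      rw [ind_neg fun e => hg (Subtype.ext (Units.ext e)), zero_mul], ind_pos rfl, one_mul]
  have e0 : ∀ M, (∀ g : H, g.1.val ≠ M) → E M = 0 := fun M h => by
    rw [hE]
    exact sum_eq_zero fun g _ => by rw [ind_neg (h g), zero_mul]
  have e2 : ∀ P Q M : Matrix (Fin n) (Fin n) F, P * Q = 1 → (∀ g : H, g.1.val ≠ M) →
      E (P * M * Q) = 0 := fun P Q M hP h => by
    have hQ := mul_eq_one_comm.1 hP
    refine e0 _ fun g e => h ⟨_, hN.conj_mem g.1 g.2 ⟨Q, P, hQ, hP⟩⟩ ?_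
    change Q * g.1.val * P = M
    rw [e, conj_conj hQ]
  have e3 : SLinv E := fun P Q M hP hd => by
    have hQ := mul_eq_one_comm.1 hP
    by_cases h : ∀ g : H, g.1.val ≠ M
    · rw [e2 P Q M hP h, e0 M h]
    · push Not at h
      obtain ⟨g, rfl⟩ := h
      have hp : (⟨P, Q, hP, hQ⟩ : GL (Fin n) F) ∈ H := hH _ hd
      rw [e1 g, ← hφ.isCh.cls g ⟨_, hp⟩, ← e1 (_ * _ * _)]
      rfl
  obtain ⟨f, hf, hf1⟩ := e3.fam
  have e4 : ∀ t : Fˣ, ∃ p : GL (Fin n) F, ∀ M, f t M = E (p.val * M * (p⁻¹).val) := fun t => by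
    obtain ⟨P, Q, hP, hd⟩ := exists_det (ι := Fin n) t
    refine ⟨⟨P, Q, hP, mul_eq_one_comm.1 hP⟩, fun M => ?_⟩
    have h1 := hf 1 t P Q M hP hd
    rw [one_mul, hf1] at h1
    exact h1.symm
  have e5 : ∀ (p : GL (Fin n) F) (g : H), E (p.val * g.1.val * (p⁻¹).val) =
      φ (MulAut.conjNormal p g) := fun p g => by
    rw [← e1]
    rfl
  refine ⟨f, hf, fun g => by rw [hf1, e1], fun t M h => ?_, fun t => ?_, fun t y => ?_⟩
  · obtain ⟨p, hp⟩ := e4 t
    rw [hp, e2 _ _ M p.mul_inv h]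
  · obtain ⟨p, hp⟩ := e4 t
    simp only [hp, e5]
    exact hφ.comp (MulAut.conjNormal p)
  · obtain ⟨p, hp⟩ := e4 t
    simp only [hp, e5]
    rw [← Equiv.sum_comp (MulAut.conjNormal (H := H) p).toEquiv
      fun g : H => ev y g.1.val * (starRingEnd ℂ) (φ g)]
    refine sum_congr rfl fun g _ => ?_
    rw [← ev_conj y p.mul_inv p.inv_mul g.1.val]
    rfl

theorem exists_fam (hn : 0 < n) (H : Subgroup (GL (Fin n) F)) [Fintype H]
    (hH : ∀ g : GL (Fin n) F, g.val.det = 1 → g ∈ H) {φ : H → ℂ} (hφ : IsIr φ) :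
    ∃ (x : II F) (f : Fˣ → Matrix (Fin n) (Fin n) F → ℂ), x.1 = n ∧ Fam f ∧
      (∀ g : H, f 1 g.1.val = φ g) ∧ (∀ t, Co x (f t)) ∧
      (∀ t, IsCh fun u : UT F n => f t u.1.val) ∧
      ∃ (D : Subgroup Fˣ) (e : ℕ), (∀ d ∈ D, ∀ t, f (t * d) = f t) ∧
        ∀ M : Matrix (Fin n) (Fin n) F, M.det = 1 → e * ∑ t, f t M = Nat.card D * ev x M := by
  classical
  have : Nonempty (Fin n) := ⟨⟨0, hn⟩⟩
  obtain ⟨f, hf, f1, f0, fi, fp⟩ := slc_fam hn H hH hφ
  obtain ⟨x, hx, hx0⟩ := exists_over H hφ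
  have hch : ∀ y : II F, y.1 = n → IsCh fun g : H => ev y g.1.val := fun y hy =>
    (isIr_ev (ι := Fin n) (by rw [Fintype.card_fin, hy])).isCh.comp H.subtype
  obtain ⟨e, he⟩ := ((hch x hx).mul hφ.isCh.conj).avg
  have he0 : (e : ℂ) * Fintype.card H ≠ 0 := he ▸ hx0
  have hm : ∀ M : Matrix (Fin n) (Fin n) F, M.det = 1 → ∃ m : H, m.1.val = M := fun M hM => by
    have hu : IsUnit M := (isUnit_iff_isUnit_det M).2 (hM ▸ isUnit_one)
    exact ⟨⟨hu.unit, hH _ hM⟩, rfl⟩
  let D : Subgroup Fˣ :=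
    { carrier := {d | ∀ t, f (t * d) = f t}
      one_mem' := fun t => by rw [mul_one]
      mul_mem' := fun {a b} ha hb t => by rw [← mul_assoc, hb, ha]
      inv_mem' := fun {a} ha t => by rw [← ha (t * a⁻¹), inv_mul_cancel_right] }
  have hD : ∀ d, (fun g : H => f d g.1.val) = φ ↔ d ∈ D := fun d => by
    refine ⟨fun h t => ?_, fun h => ?_⟩
    · have h1 : f d = f 1 := by
        funext M
        by_cases h2 : ∀ g : H, g.1.val ≠ M
        · rw [f0 d M h2, f0 1 M h2]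
        · push Not at h2
          obtain ⟨g, rfl⟩ := h2
          rw [f1, ← h]
      obtain ⟨P, Q, hP, hd⟩ := exists_det (ι := Fin n) t
      funext M
      rw [mul_comm, ← hf d t P Q M hP hd, h1, hf 1 t P Q M hP hd, one_mul]
    · have h1 := h 1
      rw [one_mul] at h1
      funext g
      rw [h1, f1]
  refine ⟨x, f, hx, hf, f1, fun t => ?_, fun t => ?_, D, e, fun d hd => hd, fun M hM => ?_⟩
  · refine ⟨fun M => f t 1 / (e * Fintype.card H) * f t M, fun P Q M hP hd => ?_, fun M hM => ?_⟩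
    · change _ * f t (P * M * Q) = _ * f t M
      rw [hf t 1 P Q M hP hd, mul_one]
    · obtain ⟨m, rfl⟩ := hm M hM
      have h1 := (fi t).gle_fe (f := fun g : H => ev x g.1.val) (hch x hx).cls m
      have h2 : ∀ g : H, ev x (g⁻¹).1.val = (starRingEnd ℂ) (ev x g.1.val) := slc_inv (hch x hx)
      rw [fp t x, he, ← Equiv.sum_comp (Equiv.inv H)] at h1
      simp only [Equiv.inv_apply, inv_inv, h2] at h1
      simp only [mul_assoc]
      rw [← mul_sum, slc_sum H fun N hN => by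
        rw [f0 t _ fun g hg => hN (m⁻¹ * g) (by
          change (m.1⁻¹).val * g.1.val = N
          rw [hg, ← Matrix.mul_assoc, Units.inv_mul, Matrix.one_mul]), zero_mul],
        div_mul_eq_mul_div, eq_div_iff he0, mul_comm, ← h1]
      congr 1
      exact sum_congr rfl fun g _ => mul_comm _ _
  · have hle : UT F n ≤ H := fun u hu => hH u (det_unip (Uni.nil hu))
    exact (fi t).isCh.comp (Subgroup.inclusion hle)
  · have hT : Cl fun M : Matrix (Fin n) (Fin n) F => ∑ t, f t M := by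
      refine ⟨fun M hM => sum_eq_zero fun t _ => f0 t M fun g hg => hM (hg ▸ g.1.isUnit),
        fun P Q M hP => ?_⟩
      have hu : IsUnit P.det := (isUnit_iff_isUnit_det P).1 (IsUnit.of_mul_eq_one Q hP)
      refine Eq.trans ?_ (Equiv.sum_comp (Equiv.mulRight hu.unit) fun t => f t M)
      exact sum_congr rfl fun t _ => hf t hu.unit P Q M hP rfl
    obtain ⟨c, hc⟩ : ∃ c : II F → ℂ, ∀ y, c y =
        ∑ N : Matrix (Fin n) (Fin n) F, (∑ t, f t N) * (starRingEnd ℂ) (ev y N) :=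
      ⟨_, fun _ => rfl⟩
    have h1 : ∀ g : H, gl F (Fin n) * ∑ t, f t g.1.val =
        (∑ y ∈ lev F (Fintype.card (Fin n)), c y) * ev x g.1.val := fun g => by
      rw [hT.expand, sum_mul]
      refine sum_congr rfl fun y hy => ?_
      rw [← hc]
      by_cases h0 : c y = 0
      · rw [h0, zero_mul, zero_mul]
      have hy' : y.1 = n := (mem_lev.1 hy).trans (Fintype.card_fin n)
      have h2 : ∑ g : H, ev y g.1.val * (starRingEnd ℂ) (φ g) ≠ 0 := fun h3 => h0 (by
        rw [hc, slc_sum H fun N hN => by rw [sum_eq_zero fun t _ => f0 t N hN, zero_mul]]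
        simp only [sum_mul]
        rw [sum_comm]
        refine sum_eq_zero fun t _ => ?_
        have h4 := congrArg (starRingEnd ℂ) ((fp t y).trans h3)
        simp only [map_sum, map_mul, Complex.conj_conj, map_zero] at h4
        rw [← h4]
        exact sum_congr rfl fun g _ => mul_comm _ _)
      obtain ⟨ζ, z1, z2⟩ := clifford H hH hy' hx (slc_pair (hch y hy') (hch x hx) hφ h2 hx0)
      rw [z2, z1 g.1 g.2, one_mul]
    have h2 : ∑ g : H, (∑ t, f t g.1.val) * (starRingEnd ℂ) (φ g) =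
        Nat.card D * Fintype.card H := by
      simp only [sum_mul]
      rw [sum_comm, sum_congr rfl fun t _ => (fi t).orth hφ]
      simp only [hD]
      rw [← sum_filter, sum_const, nsmul_eq_mul, Nat.card_eq_fintype_card, Fintype.card_subtype (· ∈ D)]
    have h3 : gl F (Fin n) * Nat.card D = (∑ y ∈ lev F (Fintype.card (Fin n)), c y) * e := by
      refine mul_right_cancel₀ (gle_card H) ?_
      rw [mul_assoc, ← h2, mul_assoc, ← he, mul_sum, mul_sum]
      exact sum_congr rfl fun g _ => by rw [← mul_assoc, h1, mul_assoc]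
    obtain ⟨m, rfl⟩ := hm M hM
    refine mul_left_cancel₀ (gl_ne (F := F) (ι := Fin n)) ?_
    rw [mul_left_comm, h1, ← mul_assoc (gl F (Fin n)), h3]
    ring

end Pool.Agent.SemiProp.GLn
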