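import Pool.Agent.Lib.MP_c1c6b6_al.SLK

set_option autoImplicit false

open Finset Matrix

namespace Pool.Agent.SemiProp.GLn

variable {F : Type} [Field F] {ι β : Type} [Fintype ι] [DecidableEq ι] [Fintype β] [DecidableEq β]
  {K n m : ℕ}

/-- The family vanishes at unipotent matrices with a Jordan block of size more than `K`. -/
def TopF (f : Fˣ → Matrix ι ι F → ℂ) (K : ℕ) : Prop :=
  ∀ t M, IsNilpotent (M - 1) → f t M ≠ 0 → (M - 1) ^ K = 0

variable [Fintype F] [DecidableEq F]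

/-- A family of coefficient functions of `x` with sum proportional to `x`. -/
structure St (x : II F) (l : ℂ) (f : Fˣ → Matrix ι ι F → ℂ) : Prop where
  card : Fintype.card ι = x.1
  fam : Fam f
  co : ∀ t, Co x (f t)
  ne : l ≠ 0
  sum : ∀ M : Matrix ι ι F, M.det = 1 → ∑ t, f t M = l * ev x M

/-- The family obtained by removing a Jordan block. -/
noncomputable def cut (K : ℕ) (f : Fˣ → Matrix (Fin K ⊕ β) (Fin K ⊕ β) F → ℂ) (t : Fˣ)
    (g : Matrix β β F) : ℂ :=
  (Fintype.card (Matrix (Fin K) β F) : ℂ)⁻¹ * ∑ v, f t (fromBlocks (J F K) v 0 g)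

theorem St.sub {κ : Type} [Fintype κ] [DecidableEq κ] {x : II F} {l : ℂ}
    {f : Fˣ → Matrix ι ι F → ℂ} (h : St x l f) (e : ι ≃ κ) :
    St x l fun t (s : Matrix κ κ F) => f t (s.submatrix e e) :=
  ⟨(Fintype.card_congr e).symm.trans h.card, h.fam.sub e, fun t => (h.co t).sub e, h.ne,
    fun M hM => by rw [h.sum _ (by rw [det_submatrix_equiv_self, hM]), ev_sub]⟩

omit [Fintype F] [DecidableEq F] in
theorem TopF.sub {κ : Type} [Fintype κ] [DecidableEq κ] {f : Fˣ → Matrix ι ι F → ℂ} (h : TopF f K)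
    (e : ι ≃ κ) : TopF (fun t (s : Matrix κ κ F) => f t (s.submatrix e e)) K := by
  intro t M h1 h2
  have h3 := h t (reindexAlgEquiv F F e.symm M) (by
    simpa only [map_sub, map_one] using h1.map (reindexAlgEquiv F F e.symm)) h2
  apply (reindexAlgEquiv F F e.symm).injective
  rw [map_pow, map_sub, map_one, h3, map_zero]

omit [DecidableEq F] in
theorem TopF.sum {f : Fˣ → Matrix (Fin K ⊕ β) (Fin K ⊕ β) F → ℂ} (h : TopF f K) (hf : Fam f)
    (t : Fˣ) {g : Matrix β β F} (hg : IsNilpotent (g - 1)) :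
    ∑ v, f t (fromBlocks (J F K) v 0 g) =
      (∑ v, ind ((fromBlocks (J F K) v 0 g - 1) ^ K = 0)) * f t (fromBlocks (J F K) 0 0 g) := by
  rw [sum_mul]
  refine sum_congr rfl fun v _ => ?_
  by_cases h1 : (fromBlocks (J F K) v 0 g - 1) ^ K = 0
  · obtain ⟨P, Q, h2, h3, h4⟩ := ext_split_det v g h1
    rw [ind_pos h1, one_mul, h4, hf t 1 _ _ _ h2 h3, mul_one]
  · rw [ind_neg h1, zero_mul]
    exact by_contra fun h2 => h1 (h _ _ (nil_blocks v hg) h2)

theorem St.cut {x y : II F} {l ε : ℂ} {f : Fˣ → Matrix (Fin K ⊕ β) (Fin K ⊕ β) F → ℂ}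
    (h : St x l f) (hε : ε ≠ 0) (hy : ∀ b, (psh F).der dr K x b = if b = y then ε else 0) :
    St y ((-1) ^ K * ε * l) (cut K f) := by
  have h1 : x.1 = K + y.1 := der_deg (η := dr) (by rw [hy, if_pos rfl]; exact hε)
  have h2 := h.card
  rw [Fintype.card_sum, Fintype.card_fin] at h2
  refine ⟨by omega, fun t d P Q M h3 h4 => congrArg (_ * ·) (h.fam.right _ t d P Q M h3 h4),
    fun t => (h.co t).cut (fun b hb => by rw [hy, if_neg hb]) _,
    mul_ne_zero (mul_ne_zero (by simp) hε) h.ne, fun g hg => ?_⟩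
  simp only [GLn.cut]
  rw [← mul_sum, sum_comm, sum_congr rfl fun v _ => h.sum _ (by simp [uni_J.det, hg]), ← mul_sum,
    del_J, sum_der hy _ fun h3 => absurd (by omega) h3]
  field_simp [mat_ne (F := F) (α := Fin K) (β := β)]

theorem St.top {x : II F} {l : ℂ} {f : Fˣ → Matrix ι ι F → ℂ} (h : St x l f) (hx : x.1 ≠ 0) :
    ∃ (K : ℕ) (y : II F) (ε : ℂ), IsLeast {K | TopF f K} K ∧ 0 < K ∧ x.1 = K + y.1 ∧
      (ε = 1 ∨ ε = -1) ∧ ∀ b, (psh F).der dr K x b = if b = y then ε else 0 := by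
  obtain ⟨ψ, hψ⟩ := exists_psi (F := F)
  obtain ⟨K, y, ε, hε, h0, h1, h2⟩ := (hd_gl hψ).2 x
  have e0 : ε ≠ 0 := by rcases hε with rfl | rfl <;> simp
  have h3 : x.1 = K + y.1 := der_deg (η := dr) (by rw [h1, if_pos rfl]; exact e0)
  refine ⟨K, y, ε, ⟨?_, fun K' hK => ?_⟩,
    h0 fun h4 => hx ((deg_oo x).2 h4), h3, hε, h1⟩
  · suffices h4 : ∀ j, TopF f (K + j) → TopF f K from h4 (Fintype.card ι) fun t M hM _ => by
      have h5 := aeval_self_charpoly (M - 1)
      rw [sub_eq_zero.1 (isNilpotent_charpoly_sub_pow_of_isNilpotent hM).eq_zero, map_pow,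
        Polynomial.aeval_X] at h5
      rw [pow_add, h5, Matrix.mul_zero]
    intro j
    induction j with
    | zero => exact id
    | succ j ih =>
    refine fun h4 => ih fun t M hM h5 => by_contra fun h6 => ?_
    have h7 := h4 t M hM h5
    obtain ⟨m, g, P, Q, h8, h9, h10, rfl⟩ := cyc_split (k := K + j) h7 h6
    have e : ι ≃ Fin (K + j + 1) ⊕ Fin m := Fintype.equivOfCardEq (by simp [← h8])
    obtain ⟨d, hd⟩ := h.fam.rect e h9
    rw [glj_conj_pow h10 h9] at h7
    have h11 := conj_conj h10 ((fromBlocks (J F (K + j + 1)) 0 0 g - 1) ^ (K + (j + 1)))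
    rw [h7, Matrix.mul_zero, Matrix.zero_mul] at h11
    have h12 : IsNilpotent (g - 1) := ⟨_, (of_pow_blocks h11.symm).2⟩
    have h13 := (TopF.sub h4 e).sum (h.fam.sub e) (t * d) h12
    rw [((h.co _).sub e).vanish (h2 _ (by omega)) (det_unip h12)] at h13
    exact mul_ne_zero (sum_ind_ne (p := fun v => (fromBlocks (J F (K + j + 1)) v 0 g - 1) ^
      (K + j + 1) = 0) h11.symm) (hd t _ ▸ h5) h13.symm
  · have e : ι ≃ Fin K ⊕ Fin y.1 := Fintype.equivOfCardEq (by simp [h.card, h3])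
    have h4 := ((h.sub e).cut e0 h1).sum 1 det_one
    obtain ⟨t, -, h5⟩ := exists_ne_zero_of_sum_ne_zero (h4.trans_ne
      (mul_ne_zero ((h.sub e).cut e0 h1).ne (ev_one_ne (by simp))))
    obtain ⟨v, -, h6⟩ := exists_ne_zero_of_sum_ne_zero (right_ne_zero_of_mul h5)
    exact (of_pow_blocks (TopF.sub hK e t _ (nil_blocks v (by simp)) h6)).1

/-- The function `p` computes the averages of the family against the kernel `κ`. -/
structure Out (κ : ℕ → F → ℂ) (w : Fˣ → ℂ) (c : ℕ) (l : ℂ)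
    (f : Fˣ → Matrix (Fin n) (Fin n) F → ℂ) (p : Fˣ → ℂ) : Prop where
  per : ∀ t y, p (t * y ^ c) = p t
  avg : ∀ t, US n κ (f t) = uc F n * ∑ u, w u * p (t * u)
  inv : ∀ d, (∀ t, f (t * d) = f t) → ∀ t, p (t * d) = p t
  sum : ∑ t, p t = l ∨ ∑ t, p t = -l

theorem Out.step (ψ : AddChar F ℂ) {κ : ℕ → F → ℂ} {w p : Fˣ → ℂ} {c : ℕ} {l l' : ℂ}
    {f : Fˣ → Matrix (Fin (K + m)) (Fin (K + m)) F → ℂ} (hf : Fam f) (hl : l' = l ∨ l' = -l)
    (h : Out κ w c l' (cut K fun t (s : Matrix (Fin K ⊕ Fin m) (Fin K ⊕ Fin m) F) =>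
      f t (s.submatrix finSumFinEquiv.symm finSumFinEquiv.symm)) p) :
    Out (fun j => if j < K then lam ψ j else if j = K then fun _ => 1 else κ (j - K))
      (fun u => ∑ s, kap ψ K s * w (s⁻¹ * u)) (K.gcd c) l f p := by
  have hf' := hf.sub (finSumFinEquiv (m := K) (n := m)).symm
  refine ⟨fun t y => ?_, fun t => ?_, fun d hd => h.inv d fun t => funext fun g => ?_, ?_⟩
  · have h1 : ∀ y t, p (t * y ^ K) = p t := fun y => h.inv _ fun t => funext fun g => by
      have h2 : (y : F) • (1 : Matrix (Fin K) (Fin K) F) * ((y⁻¹ : Fˣ) : F) • 1 = 1 := by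
        simp [smul_smul]
      have h3 := hf'.left g t (y ^ K) _ _ (J F K) h2 (by simp)
      refine congrArg (_ * ·) (h3.symm.trans ?_)
      simp [smul_smul]
    rw [← _root_.zpow_natCast, Nat.gcd_eq_gcd_ab, _root_.zpow_add, _root_.zpow_mul', _root_.zpow_mul',
      _root_.zpow_natCast, _root_.zpow_natCast, ← mul_assoc, h.per, h1]
  · have h1 := fun g => (hf'.left g).US_reg ψ t
    rw [US_split (by simp), sum_comm, uc_split]
    simp only [US] at h1
    have h2 : ∀ g : Matrix (Fin m) (Fin m) F, ∑ a : Matrix (Fin K) (Fin K) F,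
      ind (Uni a) * ker (fun j => if j < K then lam ψ j else if j = K then fun _ => 1
        else κ (j - K)) a * (ind (Uni g) * ker (fun j => if K + j < K then lam ψ (K + j) else
          if K + j = K then fun _ => 1 else κ (K + j - K)) g) *
        ∑ v, f t ((fromBlocks a v 0 g).submatrix finSumFinEquiv.symm finSumFinEquiv.symm) =
      uc F K * Fintype.card (Matrix (Fin K) (Fin m) F) * ∑ u, kap ψ K u * (ind (Uni g) *
        (cut K (fun t (s : Matrix (Fin K ⊕ Fin m) (Fin K ⊕ Fin m) F) =>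
      f t (s.submatrix finSumFinEquiv.symm finSumFinEquiv.symm)) (t * u) g * ker κ g)) := by
      intro g
      rw [ker_congr (κ' := κ) (M := g) fun j hj _ => by
        rw [if_neg (by omega), if_neg (by omega), Nat.add_sub_cancel_left]]
      refine Eq.trans ?_ ((congrArg (ind (Uni g) * ker κ g * ·) (h1 g)).trans ?_)
      · rw [mul_sum]
        refine sum_congr rfl fun a _ => ?_
        rw [ker_congr (κ' := lam ψ) fun j _ hj => if_pos hj]
        ring
      · rw [mul_sum, mul_sum, mul_sum]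
        refine sum_congr rfl fun u _ => ?_
        rw [cut]
        field_simp [mat_ne (F := F) (α := Fin K) (β := Fin m)]
    rw [sum_congr rfl fun g _ => h2 g, ← mul_sum, sum_comm, mul_right_comm (uc F K) (uc F m),
      mul_assoc _ (uc F m)]
    refine congrArg₂ (fun a b : ℂ => a * b) rfl ?_
    simp only [sum_mul]
    rw [sum_comm (f := fun u s => kap ψ K s * w (s⁻¹ * u) * p (t * u)), mul_sum]
    refine sum_congr rfl fun u _ => ?_
    rw [← mul_sum]
    refine (congrArg (_ * ·) (h.avg (t * u))).trans ?_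
    rw [mul_left_comm, mul_sum]
    congr 1
    exact Fintype.sum_equiv (Equiv.mulLeft u) _ _ fun s => by simp [mul_assoc]
  · simp only [cut, hd]
  · rcases hl with rfl | rfl
    · exact h.sum
    · simpa only [neg_neg] using h.sum.symm

theorem descent {ψ : AddChar F ℂ} (hψ : ψ ≠ 1) {a b : ℂ} (ha : a ≠ 0) (hb : b ≠ 0) (n : ℕ) :
    ∀ (x x' : II F) (l l' : ℂ) (f f' : Fˣ → Matrix (Fin n) (Fin n) F → ℂ), St x l f → St x' l' f' →
    (∀ t M, IsNilpotent (M - 1) → b * f t M = a * f' t M ∨ a * f t M = -(b * f' t M)) →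
    ∃ (κ : ℕ → F → ℂ) (w : Fˣ → ℂ) (c : ℕ) (p p' : Fˣ → ℂ),
      (∀ j, κ j = (fun _ => 1) ∨ κ j = lam ψ j) ∧ c ∣ n ∧ ∑ u, w u = 1 ∧
      (∀ ζ : MulChar F ℂ, orderOf ζ ∣ c →
        (∑ u, w u * ζ u) ^ 2 * (Fintype.card F : ℂ) ^ (n - n / orderOf ζ) = 1 ∨
        (∑ u, w u * ζ u) ^ 2 * (Fintype.card F : ℂ) ^ (n - n / orderOf ζ) = -1) ∧
      (∀ t, b * p t = a * p' t ∨ a * p t = -(b * p' t)) ∧
      Out κ w c l f p ∧ Out κ w c l' f' p' := by
  induction n using Nat.strong_induction_on with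
  | _ n ih =>
  intro x x' l l' f f' h h' hrel
  have hx := (Fintype.card_fin n).symm.trans h.card
  have hx' := (Fintype.card_fin n).symm.trans h'.card
  rcases Nat.eq_zero_or_pos n with rfl | hn
  · have h1 : ∀ z : Fˣ → ℂ, ∑ u, ind (u = 1) * z u = z 1 := fun z => by
      rw [sum_eq_single 1 (fun u _ hu => by rw [ind_neg hu, zero_mul]) (by simp), ind_pos rfl,
        one_mul]
    have h2 : ∀ (x : II F) l (f : Fˣ → Matrix (Fin 0) (Fin 0) F → ℂ), St x l f →
        Out (lam ψ) (fun u => ind (u = 1)) 0 l f fun t => f t 1 := fun x l f h => by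
      refine ⟨by simp, fun t => ?_, fun d hd t => by rw [hd], Or.inl ?_⟩
      · rw [h1, mul_one, US, uc, sum_mul]
        exact sum_congr rfl fun M _ => by simp [ker, Subsingleton.elim M 1]
      · rw [h.sum 1 det_one, (deg_oo x).1 (h.card.symm.trans (Fintype.card_fin 0)), ev_oo, mul_one]
    refine ⟨_, _, 0, _, _, fun _ => Or.inr rfl, dvd_rfl, by simpa using h1 fun _ => 1,
      fun ζ _ => Or.inl ?_, fun t => hrel t 1 (by simp), h2 x l f h, h2 x' l' f' h'⟩
    rw [h1]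
    simp
  obtain ⟨K, y, ε, h1, h2, h3, h4, h5⟩ := h.top (by omega)
  obtain ⟨K', y', ε', h1', -, h3', h4', h5'⟩ := h'.top (by omega)
  have h6 : {K | TopF f K} = {K | TopF f' K} := by
    have h6 : ∀ t M, IsNilpotent (M - 1) → (f t M ≠ 0 ↔ f' t M ≠ 0) := fun t M hM =>
      not_congr ⟨fun h7 => by rcases hrel t M hM with h8 | h8 <;> simpa [h7, ha, hb] using h8,
        fun h7 => by rcases hrel t M hM with h8 | h8 <;> simpa [h7, ha, hb] using h8⟩
    ext K
    exact ⟨fun h7 t M hM h8 => h7 t M hM ((h6 t M hM).2 h8),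
      fun h7 t M hM h8 => h7 t M hM ((h6 t M hM).1 h8)⟩
  obtain rfl : K = K' := h1.unique (h6 ▸ h1')
  obtain ⟨m, rfl⟩ : ∃ m, n = K + m := ⟨y.1, hx.trans h3⟩
  have e0 : ∀ ε : ℂ, ε = 1 ∨ ε = -1 → ε ≠ 0 ∧ ∀ l : ℂ,
      (-1) ^ K * ε * l = l ∨ (-1) ^ K * ε * l = -l := fun ε hε => by
    rcases hε with rfl | rfl <;> rcases neg_one_pow_eq_or ℂ K with h | h <;> simp [h]
  have hs := h.sub (finSumFinEquiv (m := K) (n := m)).symm
  have hs' := h'.sub (finSumFinEquiv (m := K) (n := m)).symm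
  obtain ⟨κ, w, c, p, p', k1, k2, k3, k4, k5, k6, k7⟩ := ih m (by omega) y y' _ _ _ _
    (hs.cut (e0 ε h4).1 h5) (hs'.cut (e0 ε' h4').1 h5') fun t g hg => by
      rw [cut, cut, (TopF.sub h1.1 _).sum hs.fam t hg, (TopF.sub h1'.1 _).sum hs'.fam t hg]
      refine (hrel t (reindexAlgEquiv F F finSumFinEquiv (fromBlocks (J F K) 0 0 g)) (by
        simpa only [map_sub, map_one] using (nil_blocks (k := K) 0 hg).map
          (reindexAlgEquiv F F finSumFinEquiv))).imp (fun h7 => ?_) fun h7 => ?_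
      · simp only [mul_left_comm b, mul_left_comm a]
        exact congrArg (_ * ·) (congrArg (_ * ·) h7)
      · simp only [mul_left_comm b, mul_left_comm a]
        rw [← mul_neg, ← mul_neg]
        exact congrArg (_ * ·) (congrArg (_ * ·) h7)
  have h7 : ∀ z : Fˣ →* ℂ, ∑ u, (∑ s, kap ψ K s * w (s⁻¹ * u)) * z u =
      (∑ s, kap ψ K s * z s) * ∑ u, w u * z u := fun z => by
    rw [sum_mul_sum]
    simp only [sum_mul]
    rw [sum_comm]
    refine sum_congr rfl fun s _ => (Fintype.sum_equiv (Equiv.mulLeft s) _ _ fun u => ?_).symm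
    simp only [Equiv.coe_mulLeft, inv_mul_cancel_left, map_mul]
    ring
  refine ⟨_, _, _, p, p', fun j => ?_, dvd_add (Nat.gcd_dvd_left K c)
    ((Nat.gcd_dvd_right K c).trans k2), ?_, fun ζ hζ => ?_, k5,
    k6.step ψ h.fam ((e0 ε h4).2 l), k7.step ψ h'.fam ((e0 ε' h4').2 l')⟩
  · split_ifs
    · exact Or.inr rfl
    · exact Or.inl rfl
    · exact k1 _
  · simpa [kap_one hψ, k3] using h7 1
  · have d1 := hζ.trans (Nat.gcd_dvd_left K c)
    have d2 := hζ.trans (Nat.gcd_dvd_right K c)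
    have h8 := h7 (ζ.toMonoidHom.comp (Units.coeHom F))
    have h9 : K + m - (K + m) / orderOf ζ = K - K / orderOf ζ + (m - m / orderOf ζ) := by
      rw [Nat.add_div_of_dvd_right d1]
      have := Nat.div_le_self K (orderOf ζ)
      have := Nat.div_le_self m (orderOf ζ)
      omega
    refine h8 ▸ ?_
    rw [h9, pow_add, mul_pow, mul_mul_mul_comm]
    rcases kap_gauss hψ d1 with h10 | h10 <;> rcases k4 ζ d2 with h11 | h11
    · exact Or.inl (by rw [← mul_one (1 : ℂ)]; exact congrArg₂ _ h10 h11)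
    · exact Or.inr (by rw [← one_mul (-1 : ℂ)]; exact congrArg₂ _ h10 h11)
    · exact Or.inr (by rw [← mul_one (-1 : ℂ)]; exact congrArg₂ _ h10 h11)
    · exact Or.inl (by rw [← neg_mul_neg (1 : ℂ) 1 |>.trans (mul_one 1)]; exact congrArg₂ _ h10 h11)

end Pool.Agent.SemiProp.GLn
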