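import Pool.Agent.Lib.MP_c1c6b6_al.SLZa

set_option autoImplicit false

open Finset Matrix

namespace Pool.Agent.SemiProp.GLn

variable {F : Type} [Field F] [Fintype F] [DecidableEq F]

/-- The facts about one function that are used. -/
structure SlzOk (B : ValuationSubring ℂ) (n : ℕ) (p : Fˣ → ℂ) : Prop where
  ind : (slzSt p).index ∣ n
  sum : ∑ t, p t = Nat.card (slzSt p) ∨ ∑ t, p t = -Nat.card (slzSt p)
  hat : ∀ ζ, slzHat p ζ ≠ 0 → orderOf ζ ∣ (slzSt p).index ∧
    B.valuation (slzHat p ζ) ^ 2 ≤ B.valuation (Fintype.card F : ℂ) ^ (n - n / orderOf ζ)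
  unit : ∀ t, B.valuation (p t) = 1

theorem slz_one {B : ValuationSubring ℂ} (hv : B.valuation (ringChar F : ℂ) < 1) {n c : ℕ}
    (hn : 0 < n) (hc : c ∣ n) {p κ : Fˣ → ℂ} (hp : ∀ t y, p (t * y ^ c) = p t)
    (hκ1 : ∑ u, κ u = 1)
    (hκ : ∀ ζ : MulChar F ℂ, orderOf ζ ∣ c →
      (∑ u, κ u * ζ u) ^ 2 * (Fintype.card F : ℂ) ^ (n - n / orderOf ζ) = 1 ∨
      (∑ u, κ u * ζ u) ^ 2 * (Fintype.card F : ℂ) ^ (n - n / orderOf ζ) = -1)
    (hi : ∀ t, ∃ m : ℤ, ∑ u, κ u * p (t * u) = m)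
    (hD : ∃ (D : Subgroup Fˣ) (e : ℕ), (∀ d ∈ D, ∀ t, p (t * d) = p t) ∧
      (e * ∑ t, p t = Nat.card D ∨ e * ∑ t, p t = -Nat.card D)) : SlzOk B n p := by
  classical
  have h1 : (slzSt p).index ∣ c := slz_index _ fun y t => hp t y
  choose M hM using hi
  have h2 : ∑ t, p t = Nat.card (slzSt p) ∨ ∑ t, p t = -Nat.card (slzSt p) := by
    have e := slz_conv p κ 1
    simp only [slz_hat_one, MulChar.one_apply_coe, mul_one, hκ1, one_mul, hM] at e
    obtain ⟨l, hl⟩ := slz_per (slzSt p) M fun d hd t => Int.cast_injective (α := ℂ) (by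
      rw [← hM, ← hM]
      exact sum_congr rfl fun u _ => by rw [mul_right_comm, hd])
    have e2 : ∑ t, p t = Nat.card (slzSt p) * l := by
      rw [← e]
      exact_mod_cast hl
    obtain ⟨D, k, hD1, hD2⟩ := hD
    obtain ⟨j, hj⟩ := Subgroup.card_dvd_of_le (show D ≤ slzSt p from hD1)
    have d0 : (Nat.card D : ℂ) ≠ 0 := by exact_mod_cast Nat.card_pos.ne'
    have hl1 : l ∣ 1 := by
      rw [e2, hj] at hD2
      rcases hD2 with h | h
      · refine ⟨k * j, Int.cast_injective (α := ℂ) (mul_left_cancel₀ d0 ?_)⟩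
        push_cast at h ⊢
        linear_combination -h
      · refine ⟨-(k * j), Int.cast_injective (α := ℂ) (mul_left_cancel₀ d0 ?_)⟩
        push_cast at h ⊢
        linear_combination h
    rcases Int.isUnit_iff.1 (isUnit_of_dvd_one hl1) with rfl | rfl
    · exact Or.inl (by simpa using e2)
    · exact Or.inr (by simpa using e2)
  have h3 : ∀ ζ, slzHat p ζ ≠ 0 → orderOf ζ ∣ (slzSt p).index ∧
      B.valuation (slzHat p ζ) ^ 2 ≤ B.valuation (Fintype.card F : ℂ) ^ (n - n / orderOf ζ) := by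
    intro ζ h
    have o1 : orderOf ζ ∣ (slzSt p).index :=
      slz_ord.2 fun y => slz_triv h (Subgroup.pow_index_mem _ y)
    refine ⟨o1, ?_⟩
    have e := slz_conv p κ ζ
    have m1 : B.valuation (slzHat (fun t => ∑ u, κ u * p (t * u)) ζ) ≤ 1 :=
      (B.valuation_le_one_iff _).2 (sum_mem fun t _ => mul_mem
        ((hM t).symm ▸ intCast_mem B (M t) : ∑ u, κ u * p (t * u) ∈ B) (slz_mem B ζ _))
    have e3 : B.valuation ((∑ u, κ u * ζ u) ^ 2 *
        (Fintype.card F : ℂ) ^ (n - n / orderOf ζ)) = 1 := by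
      rcases hκ ζ (o1.trans h1) with h | h <;> simp [h]
    calc _ = B.valuation (slzHat p ζ) ^ 2 * B.valuation ((∑ u, κ u * ζ u) ^ 2 *
          (Fintype.card F : ℂ) ^ (n - n / orderOf ζ)) := by rw [e3, mul_one]
      _ = B.valuation (slzHat (fun t => ∑ u, κ u * p (t * u)) ζ) ^ 2 *
          B.valuation (Fintype.card F : ℂ) ^ (n - n / orderOf ζ) := by
        simp only [e, map_mul, map_pow, mul_pow]
        rw [← mul_assoc, mul_comm (B.valuation (slzHat p ζ) ^ 2)]
      _ ≤ _ := mul_le_of_le_one_left zero_le (pow_le_one₀ zero_le m1)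
  refine ⟨h1.trans hc, h2, h3, fun t => ?_⟩
  obtain ⟨hr, f, f0, hf⟩ := slz_char (F := F)
  have vq : B.valuation (Fintype.card F : ℂ) < 1 := by
    rw [hf, Nat.cast_pow, map_pow]
    exact pow_lt_one₀ zero_le hv f0.ne'
  have vS : B.valuation (∑ t, p t) = 1 := by
    have := slz_unit hv (Dvd.intro _ (slz_card (slzSt p)))
    rcases h2 with h | h
    · rwa [h]
    · rwa [h, Valuation.map_neg]
  have vr : B.valuation (∑ ζ ∈ univ.erase (1 : MulChar F ℂ), slzHat p ζ * ζ t) < 1 := by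
    refine Valuation.map_sum_lt _ one_ne_zero fun ζ hζ => ?_
    rw [mul_comm]
    refine HZ.val_mul_lt (slz_mem B ζ t) ?_
    by_cases h : slzHat p ζ = 0
    · simp [h]
    obtain ⟨o1, o2⟩ := h3 ζ h
    have o3 := Nat.pos_of_dvd_of_pos ((o1.trans h1).trans hc) hn
    have o4 : orderOf ζ ≠ 1 := fun e => (mem_erase.1 hζ).1 (orderOf_eq_one_iff.1 e)
    have o5 := Nat.div_lt_self hn (show 1 < orderOf ζ by omega)
    exact lt_of_pow_lt_pow_left₀ 2 zero_le
      (o2.trans_lt (by rw [one_pow]; exact pow_lt_one₀ zero_le vq (by omega)))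
  have e := slz_inv p t
  rw [← add_sum_erase _ _ (mem_univ 1), slz_hat_one, MulChar.one_apply_coe, mul_one] at e
  have e4 := congrArg B.valuation e
  have e5 := slz_unit hv (dvd_refl (Fintype.card F - 1))
  rw [Nat.cast_pred Fintype.card_pos] at e5
  rw [Valuation.map_add_eq_of_lt_left _ (by rwa [vS]), vS, map_mul, e5, one_mul] at e4
  exact e4.symm

variable {B : ValuationSubring ℂ} {n a b : ℕ} {p p' : Fˣ → ℂ}

theorem slz_sq (hv : B.valuation (ringChar F : ℂ) < 1) (ha : B.valuation (a : ℂ) = 1)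
    (hb : B.valuation (b : ℂ) = 1) (hrel : ∀ t, b * p t = a * p' t ∨ a * p t = -(b * p' t))
    (h : SlzOk B n p) (h' : SlzOk B n p') :
    B.valuation (((slzSt p).index ^ 2 + (slzSt p').index ^ 2 : ℕ) : ℂ) ≤
      B.valuation ((a ^ 2 + b ^ 2 : ℕ) : ℂ) := by
  obtain ⟨T, -, e⟩ := slz_split hrel
  have e' := sum_add_sum_compl T p'
  have vT : ∀ U : Finset Fˣ, B.valuation (∑ t ∈ U, p' t) ≤ 1 := fun U =>
    Valuation.map_sum_le _ fun t _ => (h'.unit t).le
  have a0 : a ≠ 0 := by rintro rfl; simp at ha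
  have N0 : 0 < B.valuation ((a ^ 2 + b ^ 2 : ℕ) : ℂ) := HZ.val_pos (by positivity)
  generalize hN : ((a ^ 2 + b ^ 2 : ℕ) : ℂ) = N at N0 ⊢
  push_cast at hN
  have k1 : B.valuation (a * ∑ t, p' t - b * ∑ t, p t) ≤ B.valuation N := by
    have : a * (a * ∑ t, p' t - b * ∑ t, p t) = N * ∑ t ∈ Tᶜ, p' t := by
      rw [← hN, ← e']; linear_combination -e
    have := congrArg B.valuation this
    rw [map_mul, map_mul, ha, one_mul] at this
    exact this.trans_le (mul_le_of_le_one_right zero_le (vT _))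
  have k2 : B.valuation (b * ∑ t, p' t + a * ∑ t, p t) ≤ B.valuation N := by
    have : b * (b * ∑ t, p' t + a * ∑ t, p t) = N * ∑ t ∈ T, p' t := by
      rw [← hN, ← e']; linear_combination e
    have := congrArg B.valuation this
    rw [map_mul, map_mul, hb, one_mul] at this
    exact this.trans_le (mul_le_of_le_one_right zero_le (vT _))
  have k3 : B.valuation ((∑ t, p t) ^ 2 + (∑ t, p' t) ^ 2) ≤ B.valuation N := by
    refine le_of_mul_le_mul_left ?_ N0
    have : N * ((∑ t, p t) ^ 2 + (∑ t, p' t) ^ 2) =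
        (a * ∑ t, p' t - b * ∑ t, p t) ^ 2 + (b * ∑ t, p' t + a * ∑ t, p t) ^ 2 := by
      rw [← hN]; ring
    rw [← map_mul, this, ← sq]
    exact Valuation.map_add_le _ (by rw [map_pow]; exact pow_le_pow_left₀ zero_le k1 2)
      (by rw [map_pow]; exact pow_le_pow_left₀ zero_le k2 2)
  have q1 : (∑ t, p t) ^ 2 = (Nat.card (slzSt p) : ℂ) ^ 2 := by
    rcases h.sum with h | h <;> simp [h]
  have q2 : (∑ t, p' t) ^ 2 = (Nat.card (slzSt p') : ℂ) ^ 2 := by
    rcases h'.sum with h | h <;> simp [h]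
  have c1 := congrArg (Nat.cast : ℕ → ℂ) (slz_card (slzSt p))
  have c2 := congrArg (Nat.cast : ℕ → ℂ) (slz_card (slzSt p'))
  rw [Nat.cast_mul] at c1 c2
  have k4 : ((Fintype.card F - 1 : ℕ) : ℂ) ^ 2 *
      (((slzSt p).index ^ 2 + (slzSt p').index ^ 2 : ℕ) : ℂ) =
      (slzSt p).index ^ 2 * (slzSt p').index ^ 2 * ((∑ t, p t) ^ 2 + (∑ t, p' t) ^ 2) := by
    rw [q1, q2, Nat.cast_add, Nat.cast_pow, Nat.cast_pow, mul_add]
    nth_rw 1 [← c2]
    rw [← c1]
    ring
  have k5 := congrArg B.valuation k4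
  simp only [map_mul, map_pow, slz_unit hv (dvd_refl _), one_pow, one_mul,
    slz_unit hv (Dvd.intro_left _ (slz_card (slzSt p))),
    slz_unit hv (Dvd.intro_left _ (slz_card (slzSt p')))] at k5
  exact k5.trans_le k3

theorem slz_core (hv : B.valuation (ringChar F : ℂ) < 1) (hr : ringChar F % 4 = 1) (hn : 0 < n)
    (hab : a.Coprime b) (ha : B.valuation (a : ℂ) = 1) (hb : B.valuation (b : ℂ) = 1)
    (hrel : ∀ t, b * p t = a * p' t ∨ a * p t = -(b * p' t))
    (h : SlzOk B n p) (h' : SlzOk B n p') (hs : ¬(slzSt p).index ∣ (slzSt p').index) : False := by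
  classical
  obtain ⟨hp, f, f0, hf⟩ := slz_char (F := F)
  have a0 : a ≠ 0 := by rintro rfl; simp at ha
  have b0 : b ≠ 0 := by rintro rfl; simp at hb
  have a1 : (a : ℂ) ≠ 0 := by exact_mod_cast a0
  have b1 : (b : ℂ) ≠ 0 := by exact_mod_cast b0
  have N0 : 0 < B.valuation ((a ^ 2 + b ^ 2 : ℕ) : ℂ) := HZ.val_pos (by positivity)
  obtain ⟨y, hy⟩ := not_forall.1 fun e => hs (slz_index _ e)
  obtain ⟨t, ht⟩ := not_forall.1 (show ¬∀ t, p (t * y ^ (slzSt p').index) = p t from hy)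
  have ht' : p' (t * y ^ (slzSt p').index) = p' t := Subgroup.pow_index_mem (slzSt p') y t
  set d := y ^ (slzSt p').index with hd
  have r1 := hrel t
  have r2 := hrel (t * d)
  rw [ht'] at r2
  have mix : (b * p t = a * p' t ∧ a * p (t * d) = -(b * p' t)) ∨
      (a * p t = -(b * p' t) ∧ b * p (t * d) = a * p' t) := by
    rcases r1 with r1 | r1 <;> rcases r2 with r2 | r2
    · exact absurd (mul_left_cancel₀ b1 (r2.trans r1.symm)) ht
    · exact Or.inl ⟨r1, r2⟩
    · exact Or.inr ⟨r1, r2⟩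
    · exact absurd (mul_left_cancel₀ a1 (r2.trans r1.symm)) ht
  have v1 : B.valuation (p (t * d) - p t) = B.valuation ((a ^ 2 + b ^ 2 : ℕ) : ℂ) := by
    have : B.valuation (a * b * (p (t * d) - p t)) =
        B.valuation (((a ^ 2 + b ^ 2 : ℕ) : ℂ) * p' t) := by
      rcases mix with ⟨r1, r2⟩ | ⟨r1, r2⟩
      · rw [← Valuation.map_neg]
        congr 1
        push_cast
        linear_combination a * r1 - b * r2
      · congr 1
        push_cast
        linear_combination a * r2 - b * r1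
    rwa [map_mul, map_mul, map_mul, ha, hb, h'.unit, one_mul, one_mul, mul_one] at this
  obtain ⟨ζ, hζ⟩ : ∃ ζ : MulChar F ℂ, B.valuation ((a ^ 2 + b ^ 2 : ℕ) : ℂ) ≤
      B.valuation (slzHat p ζ * ζ (t * d : Fˣ) - slzHat p ζ * ζ t) := by
    by_contra hc
    have := Valuation.map_sum_lt B.valuation N0.ne' (s := univ)
      fun ζ _ => not_le.1 (not_exists.1 hc ζ)
    have e5 := slz_unit hv (dvd_refl (Fintype.card F - 1))
    rw [Nat.cast_pred Fintype.card_pos] at e5
    rw [sum_sub_distrib, slz_inv, slz_inv, ← mul_sub, map_mul, e5, one_mul, v1] at this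
    exact lt_irrefl _ this
  have z0 : slzHat p ζ * ζ (t * d : Fˣ) - slzHat p ζ * ζ t ≠ 0 := fun e => by
    rw [e, map_zero] at hζ
    exact N0.not_ge hζ
  obtain ⟨o1, o2⟩ := h.hat ζ fun e => z0 (by simp [e])
  have o3 : ¬orderOf ζ ∣ (slzSt p').index := fun e => z0 (by
    rw [Units.val_mul, map_mul, hd, slz_ord.1 e y, mul_one, sub_self])
  have v2 : B.valuation ((a ^ 2 + b ^ 2 : ℕ) : ℂ) ≤ B.valuation (slzHat p ζ) := by
    rw [← mul_sub, map_mul] at hζ
    exact hζ.trans (mul_le_of_le_one_right zero_le ((B.valuation_le_one_iff _).2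
      (sub_mem (slz_mem B ζ _) (slz_mem B ζ _))))
  have s0 := Nat.pos_of_dvd_of_pos h.ind hn
  have dv : Fintype.card F ^ (n - n / orderOf ζ) ∣
      ((slzSt p).index ^ 2 + (slzSt p').index ^ 2) ^ 2 := by
    have v3 := (pow_le_pow_left₀ zero_le ((slz_sq hv ha hb hrel h h').trans v2) 2).trans o2
    have x0 : ((slzSt p).index ^ 2 + (slzSt p').index ^ 2) ^ 2 ≠ 0 := by positivity
    rw [← map_pow, ← Nat.cast_pow, HZ.val_nat hp hv x0, hf, Nat.cast_pow, map_pow, ← pow_mul,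
      pow_le_pow_iff_right_of_lt_one₀ (HZ.val_pos hp.ne_zero) hv] at v3
    have := Fact.mk hp
    rw [hf, ← pow_mul]
    exact (padicValNat_dvd_iff_le x0).2 v3
  have r5 : 5 ≤ ringChar F := by have := hp.two_le; omega
  obtain ⟨g1, g2⟩ := slz_nt (r5.trans (hf ▸ Nat.le_self_pow f0.ne' _))
    (Nat.odd_iff.1 (hf ▸ (Nat.odd_iff.2 (by omega)).pow)) hn
    (Dvd.intro_left _ (slz_card (slzSt p))) (Dvd.intro_left _ (slz_card (slzSt p')))
    h.ind h'.ind o1 o3 dv
  have top := Subgroup.index_eq_one.1 g1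
  have cst : ∀ x, p' x = p' t := fun x => by
    have : t⁻¹ * x ∈ slzSt p' := top ▸ Subgroup.mem_top _
    rw [← this t, mul_inv_cancel_left]
  have pe : p' t = 1 ∨ p' t = -1 := by
    have c0 : (Fintype.card Fˣ : ℂ) ≠ 0 := by exact_mod_cast Fintype.card_pos.ne'
    have := h'.sum
    rw [top, Subgroup.card_top, Nat.card_eq_fintype_card, sum_congr rfl fun x _ => cst x,
      sum_const, nsmul_eq_mul, card_univ] at this
    exact this.imp (fun e => mul_left_cancel₀ c0 (by rw [e, mul_one]))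
      fun e => mul_left_cancel₀ c0 (by rw [e, mul_neg_one])
  obtain ⟨T, hT, e⟩ := slz_split hrel
  simp only [cst, sum_const, nsmul_eq_mul] at hT e
  obtain ⟨i, hi⟩ : Nat.card (slzSt p) ∣ #T := by
    have := slz_per (slzSt p) (fun x => if x ∈ T then 1 else 0) fun u hu x => by
      simp only [hT, hu x]
    rw [sum_boole, filter_univ_mem] at this
    exact_mod_cast this
  have π0 : 0 < Nat.card (slzSt p) := Nat.card_pos
  have tot : #T + #Tᶜ = Nat.card (slzSt p) * (slzSt p).index := by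
    rw [card_add_card_compl, slz_card, Fintype.card_units]
  obtain ⟨j, hj⟩ : Nat.card (slzSt p) ∣ #Tᶜ :=
    (Nat.dvd_add_right ⟨i, hi⟩).1 (tot ▸ dvd_mul_right _ _)
  have ne : ∀ x, a * p x = -(b * p' t) → x ∈ Tᶜ := fun x hx => mem_compl.2 fun hx' => by
    have e1 : ((a ^ 2 + b ^ 2 : ℕ) : ℂ) * p' t = 0 := by
      push_cast
      linear_combination b * hx - a * (hT x).1 hx'
    have := congrArg B.valuation e1
    rw [map_mul, h'.unit, mul_one, map_zero] at this
    exact N0.ne' this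
  have ij : T.Nonempty ∧ Tᶜ.Nonempty := by
    rcases mix with ⟨r1, r2⟩ | ⟨r1, r2⟩
    · exact ⟨⟨_, (hT _).2 r1⟩, _, ne _ r2⟩
    · exact ⟨⟨_, (hT _).2 r2⟩, _, ne _ r1⟩
  have i0 : 0 < i := Nat.pos_of_mul_pos_left (hi ▸ ij.1.card_pos)
  have j0 : 0 < j := Nat.pos_of_mul_pos_left (hj ▸ ij.2.card_pos)
  have sij : i + j = (slzSt p).index := by
    rw [hi, hj, ← mul_add] at tot
    exact Nat.eq_of_mul_eq_mul_left π0 tot
  have π1 : (Nat.card (slzSt p) : ℂ) ≠ 0 := by exact_mod_cast π0.ne'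
  rw [hi, hj] at e
  push_cast at e
  refine slz_fin hab i0 j0 (sij ▸ g2) ?_
  rcases pe with pe | pe <;> rcases h.sum with hS | hS <;> rw [pe, hS] at e
  · refine Or.inl (Int.cast_injective (α := ℂ) (mul_left_cancel₀ π1 ?_))
    push_cast
    linear_combination -e
  · refine Or.inr (Int.cast_injective (α := ℂ) (mul_left_cancel₀ π1 ?_))
    push_cast
    linear_combination -e
  · refine Or.inr (Int.cast_injective (α := ℂ) (mul_left_cancel₀ π1 ?_))
    push_cast
    linear_combination e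
  · refine Or.inl (Int.cast_injective (α := ℂ) (mul_left_cancel₀ π1 ?_))
    push_cast
    linear_combination e

theorem arith {n c a b : ℕ} (hn : 0 < n) (hc : c ∣ n) (hab : a.Coprime b)
    (hr : ringChar F % 4 = 1) (hN : ringChar F ∣ a ^ 2 + b ^ 2) {p p' κ : Fˣ → ℂ}
    (hrel : ∀ t, b * p t = a * p' t ∨ a * p t = -(b * p' t))
    (hp : ∀ t y, p (t * y ^ c) = p t) (hp' : ∀ t y, p' (t * y ^ c) = p' t)
    (hκ1 : ∑ u, κ u = 1)
    (hκ : ∀ ζ : MulChar F ℂ, orderOf ζ ∣ c →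
      (∑ u, κ u * ζ u) ^ 2 * (Fintype.card F : ℂ) ^ (n - n / orderOf ζ) = 1 ∨
      (∑ u, κ u * ζ u) ^ 2 * (Fintype.card F : ℂ) ^ (n - n / orderOf ζ) = -1)
    (hi : ∀ t, ∃ m : ℤ, ∑ u, κ u * p (t * u) = m) (hi' : ∀ t, ∃ m : ℤ, ∑ u, κ u * p' (t * u) = m)
    (hD : ∃ (D : Subgroup Fˣ) (e : ℕ), (∀ d ∈ D, ∀ t, p (t * d) = p t) ∧
      (e * ∑ t, p t = Nat.card D ∨ e * ∑ t, p t = -Nat.card D))
    (hD' : ∃ (D : Subgroup Fˣ) (e : ℕ), (∀ d ∈ D, ∀ t, p' (t * d) = p' t) ∧
      (e * ∑ t, p' t = Nat.card D ∨ e * ∑ t, p' t = -Nat.card D)) : False := by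
  have hq := (slz_char (F := F)).1
  obtain ⟨P, hP, hm⟩ := HZ.exists_max hq
  obtain ⟨B, hB⟩ := HZ.exists_val P hP
  have hv : B.valuation (ringChar F : ℂ) < 1 := by simpa using (hB _).1 hm
  have na : ¬ringChar F ∣ a := fun h => hq.not_dvd_one (hab ▸ Nat.dvd_gcd h
    (hq.dvd_of_dvd_pow ((Nat.dvd_add_right (dvd_pow h two_ne_zero)).1 hN)))
  have nb : ¬ringChar F ∣ b := fun h =>
    na (hq.dvd_of_dvd_pow ((Nat.dvd_add_left (dvd_pow h two_ne_zero)).1 hN))
  have ha := HZ.val_nat_eq hq hv na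
  have hb := HZ.val_nat_eq hq hv nb
  have h := slz_one hv hn hc hp hκ1 hκ hi hD
  have h' := slz_one hv hn hc hp' hκ1 hκ hi' hD'
  by_cases h1 : (slzSt p).index ∣ (slzSt p').index
  swap
  · exact slz_core hv hr hn hab ha hb hrel h h' h1
  by_cases h2 : (slzSt p').index ∣ (slzSt p).index
  swap
  · exact slz_core hv hr hn hab.symm hb ha
      (fun t => (hrel t).imp Eq.symm fun e => by rw [e, neg_neg]) h' h h2
  have v := slz_sq hv ha hb hrel h h'
  obtain ⟨k, hk⟩ := hN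
  have v2 : B.valuation (2 : ℂ) = 1 := by
    have := HZ.val_nat_eq hq hv (k := 2) fun e => by
      have := Nat.le_of_dvd two_pos e
      have := hq.two_le
      omega
    simpa using this
  rw [← Nat.dvd_antisymm h1 h2, ← two_mul, hk] at v
  push_cast at v
  rw [map_mul, map_pow, v2, slz_unit hv (Dvd.intro_left _ (slz_card (slzSt p))), one_pow, one_mul,
    mul_comm] at v
  exact (v.trans_lt (HZ.val_mul_lt (natCast_mem B k) hv)).false

end Pool.Agent.SemiProp.GLn
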