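import Pool.Agent.Lib.MP_c1c6b6_al.SLD
import Pool.Agent.Lib.MP_c1c6b6_al.SLC
import Pool.Agent.Lib.MP_c1c6b6_al.SLZ
import Pool.Agent.Lib.MP_c1c6b6_al.GL8
import Pool.Agent.Lib.MP_c1c6b6_al.PN7

set_option autoImplicit false

open Finset Matrix

namespace Pool.Agent.SemiProp.GLn

variable {F : Type} [Field F] [Fintype F] [DecidableEq F] {n : ℕ}

theorem Out.data {ψ : AddChar F ℂ} {κ : ℕ → F → ℂ} (hκ : ∀ j, κ j = (fun _ => 1) ∨ κ j = lam ψ j)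
    {w p : Fˣ → ℂ} {c e : ℕ} {D : Subgroup Fˣ} {f : Fˣ → Matrix (Fin n) (Fin n) F → ℂ}
    (h : Out κ w c (Nat.card D / e) f p) (he : (e : ℂ) ≠ 0)
    (hf : ∀ t, IsCh fun u : UT F n => f t u.1.val) (hD : ∀ d ∈ D, ∀ t, f (t * d) = f t) :
    (∀ t, ∃ m : ℤ, ∑ u, w u * p (t * u) = m) ∧ ∃ (D : Subgroup Fˣ) (e : ℕ),
      (∀ d ∈ D, ∀ t, p (t * d) = p t) ∧
        (e * ∑ t, p t = Nat.card D ∨ e * ∑ t, p t = -Nat.card D) := by
  classical
  refine ⟨fun t => ?_, D, e, fun d hd => h.inv d (hD d hd), h.sum.imp (fun h1 => ?_) fun h1 => ?_⟩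
  · obtain ⟨m, hm⟩ := ker_int ψ (hf t) hκ
    refine ⟨m, mul_left_cancel₀ (uc_ne (F := F) (n := n)) ?_⟩
    rw [← h.avg, mul_comm, ← hm, US, ← sum_UT]
  · rw [h1, mul_div_cancel₀ _ he]
  · rw [h1, mul_neg, mul_div_cancel₀ _ he]

theorem exists_st {x : II F} {f : Fˣ → Matrix (Fin n) (Fin n) F → ℂ} (hx : x.1 = n) (h1 : Fam f)
    (h2 : ∀ t, Co x (f t)) {D : Subgroup Fˣ} {e : ℕ}
    (h3 : ∀ M : Matrix (Fin n) (Fin n) F, M.det = 1 → e * ∑ t, f t M = Nat.card D * ev x M) :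
    (e : ℂ) ≠ 0 ∧ St x (Nat.card D / e) f := by
  have hD : (Nat.card D : ℂ) ≠ 0 := Nat.cast_ne_zero.2 Nat.card_pos.ne'
  have he : (e : ℂ) ≠ 0 := left_ne_zero_of_mul ((h3 1 det_one).trans_ne
    (mul_ne_zero hD (ev_one_ne (by simp [hx]))))
  exact ⟨he, by simp [hx], h1, h2, div_ne_zero hD he, fun M hM => by
    rw [div_mul_eq_mul_div, ← h3 M hM, mul_div_cancel_left₀ _ he]⟩

theorem sl_core (hn : 0 < n) (H : Subgroup (GL (Fin n) F))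
    (hH : ∀ g : GL (Fin n) F, g.val.det = 1 → g ∈ H) {φ φ' : H → ℂ} (hφ : IsIr φ) (hφ' : IsIr φ')
    {a b l : ℕ} (ha : a ≠ 0) (hb : b ≠ 0) (hab : a.Coprime b) (hl : l.Prime) (hl4 : l % 4 = 1)
    (hN : l ∣ a ^ 2 + b ^ 2) (hrel : ∀ g, b * φ g = a * φ' g ∨ a * φ g = -(b * φ' g)) : False := by
  classical
  have : NeZero n := ⟨hn.ne'⟩
  obtain ⟨ψ, hψ⟩ := exists_psi (F := F)
  obtain ⟨x, f, h1, h2, h3, h4, h5, D, e, h6, h7⟩ := exists_fam hn H hH hφ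
  obtain ⟨x', f', h1', h2', h3', h4', h5', D', e', h6', h7'⟩ := exists_fam hn H hH hφ'
  have h8 : ∀ t M, IsNilpotent (M - 1) →
      b * f t M = a * f' t M ∨ a * f t M = -(b * f' t M) := fun t M hM => by
    obtain ⟨P, Q, h9, h10⟩ := exists_det (ι := Fin n) t
    have h11 : (P * M * Q).det = 1 := by
      rw [det_mul, det_mul, det_unip hM, mul_one, ← det_mul, h9, det_one]
    obtain ⟨g, hg⟩ := (isUnit_iff_isUnit_det (P * M * Q)).2 (h11 ▸ isUnit_one)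
    have h12 := hrel ⟨g, hH g (hg ▸ h11)⟩
    rwa [← h3, ← h3', hg, h2 1 t P Q M h9 h10, h2' 1 t P Q M h9 h10, one_mul] at h12
  obtain rfl := gamma hab hl (by omega) hN h1 h1' ⟨h5, D, e, h6, h7⟩ ⟨h5', D', e', h6', h7'⟩
    fun t M hM => h8 t M hM.nil
  obtain ⟨he, hs⟩ := exists_st h1 h2 h4 h7
  obtain ⟨he', hs'⟩ := exists_st h1' h2' h4' h7'
  obtain ⟨κ, w, c, p, p', k1, k2, k3, k4, k5, k6, k7⟩ := descent hψ (Nat.cast_ne_zero.2 ha)
    (Nat.cast_ne_zero.2 hb) n x x' _ _ f f' hs hs' h8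
  obtain ⟨k8, k9⟩ := k6.data k1 he h5 h6
  obtain ⟨k8', k9'⟩ := k7.data k1 he' h5' h6'
  exact arith hn k2 hab hl4 hN k5 k6.per k7.per k3 k4 k8 k8' k9 k9'

theorem sl_main (H : Subgroup (GL (Fin n) F)) (hH : ∀ g : GL (Fin n) F, g.val.det = 1 → g ∈ H)
    {φ φ' : H → ℂ} (hφ : IsIr φ) (hφ' : IsIr φ') {A B : ℕ} (hA : φ 1 = A) (hB : φ' 1 = B)
    (hrel : ∀ g, B * φ g = A * φ' g ∨ A * φ g = -(B * φ' g)) : A = B := by
  classical
  have hA0 : A ≠ 0 := Nat.cast_ne_zero.1 (hA ▸ hφ.one_ne)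
  have hB0 : B ≠ 0 := Nat.cast_ne_zero.1 (hB ▸ hφ'.one_ne)
  by_contra hne
  rcases Nat.eq_zero_or_pos n with rfl | hn
  · have h1 := hφ.orth hφ'
    rw [if_neg fun h => hne (Nat.cast_injective (R := ℂ) (by rw [← hA, ← hB, h])),
      Fintype.sum_subsingleton _ 1, hA, hB] at h1
    simp [hA0, hB0] at h1
  have hg : 0 < A.gcd B := Nat.gcd_pos_of_pos_left _ (Nat.pos_of_ne_zero hA0)
  obtain ⟨a, b, hab, e1, e2⟩ := Nat.exists_coprime A B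
  generalize A.gcd B = t at hg e1 e2
  subst e1 e2
  have ha := left_ne_zero_of_mul hA0
  have hb := left_ne_zero_of_mul hB0
  have ht : (t : ℂ) ≠ 0 := Nat.cast_ne_zero.2 hg.ne'
  obtain ⟨l, h1, h2, h3⟩ : ∃ l : ℕ, l.Prime ∧ l % 4 = 1 ∧ l ∣ a ^ 2 + b ^ 2 := by
    rcases lt_or_gt_of_ne (fun h : a = b => hne (h ▸ rfl)) with h | h
    · rw [add_comm]
      exact exists_prime_one_mod_four hab.symm (Nat.pos_of_ne_zero ha) h
    · exact exists_prime_one_mod_four hab (Nat.pos_of_ne_zero hb) h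
  refine sl_core hn H hH hφ hφ' ha hb hab h1 h2 h3 fun g => ?_
  have h4 := hrel g
  push_cast at h4
  refine h4.imp (fun h5 => mul_left_cancel₀ ht ?_) fun h5 => mul_left_cancel₀ ht ?_
  · linear_combination h5
  · linear_combination h5

theorem isIr_of_surj {G K V : Type} [Group G] [Group K] [AddCommGroup V] [Module ℂ V]
    [FiniteDimensional ℂ V] {ρ : Representation ℂ G V} (h : Irr ρ) {π : K →* G}
    (hπ : Function.Surjective π) : IsIr fun k => ρ.character (π k) :=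
  ⟨V, _, _, inferInstance, ρ.comp π, ⟨h.nontriv, fun U hU => h.inv U fun g => by
    obtain ⟨k, rfl⟩ := hπ g
    exact hU k⟩, rfl⟩

end Pool.Agent.SemiProp.GLn
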