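import Pool.Agent.Lib.MP_c1c6b6_al.SL0

set_option autoImplicit false

open Finset Matrix

namespace Pool.Agent.SemiProp.GLn

section group

variable {G K : Type} [Group G] [Group K] {χ x : G → ℂ}

theorem IsIr.twist (h : IsIr χ) (f : G →* ℂ) : IsIr fun g => f g * χ g := by
  obtain ⟨V, i1, i2, i3, ρ, hρ, rfl⟩ := h
  refine ⟨V, i1, i2, i3,
    { toFun := fun g => f g • ρ g
      map_one' := by rw [map_one, map_one, one_smul]
      map_mul' := fun a b => by rw [map_mul, map_mul, smul_mul_smul_comm] },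
    ⟨hρ.nontriv, fun U hU => hρ.inv U fun g v hv => ?_⟩, ?_⟩
  · have h1 : f g ≠ 0 := left_ne_zero_of_mul_eq_one (b := f g⁻¹) (by
      rw [← map_mul, mul_inv_cancel, map_one])
    exact (U.smul_mem_iff h1).1 (hU g v hv)
  · funext g
    change f g * LinearMap.trace ℂ V (ρ g) = LinearMap.trace ℂ V (f g • ρ g)
    rw [map_smul, smul_eq_mul]

theorem IsCh.sli_inv [Fintype G] (h : IsCh χ) (g : G) : χ g⁻¹ = (starRingEnd ℂ) (χ g) := by
  obtain ⟨V, i1, i2, i3, ρ, rfl⟩ := h
  exact char_inv ρ g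

theorem idem [Fintype K] (j : K →* G) {α : K → ℂ} (hα : IsCh α) (hx : IsCh x)
    (h0 : ∑ k, x (j k) * (starRingEnd ℂ) (α k) = 0) (g h : G) :
    ∑ k, x (g * j k * h) * (starRingEnd ℂ) (α k) = 0 := by
  obtain ⟨V, i1, i2, i3, ρ, rfl⟩ := hx
  obtain ⟨W, j1, j2, j3, σ, hσ⟩ := hα.conj
  have e : ∀ k, (starRingEnd ℂ) (α k) = σ.character k := congrFun hσ
  simp only [e] at h0 ⊢
  have hc : (Nat.card K : ℂ) ≠ 0 := Nat.cast_ne_zero.2 Nat.card_pos.ne'
  have : Invertible (Nat.card K : ℂ) := invertibleOfNonzero hc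
  let τ : Representation ℂ K (TensorProduct ℂ V W) := Representation.tprod (ρ.comp j) σ
  have h1 : ∑ k, τ.character k = 0 := by
    rw [← h0]
    exact sum_congr rfl fun k _ => congrFun (Representation.char_tensor (ρ.comp j) σ) k
  have h2 := τ.card_inv_mul_sum_char_eq_finrank
  rw [h1, mul_zero, eq_comm, Nat.cast_eq_zero, Submodule.finrank_eq_zero] at h2
  have h3 : ∑ k, τ k = 0 := by
    refine LinearMap.ext fun v => ?_
    rw [LinearMap.zero_apply, ← Submodule.mem_bot ℂ, ← h2, Representation.mem_invariants]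
    intro y
    rw [← Module.End.mul_apply, mul_sum]
    simp only [← map_mul]
    rw [Fintype.sum_equiv (Equiv.mulLeft y) (fun k => τ (y * k)) τ fun _ => rfl]
  have h4 := congrArg (fun T => LinearMap.trace ℂ _ (TensorProduct.map (ρ (h * g)) 1 * T)) h3
  simp only [mul_zero, map_zero, mul_sum, map_sum] at h4
  rw [← h4]
  refine sum_congr rfl fun k _ => ?_
  rw [show τ k = TensorProduct.map (ρ (j k)) (σ k) from rfl, ← TensorProduct.map_mul, one_mul,
    LinearMap.trace_tensorProduct', ← map_mul, ← ρ.char_conj (g * j k * h) h]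
  congr 2
  group

theorem column [Fintype G] (g g' : G) :
    ∑ χ ∈ (finite_isIr G).toFinset, χ g * (starRingEnd ℂ) (χ g') = ∑ y, ind (g * y = y * g') := by
  refine mul_left_cancel₀ (gle_card G) ?_
  rw [expand (f := fun g => ∑ y, ind (g * y = y * g')) (fun g x => ?_) g, mul_sum]
  · refine sum_congr rfl fun χ hχ => ?_
    have h1 : IsIr χ := ((finite_isIr G).mem_toFinset).1 hχ
    simp only [sum_mul]
    rw [sum_comm, sum_congr rfl (g := fun _ => χ g * (starRingEnd ℂ) (χ g')) fun y _ => ?_,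
      sum_const, card_univ, nsmul_eq_mul]
    rw [sum_eq_single (y * g' * y⁻¹) (fun z _ hz => by
      rw [ind_neg fun k => hz (eq_mul_inv_of_mul_eq k), zero_mul, zero_mul]) (by simp),
      ind_pos (by group), h1.isCh.cls, one_mul, mul_comm]
  · refine (Fintype.sum_equiv (Equiv.mulLeft x) _ _ fun y => ind_congr ?_).symm
    rw [Equiv.coe_mulLeft, mul_assoc (x * g), inv_mul_cancel_left, mul_assoc, mul_assoc,
      mul_right_inj]

end group

variable {F : Type} [Field F] [Fintype F] [DecidableEq F] {n : ℕ} {ι α β : Type} [Fintype ι]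
  [DecidableEq ι] [Fintype α] [DecidableEq α] [Fintype β] [DecidableEq β]

theorem ker_int [Fintype (UT F n)] (ψ : AddChar F ℂ) {χ : UT F n → ℂ} (h : IsCh χ) {κ : ℕ → F → ℂ}
    (hκ : ∀ j, κ j = (fun _ => 1) ∨ κ j = lam ψ j) : ∃ m : ℤ,
      ∑ u : UT F n, χ u * ker κ ((u : GL (Fin n) F) : Matrix (Fin n) (Fin n) F) = m * uc F n := by
  have key : ∀ (k : ℕ) (κ : ℕ → F → ℂ),
      (∀ j, κ j = (fun _ => 1) ∨ κ j = ψ ∨ (j < k ∧ κ j = lam ψ j)) → ∃ m : ℤ,
      ∑ u : UT F n, χ u * ker κ ((u : GL (Fin n) F) : Matrix (Fin n) (Fin n) F) = m * uc F n := by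
    intro k
    induction k with
    | zero =>
      intro κ hκ
      have h1 : ∀ j, ∃ a : AddChar F ℂ, κ j = a := fun j => by
        rcases hκ j with e | e | e
        · exact ⟨1, e⟩
        · exact ⟨ψ, e⟩
        · exact absurd e.1 (Nat.not_lt_zero j)
      choose a ha using h1
      obtain rfl : κ = fun j => (a j : F → ℂ) := funext ha
      obtain ⟨m, hm⟩ := (h.mul (isCh_lin (kerHom n a))).avg
      exact ⟨m, by rw [uc_eq, Int.cast_natCast, ← hm]; rfl⟩
    | succ k ih =>
      intro κ hκ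
      have h1 : ∀ w : F → ℂ, w = (fun _ => 1) ∨ w = ψ → ∀ j, Function.update κ k w j = (fun _ => 1) ∨
          Function.update κ k w j = ψ ∨ (j < k ∧ Function.update κ k w j = lam ψ j) := by
        intro w hw j
        by_cases e : j = k
        · rw [e, Function.update_self]
          exact hw.imp_right Or.inl
        · rw [Function.update_of_ne e]
          exact (hκ j).imp_right (Or.imp_right fun t => ⟨by omega, t.2⟩)
      obtain ⟨m₁, e₁⟩ := ih _ (h1 _ (Or.inl rfl))
      obtain ⟨m₂, e₂⟩ := ih _ (h1 _ (Or.inr rfl))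
      rcases hκ k with e | e | ⟨-, e⟩
      · exact ⟨m₁, by rwa [← e, Function.update_eq_self] at e₁⟩
      · exact ⟨m₂, by rwa [← e, Function.update_eq_self] at e₂⟩
      by_cases hk : 0 < k ∧ k < n
      · refine ⟨m₁ - m₂, ?_⟩
        rw [Int.cast_sub, sub_mul, ← e₁, ← e₂, ← sum_sub_distrib]
        refine sum_congr rfl fun u _ => ?_
        rw [ker_add (κ := Function.update κ k fun _ => 1) (κ₁ := κ) (κ₂ := Function.update κ k ψ)
          hk.1 hk.2 (fun j hj => by simp [Function.update_of_ne hj])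
          (fun t => by simp [e, lam])]
        ring
      · refine ⟨m₁, ?_⟩
        rw [← e₁]
        exact sum_congr rfl fun u _ => by
          rw [ker_congr (κ' := Function.update κ k fun _ => 1) fun j a b =>
            (Function.update_of_ne (by omega) _ _).symm]
  obtain ⟨m, hm⟩ := key n (fun j => if j < n then κ j else fun _ => 1) fun j => by
    by_cases e : j < n
    · rw [if_pos e]
      exact (hκ j).imp_right fun t => Or.inr ⟨e, t⟩
    · exact Or.inl (if_neg e)
  refine ⟨m, ?_⟩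
  rw [← hm]
  exact sum_congr rfl fun u _ => by
    rw [ker_congr (κ' := fun j => if j < n then κ j else fun _ => 1) fun j _ b => (if_pos b).symm]

theorem complete (f : Matrix ι ι F → ℂ) (g : Matrix ι ι F) :
    ∑ a ∈ lev F (Fintype.card ι), ev a (1 : Matrix ι ι F) *
      ∑ h : Matrix ι ι F, f (g * h) * (starRingEnd ℂ) (ev a h) = gl F ι * f g := by
  have h1 : Cl fun M : Matrix ι ι F => ind (M = 1) :=
    ⟨fun M hM => ind_neg fun e => hM (e ▸ isUnit_one), fun P Q M h => ind_congr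
      ⟨fun e => by rw [← conj_conj (mul_eq_one_comm.1 h) M, e, Matrix.mul_one, mul_eq_one_comm.1 h],
        fun e => by rw [e, Matrix.mul_one, h]⟩⟩
  have h2 : ∀ (φ : Matrix ι ι F → ℂ), ∑ N : Matrix ι ι F, ind (N = 1) * φ N = φ 1 := fun φ => by
    rw [sum_eq_single 1 (fun N _ hN => by rw [ind_neg hN, zero_mul]) (by simp), ind_pos rfl, one_mul]
  have h3 : ∀ M : Matrix ι ι F, ∑ a ∈ lev F (Fintype.card ι),
      ev a (1 : Matrix ι ι F) * (starRingEnd ℂ) (ev a M) = gl F ι * ind (M = 1) := fun M => by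
    have h4 := congrArg (starRingEnd ℂ) (h1.expand M)
    simp only [h2, map_mul, map_sum, Complex.conj_conj, conj_ind, gl_eq, map_natCast] at h4
    rw [gl_eq, h4]
  simp only [mul_sum]
  rw [sum_comm, sum_congr rfl (g := fun M => ind (M = 1) * (gl F ι * f (g * M))) fun M _ => ?_, h2,
    Matrix.mul_one]
  simp only [mul_left_comm _ (f _)]
  rw [← mul_sum, h3]
  ring

theorem hc_zero {a b x : II F} (ha : Fintype.card α = a.1) (hb : Fintype.card β = b.1)
    (h0 : cc a b x = 0) (D : Matrix (α ⊕ β) (α ⊕ β) F → ℂ) {l : Matrix (α ⊕ β) (α ⊕ β) F}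
    (hl : IsUnit l) : ∑ s : Matrix (α ⊕ β) (α ⊕ β) F,
      (∑ h : Matrix (α ⊕ β) (α ⊕ β) F, D (l * s * h) * (starRingEnd ℂ) (ev x h)) *
        (starRingEnd ℂ) (X0 a b s) = 0 := by
  classical
  by_cases hx : Fintype.card (α ⊕ β) = x.1
  swap
  · simp [ev_card hx]
  obtain ⟨L, rfl⟩ := hl
  have hS : ∀ f : Matrix (α ⊕ β) (α ⊕ β) F → ℂ, ∑ s, f s * (starRingEnd ℂ) (X0 a b s) =
      ∑ k : PS F α β, f k.1.val * (starRingEnd ℂ) (X0 a b k.1.val) := fun f => by
    rw [sum_PS fun s => f s * (starRingEnd ℂ) (X0 a b s)]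
    refine sum_congr rfl fun s _ => ?_
    by_cases hs : Par s
    · rw [ind_pos hs, one_mul]
    · rw [X0_sing a b hs, map_zero, mul_zero, mul_zero]
  have hX : IsCh fun k : PS F α β => X0 a b k.1.val := by
    have h1 := ((isIr_ev ha).isCh.comp (PS.fst (F := F) (α := α) (β := β)).toHomUnits).mul
      ((isIr_ev hb).isCh.comp (PS.snd (F := F) (α := α) (β := β)).toHomUnits)
    convert h1 using 2 with k
    rw [X0, ind_pos (p := k.1.val.toBlocks₂₁ = 0) k.2, one_mul]
    rfl
  have hc := (isIr_ev hx).isCh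
  have h1 := cc_spec ha hb x
  rw [h0, Nat.cast_zero, zero_mul, hS] at h1
  have h2 := fun g => idem (PS F α β).subtype hX hc h1 g 1
  have h3 : ∀ k : PS F α β, ∑ h : Matrix (α ⊕ β) (α ⊕ β) F,
      D (L.val * k.1.val * h) * (starRingEnd ℂ) (ev x h) =
      ∑ h : GL (α ⊕ β) F, D h.val * ev x (h⁻¹ * L * k.1 * 1).val := fun k => by
    rw [← sum_GL' fun M hM => by rw [ev_sing x hM, map_zero, mul_zero]]
    refine Fintype.sum_equiv (Equiv.mulLeft (L * k.1)) _ _ fun h => ?_
    rw [Equiv.coe_mulLeft, ← hc.sli_inv, show (L * k.1 * h)⁻¹ * L * k.1 * 1 = h⁻¹ by group]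
    rfl
  rw [hS]
  simp only [h3, sum_mul, mul_assoc (D _)]
  rw [sum_comm]
  exact sum_eq_zero fun h _ => by
    rw [← mul_sum]
    exact mul_eq_zero_of_right _ (h2 (h⁻¹ * L))

end Pool.Agent.SemiProp.GLn
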