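import Pool.Agent.Lib.MP_c1c6b6_al.SLB

set_option autoImplicit false

open Finset Matrix

namespace Pool.Agent.SemiProp.GLn

variable {F : Type} [Field F] {ι κ α β : Type} [Fintype ι] [DecidableEq ι] [Fintype κ]
  [DecidableEq κ] [Fintype α] [DecidableEq α] [Fintype β] [DecidableEq β] {K : ℕ}

theorem SLinv.sub {D : Matrix ι ι F → ℂ} (h : SLinv D) (e : ι ≃ κ) :
    SLinv fun s : Matrix κ κ F => D (s.submatrix e e) := fun P Q M h1 h2 => by
  simp only [← submatrix_mul_equiv _ _ e e e]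
  exact h _ _ _ (by rw [submatrix_mul_equiv, h1, submatrix_one_equiv])
    (by rw [det_submatrix_equiv_self, h2])

theorem Fam.sub {f : Fˣ → Matrix ι ι F → ℂ} (h : Fam f) (e : ι ≃ κ) :
    Fam fun t (s : Matrix κ κ F) => f t (s.submatrix e e) := fun t d P Q M h1 h2 => by
  simp only [← submatrix_mul_equiv _ _ e e e]
  exact h _ _ _ _ _ (by rw [submatrix_mul_equiv, h1, submatrix_one_equiv])
    (by rw [det_submatrix_equiv_self, h2])

omit [DecidableEq κ] in
theorem Fam.rect {f : Fˣ → Matrix ι ι F → ℂ} (h : Fam f) (e : ι ≃ κ) {P : Matrix ι κ F}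
    {Q : Matrix κ ι F} (h1 : P * Q = 1) :
    ∃ d, ∀ (t : Fˣ) (M : Matrix κ κ F), f t (P * M * Q) = f (t * d) (M.submatrix e e) := by
  have h2 : P.submatrix id e * Q.submatrix e id = 1 := by
    rw [submatrix_mul_equiv, h1, submatrix_id_id]
  obtain ⟨d, hd⟩ := isUnit_det_of_right_inverse h2
  refine ⟨d, fun t M => ?_⟩
  rw [← h t d _ _ _ h2 hd.symm, submatrix_mul_equiv, submatrix_mul_equiv, submatrix_id_id]

theorem diag_inv {P Q : Matrix α α F} {P' Q' : Matrix β β F} (h : P * Q = 1) (h' : P' * Q' = 1) :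
    fromBlocks P 0 0 P' * fromBlocks Q 0 0 Q' = 1 := by
  simp [fromBlocks_multiply, h, h']

variable [Fintype F]

theorem sum_cut (f : Matrix (α ⊕ β) (α ⊕ β) F → ℂ) {P Q : Matrix α α F} {P' Q' : Matrix β β F}
    (h : P * Q = 1) (h' : P' * Q' = 1) (M : Matrix α α F) (g : Matrix β β F) :
    ∑ v, f (fromBlocks (P * M * Q) v 0 (P' * g * Q')) =
      ∑ v, f (fromBlocks P 0 0 P' * fromBlocks M v 0 g * fromBlocks Q 0 0 Q') := by
  have h1 := mul_eq_one_comm.1 h
  have h2 := mul_eq_one_comm.1 h'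
  refine (Fintype.sum_equiv ⟨(P * · * Q'), (Q * · * P'), fun v => ?_, fun v => ?_⟩ _ _ fun v => ?_).symm
  · simp only [Matrix.mul_assoc, h2, Matrix.mul_one]
    rw [← Matrix.mul_assoc, h1, Matrix.one_mul]
  · simp only [Matrix.mul_assoc, h', Matrix.mul_one]
    rw [← Matrix.mul_assoc, h, Matrix.one_mul]
  · simp [fromBlocks_multiply]

/-- A coefficient function of `x`. -/
noncomputable def cf (D : Matrix ι ι F → ℂ) (x : II F) (M : Matrix ι ι F) : ℂ :=
  ∑ h : Matrix ι ι F, D (M * h) * (starRingEnd ℂ) (ev x h)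

theorem SLinv.cf {D : Matrix ι ι F → ℂ} (h : SLinv D) (x : II F) : SLinv (cf D x) := by
  intro P Q M h1 h2
  have h3 := mul_eq_one_comm.1 h1
  refine Fintype.sum_equiv ⟨(Q * · * P), (P * · * Q), conj_conj h1, conj_conj h3⟩ _ _ fun s => ?_
  rw [Equiv.coe_fn_mk, ev_cj x h3, ← h P Q (M * _) h1 h2]
  simp only [Matrix.mul_assoc, h1, Matrix.mul_one]

theorem SLinv.left {D : Matrix (α ⊕ β) (α ⊕ β) F → ℂ} (h : SLinv D) (g : Matrix β β F) :
    SLinv fun M => ∑ v, D (fromBlocks M v 0 g) := fun P Q M h1 h2 => by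
  have h3 := sum_cut D h1 (Matrix.mul_one 1) M g
  rw [Matrix.one_mul, Matrix.mul_one] at h3
  exact h3.trans (sum_congr rfl fun v _ => h _ _ _ (diag_inv h1 (Matrix.mul_one 1)) (by simp [h2]))

theorem SLinv.right {D : Matrix (α ⊕ β) (α ⊕ β) F → ℂ} (h : SLinv D) (M : Matrix α α F) :
    SLinv fun g => ∑ v, D (fromBlocks M v 0 g) := fun P Q g h1 h2 => by
  have h3 := sum_cut D (Matrix.mul_one 1) h1 M g
  rw [Matrix.one_mul, Matrix.mul_one] at h3
  exact h3.trans (sum_congr rfl fun v _ => h _ _ _ (diag_inv (Matrix.mul_one 1) h1) (by simp [h2]))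

theorem Fam.left {f : Fˣ → Matrix (α ⊕ β) (α ⊕ β) F → ℂ} (h : Fam f) (g : Matrix β β F) :
    Fam fun t M => ∑ v, f t (fromBlocks M v 0 g) := fun t d P Q M h1 h2 => by
  have h3 := sum_cut (f t) h1 (Matrix.mul_one 1) M g
  rw [Matrix.one_mul, Matrix.mul_one] at h3
  exact h3.trans (sum_congr rfl fun v _ =>
    h _ _ _ _ _ (diag_inv h1 (Matrix.mul_one 1)) (by simp [h2]))

theorem Fam.right {f : Fˣ → Matrix (α ⊕ β) (α ⊕ β) F → ℂ} (h : Fam f) (M : Matrix α α F) :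
    Fam fun t g => ∑ v, f t (fromBlocks M v 0 g) := fun t d P Q g h1 h2 => by
  have h3 := sum_cut (f t) (Matrix.mul_one 1) h1 M g
  rw [Matrix.one_mul, Matrix.mul_one] at h3
  exact h3.trans (sum_congr rfl fun v _ =>
    h _ _ _ _ _ (diag_inv (Matrix.mul_one 1) h1) (by simp [h2]))

theorem Co.sub {x : II F} {f : Matrix ι ι F → ℂ} (h : Co x f) (e : ι ≃ κ) :
    Co x fun s : Matrix κ κ F => f (s.submatrix e e) := by
  obtain ⟨D, h1, h2⟩ := h
  refine ⟨_, h1.sub e, fun M hM => ?_⟩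
  refine (h2 _ (by rw [det_submatrix_equiv_self, hM])).trans ?_
  rw [← sum_sub e e]
  simp only [ev_sub, submatrix_mul_equiv]

variable [DecidableEq F]

theorem cut_zero {x b : II F} {D : Matrix (Fin K ⊕ β) (Fin K ⊕ β) F → ℂ} (hD : SLinv D)
    (hb : Fintype.card β = b.1) (h : (psh F).der dr K x b = 0) {g : Matrix β β F} (hg : g.det = 1) :
    ∑ s, (∑ v, cf D x (fromBlocks (J F K) v 0 (g * s))) * (starRingEnd ℂ) (ev b s) = 0 := by
  obtain ⟨ψ, hψ⟩ := exists_psi (F := F)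
  obtain ⟨G, hG⟩ : ∃ G, G = fun M : Matrix (Fin K) (Fin K) F =>
      ∑ s, (∑ v, cf D x (fromBlocks M v 0 (g * s))) * (starRingEnd ℂ) (ev b s) := ⟨_, rfl⟩
  have hG' : SLinv G := hG ▸ fun P Q M h1 h2 => sum_congr rfl fun s _ =>
    congrArg (· * _) ((hD.cf x).left (g * s) P Q M h1 h2)
  refine (congrFun hG _).symm.trans ((mul_eq_zero.1 ((complete G (J F K)).symm.trans
    (sum_eq_zero fun a ha => mul_eq_zero_of_right _ ?_))).resolve_left gl_ne)
  rw [mem_lev, Fintype.card_fin] at ha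
  by_cases h1 : dr a = 0
  · exact reg_zero ha h1 hG'
  have h2 : cc a b x = 0 := by
    by_contra h2
    refine mul_ne_zero (Nat.cast_ne_zero.2 h2) h1 (Eq.trans ?_ h)
    refine (sum_eq_single (f := fun a => (cc a b x : ℂ) * dr a) a
      (fun a' _ h3 => by_contra fun h4 => h3 ?_) fun h3 => ?_).symm
    · exact ((psh F).partner (dl ψ) dr (dl01 hψ) (dl_oo ψ) dr_oo dr_mul (fun _ => dl_dr hψ)
        fun _ => dr_cusp).1 a' a b x (right_ne_zero_of_mul h4) h1
        (Nat.cast_ne_zero.1 (left_ne_zero_of_mul h4)) h2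
    · exact absurd (mem_lev.2 ha) h3
  obtain ⟨Q, hQ⟩ := ((isUnit_iff_isUnit_det (J F K)).2 (by simp [uni_J.det])).exists_right_inv
  have h3 := hc_zero (by rw [Fintype.card_fin, ha]) hb h2 D (l := fromBlocks (J F K) 0 0 g)
    ((isUnit_iff_isUnit_det _).2 (by simp [uni_J.det, hg]))
  simp only [X0, map_mul, conj_ind, mul_left_comm _ (ind _)] at h3
  rw [sum_blocks] at h3
  rw [← h3, hG]
  refine sum_congr rfl fun M _ => ?_
  rw [sum_mul]
  refine sum_congr rfl fun s _ => ?_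
  rw [mul_assoc, mul_comm ((starRingEnd ℂ) _), sum_mul]
  refine (Fintype.sum_equiv ⟨(J F K * ·), (Q * ·), fun v => ?_, fun v => ?_⟩ _ _ fun v => ?_).symm
  · simp only [← Matrix.mul_assoc, mul_eq_one_comm.1 hQ, Matrix.one_mul]
  · simp only [← Matrix.mul_assoc, hQ, Matrix.one_mul]
  · simp [fromBlocks_multiply, cf]

theorem Co.cut {x y : II F} {f : Matrix (Fin K ⊕ β) (Fin K ⊕ β) F → ℂ} (h : Co x f)
    (hy : ∀ b, b ≠ y → (psh F).der dr K x b = 0) (c : ℂ) :
    Co y fun g => c * ∑ v, f (fromBlocks (J F K) v 0 g) := by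
  obtain ⟨D, h1, h2⟩ := h
  refine ⟨fun g => c * ev y (1 : Matrix β β F) / gl F β * ∑ v, cf D x (fromBlocks (J F K) v 0 g),
    fun P Q M h3 h4 => congrArg (_ * ·) ((h1.cf x).right _ P Q M h3 h4), fun g hg => ?_⟩
  have h3 := complete (fun g => ∑ v, cf D x (fromBlocks (J F K) v 0 g)) g
  rw [sum_eq_single y (fun b hb hb' => by
    rw [cut_zero h1 (mem_lev.1 hb).symm (hy b hb') hg, mul_zero]) fun h4 => by
    rw [ev_card fun h5 => h4 (mem_lev.2 h5.symm), zero_mul]] at h3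
  simp only [mul_assoc, ← mul_sum]
  rw [mul_div_assoc, mul_assoc, div_mul_eq_mul_div, h3, mul_div_cancel_left₀ _ gl_ne]
  exact congrArg (c * ·) (sum_congr rfl fun v _ => h2 _ (by simp [uni_J.det, hg]))

theorem Co.vanish {x : II F} {f : Matrix (Fin K ⊕ β) (Fin K ⊕ β) F → ℂ} (h : Co x f)
    (hy : ∀ b, (psh F).der dr K x b = 0) {g : Matrix β β F} (hg : g.det = 1) :
    ∑ v, f (fromBlocks (J F K) v 0 g) = 0 := by
  obtain ⟨D, h1, h2⟩ := h
  have h3 := complete (fun g => ∑ v, cf D x (fromBlocks (J F K) v 0 g)) g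
  rw [sum_eq_zero fun b hb => by
    rw [cut_zero h1 (mem_lev.1 hb).symm (hy b) hg, mul_zero]] at h3
  exact (sum_congr rfl fun v _ => h2 _ (by simp [uni_J.det, hg])).trans
    ((mul_eq_zero.1 h3.symm).resolve_left gl_ne)

end Pool.Agent.SemiProp.GLn
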