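import Pool.Agent.Lib.MP_c1c6b6_al.SL0

set_option autoImplicit false

open Finset Matrix

namespace Pool.Agent.SemiProp.GLn

variable {F : Type} [Field F] {k m n : ℕ}

theorem slp1_pow {A : Matrix (Fin n) (Fin n) F} (h : ∀ i j, j ≤ i → A i j = 0) (p : ℕ)
    (i j : Fin n) (hj : (j : ℕ) < i + p) : (A ^ p) i j = 0 := by
  induction p generalizing j with
  | zero => rw [pow_zero, one_apply_ne (fun e => by subst e; omega)]
  | succ p ih =>
    rw [pow_succ, Matrix.mul_apply]
    refine sum_eq_zero fun l _ => ?_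
    by_cases hl : (l : ℕ) < i + p
    · rw [ih l hl, zero_mul]
    · rw [h l j (by rw [Fin.le_def]; omega), mul_zero]

theorem slp1_low {g u u' : Matrix (Fin n) (Fin n) F} (hu : Uni u) (hu' : Uni u')
    (he : u * g = g * u') (hr : ∀ i j : Fin n, (j : ℕ) = i + 1 → u i j ≠ 0) (k : ℕ) (j : Fin n)
    (hj : (j : ℕ) < k) (r : Fin n) (hk : k ≤ r) : g r j = 0 := by
  have hp := glj_tri_pow (A := u - 1) (fun i j hij => by rw [Matrix.sub_apply, hu i j hij, sub_self])
    (fun i j hij => by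
      rw [Matrix.sub_apply, one_apply_ne (fun e => by subst e; omega), sub_zero]
      exact hr i j hij) k
  have hq := slp1_pow (A := u' - 1)
    (fun i j hij => by rw [Matrix.sub_apply, hu' i j hij, sub_self]) k
  have h1 : ∀ p : ℕ, (u - 1) ^ p * g = g * (u' - 1) ^ p := by
    have h2 : (u - 1) * g = g * (u' - 1) := by
      rw [Matrix.sub_mul, Matrix.mul_sub, he, Matrix.one_mul, Matrix.mul_one]
    intro p
    induction p with
    | zero => simp
    | succ p ih => rw [pow_succ, Matrix.mul_assoc, h2, ← Matrix.mul_assoc, ih, Matrix.mul_assoc,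
        ← pow_succ]
  have key : ∀ d : ℕ, ∀ r : Fin n, k ≤ r → n ≤ r + d → g r j = 0 := by
    intro d
    induction d with
    | zero => intro r _ h; omega
    | succ d ih =>
      intro r hk hd
      have h3 := congrFun (congrFun (h1 k) ⟨r - k, by omega⟩) j
      rw [Matrix.mul_apply, Matrix.mul_apply, sum_eq_single r, sum_eq_zero fun l _ => by
        rw [hq l j (by omega), mul_zero]] at h3
      · exact (mul_eq_zero.1 h3).resolve_left ((hp _ r).2 (by simp; omega))
      · intro l _ hl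
        have : (l : ℕ) ≠ r := fun e => hl (Fin.ext e)
        by_cases h4 : (l : ℕ) < r
        · rw [(hp _ l).1 (by simp; omega), zero_mul]
        · rw [ih l (by omega) (by omega), mul_zero]
      · simp
  exact key n r hk (by omega)

/-- The factor of the kernel that comes from the corner of the upper right block. -/
noncomputable def slp1C (κ : ℕ → F → ℂ) (w : Matrix (Fin k) (Fin m) F) : ℂ :=
  ∏ i : Fin k, ∏ j : Fin m, if k + (j : ℕ) = i + 1 then κ (k + j) (w i j) else 1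

theorem slp1_blocks (κ : ℕ → F → ℂ) (a : Matrix (Fin k) (Fin k) F) (w : Matrix (Fin k) (Fin m) F)
    (d : Matrix (Fin m) (Fin m) F) :
    ker κ ((fromBlocks a w 0 d).submatrix finSumFinEquiv.symm finSumFinEquiv.symm) =
      ker κ a * slp1C κ w * ker (fun j => κ (k + j)) d := by
  simp only [ker, slp1C, Fin.prod_univ_add, submatrix_apply, finSumFinEquiv_symm_apply_castAdd,
    finSumFinEquiv_symm_apply_natAdd, Fin.val_castAdd, Fin.val_natAdd]
  congr 1
  · rw [← prod_mul_distrib]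
    rfl
  · refine prod_congr rfl fun i _ => ?_
    rw [prod_eq_one (s := (univ : Finset (Fin k))) fun j _ => if_neg (by omega), one_mul]
    refine prod_congr rfl fun j _ => ?_
    simp only [add_assoc, add_right_inj]
    rfl

variable [Fintype F]

theorem slp1_sum {ψ : AddChar F ℂ} (hψ : ψ ≠ 1) :
    ∑ w : Matrix (Fin k) (Fin m) F, slp1C (lam ψ) w = Fintype.card (Matrix (Fin k) (Fin m) F) := by
  classical
  have h1 : ∀ f : Fin k → Fin m → F → ℂ, ∑ w : Matrix (Fin k) (Fin m) F, ∏ i, ∏ j, f i j (w i j) =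
      ∏ i, ∏ j, ∑ t, f i j t := by
    intro f
    simp only [prod_univ_sum, Fintype.piFinset_univ]
    rfl
  have h2 := h1 fun _ _ _ => 1
  simp only [prod_const_one, sum_const, card_univ, nsmul_eq_mul, mul_one] at h2
  rw [h2]
  refine (h1 fun i j t => if k + (j : ℕ) = i + 1 then lam ψ (k + j) t else 1).trans ?_
  refine prod_congr rfl fun i _ => prod_congr rfl fun j _ => ?_
  split_ifs
  · simp [lam, AddChar.sum_eq_zero_of_ne_one hψ]
  · simp

/-- One term of the pairing. -/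
noncomputable def slp1T (w : F → ℂ) (κ κ' : ℕ → F → ℂ) (g u u' : Matrix (Fin n) (Fin n) F) : ℂ :=
  w g.det * (ind (Uni u ∧ Uni u' ∧ u * g = g * u') * (ker κ u * (starRingEnd ℂ) (ker κ' u')))

omit [Fintype F] in
theorem slp1_idem (ψ : AddChar F ℂ) (w : F → ℂ) (κ : ℕ → F → ℂ)
    (g u u' : Matrix (Fin k ⊕ Fin m) (Fin k ⊕ Fin m) F) :
    slp1T w (lam ψ) κ (g.submatrix finSumFinEquiv.symm finSumFinEquiv.symm)
      (u.submatrix finSumFinEquiv.symm finSumFinEquiv.symm)
      (u'.submatrix finSumFinEquiv.symm finSumFinEquiv.symm) =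
    ind (g.toBlocks₂₁ = 0) * (ind (u.toBlocks₂₁ = 0) * (ind (u'.toBlocks₂₁ = 0) *
      slp1T w (lam ψ) κ (g.submatrix finSumFinEquiv.symm finSumFinEquiv.symm)
        (u.submatrix finSumFinEquiv.symm finSumFinEquiv.symm)
        (u'.submatrix finSumFinEquiv.symm finSumFinEquiv.symm))) := by
  by_cases h0 : slp1T w (lam ψ) κ (g.submatrix finSumFinEquiv.symm finSumFinEquiv.symm)
      (u.submatrix finSumFinEquiv.symm finSumFinEquiv.symm)
      (u'.submatrix finSumFinEquiv.symm finSumFinEquiv.symm) = 0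
  · rw [h0, mul_zero, mul_zero, mul_zero]
  · have h1 := mul_ne_zero_iff.1 (mul_ne_zero_iff.1 h0).2
    obtain ⟨h2, h3, h4⟩ := not_not.1 fun h => h1.1 (ind_neg h)
    have h5 := slp1_low h2 h3 h4 (fun i j hij e => (mul_ne_zero_iff.1 h1.2).1
      (prod_eq_zero (mem_univ i) (prod_eq_zero (mem_univ j) (by rw [if_pos hij, e]; simp [lam])))) k
    have h6 : g.toBlocks₂₁ = 0 := by
      ext i j
      simpa [toBlocks₂₁] using h5 (Fin.castAdd m j) j.2 (Fin.natAdd k i) (Nat.le_add_right _ _)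
    rw [ind_pos h6, ind_pos ((uni_blocks u).1 h2).1, ind_pos ((uni_blocks u').1 h3).1, one_mul,
      one_mul, one_mul]

theorem slp1_one {g : Matrix (Fin k) (Fin k) F} (hg : g.det ≠ 0) (x y : Matrix (Fin k) (Fin m) F) :
    ∑ w' : Matrix (Fin k) (Fin m) F, ind (x = g * w' + y) = 1 := by
  have hu : IsUnit g.det := isUnit_iff_ne_zero.2 hg
  rw [sum_eq_single (g⁻¹ * (x - y)) (fun w' _ hw => ind_neg fun h => hw (by
    rw [h, add_sub_cancel_right, nonsing_inv_mul_cancel_left _ _ hu])) (by simp)]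
  exact ind_pos (by rw [mul_nonsing_inv_cancel_left _ _ hu, sub_add_cancel])

theorem slp1_inner (ψ : AddChar F ℂ) (ζ : MulChar F ℂ) {κ : ℕ → F → ℂ} (h : ∀ t, κ k t = 1)
    (g₁ u₁ u₁' : Matrix (Fin k) (Fin k) F) (g₂ u₂ u₂' : Matrix (Fin m) (Fin m) F)
    (v w : Matrix (Fin k) (Fin m) F) :
    ∑ w' : Matrix (Fin k) (Fin m) F, slp1T ζ (lam ψ) κ
      ((fromBlocks g₁ v 0 g₂).submatrix finSumFinEquiv.symm finSumFinEquiv.symm)
      ((fromBlocks u₁ w 0 u₂).submatrix finSumFinEquiv.symm finSumFinEquiv.symm)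
      ((fromBlocks u₁' w' 0 u₂').submatrix finSumFinEquiv.symm finSumFinEquiv.symm) =
    slp1T ζ (lam ψ) κ g₁ u₁ u₁' *
      (slp1T ζ (lam ψ) (fun j => κ (k + j)) g₂ u₂ u₂' * slp1C (lam ψ) w) := by
  have h1 : ∀ w' : Matrix (Fin k) (Fin m) F, slp1T ζ (lam ψ) κ
      ((fromBlocks g₁ v 0 g₂).submatrix finSumFinEquiv.symm finSumFinEquiv.symm)
      ((fromBlocks u₁ w 0 u₂).submatrix finSumFinEquiv.symm finSumFinEquiv.symm)
      ((fromBlocks u₁' w' 0 u₂').submatrix finSumFinEquiv.symm finSumFinEquiv.symm) =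
      slp1T ζ (lam ψ) κ g₁ u₁ u₁' *
      (slp1T ζ (lam ψ) (fun j => κ (k + j)) g₂ u₂ u₂' * slp1C (lam ψ) w) *
        ind (u₁ * v + w * g₂ = g₁ * w' + v * u₂') := by
    intro w'
    have h2 : ((fromBlocks u₁ w 0 u₂).submatrix finSumFinEquiv.symm finSumFinEquiv.symm *
        (fromBlocks g₁ v 0 g₂).submatrix finSumFinEquiv.symm finSumFinEquiv.symm =
        (fromBlocks g₁ v 0 g₂).submatrix finSumFinEquiv.symm finSumFinEquiv.symm *
        (fromBlocks u₁' w' 0 u₂').submatrix finSumFinEquiv.symm finSumFinEquiv.symm) ↔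
        u₁ * g₁ = g₁ * u₁' ∧ u₁ * v + w * g₂ = g₁ * w' + v * u₂' ∧ u₂ * g₂ = g₂ * u₂' := by
      rw [submatrix_mul_equiv, submatrix_mul_equiv]
      rw [← reindex_apply, ← reindex_apply, (reindex _ _).injective.eq_iff, fromBlocks_multiply, fromBlocks_multiply, fromBlocks_inj]
      simp
    have h3 : (fun j => lam ψ (k + j)) = lam ψ := rfl
    simp only [slp1T, h2, uni_blocks, slp1_blocks (lam ψ), ker_blocks h, h3, ind_and,
      toBlocks_fromBlocks₁₁, toBlocks_fromBlocks₂₂, toBlocks_fromBlocks₂₁, det_submatrix_equiv_self,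
      det_fromBlocks_zero₂₁, map_mul, ind_pos trivial]
    ring
  simp only [h1, ← mul_sum]
  by_cases hg : g₁.det = 0
  · simp [slp1T, hg, MulChar.map_zero]
  · rw [slp1_one hg, mul_one]

variable [DecidableEq F]

theorem PW_lam {ψ : AddChar F ℂ} (hψ : ψ ≠ 1) (ζ : MulChar F ℂ) {κ : ℕ → F → ℂ}
    (h : ∀ t, κ k t = 1) : PW ζ (k + m) (lam ψ) κ =
      PW ζ k (lam ψ) κ * PW ζ m (lam ψ) fun j => κ (k + j) := by
  have h1 := uc_ne (F := F) (n := k)
  have h2 := uc_ne (F := F) (n := m)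
  have h3 := mat_ne (F := F) (α := Fin k) (β := Fin m)
  have h4 : ∑ g, ∑ u, ∑ u', slp1T (n := k + m) ζ (lam ψ) κ g u u' =
      (∑ g, ∑ u, ∑ u', slp1T (n := k) ζ (lam ψ) κ g u u') *
      (∑ g, ∑ u, ∑ u', slp1T (n := m) ζ (lam ψ) (fun j => κ (k + j)) g u u') *
        (Fintype.card (Matrix (Fin k) (Fin m) F) : ℂ) ^ 2 := by
    rw [← sum_sub finSumFinEquiv.symm finSumFinEquiv.symm]
    rw [sum_congr rfl fun g _ => (sum_sub finSumFinEquiv.symm finSumFinEquiv.symm _).symm]
    rw [sum_congr rfl fun g _ => sum_congr rfl fun u _ =>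
      (sum_sub finSumFinEquiv.symm finSumFinEquiv.symm _).symm]
    rw [sum_congr rfl fun g _ => sum_congr rfl fun u _ => sum_congr rfl fun u' _ =>
      slp1_idem ψ ζ κ g u u']
    simp only [← mul_sum]
    simp only [sum_blocks, slp1_inner ψ ζ h]
    simp only [← mul_sum, ← sum_mul, slp1_sum hψ, sum_const, card_univ, nsmul_eq_mul]
    ring
  change (∑ g, ∑ u, ∑ u', slp1T (n := k + m) ζ (lam ψ) κ g u u') / _ =
    (∑ g, ∑ u, ∑ u', slp1T (n := k) ζ (lam ψ) κ g u u') / _ *
      ((∑ g, ∑ u, ∑ u', slp1T (n := m) ζ (lam ψ) (fun j => κ (k + j)) g u u') / _)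
  rw [h4, uc_split]
  field_simp

end Pool.Agent.SemiProp.GLn
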