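import Pool.Agent.Lib.MP_c1c6b6_al.SL0

set_option autoImplicit false

open Finset Matrix

namespace Pool.Agent.SemiProp.GLn

variable {F : Type} [Field F] {k m n : ℕ}

/-- The block radical. -/
def slp2_Rad (k : ℕ) (y : Matrix (Fin n) (Fin n) F) : Prop :=
  Uni y ∧ ∀ i j : Fin n, (j : ℕ) = i + 1 → (j : ℕ) ≠ k → y i j = 0

theorem slp2_rad_one : slp2_Rad k (1 : Matrix (Fin n) (Fin n) F) :=
  ⟨glg_uni_one, fun i j h _ => Matrix.one_apply_ne fun e => by rw [e] at h; omega⟩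

theorem slp2_ker_rad {κ : ℕ → F → ℂ} (h : ∀ t, κ k t = 1) {y z u : Matrix (Fin n) (Fin n) F}
    (hy : slp2_Rad k y) (hz : slp2_Rad k z) (hu : Uni u) : ker κ (y * u * z) = ker κ u := by
  refine prod_congr rfl fun i _ => prod_congr rfl fun j _ => ?_
  split_ifs with h1
  · by_cases h2 : (j : ℕ) = k
    · rw [h2, h, h]
    · rw [(hy.1.gMul hu).gSuper hz.1 h1, hy.1.gSuper hu h1, hy.2 i j h1 h2, hz.2 i j h1 h2,
        zero_add, add_zero]
  · rfl

theorem slp2_ker_mul (ψ : AddChar F ℂ) {x u : Matrix (Fin n) (Fin n) F} (hx : Uni x)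
    (hu : Uni u) : ker (fun _ => ψ) (x * u) = ker (fun _ => ψ) x * ker (fun _ => ψ) u := by
  unfold ker
  rw [← prod_mul_distrib]
  refine prod_congr rfl fun i _ => ?_
  rw [← prod_mul_distrib]
  refine prod_congr rfl fun j _ => ?_
  split_ifs with h
  · rw [hx.gSuper hu h]
    exact AddChar.map_add_eq_mul ψ _ _
  · rw [mul_one]

theorem slp2_ker_one (ψ : AddChar F ℂ) :
    ker (fun _ => ψ) (1 : Matrix (Fin n) (Fin n) F) = 1 := by
  refine prod_eq_one fun i _ => prod_eq_one fun j _ => ?_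
  split_ifs with h
  · rw [Matrix.one_apply_ne fun e => by rw [e] at h; omega]
    exact AddChar.map_zero_eq_one ψ
  · rfl

theorem slp2_inv {x : Matrix (Fin n) (Fin n) F} (hx : Uni x) : x * x⁻¹ = 1 ∧ x⁻¹ * x = 1 := by
  have hu : IsUnit x.det := by rw [hx.det]; exact isUnit_one
  exact ⟨Matrix.mul_nonsing_inv x hu, Matrix.nonsing_inv_mul x hu⟩

/-- The order preserving identification. -/
def slp2_e (h : k + m = n) : Fin k ⊕ Fin m ≃ Fin n := finSumFinEquiv.trans (finCongr h)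

theorem slp2_uni (h : k + m = n) (s : Matrix (Fin k ⊕ Fin m) (Fin k ⊕ Fin m) F) :
    Uni (s.submatrix (slp2_e h).symm (slp2_e h).symm) ↔
      s.toBlocks₂₁ = 0 ∧ Uni s.toBlocks₁₁ ∧ Uni s.toBlocks₂₂ := by
  subst h
  exact uni_blocks s

omit [Field F] in
theorem slp2_kerb (h : k + m = n) {κ : ℕ → F → ℂ} (hκ : ∀ t, κ k t = 1)
    (s : Matrix (Fin k ⊕ Fin m) (Fin k ⊕ Fin m) F) :
    ker κ (s.submatrix (slp2_e h).symm (slp2_e h).symm) =
      ker κ s.toBlocks₁₁ * ker (fun j => κ (k + j)) s.toBlocks₂₂ := by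
  subst h
  exact ker_blocks hκ s

theorem slp2_e_inl (h : k + m = n) (i : Fin k) : (slp2_e h (.inl i) : ℕ) = i := rfl

theorem slp2_e_inr (h : k + m = n) (i : Fin m) : (slp2_e h (.inr i) : ℕ) = k + i := rfl

theorem slp2_ker_diag (h : k + m = n) (ψ : AddChar F ℂ) (a : Matrix (Fin k) (Fin k) F)
    (d : Matrix (Fin m) (Fin m) F) :
    ker (fun _ => ψ) ((fromBlocks a 0 0 d).submatrix (slp2_e h).symm (slp2_e h).symm) =
      ker (fun _ => ψ) a * ker (fun _ => ψ) d := by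
  have h1 := slp2_kerb h (κ := fun j t => if j = k then 1 else ψ t) (fun t => if_pos rfl)
    (fromBlocks a 0 0 d)
  rw [toBlocks_fromBlocks₁₁, toBlocks_fromBlocks₂₂,
    ker_congr (κ' := fun _ => ψ) (fun j _ hj => funext fun t => if_neg hj.ne) a,
    ker_congr (κ' := fun _ => ψ) (fun j hj _ => funext fun t => if_neg (by omega)) d] at h1
  rw [← h1]
  refine prod_congr rfl fun i _ => prod_congr rfl fun j _ => ?_
  beta_reduce
  split_ifs with h2 h3
  · obtain ⟨i, rfl⟩ := (slp2_e h).surjective i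
    obtain ⟨j, rfl⟩ := (slp2_e h).surjective j
    simp only [submatrix_apply, Equiv.symm_apply_apply]
    rcases i with i | i <;> rcases j with j | j
    · rw [slp2_e_inl] at h3
      omega
    · exact AddChar.map_zero_eq_one ψ
    · exact AddChar.map_zero_eq_one ψ
    · rw [slp2_e_inr, slp2_e_inr] at h2
      rw [slp2_e_inr] at h3
      omega
  · rfl
  · rfl

theorem slp2_rad_block (h : k + m = n) (v : Matrix (Fin k) (Fin m) F) :
    slp2_Rad k ((fromBlocks 1 v 0 1).submatrix (slp2_e h).symm (slp2_e h).symm) := by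
  refine ⟨(slp2_uni h _).2 ⟨rfl, glg_uni_one, glg_uni_one⟩, fun i j h2 h3 => ?_⟩
  obtain ⟨i, rfl⟩ := (slp2_e h).surjective i
  obtain ⟨j, rfl⟩ := (slp2_e h).surjective j
  simp only [submatrix_apply, Equiv.symm_apply_apply]
  rcases i with i | i <;> rcases j with j | j
  · rw [slp2_e_inl, slp2_e_inl] at h2
    exact Matrix.one_apply_ne fun e => by rw [e] at h2; omega
  · rw [slp2_e_inl, slp2_e_inr] at h2
    rw [slp2_e_inr] at h3
    omega
  · rfl
  · rw [slp2_e_inr, slp2_e_inr] at h2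
    exact Matrix.one_apply_ne fun e => by rw [e] at h2; omega

theorem slp2_det (A : Matrix (Fin k) (Fin k) F) (B : Matrix (Fin m) (Fin m) F) :
    ((fromBlocks 0 B A 0).submatrix (slp2_e (add_comm m k)).symm (slp2_e rfl).symm).det =
      (-1) ^ (k * m) * (A.det * B.det) := by
  have h1 : (fromBlocks 0 B A 0).submatrix (slp2_e (add_comm m k)).symm (slp2_e rfl).symm =
      (fromBlocks A 0 0 B).reindex ((Equiv.sumComm _ _).trans (slp2_e (add_comm m k)))
        (slp2_e rfl) := by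
    ext i j
    obtain ⟨i, rfl⟩ := (slp2_e (add_comm m k)).surjective i
    obtain ⟨j, rfl⟩ := (slp2_e (rfl : k + m = k + m)).surjective j
    rcases i with i | i <;> rcases j with j | j <;> simp
  have h2 : (fromBlocks A 0 0 B).reindex ((Equiv.sumComm _ _).trans (slp2_e (add_comm m k)))
        (slp2_e rfl) = ((fromBlocks A 0 0 B).reindex (slp2_e rfl) (slp2_e rfl)).submatrix
        ((slp2_e (add_comm m k)).symm.trans ((Equiv.sumComm _ _).trans (slp2_e rfl))) id := by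
    ext i j
    simp
  rw [h1, h2, det_permute, det_reindex_self, det_fromBlocks_zero₂₁]
  congr 1
  rw [← Equiv.Perm.sign_symm, Equiv.Perm.sign_eq_prod_prod_Ioi]
  simp only [← prod_ite_mem_eq (Ioi _), mem_Ioi]
  simp_rw [← (slp2_e (rfl : k + m = k + m)).prod_comp]
  simp only [Fintype.prod_sum_type, Fin.lt_def]
  have a1 : ∀ (x : Fin k) (i : Fin m), (x : ℕ) < k + i := fun x i => by omega
  have a2 : ∀ (x : Fin k) (i : Fin m), ¬ m + (x : ℕ) < i := fun x i => by omega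
  have a3 : ∀ (x : Fin m) (i : Fin k), ¬ k + (x : ℕ) < i := fun x i => by omega
  have a4 : ∀ p : Prop, ∀ [Decidable p], (if p then if p then (1 : ℤˣ) else -1 else 1) = 1 :=
    fun p _ => by split_ifs <;> rfl
  simp [slp2_e_inl, slp2_e_inr, a1, a2, a3, a4, ← pow_mul, mul_comm]

variable [Fintype F]

theorem slp2_sum {P Q : Matrix (Fin n) (Fin n) F} (hP : Uni P) (hQ : Uni Q)
    (f : Matrix (Fin n) (Fin n) F → ℂ) :
    ∑ u, ind (Uni u) * f u = ∑ u, ind (Uni u) * f (P * u * Q) := by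
  have e1 : ∀ u : Matrix (Fin n) (Fin n) F, P⁻¹ * (P * u * Q) * Q⁻¹ = u := fun u => by
    rw [← Matrix.mul_assoc, ← Matrix.mul_assoc, (slp2_inv hP).2, Matrix.one_mul, Matrix.mul_assoc,
      (slp2_inv hQ).1, Matrix.mul_one]
  have e2 : ∀ u : Matrix (Fin n) (Fin n) F, P * (P⁻¹ * u * Q⁻¹) * Q = u := fun u => by
    rw [← Matrix.mul_assoc, ← Matrix.mul_assoc, (slp2_inv hP).1, Matrix.one_mul, Matrix.mul_assoc,
      (slp2_inv hQ).2, Matrix.mul_one]
  refine (Fintype.sum_equiv ⟨fun u => P * u * Q, fun u => P⁻¹ * u * Q⁻¹, e1, e2⟩ _ _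
    fun u => ?_).symm
  refine congrArg (· * _) (ind_congr ⟨fun h => (hP.gMul h).gMul hQ, fun h => ?_⟩)
  exact e1 u ▸ (hP.gInv.gMul h).gMul hQ.gInv

/-- The inner sum. -/
noncomputable def slp2_S (ψ : AddChar F ℂ) (κ : ℕ → F → ℂ) (g : Matrix (Fin n) (Fin n) F) : ℂ :=
  ∑ u, ind (Uni u) * ∑ u', ind (Uni u') *
    (ind (u * g = g * u') * (ker (fun _ => ψ) u * (starRingEnd ℂ) (ker κ u')))

theorem slp2_PW (ψ : AddChar F ℂ) (κ : ℕ → F → ℂ) (w : F → ℂ) : PW w n (fun _ => ψ) κ =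
    (∑ g : Matrix (Fin n) (Fin n) F, w g.det * slp2_S ψ κ g) / uc F n ^ 2 := by
  simp only [PW, slp2_S, ind_and, mul_sum, mul_assoc]

theorem slp2_move (ψ : AddChar F ℂ) {κ : ℕ → F → ℂ} (h : ∀ t, κ k t = 1)
    {g g' x x' y y' : Matrix (Fin n) (Fin n) F} (hx : Uni x) (hx' : Uni x') (hy : slp2_Rad k y)
    (hy' : slp2_Rad k y') (h1 : g' * y = x * g) (h2 : x' * g' = g * y') :
    slp2_S ψ κ g' = ker (fun _ => ψ) x * ker (fun _ => ψ) x' * slp2_S ψ κ g := by
  rw [slp2_S, slp2_S, slp2_sum hx hx', mul_sum]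
  refine sum_congr rfl fun u _ => ?_
  by_cases hu : Uni u
  swap
  · rw [ind_neg hu, zero_mul, zero_mul, mul_zero]
  rw [slp2_sum hy.1 hy'.1, mul_left_comm, mul_sum _ _ (_ * _)]
  refine congrArg _ (sum_congr rfl fun u' _ => ?_)
  by_cases hu' : Uni u'
  swap
  · rw [ind_neg hu', zero_mul, zero_mul, mul_zero]
  have e1 : x * u * x' * g' = x * (u * g) * y' := by
    simp only [Matrix.mul_assoc, h2]
  have e2 : g' * (y * u' * y') = x * (g * u') * y' := by
    simp only [← Matrix.mul_assoc, h1]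
  have e3 : x * (u * g) * y' = x * (g * u') * y' ↔ u * g = g * u' := by
    refine ⟨fun e => ?_, fun e => by rw [e]⟩
    have := congrArg (fun M => x⁻¹ * M * y'⁻¹) e
    simp only [← Matrix.mul_assoc, (slp2_inv hx).2, Matrix.one_mul] at this
    simpa only [Matrix.mul_assoc, (slp2_inv hy'.1).1, Matrix.mul_one] using this
  rw [e1, e2, e3, slp2_ker_rad h hy hy' hu', slp2_ker_mul ψ (hx.gMul hu) hx', slp2_ker_mul ψ hx hu]
  ring

omit [Fintype F] in
theorem slp2_conj_rad {R : Matrix (Fin n) (Fin n) F} (hR : Uni R) {p q : Fin n} (hp : (p : ℕ) < k)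
    (hq : k ≤ (q : ℕ)) (a : F) : slp2_Rad k (R * glgE p q a * R⁻¹) := by
  have hpq : p < q := by show (p : ℕ) < q; omega
  have hE := glgE_uni hpq a
  refine ⟨(hR.gMul hE).gMul hR.gInv, fun i j h1 h2 => ?_⟩
  have hne : i ≠ j := fun e => by rw [e] at h1; omega
  have h3 := hR.gSuper hR.gInv h1
  rw [(slp2_inv hR).1, Matrix.one_apply_ne hne] at h3
  rw [(hR.gMul hE).gSuper hR.gInv h1, hR.gSuper hE h1, glgE_apply, Matrix.one_apply_ne hne,
    if_neg, add_zero, add_zero, h3]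
  rintro ⟨rfl, rfl⟩
  omega

theorem slp2_zero {ψ : AddChar F ℂ} (hψ : ψ ≠ 1) {κ : ℕ → F → ℂ} (h : ∀ t, κ k t = 1)
    (s : Matrix (Fin m ⊕ Fin k) (Fin k ⊕ Fin m) F) (hA : s.toBlocks₂₁.det = 0)
    (hg : (s.submatrix (slp2_e (add_comm m k)).symm (slp2_e rfl).symm).det ≠ 0) :
    slp2_S ψ κ (s.submatrix (slp2_e (add_comm m k)).symm (slp2_e rfl).symm) = 0 := by
  obtain ⟨g, hgd⟩ : ∃ g, g = s.submatrix (slp2_e (add_comm m k)).symm (slp2_e rfl).symm := ⟨_, rfl⟩
  rw [← hgd] at hg ⊢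
  obtain ⟨L, R, hL, hR, hN⟩ := glg_bruhat g (k + m)
  have hdet : (L * g * R).det ≠ 0 := by
    rwa [det_mul, det_mul, hL.det, hR.det, one_mul, mul_one]
  obtain ⟨w, t, hw, ht, hm⟩ := glg_mono hdet hN
  obtain ⟨z, hz⟩ : ∃ z, ψ z ≠ 1 := by
    by_contra h0
    push Not at h0
    exact hψ (AddChar.ext _ _ h0)
  by_cases hex : ∃ p q : Fin (k + m), (p : ℕ) < k ∧ k ≤ (q : ℕ) ∧ (w q : ℕ) = w p + 1
  · obtain ⟨p, q, hp, hq, hpq⟩ := hex
    have h1 := glg_mono_E hw hm p q (a := z * t q / t p) (a' := z) (by have := ht p; field_simp)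
    have hE : Uni (glgE (w p) (w q) z) := glgE_uni (by show (w p : ℕ) < w q; omega) z
    have h2 := slp2_move ψ h (g := g) (g' := g) (x := L⁻¹ * glgE (w p) (w q) z * L) (x' := 1)
      ((hL.gInv.gMul hE).gMul hL) glg_uni_one (slp2_conj_rad hR hp hq (z * t q / t p))
      slp2_rad_one ?_ (by rw [Matrix.one_mul, Matrix.mul_one])
    · rw [slp2_ker_one, slp2_ker_mul ψ (hL.gInv.gMul hE) hL, slp2_ker_mul ψ hL.gInv hE,
        mul_right_comm (ker _ L⁻¹), ← slp2_ker_mul ψ hL.gInv hL, (slp2_inv hL).2, slp2_ker_one,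
        glg_ker_E, if_pos hpq, one_mul, mul_one] at h2
      by_contra h3
      exact hz (mul_right_cancel₀ h3 (h2.symm.trans (one_mul _).symm))
    · have := congrArg (fun M => L⁻¹ * M * R⁻¹) h1
      simp only [← Matrix.mul_assoc, (slp2_inv hL).2, Matrix.one_mul] at this ⊢
      rw [this]
      simp only [Matrix.mul_assoc, (slp2_inv hR).1, Matrix.mul_one]
  · exfalso
    push Not at hex
    have hs : Function.Surjective w := Finite.injective_iff_surjective.1 hw
    have htop : ∀ p : Fin k, m ≤ (w (Fin.castAdd m p) : ℕ) := fun p => by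
      have h1 : ∀ d : ℕ, ∀ i : Fin (k + m), (i : ℕ) = w (Fin.castAdd m p) + d →
          ∃ j : Fin k, w (Fin.castAdd m j) = i := by
        intro d
        induction d with
        | zero => exact fun i hi => ⟨p, Fin.ext hi.symm⟩
        | succ d ih =>
          intro i hi
          obtain ⟨j, hj⟩ := ih ⟨w (Fin.castAdd m p) + d, by omega⟩ rfl
          obtain ⟨q, rfl⟩ := hs i
          by_cases hq : (q : ℕ) < k
          · exact ⟨⟨q, hq⟩, rfl⟩
          · exact absurd (by rw [hj, hi]; rfl) (hex (Fin.castAdd m j) q j.2 (not_lt.1 hq))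
      have h2 : Ici (w (Fin.castAdd m p)) ⊆ univ.image fun j : Fin k => w (Fin.castAdd m j) :=
        fun i hi => by
          obtain ⟨d, hd⟩ := Nat.exists_eq_add_of_le (Fin.le_def.1 (mem_Ici.1 hi))
          obtain ⟨j, hj⟩ := h1 d i hd
          exact mem_image.2 ⟨j, mem_univ _, hj⟩
      have h3 := (card_le_card h2).trans card_image_le
      rw [Fin.card_Ici, card_univ, Fintype.card_fin] at h3
      omega
    obtain ⟨L, rfl⟩ : ∃ L' : Matrix (Fin m ⊕ Fin k) (Fin m ⊕ Fin k) F,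
        L = L'.submatrix (slp2_e (add_comm m k)).symm (slp2_e (add_comm m k)).symm :=
      ⟨L.submatrix (slp2_e (add_comm m k)) (slp2_e (add_comm m k)), by simp⟩
    obtain ⟨R, rfl⟩ : ∃ R' : Matrix (Fin k ⊕ Fin m) (Fin k ⊕ Fin m) F,
        R = R'.submatrix (slp2_e rfl).symm (slp2_e rfl).symm :=
      ⟨R.submatrix (slp2_e rfl) (slp2_e rfl), by simp⟩
    rw [hgd, submatrix_mul_equiv, submatrix_mul_equiv] at hm hdet
    have h4 : (L * s * R).toBlocks₁₁ = 0 := by
      ext i j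
      have h5 := hm (slp2_e (add_comm m k) (.inl i)) (slp2_e rfl (.inl j))
      rw [if_neg fun e => by
        have h6 := htop j
        have h7 : (i : ℕ) = w (Fin.castAdd m j) := congrArg Fin.val e
        omega] at h5
      simpa [toBlocks₁₁] using h5
    have h5 : (L * s * R).toBlocks₂₁.det = 0 := by
      have h6 : (L * s * R).toBlocks₂₁ = L.toBlocks₂₂ * s.toBlocks₂₁ * R.toBlocks₁₁ := by
        rw [eq_blocks ((slp2_uni _ L).1 hL).1, eq_blocks ((slp2_uni _ R).1 hR).1,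
          ← fromBlocks_toBlocks s, fromBlocks_multiply, fromBlocks_multiply]
        simp
      rw [h6, det_mul, det_mul, hA, mul_zero, zero_mul]
    obtain ⟨v, hv, hv0⟩ := Matrix.exists_mulVec_eq_zero_iff.2 h5
    refine hdet (Matrix.exists_mulVec_eq_zero_iff.1
      ⟨Sum.elim v 0 ∘ (slp2_e rfl).symm, fun e => hv (funext fun j => ?_), ?_⟩)
    · simpa using congrFun e (slp2_e rfl (.inl j))
    · rw [submatrix_mulVec_equiv, ← fromBlocks_toBlocks (L * s * R), h4]
      simp [Function.comp_assoc, fromBlocks_mulVec, hv0]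

end Pool.Agent.SemiProp.GLn
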