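import Pool.Agent.Lib.MP_c1c6b6_al.GLA5

set_option autoImplicit false

open Finset Matrix

namespace Pool.Agent.SemiProp.GLn

variable {I : Type} [DecidableEq I] (S : PSH I)

/-- The level of `x` along `r` is `k`. -/
def sls_Lv (r x : I) (k : ℕ) : Prop := ∃ p q, S.Pure r p k ∧ S.Free r q ∧ S.c p q x ≠ 0

variable {S}

theorem sls_mk {x₁ x₂ y₁ y₂ z : I} (h1 : S.c x₁ x₂ z ≠ 0) (h2 : S.c y₁ y₂ z ≠ 0) :
    ∃ a b d e, S.c a b x₁ ≠ 0 ∧ S.c d e x₂ ≠ 0 ∧ S.c a d y₁ ≠ 0 ∧ S.c b e y₂ ≠ 0 := by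
  have h3 : ∑ w ∈ S.lev (S.deg x₁ + S.deg x₂), S.c x₁ x₂ w * S.c y₁ y₂ w ≠ 0 := fun h0 =>
    mul_ne_zero h1 h2 (sum_eq_zero_iff.1 h0 z ((S.mem_lev _ _).2 (S.c_deg _ _ _ h1)))
  rw [S.mackey'] at h3
  obtain ⟨p, _, hp⟩ := exists_ne_zero_of_sum_ne_zero h3
  obtain ⟨q, _, hq⟩ := exists_ne_zero_of_sum_ne_zero hp
  simp only [ne_eq, mul_eq_zero, not_or] at hq
  exact ⟨p.1, p.2, q.1, q.2, hq.1.1.1, hq.1.1.2, hq.1.2, hq.2⟩

theorem sls_ex {r : I} (hr : S.Cusp r) (x : I) : ∃ k, sls_Lv S r x k := by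
  obtain ⟨p, k, q, h1, h2, h3⟩ := hr.decomp _ x rfl
  exact ⟨k, p, q, h1, h2, h3⟩

theorem sls_uniq {r x : I} (hr : S.Cusp r) {i j : ℕ} (hi : sls_Lv S r x i) (hj : sls_Lv S r x j) :
    i = j := by
  obtain ⟨p, q, a1, a2, a3⟩ := hi
  obtain ⟨p', q', b1, b2, b3⟩ := hj
  obtain ⟨a, b, d, e, c1, c2, c3, c4⟩ := sls_mk a3 b3
  obtain ⟨_, _, _, _, h1⟩ := hr.split a1 c1
  obtain ⟨_, _, _, _, h2⟩ := hr.split b1 c3
  rw [h1.eq_o (b2.left c4)] at c1
  rw [h2.eq_o (a2.left c2)] at c3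
  rw [← S.eq_of_right c1] at a1
  rw [← S.eq_of_right c3] at b1
  exact hr.uniq a1 b1

theorem sls_free_mul {r q q' x : I} (hr : S.Cusp r) (hq : S.Free r q) (hq' : S.Free r q')
    (h : S.c q q' x ≠ 0) : S.Free r x := by
  intro b
  by_contra hb
  obtain ⟨a, a', d, e, c1, _, c3, c4⟩ := sls_mk hb h
  rcases hr.2 _ _ c1 with h1 | h1
  · rw [h1] at c1
    rw [S.eq_of_left c1] at c4
    exact c4 (hq' e)
  · rw [h1] at c1
    rw [S.eq_of_right c1] at c3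
    exact c3 (hq d)

theorem sls_add {r a b x : I} (hr : S.Cusp r) {i j : ℕ} (hi : sls_Lv S r a i)
    (hj : sls_Lv S r b j) (h : S.c a b x ≠ 0) : sls_Lv S r x (i + j) := by
  obtain ⟨p, q, a1, a2, a3⟩ := hi
  obtain ⟨p', q', b1, b2, b3⟩ := hj
  obtain ⟨w, c1, c2⟩ := S.assoc_ne a3 h
  rw [S.c_comm] at b3
  obtain ⟨w', d1, d2⟩ := S.assoc_ne' b3 c1
  rw [S.c_comm] at d2
  obtain ⟨u, e1, e2⟩ := S.assoc_ne' d2 c2
  exact ⟨u, w', a1.add b1 e1, sls_free_mul hr a2 b2 d1, e2⟩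

theorem sls_zero (r x : I) : sls_Lv S r x 0 ↔ S.Free r x := by
  constructor
  · rintro ⟨p, q, h1, h2, h3⟩
    rw [(S.pure_zero _ _).1 h1] at h3
    exact S.eq_of_left h3 ▸ h2
  · intro h
    exact ⟨S.o, x, (S.pure_zero _ _).2 rfl, h, by rw [S.c_left, if_pos rfl]; exact one_ne_zero⟩

theorem sls_free_o {r : I} (hr : S.Cusp r) : S.Free r S.o := by
  intro b
  by_contra h
  have h1 := S.c_deg _ _ _ h
  have h2 := S.deg_pos hr.1
  rw [S.deg_o'] at h1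
  omega

theorem sls_other {r r' p : I} (hr : S.Cusp r) (hr' : S.Cusp r') (hne : r' ≠ r) {k : ℕ}
    (hp : S.Pure r p k) : sls_Lv S r' p 0 := by
  refine (sls_zero _ _).2 fun b => ?_
  by_contra h
  obtain ⟨i, _, _, h1, _⟩ := hr.split hp h
  cases i with
  | zero => exact hr'.1 ((S.pure_zero _ _).1 h1)
  | succ i =>
    obtain ⟨a, _, h2⟩ := h1.succ
    rcases hr'.2 _ _ h2 with h3 | h3
    · exact hr.1 h3
    · rw [h3] at h2
      exact hne (S.eq_of_right h2).symm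

theorem sls_basis {r p q x : I} (hr : S.Cusp r) {k : ℕ} (hp : S.Pure r p k) (hq : S.Free r q)
    (h : S.c p q x ≠ 0) : S.B p * S.B q = S.B x := by
  obtain ⟨x', hx'⟩ := hr.basis hp hq
  have e0 : x = x' := S.co_B_ne (by rw [← hx', S.co_B_mul]; exact Nat.cast_ne_zero.2 h)
  rw [hx', e0]

theorem sls_ev {η : I → ℤ} (hm : S.Mult η) {p q x : I} (h : S.B p * S.B q = S.B x) :
    η x = η p * η q := by
  have h1 := hm.ev (S.B p) (S.B q)
  rwa [h, S.lc_B, S.lc_B, S.lc_B] at h1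

theorem sls_one {η : I → ℤ} {r : I} {k : ℕ} (h : S.ip (S.H r η k) (S.H r η k) = 1) :
    ∃ y, S.Pure r y k ∧ η y ≠ 0 ∧ ∀ a, S.Pure r a k → η a ≠ 0 → a = y := by
  classical
  obtain ⟨y, ε, h1, h2⟩ := S.norm_one (S.H r η k)
    (fun h0 => by rw [h0, map_zero] at h; exact zero_ne_one h) h.le
  have h3 := congrArg (S.co y) h2
  rw [S.co_H, map_zsmul, S.co_B_self, smul_eq_mul, mul_one] at h3
  have h4 : S.Pure r y k := by
    by_contra h5
    rw [if_neg h5] at h3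
    omega
  rw [if_pos h4] at h3
  refine ⟨y, h4, by omega, fun a ha hb => ?_⟩
  have h5 := congrArg (S.co a) h2
  rw [S.co_H, if_pos ha, map_zsmul, smul_eq_mul] at h5
  exact S.co_B_ne fun h6 => hb (by rw [h5, h6, mul_zero])

theorem sls_inj {η : I → ℤ} (hm : S.Mult η)
    (hn : ∀ r, S.Cusp r → ∀ k, S.ip (S.H r η k) (S.H r η k) = 1) (n : ℕ) :
    ∀ x y, S.deg x = n → η x ≠ 0 → η y ≠ 0 →
      (∀ r, S.Cusp r → ∀ k, sls_Lv S r x k → sls_Lv S r y k) → x = y := by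
  induction n using Nat.strong_induction_on with
  | _ n ih =>
  intro x y hx ex ey h
  by_cases ho : x = S.o
  · by_contra hxy
    obtain ⟨r, hr, hf⟩ := S.exists_cusp _ y rfl fun h1 => hxy (ho.trans h1.symm)
    exact hf ((sls_zero _ _).1 (h r hr 0 ((sls_zero _ _).2 (ho ▸ sls_free_o hr))))
  obtain ⟨r, hr, hf⟩ := S.exists_cusp _ x rfl ho
  obtain ⟨k, p, q, a1, a2, a3⟩ := sls_ex hr x
  obtain ⟨p', q', b1, b2, b3⟩ := h r hr k ⟨p, q, a1, a2, a3⟩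
  have e1 := sls_basis hr a1 a2 a3
  have e2 := sls_basis hr b1 b2 b3
  rw [sls_ev hm e1, mul_ne_zero_iff] at ex
  rw [sls_ev hm e2, mul_ne_zero_iff] at ey
  obtain ⟨z, _, _, hz⟩ := sls_one (hn r hr k)
  have hp : p = p' := (hz p a1 ex.1).trans (hz p' b1 ey.1).symm
  have hpo : p ≠ S.o := fun h1 => hf (by rw [h1] at a3; exact S.eq_of_left a3 ▸ a2)
  have d1 := S.c_deg _ _ _ a3
  have d2 := S.deg_pos hpo
  have hq : q = q' := by
    refine ih (S.deg q) (by omega) q q' rfl ex.2 ey.2 fun r' hr' j hj => ?_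
    by_cases hrr : r' = r
    · subst hrr
      rw [sls_uniq hr' hj ((sls_zero _ _).2 a2)]
      exact (sls_zero _ _).2 b2
    · obtain ⟨j', hj'⟩ := sls_ex hr' q'
      have h1 := h r' hr' _ (sls_add hr' (sls_other hr hr' hrr a1) hj a3)
      have h2 := sls_uniq hr' h1 (sls_add hr' (sls_other hr hr' hrr b1) hj' b3)
      rw [show j = j' by omega]
      exact hj'
  rw [← hp, ← hq, e1] at e2
  exact S.co_B_ne (by rw [← e2, S.co_B_self]; exact one_ne_zero)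

theorem sls_surj {η : I → ℤ} (hm : S.Mult η)
    (hn : ∀ r, S.Cusp r → ∀ k, S.ip (S.H r η k) (S.H r η k) = 1) (n : ℕ) :
    ∀ x, S.deg x = n → ∃ z, η z ≠ 0 ∧ S.deg z = S.deg x ∧
      ∀ r, S.Cusp r → ∀ k, sls_Lv S r x k → sls_Lv S r z k := by
  induction n using Nat.strong_induction_on with
  | _ n ih =>
  intro x hx
  by_cases ho : x = S.o
  · exact ⟨x, by rw [ho, hm.1]; exact one_ne_zero, rfl, fun _ _ _ h => h⟩
  obtain ⟨r, hr, hf⟩ := S.exists_cusp _ x rfl ho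
  obtain ⟨k, p, q, a1, a2, a3⟩ := sls_ex hr x
  have hpo : p ≠ S.o := fun h1 => hf (by rw [h1] at a3; exact S.eq_of_left a3 ▸ a2)
  have d1 := S.c_deg _ _ _ a3
  have d2 := S.deg_pos hpo
  obtain ⟨q', b1, b2, b3⟩ := ih (S.deg q) (by omega) q rfl
  obtain ⟨p', c1, c2, _⟩ := sls_one (hn r hr k)
  have f1 : S.Free r q' := (sls_zero _ _).1 (b3 r hr 0 ((sls_zero _ _).2 a2))
  obtain ⟨z, hz⟩ := hr.basis c1 f1
  have hc : S.c p' q' z ≠ 0 := by
    have h1 := S.co_B_mul p' q' z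
    rw [hz, S.co_B_self] at h1
    omega
  refine ⟨z, by rw [sls_ev hm hz]; exact mul_ne_zero c2 b1, ?_, fun r' hr' j hj => ?_⟩
  · rw [S.c_deg _ _ _ hc, d1, b2, c1.deg_eq, a1.deg_eq]
  · by_cases hrr : r' = r
    · subst hrr
      rw [sls_uniq hr' hj ⟨p, q, a1, a2, a3⟩]
      exact ⟨p', q', c1, f1, hc⟩
    · obtain ⟨j', hj'⟩ := sls_ex hr' q
      rw [sls_uniq hr' hj (sls_add hr' (sls_other hr hr' hrr a1) hj' a3)]
      exact sls_add hr' (sls_other hr hr' hrr c1) (b3 r' hr' j' hj') hc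

theorem sls_map (τ : I ≃ I) (hc : ∀ x y z, S.c (τ x) (τ y) (τ z) = S.c x y z)
    (ho : τ S.o = S.o) {r x : I} {k : ℕ} (h : sls_Lv S r x k) : sls_Lv S (τ r) (τ x) k := by
  have hp : ∀ k p, S.Pure r p k → S.Pure (τ r) (τ p) k := by
    intro k
    induction k with
    | zero => intro p h1; rw [(S.pure_zero _ _).1 h1, ho]; exact (S.pure_zero _ _).2 rfl
    | succ k ih =>
      intro p h1
      obtain ⟨a, h2, h3⟩ := h1.succ
      rw [add_comm]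
      exact ((S.pure_one _ _).2 rfl).add (ih a h2) (by rwa [hc])
  obtain ⟨p, q, h1, h2, h3⟩ := h
  refine ⟨τ p, τ q, hp k p h1, fun b => ?_, by rwa [hc]⟩
  rw [← τ.apply_symm_apply b, hc]
  exact h2 _

theorem sls_int {η η' : I → ℤ} (hm : S.Mult η) (hm' : S.Mult η')
    (hn : ∀ r, S.Cusp r → ∀ k, S.ip (S.H r η k) (S.H r η k) = 1)
    (hn' : ∀ r, S.Cusp r → ∀ k, S.ip (S.H r η' k) (S.H r η' k) = 1) :
    (∀ a a' b x, η' a ≠ 0 → η' a' ≠ 0 → S.c a b x ≠ 0 → S.c a' b x ≠ 0 → a = a') ∧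
    ∃ σ : I → I, (∀ x, η' (σ x) ≠ 0 ∧ S.deg (σ x) = S.deg x) ∧
      ∀ τ : I ≃ I, (∀ x y z, S.c (τ x) (τ y) (τ z) = S.c x y z) → (∀ x, S.deg (τ x) = S.deg x) →
        (∀ x, η (τ x) = η x) → ∀ x y, η x ≠ 0 → η y ≠ 0 → σ y = τ (σ x) → y = τ x := by
  constructor
  · intro a a' b x h1 h2 h3 h4
    refine sls_inj hm' hn' _ a a' rfl h1 h2 fun r hr i hi => ?_
    obtain ⟨j, hj⟩ := sls_ex hr b
    obtain ⟨i', hi'⟩ := sls_ex hr a'
    have h5 := sls_uniq hr (sls_add hr hi hj h3) (sls_add hr hi' hj h4)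
    rw [show i = i' by omega]
    exact hi'
  choose σ s1 s2 s3 using fun x => sls_surj hm' hn' _ x rfl
  refine ⟨σ, fun x => ⟨s1 x, s2 x⟩, fun τ t1 t2 t3 x y hx hy h => ?_⟩
  have ho : τ S.o = S.o := (S.deg_o _).1 (by rw [t2, S.deg_o'])
  refine (sls_inj hm hn _ (τ x) y rfl (by rwa [t3]) hy fun r hr k hk => ?_).symm
  obtain ⟨r, rfl⟩ := τ.surjective r
  have hr₀ : S.Cusp r := by
    refine ⟨fun h1 => hr.1 (by rw [h1, ho]), fun a b h1 => ?_⟩
    rcases hr.2 (τ a) (τ b) (by rwa [t1]) with h2 | h2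
    · exact Or.inl (τ.injective (h2.trans ho.symm))
    · exact Or.inr (τ.injective (h2.trans ho.symm))
  obtain ⟨i, hi⟩ := sls_ex hr₀ x
  obtain ⟨j, hj⟩ := sls_ex hr y
  have h1 := sls_map τ t1 ho (s3 x r hr₀ i hi)
  rw [← h] at h1
  rw [sls_uniq hr hk (sls_map τ t1 ho hi), sls_uniq hr h1 (s3 y _ hr j hj)]
  exact hj

variable (S)

theorem PSH.partner (δ δ' : I → ℂ) (h01 : ∀ x, δ x = 0 ∨ δ x = 1) (ho : δ S.o = 1)
    (ho' : δ' S.o = 1)
    (hmul : ∀ x y, ∑ z ∈ S.lev (S.deg x + S.deg y), (S.c x y z : ℂ) * δ' z = δ' x * δ' y)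
    (hinv : ∀ x, x ≠ S.o → ∑ k ∈ range (S.deg x + 1), ∑ a ∈ S.lev k, ∑ b ∈ S.lev (S.deg x - k),
      (S.c a b x : ℂ) * δ a * δ' b = 0)
    (hc : ∀ x, S.Cusp x → δ' x ≠ 0) :
    (∀ a a' b x, δ' a ≠ 0 → δ' a' ≠ 0 → S.c a b x ≠ 0 → S.c a' b x ≠ 0 → a = a') ∧
    ∃ σ : I → I, (∀ x, δ x ≠ 0 → δ' (σ x) ≠ 0 ∧ S.deg (σ x) = S.deg x) ∧
      ∀ τ : I ≃ I, (∀ x y z, S.c (τ x) (τ y) (τ z) = S.c x y z) → (∀ x, S.deg (τ x) = S.deg x) →
        (∀ x, δ (τ x) = δ x) → ∀ x y, δ x ≠ 0 → δ y ≠ 0 → σ y = τ (σ x) → y = τ x := by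
  have hinv' : ∀ x, x ≠ S.o → ∑ p ∈ S.prs (S.deg x), (S.c p.1 p.2 x : ℂ) * δ p.1 * δ' p.2 = 0 :=
    fun x hx => by rw [S.sum_prs]; exact hinv x hx
  have i1 : ∀ x, δ x ∈ (Int.castRingHom ℂ).range := fun x => by
    rcases h01 x with h | h <;> rw [h]
    · exact zero_mem _
    · exact one_mem _
  have i2 : ∀ n x, S.deg x = n → δ' x ∈ (Int.castRingHom ℂ).range := by
    intro n
    induction n using Nat.strong_induction_on with
    | _ n ih =>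
    intro x hx
    by_cases hxo : x = S.o
    · rw [hxo, ho']; exact one_mem _
    have h1 := hinv' x hxo
    rw [← add_sum_erase _ _ (a := (S.o, x))
      ((S.mem_prs _ _).2 (by simp only [S.deg_o', zero_add]))] at h1
    simp only [S.c_left, if_true, ho, Nat.cast_one, one_mul] at h1
    rw [eq_neg_of_add_eq_zero_left h1]
    refine neg_mem (sum_mem fun p hp => ?_)
    by_cases hcp : S.c p.1 p.2 x = 0
    · rw [hcp]; simp
    have h2 := S.c_deg _ _ _ hcp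
    have h3 : p.1 ≠ S.o := fun h4 => (mem_erase.1 hp).1
      (Prod.ext h4 (S.eq_of_left (by rwa [h4] at hcp)))
    have h4 := S.deg_pos h3
    exact mul_mem (mul_mem (natCast_mem _ _) (i1 _)) (ih (S.deg p.2) (by omega) _ rfl)
  choose η hη using i1
  choose η' hη' using fun x => i2 _ x rfl
  obtain rfl : δ = fun x => (η x : ℂ) := funext fun x => (hη x).symm
  obtain rfl : δ' = fun x => (η' x : ℂ) := funext fun x => (hη' x).symm
  beta_reduce at h01 ho ho' hmul hinv' hc ⊢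
  have g01 : ∀ x, η x = 0 ∨ η x = 1 := fun x => by exact_mod_cast h01 x
  have go : η S.o = 1 := by exact_mod_cast ho
  have go' : η' S.o = 1 := by exact_mod_cast ho'
  have gm' : S.Mult η' := ⟨go', fun x y => by exact_mod_cast hmul x y⟩
  have gi : S.Inv η η' := by
    intro x
    split_ifs with hx
    · rw [hx, sum_eq_single (S.o, S.o)]
      · simp [S.c_left, go, go']
      · intro p hp hne
        have h1 := (S.mem_prs _ _).1 hp
        rw [S.deg_o'] at h1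
        exact absurd (Prod.ext ((S.deg_o _).1 (by omega)) ((S.deg_o _).1 (by omega))) hne
      · intro h1
        exact absurd ((S.mem_prs _ _).2 (by simp only [S.deg_o', add_zero])) h1
    · have h1 := hinv' x hx
      simp only [mul_assoc] at h1
      exact_mod_cast h1
  have gm : S.Mult η := gi.mult gm' go
  have gr : ∀ r, S.Cusp r → η r = 1 := by
    intro r hr
    have h1 := hr.sum fun p => η p.1 * η' p.2
    simp only [smul_eq_mul, gi r, if_neg hr.1, go, go', mul_one, one_mul] at h1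
    have h2 : η' r ≠ 0 := by exact_mod_cast hc r hr
    rcases g01 r with h3 | h3 <;> omega
  obtain ⟨k1, σ, k2, k3⟩ := sls_int gm gm' (fun r hr => gm.norm_H g01 (gr r hr))
    fun r hr => hr.norm_H' gm gm' gi (gm.norm_H g01 (gr r hr))
  simp only [ne_eq, Int.cast_eq_zero, Int.cast_inj]
  exact ⟨k1, σ, fun x _ => k2 x, k3⟩

end Pool.Agent.SemiProp.GLn
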