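import Pool.Agent.Lib.MP_c1c6b6_al.SLG
import Pool.Agent.Lib.MP_c1c6b6_al.HZ5

set_option autoImplicit false

open Finset

namespace Pool.Agent.SemiProp.GLn

theorem slz_per {G : Type} [Group G] [Fintype G] (P : Subgroup G) (f : G → ℤ)
    (h : ∀ d ∈ P, ∀ t, f (t * d) = f t) : (Nat.card P : ℤ) ∣ ∑ t, f t := by
  classical
  have := Fintype.ofFinite (G ⧸ P)
  rw [← Finset.sum_fiberwise univ (fun t : G => (t : G ⧸ P)) f]
  refine dvd_sum fun j _ => ⟨f j.out, ?_⟩
  rw [sum_congr rfl (g := fun _ => f j.out), sum_const, nsmul_eq_mul]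
  · congr 2
    have := QuotientGroup.card_preimage_mk P {j}
    rw [Nat.card_unique (α := ({j} : Set (G ⧸ P))), mul_one] at this
    rw [← this, Nat.card_eq_fintype_card, Fintype.card_subtype]
    exact congrArg card (filter_congr fun _ _ => Iff.rfl)
  · intro t ht
    have e : (j.out : G ⧸ P) = t := by rw [(mem_filter.1 ht).2, QuotientGroup.out_eq']
    have := h _ (QuotientGroup.eq.1 e) j.out
    rwa [mul_inv_cancel_left] at this

theorem slz_index {G : Type} [CommGroup G] [IsCyclic G] (P : Subgroup G) {k : ℕ}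
    (h : ∀ y, y ^ k ∈ P) : P.index ∣ k := by
  have : IsCyclic (G ⧸ P) := isCyclic_of_surjective _ (QuotientGroup.mk'_surjective P)
  rw [Subgroup.index_eq_card, ← IsCyclic.exponent_eq_card]
  refine Monoid.exponent_dvd_of_forall_pow_eq_one fun g => ?_
  obtain ⟨y, rfl⟩ := QuotientGroup.mk_surjective g
  rw [← QuotientGroup.mk_pow, QuotientGroup.eq_one_iff]
  exact h y

theorem slz_nt {q n o s s' : ℕ} (hq : 5 ≤ q) (hq2 : q % 2 = 1) (hn : 0 < n) (h1 : s ∣ q - 1)
    (h2 : s' ∣ q - 1) (h3 : s ∣ n) (h4 : s' ∣ n) (h5 : o ∣ s) (h6 : ¬o ∣ s')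
    (h7 : q ^ (n - n / o) ∣ (s ^ 2 + s' ^ 2) ^ 2) : s' = 1 ∧ (s = 2 ∨ s = 4) := by
  have s0 : 0 < s := Nat.pos_of_dvd_of_pos h3 hn
  have s0' : 0 < s' := Nat.pos_of_dvd_of_pos h4 hn
  have he : n - n / o < 4 := by
    obtain ⟨g, x, y, g0, hc, rfl, rfl⟩ := Nat.exists_coprime' (Nat.gcd_pos_of_pos_left s' s0)
    have hx : 0 < x := Nat.pos_of_mul_pos_right s0
    have hy : 0 < y := Nat.pos_of_mul_pos_right s0'
    have hL : x * y ≤ q - 1 := Nat.le_of_dvd (by omega) (hc.mul_dvd_of_dvd_of_dvd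
      ((dvd_mul_right _ _).trans h1) ((dvd_mul_right _ _).trans h2))
    have cq : q.Coprime g := by
      have : q.Coprime (q - 1) := by
        obtain ⟨k, rfl⟩ : ∃ k, q = k + 1 := ⟨q - 1, by omega⟩
        simp
      exact this.coprime_dvd_right ((dvd_mul_left _ _).trans h1)
    have e : ((x * g) ^ 2 + (y * g) ^ 2) ^ 2 = (x ^ 2 + y ^ 2) ^ 2 * g ^ 4 := by ring
    rw [e] at h7
    have h8 := Nat.le_of_dvd (by positivity) ((cq.pow _ 4).dvd_of_dvd_mul_right h7)
    have h9 : x ^ 2 + y ^ 2 < q ^ 2 := by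
      obtain ⟨x, rfl⟩ : ∃ k, x = k + 1 := ⟨x - 1, by omega⟩
      obtain ⟨y, rfl⟩ : ∃ k, y = k + 1 := ⟨y - 1, by omega⟩
      have : ((x + 1) * (y + 1) + 1) ^ 2 ≤ q ^ 2 := Nat.pow_le_pow_left (by omega) 2
      nlinarith [Nat.zero_le (x * y), Nat.zero_le (x * x * y), Nat.zero_le (x * y * y),
        Nat.zero_le (x * x * y * y)]
    have h10 : (x ^ 2 + y ^ 2) ^ 2 < q ^ 4 := by
      calc _ < (q ^ 2) ^ 2 := Nat.pow_lt_pow_left h9 (by norm_num)
        _ = _ := by ring
    exact (Nat.pow_lt_pow_iff_right (by omega)).1 (h8.trans_lt h10)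
  obtain ⟨k, hk⟩ := h5.trans h3
  have o0 : 0 < o := Nat.pos_of_dvd_of_pos h5 s0
  have o1 : o ≠ 1 := fun e => h6 (e ▸ one_dvd _)
  have k0 : 0 < k := by
    rcases k with _ | k
    · omega
    · omega
  have e : n / o = k := by rw [hk, Nat.mul_div_cancel_left _ o0]
  rw [e] at he h7
  obtain ⟨o, rfl⟩ : ∃ j, o = j + 2 := ⟨o - 2, by omega⟩
  have e2 : n - k = (o + 1) * k := by rw [hk]; exact Nat.sub_eq_of_eq_add (by ring)
  rw [e2] at he h7
  have b1 : o ≤ 2 := by nlinarith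
  have b2 : k ≤ 3 := by nlinarith
  have b3 := Nat.le_of_dvd hn h3
  have b4 := Nat.le_of_dvd hn h4
  have b5 := Nat.le_of_dvd (by positivity) h7
  have b6 : ∀ j m : ℕ, q ^ (j + 2) ≤ m → m < 13 ^ (j + 2) → q < 13 := fun j m a b =>
    lt_of_pow_lt_pow_left₀ _ (by norm_num) (a.trans_lt b)
  subst hk
  interval_cases o <;> interval_cases k <;> try omega
  all_goals norm_num at b3 b4 h3 h4 h5 h6 h7 b5
  all_goals interval_cases s <;> (try norm_num at h3) <;> (try norm_num at h5)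
  all_goals interval_cases s' <;> (try norm_num at h4) <;> (try norm_num at h6) <;> try norm_num
  all_goals
    first
    | have := b6 0 _ b5 (by norm_num)
    | have := b6 1 _ b5 (by norm_num)
  all_goals interval_cases q <;> omega

theorem slz_fin {a b i j : ℕ} (hab : a.Coprime b) (hi : 0 < i) (hj : 0 < j)
    (hs : i + j = 2 ∨ i + j = 4)
    (h : (a : ℤ) ^ 2 * i - b ^ 2 * j = a * b ∨ (a : ℤ) ^ 2 * i - b ^ 2 * j = -(a * b)) :
    False := by
  have h1 : a ∣ b ^ 2 * j := by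
    rw [← Int.natCast_dvd_natCast]
    push_cast
    rcases h with h | h
    · exact ⟨a * i - b, by linear_combination -h⟩
    · exact ⟨a * i + b, by linear_combination -h⟩
  have h2 : b ∣ a ^ 2 * i := by
    rw [← Int.natCast_dvd_natCast]
    push_cast
    rcases h with h | h
    · exact ⟨b * j + a, by linear_combination h⟩
    · exact ⟨b * j - a, by linear_combination h⟩
  have h3 := (hab.pow_right 2).dvd_of_dvd_mul_left h1
  have h4 := (hab.symm.pow_right 2).dvd_of_dvd_mul_left h2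
  have h5 := Nat.le_of_dvd hj h3
  have h6 := Nat.le_of_dvd hi h4
  have h7 : i ≤ 3 := by omega
  have h8 : j ≤ 3 := by omega
  interval_cases i <;> interval_cases j <;> interval_cases a <;> interval_cases b <;>
    simp_all

variable {F : Type} [Field F] [Fintype F] [DecidableEq F]

/-- The stabiliser under translations. -/
def slzSt (p : Fˣ → ℂ) : Subgroup Fˣ where
  carrier := {d | ∀ t, p (t * d) = p t}
  one_mem' := fun t => by rw [mul_one]
  mul_mem' := fun {x y} hx hy t => by rw [← mul_assoc, hy, hx]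
  inv_mem' := fun {x} hx t => by rw [← hx, inv_mul_cancel_right]

/-- The Fourier coefficients. -/
noncomputable def slzHat (p : Fˣ → ℂ) (ζ : MulChar F ℂ) : ℂ := ∑ t, p t * ζ (t⁻¹ : Fˣ)

theorem slz_inv (p : Fˣ → ℂ) (x : Fˣ) :
    ∑ ζ : MulChar F ℂ, slzHat p ζ * ζ x = (Fintype.card F - 1 : ℂ) * p x := by
  simp only [slzHat, sum_mul]
  rw [sum_comm, sum_eq_single x (fun t _ ht => ?_) (by simp)]
  · simp only [mul_assoc, ← map_mul, ← mul_sum, mulChar_sum]
    simp [mul_comm]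
  · simp only [mul_assoc, ← map_mul, ← mul_sum, mulChar_sum]
    rw [if_neg, mul_zero]
    intro e
    exact ht (inv_mul_eq_one.1 (Units.ext (by simpa using e)))

theorem slz_shift (p : Fˣ → ℂ) (ζ : MulChar F ℂ) (u : Fˣ) :
    ∑ t, p (t * u) * ζ (t⁻¹ : Fˣ) = ζ u * slzHat p ζ := by
  rw [slzHat, mul_sum]
  refine Fintype.sum_equiv (Equiv.mulRight u) _ _ fun t => ?_
  rw [Equiv.coe_mulRight, mul_left_comm, ← map_mul, ← Units.val_mul, mul_inv_rev,
    mul_inv_cancel_left]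

theorem slz_triv {p : Fˣ → ℂ} {ζ : MulChar F ℂ} (h : slzHat p ζ ≠ 0) {d : Fˣ}
    (hd : d ∈ slzSt p) : ζ d = 1 := by
  have := slz_shift p ζ d
  simp only [show ∀ t, p (t * d) = p t from hd] at this
  exact mul_right_cancel₀ h (this.symm.trans (one_mul _).symm)

theorem slz_conv (p κ : Fˣ → ℂ) (ζ : MulChar F ℂ) :
    slzHat (fun t => ∑ u, κ u * p (t * u)) ζ = (∑ u, κ u * ζ u) * slzHat p ζ := by
  rw [slzHat, sum_mul]
  simp only [sum_mul]
  rw [sum_comm]
  refine sum_congr rfl fun u _ => ?_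
  simp only [mul_assoc, ← mul_sum]
  rw [slz_shift]

theorem slz_hat_one (p : Fˣ → ℂ) : slzHat p 1 = ∑ t, p t := by
  simp only [slzHat, MulChar.one_apply_coe, mul_one]

omit [Fintype F] [DecidableEq F] in
theorem slz_ord {ζ : MulChar F ℂ} {k : ℕ} : orderOf ζ ∣ k ↔ ∀ y : Fˣ, ζ (y ^ k : Fˣ) = 1 := by
  rw [orderOf_dvd_iff_pow_eq_one, MulChar.ext_iff]
  simp only [MulChar.pow_apply_coe, MulChar.one_apply_coe, Units.val_pow_eq_pow_val, map_pow]

theorem slz_mem (B : ValuationSubring ℂ) (ζ : MulChar F ℂ) (u : Fˣ) : ζ u ∈ B := by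
  refine HZ.mem_of_integral_int (IsIntegral.of_pow (n := Fintype.card Fˣ) Fintype.card_pos ?_)
  rw [← map_pow, ← Units.val_pow_eq_pow_val, pow_card_eq_one, Units.val_one, map_one]
  exact isIntegral_one

theorem slz_split {a b : ℕ} {p p' : Fˣ → ℂ}
    (hrel : ∀ t, b * p t = a * p' t ∨ a * p t = -(b * p' t)) :
    ∃ T : Finset Fˣ, (∀ t, t ∈ T ↔ b * p t = a * p' t) ∧
      a * b * ∑ t, p t = a ^ 2 * ∑ t ∈ T, p' t - b ^ 2 * ∑ t ∈ Tᶜ, p' t := by
  classical
  refine ⟨univ.filter fun t => b * p t = a * p' t, by simp, ?_⟩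
  rw [← sum_add_sum_compl (univ.filter fun t => b * p t = a * p' t), mul_add, sub_eq_add_neg,
    mul_sum, mul_sum, mul_sum, mul_sum, ← sum_neg_distrib]
  congr 1
  · exact sum_congr rfl fun t ht => by linear_combination a * (mem_filter.1 ht).2
  · exact sum_congr rfl fun t ht => by
      linear_combination b * (hrel t).resolve_left (by simpa using ht)

omit [DecidableEq F] in
theorem slz_char : (ringChar F).Prime ∧ ∃ f, 0 < f ∧ Fintype.card F = ringChar F ^ f := by
  obtain ⟨f, h1, h2⟩ := FiniteField.card F (ringChar F)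
  exact ⟨h1, f, f.pos, h2⟩

omit [DecidableEq F] in
theorem slz_unit {B : ValuationSubring ℂ} (hv : B.valuation (ringChar F : ℂ) < 1) {k : ℕ}
    (hk : k ∣ Fintype.card F - 1) : B.valuation (k : ℂ) = 1 := by
  obtain ⟨hr, f, f0, hf⟩ := slz_char (F := F)
  refine HZ.val_nat_eq hr hv fun h => hr.not_dvd_one ?_
  have h1 : ringChar F ∣ Fintype.card F := hf ▸ dvd_pow_self _ f0.ne'
  have h2 := Nat.dvd_sub h1 (h.trans hk)
  rwa [Nat.sub_sub_self Fintype.card_pos] at h2

theorem slz_card (P : Subgroup Fˣ) : Nat.card P * P.index = Fintype.card F - 1 := by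
  rw [P.card_mul_index, Nat.card_eq_fintype_card, Fintype.card_units]

end Pool.Agent.SemiProp.GLn
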