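import Pool.Agent.Lib.MP_c1c6b6_al.Main

set_option autoImplicit false

open Module Finset CategoryTheory

namespace Pool.Agent.SemiProp

variable {G : Type} [Group G]

theorem irr_of_simple (V : FDRep ℂ G) [Simple V] : Irr (V := V) V.ρ := by
  constructor
  · by_contra h
    rw [not_nontrivial_iff_subsingleton] at h
    apply id_nonzero V
    ext v
    exact Subsingleton.elim (α := V) _ _
  · intro U hU
    let S : Subrepresentation (G := G) (W := V) V.ρ := ⟨U, fun g v hv => hU g v hv⟩
    let f : FDRep.of S.toRepresentation ⟶ V :=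
      ⟨InducedCategory.homMk (ModuleCat.ofHom U.subtype), fun g => by ext v; rfl⟩
    have hf : ∀ u : U, (f.hom.hom.hom u : V) = u := fun u => rfl
    have hm : Mono f := ConcreteCategory.mono_of_injective f (fun a b hab => Subtype.ext hab)
    by_cases h0 : f = 0
    · left
      rw [eq_bot_iff]
      intro v hv
      have := hf ⟨v, hv⟩
      rw [h0] at this
      exact this.symm
    · right
      have hi : IsIso f := (Simple.mono_isIso_iff_nonzero f).mpr h0
      rw [eq_top_iff]
      intro v _
      obtain ⟨u, hu⟩ := (FDRep.isoToLinearEquiv (asIso f)).surjective v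
      have : (u : U).1 = v := hu
      exact this ▸ (u : U).2

theorem rel_of_semiproportional [Fintype G] (V W : FDRep ℂ G) [Simple V] [Simple W]
    (hnp : ¬ ∃ a b : ℂ, (a ≠ 0 ∨ b ≠ 0) ∧ ∀ g : G, a * V.character g = b * W.character g)
    (M : Set G) (h1 : (1 : G) ∈ M)
    (hM : ∃ a b : ℂ, (a ≠ 0 ∨ b ≠ 0) ∧ ∀ g : G, g ∈ M → a * V.character g = b * W.character g)
    (hM' : ∃ a b : ℂ, (a ≠ 0 ∨ b ≠ 0) ∧ ∀ g : G, g ∉ M → a * V.character g = b * W.character g)
    (g : G) :
    (finrank ℂ W : ℂ) * V.character g = finrank ℂ V * W.character g ∨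
      (finrank ℂ V : ℂ) * V.character g = -(finrank ℂ W * W.character g) := by
  have hV := irr_of_simple V
  have hW := irr_of_simple W
  have hV0 : (finrank ℂ V : ℂ) ≠ 0 := by exact_mod_cast hV.finrank_pos.ne'
  have hW0 : (finrank ℂ W : ℂ) ≠ 0 := by exact_mod_cast hW.finrank_pos.ne'
  have hMa : ∀ g ∈ M, V.character g = ((finrank ℂ V / finrank ℂ W : ℝ) : ℂ) * W.character g := by
    obtain ⟨a, b, hab, h⟩ := hM
    have h2 := h 1 h1
    rw [FDRep.char_one, FDRep.char_one] at h2
    have ha : a ≠ 0 := by
      rintro rfl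
      rw [zero_mul] at h2
      have hb : b ≠ 0 := by simpa using hab
      exact mul_ne_zero hb hW0 h2.symm
    intro g hg
    have h3 := h g hg
    push_cast
    field_simp
    apply mul_left_cancel₀ ha
    linear_combination (finrank ℂ W : ℂ) * h3 - W.character g * h2
  have hiV : ∀ g, V.character g⁻¹ = (starRingEnd ℂ) (V.character g) :=
    fun g => char_inv (V := V) V.ρ g
  have hiW : ∀ g, W.character g⁻¹ = (starRingEnd ℂ) (W.character g) :=
    fun g => char_inv (V := W) W.ρ g
  have hc : (Nat.card G : ℂ) ≠ 0 := by exact_mod_cast Nat.card_pos.ne'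
  have : Invertible (Nat.card G : ℂ) := invertibleOfNonzero hc
  have horth : ∑ g, V.character g * (starRingEnd ℂ) (W.character g) = 0 := by
    have h2 := FDRep.char_orthonormal V W
    rw [if_neg (by
      rintro ⟨i⟩
      exact hnp ⟨1, 1, Or.inl one_ne_zero, fun g => by rw [FDRep.char_iso i]⟩)] at h2
    simp_rw [hiW] at h2
    exact (mul_eq_zero.mp h2).resolve_left (inv_ne_zero hc)
  have hnorm : ∑ g, V.character g * (starRingEnd ℂ) (V.character g) =
      ∑ g, W.character g * (starRingEnd ℂ) (W.character g) := by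
    simp_rw [← hiV, ← hiW]
    exact hV.sum_norm.trans hW.sum_norm.symm
  have hpos : (0 : ℝ) < finrank ℂ V / finrank ℂ W :=
    div_pos (by exact_mod_cast hV.finrank_pos) (by exact_mod_cast hW.finrank_pos)
  have hr := ratio V.character W.character _ hpos M h1 (by rwa [FDRep.char_one]) hMa hM' horth hnorm
  by_cases hg : g ∈ M
  · left
    rw [hMa g hg]
    push_cast
    field_simp
  · right
    have := hr g hg
    push_cast at this
    field_simp at this
    linear_combination this

theorem degree_eq [Fintype G] (V W : FDRep ℂ G) [Simple V] [Simple W]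
    (hV : ∀ g ∈ derivedSeries G 2, V.ρ g = 1) (hle : finrank ℂ W ≤ finrank ℂ V)
    (hrel : ∀ g, (finrank ℂ W : ℂ) * V.character g = finrank ℂ V * W.character g ∨
      (finrank ℂ V : ℂ) * V.character g = -(finrank ℂ W * W.character g)) :
    V.character 1 = W.character 1 := by
  rw [FDRep.char_one, FDRep.char_one]
  rcases hle.eq_or_lt with h | h
  · rw [h]
  · refine (core (V := V) (W := W) (irr_of_simple V) (irr_of_simple W) ?_ h hrel).elim
    intro x hx y hy
    have h1 : x * y * x⁻¹ * y⁻¹ ∈ derivedSeries G 2 :=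
      Subgroup.commutator_mem_commutator (H₁ := derivedSeries G 1) (H₂ := derivedSeries G 1) hx hy
    have h2 : x * y = (x * y * x⁻¹ * y⁻¹) * (y * x) := by group
    rw [← map_mul, h2, map_mul, hV _ h1, one_mul, map_mul]

end Pool.Agent.SemiProp
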