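import Mathlib

set_option autoImplicit false

open Module Finset

namespace Pool.Agent.SemiProp

variable {V : Type*} [AddCommGroup V] [Module ℂ V] [FiniteDimensional ℂ V]

/-- Spectral decomposition of the traces of the powers of an endomorphism of finite order. -/
theorem trace_pow_decomp (f : End ℂ V) (k : ℕ) (hk : 0 < k) (hf : f ^ k = 1) :
    ∃ (ζ : ℂ) (n : ℕ → ℕ), IsPrimitiveRoot ζ k ∧
      (∀ i : ℕ, LinearMap.trace ℂ V (f ^ i) = ∑ j ∈ range k, (n j : ℂ) * ζ ^ (i * j)) ∧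
      ((∀ j ∈ range k, j ≠ 0 → n j = 0) → f = 1) := by
  classical
  have hζ : IsPrimitiveRoot (Complex.exp (2 * Real.pi * Complex.I / k)) k :=
    Complex.isPrimitiveRoot_exp k hk.ne'
  set ζ := Complex.exp (2 * Real.pi * Complex.I / k) with hζdef
  have hζ0 : ζ ≠ 0 := hζ.ne_zero hk.ne'
  have hkC : (k : ℂ) ≠ 0 := by exact_mod_cast hk.ne'
  let P : ℕ → End ℂ V := fun j => (k : ℂ)⁻¹ • ∑ i ∈ range k, (ζ⁻¹ ^ (i * j)) • f ^ i
  have hfP : ∀ j, f * P j = ζ ^ j • P j := by
    intro j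
    simp only [P, mul_smul_comm, Finset.mul_sum]
    rw [smul_comm (ζ ^ j)]
    congr 1
    rw [Finset.smul_sum]
    have h1 : ∀ i, (ζ⁻¹ ^ (i * j)) • (f * f ^ i) =
        ζ ^ j • ((ζ⁻¹ ^ ((i + 1) * j)) • f ^ (i + 1)) := by
      intro i
      rw [smul_smul, ← pow_succ']
      congr 1
      rw [add_mul, one_mul, pow_add, inv_pow ζ j]
      field_simp
    simp_rw [h1]
    rw [← Finset.smul_sum, ← Finset.smul_sum]
    congr 1
    have h2 := Finset.sum_range_succ (fun i => (ζ⁻¹ ^ (i * j)) • f ^ i) k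
    have h3 := Finset.sum_range_succ' (fun i => (ζ⁻¹ ^ (i * j)) • f ^ i) k
    have h4 : (ζ⁻¹ ^ (k * j)) • f ^ k = (ζ⁻¹ ^ (0 * j)) • f ^ 0 := by
      rw [pow_mul, inv_pow, hζ.pow_eq_one, hf]; simp
    rw [h2, h4] at h3
    exact (add_right_cancel h3).symm
  have hfiP : ∀ i j, f ^ i * P j = ζ ^ (i * j) • P j := by
    intro i j
    induction i with
    | zero => simp
    | succ i ih =>
      rw [pow_succ', mul_assoc, ih, mul_smul_comm, hfP, smul_smul, add_mul, one_mul, pow_add]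
  have hPP : ∀ j, IsIdempotentElem (P j) := by
    intro j
    change P j * P j = P j
    conv_lhs => rw [show P j * P j =
      (k : ℂ)⁻¹ • ∑ i ∈ range k, (ζ⁻¹ ^ (i * j)) • (f ^ i * P j) by
        simp only [P, smul_mul_assoc, Finset.sum_mul]]
    simp_rw [hfiP, smul_smul, inv_pow, inv_mul_cancel₀ (pow_ne_zero _ hζ0), one_smul]
    rw [Finset.sum_const, card_range, ← Nat.cast_smul_eq_nsmul ℂ, smul_smul,
      inv_mul_cancel₀ hkC, one_smul]
  have hsum : ∑ j ∈ range k, P j = 1 := by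
    simp only [P]
    rw [← Finset.smul_sum, Finset.sum_comm]
    have h1 : ∀ i ∈ range k, ∑ j ∈ range k, (ζ⁻¹ ^ (i * j)) • f ^ i =
        if i = 0 then (k : ℂ) • (1 : End ℂ V) else 0 := by
      intro i hi
      rw [← Finset.sum_smul]
      split_ifs with h0
      · subst h0; simp
      · have hne : ζ⁻¹ ^ i ≠ 1 := by
          rw [inv_pow]
          intro h
          have := hζ.pow_ne_one_of_pos_of_lt h0 (mem_range.mp hi)
          exact this (inv_eq_one.mp h)
        have hg : ∑ j ∈ range k, (ζ⁻¹ ^ i) ^ j = 0 := by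
          have := mul_geom_sum (ζ⁻¹ ^ i) k
          rw [← pow_mul, mul_comm i k, pow_mul, inv_pow ζ k, hζ.pow_eq_one] at this
          simp only [inv_one, one_pow, sub_self] at this
          exact (mul_eq_zero.mp this).resolve_left (sub_ne_zero.mpr hne)
        simp_rw [pow_mul]
        rw [hg, zero_smul]
    rw [Finset.sum_congr rfl h1, Finset.sum_ite_eq' (range k) 0]
    simp [hk, smul_smul, inv_mul_cancel₀ hkC]
  have htr : ∀ j, LinearMap.trace ℂ V (P j) = (finrank ℂ (LinearMap.range (P j)) : ℂ) := by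
    intro j
    exact (LinearMap.IsIdempotentElem.isProj_range _ (hPP j)).trace
  refine ⟨ζ, fun j => finrank ℂ (LinearMap.range (P j)), hζ, ?_, ?_⟩
  · intro i
    conv_lhs => rw [← mul_one (f ^ i), ← hsum, Finset.mul_sum, map_sum]
    refine Finset.sum_congr rfl fun j _ => ?_
    rw [hfiP, map_smul, htr, smul_eq_mul, mul_comm]
  · intro h
    have h0 : ∀ j ∈ range k, j ≠ 0 → P j = 0 := by
      intro j hj hj0
      have := h j hj hj0
      exact LinearMap.range_eq_bot.mp (Submodule.finrank_eq_zero.mp this)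
    have hP0 : P 0 = 1 := by
      rw [← hsum, Finset.sum_eq_single 0 h0 (by simp [hk])]
    have := hfP 0
    rw [hP0] at this
    simpa using this

variable {G : Type*} [Group G] [Finite G] (ρ : Representation ℂ G V)

theorem char_decomp (g : G) :
    ∃ (k : ℕ) (ζ : ℂ) (n : ℕ → ℕ), ‖ζ‖ = 1 ∧ (∀ j ∈ range k, j ≠ 0 → ζ ^ j ≠ 1) ∧
      ρ.character g = ∑ j ∈ range k, (n j : ℂ) * ζ ^ j ∧
      ρ.character g⁻¹ = ∑ j ∈ range k, (n j : ℂ) * (ζ ^ j)⁻¹ ∧
      finrank ℂ V = ∑ j ∈ range k, n j ∧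
      ((∀ j ∈ range k, j ≠ 0 → n j = 0) → ρ g = 1) := by
  have hk : 0 < orderOf g := orderOf_pos g
  obtain ⟨ζ, n, hζ, h1, h2⟩ := trace_pow_decomp (ρ g) (orderOf g) hk
    (by rw [← map_pow, pow_orderOf_eq_one, map_one])
  refine ⟨orderOf g, ζ, n, hζ.norm'_eq_one hk.ne', ?_, ?_, ?_, ?_, h2⟩
  · intro j hj hj0
    exact hζ.pow_ne_one_of_pos_of_lt hj0 (mem_range.mp hj)
  · have := h1 1
    simpa [Representation.character] using this
  · have h3 := h1 (orderOf g - 1)
    have h4 : g ^ (orderOf g - 1) = g⁻¹ := by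
      rw [eq_inv_iff_mul_eq_one, ← pow_succ, Nat.sub_add_cancel hk, pow_orderOf_eq_one]
    rw [← map_pow, h4] at h3
    rw [Representation.character, h3]
    refine Finset.sum_congr rfl fun j _ => ?_
    congr 1
    rw [pow_mul, ← inv_pow]
    congr 1
    rw [eq_comm, inv_eq_iff_eq_inv, eq_comm, inv_eq_iff_eq_inv]
    refine eq_inv_of_mul_eq_one_left ?_
    rw [← pow_succ, Nat.sub_add_cancel hk, hζ.pow_eq_one]
  · have := h1 0
    simp only [pow_zero, LinearMap.trace_one, zero_mul, mul_one] at this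
    exact_mod_cast this

theorem char_inv (g : G) : ρ.character g⁻¹ = (starRingEnd ℂ) (ρ.character g) := by
  obtain ⟨k, ζ, n, hζ, -, h1, h2, -, -⟩ := char_decomp ρ g
  rw [h1, h2, map_sum]
  refine Finset.sum_congr rfl fun j _ => ?_
  rw [map_mul, Complex.conj_natCast, Complex.inv_eq_conj (by rw [norm_pow, hζ, one_pow])]

theorem norm_char_le (g : G) : ‖ρ.character g‖ ≤ finrank ℂ V := by
  obtain ⟨k, ζ, n, hζ, -, h1, -, h3, -⟩ := char_decomp ρ g
  rw [h1, h3]
  refine (norm_sum_le _ _).trans (le_of_eq ?_)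
  push_cast
  refine Finset.sum_congr rfl fun j _ => ?_
  simp [hζ]

theorem eq_one_of_char_eq (g : G) (h : ρ.character g = finrank ℂ V) : ρ g = 1 := by
  obtain ⟨k, ζ, n, hζ, h0, h1, -, h3, h4⟩ := char_decomp ρ g
  apply h4
  intro j hj hj0
  have hre : ∑ j ∈ range k, (n j : ℝ) * (1 - (ζ ^ j).re) = 0 := by
    have h5 := congrArg Complex.re h
    rw [h1, h3, Complex.re_sum] at h5
    simp only [Complex.natCast_re, Complex.mul_re, Complex.natCast_im, zero_mul, sub_zero] at h5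
    simp_rw [mul_sub, mul_one]
    rw [Finset.sum_sub_distrib, h5]
    simp
  have hnn : ∀ j ∈ range k, 0 ≤ (n j : ℝ) * (1 - (ζ ^ j).re) := by
    intro j _
    have : (ζ ^ j).re ≤ 1 := by
      refine (Complex.re_le_norm _).trans ?_
      simp [hζ]
    positivity
  have h6 := (Finset.sum_eq_zero_iff_of_nonneg hnn).mp hre j hj
  rcases mul_eq_zero.mp h6 with h7 | h7
  · exact_mod_cast h7
  · exfalso
    apply h0 j hj hj0
    have hn : ‖ζ ^ j‖ = 1 := by simp [hζ]
    have hre1 : (ζ ^ j).re = 1 := by linarith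
    have hsq := Complex.sq_norm (ζ ^ j)
    rw [hn, Complex.normSq_apply, hre1] at hsq
    apply Complex.ext
    · simpa using hre1
    · have : (ζ ^ j).im * (ζ ^ j).im = 0 := by linarith
      simpa using this

end Pool.Agent.SemiProp
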