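import Pool.Agent.Lib.MP_c1c6b6_al.Alt5

set_option autoImplicit false
set_option linter.unusedSectionVars false

open Finset Function Equiv MulAction

namespace Pool.Agent.SemiProp.Alt

variable {α ι : Type} [Fintype α] [DecidableEq α] [Fintype ι] [DecidableEq ι] {N : ℕ}

/-- A weighted count of the colourings fixed by `g`. -/
def Yt (t : (α → Fin N) → ℤ) (g : Perm α) : ℤ :=
  ∑ c ∈ univ.filter (fun c : α → Fin N => c ∘ g = c), t c

theorem Yt_conj {t : (α → Fin N) → ℤ} {s : Perm α} (ht : ∀ c, t (c ∘ s) = t c) (g : Perm α) :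
    Yt t (s * g * s⁻¹) = Yt t g := by
  refine sum_nbij' (fun c => c ∘ s) (fun c => c ∘ ⇑s⁻¹) ?_ ?_ ?_ ?_ fun c _ => (ht c).symm
  · intro c hc
    refine mem_filter.2 ⟨mem_univ _, funext fun a => ?_⟩
    simpa using congrFun (mem_filter.1 hc).2 (s a)
  · intro c hc
    refine mem_filter.2 ⟨mem_univ _, funext fun a => ?_⟩
    simpa using congrFun (mem_filter.1 hc).2 (s⁻¹ a)
  · intro c _
    funext a
    simp
  · intro c _
    funext a
    simp

theorem Yt_dvd {p : ℕ} (hp : p.Prime) {t : (α → Fin N) → ℤ} {Γ : Type} [Group Γ] [Finite Γ]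
    (hΓ : IsPGroup p Γ) (f : Γ →* Perm α) (hf : Injective f) (ht : ∀ u c, t (c ∘ f u) = t c)
    {g : Perm α} (hc : ∀ u, Commute g (f u))
    (h0 : ∀ u, p ∣ orderOf (g * f u) → Yt t (g * f u) = 0) :
    ∃ y : ℤ, (Yt t g : ℂ) = Nat.card Γ * y := by
  classical
  by_cases hg : p ∣ orderOf g
  · have h1 := h0 1
    rw [map_one, mul_one] at h1
    exact ⟨0, by simp [h1 hg]⟩
  have := Fintype.ofFinite Γ
  have := Fact.mk hp
  have hord : ∀ u, ∃ k, orderOf (f u) = p ^ k := fun u => by
    rw [orderOf_injective f hf]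
    exact IsPGroup.iff_orderOf.1 hΓ u
  have hcop : ∀ u, (orderOf g).Coprime (orderOf (f u)) := fun u => by
    obtain ⟨k, hk⟩ := hord u
    rw [hk]
    exact ((Nat.Prime.coprime_iff_not_dvd hp).2 hg).symm.pow_right k
  obtain ⟨y, hy⟩ := orb2 (fun _ : Γ => (1 : ℂ)) (fun _ _ => rfl)
    (fun S => ⟨1, by simp [sm_const]⟩) f
    (fun c : α → Fin N => if c ∘ g = c then t c else 0) (fun u c => by
      rw [ht]
      refine if_congr ?_ rfl rfl
      rw [comp_assoc, ← Perm.coe_mul, ← (hc u).eq, Perm.coe_mul, ← comp_assoc]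
      exact (f u).surjective.right_cancellable)
  refine ⟨y, Eq.trans ?_ hy⟩
  have h1 : ∀ u, ∑ c ∈ univ.filter (fun c : α → Fin N => c ∘ f u = c),
      (if c ∘ g = c then t c else 0) = Yt t (g * f u) := fun u => by
    rw [← sum_filter, filter_filter, Yt]
    exact sum_congr (filter_congr fun c _ => by rw [fix_mul (hc u) (hcop u), and_comm]) fun _ _ => rfl
  simp only [h1, one_mul]
  rw [sum_eq_single 1]
  · simp
  · intro u _ hu
    rw [h0, Int.cast_zero]
    rw [(hc u).orderOf_mul_eq_mul_orderOf_of_coprime (hcop u)]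
    obtain ⟨k, hk⟩ := hord u
    refine Dvd.dvd.mul_left (hk ▸ dvd_pow_self p fun h0 => hu ?_) _
    rw [h0, pow_zero, orderOf_eq_one_iff] at hk
    exact hf (hk.trans (map_one f).symm)
  · simp

theorem sum_pint' {H : Type} [Group H] [Fintype H] {p : ℕ} (hp : p.Prime) {t : (α → Fin N) → ℤ}
    (f : H →* Perm α) (hf : ∀ x, f x = 1 → ¬ p ∣ orderOf x) (ht : ∀ u c, t (c ∘ f u) = t c)
    (h0 : ∀ x, p ∣ orderOf (f x) → Yt t (f x) = 0) (a : H → ℂ) (ha : ∀ x, a x ∈ PInt hp)
    (hcl : ∀ x s, a (s * x * s⁻¹) = a x) :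
    ∃ k ∈ PInt hp, ∑ x, a x * Yt t (f x) = Nat.card H * k := by
  have := Fact.mk hp
  refine orb (Γ := ConjAct H) (PInt hp).toAddSubgroup (fun x => a x * Yt t (f x))
    (fun s x => ?_) fun x => ?_
  · simp only [ConjAct.smul_def, hcl, map_mul, map_inv, Yt_conj (ht _)]
  · obtain ⟨P⟩ : Nonempty (Sylow p (stabilizer (ConjAct H) x)) := inferInstance
    obtain ⟨j, hj, hj'⟩ : ∃ j : P.1 →* H, Injective j ∧ ∀ u, Commute x (j u) :=
      ⟨(ConjAct.ofConjAct (G := H)).toMonoidHom.comp
        ((stabilizer (ConjAct H) x).subtype.comp P.1.subtype),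
        (ConjAct.ofConjAct (G := H)).injective.comp
          (Subtype.val_injective.comp Subtype.val_injective), fun u => by
        have h1 : ConjAct.ofConjAct u.1.1 * x * (ConjAct.ofConjAct u.1.1)⁻¹ = x := u.1.2
        exact (mul_inv_eq_iff_eq_mul.1 h1).symm⟩
    obtain ⟨y, hy⟩ := Yt_dvd hp P.isPGroup' (f.comp j) ((injective_iff_map_eq_one _).2 fun u hu => by
        obtain ⟨k, hk⟩ := IsPGroup.iff_orderOf.1 P.isPGroup' u
        have h1 := hf _ hu
        rw [orderOf_injective j hj, hk] at h1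
        rwa [not_not.1 fun h2 => h1 (dvd_pow_self p h2), pow_zero, orderOf_eq_one_iff] at hk)
      (fun u => ht (j u)) (g := f x) (fun u => (hj' u).map f) fun u => by
        rw [MonoidHom.comp_apply, ← map_mul]
        exact h0 _
    have h1 : (P.1.index : ℂ) ≠ 0 := by exact_mod_cast P.1.index_ne_zero_of_finite
    refine ⟨a x * y / P.1.index, pint_cancel hp P.not_dvd_index ?_, ?_⟩
    · rw [mul_div_cancel₀ _ h1]
      exact mul_mem (ha x) (intCast_mem _ y)
    · rw [hy, ← P.1.card_mul_index]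
      push_cast
      field_simp

/-- A colour class. -/
abbrev Fib (θ : α → ι) (i : ι) : Type := {a // θ a = i}

/-- The Young subgroup of a colouring. -/
def Yg (θ : α → ι) : Subgroup (Perm α) where
  carrier := {s | θ ∘ s = θ}
  one_mem' := rfl
  mul_mem' := fun {s t} hs ht => by
    change θ ∘ ⇑(s * t) = θ
    rw [Perm.coe_mul, ← comp_assoc, show θ ∘ s = θ from hs, show θ ∘ t = θ from ht]
  inv_mem' := fun {s} hs => funext fun a => by
    simpa using (congrFun hs (s⁻¹ a)).symm

/-- Restriction to a colour class. -/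
def rs (θ : α → ι) (i : ι) : Yg θ →* Perm (Fib θ i) where
  toFun s := s.1.subtypePerm fun x => by rw [show θ (s.1 x) = θ x from congrFun s.2 x]
  map_one' := rfl
  map_mul' _ _ := rfl

theorem rs_inj (θ : α → ι) {s s' : Yg θ} (h : ∀ i, rs θ i s = rs θ i s') : s = s' :=
  Subtype.ext (Perm.ext fun a => congrArg Subtype.val (Equiv.congr_fun (h (θ a)) ⟨a, rfl⟩))

/-- The product weight. -/
def tw (θ : α → ι) (X : ι → Fn N) (c : α → Fin N) : ℤ :=
  ∏ i, X i (del N + cnt fun a : Fib θ i => c a)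

theorem tw_inv (θ : α → ι) (X : ι → Fn N) (s : Yg θ) (c : α → Fin N) :
    tw θ X (c ∘ s.1) = tw θ X c :=
  prod_congr rfl fun i _ => congrArg (fun z => X i (del N + z))
    (cnt_comp (fun a : Fib θ i => c a) (rs θ i s))

theorem prodY (θ : α → ι) (X : ι → Fn N) (s : Yg θ) :
    Yt (tw θ X) s.1 = ∏ i, Y (X i) (rs θ i s) := by
  have key : ∀ (c : ∀ i, Fib θ i → Fin N) (i : ι) (b : α) (h : θ b = i),
      c (θ b) ⟨b, rfl⟩ = c i ⟨b, h⟩ := by
    rintro c i b rfl
    rfl
  unfold Y
  rw [prod_univ_sum]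
  refine sum_nbij' (fun c i (a : Fib θ i) => c a) (fun c a => c (θ a) ⟨a, rfl⟩) ?_ ?_ ?_ ?_
    fun c _ => rfl
  · intro c hc
    exact Fintype.mem_piFinset.2 fun i => mem_filter.2 ⟨mem_univ _, funext fun a =>
      congrFun (mem_filter.1 hc).2 a.1⟩
  · intro c hc
    refine mem_filter.2 ⟨mem_univ _, funext fun a => ?_⟩
    exact (key c (θ a) (s.1 a) (congrFun s.2 a)).trans
      (congrFun (mem_filter.1 (Fintype.mem_piFinset.1 hc (θ a))).2 ⟨a, rfl⟩)
  · intro c _
    rfl
  · intro c _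
    funext i a
    exact key c i a.1 a.2

theorem tw_sing {p : ℕ} (hp : p.Prime) (θ : α → ι) {X : ι → Fn N}
    (h : ∀ i, PP p (base N + Fintype.card (Fib θ i)) (X i)) (s : Yg θ) (hs : p ∣ orderOf s.1) :
    Yt (tw θ X) s.1 = 0 := by
  rw [prodY]
  have h1 : orderOf s.1 ∣ ∏ i, orderOf (rs θ i s) := by
    rw [Subgroup.orderOf_coe, orderOf_dvd_iff_pow_eq_one]
    refine rs_inj θ fun i => ?_
    rw [map_pow, map_one, ← orderOf_dvd_iff_pow_eq_one]
    exact dvd_prod_of_mem _ (mem_univ i)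
  obtain ⟨i, -, hi⟩ := (hp.prime.dvd_finsetProd_iff _).1 (hs.trans h1)
  exact prod_eq_zero (mem_univ i) (Y_sing hp (h i) hi)

/-- Tuples of exponent vectors of the given degrees. -/
def levs (N : ℕ) (M : ι → ℕ) : Finset (ι → Fin N → ℕ) := Fintype.piFinset fun i => lev N (M i)

theorem mem_levs {M : ι → ℕ} {e : ι → Fin N → ℕ} : e ∈ levs N M ↔ ∀ i, ∑ j, e i j = M i := by
  simp only [levs, Fintype.mem_piFinset, mem_lev]

/-- The multilinear pairing. -/
def mp (M : ι → ℕ) (v : (ι → Fin N → ℕ) → ℤ) (X : ι → Fn N) : ℤ :=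
  ∑ e ∈ levs N M, v e * ∏ i, X i (e i)

/-- Antisymmetry in every slot. -/
def MAS (v : (ι → Fin N → ℕ) → ℤ) : Prop :=
  ∀ (σ : ι → Perm (Fin N)) (e : ι → Fin N → ℕ),
    v (fun i => e i ∘ σ i) = (∏ i, ((σ i).sign : ℤ)) * v e

theorem MAS.slot {v : (ι → Fin N → ℕ) → ℤ} (h : MAS v) (e : ι → Fin N → ℕ) (j : ι) :
    AS fun x => v (update e j x) := by
  intro σ x
  have h1 := h (update 1 j σ) (update e j x)
  rw [prod_eq_single j (fun i _ hi => by simp [update_of_ne hi]) (by simp), update_self] at h1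
  refine Eq.trans (congrArg v ?_) h1
  funext i
  by_cases hi : i = j
  · subst hi
    simp
  · simp [update_of_ne hi]

theorem comp_mem_levs {M : ι → ℕ} {e : ι → Fin N → ℕ} (he : e ∈ levs N M) (σ : ι → Perm (Fin N)) :
    (fun i => e i ∘ σ i) ∈ levs N M :=
  mem_levs.2 fun i => (sum_comp_perm _ _).trans (mem_levs.1 he i)

theorem prod_sign_sq (σ : ι → Perm (Fin N)) :
    (∏ i, ((σ i).sign : ℤ)) * ∏ i, ((σ i).sign : ℤ) = 1 := by
  rw [← prod_mul_distrib]
  exact prod_eq_one fun i _ => sign_sq _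

theorem mp_alt {M : ι → ℕ} {v : (ι → Fin N → ℕ) → ℤ} (h : MAS v) {e0 : ι → Fin N → ℕ}
    (he : e0 ∈ levs N M) :
    mp M v (fun i => alt (e0 i)) = (N.factorial : ℤ) ^ Fintype.card ι * v e0 := by
  simp only [mp, alt, prod_univ_sum, mul_sum, Fintype.piFinset_univ]
  rw [sum_comm]
  have h1 : ∀ σ : ι → Perm (Fin N), ∑ e ∈ levs N M,
      v e * ∏ i, (if e i = e0 i ∘ σ i then ((σ i).sign : ℤ) else 0) = v e0 := by
    intro σ
    rw [sum_eq_single (fun i => e0 i ∘ σ i)]
    · simp only [if_true]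
      rw [h, mul_right_comm, prod_sign_sq, one_mul]
    · intro e _ h2
      obtain ⟨i, hi⟩ := Function.ne_iff.1 h2
      rw [prod_eq_zero (mem_univ i) (if_neg hi), mul_zero]
    · intro h2
      exact absurd (comp_mem_levs he σ) h2
  rw [sum_congr rfl fun σ _ => h1 σ]
  simp [Fintype.card_perm]

/-- The bead sets that occur in slot `j`. -/
def slot (M : ι → ℕ) (v : (ι → Fin N → ℕ) → ℤ) (j : ι) : Finset (Finset ℕ) :=
  ((levs N M).filter fun e => v e ≠ 0).image fun e => univ.image (e j)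

theorem multi_dist {p : ℕ} (hp : 0 < p) {M : ι → ℕ} (hM : ∀ i, M i ≤ base N + N)
    {v : (ι → Fin N → ℕ) → ℤ} (h : MAS v) (hs : ∀ j, (slot M v j).card < p) (l : ℤ)
    (hJ : ∀ X : ι → Fn N, (∀ i, PP p (M i) (X i)) →
      (N.factorial : ℤ) ^ Fintype.card ι * l ∣ mp M v X)
    {e0 : ι → Fin N → ℕ} (he : e0 ∈ levs N M) : l ∣ v e0 := by
  have key : ∀ A : Finset ι, ∀ X : ι → Fn N, (∀ i ∉ A, PP p (M i) (X i)) →
      (∀ i ∈ A, X i = alt (e0 i)) → (N.factorial : ℤ) ^ Fintype.card ι * l ∣ mp M v X := by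
    intro A
    induction A using Finset.induction_on with
    | empty => exact fun X h1 _ => hJ X fun i => h1 i (notMem_empty i)
    | insert j A hj ih =>
      intro X h1 h2
      obtain ⟨u, hu⟩ : ∃ u : Fn N, ∀ x, u x = ∑ e ∈ (levs N M).filter fun e => e j = e0 j,
        v (update e j x) * ∏ i ∈ univ.erase j, X i (e i) := ⟨_, fun _ => rfl⟩
      have hAS : AS u := fun σ x => by
        simp only [hu, mul_sum]
        refine sum_congr rfl fun e _ => ?_
        have h3 := h.slot e j σ x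
        dsimp only at h3
        rw [h3, mul_assoc]
      have hmem : ∀ e ∈ levs N M, ∀ x, ∑ i, x i = M j → update e j x ∈ levs N M :=
        fun e h3 x h4 => mem_levs.2 fun i => by
          by_cases h5 : i = j
          · subst h5
            rwa [update_self]
          · rw [update_of_ne h5]
            exact mem_levs.1 h3 i
      have hpair : ∀ Z, pair (M j) u Z = mp M v (update X j Z) := fun Z => by
        simp only [pair, hu, sum_mul, mp]
        rw [← sum_product']
        refine sum_nbij' (fun z => update z.2 j z.1) (fun e => (e j, update e j (e0 j)))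
          ?_ ?_ ?_ ?_ ?_
        · intro z hz
          obtain ⟨h3, h4⟩ := mem_product.1 hz
          exact hmem _ (mem_filter.1 h4).1 _ (mem_lev.1 h3)
        · intro e h3
          exact mem_product.2 ⟨mem_lev.2 (mem_levs.1 h3 j),
            mem_filter.2 ⟨hmem _ h3 _ (mem_levs.1 he j), update_self ..⟩⟩
        · intro z hz
          have h4 := (mem_filter.1 (mem_product.1 hz).2).2
          simp [← h4]
        · intro e _
          simp
        · intro z _
          rw [← mul_prod_erase univ _ (mem_univ j), update_self, update_self, mul_assoc,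
            mul_comm (Z _)]
          refine congrArg (fun w => _ * (w * _)) (prod_congr rfl fun i hi => ?_)
          rw [update_of_ne (ne_of_mem_erase hi), update_of_ne (ne_of_mem_erase hi)]
      have hc : (N.factorial : ℤ) ^ Fintype.card ι * l =
          N.factorial * ((N.factorial : ℤ) ^ (univ.erase j).card * l) := by
        rw [← mul_assoc, ← pow_succ', card_erase_add_one (mem_univ j), card_univ]
      have h3 := min_dist hp ((N.factorial : ℤ) ^ (univ.erase j).card * l) (M j) (hM j) u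
        ⟨hAS, fun Z hZ => by
          rw [hpair, ← hc]
          refine ih _ (fun i hi => ?_) fun i hi => ?_
          · by_cases h4 : i = j
            · subst h4
              rwa [update_self]
            · rw [update_of_ne h4]
              exact h1 i fun h5 => (mem_insert.1 h5).elim h4 hi
          · rw [update_of_ne (ne_of_mem_of_not_mem hi hj)]
            exact h2 i (mem_insert_of_mem hi)⟩
        ((card_le_card fun B hB => by
          obtain ⟨x, h3, h4, rfl⟩ := mem_supp.1 hB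
          have h5 : u x ≠ 0 := fun h0 => h4 (h0 ▸ dvd_zero _)
          rw [hu] at h5
          obtain ⟨e, h6, h7⟩ := exists_ne_zero_of_sum_ne_zero h5
          exact mem_image.2 ⟨update e j x, mem_filter.2 ⟨hmem _ (mem_filter.1 h6).1 _ h3,
            left_ne_zero_of_mul h7⟩, by rw [update_self]⟩).trans_lt (hs j)) _ (mem_levs.1 he j)
      have h4 := hpair (alt (e0 j))
      rw [← h2 j (mem_insert_self _ _), update_eq_self, h2 j (mem_insert_self _ _),
        pair_alt hAS (mem_lev.2 (mem_levs.1 he j))] at h4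
      rw [← h4, hc]
      exact mul_dvd_mul_left _ h3
  have h1 := key univ (fun i => alt (e0 i)) (fun i hi => absurd (mem_univ i) hi) fun _ _ => rfl
  rw [mp_alt h he] at h1
  exact (mul_dvd_mul_iff_left (pow_ne_zero _ (by exact_mod_cast N.factorial_ne_zero))).1 h1

theorem slot_le {M : ι → ℕ} {k : ℕ} {a : (ι → Fin N → ℕ) → ℤ} (h : MAS a)
    (h2 : ∑ e ∈ levs N M, a e ^ 2 ≤ k * (N.factorial : ℤ) ^ Fintype.card ι) :
    (∀ j, (slot M a j).card ≤ k) ∧ ∀ e ∈ levs N M, a e ^ 2 ≤ k := by
  have hN : (0 : ℤ) < (N.factorial : ℤ) ^ Fintype.card ι := by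
    have := N.factorial_pos
    positivity
  have hf : ∀ (S : Finset (ι → Fin N → ℕ)) e0, a e0 ≠ 0 →
      (∀ σ : ι → Perm (Fin N), (fun i => e0 i ∘ σ i) ∈ S) →
      (N.factorial : ℤ) ^ Fintype.card ι * a e0 ^ 2 ≤ ∑ e ∈ S, a e ^ 2 := by
    intro S e0 h4 hS
    have hi : ∀ i, Injective (e0 i) := fun i => (h.slot e0 i).inj (by rwa [update_eq_self])
    have h5 : ∑ e ∈ univ.image (fun (σ : ι → Perm (Fin N)) i => e0 i ∘ σ i), a e ^ 2 =
        (N.factorial : ℤ) ^ Fintype.card ι * a e0 ^ 2 := by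
      rw [sum_image (g := fun (σ : ι → Perm (Fin N)) i => e0 i ∘ σ i)
          fun σ _ τ _ h6 => funext fun i => Perm.ext fun j => hi i (congrFun (congrFun h6 i) j),
        sum_congr rfl (g := fun _ => a e0 ^ 2) fun σ _ => by
          rw [h, mul_pow, sq, prod_sign_sq, one_mul]]
      simp [Fintype.card_perm]
    rw [← h5]
    refine sum_le_sum_of_subset_of_nonneg (fun e he => ?_) fun _ _ _ => sq_nonneg _
    obtain ⟨σ, -, rfl⟩ := mem_image.1 he
    exact hS σ
  constructor
  · intro j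
    have h3 := sum_fiberwise_le_sum_of_sum_fiber_nonneg (s := levs N M) (t := slot M a j)
      (g := fun e => univ.image (e j)) (f := fun e => a e ^ 2)
      fun _ _ => sum_nonneg fun _ _ => sq_nonneg _
    have h4 : ∑ _B ∈ slot M a j, (N.factorial : ℤ) ^ Fintype.card ι ≤
        ∑ B ∈ slot M a j, ∑ e ∈ levs N M with univ.image (e j) = B, a e ^ 2 := by
      refine sum_le_sum fun B hB => ?_
      obtain ⟨e, h5, rfl⟩ := mem_image.1 hB
      obtain ⟨h5, h7⟩ := mem_filter.1 h5
      have h8 := hf ((levs N M).filter fun e' => univ.image (e' j) = univ.image (e j)) e h7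
        fun σ => mem_filter.2 ⟨comp_mem_levs h5 σ, by rw [← image_image, image_univ_equiv]⟩
      have h9 : 0 < a e ^ 2 := by positivity
      nlinarith
    rw [sum_const, nsmul_eq_mul] at h4
    have h5 : ((slot M a j).card : ℤ) ≤ k := by nlinarith
    exact_mod_cast h5
  · intro e he
    by_cases h0 : a e = 0
    · simp [h0]
    · have h3 := hf _ e h0 (comp_mem_levs he)
      nlinarith

end Pool.Agent.SemiProp.Alt
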