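import Pool.Agent.Lib.MP_c1c6b6_al.Wr1

set_option autoImplicit false
set_option linter.unusedSectionVars false

open Finset Function Equiv MulAction

namespace Pool.Agent.SemiProp.Alt

theorem schur_test {T : Type} [Fintype T] (F : T → ℂ) (K : T → T → ℝ) (h0 : ∀ s t, 0 ≤ K s t)
    (hs : ∀ s t, K s t = K t s) {R : ℝ} (hr : ∀ s, ∑ t, K s t ≤ R) :
    ∑ s, ∑ t, (F s * (starRingEnd ℂ) (F t)).re * K s t ≤ R * ∑ s, Complex.normSq (F s) := by
  have h4 : ∑ x, ∑ y, Complex.normSq (F x) * K x y ≤ R * ∑ s, Complex.normSq (F s) := by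
    rw [mul_sum]
    refine sum_le_sum fun x _ => ?_
    rw [← mul_sum, mul_comm R]
    exact mul_le_mul_of_nonneg_left (hr x) (Complex.normSq_nonneg _)
  have h5 : ∑ x, ∑ y, Complex.normSq (F y) * K x y = ∑ x, ∑ y, Complex.normSq (F x) * K x y := by
    rw [sum_comm]
    exact sum_congr rfl fun x _ => sum_congr rfl fun y _ => by rw [hs]
  have h6 : 2 * ∑ x, ∑ y, (F x * (starRingEnd ℂ) (F y)).re * K x y ≤
      ∑ x, ∑ y, Complex.normSq (F x) * K x y + ∑ x, ∑ y, Complex.normSq (F y) * K x y := by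
    simp only [mul_sum, ← sum_add_distrib]
    refine sum_le_sum fun x _ => sum_le_sum fun y _ => ?_
    rw [← mul_assoc, ← add_mul]
    refine mul_le_mul_of_nonneg_right ?_ (h0 x y)
    simp only [Complex.mul_re, Complex.conj_re, Complex.conj_im, Complex.normSq_apply]
    nlinarith [sq_nonneg ((F x).re - (F y).re), sq_nonneg ((F x).im - (F y).im)]
  linarith

variable {α ι : Type} [Fintype α] [DecidableEq α] [Fintype ι] [DecidableEq ι] {N : ℕ}
  {L : Type} [Group L] [Fintype L]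

noncomputable instance (θ : α → ι) : Fintype (Yg θ) := Fintype.ofFinite _

/-- The degrees of the slots. -/
def MM (θ : α → ι) (N : ℕ) : ι → ℕ := fun i => base N + Fintype.card (Fib θ i)

/-- The character values of a Young subgroup. -/
noncomputable def WS (θ : α → ι) (N : ℕ) (s : Yg θ) : ι → Fn N := fun i =>
  W N (rs θ i s).partition.parts

/-- `a` lists the multiplicities of the characters of the Young subgroup. -/
def Cf (θ : α → ι) (c : ℕ) (F : Yg θ → ℂ) (a : (ι → Fin N → ℕ) → ℤ) : Prop :=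
  ∀ e : ι → Fin N → ℕ, ∑ s, F s * (∏ i, WS θ N s i (e i) : ℤ) = c * a e

variable {θ : α → ι} {c : ℕ} {F : Yg θ → ℂ} {a : (ι → Fin N → ℕ) → ℤ}

theorem Cf.mas (h : Cf θ c F a) (hc : 0 < c) : MAS a := by
  intro σ e
  have h1 := h fun i => e i ∘ σ i
  have h2 : ∀ s i, WS θ N s i (e i ∘ σ i) = _ := fun s i => W_as _ (σ i) (e i)
  simp only [h2, prod_mul_distrib, Int.cast_mul,
    mul_left_comm _ (((∏ i, ((σ i).sign : ℤ) : ℤ) : ℂ))] at h1
  rw [← mul_sum] at h1
  have h3 := h e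
  simp only [WS] at h3
  rw [h3, mul_left_comm] at h1
  exact_mod_cast (mul_left_cancel₀ (show (c : ℂ) ≠ 0 by exact_mod_cast hc.ne') h1).symm

theorem Cf.mp (h : Cf θ c F a) (M : ι → ℕ) (X : ι → Fn N) :
    (c : ℂ) * mp M a X = ∑ s, F s * (∏ i, pair (M i) (WS θ N s i) (X i) : ℤ) := by
  simp only [Alt.mp, pair, prod_univ_sum, prod_mul_distrib, levs, Int.cast_sum, Int.cast_mul,
    mul_sum, ← mul_assoc, ← h _, sum_mul]
  exact sum_comm

theorem Cf.comb {F' : Yg θ → ℂ} {b : (ι → Fin N → ℕ) → ℤ} (h : Cf θ c F a) (h' : Cf θ c F' b)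
    (m n : ℕ) : Cf θ c (fun x => m * F x + n * F' x) (fun e => m * a e + n * b e) := by
  intro e
  simp only [add_mul, sum_add_distrib, mul_assoc, ← mul_sum, h e, h' e]
  push_cast
  ring

theorem fib_le (θ : α → ι) (i : ι) : Fintype.card (Fib θ i) ≤ Fintype.card α :=
  Fintype.card_subtype_le _

theorem Cf.ne_zero (hN : Fintype.card α ≤ N) (h : Cf θ c F a) (h1 : F 1 ≠ 0) :
    ∃ e ∈ levs N (MM θ N), a e ≠ 0 := by
  classical
  by_contra h0
  have h2 := h.mp (MM θ N) (WS θ N 1)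
  have h3 : Alt.mp (MM θ N) a (WS θ N 1) = 0 :=
    sum_eq_zero fun e he => by rw [not_not.1 fun h4 => h0 ⟨e, he, h4⟩, zero_mul]
  simp only [h3, WS, MM, pair_parts ((fib_le θ _).trans hN), map_one] at h2
  rw [sum_eq_single 1] at h2
  · refine mul_ne_zero h1 ?_ (h2.symm.trans (by simp))
    refine Int.cast_ne_zero.2 (prod_ne_zero_iff.2 fun i _ => ?_)
    rw [map_one, if_pos (IsConj.refl _)]
    have h4 := zed_parts (1 : Perm (Fib θ i))
    have h5 : zed (1 : Perm (Fib θ i)).partition.parts ≠ 0 := fun h5 =>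
      (Fintype.card (Fib θ i)).factorial_ne_zero (by rw [← h4, h5, mul_zero])
    exact_mod_cast mul_ne_zero N.factorial_ne_zero h5
  · intro s _ hs
    obtain ⟨i, hi⟩ := not_forall.1 fun h4 => hs (rs_inj θ h4)
    rw [prod_eq_zero (mem_univ i) (if_neg fun h4 => hi
      ((isConj_one_left.1 h4).trans (map_one _).symm)), Int.cast_zero, mul_zero]
  · simp

theorem Cf.norm_le (hN : Fintype.card α ≤ N) (h : Cf θ c F a) (hc : 0 < c) {k : ℕ}
    (hF : (∏ i, (Fintype.card (Fib θ i)).factorial : ℕ) * ∑ s, Complex.normSq (F s) ≤ k * c ^ 2) :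
    ∑ e ∈ levs N (MM θ N), a e ^ 2 ≤ k * (N.factorial : ℤ) ^ Fintype.card ι := by
  classical
  obtain ⟨K, hK⟩ : ∃ K : ∀ i, Perm (Fib θ i) → Perm (Fib θ i) → ℤ, ∀ i x y, K i x y =
      pair (MM θ N i) (W N x.partition.parts) (W N y.partition.parts) := ⟨_, fun _ _ _ => rfl⟩
  have hK0 : ∀ i x y, 0 ≤ K i x y := fun i x y => by
    rw [hK, MM, pair_parts ((fib_le θ _).trans hN)]
    split_ifs
    · positivity
    · simp
  have hKs : ∀ i x y, K i x y = K i y x := fun i x y => by rw [hK, hK, pair_comm]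
  have hKr : ∀ x : Yg θ, ∑ y : Yg θ, ∏ i, K i (rs θ i x) (rs θ i y) ≤
      (N.factorial : ℤ) ^ Fintype.card ι * (∏ i, (Fintype.card (Fib θ i)).factorial : ℕ) := by
    intro x
    have h1 : ∑ y : Yg θ, ∏ i, K i (rs θ i x) (rs θ i y) ≤
        ∑ t : ∀ i, Perm (Fib θ i), ∏ i, K i (rs θ i x) (t i) := by
      rw [← sum_image (s := univ) (g := fun (y : Yg θ) i => rs θ i y)
        (f := fun t : ∀ i, Perm (Fib θ i) => ∏ i, K i (rs θ i x) (t i))
        fun y _ y' _ h1 => rs_inj θ (congrFun h1)]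
      exact sum_le_sum_of_subset_of_nonneg (subset_univ _)
        fun _ _ _ => prod_nonneg fun i _ => hK0 _ _ _
    rw [← Fintype.piFinset_univ, ← prod_univ_sum] at h1
    refine h1.trans ?_
    rw [Nat.cast_prod, ← card_univ, ← prod_const, ← prod_mul_distrib]
    refine prod_le_prod (fun i _ => sum_nonneg fun _ _ => hK0 _ _ _) fun i _ => ?_
    simp only [hK]
    exact row_le ((fib_le θ _).trans hN) (f := MonoidHom.id _) injective_id _
  have h1 : (c : ℂ) ^ 2 * (∑ e ∈ levs N (MM θ N), a e ^ 2 : ℤ) = ∑ x : Yg θ, ∑ y : Yg θ,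
      F x * (starRingEnd ℂ) (F y) * (∏ i, K i (rs θ i x) (rs θ i y) : ℤ) := by
    have h2 : ∀ e, (c : ℂ) * a e = ∑ s, (starRingEnd ℂ) (F s) * (∏ i, WS θ N s i (e i) : ℤ) :=
      fun e => by
        have h3 := congrArg (starRingEnd ℂ) (h e)
        simpa only [map_mul, map_natCast, map_intCast, map_sum] using h3.symm
    have h3 : (c : ℂ) ^ 2 * (∑ e ∈ levs N (MM θ N), a e ^ 2 : ℤ) =
        ∑ e ∈ levs N (MM θ N), ((c : ℂ) * a e) * (c * a e) := by
      rw [Int.cast_sum, mul_sum]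
      exact sum_congr rfl fun e _ => by push_cast; ring
    rw [h3, sum_congr rfl fun e _ =>
      (congrArg₂ (· * ·) (h e).symm (h2 e)).trans (sum_mul_sum _ _ _ _)]
    simp only [hK, pair, prod_univ_sum, prod_mul_distrib, Int.cast_sum, Int.cast_mul,
      mul_sum, WS]
    rw [sum_comm]
    refine sum_congr rfl fun x _ => ?_
    rw [sum_comm]
    exact sum_congr rfl fun y _ => sum_congr rfl fun e _ => by ring
  have h2 := congrArg Complex.re h1
  simp only [Complex.re_sum, ← Complex.ofReal_intCast, Complex.re_mul_ofReal] at h2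
  rw [← Complex.ofReal_natCast, ← Complex.ofReal_pow, Complex.ofReal_re] at h2
  have h3 := schur_test F (fun x y => ((∏ i, K i (rs θ i x) (rs θ i y) : ℤ) : ℝ))
    (fun x y => by exact_mod_cast prod_nonneg fun i _ => hK0 _ _ _)
    (fun x y => by simp only [hKs _ (rs θ _ x)])
    (R := ((N.factorial : ℤ) ^ Fintype.card ι *
      (∏ i, (Fintype.card (Fib θ i)).factorial : ℕ) : ℤ)) (fun x => by exact_mod_cast hKr x)
  have hN' : (0 : ℝ) < (N.factorial : ℝ) ^ Fintype.card ι := by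
    have := N.factorial_pos
    positivity
  have h4 := mul_le_mul_of_nonneg_left hF hN'.le
  rw [← h2] at h3
  have h5 : (c : ℝ) ^ 2 * (∑ e ∈ levs N (MM θ N), a e ^ 2 : ℤ) ≤
      (c : ℝ) ^ 2 * (k * (N.factorial : ℝ) ^ Fintype.card ι) := by
    rw [Int.cast_mul, Int.cast_pow, Int.cast_natCast, Int.cast_natCast] at h3
    linarith
  exact_mod_cast le_of_mul_le_mul_left h5 (by positivity)

/-- Class functions with integral averages over all subgroups. -/
def VC (φ : L → ℂ) : Prop :=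
  (∀ γ h, φ (h * γ * h⁻¹) = φ γ) ∧ ∀ S : Subgroup L, ∃ k : ℤ, sm S φ = Nat.card S * k

theorem VC.comb {φ ψ : L → ℂ} (h : VC φ) (h' : VC ψ) (m n : ℕ) :
    VC fun x => m * φ x + n * ψ x := by
  refine ⟨fun γ x => by simp only [h.1, h'.1], fun S => ?_⟩
  obtain ⟨k, hk⟩ := h.2 S
  obtain ⟨k', hk'⟩ := h'.2 S
  refine ⟨m * k + n * k', ?_⟩
  rw [sm_add, sm_mul, sm_mul, hk, hk']
  push_cast
  ring

open Classical in
/-- The sum over a fibre. -/
noncomputable def push (f : L →* Yg θ) (φ : L → ℂ) (s : Yg θ) : ℂ :=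
  ∑ x ∈ univ.filter (f · = s), φ x

theorem sum_push (f : L →* Yg θ) (φ : L → ℂ) (g : Yg θ → ℂ) :
    ∑ s, push f φ s * g s = ∑ x, φ x * g (f x) := by
  classical
  rw [← sum_fiberwise univ f]
  refine sum_congr rfl fun s _ => ?_
  rw [push, sum_mul]
  exact sum_congr (by congr) fun x hx => by rw [(mem_filter.1 hx).2]

theorem VC.yt (f : L →* Yg θ) {φ : L → ℂ} (h : VC φ) (X : ι → Fn N) :
    ∃ k : ℤ, ∑ x, φ x * Yt (tw θ X) (f x).1 = Nat.card L * k :=
  orb2 φ h.1 h.2 ((Yg θ).subtype.comp f) (tw θ X) fun x => tw_inv θ X (f x)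

theorem exists_cf (f : L →* Yg θ) {φ : L → ℂ} (h : VC φ) :
    ∃ a : (ι → Fin N → ℕ) → ℤ, Cf θ (Nat.card L) (push f φ) a := by
  have key : ∀ e : ι → Fin N → ℕ, ∃ k : ℤ,
      ∑ s, push f φ s * (∏ i, WS θ N s i (e i) : ℤ) = Nat.card L * k := by
    intro e
    by_cases he : ∀ i, ∑ j, e i j = MM θ N i
    · have h1 : ∀ s : Yg θ, ∏ i, WS θ N s i (e i) = Yt (tw θ fun i => alt (e i)) s.1 := fun s => by
        rw [prodY]
        refine prod_congr rfl fun i _ => ?_
        have h2 := pair_Y (alt_as (e i)) (rs θ i s)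
        rw [pair_alt (M := base N + Fintype.card (Fib θ i)) (W_as _) (mem_lev.2 (he i))] at h2
        exact mul_left_cancel₀ (by exact_mod_cast N.factorial_ne_zero) h2
      simp only [h1]
      rw [sum_push f φ fun s => Yt (tw θ fun i => alt (e i)) s.1]
      exact h.yt f _
    · refine ⟨0, ?_⟩
      obtain ⟨i, hi⟩ := not_forall.1 he
      rw [Int.cast_zero, mul_zero]
      refine sum_eq_zero fun s _ => ?_
      rw [prod_eq_zero (mem_univ i), Int.cast_zero, mul_zero]
      by_contra h2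
      exact hi (by rw [W_hom _ _ h2, (rs θ i s).partition.parts_sum, MM])
  choose a ha using key
  exact ⟨a, ha⟩

/-- The Young subgroup side of the argument. -/
theorem young_false {p m n : ℕ} (hp : p.Prime) (h4 : 4 < p) (hmn : m.Coprime n)
    (hd : p ∣ m ^ 2 + n ^ 2) (f : L →* Yg θ) (hf : ∀ x, f x = 1 → ¬ p ∣ orderOf x) {φ ψ : L → ℂ}
    (hφ : VC φ) (hψ : VC ψ) (h1 : push f φ 1 ≠ 0)
    (hφ2 : (∏ i, (Fintype.card (Fib θ i)).factorial : ℕ) * ∑ s, Complex.normSq (push f φ s) ≤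
      (2 : ℕ) * (Nat.card L : ℝ) ^ 2)
    (hψ2 : (∏ i, (Fintype.card (Fib θ i)).factorial : ℕ) * ∑ s, Complex.normSq (push f ψ s) ≤
      (2 : ℕ) * (Nat.card L : ℝ) ^ 2)
    (hA : ∀ x, (m * φ x + n * ψ x) / p ∈ PInt hp) : False := by
  have hc : 0 < Nat.card L := Nat.card_pos
  have hp0 : (p : ℂ) ≠ 0 := by exact_mod_cast hp.ne_zero
  obtain ⟨a, ha⟩ := exists_cf (N := Fintype.card α) f hφ
  obtain ⟨b, hb⟩ := exists_cf (N := Fintype.card α) f hψ
  obtain ⟨ha1, ha2⟩ := slot_le (ha.mas hc) (ha.norm_le le_rfl hc hφ2)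
  obtain ⟨hb1, hb2⟩ := slot_le (hb.mas hc) (hb.norm_le le_rfl hc hψ2)
  obtain ⟨e, he, he0⟩ := ha.ne_zero le_rfl h1
  have hv := ha.comb hb m n
  refine arith hp h4 hmn hd he0 (ha2 e he) (hb2 e he)
    (multi_dist (v := fun e => m * a e + n * b e) (M := MM θ (Fintype.card α)) hp.pos
      (fun i => Nat.add_le_add_left (fib_le θ i) _) (hv.mas hc) (fun j => ?_) p (fun X hX => ?_) he)
  · refine lt_of_le_of_lt ((card_le_card fun B hB => ?_).trans
      ((card_union_le _ _).trans (add_le_add (ha1 j) (hb1 j)))) h4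
    obtain ⟨e', h2, rfl⟩ := mem_image.1 hB
    obtain ⟨h2, h3⟩ := mem_filter.1 h2
    by_cases h5 : a e' = 0
    · exact mem_union_right _ (mem_image_of_mem _ (mem_filter.2 ⟨h2, fun h6 => h3 (by simp [h5, h6])⟩))
    · exact mem_union_left _ (mem_image_of_mem _ (mem_filter.2 ⟨h2, h5⟩))
  · obtain ⟨z, hz⟩ := (hφ.comb hψ m n).yt f X
    obtain ⟨k, hk, h2⟩ := sum_pint' hp (t := tw θ X) ((Yg θ).subtype.comp f)
      (fun x hx => hf x (Subtype.ext hx)) (fun x => tw_inv θ X (f x))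
      (fun x => tw_sing hp θ hX (f x)) _ hA fun x s => by simp only [hφ.1, hψ.1]
    have h3 := hv.mp (MM θ (Fintype.card α)) X
    have h5 : ∀ s : Yg θ, ∏ i, pair (MM θ (Fintype.card α) i) (WS θ (Fintype.card α) s i) (X i) =
        ((Fintype.card α).factorial : ℤ) ^ Fintype.card ι * Yt (tw θ X) s.1 := fun s => by
      rw [prodY, ← card_univ (α := ι), ← prod_const, ← prod_mul_distrib]
      exact prod_congr rfl fun i _ => pair_Y (hX i).1 _
    simp only [h5, add_mul, sum_add_distrib, mul_assoc, ← mul_sum] at h3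
    rw [sum_push f φ fun s => ((((Fintype.card α).factorial : ℤ) ^ Fintype.card ι *
        Yt (tw θ X) s.1 : ℤ) : ℂ), sum_push f ψ fun s =>
        ((((Fintype.card α).factorial : ℤ) ^ Fintype.card ι * Yt (tw θ X) s.1 : ℤ) : ℂ)] at h3
    have h6 : mp (MM θ (Fintype.card α)) (fun e => m * a e + n * b e) X =
        ((Fintype.card α).factorial : ℤ) ^ Fintype.card ι * z := by
      refine Int.cast_injective (α := ℂ) (mul_left_cancel₀ (cardG_ne (G := L)) ?_)
      rw [h3, Int.cast_mul, mul_left_comm, ← hz, mul_sum, mul_sum, mul_sum, ← sum_add_distrib]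
      exact sum_congr rfl fun x _ => by push_cast; ring
    have h7 : (z : ℂ) = p * k := by
      refine mul_left_cancel₀ (cardG_ne (G := L)) ?_
      rw [← hz, mul_left_comm, ← h2, mul_sum]
      refine sum_congr rfl fun x _ => ?_
      rw [← mul_assoc, mul_div_cancel₀ _ hp0]
      rfl
    rw [h6]
    refine mul_dvd_mul_left _ (Int.natCast_dvd.2 ?_)
    have h8 := pint_dvd hp (a := z.natAbs) (t := 1) (by
      rw [pow_one, Nat.cast_natAbs]
      rcases abs_cases z with h9 | h9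
      · rwa [h9.1, h7, mul_div_cancel_left₀ _ hp0]
      · rw [h9.1, Int.cast_neg, h7, neg_div, mul_div_cancel_left₀ _ hp0]
        exact neg_mem hk)
    rwa [pow_one] at h8

end Pool.Agent.SemiProp.Alt
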