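import Pool.Agent.Lib.MP_c1c6b6_al.Wr3

set_option autoImplicit false
set_option linter.unusedSectionVars false

open Finset Function Equiv Module

namespace Pool.Agent.SemiProp.Alt

variable {α K H T ι : Type} [Fintype α] [DecidableEq α] [Group K] [Fintype K] [Group H] [Fintype H]
  [Fintype T] [DecidableEq T] [Fintype ι] [DecidableEq ι]

/-- The wreath product. -/
abbrev Wr (α K : Type) [Group K] : Type := (α → K) ⋊[mulAutArrow] Perm α

instance : Finite (Wr α K) := Finite.of_equiv _ SemidirectProduct.equivProd.symm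

/-- The tensor power of `B` as a representation of the wreath product. -/
noncomputable def BM (B : K →* Matrix T T ℂ) : Wr α K →* Matrix (α → T) (α → T) ℂ where
  toFun g := Matrix.of fun c c' => ∏ a, B (g.left a) (c a) (c' (g.right⁻¹ a))
  map_one' := by
    ext c c'
    by_cases h : c = c'
    · subst h
      simp
    · obtain ⟨a, ha⟩ := Function.ne_iff.1 h
      rw [Matrix.one_apply_ne h, Matrix.of_apply, prod_eq_zero (mem_univ a)]
      simpa using Matrix.one_apply_ne ha
  map_mul' g g' := by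
    ext c c'
    have h1 : ∀ c'' : α → T, ∏ a, B (g.left a) (c a) (c'' (g.right⁻¹ a)) =
        ∏ b, B (g.left (g.right b)) (c (g.right b)) (c'' b) := fun c'' => by
      rw [← Equiv.prod_comp g.right]
      simp
    simp only [Matrix.mul_apply, Matrix.of_apply, h1, ← prod_mul_distrib]
    rw [← Fintype.piFinset_univ, ← prod_univ_sum (fun _ => univ) fun b z =>
      B (g.left (g.right b)) (c (g.right b)) z * B (g'.left b) z (c' (g'.right⁻¹ b)),
      ← Equiv.prod_comp g.right]
    refine prod_congr rfl fun b _ => ?_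
    rw [← Matrix.mul_apply, ← map_mul]
    change B (g.left (g.right b) * g'.left (g.right⁻¹ (g.right b))) _ _ = _
    simp

variable {t : T → ι} {B : K →* Matrix T T ℂ}

theorem Fou.bm (h : Fou t B) {g : Wr α K} {c c' : α → T} (h1 : BM B g c c' ≠ 0) :
    t ∘ c' = (t ∘ c) ∘ g.right := by
  funext a
  have h2 := prod_ne_zero_iff.1 h1 (g.right a) (mem_univ _)
  by_contra h3
  exact h2 (h.2.1 _ _ _ (by simpa using Ne.symm h3))

/-- The extension to the inertia group of the character `θ` of the base group. -/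
noncomputable def lam (t : T → ι) (B : K →* Matrix T T ℂ) (θ : α → ι) (g : Wr α K) : ℂ :=
  ∑ c ∈ univ.filter (t ∘ · = θ), BM B g c c

theorem Fou.lam_conj (h : Fou t B) (θ : α → ι) (g x : Wr α K) :
    lam t B (θ ∘ g.right) (g⁻¹ * x * g) = lam t B θ x := by
  have h1 : ∀ θ x, lam t B θ x = (Matrix.diagonal (fun c : α → T => if t ∘ c = θ then 1 else 0) *
      BM B x).trace := fun θ x => by
    simp [lam, Matrix.trace, sum_filter]
  have h2 : BM B g * Matrix.diagonal (fun c : α → T => if t ∘ c = θ ∘ g.right then 1 else 0) =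
      Matrix.diagonal (fun c : α → T => if t ∘ c = θ then 1 else 0) * BM B g := by
    ext c c'
    rw [Matrix.mul_diagonal, Matrix.diagonal_mul, mul_comm]
    by_cases h3 : BM B g c c' = 0
    · rw [h3, mul_zero, mul_zero]
    · rw [h.bm h3]
      exact congrArg (· * _) (if_congr g.right.surjective.right_cancellable rfl rfl)
  rw [h1, h1, map_mul, ← mul_assoc, Matrix.trace_mul_cycle, h2, mul_assoc, ← map_mul,
    mul_inv_cancel_left]

/-- The inertia group. -/
def Iner (j : H →* Wr α K) (θ : α → ι) : Subgroup H :=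
  (Yg θ).comap (SemidirectProduct.rightHom.comp j)

omit [Fintype H] in
theorem Fou.exists_rep (h : Fou t B) (j : H →* Wr α K) (θ : α → ι) :
    ∃ ρ : Representation ℂ (Iner j θ) ({c : α → T // t ∘ c = θ} → ℂ),
      ∀ x, ρ.character x = lam t B θ (j x) := by
  refine ⟨Matrix.toLinAlgEquiv'.toAlgHom.toRingHom.toMonoidHom.comp
    { toFun := fun x => (BM B (j x)).submatrix Subtype.val Subtype.val
      map_one' := by simp [Matrix.submatrix_one _ Subtype.val_injective]
      map_mul' := fun x y => ?_ }, fun x => ?_⟩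
  · ext c c'
    simp only [Subgroup.coe_mul, map_mul, Matrix.submatrix_apply, Matrix.mul_apply]
    rw [← sum_subtype (univ.filter (t ∘ · = θ)) (by simp)
      fun c'' => BM B (j x) c c'' * BM B (j y) c'' c']
    refine (sum_filter_of_ne fun c'' _ h1 => ?_).symm
    rw [h.bm (left_ne_zero_of_mul h1), c.2]
    exact x.2
  · refine (Matrix.trace_toLin'_eq _).trans ?_
    exact (sum_subtype (univ.filter (t ∘ · = θ)) (by simp) fun c => BM B (j x) c c).symm

theorem Fou.lam_inv (h : Fou t B) {θ : α → ι} {g : Wr α K} (hg : θ ∘ g.right = θ) :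
    (starRingEnd ℂ) (lam t B θ g) = lam t B θ g⁻¹ := by
  obtain ⟨ρ, hρ⟩ := h.exists_rep (MonoidHom.id (Wr α K)) θ
  have h1 := char_inv ρ ⟨g, hg⟩
  rw [hρ, hρ] at h1
  exact h1.symm

theorem filter_eq_pi (θ : α → ι) : univ.filter (t ∘ · = θ) =
    Fintype.piFinset fun a => univ.filter (t · = θ a) := by
  ext c
  simp [funext_iff]

theorem Fou.orth (h : Fou t B) {θ θ' : α → ι} {s : Perm α} (hs : θ ∘ s = θ) (hs' : θ' ∘ s = θ') :
    ∑ x : α → K, lam t B θ ⟨x, s⟩ * (starRingEnd ℂ) (lam t B θ' ⟨x, s⟩) =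
      if θ = θ' then (((Fintype.card K : ℝ) ^ Fintype.card α : ℝ) : ℂ) else 0 := by
  have h1 : ∀ c ∈ univ.filter (t ∘ · = θ), ∀ c' : α → T,
      ∑ x : α → K, BM B ⟨x, s⟩ c c * BM B (⟨x, s⟩ : Wr α K)⁻¹ c' c' =
        if c = c' then ∏ a, (Fintype.card K : ℂ) / bs t (θ a) else 0 := by
    intro c hc c'
    have hc' := (mem_filter.1 hc).2
    have h2 : ∀ x : α → K, BM B (⟨x, s⟩ : Wr α K)⁻¹ c' c' =
        ∏ a, B (x a)⁻¹ (c' (s⁻¹ a)) (c' a) := fun x => by
      rw [← Equiv.prod_comp s]
      refine prod_congr rfl fun a _ => ?_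
      change B (x (s⁻¹⁻¹ a))⁻¹ _ (c' (s⁻¹⁻¹ a)) = _
      simp
    have h3 : ∀ x : α → K, BM B (⟨x, s⟩ : Wr α K) c c = ∏ a, B (x a) (c a) (c (s⁻¹ a)) :=
      fun _ => rfl
    simp only [h2, h3, ← prod_mul_distrib]
    rw [← Fintype.piFinset_univ, ← prod_univ_sum (fun _ => univ) fun a k =>
      B k (c a) (c (s⁻¹ a)) * B k⁻¹ (c' (s⁻¹ a)) (c' a)]
    simp only [h.schur]
    split_ifs with h4
    · subst h4
      refine prod_congr rfl fun a _ => ?_
      have h5 : ∀ a, t (c a) = θ a := congrFun hc'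
      rw [if_pos ⟨rfl, rfl, by simpa [h5] using congrFun hs (s⁻¹ a)⟩, h5]
    · obtain ⟨a, ha⟩ := Function.ne_iff.1 h4
      exact prod_eq_zero (mem_univ a) (if_neg fun h5 => ha h5.1)
  have h2 : ∀ x : α → K, (starRingEnd ℂ) (lam t B θ' ⟨x, s⟩) = _ := fun x => h.lam_inv hs'
  simp only [h2]
  simp only [lam, sum_mul_sum]
  rw [sum_comm, sum_congr rfl fun c hc => sum_comm.trans (sum_congr rfl fun c' _ => h1 c hc c')]
  simp only [sum_ite_eq]
  split_ifs with h3
  · subst h3
    rw [sum_congr rfl fun c hc => if_pos hc, filter_eq_pi, ← prod_univ_sum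
      (fun a => univ.filter (t · = θ a)) fun a _ => (Fintype.card K : ℂ) / bs t (θ a)]
    rw [prod_congr rfl (g := fun _ => (Fintype.card K : ℂ)) fun a _ => by
      rw [sum_const, nsmul_eq_mul]
      exact mul_div_cancel₀ _ (h.bs_ne _)]
    simp
  · refine sum_eq_zero fun c hc => if_neg fun hc' => ?_
    exact h3 ((mem_filter.1 hc).2.symm.trans (mem_filter.1 hc').2)

theorem Fou.sum_lam [DecidableEq K] (h : Fou t B) (x : α → K) :
    ∑ θ : α → ι, (∏ a, (bs t (θ a) : ℂ)) * lam t B θ ⟨x, 1⟩ =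
      if x = 1 then (Fintype.card K : ℂ) ^ Fintype.card α else 0 := by
  have h1 : ∑ θ : α → ι, (∏ a, (bs t (θ a) : ℂ)) * lam t B θ ⟨x, 1⟩ =
      ∑ c : α → T, ∏ a, bs t (t (c a)) * B (x a) (c a) (c a) := by
    rw [← sum_fiberwise univ fun c : α → T => t ∘ c]
    refine sum_congr rfl fun θ _ => ?_
    rw [lam, mul_sum]
    refine sum_congr rfl fun c hc => ?_
    rw [← (mem_filter.1 hc).2, prod_mul_distrib]
    rfl
  rw [h1, ← Fintype.piFinset_univ, ← prod_univ_sum (fun _ => univ) fun a z =>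
    (bs t (t z) : ℂ) * B (x a) z z]
  simp only [h.complete]
  split_ifs with h2
  · simp [h2]
  · obtain ⟨a, ha⟩ := Function.ne_iff.1 h2
    exact prod_eq_zero (mem_univ a) (if_neg ha)

end Pool.Agent.SemiProp.Alt
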