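import Pool.Agent.Lib.MP_c1c6b6_al.Wr4

set_option autoImplicit false
set_option linter.unusedSectionVars false

open Finset Function Equiv Module

namespace Pool.Agent.SemiProp.Alt

variable {α K H T ι : Type} [Fintype α] [DecidableEq α] [Group K] [Fintype K] [Group H] [Fintype H]
  [Fintype T] [DecidableEq T] [Fintype ι] [DecidableEq ι]

/-- The twisted fibre sums. -/
noncomputable def FF (t : T → ι) (B : K →* Matrix T T ℂ) (j : H →* Wr α K) (φ : H → ℂ) (θ : α → ι)
    (s : Perm α) : ℂ :=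
  ∑ h ∈ univ.filter (fun h => (j h).right = s), lam t B θ (j h) * φ h

/-- The mass of a class function over `θ`. -/
noncomputable def EE (t : T → ι) (B : K →* Matrix T T ℂ) (j : H →* Wr α K) (φ : H → ℂ)
    (θ : α → ι) : ℝ :=
  ∑ s ∈ univ.filter (fun s : Perm α => θ ∘ s = θ), Complex.normSq (FF t B j φ θ s)

variable {t : T → ι} {B : K →* Matrix T T ℂ}

theorem Fou.parseval (h : Fou t B) {j : H →* Wr α K} (hj : Injective j) (φ : H → ℂ) (s : Perm α) :
    ∑ θ ∈ univ.filter (fun θ : α → ι => θ ∘ s = θ), Complex.normSq (FF t B j φ θ s) ≤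
      (Fintype.card K : ℝ) ^ Fintype.card α *
        ∑ h ∈ univ.filter (fun h => (j h).right = s), Complex.normSq (φ h) := by
  refine le_of_eq_of_le (sum_congr rfl fun θ _ => congrArg _ (sum_congr rfl fun x hx => ?_))
    (bessel _ (fun θ (x : α → K) => lam t B θ ⟨x, s⟩) (by positivity)
      (fun θ h1 θ' h2 => h.orth (mem_filter.1 h1).2 (mem_filter.1 h2).2) _ (fun x => (j x).left)
      (fun x hx y hy h1 => hj (SemidirectProduct.ext h1
        ((mem_filter.1 hx).2.trans (mem_filter.1 hy).2.symm))) φ)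
  rw [← (mem_filter.1 hx).2]

theorem Fou.FF_conj (h : Fou t B) (j : H →* Wr α K) {φ : H → ℂ}
    (hφ : ∀ γ h, φ (h * γ * h⁻¹) = φ γ) (θ : α → ι) (s : Perm α) (g : H) :
    FF t B j φ (θ ∘ (j g).right) ((j g).right⁻¹ * s * (j g).right) = FF t B j φ θ s := by
  symm
  refine sum_nbij' (fun h => g⁻¹ * h * g) (fun h => g * h * g⁻¹) ?_ ?_ ?_ ?_ fun x _ => ?_
  · intro h hh
    have h1 := (mem_filter.1 hh).2
    simp [h1]
  · intro h hh
    have h1 := (mem_filter.1 hh).2
    simp [h1, mul_assoc]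
  · intro h _
    simp [mul_assoc]
  · intro h _
    simp [mul_assoc]
  · have h1 := hφ x g⁻¹
    rw [inv_inv] at h1
    rw [h1, map_mul, map_mul, map_inv, h.lam_conj]

theorem Fou.EE_conj (h : Fou t B) (j : H →* Wr α K) {φ : H → ℂ} (hφ : ∀ γ h, φ (h * γ * h⁻¹) = φ γ)
    (θ : α → ι) (g : H) : EE t B j φ (θ ∘ (j g).right) = EE t B j φ θ := by
  symm
  refine sum_nbij' (fun s => (j g).right⁻¹ * s * (j g).right)
    (fun s => (j g).right * s * (j g).right⁻¹) ?_ ?_ ?_ ?_ fun s _ => ?_
  · intro s hs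
    refine mem_filter.2 ⟨mem_univ _, funext fun a => ?_⟩
    simpa using congrFun (mem_filter.1 hs).2 ((j g).right a)
  · intro s hs
    refine mem_filter.2 ⟨mem_univ _, funext fun a => ?_⟩
    simpa using congrFun (mem_filter.1 hs).2 ((j g).right⁻¹ a)
  · intro s _
    simp [mul_assoc]
  · intro s _
    simp [mul_assoc]
  · rw [h.FF_conj j hφ]

theorem Fou.EE_le (h : Fou t B) {j : H →* Wr α K} (hj : Injective j) {φ : H → ℂ}
    (hφ : ∀ γ h, φ (h * γ * h⁻¹) = φ γ) (h1 : ∑ x, Complex.normSq (φ x) = Nat.card H)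
    (θ : α → ι) :
    EE t B j φ θ ≤ Nat.card (Iner j θ) * (Fintype.card K : ℝ) ^ Fintype.card α := by
  classical
  have h0 : ∀ θ', 0 ≤ EE t B j φ θ' := fun θ' => sum_nonneg fun _ _ => Complex.normSq_nonneg _
  have h2 : ∑ θ', EE t B j φ θ' ≤ (Fintype.card K : ℝ) ^ Fintype.card α * Nat.card H := by
    rw [← h1, ← sum_fiberwise univ fun h => (j h).right, mul_sum]
    refine le_of_eq_of_le ?_ (sum_le_sum fun s _ => h.parseval hj φ s)
    simp only [EE, sum_filter]
    exact sum_comm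
  have h3 : (Nat.card H : ℝ) * EE t B j φ θ ≤ Nat.card (Iner j θ) * ∑ θ', EE t B j φ θ' := by
    rw [Nat.card_eq_fintype_card, ← card_univ, ← nsmul_eq_mul, ← sum_const,
      ← sum_fiberwise univ fun g => θ ∘ (j g).right, mul_sum]
    refine sum_le_sum fun θ' _ => ?_
    rw [sum_congr rfl (g := fun _ => EE t B j φ θ') fun g hg => by
      rw [← (mem_filter.1 hg).2, h.EE_conj j hφ], sum_const, nsmul_eq_mul]
    refine mul_le_mul_of_nonneg_right (Nat.cast_le.2 ?_) (h0 _)
    rcases (univ.filter fun g => θ ∘ (j g).right = θ').eq_empty_or_nonempty with h4 | ⟨g0, h4⟩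
    · simp [h4]
    · rw [← Fintype.card_subtype, ← Nat.card_eq_fintype_card]
      refine Nat.card_le_card_of_injective (fun g => ⟨g.1 * g0⁻¹, funext fun a => ?_⟩)
        fun g g' h5 => Subtype.ext (mul_right_cancel (congrArg Subtype.val h5))
      have h5 := congrFun (g.2.trans (mem_filter.1 h4).2.symm) ((j g0).right⁻¹ a)
      simpa using h5
  have hc : (0 : ℝ) < Nat.card H := by exact_mod_cast Nat.card_pos
  have h4 := mul_le_mul_of_nonneg_left h2 (Nat.cast_nonneg (α := ℝ) (Nat.card (Iner j θ)))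
  exact le_of_mul_le_mul_left (by linarith) hc

theorem iner_card (j : H →* Wr α K) {c : ℕ} (hH : c * (Fintype.card α).factorial ≤ 2 * Nat.card H)
    (θ : α → ι) :
    c * ∏ i, (Fintype.card (Fib θ i)).factorial ≤ 2 * Nat.card (Iner j θ) := by
  have h1 : Nat.card (Yg θ) = ∏ i, (Fintype.card (Fib θ i)).factorial := by
    rw [← DomMulAct.stabilizer_card θ, ← Nat.card_eq_fintype_card]
    rfl
  have h2 := (Yg θ).card_mul_index
  have h3 := (Iner j θ).card_mul_index
  have h4 : (Yg θ).index ≠ 0 := (Yg θ).index_ne_zero_of_finite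
  have h5 : (Iner j θ).index ≤ (Yg θ).index := by
    rw [Iner, Subgroup.index_comap, ← Subgroup.relIndex_top_right] at *
    exact Subgroup.relIndex_le_of_le_right le_top h4
  rw [Nat.card_perm, Nat.card_eq_fintype_card (α := α)] at h2
  rw [← h1]
  refine Nat.le_of_mul_le_mul_right ?_ (Nat.pos_of_ne_zero h4)
  rw [mul_assoc, h2, mul_assoc]
  exact hH.trans (Nat.mul_le_mul_left _ (h3 ▸ Nat.mul_le_mul_left _ h5))

/-- The projection of the inertia group. -/
def proj (j : H →* Wr α K) (θ : α → ι) : Iner j θ →* Yg θ :=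
  (SemidirectProduct.rightHom.comp j).subgroupComap (Yg θ)

theorem push_proj (j : H →* Wr α K) (θ : α → ι) [Fintype (Iner j θ)] (φ : H → ℂ) (s : Yg θ) :
    push (proj j θ) (fun x => lam t B θ (j x) * φ x) s = FF t B j φ θ s := by
  classical
  refine sum_bij (fun x _ => x.1) (fun x hx => ?_) (fun _ _ _ _ h => Subtype.ext h)
    (fun h hh => ?_) fun _ _ => rfl
  · exact mem_filter.2 ⟨mem_univ _, congrArg Subtype.val (mem_filter.1 hx).2⟩
  · have h1 := (mem_filter.1 hh).2
    exact ⟨⟨h, show θ ∘ (j h).right = θ from h1 ▸ s.2⟩,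
      mem_filter.2 ⟨mem_univ _, Subtype.ext h1⟩, rfl⟩

section rep

variable {V : Type} [AddCommGroup V] [Module ℂ V] [FiniteDimensional ℂ V]

theorem vc_char (ρ : Representation ℂ H V) : VC ρ.character := by
  classical
  refine ⟨ρ.char_conj, fun S => ?_⟩
  have := invertibleOfNonzero (card_ne S)
  have h2 := Representation.card_inv_mul_sum_char_eq_finrank (ρ.comp S.subtype)
  refine ⟨finrank ℂ (Representation.invariants (ρ.comp S.subtype)), ?_⟩
  rw [sm_subtype, Int.cast_natCast, ← h2, ← mul_assoc, mul_inv_cancel₀ (card_ne S), one_mul]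
  rfl

theorem Fou.twist (h : Fou t B) (j : H →* Wr α K) (θ : α → ι) [Fintype (Iner j θ)]
    (ρ : Representation ℂ H V) {p : ℕ} (hp : p.Prime) :
    VC (fun x : Iner j θ => lam t B θ (j x) * ρ.character x) ∧
      ∀ x : Iner j θ, lam t B θ (j x) * ρ.character x ∈ PInt hp := by
  obtain ⟨τ, hτ⟩ := h.exists_rep j θ
  have h1 : (fun x : Iner j θ => lam t B θ (j x) * ρ.character x) =
      (τ.tprod (ρ.comp (Iner j θ).subtype)).character := by
    rw [Representation.char_tensor]
    exact funext fun x => congrArg (· * _) (hτ x).symm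
  refine ⟨h1 ▸ vc_char _, fun x => ?_⟩
  rw [congrFun h1 x]
  exact pint_of_integral hp ((isChar_top _ ⊤).integral (Subgroup.mem_top x))

theorem Fou.bound (h : Fou t B) {j : H →* Wr α K} (hj : Injective j)
    (hH : Fintype.card K ^ Fintype.card α * (Fintype.card α).factorial ≤ 2 * Nat.card H)
    (θ : α → ι) [Fintype (Iner j θ)] {ρ : Representation ℂ H V} (hρ : Irr ρ) :
    (∏ i, (Fintype.card (Fib θ i)).factorial : ℕ) *
      ∑ s, Complex.normSq (push (proj j θ) (fun x => lam t B θ (j x) * ρ.character x) s) ≤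
      (2 : ℕ) * (Nat.card (Iner j θ) : ℝ) ^ 2 := by
  have h3 : ∑ x, Complex.normSq (ρ.character x) = Nat.card H := by
    have h4 := hρ.sum_norm
    simp only [char_inv, Complex.mul_conj] at h4
    rw [Nat.card_eq_fintype_card]
    exact_mod_cast h4
  have h1 : ∑ s, Complex.normSq (push (proj j θ) (fun x => lam t B θ (j x) * ρ.character x) s) =
      EE t B j ρ.character θ := by
    simp only [push_proj]
    exact (sum_subtype (univ.filter fun s : Perm α => θ ∘ s = θ)
      (fun s => ⟨fun h => (mem_filter.1 h).2, fun h => mem_filter.2 ⟨mem_univ _, h⟩⟩)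
      fun s => Complex.normSq (FF t B j ρ.character θ s)).symm
  have h2 : ((Fintype.card K : ℝ) ^ Fintype.card α *
      (∏ i, (Fintype.card (Fib θ i)).factorial : ℕ) : ℝ) ≤ 2 * Nat.card (Iner j θ) := by
    exact_mod_cast iner_card j hH θ
  have h4 := mul_le_mul_of_nonneg_left (h.EE_le hj ρ.char_conj h3 θ)
    (Nat.cast_nonneg (α := ℝ) (∏ i, (Fintype.card (Fib θ i)).factorial))
  have h5 := mul_le_mul_of_nonneg_left h2 (Nat.cast_nonneg (α := ℝ) (Nat.card (Iner j θ)))
  rw [h1, Nat.cast_ofNat]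
  nlinarith

end rep

theorem pint_comb {p m n c : ℕ} (hp : p.Prime) (hmn : m.Coprime n) (hc : m ^ 2 + n ^ 2 = p * c)
    {x y : ℂ} (i1 : x ∈ PInt hp) (i2 : y ∈ PInt hp) (h : n * x = m * y ∨ m * x + n * y = 0) :
    (m * x + n * y) / p ∈ PInt hp := by
  have hp0 : (p : ℂ) ≠ 0 := by exact_mod_cast hp.ne_zero
  have hc' : (m : ℂ) ^ 2 + (n : ℂ) ^ 2 = p * c := by exact_mod_cast hc
  rcases h with h1 | h1
  · obtain ⟨u, w, huw⟩ := Nat.isCoprime_iff_coprime.2 hmn
    have huw' : (u : ℂ) * m + w * n = 1 := by exact_mod_cast huw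
    have h2 : (m * x + n * y) / p = c * (u * x + w * y) := by
      rw [div_eq_iff hp0]
      linear_combination (u * x + w * y) * hc' - (m * x + n * y) * huw' + (w * m - u * n) * h1
    rw [h2]
    exact mul_mem (natCast_mem _ c)
      (add_mem (mul_mem (intCast_mem _ u) i1) (mul_mem (intCast_mem _ w) i2))
  · rw [h1, zero_div]
    exact zero_mem _

/-- Semiproportional irreducible characters of a subgroup of index at most two in a wreath product
have the same degree. -/
theorem degree_eq_wr {V U : Type} [AddCommGroup V] [Module ℂ V] [FiniteDimensional ℂ V]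
    [AddCommGroup U] [Module ℂ U] [FiniteDimensional ℂ U]
    (hK : ∀ p : ℕ, p.Prime → p ∣ Nat.card K → p % 4 ≠ 1) {j : H →* Wr α K} (hj : Injective j)
    (hH : Fintype.card K ^ Fintype.card α * (Fintype.card α).factorial ≤ 2 * Nat.card H)
    {ρ : Representation ℂ H V} {σ : Representation ℂ H U} (hρ : Irr ρ) (hσ : Irr σ)
    (hrel : ∀ g, (finrank ℂ U : ℂ) * ρ.character g = finrank ℂ V * σ.character g ∨
      (finrank ℂ V : ℂ) * ρ.character g = -(finrank ℂ U * σ.character g)) :
    finrank ℂ V = finrank ℂ U := by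
  classical
  by_contra hne
  have hV := hρ.finrank_pos
  have hU := hσ.finrank_pos
  have hg : 0 < Nat.gcd (finrank ℂ V) (finrank ℂ U) := Nat.gcd_pos_of_pos_left _ hV
  have hmn := Nat.coprime_div_gcd_div_gcd hg
  have e1 := Nat.mul_div_cancel' (Nat.gcd_dvd_left (finrank ℂ V) (finrank ℂ U))
  have e2 := Nat.mul_div_cancel' (Nat.gcd_dvd_right (finrank ℂ V) (finrank ℂ U))
  generalize finrank ℂ V / Nat.gcd (finrank ℂ V) (finrank ℂ U) = m at hmn e1
  generalize finrank ℂ U / Nat.gcd (finrank ℂ V) (finrank ℂ U) = n at hmn e2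
  generalize Nat.gcd (finrank ℂ V) (finrank ℂ U) = t at hg e1 e2
  have hm := Nat.pos_of_mul_pos_left (e1 ▸ hV)
  obtain ⟨p, hp, h4, c, hc⟩ := exists_prime hmn hm
    (Nat.pos_of_mul_pos_left (e2 ▸ hU)) fun h => hne (by rw [← e1, ← e2, h])
  have ht : (t : ℂ) ≠ 0 := by exact_mod_cast hg.ne'
  have hpK : ¬ p ∣ Nat.card K := fun h => hK p hp h (by
    have h1 := Nat.mod_four_ne_three_of_mem_primeFactors_of_isSquare_neg_one
      (Nat.mem_primeFactors.2 ⟨hp, ⟨c, hc⟩, by positivity⟩)
      (ZMod.isSquare_neg_one_of_eq_sq_add_sq_of_coprime rfl hmn)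
    have h2 := hp.eq_two_or_odd
    omega)
  obtain ⟨r, d, B, h⟩ := exists_fou K
  generalize (Sigma.fst : (Σ i, Fin (d i)) → Fin r) = u at h
  obtain ⟨θ, hθ⟩ : ∃ θ, FF u B j ρ.character θ 1 ≠ 0 := by
    by_contra h0
    have h1 : ∑ θ : α → Fin r, (∏ a, (bs u (θ a) : ℂ)) *
        FF u B j ρ.character θ 1 = 0 :=
      sum_eq_zero fun θ _ => by rw [not_not.1 fun h2 => h0 ⟨θ, h2⟩, mul_zero]
    simp only [FF, mul_sum, ← mul_assoc] at h1
    have h2 : ∀ x : H, (j x).right = 1 → j x = ⟨(j x).left, 1⟩ :=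
      fun x hx => SemidirectProduct.ext rfl hx
    rw [sum_comm, sum_eq_single_of_mem 1 (by simp) fun x hx h3 => by
      rw [← sum_mul, h2 x (mem_filter.1 hx).2, h.sum_lam, if_neg fun h4 : (j x).left = 1 => h3 (hj
        ((SemidirectProduct.ext (y := 1) h4 (mem_filter.1 hx).2).trans (map_one j).symm)), zero_mul],
      ← sum_mul, h2 1 (by simp), h.sum_lam, if_pos (by simp), Representation.char_one] at h1
    exact mul_ne_zero (pow_ne_zero _ (Nat.cast_ne_zero.2 Fintype.card_ne_zero))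
      (Nat.cast_ne_zero.2 hV.ne') h1
  refine young_false hp h4 hmn ⟨c, hc⟩ (proj j θ) (fun x hx h1 => hpK (h1.trans ?_))
    (h.twist j θ ρ hp).1 (h.twist j θ σ hp).1 (by rwa [push_proj])
    (h.bound hj hH θ hρ) (h.bound hj hH θ hσ) fun x => pint_comb hp hmn hc
      ((h.twist j θ ρ hp).2 x) ((h.twist j θ σ hp).2 x) ?_
  · have h2 : j x = SemidirectProduct.inl (j x).left :=
      SemidirectProduct.ext rfl (congrArg Subtype.val hx)
    rw [← Subgroup.orderOf_coe, ← orderOf_injective j hj, h2, orderOf_dvd_iff_pow_eq_one, ← map_pow,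
      show (j x).left ^ Nat.card K = 1 from funext fun a => pow_card_eq_one', map_one]
  · have e1' : (finrank ℂ V : ℂ) = t * m := by exact_mod_cast e1.symm
    have e2' : (finrank ℂ U : ℂ) = t * n := by exact_mod_cast e2.symm
    refine (hrel x).imp (fun h => mul_left_cancel₀ ht ?_) fun h => mul_left_cancel₀ ht ?_
    · rw [e1', e2'] at h
      linear_combination lam u B θ (j x) * h
    · rw [e1', e2'] at h
      linear_combination lam u B θ (j x) * h

end Pool.Agent.SemiProp.Alt
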